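import Mathlib

set_option autoImplicit false

/-!
# The number of prime divisors of an integer
-/

namespace Pool.Agent.RI

open Rat.HeightOneSpectrum IsDedekindDomain NumberField

theorem Avg.factorial_le_prod : ∀ (s : ℕ) (P : Finset ℕ), P.card = s → (∀ p ∈ P, 1 ≤ p) →
    s.factorial ≤ ∏ p ∈ P, p := by
  intro s
  induction s with
  | zero =>
    intro P hP _
    rw [Finset.card_eq_zero.1 hP]
    simp
  | succ s ih =>
    intro P hP h1
    have hne : P.Nonempty := by
      rw [← Finset.card_pos]
      omega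
    have hm := P.max'_mem hne
    have hcard : (P.erase (P.max' hne)).card = s := by
      rw [Finset.card_erase_of_mem hm, hP]
      rfl
    have h2 := ih (P.erase (P.max' hne)) hcard fun p hp => h1 p (Finset.mem_of_mem_erase hp)
    have h3 : s + 1 ≤ P.max' hne := by
      have h4 : P ⊆ Finset.Icc 1 (P.max' hne) := fun p hp =>
        Finset.mem_Icc.2 ⟨h1 p hp, P.le_max' p hp⟩
      have h5 := Finset.card_le_card h4
      rw [hP, Nat.card_Icc] at h5
      omega
    rw [Nat.factorial_succ, ← Finset.mul_prod_erase P (fun p => p) hm]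
    exact Nat.mul_le_mul h3 h2

/-- The number of prime divisors: `(s + 1) log (s + 2) ≤ 9 (1 + log n)`. -/
theorem Avg.omega_bound (n : ℕ) (hn : n ≠ 0) :
    ((n.primeFactors.card : ℝ) + 1) * Real.log (n.primeFactors.card + 2) ≤
      9 * (1 + Real.log n) := by
  set s := n.primeFactors.card with hs
  have hprod : ∏ p ∈ n.primeFactors, p ≤ n :=
    Nat.le_of_dvd (Nat.pos_of_ne_zero hn) (Nat.prod_primeFactors_dvd n)
  have h1 : s.factorial ≤ n :=
    (Avg.factorial_le_prod s n.primeFactors hs.symm fun p hp =>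
      (Nat.prime_of_mem_primeFactors hp).one_le).trans hprod
  have h2 : 2 ^ s ≤ n := by
    refine le_trans ?_ hprod
    rw [hs]
    exact Finset.pow_card_le_prod _ _ _ fun p hp => (Nat.prime_of_mem_primeFactors hp).two_le
  have hn1 : (1 : ℝ) ≤ n := by exact_mod_cast Nat.one_le_iff_ne_zero.2 hn
  set L := Real.log n with hL
  have hL0 : 0 ≤ L := Real.log_nonneg hn1
  have hl2 : (0.6931 : ℝ) < Real.log 2 := by linarith [Real.log_two_gt_d9]
  have hl2' : Real.log 2 < 0.6932 := by linarith [Real.log_two_lt_d9]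
  have h3 : (s : ℝ) * Real.log 2 ≤ L := by
    rw [← Real.log_pow]
    refine Real.log_le_log (by positivity) ?_
    exact_mod_cast h2
  have hs0 : (0 : ℝ) ≤ s := Nat.cast_nonneg s
  have h4 : (s : ℝ) ≤ 3 / 2 * L := by nlinarith
  rcases Nat.eq_zero_or_pos s with h0 | hpos
  · rw [h0, Nat.cast_zero, zero_add, zero_add, one_mul]
    linarith
  have hs1 : (1 : ℝ) ≤ s := by exact_mod_cast hpos
  have h5 : (s : ℝ) * Real.log s ≤ L + s := by
    have h6 := Real.pow_div_factorial_le_exp (s : ℝ) hs0 s
    have hf : (0 : ℝ) < s.factorial := by exact_mod_cast s.factorial_pos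
    rw [div_le_iff₀ hf] at h6
    have h7 := Real.log_le_log (by positivity) h6
    rw [Real.log_pow, Real.log_mul (Real.exp_pos _).ne' hf.ne', Real.log_exp] at h7
    have h8 : Real.log s.factorial ≤ L := by
      refine Real.log_le_log hf ?_
      exact_mod_cast h1
    linarith
  have h6 : Real.log ((s : ℝ) + 2) ≤ Real.log s + 2 * Real.log 2 := by
    have h7 : (s : ℝ) + 2 ≤ s * 2 ^ 2 := by nlinarith
    have h8 := Real.log_le_log (by linarith) h7
    rw [Real.log_mul (by linarith) (by norm_num), Real.log_pow] at h8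
    push_cast at h8
    exact h8
  have h9 : 0 ≤ Real.log s := Real.log_nonneg hs1
  have h10 : ((s : ℝ) + 1) * Real.log (s + 2) ≤ (2 * s) * (Real.log s + 2 * Real.log 2) := by
    refine mul_le_mul (by linarith) h6 (Real.log_nonneg (by linarith)) (by linarith)
  nlinarith

/-- The primes of `ℚ` which divide a nonzero integer. -/
theorem Avg.exists_primes (n : ℤ) (hn : n ≠ 0) :
    ∃ B : Finset (HeightOneSpectrum (𝓞 ℚ)), B.card ≤ n.natAbs.primeFactors.card ∧
      ∀ v : HeightOneSpectrum (𝓞 ℚ), (n : 𝓞 ℚ) ∈ v.asIdeal → v ∈ B := by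
  classical
  have hinj : Function.Injective (natGenerator (R := 𝓞 ℚ)) := by
    intro v w h
    exact primesEquiv.injective (Subtype.ext h)
  refine ⟨n.natAbs.primeFactors.preimage _ hinj.injOn, ?_, ?_⟩
  · refine Finset.card_le_card_of_injOn _ ?_ hinj.injOn
    intro v hv
    exact Finset.mem_preimage.1 hv
  · intro v hv
    rw [Finset.mem_preimage, Nat.mem_primeFactors]
    refine ⟨prime_natGenerator v, ?_, Int.natAbs_ne_zero.2 hn⟩
    rw [natGenerator_dvd_iff]
    have h1 := Ideal.mem_map_of_mem (Rat.IsIntegralClosure.intEquiv (𝓞 ℚ)) hv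
    rw [map_intCast] at h1
    rw [Int.cast_id] at h1
    have h2 : ((n.natAbs : ℕ) : ℤ) = n.sign * n := by
      rw [Int.sign_mul_self_eq_natAbs]
    rw [h2]
    exact Ideal.mul_mem_left _ _ h1

end Pool.Agent.RI
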