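import Pool.Agent.RDF.Fib

set_option autoImplicit false

/-!
# Conjugation of a lift `Φ = (F, G)` by a matrix of `GL_2`
-/

namespace Pool.Agent.RI

open Polynomial Pool.Agent.RDF

/-- The action of a matrix on a vector. -/
def act {L : Type*} [CommRing L] (A : Matrix (Fin 2) (Fin 2) L) (p : L × L) : L × L :=
  (A 0 0 * p.1 + A 0 1 * p.2, A 1 0 * p.1 + A 1 1 * p.2)

section ring

variable {L : Type*} [CommRing L]

theorem wedge_act (A : Matrix (Fin 2) (Fin 2) L) (p q : L × L) :
    wedge (act A p) (act A q) = A.det * wedge p q := by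
  rw [Matrix.det_fin_two]
  simp only [wedge, act]
  ring

theorem act_smul (A : Matrix (Fin 2) (Fin 2) L) (c : L) (p : L × L) :
    act A (c • p) = c • act A p := by
  ext <;> simp only [act, Prod.smul_fst, Prod.smul_snd, smul_eq_mul] <;> ring

theorem act_mul (A B : Matrix (Fin 2) (Fin 2) L) (p : L × L) :
    act (A * B) p = act A (act B p) := by
  ext <;> simp only [act, Matrix.mul_apply, Fin.sum_univ_two] <;> ring

theorem act_one (p : L × L) : act (1 : Matrix (Fin 2) (Fin 2) L) p = p := by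
  ext <;> simp [act]

theorem act_zero (A : Matrix (Fin 2) (Fin 2) L) : act A 0 = 0 := by
  ext <;> simp [act]

theorem act_adj (A : Matrix (Fin 2) (Fin 2) L) (p : L × L) :
    act A (act A.adjugate p) = A.det • p := by
  rw [← act_mul, Matrix.mul_adjugate]
  ext <;> simp [act]

theorem wedge_act_left (A : Matrix (Fin 2) (Fin 2) L) (p q : L × L) :
    wedge (act A p) q = wedge p (act A.adjugate q) := by
  rw [Matrix.adjugate_fin_two]
  simp only [wedge, act, Matrix.of_apply, Matrix.cons_val', Matrix.cons_val_zero,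
    Matrix.cons_val_one, Matrix.cons_val_fin_one]
  ring

/-- A relation `Φ' ∘ A = A ∘ Φ` holds for the iterates. -/
theorem act_iter (A : Matrix (Fin 2) (Fin 2) L) (d : ℕ) (F G F' G' : L[X])
    (h : ∀ p, lift d F' G' (act A p) = act A (lift d F G p)) (k : ℕ) (p : L × L) :
    (lift d F' G')^[k] (act A p) = act A ((lift d F G)^[k] p) := by
  induction k generalizing p with
  | zero => rfl
  | succ k ih => rw [Function.iterate_succ_apply, Function.iterate_succ_apply, h, ih]

end ring

section field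

variable {L : Type*} [Field L]

theorem act_ne_zero (A : Matrix (Fin 2) (Fin 2) L) (hA : A.det ≠ 0) {p : L × L} (hp : p ≠ 0) :
    act A p ≠ 0 := by
  intro h
  have h1 : act A⁻¹ (act A p) = p := by
    rw [← act_mul, Matrix.nonsing_inv_mul _ (isUnit_iff_ne_zero.2 hA), act_one]
  rw [h, act_zero] at h1
  exact hp h1.symm

theorem act_inv_act (A : Matrix (Fin 2) (Fin 2) L) (hA : A.det ≠ 0) (p : L × L) :
    act A⁻¹ (act A p) = p := by
  rw [← act_mul, Matrix.nonsing_inv_mul _ (isUnit_iff_ne_zero.2 hA), act_one]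

theorem act_act_inv (A : Matrix (Fin 2) (Fin 2) L) (hA : A.det ≠ 0) (p : L × L) :
    act A (act A⁻¹ p) = p := by
  rw [← act_mul, Matrix.mul_nonsing_inv _ (isUnit_iff_ne_zero.2 hA), act_one]

variable [IsAlgClosed L]

/-- Linear substitution. -/
theorem exists_sub (d : ℕ) (hd : 1 ≤ d) (F G : L[X]) (hF : F.natDegree ≤ d)
    (hG : G.natDegree ≤ d) (B : Matrix (Fin 2) (Fin 2) L) :
    ∃ F' G' : L[X], F'.natDegree ≤ d ∧ G'.natDegree ≤ d ∧
      (∀ p, lift d F' G' p = lift d F G (act B p)) ∧
      resultant F' G' d d = B.det ^ (d ^ 2) * resultant F G d d := by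
  classical
  obtain ⟨c, z, -, hFz⟩ := exists_factor (AbsoluteValue.trivial : AbsoluteValue L ℝ) d F hF
  obtain ⟨c', z', -, hGz⟩ := exists_factor (AbsoluteValue.trivial : AbsoluteValue L ℝ) d G hG
  have key : ∀ (c : L) (z : Fin d → L × L) (F : L[X]), F = C c * ∏ i, lin (z i) → ∀ p,
      form d F p = c * ∏ i, wedge p (z i) := by
    intro c z F h p
    rw [h, form_C_mul, form_prod_lin]
  have keyB : ∀ (c : L) (z : Fin d → L × L) (F : L[X]), F = C c * ∏ i, lin (z i) → ∀ p,
      form d (C c * ∏ i, lin (act B.adjugate (z i))) p = form d F (act B p) := by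
    intro c z F h p
    rw [key c z F h, form_C_mul, form_prod_lin]
    congr 1
    exact Finset.prod_congr rfl fun i _ => (wedge_act_left B p (z i)).symm
  have deg : ∀ (c : L) (z : Fin d → L × L), (C c * ∏ i, lin (z i)).natDegree ≤ d := fun c z =>
    (natDegree_C_mul_le _ _).trans (natDegree_prod_lin_le d z)
  refine ⟨C c * ∏ i, lin (act B.adjugate (z i)), C c' * ∏ i, lin (act B.adjugate (z' i)),
    deg _ _, deg _ _, fun p => ?_, ?_⟩
  · rw [lift, lift, keyB c z F hFz, keyB c' z' G hGz]
  · rw [resultant_eq_prod_form d hd F G hF hG c z (key c z F hFz),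
      resultant_eq_prod_form d hd _ _ (deg _ _) (deg _ _) c (fun i => act B.adjugate (z i))
        (key c _ _ rfl)]
    have h1 : ∀ i, form d (C c' * ∏ i, lin (act B.adjugate (z' i))) (act B.adjugate (z i)) =
        B.det ^ d * form d G (z i) := by
      intro i
      rw [keyB c' z' G hGz, act_adj, form_smul]
    rw [Finset.prod_congr rfl fun i _ => h1 i, Finset.prod_mul_distrib, Finset.prod_const,
      Finset.card_univ, Fintype.card_fin, ← pow_mul, ← sq]
    ring

/-- Conjugation: `Φ' = A Φ A⁻¹`, `Res(Φ') = det(A)^(d-d²) Res(Φ)`. -/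
theorem exists_conj (d : ℕ) (hd : 1 ≤ d) (F G : L[X]) (hF : F.natDegree ≤ d)
    (hG : G.natDegree ≤ d) (A : Matrix (Fin 2) (Fin 2) L) (hA : A.det ≠ 0) :
    ∃ F' G' : L[X], F'.natDegree ≤ d ∧ G'.natDegree ≤ d ∧
      (∀ p, lift d F' G' (act A p) = act A (lift d F G p)) ∧
      A.det ^ (d ^ 2) * resultant F' G' d d = A.det ^ d * resultant F G d d := by
  obtain ⟨F₁, G₁, hF₁, hG₁, h₁, hR₁⟩ := exists_sub d hd F G hF hG A⁻¹
  have hC : ∀ (r : L) (p : L[X]), p.natDegree ≤ d → (C r * p).natDegree ≤ d := fun r p hp =>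
    (natDegree_C_mul_le r p).trans hp
  refine ⟨C (A 0 0) * F₁ + C (A 0 1) * G₁, C (A 1 0) * F₁ + C (A 1 1) * G₁,
    (natDegree_add_le _ _).trans (max_le (hC _ _ hF₁) (hC _ _ hG₁)),
    (natDegree_add_le _ _).trans (max_le (hC _ _ hF₁) (hC _ _ hG₁)), fun p => ?_, ?_⟩
  · have h2 : lift d F₁ G₁ (act A p) = lift d F G p := by rw [h₁, act_inv_act A hA]
    rw [← h2]
    have hadd : ∀ (P Q : L[X]) (r s : L) (q : L × L),
        form d (C r * P + C s * Q) q = r * form d P q + s * form d Q q := by
      intro P Q r s q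
      simp only [form, coeff_add, coeff_C_mul, Finset.mul_sum, ← Finset.sum_add_distrib]
      exact Finset.sum_congr rfl fun i _ => by ring
    ext
    · simp only [lift, act, hadd]
    · simp only [lift, act, hadd]
  · rw [resultant_lin d F₁ G₁ hF₁ hG₁, hR₁, Matrix.det_nonsing_inv, Ring.inverse_eq_inv',
      ← Matrix.det_fin_two, inv_pow]
    field_simp

end field

end Pool.Agent.RI
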