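import Mathlib
import Pool.Agent.RDF.NDefs
import Pool.Agent.PQ.Defs
import Pool.Agent.RI.Conj

set_option autoImplicit false

/-!
# Rational functions without a height condition: definitions of the global part
-/

namespace Pool.Agent.RI

open Polynomial NumberField IsDedekindDomain Pool.Agent.GPoly
open Pool.Agent.RDF (lift wedge form nrm UU mat Above DefectiveN coeffs)

/-- A nonzero preperiodic vector of the lift `Φ = (F, G)`. -/
def PreV {E : Type} [Field E] (d : ℕ) (F G : E[X]) (z : E × E) : Prop :=
  z ≠ 0 ∧ ∃ a b : ℕ, a < b ∧ (lift d F G)^[a] z = (lift d F G)^[b] z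

/-- The rational function `F / G` has potentially good reduction at `v`: over some number field `L`
containing `K`, after a linear change of variables `g` and multiplication by a constant, the lift
`(F, G)` becomes a pair of forms with integral coefficients, whose resultant is in no prime of `L`
above `v`. -/
def PotGood {K : Type} [Field K] [NumberField K] (d : ℕ) (F G : (𝓞 K)[X])
    (v : HeightOneSpectrum (𝓞 K)) : Prop :=
  ∃ (L : Type) (_ : Field L) (_ : NumberField L) (_ : Algebra K L)
    (g : Matrix (Fin 2) (Fin 2) L) (t : L) (F' G' : (𝓞 L)[X]),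
    g.det ≠ 0 ∧ t ≠ 0 ∧ F'.natDegree ≤ d ∧ G'.natDegree ≤ d ∧
    (∀ p : L × L, act g (lift d (F'.map (algebraMap (𝓞 L) L)) (G'.map (algebraMap (𝓞 L) L)) p) =
      t • lift d (F.map (algebraMap (𝓞 K) L)) (G.map (algebraMap (𝓞 K) L)) (act g p)) ∧
    ∀ w : HeightOneSpectrum (𝓞 L), Above v w → resultant F' G' d d ∉ w.asIdeal

/-- A multiple of `p` has both coordinates in a subextension of degree at most `N`. -/
def PDegLe (K : Type) {L : Type} [Field K] [Field L] [Algebra K L] (N : ℕ) (p : L × L) : Prop :=
  ∃ c : L, c ≠ 0 ∧ Pool.Agent.RDF.DegLe K N (c • p)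

end Pool.Agent.RI
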