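import Mathlib
import Pool.Agent.RI.GDefs
import Pool.Agent.RDF.NLoc
import Pool.Agent.RDF.Star

set_option autoImplicit false

/-!
# The local estimates at a place of `L`
-/

namespace Pool.Agent.RI

open Polynomial NumberField IsDedekindDomain Pool.Agent.GPoly
open Pool.Agent.RDF (lift wedge form nrm UU mat Above DefectiveN coeffs)

namespace GLoc

theorem preV_iter {E : Type} [Field E] {d : ℕ} (hd : 1 ≤ d) {F G : E[X]} (hF : F.natDegree ≤ d)
    (hG : G.natDegree ≤ d) (hR : resultant F G d d ≠ 0) {z : E × E} (hz : PreV d F G z) (k : ℕ) :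
    PreV d F G ((lift d F G)^[k] z) := by
  obtain ⟨h0, a, b, hab, h⟩ := hz
  refine ⟨RDF.iter_ne_zero d hd F G hF hG hR k h0, a, b, hab, ?_⟩
  rw [← Function.iterate_add_apply, ← Function.iterate_add_apply, add_comm a k, add_comm b k,
    Function.iterate_add_apply, Function.iterate_add_apply, h]

/-- The norm of an exact preperiodic vector. -/
theorem log_nrm_le {E : Type} [Field E] (abv : AbsoluteValue E ℝ) (hna : IsNonarchimedean abv)
    {d : ℕ} (hd : 2 ≤ d) {F G : E[X]} (hF : F.natDegree ≤ d) (hG : G.natDegree ≤ d)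
    (hR : resultant F G d d ≠ 0) (hBF : ∀ i, abv (F.coeff i) ≤ 1) (hBG : ∀ i, abv (G.coeff i) ≤ 1)
    {z : E × E} (hz : PreV d F G z) :
    ((d : ℝ) - 1) * Real.log (nrm abv z) ≤ -Real.log (abv (resultant F G d d)) := by
  by_contra hcon
  rw [not_le] at hcon
  obtain ⟨h0, a, b, hab, h⟩ := hz
  have hd2 : (2 : ℝ) ≤ d := by exact_mod_cast hd
  set u : ℕ → ℝ := fun n => Real.log (nrm abv ((lift d F G)^[n] z)) with hu
  have hne : ∀ n, (lift d F G)^[n] z ≠ 0 := fun n =>
    RDF.iter_ne_zero d (by omega) F G hF hG hR n h0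
  have hstep : ∀ n, Real.log (abv (resultant F G d d)) + d * u n ≤ u (n + 1) := by
    intro n
    have h1 := RDF.nrm_lift_ge abv hna d (by omega) F G hF hG 1 hBF hBG ((lift d F G)^[n] z)
    rw [one_pow, one_mul] at h1
    have h2 : 0 < nrm abv ((lift d F G)^[n] z) := RDF.nrm_pos abv (hne n)
    have h3 : 0 < abv (resultant F G d d) := abv.pos hR
    have h4 := Real.log_le_log (mul_pos h3 (pow_pos h2 d)) h1
    rw [Real.log_mul h3.ne' (pow_pos h2 d).ne', Real.log_pow] at h4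
    rw [hu]
    simp only [Function.iterate_succ_apply']
    exact h4
  have hbig : ∀ n, -Real.log (abv (resultant F G d d)) < ((d : ℝ) - 1) * u n := by
    intro n
    induction n with
    | zero => exact hcon
    | succ n ih =>
      have h1 := hstep n
      have h2 : u n ≤ u (n + 1) := by linarith
      have h3 : ((d : ℝ) - 1) * u n ≤ (d - 1) * u (n + 1) :=
        mul_le_mul_of_nonneg_left h2 (by linarith)
      linarith
  have hmono : StrictMono u := by
    refine strictMono_nat_of_lt_succ fun n => ?_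
    have h1 := hstep n
    have h2 := hbig n
    linarith
  have h5 := hmono hab
  rw [hu] at h5
  simp only [h] at h5
  exact lt_irrefl _ h5

/-- `UU` of an exact preperiodic vector. -/
theorem UU_le {E : Type} [Field E] (abv : AbsoluteValue E ℝ) (hna : IsNonarchimedean abv)
    {d : ℕ} (hd : 2 ≤ d) {F G : E[X]} (hF : F.natDegree ≤ d) (hG : G.natDegree ≤ d)
    (hR : resultant F G d d ≠ 0) (hBF : ∀ i, abv (F.coeff i) ≤ 1) (hBG : ∀ i, abv (G.coeff i) ≤ 1)
    {z : E × E} (hz : PreV d F G z) (m : ℕ) :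
    UU abv d m F G z ≤ m * (-Real.log (abv (resultant F G d d))) := by
  rw [UU, Finset.mul_sum]
  refine (Finset.sum_le_card_nsmul _ _ _ fun k _ =>
    log_nrm_le abv hna hd hF hG hR hBF hBG (preV_iter (by omega) hF hG hR hz k)).trans ?_
  rw [Finset.card_range, nsmul_eq_mul]

/-- The generic bound. -/
theorem of_det {E : Type} [Field E] (abv : AbsoluteValue E ℝ) (hna : IsNonarchimedean abv)
    {d : ℕ} (hd : 2 ≤ d) {F G : E[X]} (hF : F.natDegree ≤ d) (hG : G.natDegree ≤ d)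
    (hR : resultant F G d d ≠ 0) (hBF : ∀ i, abv (F.coeff i) ≤ 1) (hBG : ∀ i, abv (G.coeff i) ≤ 1)
    (hR1 : abv (resultant F G d d) ≤ 1) (m : ℕ) (z : Fin (d ^ m) → E × E)
    (hz : ∀ i, PreV d F G (z i)) (hw : ∀ i j, i ≠ j → wedge (z i) (z j) ≠ 0) (B : ℝ)
    (hB : Real.log (abv (mat d m F G z).det) ≤ ∑ i, UU abv d m F G (z i) - B) :
    ∑ i, ∑ j ∈ Finset.univ.erase i, Real.log (abv (wedge (z i) (z j))) ≤
      ((d : ℝ) ^ m * ((d : ℝ) ^ m - 1)) *
        (-Real.log (abv (resultant F G d d)) / (d * (d - 1))) +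
      2 * m * (d : ℝ) ^ m * (-Real.log (abv (resultant F G d d))) - 2 * B := by
  have hd2 : (2 : ℝ) ≤ d := by exact_mod_cast hd
  have h1 := RDF.log_det_eq abv d m (by omega) F G hF hG hR z hw
  set ρ : ℝ := -Real.log (abv (resultant F G d d)) with hρ
  have hρ0 : 0 ≤ ρ := by
    have := Real.log_nonpos (abv.nonneg _) hR1
    linarith
  have hlog : Real.log (abv (resultant F G d d)) = -ρ := by rw [hρ]; ring
  rw [hlog] at h1
  have h2 : ∑ i, UU abv d m F G (z i) ≤ (d : ℝ) ^ m * (m * ρ) := by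
    refine (Finset.sum_le_card_nsmul _ _ _ fun i _ =>
      UU_le abv hna hd hF hG hR hBF hBG (hz i) m).trans ?_
    rw [Finset.card_univ, Fintype.card_fin, nsmul_eq_mul]
    push_cast
    exact le_refl _
  have h3 : 2 * (RDF.rr d m : ℝ) ≤ (d : ℝ) ^ m * ((d : ℝ) ^ m - 1) / (d * (d - 1)) := by
    rw [le_div_iff₀ (by nlinarith)]
    have h4 := RDF.rr_closed d m (by omega : 1 ≤ d)
    have h5 : ((2 * d * (d - 1) * RDF.rr d m + m * (d - 1) * d ^ m : ℕ) : ℝ) =
        ((d ^ m * (d ^ m - 1) : ℕ) : ℝ) := by rw [h4]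
    have h6 : 1 ≤ d ^ m := Nat.one_le_pow _ _ (by omega)
    push_cast [Nat.cast_sub (by omega : 1 ≤ d), Nat.cast_sub h6] at h5
    have h7 : (0 : ℝ) ≤ m * (d - 1) * (d : ℝ) ^ m := by
      have : (0 : ℝ) ≤ d - 1 := by linarith
      positivity
    show 2 * (RDF.rr d m : ℝ) * (d * (d - 1)) ≤ _
    linarith
  have h8 : 2 * (RDF.rr d m : ℝ) * ρ ≤ (d : ℝ) ^ m * ((d : ℝ) ^ m - 1) / (d * (d - 1)) * ρ :=
    mul_le_mul_of_nonneg_right h3 hρ0
  have h9 : (d : ℝ) ^ m * ((d : ℝ) ^ m - 1) / (d * (d - 1)) * ρ =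
      (d : ℝ) ^ m * ((d : ℝ) ^ m - 1) * (ρ / (d * (d - 1))) := by ring
  have h10 : 2 * ((d : ℝ) ^ m * (m * ρ)) = 2 * m * (d : ℝ) ^ m * ρ := by ring
  linarith

end GLoc

end Pool.Agent.RI
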