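import Pool.Agent.RI.Conj

set_option autoImplicit false

/-!
# A pair with large one-step defect

For a lift `Φ` which is nearly minimal among its conjugates and points which look, two by two,
equally far from each other, some pair `i < j` has
`V(i, j) = -log|R|/d² + (log|Φ p_i ∧ p_j| + log|Φ p_j ∧ p_i|)/d - (1 + 1/d) log|p_i ∧ p_j|` at least
`(λ - 1)/d² - C δ - C`.
-/

namespace Pool.Agent.RI

open Polynomial Pool.Agent.RDF

variable {L : Type*} [Field L]

theorem coeff_prod_le (abv : AbsoluteValue L ℝ) {ι : Type*} [DecidableEq ι] (t : Finset ι)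
    (r a : ι → L) (k : ℕ) :
    abv ((∏ j ∈ t, (C (r j) * (X - C (a j)))).coeff k) ≤ ∏ j ∈ t, (abv (r j) * (1 + abv (a j))) := by
  induction t using Finset.induction_on generalizing k with
  | empty =>
    rw [Finset.prod_empty, Finset.prod_empty, coeff_one]
    split_ifs <;> simp
  | insert i t hi ih =>
    rw [Finset.prod_insert hi, Finset.prod_insert hi]
    have h1 : (C (r i) * (X - C (a i)) * ∏ j ∈ t, (C (r j) * (X - C (a j)))).coeff k =
        r i * ((X * ∏ j ∈ t, (C (r j) * (X - C (a j)))).coeff k -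
          a i * (∏ j ∈ t, (C (r j) * (X - C (a j)))).coeff k) := by
      rw [mul_assoc, coeff_C_mul, sub_mul, coeff_sub, coeff_C_mul]
    have h0 : 0 ≤ ∏ j ∈ t, (abv (r j) * (1 + abv (a j))) :=
      Finset.prod_nonneg fun j _ => mul_nonneg (abv.nonneg _) (by linarith [abv.nonneg (a j)])
    have h2 : abv ((X * ∏ j ∈ t, (C (r j) * (X - C (a j)))).coeff k) ≤
        ∏ j ∈ t, (abv (r j) * (1 + abv (a j))) := by
      cases k with
      | zero => simpa using h0
      | succ k => rw [coeff_X_mul]; exact ih k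
    rw [h1, map_mul, mul_assoc]
    refine mul_le_mul_of_nonneg_left ?_ (abv.nonneg _)
    refine (abv.sub_le_add _ _).trans ?_
    rw [map_mul, add_mul, one_mul]
    exact add_le_add h2 (mul_le_mul_of_nonneg_left (ih k) (abv.nonneg _))

/-- Lagrange interpolation bounds the coefficients by the values. -/
theorem coeff_le_of_eval (abv : AbsoluteValue L ℝ) {ι : Type*} [DecidableEq ι] (d : ℕ) (P : L[X])
    (hP : P.natDegree ≤ d) (s : Finset ι) (hs : s.card = d + 1) (x : ι → L) (A B E : ℝ)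
    (hB : 0 < B) (hE : 0 ≤ E) (hx : ∀ i ∈ s, abv (x i) ≤ A)
    (hxy : ∀ i ∈ s, ∀ j ∈ s, i ≠ j → B ≤ abv (x i - x j)) (hv : ∀ i ∈ s, abv (P.eval (x i)) ≤ E)
    (k : ℕ) : abv (P.coeff k) ≤ (d + 1) * (E * ((1 + A) / B) ^ d) := by
  have hinj : Set.InjOn x s := by
    intro i hi j hj h
    by_contra hne
    have := hxy i hi j hj hne
    rw [h, sub_self, map_zero] at this
    linarith
  have hdeg : P.degree < s.card := by
    rw [hs]
    refine (degree_le_of_natDegree_le hP).trans_lt ?_
    exact_mod_cast Nat.lt_succ_self d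
  have hi := Lagrange.eq_interpolate_of_eval_eq (f := P) (fun i => P.eval (x i)) hinj hdeg
    fun i _ => rfl
  rw [Lagrange.interpolate_apply] at hi
  rw [hi, finsetSum_coeff]
  refine (abv.sum_le _ _).trans ?_
  have hterm : ∀ i ∈ s, abv ((C (P.eval (x i)) * Lagrange.basis s x i).coeff k) ≤
      E * ((1 + A) / B) ^ d := by
    intro i hi
    rw [coeff_C_mul, map_mul]
    refine mul_le_mul (hv i hi) ?_ (abv.nonneg _) hE
    have hb : Lagrange.basis s x i = ∏ j ∈ s.erase i, (C ((x i - x j)⁻¹) * (X - C (x j))) := rfl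
    rw [hb]
    refine (coeff_prod_le abv _ _ _ k).trans ?_
    refine (Finset.prod_le_prod (fun j _ => mul_nonneg (abv.nonneg _)
      (by linarith [abv.nonneg (x j)])) (g := fun _ => (1 + A) / B) fun j hj => ?_).trans ?_
    · obtain ⟨hne, hj⟩ := Finset.mem_erase.1 hj
      rw [map_inv₀, inv_mul_eq_div]
      refine div_le_div₀ ?_ ?_ hB (hxy i hi j hj hne.symm)
      · linarith [abv.nonneg (x j), hx j hj]
      · linarith [hx j hj]
    · rw [Finset.prod_const, Finset.card_erase_of_mem hi, hs, Nat.add_sub_cancel]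
  refine (Finset.sum_le_sum hterm).trans (le_of_eq ?_)
  rw [Finset.sum_const, hs, nsmul_eq_mul]
  push_cast
  ring

/-- If `q`, `q'` are far from each other, every `u` is far from one of them. -/
theorem nrm_mul_wedge_le (abv : AbsoluteValue L ℝ) (u q q' : L × L) :
    nrm abv u * abv (wedge q q') ≤
      abv (wedge u q') * nrm abv q + abv (wedge u q) * nrm abv q' := by
  have h1 : u.1 * wedge q q' = wedge u q' * q.1 - wedge u q * q'.1 := by
    simp only [wedge]; ring
  have h2 : u.2 * wedge q q' = wedge u q' * q.2 - wedge u q * q'.2 := by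
    simp only [wedge]; ring
  have key : ∀ a b b' : L, a * wedge q q' = wedge u q' * b - wedge u q * b' → abv b ≤ nrm abv q →
      abv b' ≤ nrm abv q' → abv a * abv (wedge q q') ≤
        abv (wedge u q') * nrm abv q + abv (wedge u q) * nrm abv q' := by
    intro a b b' h hb hb'
    rw [← map_mul, h]
    refine (abv.sub_le_add _ _).trans ?_
    rw [map_mul, map_mul]
    exact add_le_add (mul_le_mul_of_nonneg_left hb (abv.nonneg _))
      (mul_le_mul_of_nonneg_left hb' (abv.nonneg _))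
  rcases max_choice (abv u.1) (abv u.2) with h | h
  · rw [nrm, h]
    exact key _ _ _ h1 (le_max_left _ _) (le_max_left _ _)
  · rw [nrm, h]
    exact key _ _ _ h2 (le_max_right _ _) (le_max_right _ _)

/-- Among four points, each spoiling at most one other, two do not spoil each other. -/
theorem exists_pair {α : Type*} [LinearOrder α] (s : Finset α) (hs : 4 ≤ s.card)
    (bad : α → α → Prop)
    (h : ∀ i ∈ s, ∀ j ∈ s, ∀ j' ∈ s, j ≠ i → j' ≠ i → bad i j → bad i j' → j = j') :
    ∃ i ∈ s, ∃ j ∈ s, i < j ∧ ¬ bad i j ∧ ¬ bad j i := by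
  classical
  obtain ⟨t, hts, ht⟩ := Finset.exists_subset_card_eq hs
  by_contra hne
  push Not at hne
  have hor : ∀ i ∈ t, ∀ j ∈ t, i ≠ j → bad i j ∨ bad j i := by
    intro i hi j hj hij
    rcases lt_or_gt_of_ne hij with hlt | hlt
    · by_cases hb : bad i j
      · exact Or.inl hb
      · exact Or.inr (hne i (hts hi) j (hts hj) hlt hb)
    · by_cases hb : bad j i
      · exact Or.inr hb
      · exact Or.inl (hne j (hts hj) i (hts hi) hlt hb)
  set T : Finset (α × α) := t.offDiag.filter fun x => bad x.1 x.2 with hT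
  have hTc : T.card ≤ 4 := by
    rw [← ht]
    refine Finset.card_le_card_of_injOn Prod.fst (fun x hx => ?_) fun x hx y hy hxy => ?_
    · exact (Finset.mem_offDiag.1 (Finset.mem_filter.1 hx).1).1
    · obtain ⟨hx1, hx2⟩ := Finset.mem_filter.1 hx
      obtain ⟨hy1, hy2⟩ := Finset.mem_filter.1 hy
      obtain ⟨hx3, hx4, hx5⟩ := Finset.mem_offDiag.1 hx1
      obtain ⟨hy3, hy4, hy5⟩ := Finset.mem_offDiag.1 hy1
      rw [← hxy] at hy2 hy5
      exact Prod.ext hxy (h _ (hts hx3) _ (hts hx4) _ (hts hy4) hx5.symm hy5.symm hx2 hy2)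
  have hsub : t.offDiag ⊆ T ∪ T.image Prod.swap := by
    intro x hx
    obtain ⟨h1, h2, h3⟩ := Finset.mem_offDiag.1 hx
    rcases hor _ h1 _ h2 h3 with hb | hb
    · exact Finset.mem_union_left _ (Finset.mem_filter.2 ⟨hx, hb⟩)
    · refine Finset.mem_union_right _ (Finset.mem_image.2 ⟨x.swap, Finset.mem_filter.2
        ⟨Finset.mem_offDiag.2 ⟨h2, h1, h3.symm⟩, hb⟩, Prod.swap_swap x⟩)
  have h1 := (Finset.card_le_card hsub).trans ((Finset.card_union_le _ _).trans
    (Nat.add_le_add_left Finset.card_image_le _))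
  rw [Finset.offDiag_card, ht] at h1
  omega

theorem vpair [IsAlgClosed L] (abv : AbsoluteValue L ℝ) (d : ℕ) (hd : 1 ≤ d) (F G : L[X])
    (hF : F.natDegree ≤ d) (hG : G.natDegree ≤ d) (hR : resultant F G d d ≠ 0) (lam : ℝ)
    (hmu : ∀ (A : Matrix (Fin 2) (Fin 2) L) (F' G' : L[X]) (M : ℝ), A.det ≠ 0 →
      F'.natDegree ≤ d → G'.natDegree ≤ d → (∀ p, lift d F' G' (act A p) = act A (lift d F G p)) →
      0 < M → (∀ k, abv (F'.coeff k) ≤ M ∧ abv (G'.coeff k) ≤ M) →
      lam - 1 ≤ - Real.log (abv (resultant F' G' d d)) + 2 * d * Real.log M)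
    {n : ℕ} (hn : d + 7 ≤ n) (p : Fin n → L × L) (γ δ : ℝ) (hδ : 0 ≤ δ)
    (hp : ∀ i j, i ≠ j → wedge (p i) (p j) ≠ 0)
    (hg : ∀ i j, i ≠ j → |Real.log (abv (wedge (p i) (p j))) + γ| ≤ δ) :
    ∃ i j, i < j ∧ wedge (lift d F G (p i)) (p j) ≠ 0 ∧ wedge (lift d F G (p j)) (p i) ≠ 0 ∧
      (lam - 1) / d ^ 2 - 48 * δ - 2 * Real.log ((d + 1) * 2 ^ (d + 2)) ≤
        - Real.log (abv (resultant F G d d)) / d ^ 2 +
          (Real.log (abv (wedge (lift d F G (p i)) (p j))) +
            Real.log (abv (wedge (lift d F G (p j)) (p i)))) / d -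
          (1 + 1 / d) * Real.log (abv (wedge (p i) (p j))) := by
  classical
  -- the three base points
  set i0 : Fin n := ⟨0, by omega⟩ with hi0
  set i1 : Fin n := ⟨1, by omega⟩ with hi1
  set i2 : Fin n := ⟨2, by omega⟩ with hi2
  have h01 : i0 ≠ i1 := by simp [hi0, hi1]
  have h21 : i2 ≠ i1 := by simp [hi2, hi1]
  have h02 : i0 ≠ i2 := by simp [hi0, hi2]
  set w01 := wedge (p i0) (p i1) with hw01
  set w21 := wedge (p i2) (p i1) with hw21
  set w02 := wedge (p i0) (p i2) with hw02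
  have w01n : w01 ≠ 0 := hp _ _ h01
  have w21n : w21 ≠ 0 := hp _ _ h21
  have w02n : w02 ≠ 0 := hp _ _ h02
  set A : Matrix (Fin 2) (Fin 2) L :=
    !![(p i1).2 / w21, -(p i1).1 / w21; -(p i0).2 / w02, (p i0).1 / w02] with hA
  have hact : ∀ x, act A x = (wedge x (p i1) / w21, wedge (p i0) x / w02) := by
    intro x
    ext
    · simp only [act, hA, wedge, Matrix.of_apply, Matrix.cons_val', Matrix.cons_val_zero,
        Matrix.cons_val_one, Matrix.cons_val_fin_one]
      ring
    · simp only [act, hA, wedge, Matrix.of_apply, Matrix.cons_val', Matrix.cons_val_zero,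
        Matrix.cons_val_one, Matrix.cons_val_fin_one]
      ring
  have hdet : A.det = w01 / (w21 * w02) := by
    rw [Matrix.det_fin_two]
    simp only [hA, Matrix.of_apply, Matrix.cons_val', Matrix.cons_val_zero,
        Matrix.cons_val_one, Matrix.cons_val_fin_one]
    rw [hw01]
    simp only [wedge]
    field_simp
  have hdet0 : A.det ≠ 0 := by
    rw [hdet]
    exact div_ne_zero w01n (mul_ne_zero w21n w02n)
  set D := Real.log (abv A.det) with hD
  have hlog : ∀ i j, i ≠ j → -γ - δ ≤ Real.log (abv (wedge (p i) (p j))) ∧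
      Real.log (abv (wedge (p i) (p j))) ≤ -γ + δ := by
    intro i j hij
    have := abs_le.1 (hg i j hij)
    constructor <;> linarith [this.1, this.2]
  have hDe : D = Real.log (abv w01) - (Real.log (abv w21) + Real.log (abv w02)) := by
    rw [hD, hdet, map_div₀, map_mul, Real.log_div (abv.pos w01n).ne'
      (mul_pos (abv.pos w21n) (abv.pos w02n)).ne', Real.log_mul (abv.pos w21n).ne'
      (abv.pos w02n).ne']
  have hD1 : D ≤ γ + 3 * δ := by
    rw [hDe]; linarith [(hlog _ _ h01).2, (hlog _ _ h21).1, (hlog _ _ h02).1]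
  have hD2 : γ - 3 * δ ≤ D := by
    rw [hDe]; linarith [(hlog _ _ h01).1, (hlog _ _ h21).2, (hlog _ _ h02).2]
  obtain ⟨F', G', hF', hG', hconj, hres⟩ := exists_conj d hd F G hF hG A hdet0
  have hR' : resultant F' G' d d ≠ 0 := by
    intro h0
    rw [h0, mul_zero] at hres
    exact (mul_ne_zero (pow_ne_zero d hdet0) hR) hres.symm
  have hresl : (d : ℝ) ^ 2 * D + Real.log (abv (resultant F' G' d d)) =
      d * D + Real.log (abv (resultant F G d d)) := by
    have h1 := congrArg (fun x => Real.log (abv x)) hres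
    simp only [map_mul, map_pow] at h1
    rw [Real.log_mul (pow_ne_zero _ (abv.pos hdet0).ne') (abv.pos hR').ne',
      Real.log_mul (pow_ne_zero _ (abv.pos hdet0).ne') (abv.pos hR).ne', Real.log_pow,
      Real.log_pow, ← hD] at h1
    push_cast at h1
    exact h1
  -- the size of the conjugate
  set M : ℝ := Finset.sup' (Finset.range (d + 1)) ⟨0, by simp⟩
    (fun k => max (abv (F'.coeff k)) (abv (G'.coeff k))) with hM
  have hMk : ∀ k, abv (F'.coeff k) ≤ M ∧ abv (G'.coeff k) ≤ M := by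
    have hM0 : 0 ≤ M := (le_max_of_le_left (abv.nonneg (F'.coeff 0))).trans
      (Finset.le_sup' (fun k => max (abv (F'.coeff k)) (abv (G'.coeff k)))
        (Finset.mem_range.2 (Nat.succ_pos d)))
    intro k
    rcases lt_or_ge d k with hk | hk
    · rw [coeff_eq_zero_of_natDegree_lt (hF'.trans_lt hk),
        coeff_eq_zero_of_natDegree_lt (hG'.trans_lt hk), map_zero]
      exact ⟨hM0, hM0⟩
    · have := Finset.le_sup' (fun k => max (abv (F'.coeff k)) (abv (G'.coeff k)))
        (Finset.mem_range.2 (Nat.lt_succ_of_le hk))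
      exact ⟨(le_max_left _ _).trans this, (le_max_right _ _).trans this⟩
  have hMpos : 0 < M := by
    by_contra hneg
    have hF0 : F' = 0 := by
      ext k
      rw [coeff_zero]
      exact abv.eq_zero.1 (le_antisymm ((hMk k).1.trans (not_lt.1 hneg)) (abv.nonneg _))
    apply hR'
    rw [hF0, resultant_zero_left, zero_pow (by omega), zero_mul]
  have hmu' := hmu A F' G' M hdet0 hF' hG' hconj hMpos hMk
  -- the new points
  set q : Fin n → L × L := fun i => act A (p i) with hq
  set S : Finset (Fin n) := Finset.univ \ {i0, i1, i2} with hS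
  have hSmem : ∀ i ∈ S, i ≠ i0 ∧ i ≠ i1 ∧ i ≠ i2 := by
    intro i hi
    simpa [hS] using hi
  have hq1 : ∀ i ∈ S, (q i).1 ≠ 0 ∧ |Real.log (abv (q i).1)| ≤ 2 * δ := by
    intro i hi
    have hne := hp i i1 (hSmem i hi).2.1
    refine ⟨?_, ?_⟩
    · simp only [hq, hact]
      exact div_ne_zero hne w21n
    · simp only [hq, hact, map_div₀]
      rw [Real.log_div (abv.pos hne).ne' (abv.pos w21n).ne', abs_le]
      have h1 := hlog i i1 (hSmem i hi).2.1
      have h2 := hlog _ _ h21
      constructor <;> linarith [h1.1, h1.2, h2.1, h2.2]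
  have hq2 : ∀ i ∈ S, (q i).2 ≠ 0 ∧ |Real.log (abv (q i).2)| ≤ 2 * δ := by
    intro i hi
    have hne := hp i0 i (hSmem i hi).1.symm
    refine ⟨?_, ?_⟩
    · simp only [hq, hact]
      exact div_ne_zero hne w02n
    · simp only [hq, hact, map_div₀]
      rw [Real.log_div (abv.pos hne).ne' (abv.pos w02n).ne', abs_le]
      have h1 := hlog i0 i (hSmem i hi).1.symm
      have h2 := hlog _ _ h02
      constructor <;> linarith [h1.1, h1.2, h2.1, h2.2]
  have hwq : ∀ i j, i ≠ j → wedge (q i) (q j) ≠ 0 ∧ -4 * δ ≤ Real.log (abv (wedge (q i) (q j))) := by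
    intro i j hij
    have h1 : wedge (q i) (q j) = A.det * wedge (p i) (p j) := wedge_act A _ _
    refine ⟨by rw [h1]; exact mul_ne_zero hdet0 (hp i j hij), ?_⟩
    rw [h1, map_mul, Real.log_mul (abv.pos hdet0).ne' (abv.pos (hp i j hij)).ne', ← hD]
    linarith [(hlog i j hij).1]
  set e := Real.exp δ with he
  have he1 : 1 ≤ e := Real.one_le_exp hδ
  have he0 : 0 < e := Real.exp_pos δ
  have hexp : ∀ (k : ℕ) (t : ℝ), 0 < t → Real.log t ≤ k * δ → t ≤ e ^ k := by
    intro k t ht h
    rw [he, ← Real.exp_nat_mul, ← Real.log_le_iff_le_exp ht]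
    exact h
  have hexp' : ∀ (k : ℕ) (t : ℝ), 0 < t → -(k * δ) ≤ Real.log t → (e ^ k)⁻¹ ≤ t := by
    intro k t ht h
    rw [he, ← Real.exp_nat_mul, ← Real.exp_neg, ← Real.le_log_iff_exp_le ht]
    exact h
  set E0 : ℝ := M / (e ^ (14 * d) * ((d + 1) * 2 ^ (d + 1))) with hE0
  have hE0pos : 0 < E0 := by positivity
  have hlogE0 : Real.log E0 = Real.log M - 14 * d * δ - Real.log ((d + 1) * 2 ^ (d + 1)) := by
    rw [hE0, Real.log_div hMpos.ne' (by positivity), Real.log_mul (by positivity) (by positivity),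
      Real.log_pow, he, Real.log_exp]
    push_cast
    ring
  -- few points with a small value
  set Bad : Finset (Fin n) := S.filter fun i => nrm abv (lift d F' G' (q i)) < E0 with hBad
  have hBadc : Bad.card ≤ d := by
    by_contra hcon
    obtain ⟨s, hsB, hs⟩ := Finset.exists_subset_card_eq (Nat.lt_of_not_le hcon)
    have hsS : ∀ i ∈ s, i ∈ S ∧ nrm abv (lift d F' G' (q i)) < E0 := fun i hi =>
      Finset.mem_filter.1 (hsB hi)
    have key : ∀ P : L[X], P.natDegree ≤ d →
        (∀ i, abv (form d P (q i)) ≤ nrm abv (lift d F' G' (q i))) → ∀ k, abv (P.coeff k) ≤ M / 2 := by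
      intro P hP hPn k
      have h1 := coeff_le_of_eval abv d P hP s hs (fun i => (q i).1 / (q i).2) (e ^ 4) (e ^ 8)⁻¹
        (E0 * e ^ (2 * d)) (by positivity) (by positivity) ?_ ?_ ?_ k
      · refine h1.trans ?_
        have h2 : (1 + e ^ 4) / (e ^ 8)⁻¹ ≤ 2 * e ^ 12 := by
          rw [div_inv_eq_mul]
          have : 1 ≤ e ^ 4 := one_le_pow₀ he1
          have h3 : (1 + e ^ 4) * e ^ 8 ≤ (e ^ 4 + e ^ 4) * e ^ 8 := by gcongr
          calc _ ≤ _ := h3
            _ = 2 * e ^ 12 := by ring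
        have h3 : ((1 + e ^ 4) / (e ^ 8)⁻¹) ^ d ≤ (2 * e ^ 12) ^ d :=
          pow_le_pow_left₀ (by positivity) h2 d
        calc ((d : ℝ) + 1) * (E0 * e ^ (2 * d) * ((1 + e ^ 4) / (e ^ 8)⁻¹) ^ d)
            ≤ (d + 1) * (E0 * e ^ (2 * d) * (2 * e ^ 12) ^ d) := by gcongr
          _ = M / 2 := by
            rw [hE0, mul_pow, ← pow_mul, pow_succ]
            have : e ^ (14 * d) = e ^ (2 * d) * e ^ (12 * d) := by rw [← pow_add]; ring_nf
            rw [this]
            field_simp
      · intro i hi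
        obtain ⟨a1, b1⟩ := hq1 i (hsS i hi).1
        obtain ⟨a2, b2⟩ := hq2 i (hsS i hi).1
        rw [map_div₀]
        refine hexp 4 _ (div_pos (abv.pos a1) (abv.pos a2)) ?_
        rw [Real.log_div (abv.pos a1).ne' (abv.pos a2).ne']
        have := (abs_le.1 b1).2
        have := (abs_le.1 b2).1
        push_cast
        linarith
      · intro i hi j hj hij
        obtain ⟨a2, b2⟩ := hq2 i (hsS i hi).1
        obtain ⟨a3, b3⟩ := hq2 j (hsS j hj).1
        obtain ⟨w1, w2⟩ := hwq i j hij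
        have h4 : (q i).1 / (q i).2 - (q j).1 / (q j).2 = wedge (q i) (q j) / ((q i).2 * (q j).2) := by
          rw [wedge]
          field_simp
        show (e ^ 8)⁻¹ ≤ abv ((q i).1 / (q i).2 - (q j).1 / (q j).2)
        rw [h4, map_div₀, map_mul]
        refine hexp' 8 _ (div_pos (abv.pos w1) (mul_pos (abv.pos a2) (abv.pos a3))) ?_
        rw [Real.log_div (abv.pos w1).ne' (mul_pos (abv.pos a2) (abv.pos a3)).ne',
          Real.log_mul (abv.pos a2).ne' (abv.pos a3).ne']
        have := (abs_le.1 b2).2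
        have := (abs_le.1 b3).2
        push_cast
        linarith
      · intro i hi
        obtain ⟨a2, b2⟩ := hq2 i (hsS i hi).1
        have h5 : form d P (q i) = (q i).2 ^ d * P.eval ((q i).1 / (q i).2) :=
          form_affine d P hP _ _ a2
        have h6 : abv (P.eval ((q i).1 / (q i).2)) = abv (form d P (q i)) / abv (q i).2 ^ d := by
          rw [h5, map_mul, map_pow]
          have := (abv.pos a2).ne'
          field_simp
        show abv (P.eval ((q i).1 / (q i).2)) ≤ _
        rw [h6, div_le_iff₀ (pow_pos (abv.pos a2) _)]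
        have h7 : (e ^ 2)⁻¹ ≤ abv (q i).2 := by
          refine hexp' 2 _ (abv.pos a2) ?_
          have := (abs_le.1 b2).1
          push_cast
          linarith
        have h8 : ((e ^ 2)⁻¹) ^ d ≤ abv (q i).2 ^ d := pow_le_pow_left₀ (by positivity) h7 d
        have h9 : e ^ (2 * d) * ((e ^ 2)⁻¹) ^ d = 1 := by
          rw [pow_mul, ← mul_pow, mul_inv_cancel₀ (by positivity), one_pow]
        calc abv (form d P (q i)) ≤ E0 := (hPn i).trans (hsS i hi).2.le
          _ = E0 * e ^ (2 * d) * ((e ^ 2)⁻¹) ^ d := by rw [mul_assoc, h9, mul_one]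
          _ ≤ E0 * e ^ (2 * d) * abv (q i).2 ^ d := by gcongr
    have hall : ∀ k ∈ Finset.range (d + 1), max (abv (F'.coeff k)) (abv (G'.coeff k)) ≤ M / 2 :=
      fun k _ => max_le (key F' hF' (fun i => le_max_left _ _) k)
        (key G' hG' (fun i => le_max_right _ _) k)
    have : M ≤ M / 2 := Finset.sup'_le _ _ hall
    linarith
  -- the good points
  have hGc : 4 ≤ (S \ Bad).card := by
    have h1 : S.card = n - ({i0, i1, i2} : Finset (Fin n)).card := by
      rw [hS, Finset.card_sdiff_of_subset (Finset.subset_univ _), Finset.card_univ,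
        Fintype.card_fin]
    have h2 : ({i0, i1, i2} : Finset (Fin n)).card ≤ 3 := Finset.card_le_three
    have h3 : (S \ Bad).card = S.card - Bad.card :=
      Finset.card_sdiff_of_subset (Finset.filter_subset _ _)
    omega
  have hGood : ∀ i ∈ S \ Bad, i ∈ S ∧ E0 ≤ nrm abv (lift d F' G' (q i)) := by
    intro i hi
    obtain ⟨h1, h2⟩ := Finset.mem_sdiff.1 hi
    refine ⟨h1, ?_⟩
    by_contra h3
    exact h2 (Finset.mem_filter.2 ⟨h1, not_le.1 h3⟩)
  have hnq : ∀ i ∈ S, nrm abv (q i) ≤ e ^ 2 := by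
    intro i hi
    obtain ⟨a1, b1⟩ := hq1 i hi
    obtain ⟨a2, b2⟩ := hq2 i hi
    refine max_le (hexp 2 _ (abv.pos a1) ?_) (hexp 2 _ (abv.pos a2) ?_)
    · have := (abs_le.1 b1).2
      push_cast
      linarith
    · have := (abs_le.1 b2).2
      push_cast
      linarith
  obtain ⟨i, hi, j, hj, hij, hb1, hb2⟩ := exists_pair (S \ Bad) hGc
    (fun i j => abv (wedge (lift d F' G' (q i)) (q j)) <
      (2 * e ^ 6)⁻¹ * nrm abv (lift d F' G' (q i))) (by
      intro i hi j hj j' hj' hji hj'i hbj hbj'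
      by_contra hne
      obtain ⟨hiS, hiE⟩ := hGood i hi
      have hu : 0 < nrm abv (lift d F' G' (q i)) := hE0pos.trans_le hiE
      obtain ⟨w1, w2⟩ := hwq j j' hne
      have w3 : (e ^ 4)⁻¹ ≤ abv (wedge (q j) (q j')) := by
        refine hexp' 4 _ (abv.pos w1) ?_
        push_cast
        linarith
      have h1 := nrm_mul_wedge_le abv (lift d F' G' (q i)) (q j) (q j')
      have h2 : abv (wedge (lift d F' G' (q i)) (q j')) * nrm abv (q j) ≤
          abv (wedge (lift d F' G' (q i)) (q j')) * e ^ 2 :=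
        mul_le_mul_of_nonneg_left (hnq j (hGood j hj).1) (abv.nonneg _)
      have h3 : abv (wedge (lift d F' G' (q i)) (q j)) * nrm abv (q j') ≤
          abv (wedge (lift d F' G' (q i)) (q j)) * e ^ 2 :=
        mul_le_mul_of_nonneg_left (hnq j' (hGood j' hj').1) (abv.nonneg _)
      have h4 : abv (wedge (lift d F' G' (q i)) (q j')) * e ^ 2 <
          (2 * e ^ 6)⁻¹ * nrm abv (lift d F' G' (q i)) * e ^ 2 :=
        mul_lt_mul_of_pos_right hbj' (by positivity)
      have h5 : abv (wedge (lift d F' G' (q i)) (q j)) * e ^ 2 <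
          (2 * e ^ 6)⁻¹ * nrm abv (lift d F' G' (q i)) * e ^ 2 :=
        mul_lt_mul_of_pos_right hbj (by positivity)
      have h6 : nrm abv (lift d F' G' (q i)) * (e ^ 4)⁻¹ ≤
          nrm abv (lift d F' G' (q i)) * abv (wedge (q j) (q j')) :=
        mul_le_mul_of_nonneg_left w3 hu.le
      have h7 : (2 * e ^ 6)⁻¹ * nrm abv (lift d F' G' (q i)) * e ^ 2 +
          (2 * e ^ 6)⁻¹ * nrm abv (lift d F' G' (q i)) * e ^ 2 =
          nrm abv (lift d F' G' (q i)) * (e ^ 4)⁻¹ := by
        field_simp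
        ring
      linarith)
  -- the lower bound for one ordered pair
  have hone : ∀ i j, i ∈ S \ Bad → ¬ abv (wedge (lift d F' G' (q i)) (q j)) <
      (2 * e ^ 6)⁻¹ * nrm abv (lift d F' G' (q i)) →
      wedge (lift d F G (p i)) (p j) ≠ 0 ∧
        Real.log M - 14 * d * δ - Real.log ((d + 1) * 2 ^ (d + 2)) - 6 * δ - D ≤
          Real.log (abv (wedge (lift d F G (p i)) (p j))) := by
    intro i j hi hb
    have h1 : wedge (lift d F' G' (q i)) (q j) = A.det * wedge (lift d F G (p i)) (p j) := by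
      rw [hq]
      simp only [hconj]
      exact wedge_act A _ _
    have h2 : (2 * e ^ 6)⁻¹ * E0 ≤ abv (wedge (lift d F' G' (q i)) (q j)) :=
      (mul_le_mul_of_nonneg_left (hGood i hi).2 (by positivity)).trans (not_lt.1 hb)
    have h3 : 0 < (2 * e ^ 6)⁻¹ * E0 := by positivity
    have h4 : wedge (lift d F G (p i)) (p j) ≠ 0 := by
      intro h0
      rw [h1, h0, mul_zero, map_zero] at h2
      linarith
    refine ⟨h4, ?_⟩
    have h5 := Real.log_le_log h3 h2
    rw [h1, map_mul, Real.log_mul (abv.pos hdet0).ne' (abv.pos h4).ne', ← hD,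
      Real.log_mul (by positivity) hE0pos.ne', Real.log_inv, Real.log_mul (by norm_num)
      (by positivity), Real.log_pow, he, Real.log_exp, hlogE0] at h5
    have h6 : Real.log (((d : ℝ) + 1) * 2 ^ (d + 2)) =
        Real.log ((d + 1) * 2 ^ (d + 1)) + Real.log 2 := by
      rw [← Real.log_mul (by positivity) (by norm_num)]
      congr 1
      ring
    rw [h6]
    push_cast at h5
    linarith
  obtain ⟨w1, b1⟩ := hone i j hi hb1
  obtain ⟨w2, b2⟩ := hone j i hj hb2
  refine ⟨i, j, hij, w1, w2, ?_⟩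
  have b3 := (hlog i j hij.ne).2
  have hK : 0 ≤ Real.log (((d : ℝ) + 1) * 2 ^ (d + 2)) := by
    refine Real.log_nonneg ?_
    have h1 : (1 : ℝ) ≤ d + 1 := by
      have : (0 : ℝ) ≤ d := Nat.cast_nonneg d
      linarith
    have h2 : (1 : ℝ) ≤ 2 ^ (d + 2) := one_le_pow₀ (by norm_num)
    nlinarith
  set K := Real.log (((d : ℝ) + 1) * 2 ^ (d + 2)) with hKd
  set ℓ1 := Real.log (abv (wedge (lift d F G (p i)) (p j)))
  set ℓ2 := Real.log (abv (wedge (lift d F G (p j)) (p i)))
  set ℓ3 := Real.log (abv (wedge (p i) (p j)))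
  set r := Real.log (abv (resultant F G d d))
  set r' := Real.log (abv (resultant F' G' d d))
  set m := Real.log M
  have hd0 : (0 : ℝ) < d := by exact_mod_cast hd
  have hd1 : (1 : ℝ) ≤ d := by exact_mod_cast hd
  -- everything times `d²`
  have hmain : (lam - 1) - 48 * δ * d ^ 2 - 2 * K * d ^ 2 ≤
      -r + (ℓ1 + ℓ2) * d - (d ^ 2 + d) * ℓ3 := by
    have e1 : (2 * (m - 14 * d * δ - K - 6 * δ - D)) * d ≤ (ℓ1 + ℓ2) * d := by
      apply mul_le_mul_of_nonneg_right _ hd0.le
      linarith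
    have e2 : ((d : ℝ) ^ 2 + d) * ℓ3 ≤ (d ^ 2 + d) * (-γ + δ) :=
      mul_le_mul_of_nonneg_left b3 (by positivity)
    have e3 : ((d : ℝ) ^ 2 + d) * D ≤ (d ^ 2 + d) * (γ + 3 * δ) :=
      mul_le_mul_of_nonneg_left hD1 (by positivity)
    have e4 : (d : ℝ) ≤ d ^ 2 := by nlinarith
    have e5 : (d : ℝ) * δ ≤ d ^ 2 * δ := mul_le_mul_of_nonneg_right e4 hδ
    have e6 : (d : ℝ) * K ≤ d ^ 2 * K := mul_le_mul_of_nonneg_right e4 hK
    nlinarith
  have hd2 : (0 : ℝ) < (d : ℝ) ^ 2 := by positivity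
  have hfin := div_le_div_of_nonneg_right hmain hd2.le
  have g1 : ((lam - 1) - 48 * δ * d ^ 2 - 2 * K * d ^ 2) / (d : ℝ) ^ 2 =
      (lam - 1) / d ^ 2 - 48 * δ - 2 * K := by
    field_simp
  have g2 : (-r + (ℓ1 + ℓ2) * d - (d ^ 2 + d) * ℓ3) / (d : ℝ) ^ 2 =
      -r / d ^ 2 + (ℓ1 + ℓ2) / d - (1 + 1 / d) * ℓ3 := by
    field_simp
  rw [g1, g2] at hfin
  exact hfin

end Pool.Agent.RI
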