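import Pool.Agent.RI.Defs
import Pool.Agent.RI.VPair

set_option autoImplicit false

/-!
# The minimality of a reduced lift, for the conjugates of `Conj`
-/

namespace Pool.Agent.RI

open Polynomial Pool.Agent.RDF

namespace Hmu

variable {L : Type*} [Field L]

theorem eval_sub_form (d : ℕ) (F : L[X]) (a b c e x : L) :
    (sub d F a b c e).eval x = form d F (a * x + b, c * x + e) := by
  have h := form_map (evalRingHom x) d (F.map C) (C a * X + C b, C c * X + C e)
  have h2 : (F.map C).map (evalRingHom x) = F := by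
    rw [Polynomial.map_map]
    have : (evalRingHom x).comp C = RingHom.id L := by
      ext t
      simp
    rw [this, Polynomial.map_id]
  rw [h2] at h
  simpa [sub, Prod.map] using h

theorem eval_cj (d : ℕ) (F G : L[X]) (_hF : F.natDegree ≤ d) (_hG : G.natDegree ≤ d)
    (A : Matrix (Fin 2) (Fin 2) L) (F' G' : L[X]) (hF' : F'.natDegree ≤ d)
    (hG' : G'.natDegree ≤ d) (h : ∀ p, lift d F' G' (act A p) = act A (lift d F G p)) (x : L) :
    (cj1 d F G (A 0 0) (A 0 1) (A 1 0) (A 1 1)).eval x = A.det ^ d * F'.eval x ∧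
    (cj2 d F G (A 0 0) (A 0 1) (A 1 0) (A 1 1)).eval x = A.det ^ d * G'.eval x := by
  have h1 := h (A 1 1 * x + -A 0 1, -A 1 0 * x + A 0 0)
  have h2 : act A (A 1 1 * x + -A 0 1, -A 1 0 * x + A 0 0) = A.det • ((x, 1) : L × L) := by
    rw [Matrix.det_fin_two]
    ext
    · simp only [act, Prod.smul_fst, smul_eq_mul]; ring
    · simp only [act, Prod.smul_snd, smul_eq_mul]; ring
  rw [h2, lift_smul] at h1
  have h3 := congrArg Prod.fst h1
  have h4 := congrArg Prod.snd h1
  simp only [lift, act, Prod.smul_fst, Prod.smul_snd, smul_eq_mul, form_one d F' hF',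
    form_one d G' hG'] at h3 h4
  constructor
  · rw [h3]
    simp only [cj1, eval_add, eval_mul, eval_C, eval_sub_form]
  · rw [h4]
    simp only [cj2, eval_add, eval_mul, eval_C, eval_sub_form]

theorem cj_eq [Infinite L] (d : ℕ) (F G : L[X]) (hF : F.natDegree ≤ d) (hG : G.natDegree ≤ d)
    (A : Matrix (Fin 2) (Fin 2) L) (F' G' : L[X]) (hF' : F'.natDegree ≤ d)
    (hG' : G'.natDegree ≤ d) (h : ∀ p, lift d F' G' (act A p) = act A (lift d F G p)) :
    cj1 d F G (A 0 0) (A 0 1) (A 1 0) (A 1 1) = C (A.det ^ d) * F' ∧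
    cj2 d F G (A 0 0) (A 0 1) (A 1 0) (A 1 1) = C (A.det ^ d) * G' := by
  constructor
  · refine Polynomial.funext fun x => ?_
    rw [eval_mul, eval_C]
    exact (eval_cj d F G hF hG A F' G' hF' hG' h x).1
  · refine Polynomial.funext fun x => ?_
    rw [eval_mul, eval_C]
    exact (eval_cj d F G hF hG A F' G' hF' hG' h x).2

/-- The resultant of any conjugate. -/
theorem res_conj [IsAlgClosed L] (d : ℕ) (hd : 1 ≤ d) (F G : L[X]) (hF : F.natDegree ≤ d)
    (hG : G.natDegree ≤ d) (A : Matrix (Fin 2) (Fin 2) L) (hA : A.det ≠ 0) (F' G' : L[X])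
    (hF' : F'.natDegree ≤ d) (hG' : G'.natDegree ≤ d)
    (h : ∀ p, lift d F' G' (act A p) = act A (lift d F G p)) :
    A.det ^ (d ^ 2) * resultant F' G' d d = A.det ^ d * resultant F G d d := by
  obtain ⟨F₁, G₁, hF₁, hG₁, h₁, hR⟩ := exists_conj d hd F G hF hG A hA
  have e1 := cj_eq d F G hF hG A F' G' hF' hG' h
  have e2 := cj_eq d F G hF hG A F₁ G₁ hF₁ hG₁ h₁
  have hC : (C (A.det ^ d) : L[X]) ≠ 0 := by
    rw [Ne, C_eq_zero]
    exact pow_ne_zero _ hA
  have e3 : F₁ = F' := mul_left_cancel₀ hC (e2.1.symm.trans e1.1)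
  have e4 : G₁ = G' := mul_left_cancel₀ hC (e2.2.symm.trans e1.2)
  rw [← e3, ← e4]
  exact hR

end Hmu

/-- The hypothesis `hmu` of `vpair` for a reduced lift. -/
theorem Red.hmu {L : Type*} [Field L] [IsAlgClosed L] {abv : AbsoluteValue L ℝ} {d : ℕ}
    (hd : 1 ≤ d) {F G : L[X]} (hF : F.natDegree ≤ d) (hG : G.natDegree ≤ d)
    (hR : resultant F G d d ≠ 0) (hred : Red abv d F G)
    (A : Matrix (Fin 2) (Fin 2) L) (F' G' : L[X]) (M : ℝ) (hA : A.det ≠ 0)
    (hF' : F'.natDegree ≤ d) (hG' : G'.natDegree ≤ d)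
    (h : ∀ p, lift d F' G' (act A p) = act A (lift d F G p)) (hM : 0 < M)
    (hMk : ∀ k, abv (F'.coeff k) ≤ M ∧ abv (G'.coeff k) ≤ M) :
    -Real.log (abv (resultant F G d d)) - 1 ≤
      -Real.log (abv (resultant F' G' d d)) + 2 * d * Real.log M := by
  have hres := Hmu.res_conj d hd F G hF hG A hA F' G' hF' hG' h
  have hR' : resultant F' G' d d ≠ 0 := by
    intro h0
    rw [h0, mul_zero] at hres
    exact (mul_ne_zero (pow_ne_zero d hA) hR) hres.symm
  have hD0 : 0 < abv A.det := abv.pos hA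
  have hresl : (d : ℝ) ^ 2 * Real.log (abv A.det) + Real.log (abv (resultant F' G' d d)) =
      d * Real.log (abv A.det) + Real.log (abv (resultant F G d d)) := by
    have h1 := congrArg (fun x => Real.log (abv x)) hres
    simp only [map_mul, map_pow] at h1
    rw [Real.log_mul (pow_ne_zero _ hD0.ne') (abv.pos hR').ne',
      Real.log_mul (pow_ne_zero _ hD0.ne') (abv.pos hR).ne', Real.log_pow, Real.log_pow] at h1
    push_cast at h1
    exact h1
  have hdet : A 0 0 * A 1 1 - A 0 1 * A 1 0 = A.det := (Matrix.det_fin_two A).symm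
  obtain ⟨e1, e2⟩ := Hmu.cj_eq d F G hF hG A F' G' hF' hG' h
  have hmin := hred.min (A 0 0) (A 0 1) (A 1 0) (A 1 1) (by rw [hdet]; exact hA)
    (abv A.det ^ d * M) (fun i => by
      rw [e1, coeff_C_mul, map_mul, map_pow]
      exact mul_le_mul_of_nonneg_left (hMk i).1 (by positivity)) (fun i => by
      rw [e2, coeff_C_mul, map_mul, map_pow]
      exact mul_le_mul_of_nonneg_left (hMk i).2 (by positivity))
  rw [hdet] at hmin
  have h2 := Real.log_le_log (by positivity) hmin
  rw [Real.log_pow, Real.log_mul (Real.exp_ne_zero _) (by positivity), Real.log_exp,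
    Real.log_pow, Real.log_mul (by positivity) hM.ne', Real.log_pow] at h2
  push_cast at h2
  nlinarith

theorem Dat.hmu {d : ℕ} (hd : 1 ≤ d) (D : Dat d) (A : Matrix (Fin 2) (Fin 2) D.Om)
    (F' G' : D.Om[X]) (M : ℝ) (hA : A.det ≠ 0) (hF' : F'.natDegree ≤ d) (hG' : G'.natDegree ≤ d)
    (h : ∀ p, lift d F' G' (act A p) = act A (lift d D.F D.G p)) (hM : 0 < M)
    (hMk : ∀ k, D.abv (F'.coeff k) ≤ M ∧ D.abv (G'.coeff k) ≤ M) :
    D.lam - 1 ≤ -Real.log (D.abv (resultant F' G' d d)) + 2 * d * Real.log M :=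
  D.red.hmu hd D.hF D.hG D.hR A F' G' M hA hF' hG' h hM hMk

end Pool.Agent.RI
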