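import Mathlib.Algebra.BigOperators.Field
import Mathlib.Algebra.Order.BigOperators.Ring.Finset
import Mathlib.Data.Real.Basic
import Mathlib.Tactic

/-! # Tree kernels

A symmetric nonnegative kernel `j` on a finite set with `min (j p q) (j q r) ≤ j p r` for all
`p, q, r` (equal ones included) is positive semidefinite; a vector of total mass `0` and of energy
`0` has mass `0` on every class `{q | j p q = j p p ∧ j q q = j p p}`. -/

set_option autoImplicit false

namespace Pool.Agent.RI

open Finset

variable {P : Type*} [Fintype P]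

/-- a tree kernel -/
structure TreeK (j : P → P → ℝ) : Prop where
  symm : ∀ p q, j p q = j q p
  nonneg : ∀ p q, 0 ≤ j p q
  tri : ∀ p q r, min (j p q) (j q r) ≤ j p r

/-- the bilinear form of a kernel -/
noncomputable def bf (j : P → P → ℝ) (x y : P → ℝ) : ℝ := ∑ p, ∑ q, x p * y q * j p q

/-- the quadratic form of a kernel -/
noncomputable def qf (j : P → P → ℝ) (x : P → ℝ) : ℝ := ∑ p, ∑ q, x p * x q * j p q

section per

open scoped Classical in
/-- the quadratic form of a partial equivalence relation is a sum of squares -/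
theorem per_form {R : P → P → Prop} (hs : ∀ p q, R p q → R q p)
    (ht : ∀ p q r, R p q → R q r → R p r) (x : P → ℝ) :
    qf (fun p q => if R p q then 1 else 0) x =
      ∑ r, ((univ.filter fun q => R r q).card : ℝ)⁻¹ *
        (∑ q ∈ univ.filter (fun q => R r q), x q) ^ 2 := by
  have hc : ∀ p r, R p r → (univ.filter fun q => R p q) = univ.filter fun q => R r q := by
    intro p r h
    ext q
    rw [mem_filter, mem_filter]
    exact ⟨fun h' => ⟨mem_univ _, ht _ _ _ (hs _ _ h) h'.2⟩,
      fun h' => ⟨mem_univ _, ht _ _ _ h h'.2⟩⟩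
  have h1 : ∀ r, (∑ q ∈ univ.filter (fun q => R r q), x q) ^ 2 =
      ∑ p, ∑ q, x p * x q * ((if R r p then 1 else 0) * (if R r q then 1 else 0)) := by
    intro r
    rw [sq, sum_filter, sum_mul_sum]
    refine sum_congr rfl fun p _ => sum_congr rfl fun q _ => ?_
    split_ifs <;> ring
  have h2 : ∀ p q, ∑ r, ((univ.filter fun q => R r q).card : ℝ)⁻¹ *
      ((if R r p then 1 else 0) * (if R r q then 1 else 0)) = if R p q then (1 : ℝ) else 0 := by
    intro p q
    split_ifs with h
    · have hpp : R p p := ht _ _ _ h (hs _ _ h)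
      have h3 : ∀ r, ((univ.filter fun q => R r q).card : ℝ)⁻¹ *
          ((if R r p then 1 else 0) * (if R r q then 1 else 0)) =
          if R p r then ((univ.filter fun q => R p q).card : ℝ)⁻¹ else 0 := by
        intro r
        by_cases hr : R p r
        · rw [if_pos hr, if_pos (hs _ _ hr), if_pos (ht _ _ _ (hs _ _ hr) h), hc p r hr]
          ring
        · rw [if_neg hr, if_neg (fun h' => hr (hs _ _ h'))]
          ring
      rw [sum_congr rfl fun r _ => h3 r, ← sum_filter, sum_const, nsmul_eq_mul]
      refine mul_inv_cancel₀ ?_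
      have : 0 < (univ.filter fun q => R p q).card := card_pos.2 ⟨p, by
        rw [mem_filter]
        exact ⟨mem_univ _, hpp⟩⟩
      exact_mod_cast this.ne'
    · refine sum_eq_zero fun r _ => ?_
      by_cases hr : R r p
      · by_cases hq : R r q
        · exact absurd (ht _ _ _ (hs _ _ hr) hq) h
        · rw [if_neg hq]
          ring
      · rw [if_neg hr]
        ring
  have h3 : ∀ r, ((univ.filter fun q => R r q).card : ℝ)⁻¹ *
      (∑ q ∈ univ.filter (fun q => R r q), x q) ^ 2 =
      ∑ p, ∑ q, ((univ.filter fun q => R r q).card : ℝ)⁻¹ * (x p * x q *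
        ((if R r p then 1 else 0) * (if R r q then 1 else 0))) := by
    intro r
    rw [h1 r, mul_sum]
    exact sum_congr rfl fun p _ => mul_sum _ _ _
  rw [sum_congr rfl fun r _ => h3 r, sum_comm]
  unfold qf
  refine sum_congr rfl fun p _ => ?_
  rw [sum_comm]
  refine sum_congr rfl fun q _ => ?_
  show x p * x q * (if R p q then (1 : ℝ) else 0) = _
  rw [← h2 p q, mul_sum]
  refine sum_congr rfl fun r _ => ?_
  ring

open scoped Classical in
theorem per_nonneg {R : P → P → Prop} (hs : ∀ p q, R p q → R q p)
    (ht : ∀ p q r, R p q → R q r → R p r) (x : P → ℝ) :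
    0 ≤ qf (fun p q => if R p q then 1 else 0) x := by
  rw [per_form hs ht]
  exact sum_nonneg fun r _ => mul_nonneg (by positivity) (sq_nonneg _)

open scoped Classical in
theorem per_zero {R : P → P → Prop} (hs : ∀ p q, R p q → R q p)
    (ht : ∀ p q r, R p q → R q r → R p r) {x : P → ℝ}
    (h : qf (fun p q => if R p q then 1 else 0) x ≤ 0) (r : P) :
    ∑ q ∈ univ.filter (fun q => R r q), x q = 0 := by
  rw [per_form hs ht] at h
  have h0 : ∀ r ∈ (univ : Finset P), 0 ≤ ((univ.filter fun q => R r q).card : ℝ)⁻¹ *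
      (∑ q ∈ univ.filter (fun q => R r q), x q) ^ 2 :=
    fun r _ => mul_nonneg (by positivity) (sq_nonneg _)
  have h1 := (sum_eq_zero_iff_of_nonneg h0).1 (le_antisymm h (sum_nonneg h0)) r (mem_univ r)
  rcases mul_eq_zero.1 h1 with h2 | h2
  · rw [inv_eq_zero, Nat.cast_eq_zero, card_eq_zero] at h2
    rw [h2, sum_empty]
  · exact pow_eq_zero_iff (two_ne_zero) |>.1 h2

open scoped Classical in
/-- a saturated set in the support of the relation has mass zero if all classes have -/
theorem per_sat {R : P → P → Prop} (hs : ∀ p q, R p q → R q p)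
    (ht : ∀ p q r, R p q → R q r → R p r) {x : P → ℝ}
    (h : ∀ r, ∑ q ∈ univ.filter (fun q => R r q), x q = 0) (B : Finset P)
    (hB : ∀ q ∈ B, R q q) (hsat : ∀ q ∈ B, ∀ r, R q r → r ∈ B) : ∑ q ∈ B, x q = 0 := by
  have hc : ∀ p r, R p r → (univ.filter fun q => R p q) = univ.filter fun q => R r q := by
    intro p r h
    ext q
    rw [mem_filter, mem_filter]
    exact ⟨fun h' => ⟨mem_univ _, ht _ _ _ (hs _ _ h) h'.2⟩,
      fun h' => ⟨mem_univ _, ht _ _ _ h h'.2⟩⟩
  have h1 : ∑ q ∈ B, x q = ∑ r ∈ B, ((univ.filter fun q => R r q).card : ℝ)⁻¹ *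
      ∑ q ∈ univ.filter (fun q => R r q), x q := by
    have h2 : ∀ r ∈ B, ((univ.filter fun q => R r q).card : ℝ)⁻¹ *
        ∑ q ∈ univ.filter (fun q => R r q), x q =
        ∑ q ∈ B, if R q r then ((univ.filter fun t => R q t).card : ℝ)⁻¹ * x q else 0 := by
      intro r hr
      rw [mul_sum, ← sum_filter]
      refine sum_congr ?_ fun q hq => ?_
      · ext q
        rw [mem_filter, mem_filter]
        exact ⟨fun h' => ⟨hsat r hr q h'.2, hs _ _ h'.2⟩, fun h' => ⟨mem_univ _, hs _ _ h'.2⟩⟩
      · rw [mem_filter] at hq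
        rw [hc q r hq.2]
    rw [sum_congr rfl h2, sum_comm]
    refine sum_congr rfl fun q hq => ?_
    rw [← sum_filter, sum_const, nsmul_eq_mul]
    have h3 : B.filter (fun r => R q r) = univ.filter fun r => R q r := by
      ext r
      rw [mem_filter, mem_filter]
      exact ⟨fun h' => ⟨mem_univ _, h'.2⟩, fun h' => ⟨hsat q hq r h'.2, h'.2⟩⟩
    rw [h3, ← mul_assoc, mul_inv_cancel₀, one_mul]
    have : 0 < (univ.filter fun t => R q t).card := card_pos.2 ⟨q, by
      rw [mem_filter]
      exact ⟨mem_univ _, hB q hq⟩⟩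
    exact_mod_cast this.ne'
  rw [h1]
  exact sum_eq_zero fun r _ => by rw [h r, mul_zero]

end per

namespace TreeK

variable {j : P → P → ℝ} (h : TreeK j)

include h

omit [Fintype P] in
theorem le_diag (p q : P) : j p q ≤ j p p := by
  have := h.tri p q p
  rwa [h.symm q p, min_self] at this

omit [Fintype P] in
theorem le_diag' (p q : P) : j p q ≤ j q q := by
  rw [h.symm]
  exact h.le_diag q p

omit [Fintype P] in
theorem D_nonneg (p q : P) : 0 ≤ j p p + j q q - 2 * j p q := by
  have h1 := h.le_diag p q
  have h2 := h.le_diag' p q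
  linarith

omit [Fintype P] in
theorem D_eq_zero_iff (p q : P) :
    j p p + j q q - 2 * j p q = 0 ↔ j p q = j p p ∧ j q q = j p p := by
  have h1 := h.le_diag p q
  have h2 := h.le_diag' p q
  constructor
  · intro h3
    constructor <;> linarith
  · rintro ⟨h3, h4⟩
    rw [h3, h4]
    ring

omit [Fintype P] in
theorem rel_symm (s : ℝ) : ∀ p q, s < j p q → s < j q p := fun p q h' => by rwa [h.symm q p]

omit [Fintype P] in
theorem rel_trans (s : ℝ) : ∀ p q r, s < j p q → s < j q r → s < j p r :=
  fun p q r h1 h2 => lt_of_lt_of_le (lt_min h1 h2) (h.tri p q r)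

omit [Fintype P] in
open scoped Classical in
/-- cutting a slice -/
theorem cut {s δ : ℝ} (hs : 0 ≤ s) (hδ : 0 ≤ δ) (hsd : ∀ p q, s < j p q → s + δ ≤ j p q) :
    TreeK fun p q => j p q - δ * (if s < j p q then 1 else 0) where
  symm p q := by rw [h.symm p q]
  nonneg p q := by
    show 0 ≤ j p q - δ * (if s < j p q then 1 else 0)
    split_ifs with h1
    · have := hsd p q h1
      linarith
    · have := h.nonneg p q
      linarith
  tri p q r := by
    show min (j p q - δ * (if s < j p q then 1 else 0)) (j q r - δ * (if s < j q r then 1 else 0))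
      ≤ j p r - δ * (if s < j p r then 1 else 0)
    have ht := h.tri p q r
    by_cases h3 : s < j p r
    · rw [if_pos h3]
      have h4 := hsd p r h3
      by_cases h1 : s < j p q
      · by_cases h2 : s < j q r
        · rw [if_pos h1, if_pos h2]
          have : min (j p q - δ * 1) (j q r - δ * 1) = min (j p q) (j q r) - δ * 1 :=
            min_sub_sub_right _ _ _
          rw [this]
          linarith
        · rw [if_neg h2]
          push Not at h2
          refine (min_le_right _ _).trans ?_
          linarith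
      · rw [if_neg h1]
        push Not at h1
        refine (min_le_left _ _).trans ?_
        linarith
    · rw [if_neg h3, mul_zero, sub_zero]
      refine le_trans (min_le_min ?_ ?_) ht
      · split_ifs <;> linarith
      · split_ifs <;> linarith

omit h in
open scoped Classical in
theorem qf_cut (j : P → P → ℝ) (s δ : ℝ) (x : P → ℝ) :
    qf (fun p q => j p q - δ * (if s < j p q then 1 else 0)) x =
      qf j x - δ * qf (fun p q => if s < j p q then 1 else 0) x := by
  unfold qf
  rw [mul_sum, ← sum_sub_distrib]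
  refine sum_congr rfl fun p _ => ?_
  rw [mul_sum, ← sum_sub_distrib]
  refine sum_congr rfl fun q _ => ?_
  ring

omit h in
open scoped Classical in
theorem psd_aux (N : ℕ) : ∀ {j : P → P → ℝ}, TreeK j →
    (univ.filter fun z : P × P => 0 < j z.1 z.2).card ≤ N → ∀ x : P → ℝ, 0 ≤ qf j x := by
  induction N with
  | zero =>
    intro j hj hN x
    have h0 : ∀ p q, j p q = 0 := by
      intro p q
      by_contra hne
      have hpos : 0 < j p q := lt_of_le_of_ne (hj.nonneg p q) (Ne.symm hne)
      have h1 := card_eq_zero.1 (Nat.le_zero.1 hN)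
      have h2 : (p, q) ∈ univ.filter fun z : P × P => 0 < j z.1 z.2 := by
        rw [mem_filter]
        exact ⟨mem_univ _, hpos⟩
      rw [h1] at h2
      exact absurd h2 (notMem_empty _)
    unfold qf
    rw [sum_eq_zero fun p _ => sum_eq_zero fun q _ => by rw [h0 p q, mul_zero]]
  | succ N ih =>
    intro j hj hN x
    by_cases hne : (univ.filter fun z : P × P => 0 < j z.1 z.2).Nonempty
    · obtain ⟨z₀, hz₀, hmin⟩ := exists_min_image _ (fun z : P × P => j z.1 z.2) hne
      rw [mem_filter] at hz₀
      set δ := j z₀.1 z₀.2 with hδ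
      have hsd : ∀ p q, 0 < j p q → 0 + δ ≤ j p q := by
        intro p q hpq
        rw [zero_add]
        exact hmin (p, q) (by rw [mem_filter]; exact ⟨mem_univ _, hpq⟩)
      have h1 := hj.cut le_rfl hz₀.2.le hsd
      have h2 := qf_cut j 0 δ x
      have h3 := ih h1 (by
        have hlt : (univ.filter fun z : P × P =>
            0 < j z.1 z.2 - δ * (if 0 < j z.1 z.2 then 1 else 0)).card <
            (univ.filter fun z : P × P => 0 < j z.1 z.2).card := by
          refine card_lt_card ⟨fun z hz => ?_, fun hsub => ?_⟩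
          · rw [mem_filter] at hz ⊢
            refine ⟨mem_univ _, ?_⟩
            by_contra hc
            rw [if_neg hc] at hz
            linarith [hz.2]
          · have h4 := hsub (x := z₀) (by rw [mem_filter]; exact ⟨mem_univ _, hz₀.2⟩)
            rw [mem_filter] at h4
            have h5 := h4.2
            rw [if_pos hz₀.2] at h5
            linarith
        omega) x
      have h4 := per_nonneg (hj.rel_symm 0) (hj.rel_trans 0) x
      have h5 := mul_nonneg hz₀.2.le h4
      linarith
    · refine ih hj ?_ x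
      rw [not_nonempty_iff_eq_empty.1 hne, card_empty]
      exact Nat.zero_le _

/-- **a tree kernel is positive semidefinite** -/
theorem psd (x : P → ℝ) : 0 ≤ qf j x := by
  classical
  exact psd_aux _ h le_rfl x

omit h in
theorem exists_gap (j : P → P → ℝ) (s : ℝ) : ∃ δ : ℝ, 0 < δ ∧ ∀ p q, s < j p q → s + δ ≤ j p q := by
  classical
  by_cases hne : (univ.filter fun z : P × P => s < j z.1 z.2).Nonempty
  · obtain ⟨z₀, hz₀, hmin⟩ := exists_min_image _ (fun z : P × P => j z.1 z.2) hne
    rw [mem_filter] at hz₀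
    refine ⟨j z₀.1 z₀.2 - s, sub_pos.2 hz₀.2, fun p q hpq => ?_⟩
    have := hmin (p, q) (by rw [mem_filter]; exact ⟨mem_univ _, hpq⟩)
    have h' : j z₀.1 z₀.2 ≤ j p q := this
    linarith
  · refine ⟨1, one_pos, fun p q hpq => absurd ?_ hne⟩
    exact ⟨(p, q), by rw [mem_filter]; exact ⟨mem_univ _, hpq⟩⟩

/-- below a positive number there is a threshold without values in between -/
theorem exists_below {s : ℝ} (hs : 0 < s) : ∃ t : ℝ, 0 ≤ t ∧ t < s ∧ ∀ p q, t < j p q → s ≤ j p q := by
  classical
  by_cases hne : (univ.filter fun z : P × P => j z.1 z.2 < s).Nonempty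
  · obtain ⟨z₀, hz₀, hmax⟩ := exists_max_image _ (fun z : P × P => j z.1 z.2) hne
    rw [mem_filter] at hz₀
    refine ⟨j z₀.1 z₀.2, h.nonneg _ _, hz₀.2, fun p q hpq => ?_⟩
    by_contra hc
    push Not at hc
    have h' : j p q ≤ j z₀.1 z₀.2 := hmax (p, q) (by rw [mem_filter]; exact ⟨mem_univ _, hc⟩)
    linarith
  · refine ⟨0, le_rfl, hs, fun p q _ => ?_⟩
    by_contra hc
    push Not at hc
    exact hne ⟨(p, q), by rw [mem_filter]; exact ⟨mem_univ _, hc⟩⟩

open scoped Classical in
/-- a vector of energy zero has mass zero on all classes `{q | s < j r q}`, `s ≥ 0` -/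
theorem level_zero {x : P → ℝ} (h0 : qf j x = 0) {s : ℝ} (hs : 0 ≤ s) (r : P) :
    ∑ q ∈ univ.filter (fun q => s < j r q), x q = 0 := by
  obtain ⟨δ, hδ, hsd⟩ := exists_gap j s
  have h1 := (h.cut hs hδ.le hsd).psd x
  rw [qf_cut, h0, zero_sub] at h1
  refine per_zero (h.rel_symm s) (h.rel_trans s) ?_ r
  by_contra hc
  push Not at hc
  have := mul_pos hδ hc
  linarith

open scoped Classical in
/-- **LEMMA Z**: a vector of total mass zero and energy zero has mass zero on every class. -/
theorem class_zero {x : P → ℝ} (hx : ∑ q, x q = 0) (h0 : qf j x = 0) (p : P) :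
    ∑ q ∈ univ.filter (fun q => j p q = j p p ∧ j q q = j p p), x q = 0 := by
  set s := j p p with hs
  have hA : ∑ q ∈ univ.filter (fun q => j p q = s), x q = 0 := by
    rcases (h.nonneg p p).eq_or_lt with h1 | h1
    · rw [← hx]
      refine sum_congr ?_ fun _ _ => rfl
      ext q
      rw [mem_filter]
      refine ⟨fun _ => mem_univ _, fun _ => ⟨mem_univ _, ?_⟩⟩
      have h2 := h.le_diag p q
      have h3 := h.nonneg p q
      rw [hs, ← h1]
      rw [← h1] at h2
      exact le_antisymm h2 h3
    · obtain ⟨t, ht, hts, hgap⟩ := h.exists_below h1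
      have h2 := h.level_zero h0 ht p
      rw [← h2]
      refine sum_congr ?_ fun _ _ => rfl
      ext q
      rw [mem_filter, mem_filter]
      constructor
      · rintro ⟨-, h3⟩
        exact ⟨mem_univ _, by rw [h3]; exact hts⟩
      · rintro ⟨-, h3⟩
        exact ⟨mem_univ _, le_antisymm (h.le_diag p q) (hgap p q h3)⟩
  have hB : ∑ q ∈ univ.filter (fun q => j p q = s ∧ s < j q q), x q = 0 := by
    have hs0 : 0 ≤ s := h.nonneg p p
    refine per_sat (h.rel_symm s) (h.rel_trans s) (fun r => h.level_zero h0 hs0 r) _ ?_ ?_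
    · intro q hq
      rw [mem_filter] at hq
      exact hq.2.2
    · intro q hq r hr
      rw [mem_filter] at hq ⊢
      refine ⟨mem_univ _, ?_, lt_of_lt_of_le hr (h.le_diag' q r)⟩
      refine le_antisymm (h.le_diag p r) ?_
      have := h.tri p q r
      rw [hq.2.1, min_eq_left hr.le] at this
      exact this
  have hsplit : ∑ q ∈ univ.filter (fun q => j p q = s), x q =
      ∑ q ∈ univ.filter (fun q => j p q = s ∧ j q q = s), x q +
      ∑ q ∈ univ.filter (fun q => j p q = s ∧ s < j q q), x q := by
    rw [← sum_union]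
    · refine sum_congr ?_ fun _ _ => rfl
      ext q
      rw [mem_union, mem_filter, mem_filter, mem_filter]
      constructor
      · rintro ⟨-, h1⟩
        have h2 := h.le_diag' p q
        rw [h1] at h2
        rcases h2.eq_or_lt with h3 | h3
        · exact Or.inl ⟨mem_univ _, h1, h3.symm⟩
        · exact Or.inr ⟨mem_univ _, h1, h3⟩
      · rintro (⟨-, h1, -⟩ | ⟨-, h1, -⟩)
        · exact ⟨mem_univ _, h1⟩
        · exact ⟨mem_univ _, h1⟩
    · rw [disjoint_left]
      intro q h1 h2
      rw [mem_filter] at h1 h2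
      exact absurd h1.2.2 h2.2.2.ne'
  rw [hA, hB, add_zero] at hsplit
  exact hsplit.symm

end TreeK

end Pool.Agent.RI
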