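import Mathlib
import Pool.Agent.RDF.Had
import Pool.Agent.RDF.Star
import Pool.Agent.RDF.ResId
import Pool.Agent.RI.Tree

set_option autoImplicit false

/-!
# Rational functions without height condition: definitions for the local part
-/

namespace Pool.Agent.RI

open Polynomial Pool.Agent.RDF

section

variable {L : Type*} [Field L]

/-- `x` is a nonzero preperiodic vector of `Φ = lift d F G`. -/
def PV (d : ℕ) (F G : L[X]) (x : L × L) : Prop :=
  x ≠ 0 ∧ ∃ a b : ℕ, a < b ∧ (lift d F G)^[a] x = (lift d F G)^[b] x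

/-- The pairing `g(x, y) = -log |x ∧ y| - log |R| / (d (d - 1))`. -/
noncomputable def gg (abv : AbsoluteValue L ℝ) (d : ℕ) (F G : L[X]) (x y : L × L) : ℝ :=
  -Real.log (abv (wedge x y)) - Real.log (abv (resultant F G d d)) / (d * (d - 1))

/-- The vector `A x`, `A = (a, b; c, e)`. -/
def ap (a b c e : L) (x : L × L) : L × L := (a * x.1 + b * x.2, c * x.1 + e * x.2)

/-- The polynomial of the binary form `x ↦ form d F (A x)`, `A = (a, b; c, e)`. -/
noncomputable def sub (d : ℕ) (F : L[X]) (a b c e : L) : L[X] :=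
  form d (F.map C) (C a * X + C b, C c * X + C e)

/-- First component of `A Φ A'`, `A'` the adjugate of `A = (a, b; c, e)`. -/
noncomputable def cj1 (d : ℕ) (F G : L[X]) (a b c e : L) : L[X] :=
  C a * sub d F e (-b) (-c) a + C b * sub d G e (-b) (-c) a

/-- Second component of `A Φ A'`, `A'` the adjugate of `A = (a, b; c, e)`. -/
noncomputable def cj2 (d : ℕ) (F G : L[X]) (a b c e : L) : L[X] :=
  C c * sub d F e (-b) (-c) a + C e * sub d G e (-b) (-c) a

/-- `Φ` is reduced: the coefficients have absolute value at most `1`, and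
`mu(Φ_A) ≥ mu(Φ) - 1` for all invertible `A` (`mu(Φ) = -log |R| + 2 d log ‖Φ‖`); the determinant of
`A Φ A'` being `det(A) ^ (d + d ^ 2) R`, the resultant does not occur in this condition. -/
structure Red (abv : AbsoluteValue L ℝ) (d : ℕ) (F G : L[X]) : Prop where
  leF : ∀ i, abv (F.coeff i) ≤ 1
  leG : ∀ i, abv (G.coeff i) ≤ 1
  min : ∀ a b c e : L, a * e - b * c ≠ 0 → ∀ B : ℝ,
    (∀ i, abv ((cj1 d F G a b c e).coeff i) ≤ B) → (∀ i, abv ((cj2 d F G a b c e).coeff i) ≤ B) →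
    abv (a * e - b * c) ^ (d + d ^ 2) ≤ Real.exp 1 * B ^ (2 * d)

/-- The truncated distance of the lines of `x` and `y`: `-log max (|x ∧ y| / (‖x‖ ‖y‖), e^(-Λ))`. -/
noncomputable def JJ (abv : AbsoluteValue L ℝ) (Λ : ℝ) (x y : L × L) : ℝ :=
  -Real.log (max (abv (wedge x y) / (nrm abv x * nrm abv y)) (Real.exp (-Λ)))

end

/-- Reduced data: an algebraically closed field with an absolute value and a reduced `Φ`. -/
structure Dat (d : ℕ) where
  Om : Type
  [fld : Field Om]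
  [ac : IsAlgClosed Om]
  abv : AbsoluteValue Om ℝ
  F : Om[X]
  G : Om[X]
  hF : F.natDegree ≤ d
  hG : G.natDegree ≤ d
  hR : resultant F G d d ≠ 0
  red : Red abv d F G

attribute [instance] Dat.fld Dat.ac

namespace Dat

variable {d : ℕ} (D : Dat d)

/-- `λ = -log |R|`. -/
noncomputable def lam : ℝ := -Real.log (D.abv (resultant D.F D.G d d))

/-- The map `Φ`. -/
noncomputable def Phi (x : D.Om × D.Om) : D.Om × D.Om := lift d D.F D.G x

/-- The nonzero preperiodic vectors. -/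
def pv (x : D.Om × D.Om) : Prop := PV d D.F D.G x

/-- The pairing. -/
noncomputable def g (x y : D.Om × D.Om) : ℝ := gg D.abv d D.F D.G x y

end Dat

/-- `(j, h)` is a limit of the families `x n i p` (`i < t n`, labels `p : P`) of vectors for the
data `D n`: on arbitrarily long subfamilies, with `n` arbitrarily large, the distances (truncated
at `Lam * λ`) divided by `λ` are close to `j`, and `log ‖x‖ / λ` is close to `h`. -/
def App {d : ℕ} {P : Type} (D : ℕ → Dat d) (t : ℕ → ℕ)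
    (x : ∀ n, Fin (t n) → P → (D n).Om × (D n).Om) (Lam : ℝ) (j : P → P → ℝ) (h : P → ℝ) : Prop :=
  ∀ ε : ℝ, 0 < ε → ∀ r : ℕ, ∃ n, r ≤ n ∧ ∃ e : Fin r → Fin (t n), StrictMono e ∧
    (∀ a b, a < b → ∀ p q,
      |JJ (D n).abv (Lam * (D n).lam) (x n (e a) p) (x n (e b) q) / (D n).lam - j p q| ≤ ε) ∧
    ∀ a p, |Real.log (nrm (D n).abv (x n (e a) p)) / (D n).lam - h p| ≤ ε

/-- The kernel `γ` of a limit. -/
noncomputable def gam (d : ℕ) {P : Type} (j : P → P → ℝ) (h : P → ℝ) (p q : P) : ℝ :=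
  j p q - h p - h q + 1 / (d * (d - 1))

/-- Everything which is assumed of a limit. -/
structure LimD {d : ℕ} {P : Type} (D : ℕ → Dat d) (t : ℕ → ℕ)
    (x : ∀ n, Fin (t n) → P → (D n).Om × (D n).Om) (Lam : ℝ) (j : P → P → ℝ) (h : P → ℝ) :
    Prop where
  app : App D t x Lam j h
  lam : ∀ n : ℕ, (n : ℝ) ≤ (D n).lam
  pv : ∀ n i p, (D n).pv (x n i p)
  pos : 0 ≤ Lam

/-- The `y t` are the preimages of `q` with multiplicities. -/
def PreSys {d : ℕ} (D : Dat d) (q : D.Om × D.Om) (y : Fin d → D.Om × D.Om) : Prop :=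
  (∀ t, D.Phi (y t) = q) ∧ ∀ x, D.abv (wedge (D.Phi x) q) ^ d =
    D.abv (resultant D.F D.G d d) * ∏ t, D.abv (wedge x (y t)) ^ d

/-- A homogeneous family of `t ≥ n` tuples with a pattern `a` of small energy. -/
structure Bad (d N n : ℕ) (D : Dat d) (t : ℕ) (z : Fin t → Fin N → D.Om × D.Om)
    (a : Fin t → Fin N) : Prop where
  lam : (n : ℝ) ≤ D.lam
  le : n ≤ t
  pv : ∀ i b, D.pv (z i b)
  indep : ∀ i j, i ≠ j → ∀ b c, wedge (z i b) (z j c) ≠ 0
  homJ : ∀ i j i' j', i < j → i' < j' → ∀ b c, |JJ D.abv (n * D.lam) (z i b) (z j c) -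
    JJ D.abv (n * D.lam) (z i' b) (z j' c)| ≤ D.lam / (n + 1)
  homh : ∀ i i' b, |Real.log (nrm D.abv (z i b)) - Real.log (nrm D.abv (z i' b))| ≤
    D.lam / (n + 1)
  small : ∑ i, ∑ j ∈ Finset.univ.erase i, D.g (z i (a i)) (z j (a j)) <
    D.lam * (t : ℝ) ^ 2 / (n + 1)

/-- The conclusion of the tuple theorem with explicit constants `c, lam0, T0`. -/
def TupGood (d N : ℕ) (c lam0 : ℝ) (T0 : ℕ) : Prop :=
  ∀ T, ∃ M, ∀ D : Dat d, lam0 ≤ D.lam → ∀ z : Fin M → Fin N → D.Om × D.Om,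
    (∀ i a, D.pv (z i a)) → (∀ i j, i ≠ j → ∀ a b, wedge (z i a) (z j b) ≠ 0) →
    ∃ e : Fin T → Fin M, StrictMono e ∧ ∀ Y : Finset (Fin T), T0 ≤ Y.card →
      ∀ a : Fin T → Fin N, c * D.lam * (Y.card : ℝ) ^ 2 ≤
        ∑ i ∈ Y, ∑ j ∈ Y.erase i, D.g (z (e i) (a i)) (z (e j) (a j))

end Pool.Agent.RI
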