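import Mathlib
import Pool.Agent.RI.Defs
import Pool.Agent.RDF.Fib

set_option autoImplicit false

/-!
# Preperiodic vectors and preimages
-/

namespace Pool.Agent.RI

open Polynomial Pool.Agent.RDF

section basic

variable {L : Type*} [Field L]

theorem PV_lift {d : ℕ} (hd : 1 ≤ d) {F G : L[X]}
    (hR : resultant F G d d ≠ 0) {x : L × L} (h : PV d F G x) : PV d F G (lift d F G x) := by
  obtain ⟨h0, a, b, hab, he⟩ := h
  refine ⟨lift_ne_zero d hd F G hR h0, a, b, hab, ?_⟩
  rw [← Function.iterate_succ_apply, ← Function.iterate_succ_apply, Function.iterate_succ_apply',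
    Function.iterate_succ_apply', he]

theorem PV_iter {d : ℕ} (hd : 1 ≤ d) {F G : L[X]}
    (hR : resultant F G d d ≠ 0) {x : L × L} (h : PV d F G x) (k : ℕ) :
    PV d F G ((lift d F G)^[k] x) := by
  induction k with
  | zero => exact h
  | succ k ih => rw [Function.iterate_succ_apply']; exact PV_lift hd hR ih

theorem PV_of_lift {d : ℕ} (hd : 1 ≤ d) {F G : L[X]} {x : L × L}
    (h : PV d F G (lift d F G x)) : PV d F G x := by
  obtain ⟨h0, a, b, hab, he⟩ := h
  refine ⟨?_, a + 1, b + 1, by omega, ?_⟩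
  · rintro rfl
    exact h0 (by simpa using iter_zero d 1 hd F G)
  · rw [Function.iterate_succ_apply, Function.iterate_succ_apply, he]

theorem PV_iter_ne_zero {d : ℕ} (hd : 1 ≤ d) {F G : L[X]}
    (hR : resultant F G d d ≠ 0) {x : L × L} (h : PV d F G x) (k : ℕ) :
    (lift d F G)^[k] x ≠ 0 := (PV_iter hd hR h k).1

theorem wedge_self (x : L × L) : wedge x x = 0 := by simp [wedge]

theorem gg_comm (abv : AbsoluteValue L ℝ) (d : ℕ) (F G : L[X]) (x y : L × L) :
    gg abv d F G x y = gg abv d F G y x := by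
  rw [gg, gg, wedge_comm, abv.map_neg]

theorem abv_wedge_le (abv : AbsoluteValue L ℝ) (x y : L × L) :
    abv (wedge x y) ≤ 2 * (nrm abv x * nrm abv y) := by
  have h1 : abv (wedge x y) ≤ abv (x.1 * y.2) + abv (y.1 * x.2) := by
    rw [wedge, sub_eq_add_neg]
    refine (abv.add_le _ _).trans ?_
    rw [abv.map_neg]
  rw [map_mul, map_mul] at h1
  have h2 : abv x.1 * abv y.2 ≤ nrm abv x * nrm abv y :=
    mul_le_mul (le_max_left _ _) (le_max_right _ _) (abv.nonneg _) (nrm_nonneg _ _)
  have h3 : abv y.1 * abv x.2 ≤ nrm abv x * nrm abv y := by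
    rw [mul_comm]
    exact mul_le_mul (le_max_right _ _) (le_max_left _ _) (abv.nonneg _) (nrm_nonneg _ _)
  linarith

theorem nrm_lift_le_arch (abv : AbsoluteValue L ℝ) (d : ℕ) (F G : L[X])
    (hF : ∀ i, abv (F.coeff i) ≤ 1) (hG : ∀ i, abv (G.coeff i) ≤ 1) (p : L × L) :
    nrm abv (lift d F G p) ≤ (d + 1) * nrm abv p ^ d := by
  have key : ∀ H : L[X], (∀ i, abv (H.coeff i) ≤ 1) → abv (form d H p) ≤ (d + 1) * nrm abv p ^ d := by
    intro H hH
    rw [form]
    refine (abv.sum_le _ _).trans ?_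
    have : ∀ i ∈ Finset.range (d + 1), abv (H.coeff i * p.1 ^ i * p.2 ^ (d - i)) ≤ nrm abv p ^ d := by
      intro i hi
      rw [Finset.mem_range] at hi
      rw [map_mul, map_mul, map_pow, map_pow]
      have e : nrm abv p ^ d = 1 * nrm abv p ^ i * nrm abv p ^ (d - i) := by
        rw [one_mul, ← pow_add]; congr 1; omega
      rw [e]
      exact mul_le_mul (mul_le_mul (hH i) (pow_le_pow_left₀ (abv.nonneg _) (le_max_left _ _) _)
        (pow_nonneg (abv.nonneg _) _) zero_le_one)
        (pow_le_pow_left₀ (abv.nonneg _) (le_max_right _ _) _) (pow_nonneg (abv.nonneg _) _)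
        (mul_nonneg zero_le_one (pow_nonneg (nrm_nonneg _ _) _))
    refine (Finset.sum_le_sum this).trans ?_
    rw [Finset.sum_const, Finset.card_range, nsmul_eq_mul]
    push_cast
    exact le_rfl
  exact max_le (key F hF) (key G hG)

/-- A companion vector. -/
theorem exists_wedge_eq_one {q : L × L} (hq : q ≠ 0) : ∃ q' : L × L, wedge q q' = 1 := by
  by_cases h : q.1 = 0
  · have h2 : q.2 ≠ 0 := fun h2 => hq (Prod.ext h h2)
    exact ⟨(-q.2⁻¹, 0), by simp [wedge, h2]⟩
  · exact ⟨(0, q.1⁻¹), by simp [wedge, h]⟩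

theorem eq_smul_of_wedge {u q q' : L × L} (hq : wedge q q' = 1) (hu : wedge u q = 0) :
    u = wedge u q' • q := by
  have h1 : u.1 * wedge q q' = wedge u q' * q.1 - wedge u q * q'.1 := by
    simp only [wedge]; ring
  have h2 : u.2 * wedge q q' = wedge u q' * q.2 - wedge u q * q'.2 := by
    simp only [wedge]; ring
  rw [hq, hu, mul_one, zero_mul, sub_zero] at h1 h2
  ext
  · simpa using h1
  · simpa using h2

theorem wedge_smul_r (s : L) (x y : L × L) : wedge x (s • y) = s * wedge x y := by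
  simp only [wedge, Prod.smul_fst, Prod.smul_snd, smul_eq_mul]
  ring

end basic

theorem strictMono_of_gt {u : ℕ → ℝ} {M : ℝ} (h0 : M < u 0) (h : ∀ k, M < u k → u k < u (k + 1)) :
    StrictMono u := by
  have h1 : ∀ k, M < u k := by
    intro k
    induction k with
    | zero => exact h0
    | succ k ih => exact ih.trans (h k ih)
  exact strictMono_nat_of_lt_succ fun k => h k (h1 k)

/-- (0.1) -/
theorem bounds (d : ℕ) (hd : 2 ≤ d) : ∃ C : ℝ, 0 ≤ C ∧ ∀ {L : Type*} [Field L]
    (abv : AbsoluteValue L ℝ) (F G : L[X]), F.natDegree ≤ d → G.natDegree ≤ d →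
    resultant F G d d ≠ 0 → (∀ i, abv (F.coeff i) ≤ 1) → (∀ i, abv (G.coeff i) ≤ 1) →
    -C ≤ -Real.log (abv (resultant F G d d)) ∧
    (∀ x, PV d F G x → -C ≤ Real.log (nrm abv x) ∧
      Real.log (nrm abv x) ≤ (max (-Real.log (abv (resultant F G d d))) 0 + C) / (d - 1)) ∧
    ∀ x, PV d F G x → ∀ y, PV d F G y →
      -(2 * (max (-Real.log (abv (resultant F G d d))) 0 + C)) ≤ gg abv d F G x y := by
  obtain ⟨c, hc, hcb⟩ := nrm_lift_ge_arch d (by omega)
  have hd1 : (1 : ℝ) ≤ (d : ℝ) - 1 := by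
    have : (2 : ℝ) ≤ d := by exact_mod_cast hd
    linarith
  have hlc : 0 ≤ Real.log c := Real.log_nonneg hc
  have hld : 0 ≤ Real.log (d + 1) := Real.log_nonneg (by linarith)
  have hl2 : 0 ≤ Real.log 2 := Real.log_nonneg (by norm_num)
  refine ⟨2 * (Real.log c + Real.log (d + 1) + Real.log 2), by positivity, ?_⟩
  intro L _ abv F G hF hG hR hBF hBG
  set C := Real.log c + Real.log (d + 1) + Real.log 2 with hC
  set lam := -Real.log (abv (resultant F G d d)) with hlamd
  have hRp : 0 < abv (resultant F G d d) := abv.pos hR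
  have hlow : ∀ p : L × L, abv (resultant F G d d) * nrm abv p ^ d ≤
      c * nrm abv (lift d F G p) := by
    intro p
    have := hcb abv F G hF hG 1 hBF hBG p
    rwa [one_pow, mul_one] at this
  have hup := nrm_lift_le_arch abv d F G hBF hBG
  have hlam : -C ≤ lam := by
    have h1 := hlow (1, 0)
    have h2 := hup (1, 0)
    have h3 : nrm abv ((1 : L), (0 : L)) = 1 := by simp [nrm]
    rw [h3, one_pow, mul_one] at h1 h2
    have h4 : abv (resultant F G d d) ≤ c * (d + 1) :=
      h1.trans (mul_le_mul_of_nonneg_left h2 (by linarith))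
    have h5 := Real.log_le_log hRp h4
    rw [Real.log_mul (by positivity) (by positivity)] at h5
    rw [hlamd]
    linarith
  have hx : ∀ x, PV d F G x → -C ≤ Real.log (nrm abv x) ∧
      Real.log (nrm abv x) ≤ (max lam 0 + C) / (d - 1) := by
    intro x hx
    obtain ⟨a, b, hab, he⟩ := hx.2
    have hne := fun k => PV_iter_ne_zero (by omega) hR hx k
    set u : ℕ → ℝ := fun k => Real.log (nrm abv ((lift d F G)^[k] x)) with hu
    have hue : u a = u b := by simp only [hu, he]
    have hp : ∀ k, 0 < nrm abv ((lift d F G)^[k] x) := fun k => nrm_pos abv (hne k)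
    have hu1 : ∀ k, u (k + 1) ≤ d * u k + Real.log (d + 1) := by
      intro k
      have h1 := hup ((lift d F G)^[k] x)
      rw [← Function.iterate_succ_apply' (lift d F G) k x] at h1
      have h2 := Real.log_le_log (hp (k + 1)) h1
      rw [Real.log_mul (by positivity) (pow_pos (hp k) _).ne', Real.log_pow] at h2
      simp only [hu]
      linarith
    have hu2 : ∀ k, d * u k - lam - Real.log c ≤ u (k + 1) := by
      intro k
      have h1 := hlow ((lift d F G)^[k] x)
      rw [← Function.iterate_succ_apply' (lift d F G) k x] at h1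
      have h2 := Real.log_le_log (mul_pos hRp (pow_pos (hp k) _)) h1
      rw [Real.log_mul hRp.ne' (pow_pos (hp k) _).ne', Real.log_pow,
        Real.log_mul (by positivity) (hp (k + 1)).ne'] at h2
      simp only [hu, hlamd]
      linarith
    constructor
    · show -C ≤ u 0
      by_contra hcon
      rw [not_le] at hcon
      have hm := strictMono_of_gt (u := fun k => -u k) (M := C) (by linarith) (by
        intro k hk
        have h1 := hu1 k
        have h2 : Real.log (d + 1) < -u k := by linarith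
        nlinarith)
      have := hm hab
      simp only [hue] at this
      exact lt_irrefl _ this
    · show u 0 ≤ _
      by_contra hcon
      rw [not_le] at hcon
      have hm := strictMono_of_gt hcon (by
        intro k hk
        have h1 := hu2 k
        rw [div_lt_iff₀ (by linarith)] at hk
        have h2 := le_max_left lam 0
        nlinarith)
      have := hm hab
      rw [hue] at this
      exact lt_irrefl _ this
  have hmax := le_max_right lam 0
  have hC0 : 0 ≤ C := by positivity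
  refine ⟨by linarith, fun x hxP => ⟨by linarith [(hx x hxP).1], (hx x hxP).2.trans ?_⟩, ?_⟩
  · exact div_le_div_of_nonneg_right (by linarith) (by linarith)
  intro x hxP y hyP
  have hdd : (0 : ℝ) < d * (d - 1) := by
    have : (0 : ℝ) < d := by linarith
    positivity
  have hdd1 : (1 : ℝ) ≤ d * (d - 1) := by
    have : (1 : ℝ) ≤ d := by linarith
    nlinarith
  have hl' : -Real.log c - Real.log (d + 1) ≤ -(Real.log (abv (resultant F G d d)) /
      (d * (d - 1))) := by
    have h1 := hlow (1, 0)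
    have h2 := hup (1, 0)
    have h3 : nrm abv ((1 : L), (0 : L)) = 1 := by simp [nrm]
    rw [h3, one_pow, mul_one] at h1 h2
    have h4 : abv (resultant F G d d) ≤ c * (d + 1) :=
      h1.trans (mul_le_mul_of_nonneg_left h2 (by linarith))
    have h5 := Real.log_le_log hRp h4
    rw [Real.log_mul (by positivity) (by positivity)] at h5
    rw [← neg_div, le_div_iff₀ hdd]
    nlinarith
  rw [gg]
  by_cases hw : wedge x y = 0
  · rw [hw, map_zero, Real.log_zero]
    linarith
  · have h1 := Real.log_le_log (abv.pos hw) (abv_wedge_le abv x y)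
    have hnx := nrm_pos abv hxP.1
    have hny := nrm_pos abv hyP.1
    rw [Real.log_mul (by norm_num) (mul_pos hnx hny).ne', Real.log_mul hnx.ne' hny.ne'] at h1
    have h2 := (hx x hxP).2
    have h3 := (hx y hyP).2
    have h4 : (max lam 0 + C) / (d - 1) ≤ max lam 0 + C := by
      rw [div_le_iff₀ (by linarith)]
      nlinarith
    linarith

/-- `|R| ≤ e^C` for coefficients bounded by `1`. -/
theorem lam_ge (d : ℕ) : ∃ C : ℝ, 0 ≤ C ∧ ∀ D : Dat d, -C ≤ D.lam := by
  rcases Nat.eq_zero_or_pos d with rfl | hd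
  · refine ⟨0, le_rfl, fun D => ?_⟩
    have : resultant D.F D.G 0 0 = 1 := by
      simp [resultant]
    rw [Dat.lam, this, map_one, Real.log_one]
  · obtain ⟨c, hc, hcb⟩ := nrm_lift_ge_arch d hd
    have hlc : 0 ≤ Real.log c := Real.log_nonneg hc
    have hd1 : (1 : ℝ) ≤ d := by exact_mod_cast hd
    have hld : 0 ≤ Real.log (d + 1) := Real.log_nonneg (by linarith)
    refine ⟨Real.log c + Real.log (d + 1), by positivity, fun D => ?_⟩
    have hRp : 0 < D.abv (resultant D.F D.G d d) := D.abv.pos D.hR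
    have h1 := hcb D.abv D.F D.G D.hF D.hG 1 D.red.leF D.red.leG (1, 0)
    have h2 := nrm_lift_le_arch D.abv d D.F D.G D.red.leF D.red.leG (1, 0)
    have h3 : nrm D.abv ((1 : D.Om), (0 : D.Om)) = 1 := by simp [nrm]
    rw [h3, one_pow, mul_one] at h2
    rw [h3, one_pow, one_pow, mul_one, mul_one] at h1
    have h4 : D.abv (resultant D.F D.G d d) ≤ c * (d + 1) :=
      h1.trans (mul_le_mul_of_nonneg_left h2 (by linarith))
    have h5 := Real.log_le_log hRp h4
    rw [Real.log_mul (by positivity) (by positivity)] at h5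
    rw [Dat.lam]
    linarith

theorem pv_nrm (d : ℕ) (hd : 2 ≤ d) : ∃ C : ℝ, 0 ≤ C ∧ ∀ (D : Dat d) (x : D.Om × D.Om), D.pv x →
    -C ≤ Real.log (nrm D.abv x) ∧ Real.log (nrm D.abv x) ≤ (max D.lam 0 + C) / (d - 1) := by
  obtain ⟨C, hC, h⟩ := bounds d hd
  exact ⟨C, hC, fun D x hx => (h D.abv D.F D.G D.hF D.hG D.hR D.red.leF D.red.leG).2.1 x hx⟩

theorem pv_Phi {d : ℕ} (hd : 1 ≤ d) (D : Dat d) {x : D.Om × D.Om} (h : D.pv x) :
    D.pv (D.Phi x) := PV_lift hd D.hR h

theorem pv_pre {d : ℕ} (hd : 1 ≤ d) (D : Dat d) {x : D.Om × D.Om} (h : D.pv (D.Phi x)) :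
    D.pv x := PV_of_lift hd h

theorem exists_pre {d : ℕ} (hd : 1 ≤ d) (D : Dat d) (q : D.Om × D.Om) (hq : q ≠ 0) :
    ∃ y, PreSys D q y := by
  have : Infinite D.Om := IsAlgClosed.instInfinite
  obtain ⟨q', hqq⟩ := exists_wedge_eq_one hq
  have hC : ∀ (r : D.Om) (p : D.Om[X]), p.natDegree ≤ d → (C r * p).natDegree ≤ d := fun r p hp =>
    (natDegree_C_mul_le r p).trans hp
  have hdeg : ∀ g : D.Om × D.Om, (C g.2 * D.F - C g.1 * D.G).natDegree ≤ d := fun g =>
    (natDegree_sub_le _ _).trans (max_le (hC _ _ D.hF) (hC _ _ D.hG))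
  obtain ⟨c, z, hz, hP⟩ := exists_factor D.abv d _ (hdeg q)
  have hform : ∀ p, wedge (lift d D.F D.G p) q = c * ∏ i, wedge p (z i) := by
    intro p
    rw [← form_lin_comb, hP, form_C_mul, form_prod_lin]
  have h1 : resultant (C q.2 * D.F - C q.1 * D.G) (C q'.2 * D.F - C q'.1 * D.G) d d =
      resultant D.F D.G d d := by
    have := resultant_lin d D.F D.G D.hF D.hG q.2 (-q.1) q'.2 (-q'.1)
    rw [C_neg, C_neg, neg_mul, neg_mul, ← sub_eq_add_neg, ← sub_eq_add_neg] at this
    rw [this]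
    have e : q.2 * -q'.1 - -q.1 * q'.2 = wedge q q' := by simp only [wedge]; ring
    rw [e, hqq, one_pow, one_mul]
  have h2 := resultant_eq_prod_form d hd (C q.2 * D.F - C q.1 * D.G) (C q'.2 * D.F - C q'.1 * D.G)
    (hdeg q) (hdeg q') c z (fun p => by rw [form_lin_comb]; exact hform p)
  rw [h1] at h2
  set s : Fin d → D.Om := fun i => wedge (lift d D.F D.G (z i)) q' with hs
  have h3 : ∀ i, form d (C q'.2 * D.F - C q'.1 * D.G) (z i) = s i := fun i => form_lin_comb _ _ _ _ _
  rw [Finset.prod_congr rfl fun i _ => h3 i] at h2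
  have hs0 : ∀ i, s i ≠ 0 := by
    intro i hi
    apply D.hR
    rw [h2, Finset.prod_eq_zero (Finset.mem_univ i) hi, mul_zero]
  have hsm : ∀ i, lift d D.F D.G (z i) = s i • q := by
    intro i
    refine eq_smul_of_wedge hqq ?_
    rw [hform, Finset.prod_eq_zero (Finset.mem_univ i) (wedge_self _), mul_zero]
  choose t ht using fun i => IsAlgClosed.exists_pow_nat_eq (s i)⁻¹ (n := d) (by omega)
  refine ⟨fun i => t i • z i, fun i => ?_, fun x => ?_⟩
  · show lift d D.F D.G (t i • z i) = q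
    rw [lift_smul, hsm, smul_smul, ht, inv_mul_cancel₀ (hs0 i), one_smul]
  · have h4 : ∀ i, D.abv (s i) * D.abv (wedge x (t i • z i)) ^ d = D.abv (wedge x (z i)) ^ d := by
      intro i
      rw [wedge_smul_r, map_mul, mul_pow, ← map_pow, ht, ← mul_assoc, ← map_mul,
        mul_inv_cancel₀ (hs0 i), map_one, one_mul]
    have h5 : D.abv (wedge (D.Phi x) q) = D.abv c * ∏ i, D.abv (wedge x (z i)) := by
      show D.abv (wedge (lift d D.F D.G x) q) = _
      rw [hform, map_mul, map_prod]
    rw [h5, h2, map_mul, map_pow, map_prod, mul_pow, mul_assoc, ← Finset.prod_mul_distrib,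
      Finset.prod_congr rfl fun i _ => h4 i, Finset.prod_pow]

theorem Phi_smul {d : ℕ} (D : Dat d) (s : D.Om) (x : D.Om × D.Om) :
    D.Phi (s • x) = s ^ d • D.Phi x := lift_smul _ _ _ _ _

theorem Phi_zero {d : ℕ} (hd : 1 ≤ d) (D : Dat d) : D.Phi 0 = 0 := by
  have := Phi_smul D 0 0
  rwa [smul_zero, zero_pow (by omega), zero_smul] at this

theorem exists_pre' {d : ℕ} (hd : 1 ≤ d) (D : Dat d) (q : D.Om × D.Om) (hq : D.Phi q ≠ 0)
    (z : Fin d) : ∃ y, PreSys D (D.Phi q) y ∧ y z = q := by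
  classical
  obtain ⟨y, hy⟩ := exists_pre hd D _ hq
  have h1 := hy.2 q
  rw [wedge_self, map_zero, zero_pow (by omega)] at h1
  have h2 : ∏ t, D.abv (wedge q (y t)) ^ d = 0 := by
    rcases mul_eq_zero.1 h1.symm with h | h
    · exact absurd ((map_eq_zero D.abv).1 h) D.hR
    · exact h
  obtain ⟨t0, -, ht0⟩ := Finset.prod_eq_zero_iff.1 h2
  have ht1 : wedge q (y t0) = 0 := (map_eq_zero D.abv).1 (pow_eq_zero_iff (by omega) |>.1 ht0)
  have hq0 : q ≠ 0 := by
    rintro rfl
    exact hq (Phi_zero hd D)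
  obtain ⟨q', hqq⟩ := exists_wedge_eq_one hq0
  have ht2 : y t0 = wedge (y t0) q' • q := by
    refine eq_smul_of_wedge hqq ?_
    rw [wedge_comm, ht1, neg_zero]
  set ζ := wedge (y t0) q' with hζ
  have hζd : ζ ^ d = 1 := by
    have h3 := hy.1 t0
    rw [ht2, Phi_smul] at h3
    by_contra hcon
    apply hq
    have h4 : (ζ ^ d - 1) • D.Phi q = 0 := by rw [sub_smul, h3, one_smul, sub_self]
    rcases smul_eq_zero.1 h4 with h | h
    · exact absurd (sub_eq_zero.1 h) hcon
    · exact h
  have hζ1 : D.abv ζ = 1 := by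
    have h3 : D.abv ζ ^ d = 1 := by rw [← map_pow, hζd, map_one]
    exact (pow_eq_one_iff_of_nonneg (D.abv.nonneg _) (by omega)).1 h3
  have hw : ∀ x, D.abv (wedge x (y t0)) = D.abv (wedge x q) := by
    intro x
    rw [ht2, wedge_smul_r, map_mul, hζ1, one_mul]
  refine ⟨fun t => if t = z then q else y (Equiv.swap z t0 t), ⟨fun t => ?_, fun x => ?_⟩, ?_⟩
  · by_cases h : t = z
    · simp only [h, if_true]
    · simp only [h, if_false]
      exact hy.1 _
  · rw [hy.2 x]
    congr 1
    rw [← Equiv.prod_comp (Equiv.swap z t0) (fun t => D.abv (wedge x (y t)) ^ d)]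
    refine Finset.prod_congr rfl fun t _ => ?_
    by_cases h : t = z
    · simp only [h, if_true, Equiv.swap_apply_left, hw]
    · simp only [h, if_false]
  · simp only [if_true]

/-- `g(Φ x, q) = ∑ g(x, q_t)`. -/
theorem PreSys.g_eq {d : ℕ} (hd : 2 ≤ d) {D : Dat d} {q : D.Om × D.Om}
    {y : Fin d → D.Om × D.Om} (h : PreSys D q y) {x : D.Om × D.Om}
    (hx : wedge (D.Phi x) q ≠ 0) :
    (∀ t, wedge x (y t) ≠ 0) ∧ D.g (D.Phi x) q = ∑ t, D.g x (y t) := by
  have h1 := h.2 x
  have h2 : D.abv (wedge (D.Phi x) q) ^ d ≠ 0 := pow_ne_zero _ ((map_ne_zero D.abv).2 hx)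
  have h3 : ∀ t, wedge x (y t) ≠ 0 := by
    intro t ht
    apply h2
    rw [h1, Finset.prod_eq_zero (Finset.mem_univ t), mul_zero]
    rw [ht, map_zero, zero_pow (by omega)]
  refine ⟨h3, ?_⟩
  have h4 : ∀ t ∈ Finset.univ, D.abv (wedge x (y t)) ^ d ≠ 0 := fun t _ =>
    pow_ne_zero _ ((map_ne_zero D.abv).2 (h3 t))
  have h5 := congrArg Real.log h1
  rw [Real.log_pow, Real.log_mul ((map_ne_zero D.abv).2 D.hR) (Finset.prod_ne_zero_iff.2 h4),
    Real.log_prod h4] at h5
  simp only [Real.log_pow] at h5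
  rw [← Finset.mul_sum] at h5
  have hd0 : (d : ℝ) ≠ 0 := by
    have : (2 : ℝ) ≤ d := by exact_mod_cast hd
    positivity
  have hd1 : (d : ℝ) - 1 ≠ 0 := by
    have : (2 : ℝ) ≤ d := by exact_mod_cast hd
    intro h0
    linarith
  simp only [Dat.g, gg]
  rw [Finset.sum_sub_distrib, Finset.sum_neg_distrib, Finset.sum_const, Finset.card_univ,
    Fintype.card_fin, nsmul_eq_mul]
  set A := Real.log (D.abv (wedge (D.Phi x) q)) with hA
  set B := Real.log (D.abv (resultant D.F D.G d d)) with hB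
  set S := ∑ t, Real.log (D.abv (wedge x (y t))) with hS
  have h6 : A = B / d + S := by
    field_simp
    linarith
  rw [h6]
  field_simp
  ring

theorem g_comm {d : ℕ} (D : Dat d) (x y : D.Om × D.Om) : D.g x y = D.g y x :=
  gg_comm _ _ _ _ _ _

/-- Lower bound of the pairing. -/
theorem g_ge (d : ℕ) (hd : 2 ≤ d) : ∃ C : ℝ, 0 ≤ C ∧ ∀ (D : Dat d) (x y : D.Om × D.Om), D.pv x →
    D.pv y → -(2 * max D.lam 0 + C) ≤ D.g x y := by
  obtain ⟨C, hC, h⟩ := bounds d hd
  refine ⟨2 * C, by positivity, fun D x y hx hy => ?_⟩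
  have := (h D.abv D.F D.G D.hF D.hG D.hR D.red.leF D.red.leG).2.2 x hx y hy
  rw [Dat.g, Dat.lam]
  linarith

end Pool.Agent.RI
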