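import Mathlib
import Pool.Agent.RI.GDefs
import Pool.Agent.RI.Defs

set_option autoImplicit false

/-!
# The minimal resultant: definitions
-/

namespace Pool.Agent.RI

open Polynomial NumberField IsDedekindDomain Pool.Agent.GPoly
open Pool.Agent.RDF (lift wedge)

/-- The numbers `-log |R(Φ')|` for the conjugates `Φ' = A Φ A⁻¹` of `Φ = (F, G)`, `A ∈ GL₂(E)`,
which have coefficients of norm at most `1`. -/
def resSet {E : Type} [NormedField E] (d : ℕ) (F G : E[X]) : Set ℝ :=
  {r | ∃ (F' G' : E[X]) (A : Matrix (Fin 2) (Fin 2) E), A.det ≠ 0 ∧ F'.natDegree ≤ d ∧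
    G'.natDegree ≤ d ∧ (∀ i, ‖F'.coeff i‖ ≤ 1) ∧ (∀ i, ‖G'.coeff i‖ ≤ 1) ∧
    (∀ p, lift d F' G' (act A p) = act A (lift d F G p)) ∧
    r = -Real.log ‖resultant F' G' d d‖}

/-- The minimal resultant of a rational function `F / G` over `ℂ` (`0` if it is negative). -/
noncomputable def lamC (d : ℕ) (F G : ℂ[X]) : ℝ := max 0 (sInf (resSet d F G))

/-- The minimal resultant of `F / G` at the prime `v`, over all algebraically closed ultrametric
extensions `E` of `K` with its `v`-adic absolute value `av v` (`|x|_v = N(v)^(-v(x))`). -/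
noncomputable def lamV {K : Type} [Field K] [NumberField K] (d : ℕ) (F G : (𝓞 K)[X])
    (v : HeightOneSpectrum (𝓞 K)) : ℝ :=
  sInf {r | ∃ (E : Type) (_ : NormedField E) (_ : IsAlgClosed E) (_ : IsUltrametricDist E)
    (_ : Algebra K E), (∀ x : K, ‖algebraMap K E x‖ = av v x) ∧
    r ∈ resSet d (F.map (algebraMap (𝓞 K) E)) (G.map (algebraMap (𝓞 K) E))}

/-- `Φ' = A Φ A⁻¹`, `A = (a, b; c, e)`, has coefficients of absolute value at most one. -/
structure Adm {L : Type*} [Field L] (abv : AbsoluteValue L ℝ) (d : ℕ) (F G F' G' : L[X])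
    (a b c e : L) : Prop where
  degF : F'.natDegree ≤ d
  degG : G'.natDegree ≤ d
  det : a * e - b * c ≠ 0
  leF : ∀ i, abv (F'.coeff i) ≤ 1
  leG : ∀ i, abv (G'.coeff i) ≤ 1
  conj : ∀ x, lift d F' G' (ap a b c e x) = ap a b c e (lift d F G x)

/-- `l` is at most the logarithmic size of the resultant of every conjugate with bounded
coefficients. -/
def LamLe {L : Type*} [Field L] (abv : AbsoluteValue L ℝ) (d : ℕ) (F G : L[X]) (l : ℝ) : Prop :=
  ∀ (F' G' : L[X]) (a b c e : L), Adm abv d F G F' G' a b c e →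
    l ≤ -Real.log (abv (resultant F' G' d d))

/-- Lower bounds of `resSet` are the `l` with `LamLe`. -/
theorem lamLe_iff {E : Type} [NormedField E] (d : ℕ) (F G : E[X]) (l : ℝ) :
    LamLe (NormedField.toAbsoluteValue E) d F G l ↔ ∀ r ∈ resSet d F G, l ≤ r := by
  constructor
  · rintro h r ⟨F', G', A, hA, h1, h2, h3, h4, h5, rfl⟩
    refine h F' G' (A 0 0) (A 0 1) (A 1 0) (A 1 1) ⟨h1, h2, ?_, h3, h4, h5⟩
    rwa [Matrix.det_fin_two] at hA
  · intro h F' G' a b c e hA
    refine h _ ⟨F', G', !![a, b; c, e], ?_, hA.degF, hA.degG, hA.leF, hA.leG, hA.conj, rfl⟩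
    rw [Matrix.det_fin_two]
    exact hA.det

end Pool.Agent.RI
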