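import Mathlib
import Pool.Agent.RI.SDefs
import Pool.Agent.RI.GLocW
import Pool.Agent.RI.Hmu
import Pool.Agent.RI.Pre
import Pool.Agent.RDF.ResId

set_option autoImplicit false

/-!
# The generic bound in terms of the resultant of a conjugate
-/

namespace Pool.Agent.RI

open Polynomial NumberField IsDedekindDomain Pool.Agent.GPoly
open Pool.Agent.RDF (lift wedge form nrm UU mat Above DefectiveN coeffs)

theorem resSet_self {E : Type} [NormedField E] (d : ℕ) (F G : E[X]) (hF : F.natDegree ≤ d)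
    (hG : G.natDegree ≤ d) (h1 : ∀ i, ‖F.coeff i‖ ≤ 1) (h2 : ∀ i, ‖G.coeff i‖ ≤ 1) :
    -Real.log ‖resultant F G d d‖ ∈ resSet d F G := by
  refine ⟨F, G, 1, by simp, hF, hG, h1, h2, fun p => ?_, rfl⟩
  rw [act_one, act_one]

namespace SGenE

/-- The resultant of an integral lift is integral. -/
theorem norm_res_le_one {E : Type} [NormedField E] [IsUltrametricDist E] (d : ℕ) (F G : E[X])
    (hF : F.natDegree ≤ d) (hG : G.natDegree ≤ d) (h1 : ∀ i, ‖F.coeff i‖ ≤ 1)
    (h2 : ∀ i, ‖G.coeff i‖ ≤ 1) : ‖resultant F G d d‖ ≤ 1 := by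
  rcases Nat.eq_zero_or_pos d with rfl | hd
  · have h : resultant F G 0 0 = 1 := by simp [resultant]
    rw [h, norm_one]
  · have hna : IsNonarchimedean (NormedField.toAbsoluteValue E) := fun x y =>
      IsUltrametricDist.norm_add_le_max x y
    have h3 := RDF.nrm_lift_ge (NormedField.toAbsoluteValue E) hna d hd F G hF hG 1 h1 h2 (1, 0)
    have h4 : nrm (NormedField.toAbsoluteValue E) ((1 : E), (0 : E)) = 1 := by simp [nrm]
    have h5 : nrm (NormedField.toAbsoluteValue E) (lift d F G (1, 0)) ≤ 1 := by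
      unfold nrm lift
      rw [RDF.form_infty, RDF.form_infty, one_pow, mul_one, mul_one]
      exact max_le (h1 d) (h2 d)
    rw [h4, one_pow, one_pow, mul_one, one_mul] at h3
    exact h3.trans h5

/-- The resultant of a lift with coefficients of norm at most `1`. -/
theorem norm_res_le {E : Type} [NormedField E] (d : ℕ) (F G : E[X])
    (h1 : ∀ i, ‖F.coeff i‖ ≤ 1) (h2 : ∀ i, ‖G.coeff i‖ ≤ 1) :
    ‖resultant F G d d‖ ≤ (Nat.factorial (d + d) : ℝ) := by
  have h := Matrix.det_le (A := sylvester F G d d) (abv := NormedField.toAbsoluteValue E)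
    (x := 1) (fun i j => by
      unfold sylvester
      rw [Matrix.of_apply]
      induction j using Fin.addCases with
      | left j =>
        rw [Fin.addCases_left]
        split_ifs
        · exact h2 _
        · rw [map_zero]; exact zero_le_one
      | right j =>
        rw [Fin.addCases_right]
        split_ifs
        · exact h1 _
        · rw [map_zero]; exact zero_le_one)
  rw [Fintype.card_fin, nsmul_eq_mul, one_pow, mul_one] at h
  exact h

/-- The logarithms of the resultants of a conjugate. -/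
theorem log_res {E : Type} [NormedField E] [IsAlgClosed E] (d : ℕ) (hd : 1 ≤ d) (F G : E[X])
    (hF : F.natDegree ≤ d) (hG : G.natDegree ≤ d) (hR : resultant F G d d ≠ 0)
    (A : Matrix (Fin 2) (Fin 2) E) (hA : A.det ≠ 0) (F' G' : E[X])
    (hF' : F'.natDegree ≤ d) (hG' : G'.natDegree ≤ d)
    (h : ∀ p, lift d F' G' (act A p) = act A (lift d F G p)) :
    resultant F' G' d d ≠ 0 ∧ Real.log ‖resultant F' G' d d‖ =
      Real.log ‖resultant F G d d‖ - (d * (d - 1)) * Real.log ‖A.det‖ := by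
  have hres := Hmu.res_conj d hd F G hF hG A hA F' G' hF' hG' h
  have hR' : resultant F' G' d d ≠ 0 := by
    intro h0
    rw [h0, mul_zero] at hres
    exact (mul_ne_zero (pow_ne_zero d hA) hR) hres.symm
  refine ⟨hR', ?_⟩
  have hD0 : 0 < ‖A.det‖ := norm_pos_iff.2 hA
  have h1 := congrArg (fun x => Real.log ‖x‖) hres
  simp only [norm_mul, norm_pow] at h1
  rw [Real.log_mul (pow_ne_zero _ hD0.ne') (norm_ne_zero_iff.2 hR'),
    Real.log_mul (pow_ne_zero _ hD0.ne') (norm_ne_zero_iff.2 hR), Real.log_pow,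
    Real.log_pow] at h1
  push_cast at h1
  linarith

/-- The image of a preperiodic vector. -/
theorem preV_act {E : Type} [Field E] (d : ℕ) (F G F' G' : E[X])
    (A : Matrix (Fin 2) (Fin 2) E) (hA : A.det ≠ 0)
    (h : ∀ p, lift d F' G' (act A p) = act A (lift d F G p)) {x : E × E} (hx : PreV d F G x) :
    PreV d F' G' (act A x) := by
  obtain ⟨h0, a, b, hab, he⟩ := hx
  refine ⟨act_ne_zero A hA h0, a, b, hab, ?_⟩
  rw [act_iter A d F G F' G' h, act_iter A d F G F' G' h, he]

end SGenE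

/-- The resultant of an integral lift in an ultrametric field. -/
theorem resSet_nonneg {E : Type} [NormedField E] [IsUltrametricDist E] (d : ℕ) (F G : E[X])
    (r : ℝ) (hr : r ∈ resSet d F G) : 0 ≤ r := by
  obtain ⟨F', G', A, -, hF', hG', h1, h2, -, rfl⟩ := hr
  have := Real.log_nonpos (norm_nonneg _) (SGenE.norm_res_le_one d F' G' hF' hG' h1 h2)
  linarith

/-- The resultant of a lift with coefficients of norm at most `1`. -/
theorem resSet_ge (d : ℕ) : ∃ C : ℝ, 0 ≤ C ∧ ∀ {E : Type} [NormedField E] (F G : E[X])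
    (r : ℝ), r ∈ resSet d F G → -C ≤ r := by
  have hf : (1 : ℝ) ≤ Nat.factorial (d + d) := by
    exact_mod_cast Nat.one_le_iff_ne_zero.2 (Nat.factorial_ne_zero _)
  have hC : 0 ≤ Real.log (Nat.factorial (d + d) : ℝ) := Real.log_nonneg hf
  refine ⟨Real.log (Nat.factorial (d + d) : ℝ), hC, ?_⟩
  intro E _ F G r hr
  obtain ⟨F', G', A, -, -, -, h1, h2, -, rfl⟩ := hr
  by_cases h0 : resultant F' G' d d = 0
  · rw [h0, norm_zero, Real.log_zero]
    linarith
  · have := Real.log_le_log (norm_pos_iff.2 h0) (SGenE.norm_res_le d F' G' h1 h2)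
    linarith

/-- The energy of `d ^ m` preperiodic vectors and the resultant of a conjugate. -/
theorem gen_E (d : ℕ) (hd : 2 ≤ d) {E : Type} [NormedField E] [IsAlgClosed E]
    [IsUltrametricDist E] (F G : E[X]) (hF : F.natDegree ≤ d) (hG : G.natDegree ≤ d)
    (hR : resultant F G d d ≠ 0) (r : ℝ) (hr : r ∈ resSet d F G) (m : ℕ)
    (z : Fin (d ^ m) → E × E) (hz : ∀ i, PreV d F G (z i))
    (hw : ∀ i j, i ≠ j → wedge (z i) (z j) ≠ 0) :
    ∑ i, ∑ j ∈ Finset.univ.erase i, Real.log ‖wedge (z i) (z j)‖ ≤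
      ((d : ℝ) ^ m * ((d : ℝ) ^ m - 1)) * (-Real.log ‖resultant F G d d‖ / (d * (d - 1))) +
      2 * m * (d : ℝ) ^ m * r := by
  obtain ⟨F', G', A, hA, hF', hG', hc1, hc2, hconj, rfl⟩ := hr
  obtain ⟨hR', hlog⟩ := SGenE.log_res d (by omega) F G hF hG hR A hA F' G' hF' hG' hconj
  have hna : IsNonarchimedean (NormedField.toAbsoluteValue E) := fun x y =>
    IsUltrametricDist.norm_add_le_max x y
  have hwA : ∀ i j, i ≠ j → wedge (act A (z i)) (act A (z j)) ≠ 0 := by
    intro i j hij
    rw [wedge_act]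
    exact mul_ne_zero hA (hw i j hij)
  have hzA : ∀ i, PreV d F' G' (act A (z i)) := fun i =>
    SGenE.preV_act d F G F' G' A hA hconj (hz i)
  have hdet := RDF.log_det_le (NormedField.toAbsoluteValue E) hna d m (by omega) F' G'
    (fun i => act A (z i))
    (fun i l => RDF.iter_ne_zero d (by omega) _ _ hF' hG' hR' l (hzA i).1)
    (RDF.det_mat_ne_zero d m (by omega) _ _ hF' hG' hR' (fun i => act A (z i)) hwA)
  have h1 := GLoc.of_det (NormedField.toAbsoluteValue E) hna hd hF' hG' hR' hc1 hc2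
    (SGenE.norm_res_le_one d F' G' hF' hG' hc1 hc2) m (fun i => act A (z i)) hzA hwA 0
    (by rw [sub_zero]; exact hdet)
  have h2 : ∑ i, ∑ j ∈ Finset.univ.erase i,
      Real.log (NormedField.toAbsoluteValue E (wedge (act A (z i)) (act A (z j)))) =
      ((d : ℝ) ^ m * ((d : ℝ) ^ m - 1)) * Real.log ‖A.det‖ +
      ∑ i, ∑ j ∈ Finset.univ.erase i, Real.log ‖wedge (z i) (z j)‖ := by
    have h3 : ∀ i, ∑ j ∈ Finset.univ.erase i,
        Real.log (NormedField.toAbsoluteValue E (wedge (act A (z i)) (act A (z j)))) =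
        ((d : ℝ) ^ m - 1) * Real.log ‖A.det‖ +
        ∑ j ∈ Finset.univ.erase i, Real.log ‖wedge (z i) (z j)‖ := by
      intro i
      have h4 : ∀ j ∈ Finset.univ.erase i,
          Real.log (NormedField.toAbsoluteValue E (wedge (act A (z i)) (act A (z j)))) =
          Real.log ‖A.det‖ + Real.log ‖wedge (z i) (z j)‖ := by
        intro j hj
        have hij : i ≠ j := fun h => (Finset.mem_erase.1 hj).1 h.symm
        show Real.log ‖wedge (act A (z i)) (act A (z j))‖ = _
        rw [wedge_act, norm_mul, Real.log_mul (norm_ne_zero_iff.2 hA)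
          (norm_ne_zero_iff.2 (hw i j hij))]
      rw [Finset.sum_congr rfl h4, Finset.sum_add_distrib, Finset.sum_const,
        Finset.card_erase_of_mem (Finset.mem_univ i), Finset.card_univ, Fintype.card_fin,
        nsmul_eq_mul, Nat.cast_sub (Nat.one_le_pow _ _ (by omega))]
      push_cast
      rfl
    rw [Finset.sum_congr rfl fun i _ => h3 i, Finset.sum_add_distrib, Finset.sum_const,
      Finset.card_univ, Fintype.card_fin, nsmul_eq_mul]
    push_cast
    ring
  rw [h2] at h1
  have h5 : Real.log (NormedField.toAbsoluteValue E (resultant F' G' d d)) =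
      Real.log ‖resultant F G d d‖ - (d * (d - 1)) * Real.log ‖A.det‖ := hlog
  rw [h5] at h1
  rw [hlog]
  have hd2 : (2 : ℝ) ≤ d := by exact_mod_cast hd
  have hdd : (d : ℝ) * (d - 1) ≠ 0 := by
    have h6 : (0 : ℝ) < d * (d - 1) := by nlinarith
    exact h6.ne'
  have h7 : -(Real.log ‖resultant F G d d‖ - (d * (d - 1)) * Real.log ‖A.det‖) / (d * (d - 1)) =
      -Real.log ‖resultant F G d d‖ / (d * (d - 1)) + Real.log ‖A.det‖ := by
    rw [neg_sub, sub_div, mul_div_cancel_left₀ _ hdd, neg_div]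
    ring
  rw [h7] at h1
  linarith

/-- The lower bound of the pairing of two preperiodic vectors, over any `E`. -/
theorem pair_E (d : ℕ) (hd : 2 ≤ d) : ∃ C : ℝ, 0 ≤ C ∧ ∀ {E : Type} [NormedField E]
    [IsAlgClosed E] (F G : E[X]), F.natDegree ≤ d → G.natDegree ≤ d → resultant F G d d ≠ 0 →
    ∀ r ∈ resSet d F G, ∀ x y : E × E, PreV d F G x → PreV d F G y → wedge x y ≠ 0 →
    Real.log ‖wedge x y‖ ≤
      -Real.log ‖resultant F G d d‖ / (d * (d - 1)) + 2 * max r 0 + C := by
  obtain ⟨C, hC, hb⟩ := bounds d hd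
  refine ⟨2 * C, by linarith, ?_⟩
  intro E _ _ F G hF hG hR r hr x y hx hy hw
  obtain ⟨F', G', A, hA, hF', hG', hc1, hc2, hconj, rfl⟩ := hr
  obtain ⟨hR', hlog⟩ := SGenE.log_res d (by omega) F G hF hG hR A hA F' G' hF' hG' hconj
  have h1 := (hb (NormedField.toAbsoluteValue E) F' G' hF' hG' hR' hc1 hc2).2.2
    (act A x) (SGenE.preV_act d F G F' G' A hA hconj hx)
    (act A y) (SGenE.preV_act d F G F' G' A hA hconj hy)
  have h2 : gg (NormedField.toAbsoluteValue E) d F' G' (act A x) (act A y) =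
      -Real.log ‖wedge (act A x) (act A y)‖ -
        Real.log ‖resultant F' G' d d‖ / (d * (d - 1)) := rfl
  have h3 : max (-Real.log (NormedField.toAbsoluteValue E (resultant F' G' d d))) 0 =
      max (-Real.log ‖resultant F' G' d d‖) 0 := rfl
  rw [h2, h3, wedge_act, norm_mul, Real.log_mul (norm_ne_zero_iff.2 hA)
    (norm_ne_zero_iff.2 hw)] at h1
  have hd2 : (2 : ℝ) ≤ d := by exact_mod_cast hd
  have hdd : (d : ℝ) * (d - 1) ≠ 0 := by
    have h6 : (0 : ℝ) < d * (d - 1) := by nlinarith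
    exact h6.ne'
  have h7 : Real.log ‖resultant F' G' d d‖ / (d * (d - 1)) =
      Real.log ‖resultant F G d d‖ / (d * (d - 1)) - Real.log ‖A.det‖ := by
    rw [hlog, sub_div, mul_div_cancel_left₀ _ hdd]
  have h8 : -Real.log ‖resultant F G d d‖ / (d * (d - 1)) =
      -(Real.log ‖resultant F G d d‖ / (d * (d - 1))) := neg_div _ _
  rw [h8]
  linarith

end Pool.Agent.RI
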