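import Pool.Agent.RI.GDefs
import Pool.Agent.RDF.ResId

set_option autoImplicit false

/-!
# The conjugates of a preperiodic point of bounded degree

Two preperiodic vectors of a lift which give the same point differ by a root of unity, so the images of
a preperiodic vector under all embeddings form, up to factors of norm one, at most `N` vectors if the
degree of the point is at most `N`.
-/

namespace Pool.Agent.RI

open Polynomial NumberField IsDedekindDomain Pool.Agent.GPoly
open Pool.Agent.RDF (lift wedge form nrm UU mat Above DefectiveN coeffs)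

namespace GPat

/-- A relation `Φ^a z = Φ^b z`, `a < b`, gives `Φ^n z = Φ^(n + (b - a) j) z` for all `n ≥ a`. -/
theorem iter_period {α : Type*} (f : α → α) (z : α) (a b : ℕ) (hab : a < b)
    (h : f^[a] z = f^[b] z) (n : ℕ) (hn : a ≤ n) (j : ℕ) : f^[n] z = f^[n + (b - a) * j] z := by
  have h1 : ∀ m, a ≤ m → f^[m] z = f^[m + (b - a)] z := by
    intro m hm
    obtain ⟨k, rfl⟩ := Nat.exists_eq_add_of_le hm
    rw [show a + k = k + a by omega, show k + a + (b - a) = k + b by omega,
      Function.iterate_add_apply, Function.iterate_add_apply, h]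
  induction j with
  | zero => simp
  | succ j ih =>
    rw [ih, h1 (n + (b - a) * j) (le_trans hn (Nat.le_add_right _ _)), Nat.mul_succ, Nat.add_assoc]

end GPat

/-- Two preperiodic vectors of the same point differ by a factor of norm one. -/
theorem norm_eq_one_of_preV {E : Type} [NormedField E] (d : ℕ) (hd : 2 ≤ d) (F G : E[X])
    (hF : F.natDegree ≤ d) (hG : G.natDegree ≤ d) (hR : resultant F G d d ≠ 0)
    (z : E × E) (u : E) (h1 : PreV d F G z) (h2 : PreV d F G (u • z)) : ‖u‖ = 1 := by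
  obtain ⟨hz, a, b, hab, h⟩ := h1
  obtain ⟨huz, a', b', hab', h'⟩ := h2
  have hu : u ≠ 0 := by
    rintro rfl
    exact huz (zero_smul _ _)
  set n := max a a'
  set P := (b - a) * (b' - a') with hP
  have hP0 : 0 < P := Nat.mul_pos (by omega) (by omega)
  have e1 := GPat.iter_period _ z a b hab h n (le_max_left _ _) (b' - a')
  have e2 := GPat.iter_period _ (u • z) a' b' hab' h' n (le_max_right _ _) (b - a)
  rw [Nat.mul_comm (b' - a') (b - a)] at e2
  rw [← hP] at e1 e2
  rw [RDF.iter_smul, RDF.iter_smul, ← e1] at e2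
  have hne := RDF.iter_ne_zero d (by omega) F G hF hG hR n hz
  have e3 : u ^ d ^ n = u ^ d ^ (n + P) := by
    by_contra hc
    have : (u ^ d ^ n - u ^ d ^ (n + P)) • (lift d F G)^[n] z = 0 := by
      rw [sub_smul, e2, sub_self]
    exact (smul_ne_zero (sub_ne_zero.mpr hc) hne) this
  have hlt : d ^ n < d ^ (n + P) := Nat.pow_lt_pow_right (by omega) (by omega)
  have e4 : u ^ (d ^ (n + P) - d ^ n) = 1 := by
    have : u ^ d ^ n * u ^ (d ^ (n + P) - d ^ n) = u ^ d ^ n * 1 := by
      rw [← pow_add, Nat.add_sub_cancel' hlt.le, mul_one, e3]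
    exact mul_left_cancel₀ (pow_ne_zero _ hu) this
  have e5 : ‖u‖ ^ (d ^ (n + P) - d ^ n) = 1 := by rw [← norm_pow, e4, norm_one]
  exact (pow_eq_one_iff_of_nonneg (norm_nonneg u) (by omega)).mp e5

theorem PreV.map {E E' : Type} [Field E] [Field E'] {d : ℕ} {F G : E[X]} {z : E × E}
    (h : PreV d F G z) (φ : E →+* E') : PreV d (F.map φ) (G.map φ) (Prod.map φ φ z) := by
  obtain ⟨hz, a, b, hab, h⟩ := h
  refine ⟨?_, a, b, hab, ?_⟩
  · intro h0
    apply hz
    have h1 : φ z.1 = 0 := congrArg Prod.fst h0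
    have h2 : φ z.2 = 0 := congrArg Prod.snd h0
    ext
    · exact (map_eq_zero φ).mp h1
    · exact (map_eq_zero φ).mp h2
  · rw [← RDF.iter_map, ← RDF.iter_map, h]

section GPat

variable {K : Type} [Field K] [NumberField K]

/-- The conjugates of a point of degree at most `N` form at most `N` points. -/
theorem pattern (L : Type) [Field L] [NumberField L] [Algebra K L] (Om : Type) [NormedField Om]
    [IsAlgClosed Om] [Algebra K Om] (N : ℕ) (hN : 1 ≤ N) (d : ℕ) (hd : 2 ≤ d) (F G : (𝓞 K)[X])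
    (hF : F.natDegree ≤ d) (hG : G.natDegree ≤ d) (hR : resultant F G d d ≠ 0)
    (p : L × L) (hp : PreV d (F.map (algebraMap (𝓞 K) L)) (G.map (algebraMap (𝓞 K) L)) p)
    (hpN : PDegLe K N p) : ∃ s : Fin N → (L →ₐ[K] Om), ∀ φ : L →ₐ[K] Om, ∃ a : Fin N,
      ∃ u : Om, ‖u‖ = 1 ∧ Prod.map φ φ p = u • Prod.map (s a) (s a) p := by
  have _ := hN
  obtain ⟨c, hc, E, hE, h1, h2⟩ := hpN
  have hsurj : Function.Surjective fun φ : L →ₐ[K] Om ↦ φ.domRestrict E :=
    IsAlgClosed.surjective_domRestrict_of_isAlgebraic (K := K) (L := E) (M := Om) (E := L)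
  have hcard : Nat.card (E →ₐ[K] Om) ≤ N := (card_algHom_le_finrank K E Om).trans hE
  have : Fintype (E →ₐ[K] Om) := Fintype.ofFinite _
  have : Nonempty (E →ₐ[K] Om) := ⟨(IsAlgClosed.lift : E →ₐ[K] Om)⟩
  obtain ⟨g⟩ : Nonempty ((E →ₐ[K] Om) ↪ Fin N) := by
    apply Function.Embedding.nonempty_of_card_le
    rw [Fintype.card_fin, ← Nat.card_eq_fintype_card]
    exact hcard
  have hf : Function.Surjective (Function.invFun g) := Function.invFun_surjective g.injective
  choose s hs using fun a : Fin N => hsurj (Function.invFun g a)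
  refine ⟨s, fun φ => ?_⟩
  obtain ⟨a, ha⟩ := hf (φ.domRestrict E)
  refine ⟨a, s a c / φ c, ?_⟩
  have hφc : φ c ≠ 0 := (map_ne_zero φ).mpr hc
  have hres : ∀ x ∈ E, φ x = s a x := by
    intro x hx
    have e1 : φ.domRestrict E ⟨x, hx⟩ = (s a).domRestrict E ⟨x, hx⟩ := by
      rw [← ha]
      exact (DFunLike.congr_fun (hs a) ⟨x, hx⟩).symm
    exact e1
  have hmul : Prod.map φ φ p = (s a c / φ c) • Prod.map (s a) (s a) p := by
    have k1 := hres _ h1
    have k2 := hres _ h2
    rw [Prod.smul_fst, smul_eq_mul, map_mul, map_mul] at k1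
    rw [Prod.smul_snd, smul_eq_mul, map_mul, map_mul] at k2
    ext
    · rw [Prod.map_fst, Prod.smul_fst, Prod.map_fst, smul_eq_mul, div_mul_eq_mul_div, eq_div_iff hφc,
        ← k1, mul_comm]
    · rw [Prod.map_snd, Prod.smul_snd, Prod.map_snd, smul_eq_mul, div_mul_eq_mul_div, eq_div_iff hφc,
        ← k2, mul_comm]
  refine ⟨?_, hmul⟩
  have hcomp : ∀ ψ : L →ₐ[K] Om, (ψ : L →+* Om).comp (algebraMap (𝓞 K) L) =
      (algebraMap K Om).comp (algebraMap (𝓞 K) K) := by
    intro ψ
    ext x
    rw [RingHom.comp_apply, RingHom.comp_apply, IsScalarTower.algebraMap_apply (𝓞 K) K L]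
    exact ψ.commutes _
  have q1 := hp.map ((s a : L →ₐ[K] Om) : L →+* Om)
  have q2 := hp.map (φ : L →+* Om)
  rw [Polynomial.map_map, Polynomial.map_map, hcomp] at q1 q2
  have hinj : Function.Injective ((algebraMap K Om).comp (algebraMap (𝓞 K) K)) :=
    (algebraMap K Om).injective.comp RingOfIntegers.coe_injective
  refine norm_eq_one_of_preV d hd _ _ (natDegree_map_le.trans hF) (natDegree_map_le.trans hG) ?_ _ _
    q1 ?_
  · rw [resultant_map_map]
    exact (map_ne_zero_iff _ hinj).mpr hR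
  · have e : (s a c / φ c) • Prod.map ((s a : L →ₐ[K] Om) : L →+* Om)
        ((s a : L →ₐ[K] Om) : L →+* Om) p = Prod.map (φ : L →+* Om) (φ : L →+* Om) p := hmul.symm
    rw [e]
    exact q2

end GPat

end Pool.Agent.RI
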