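import Pool.Agent.PQ.Ext
import Pool.Agent.PQ.Glob

set_option autoImplicit false

/-!
# The energies of the conjugates, norms, and the product formula
-/

namespace Pool.Agent.RI

open Polynomial NumberField IsDedekindDomain Pool.Agent.GPoly

section GSum

variable {K : Type} [Field K] [NumberField K]

theorem local_sumD (E L : Type) [NormedField E] [IsAlgClosed E] [Algebra K E] [Field L]
    [Algebra K L] [FiniteDimensional K L] {T : ℕ} (x : Fin T → Fin T → L)
    (hx : ∀ i j, i ≠ j → x i j ≠ 0) (U : ℝ)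
    (h : ∀ φ : L →ₐ[K] E, ∑ i, ∑ j ∈ Finset.univ.erase i, Real.log ‖φ (x i j)‖ ≤ U) :
    ∑ i, ∑ j ∈ Finset.univ.erase i, Real.log ‖algebraMap K E (Algebra.norm K (x i j))‖ ≤
      Module.finrank K L * U := by
  have h1 : ∀ i, ∀ j ∈ Finset.univ.erase i,
      Real.log ‖algebraMap K E (Algebra.norm K (x i j))‖ =
      ∑ φ : L →ₐ[K] E, Real.log ‖φ (x i j)‖ := by
    intro i j hj
    have hij : i ≠ j := fun h => (Finset.mem_erase.1 hj).1 h.symm
    rw [Algebra.norm_eq_prod_embeddings K E, norm_prod, Real.log_prod]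
    intro φ _
    rw [norm_ne_zero_iff, map_ne_zero_iff φ φ.injective]
    exact hx i j hij
  calc ∑ i, ∑ j ∈ Finset.univ.erase i, Real.log ‖algebraMap K E (Algebra.norm K (x i j))‖
      = ∑ i, ∑ j ∈ Finset.univ.erase i, ∑ φ : L →ₐ[K] E, Real.log ‖φ (x i j)‖ :=
        Finset.sum_congr rfl fun i _ => Finset.sum_congr rfl fun j hj => h1 i j hj
    _ = ∑ φ : L →ₐ[K] E, ∑ i, ∑ j ∈ Finset.univ.erase i, Real.log ‖φ (x i j)‖ := by
        symm
        rw [Finset.sum_comm]
        exact Finset.sum_congr rfl fun i _ => Finset.sum_comm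
    _ ≤ ∑ _φ : L →ₐ[K] E, U := Finset.sum_le_sum fun φ _ => h φ
    _ = Module.finrank K L * U := by
        rw [Finset.sum_const, Finset.card_univ, PQ.card_emb, nsmul_eq_mul]

/-- The product formula for the norms. -/
theorem globD (L : Type) [Field L] [Algebra K L] [FiniteDimensional K L] {T : ℕ}
    (x : Fin T → Fin T → L) (hx : ∀ i j, i ≠ j → x i j ≠ 0)
    (P : Finset (HeightOneSpectrum (𝓞 K)))
    (u : HeightOneSpectrum (𝓞 K) → ℝ) (w : (K →+* ℂ) → ℝ)
    (hu : ∀ v, ∑ i, ∑ j ∈ Finset.univ.erase i, Real.log (av v (Algebra.norm K (x i j))) ≤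
      Module.finrank K L * u v)
    (h0 : ∀ v, v ∉ P → u v ≤ 0)
    (hw : ∀ σ : K →+* ℂ,
      ∑ i, ∑ j ∈ Finset.univ.erase i, Real.log ‖σ (Algebra.norm K (x i j))‖ ≤
      Module.finrank K L * w σ) :
    0 ≤ ∑ v ∈ P, u v + ∑ σ, w σ := by
  classical
  have hn : (0 : ℝ) < Module.finrank K L := by exact_mod_cast Module.finrank_pos
  have hsupp : ∀ i j, ∃ Q : Finset (HeightOneSpectrum (𝓞 K)),
      ∀ v, i ≠ j → av v (Algebra.norm K (x i j)) ≠ 1 → v ∈ Q := by
    intro i j
    by_cases hij : i = j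
    · exact ⟨∅, fun v h => absurd hij h⟩
    · have h1 : Algebra.norm K (x i j) ≠ 0 := Algebra.norm_ne_zero_iff.2 (hx i j hij)
      exact ⟨(av_support_finite _ h1).toFinset, fun v _ hv => by simpa using hv⟩
  choose Q hQ using hsupp
  set S : Finset (HeightOneSpectrum (𝓞 K)) :=
    P ∪ Finset.univ.biUnion (fun i => Finset.univ.biUnion fun j => Q i j) with hS
  have hpf : ∀ i, ∀ j ∈ Finset.univ.erase i,
      ∑ v ∈ S, Real.log (av v (Algebra.norm K (x i j))) +
      ∑ σ : K →+* ℂ, Real.log ‖σ (Algebra.norm K (x i j))‖ = 0 := by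
    intro i j hj
    have hij : i ≠ j := fun h => (Finset.mem_erase.1 hj).1 h.symm
    refine product_formula _ (Algebra.norm_ne_zero_iff.2 (hx i j hij)) S fun v hv => ?_
    rw [hS, Finset.mem_union]
    right
    exact Finset.mem_biUnion.2 ⟨i, Finset.mem_univ _,
      Finset.mem_biUnion.2 ⟨j, Finset.mem_univ _, hQ i j v hij hv⟩⟩
  have hsum : ∑ v ∈ S, ∑ i, ∑ j ∈ Finset.univ.erase i,
        Real.log (av v (Algebra.norm K (x i j))) +
      ∑ σ : K →+* ℂ, ∑ i, ∑ j ∈ Finset.univ.erase i,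
        Real.log ‖σ (Algebra.norm K (x i j))‖ = 0 := by
    have h1 : ∑ v ∈ S, ∑ i, ∑ j ∈ Finset.univ.erase i,
          Real.log (av v (Algebra.norm K (x i j))) =
        ∑ i, ∑ j ∈ Finset.univ.erase i, ∑ v ∈ S, Real.log (av v (Algebra.norm K (x i j))) := by
      rw [Finset.sum_comm]
      exact Finset.sum_congr rfl fun i _ => Finset.sum_comm
    have h2 : ∑ σ : K →+* ℂ, ∑ i, ∑ j ∈ Finset.univ.erase i,
          Real.log ‖σ (Algebra.norm K (x i j))‖ =
        ∑ i, ∑ j ∈ Finset.univ.erase i, ∑ σ : K →+* ℂ,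
          Real.log ‖σ (Algebra.norm K (x i j))‖ := by
      rw [Finset.sum_comm]
      exact Finset.sum_congr rfl fun i _ => Finset.sum_comm
    rw [h1, h2, ← Finset.sum_add_distrib]
    refine Finset.sum_eq_zero fun i _ => ?_
    rw [← Finset.sum_add_distrib]
    exact Finset.sum_eq_zero fun j hj => hpf i j hj
  have h3 : ∑ v ∈ S, ∑ i, ∑ j ∈ Finset.univ.erase i,
        Real.log (av v (Algebra.norm K (x i j))) ≤
      Module.finrank K L * ∑ v ∈ P, u v := by
    calc _ ≤ ∑ v ∈ S, Module.finrank K L * u v := Finset.sum_le_sum fun v _ => hu v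
      _ = Module.finrank K L * ∑ v ∈ S, u v := by rw [Finset.mul_sum]
      _ ≤ _ := by
          refine mul_le_mul_of_nonneg_left ?_ hn.le
          rw [← Finset.sum_sdiff (Finset.subset_union_left : P ⊆ S)]
          have h4 : ∑ v ∈ S \ P, u v ≤ 0 :=
            Finset.sum_nonpos fun v hv => h0 v (Finset.mem_sdiff.1 hv).2
          linarith
  have h5 : ∑ σ : K →+* ℂ, ∑ i, ∑ j ∈ Finset.univ.erase i,
        Real.log ‖σ (Algebra.norm K (x i j))‖ ≤
      Module.finrank K L * ∑ σ, w σ := by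
    rw [Finset.mul_sum]
    exact Finset.sum_le_sum fun σ _ => hw σ
  have h6 : 0 ≤ (Module.finrank K L : ℝ) * (∑ v ∈ P, u v + ∑ σ, w σ) := by
    rw [mul_add]
    linarith
  exact nonneg_of_mul_nonneg_right h6 hn

/-- The product formula for the resultant. -/
theorem sum_res (r : 𝓞 K) (hr : r ≠ 0) (P : Finset (HeightOneSpectrum (𝓞 K)))
    (hP : ∀ v : HeightOneSpectrum (𝓞 K), r ∈ v.asIdeal → v ∈ P) :
    ∑ v ∈ P, -Real.log (av v (algebraMap (𝓞 K) K r)) +
      ∑ σ : K →+* ℂ, -Real.log ‖σ (algebraMap (𝓞 K) K r)‖ = 0 := by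
  have h1 : algebraMap (𝓞 K) K r ≠ 0 := by
    rw [Ne, FaithfulSMul.algebraMap_eq_zero_iff]
    exact hr
  have h2 := product_formula (algebraMap (𝓞 K) K r) h1 P fun v hv => hP v ?_
  · rw [Finset.sum_neg_distrib, Finset.sum_neg_distrib]
    linarith
  · by_contra h
    exact hv ((av_int_eq_one v r).2 h)

end GSum

end Pool.Agent.RI
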