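import Mathlib
import Pool.Agent.RI.SLam
import Pool.Agent.RI.SGenE
import Pool.Agent.RI.GSum
import Pool.Agent.RI.GPat
import Pool.Agent.PQ.Ext

set_option autoImplicit false

/-!
# The minimal resultant at a prime
-/

namespace Pool.Agent.RI

open Polynomial NumberField IsDedekindDomain Pool.Agent.GPoly
open Pool.Agent.RDF (lift wedge form nrm UU mat Above DefectiveN coeffs)

variable {K : Type} [Field K] [NumberField K]

namespace SGenV

omit [NumberField K] in
theorem hom_comp (E : Type) [Field E] [Algebra K E] :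
    algebraMap (𝓞 K) E = (algebraMap K E).comp (algebraMap (𝓞 K) K) :=
  IsScalarTower.algebraMap_eq _ _ _

theorem norm_int (E : Type) [NormedField E] [Algebra K E] (v : HeightOneSpectrum (𝓞 K))
    (h : ∀ x : K, ‖algebraMap K E x‖ = av v x) (a : 𝓞 K) :
    ‖algebraMap (𝓞 K) E a‖ = av v (algebraMap (𝓞 K) K a) := by
  rw [hom_comp, RingHom.comp_apply, h]

theorem norm_res (d : ℕ) (F G : (𝓞 K)[X]) (v : HeightOneSpectrum (𝓞 K)) (E : Type)
    [NormedField E] [Algebra K E] (h : ∀ x : K, ‖algebraMap K E x‖ = av v x) :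
    ‖resultant (F.map (algebraMap (𝓞 K) E)) (G.map (algebraMap (𝓞 K) E)) d d‖ =
      av v (algebraMap (𝓞 K) K (resultant F G d d)) := by
  rw [resultant_map_map, norm_int E v h]

theorem mem_self (d : ℕ) (F G : (𝓞 K)[X]) (hF : F.natDegree ≤ d) (hG : G.natDegree ≤ d)
    (v : HeightOneSpectrum (𝓞 K)) (E : Type) [NormedField E] [Algebra K E]
    (h : ∀ x : K, ‖algebraMap K E x‖ = av v x) :
    -Real.log (av v (algebraMap (𝓞 K) K (resultant F G d d))) ∈
      resSet d (F.map (algebraMap (𝓞 K) E)) (G.map (algebraMap (𝓞 K) E)) := by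
  rw [← norm_res d F G v E h]
  refine resSet_self d _ _ (natDegree_map_le.trans hF) (natDegree_map_le.trans hG)
    (fun i => ?_) (fun i => ?_)
  · rw [coeff_map, norm_int E v h]
    exact av_int_le_one v _
  · rw [coeff_map, norm_int E v h]
    exact av_int_le_one v _

end SGenV

open SGenV

theorem lamV_nonneg (d : ℕ) (F G : (𝓞 K)[X]) (v : HeightOneSpectrum (𝓞 K)) :
    0 ≤ lamV d F G v := by
  refine Real.sInf_nonneg ?_
  rintro r ⟨E, i1, i2, i3, i4, h, hr⟩
  exact resSet_nonneg d _ _ r hr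

/-- The minimal resultant is at most the resultant of any conjugate over any `E`. -/
theorem lamV_le_of_mem (d : ℕ) (F G : (𝓞 K)[X]) (v : HeightOneSpectrum (𝓞 K)) (E : Type)
    [NormedField E] [IsAlgClosed E] [IsUltrametricDist E] [Algebra K E]
    (h : ∀ x : K, ‖algebraMap K E x‖ = av v x) (r : ℝ)
    (hr : r ∈ resSet d (F.map (algebraMap (𝓞 K) E)) (G.map (algebraMap (𝓞 K) E))) :
    lamV d F G v ≤ r := by
  refine csInf_le ⟨0, ?_⟩ ⟨E, inferInstance, inferInstance, inferInstance, inferInstance, h, hr⟩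
  rintro s ⟨E, i1, i2, i3, i4, h, hs⟩
  exact resSet_nonneg d _ _ s hs

theorem lamV_le (d : ℕ) (F G : (𝓞 K)[X]) (hF : F.natDegree ≤ d) (hG : G.natDegree ≤ d)
    (v : HeightOneSpectrum (𝓞 K)) :
    lamV d F G v ≤ -Real.log (av v (algebraMap (𝓞 K) K (resultant F G d d))) := by
  obtain ⟨E, i1, i2, i3, i4, h⟩ := PQ.exists_Om v
  exact lamV_le_of_mem d F G v E h _ (mem_self d F G hF hG v E h)

/-- A lower bound for all conjugates is a lower bound of the minimal resultant. -/
theorem le_lamV (d : ℕ) (F G : (𝓞 K)[X]) (hF : F.natDegree ≤ d) (hG : G.natDegree ≤ d)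
    (v : HeightOneSpectrum (𝓞 K)) (c : ℝ)
    (h : ∀ (E : Type) [NormedField E] [IsAlgClosed E] [IsUltrametricDist E] [Algebra K E],
      (∀ x : K, ‖algebraMap K E x‖ = av v x) →
      ∀ r ∈ resSet d (F.map (algebraMap (𝓞 K) E)) (G.map (algebraMap (𝓞 K) E)), c ≤ r) :
    c ≤ lamV d F G v := by
  obtain ⟨E, i1, i2, i3, i4, hE⟩ := PQ.exists_Om v
  refine le_csInf ⟨_, E, i1, i2, i3, i4, hE, mem_self d F G hF hG v E hE⟩ ?_
  rintro s ⟨E, i1, i2, i3, i4, hE, hs⟩
  exact h E hE s hs

/-- The generic bound, at any finite prime. -/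
theorem gen_sum (d : ℕ) (hd : 2 ≤ d) (F G : (𝓞 K)[X]) (hF : F.natDegree ≤ d)
    (hG : G.natDegree ≤ d) (hR : resultant F G d d ≠ 0) (v : HeightOneSpectrum (𝓞 K))
    (L : Type) [Field L] [NumberField L] [Algebra K L] (m : ℕ) (z : Fin (d ^ m) → L × L)
    (hz : ∀ i, PreV d (F.map (algebraMap (𝓞 K) L)) (G.map (algebraMap (𝓞 K) L)) (z i))
    (hw : ∀ i j, i ≠ j → wedge (z i) (z j) ≠ 0) :
    ∑ i, ∑ j ∈ Finset.univ.erase i, Real.log (av v (Algebra.norm K (wedge (z i) (z j)))) ≤
      Module.finrank K L * (((d : ℝ) ^ m * ((d : ℝ) ^ m - 1)) *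
        (-Real.log (av v (algebraMap (𝓞 K) K (resultant F G d d))) / (d * (d - 1))) +
      2 * m * (d : ℝ) ^ m * lamV d F G v) := by
  set S : ℝ := ∑ i, ∑ j ∈ Finset.univ.erase i,
    Real.log (av v (Algebra.norm K (wedge (z i) (z j)))) with hS
  set A : ℝ := ((d : ℝ) ^ m * ((d : ℝ) ^ m - 1)) *
        (-Real.log (av v (algebraMap (𝓞 K) K (resultant F G d d))) / (d * (d - 1))) with hA
  have hfd : FiniteDimensional K L := Module.Finite.of_restrictScalars_finite ℚ K L
  have hn : (0 : ℝ) < Module.finrank K L := by exact_mod_cast Module.finrank_pos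
  have hd0 : (0 : ℝ) < (d : ℝ) ^ m := pow_pos (by exact_mod_cast (by omega : 0 < d)) _
  have key : ∀ (E : Type) [NormedField E] [IsAlgClosed E] [IsUltrametricDist E] [Algebra K E],
      (∀ x : K, ‖algebraMap K E x‖ = av v x) →
      ∀ r ∈ resSet d (F.map (algebraMap (𝓞 K) E)) (G.map (algebraMap (𝓞 K) E)),
      S ≤ Module.finrank K L * (A + 2 * m * (d : ℝ) ^ m * r) := by
    intro E _ _ _ _ hE r hr
    have hcomp : ∀ φ : L →ₐ[K] E, (φ : L →+* E).comp (algebraMap (𝓞 K) L) =
        algebraMap (𝓞 K) E := by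
      intro φ
      rw [hom_comp L, hom_comp E, ← RingHom.comp_assoc, AlgHom.comp_algebraMap]
    have hinj : Function.Injective (algebraMap (𝓞 K) E) := by
      rw [hom_comp]
      exact (algebraMap K E).injective.comp RingOfIntegers.coe_injective
    have h1 := local_sumD (K := K) E L (fun i j => wedge (z i) (z j)) hw
      (A + 2 * m * (d : ℝ) ^ m * r) ?_
    · simpa only [hE] using h1
    · intro φ
      have h2 : ∀ i, PreV d (F.map (algebraMap (𝓞 K) E)) (G.map (algebraMap (𝓞 K) E))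
          (Prod.map (φ : L →+* E) (φ : L →+* E) (z i)) := by
        intro i
        have h3 := (hz i).map (φ : L →+* E)
        rwa [Polynomial.map_map, Polynomial.map_map, hcomp φ] at h3
      have h4 : ∀ i j, wedge (Prod.map (φ : L →+* E) (φ : L →+* E) (z i))
          (Prod.map (φ : L →+* E) (φ : L →+* E) (z j)) = φ (wedge (z i) (z j)) := by
        intro i j
        simp [wedge]
      have h5 := gen_E d hd (F.map (algebraMap (𝓞 K) E)) (G.map (algebraMap (𝓞 K) E))
        (natDegree_map_le.trans hF) (natDegree_map_le.trans hG) ?_ r hr m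
        (fun i => Prod.map (φ : L →+* E) (φ : L →+* E) (z i)) h2 ?_
      · simp only [h4] at h5
        rw [norm_res d F G v E hE] at h5
        exact h5
      · rw [resultant_map_map]
        exact (map_ne_zero_iff _ hinj).mpr hR
      · intro i j hij
        rw [h4]
        exact (map_ne_zero_iff φ φ.injective).mpr (hw i j hij)
  rcases Nat.eq_zero_or_pos m with hm | hm
  · obtain ⟨E, i1, i2, i3, i4, hE⟩ := PQ.exists_Om v
    have h1 := key E hE _ (mem_self d F G hF hG v E hE)
    have hm0 : (m : ℝ) = 0 := by rw [hm]; simp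
    simpa only [hm0, mul_zero, zero_mul] using h1
  · have hm0 : (0 : ℝ) < m := by exact_mod_cast hm
    have hc : 0 < 2 * (m : ℝ) * (d : ℝ) ^ m := by positivity
    have h1 : (S / Module.finrank K L - A) / (2 * m * (d : ℝ) ^ m) ≤ lamV d F G v := by
      refine le_lamV d F G hF hG v _ ?_
      intro E _ _ _ _ hE r hr
      rw [div_le_iff₀ hc, sub_le_iff_le_add, div_le_iff₀ hn]
      have h2 := key E hE r hr
      calc S ≤ Module.finrank K L * (A + 2 * m * (d : ℝ) ^ m * r) := h2
        _ = (r * (2 * m * (d : ℝ) ^ m) + A) * Module.finrank K L := by ring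
    rw [div_le_iff₀ hc, sub_le_iff_le_add, div_le_iff₀ hn] at h1
    calc S ≤ (lamV d F G v * (2 * m * (d : ℝ) ^ m) + A) * Module.finrank K L := h1
      _ = Module.finrank K L * (A + 2 * m * (d : ℝ) ^ m * lamV d F G v) := by ring

end Pool.Agent.RI
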