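import Mathlib

set_option autoImplicit false

/-!
# Sequential extraction with densities
-/

namespace Pool.Agent.RI

/-- Sequential extraction of dense subsets. `Good v Y` is a property of the place `v` and the set `Y`
of points; at every single place every set `U'` contains a set `Z` of proportion at least `1 / b q'`
all of whose subsets of proportion at least `1 / q'` are good. -/
theorem chainDen (b : ℕ → ℕ) (n q : ℕ) : ∃ B : ℕ, 1 ≤ B ∧ ∀ {ι α : Type} [DecidableEq α]
    (V : Finset ι) (_ : V.card ≤ n) (Good : ι → Finset α → Prop) (U : Finset α)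
    (_ : ∀ v ∈ V, ∀ q' : ℕ, ∀ U' ⊆ U, ∃ Z ⊆ U', U'.card ≤ b q' * Z.card ∧
      ∀ Y ⊆ Z, Z.card ≤ q' * Y.card → Good v Y),
    ∃ Z ⊆ U, U.card ≤ B * Z.card ∧ ∀ v ∈ V, ∀ Y ⊆ Z, Z.card ≤ q * Y.card → Good v Y := by
  classical
  induction n with
  | zero =>
    refine ⟨1, le_rfl, ?_⟩
    intro ι α _ V hV Good U _
    refine ⟨U, subset_rfl, by omega, fun v hv => ?_⟩
    rw [Nat.le_zero, Finset.card_eq_zero] at hV
    rw [hV] at hv
    exact absurd hv (Finset.notMem_empty v)
  | succ n ih =>
    obtain ⟨B, hB1, hB⟩ := ih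
    refine ⟨max 1 (b (q * B)) * B, ?_, ?_⟩
    · exact Nat.one_le_iff_ne_zero.2 (Nat.mul_ne_zero (by positivity) (by omega))
    intro ι α _ V hV Good U hex
    rcases Nat.lt_or_ge n V.card with h | h
    · obtain ⟨v, hv⟩ : V.Nonempty := by
        rw [← Finset.card_pos]
        omega
      obtain ⟨U₁, hU₁, hc₁, hP₁⟩ := hex v hv (q * B) U subset_rfl
      have hcard : (V.erase v).card ≤ n := by
        rw [Finset.card_erase_of_mem hv]
        omega
      obtain ⟨Z, hZ, hc, hP⟩ := hB (V.erase v) hcard Good U₁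
        (fun v' hv' q' U' hU' => hex v' (Finset.mem_of_mem_erase hv') q' U' (hU'.trans hU₁))
      refine ⟨Z, hZ.trans hU₁, ?_, fun v' hv' Y hY hq => ?_⟩
      · calc U.card ≤ b (q * B) * U₁.card := hc₁
          _ ≤ max 1 (b (q * B)) * (B * Z.card) := Nat.mul_le_mul (le_max_right _ _) hc
          _ = max 1 (b (q * B)) * B * Z.card := by ring
      · by_cases hvv : v' = v
        · rw [hvv]
          refine hP₁ Y (hY.trans hZ) ?_
          calc U₁.card ≤ B * Z.card := hc
            _ ≤ B * (q * Y.card) := Nat.mul_le_mul le_rfl hq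
            _ = q * B * Y.card := by ring
        · exact hP v' (Finset.mem_erase.2 ⟨hvv, hv'⟩) Y hY hq
    · obtain ⟨Z, hZ, hc, hP⟩ := hB V h Good U hex
      refine ⟨Z, hZ, hc.trans ?_, hP⟩
      exact Nat.mul_le_mul (Nat.le_mul_of_pos_left B (by positivity)) le_rfl

end Pool.Agent.RI
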