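import Mathlib

set_option autoImplicit false

/-!
# Sequential extraction
-/

namespace Pool.Agent.RI

/-- Sequential extraction. `P v U` is a property of the place `v` and the set `U` of points. -/
theorem extract (f : ℕ → ℕ) (n T : ℕ) : ∃ M : ℕ, ∀ {ι α : Type} [DecidableEq α]
    (V : Finset ι) (_ : V.card ≤ n) (P : ι → Finset α → Prop) (U : Finset α)
    (_ : ∀ v U' U'', U'' ⊆ U' → P v U' → P v U'')
    (_ : ∀ v ∈ V, ∀ T' : ℕ, ∀ U' ⊆ U, f T' ≤ U'.card → ∃ U'' ⊆ U', U''.card = T' ∧ P v U''),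
    M ≤ U.card → ∃ U' ⊆ U, U'.card = T ∧ ∀ v ∈ V, P v U' := by
  classical
  induction n with
  | zero =>
    refine ⟨T, ?_⟩
    intro ι α _ V hV P U hmono hex hU
    obtain ⟨U', hU', hc⟩ := Finset.exists_subset_card_eq hU
    refine ⟨U', hU', hc, fun v hv => ?_⟩
    rw [Nat.le_zero, Finset.card_eq_zero] at hV
    rw [hV] at hv
    exact absurd hv (Finset.notMem_empty v)
  | succ n ih =>
    obtain ⟨M, hM⟩ := ih
    refine ⟨max (f M) M, ?_⟩
    intro ι α _ V hV P U hmono hex hU
    rcases Nat.lt_or_ge n V.card with h | h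
    · obtain ⟨v, hv⟩ : V.Nonempty := by
        rw [← Finset.card_pos]
        omega
      obtain ⟨U₁, hU₁, hc₁, hP₁⟩ := hex v hv M U subset_rfl ((le_max_left _ _).trans hU)
      have hcard : (V.erase v).card ≤ n := by
        rw [Finset.card_erase_of_mem hv]
        omega
      obtain ⟨U', hU', hc', hP'⟩ := hM (V.erase v) hcard P U₁ hmono
        (fun v' hv' T' U' hU' hf => hex v' (Finset.mem_of_mem_erase hv') T' U'
          (hU'.trans hU₁) hf) hc₁.ge
      refine ⟨U', hU'.trans hU₁, hc', fun v' hv' => ?_⟩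
      by_cases hvv : v' = v
      · rw [hvv]
        exact hmono v U₁ U' hU' hP₁
      · exact hP' v' (Finset.mem_erase.2 ⟨hvv, hv'⟩)
    · exact hM V h P U hmono hex ((le_max_right _ _).trans hU)

end Pool.Agent.RI
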