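import Mathlib
import Pool.Agent.PQ.Ext
import Pool.Agent.RDF.NOver

set_option autoImplicit false

/-!
# The place of `L` of an embedding into `Ω_v`
-/

namespace Pool.Agent.RI

open Polynomial NumberField IsDedekindDomain Pool.Agent.GPoly
open Pool.Agent.RDF (lift wedge form nrm UU mat Above DefectiveN coeffs)

namespace GExw

/-- Algebraic integers have norm at most `1` in an ultrametric field. -/
theorem norm_le_one_of_isIntegral {Om : Type*} [NormedField Om] [IsUltrametricDist Om] {x : Om}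
    (hx : IsIntegral ℤ x) : ‖x‖ ≤ 1 := by
  by_contra hcon
  rw [not_le] at hcon
  obtain ⟨P, hP, hPx⟩ := hx
  rw [← aeval_def] at hPx
  have h0 : P.natDegree ≠ 0 := by
    intro h
    rw [hP.natDegree_eq_zero.1 h] at hPx
    simp at hPx
  rw [aeval_eq_sum_range, Finset.sum_range_succ, hP.coeff_natDegree, one_smul] at hPx
  have h1 : ‖∑ i ∈ Finset.range P.natDegree, P.coeff i • x ^ i‖ ≤ ‖x‖ ^ (P.natDegree - 1) := by
    refine IsUltrametricDist.norm_sum_le_of_forall_le_of_nonneg (by positivity) fun i hi => ?_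
    have hi' := Finset.mem_range.1 hi
    rw [zsmul_eq_mul, norm_mul, norm_pow]
    calc ‖((P.coeff i : ℤ) : Om)‖ * ‖x‖ ^ i ≤ 1 * ‖x‖ ^ i :=
          mul_le_mul_of_nonneg_right (IsUltrametricDist.norm_intCast_le_one Om _) (by positivity)
      _ = ‖x‖ ^ i := one_mul _
      _ ≤ ‖x‖ ^ (P.natDegree - 1) := pow_le_pow_right₀ hcon.le (by omega)
  have h2 : ‖x‖ ^ P.natDegree ≤ ‖x‖ ^ (P.natDegree - 1) := by
    rw [← norm_pow, ← norm_neg, ← eq_neg_of_add_eq_zero_left hPx]
    exact h1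
  have h3 : ‖x‖ ^ (P.natDegree - 1) < ‖x‖ ^ P.natDegree :=
    pow_lt_pow_right₀ hcon (by omega)
  linarith

end GExw

section GExw

variable {K L : Type} [Field K] [NumberField K] [Field L] [NumberField L] [Algebra K L]

/-- An embedding into `Om` induces a place of `L` above `v`. -/
theorem exists_w (v : HeightOneSpectrum (𝓞 K)) (Om : Type) [NormedField Om]
    [IsUltrametricDist Om] [Algebra K Om] (h : ∀ x : K, ‖algebraMap K Om x‖ = av v x)
    (φ : L →ₐ[K] Om) : ∃ w : HeightOneSpectrum (𝓞 L), Above v w ∧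
      (∀ a : 𝓞 L, ‖φ (algebraMap (𝓞 L) L a)‖ ≤ 1) ∧
      (∀ a : 𝓞 L, a ∉ w.asIdeal → ‖φ (algebraMap (𝓞 L) L a)‖ = 1) ∧
      ∃ θ : ℝ, 0 < θ ∧ ∀ x : L, Real.log ‖φ x‖ = θ * Real.log (av w x) := by
  have hint : ∀ a : 𝓞 L, ‖φ (algebraMap (𝓞 L) L a)‖ ≤ 1 := by
    intro a
    apply GExw.norm_le_one_of_isIntegral
    have h1 : IsIntegral ℤ (algebraMap (𝓞 L) L a) := RingOfIntegers.isIntegral_coe a
    exact h1.map (φ : L →+* Om).toIntAlgHom
  -- the prime ideal
  let I : Ideal (𝓞 L) :=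
    { carrier := {a | ‖φ (algebraMap (𝓞 L) L a)‖ < 1}
      add_mem' := by
        intro a b ha hb
        simp only [Set.mem_ofPred_eq, map_add] at *
        exact (IsUltrametricDist.norm_add_le_max _ _).trans_lt (max_lt ha hb)
      zero_mem' := by simp
      smul_mem' := by
        intro a b hb
        simp only [Set.mem_ofPred_eq, smul_eq_mul, map_mul, norm_mul] at *
        exact mul_lt_one_of_nonneg_of_lt_one_right (hint a) (norm_nonneg _) hb }
  have hI : ∀ a : 𝓞 L, a ∈ I ↔ ‖φ (algebraMap (𝓞 L) L a)‖ < 1 := fun a => Iff.rfl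
  have hprime : I.IsPrime := by
    refine ⟨fun h0 => ?_, fun {a b} hab => ?_⟩
    · have h1 : (1 : 𝓞 L) ∈ I := h0 ▸ Submodule.mem_top
      rw [hI] at h1
      simp at h1
    · by_contra hcon
      rw [not_or, hI, hI, not_lt, not_lt] at hcon
      rw [hI, map_mul, map_mul, norm_mul, le_antisymm (hint a) hcon.1,
        le_antisymm (hint b) hcon.2] at hab
      simp at hab
  have habove : ∀ a ∈ v.asIdeal, algebraMap (𝓞 K) (𝓞 L) a ∈ I := by
    intro a ha
    rw [hI, ← RDF.algebraMap_int, RDF.algebraMap_int', AlgHom.commutes, h]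
    exact (av_int_lt_one v a).2 ha
  have hbot : I ≠ ⊥ := by
    obtain ⟨a, ha, ha0⟩ := Submodule.exists_mem_ne_zero_of_ne_bot v.ne_bot
    intro h0
    have h1 := habove a ha
    rw [h0, Ideal.mem_bot] at h1
    have hinj : Function.Injective (algebraMap (𝓞 K) (𝓞 L)) :=
      FaithfulSMul.algebraMap_injective _ _
    exact ha0 ((map_eq_zero_iff _ hinj).1 h1)
  have hone : ∀ a : 𝓞 L, a ∉ I → ‖φ (algebraMap (𝓞 L) L a)‖ = 1 := by
    intro a ha
    rw [hI, not_lt] at ha
    exact le_antisymm (hint a) ha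
  refine ⟨⟨I, hprime, hbot⟩, habove, hint, hone, ?_⟩
  set w : HeightOneSpectrum (𝓞 L) := ⟨I, hprime, hbot⟩ with hw
  -- the absolute value of the embedding
  let ab : AbsoluteValue L ℝ :=
    { toFun := fun x => ‖φ x‖
      map_mul' := fun x y => by rw [map_mul, norm_mul]
      nonneg' := fun x => norm_nonneg _
      eq_zero' := fun x => by rw [norm_eq_zero, map_eq_zero_iff φ φ.injective]
      add_le' := fun x y => by rw [map_add]; exact norm_add_le _ _ }
  have hab : ∀ x, ab x = ‖φ x‖ := fun x => rfl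
  have hnt : (av w).IsNontrivial := by
    obtain ⟨a, ha, ha0⟩ := Submodule.exists_mem_ne_zero_of_ne_bot w.ne_bot
    refine ⟨algebraMap (𝓞 L) L a, ?_, ((av_int_lt_one w a).2 ha).ne⟩
    exact (map_ne_zero_iff _ RingOfIntegers.coe_injective).2 ha0
  have heq : (av w).IsEquiv ab := by
    refine AbsoluteValue.isEquiv_of_lt_one_imp hnt fun x hx => ?_
    have h1 : w.valuation L x ≤ 1 := by
      have hx' := hx.le
      rw [av_eq] at hx'
      exact (WithZeroMulInt.toNNReal_le_one_iff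
        (NumberField.HeightOneSpectrum.one_lt_absNorm_nnreal w)).1 (by exact_mod_cast hx')
    obtain ⟨n, b, hnb⟩ := w.exists_primeCompl_mul_eq_of_integer x h1
    have hb : (b : 𝓞 L) ∉ w.asIdeal := b.2
    have h2 : av w (algebraMap (𝓞 L) L (b : 𝓞 L)) = 1 := (av_int_eq_one w _).2 hb
    have h3 : av w (algebraMap (𝓞 L) L n) < 1 := by
      rw [← hnb, map_mul, h2, mul_one]
      exact hx
    have h4 : ab (algebraMap (𝓞 L) L n) < 1 := (av_int_lt_one w n).1 h3
    have h5 : ab (algebraMap (𝓞 L) L (b : 𝓞 L)) = 1 := hone _ hb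
    rw [← hnb, map_mul, h5, mul_one] at h4
    exact h4
  obtain ⟨c, hc, hcw⟩ := AbsoluteValue.isEquiv_iff_exists_rpow_eq.1 heq
  refine ⟨c, hc, fun x => ?_⟩
  rcases eq_or_ne x 0 with rfl | hx
  · simp
  · rw [← hab, ← congrFun hcw x, Real.log_rpow ((av w).pos hx)]

end GExw

end Pool.Agent.RI
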