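import Mathlib
import Pool.Agent.RI.Defs
import Pool.Agent.RI.Conj

set_option autoImplicit false

/-!
# Resultants of binary forms
-/

namespace Pool.Agent.RI

open Polynomial Pool.Agent.RDF

theorem sub_eq {L : Type*} [Field L] (d : ℕ) (F : L[X]) (a b c e : L) :
    sub d F a b c e = ∑ i ∈ Finset.range (d + 1),
      C (F.coeff i) * (C a * X + C b) ^ i * (C c * X + C e) ^ (d - i) := by
  unfold sub form
  exact Finset.sum_congr rfl fun i _ => by rw [coeff_map]

private theorem deg_lin1 {L : Type*} [Field L] (a b : L) : (C a * X + C b : L[X]).natDegree ≤ 1 :=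
  natDegree_linear_le

private theorem deg_pow1 {L : Type*} [Field L] (a b : L) (i : ℕ) :
    ((C a * X + C b : L[X]) ^ i).natDegree ≤ i :=
  (natDegree_pow_le).trans (by
    calc i * (C a * X + C b : L[X]).natDegree ≤ i * 1 := Nat.mul_le_mul_left _ (deg_lin1 a b)
      _ = i := mul_one i)

theorem sub_natDegree {L : Type*} [Field L] (d : ℕ) (F : L[X]) (a b c e : L) :
    (sub d F a b c e).natDegree ≤ d := by
  rw [sub_eq]
  refine natDegree_sum_le_of_forall_le _ _ fun i hi => ?_
  have hi' : i ≤ d := Nat.lt_succ_iff.mp (Finset.mem_range.mp hi)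
  refine natDegree_mul_le.trans ?_
  have h1 : (C (F.coeff i) * (C a * X + C b) ^ i).natDegree ≤ i :=
    (natDegree_C_mul_le _ _).trans (deg_pow1 a b i)
  have h2 := deg_pow1 c e (d - i)
  omega

private theorem coeff_pow1 {L : Type*} [Field L] (a b : L) (i : ℕ) :
    ((C a * X + C b : L[X]) ^ i).coeff i = a ^ i := by
  have h := coeff_pow_of_natDegree_le (m := i) (deg_lin1 a b)
  rw [mul_one] at h
  rw [h]
  congr 1
  simp

theorem form_sub {L : Type*} [Field L] (d : ℕ) (F : L[X]) (a b c e : L) (x : L × L) :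
    form d (sub d F a b c e) x = form d F (ap a b c e x) := by
  obtain ⟨x, y⟩ := x
  by_cases hy : y = 0
  · subst hy
    rw [form_infty, sub_eq, finsetSum_coeff, Finset.sum_mul, form]
    refine Finset.sum_congr rfl fun i hi => ?_
    have hi' : i ≤ d := Nat.lt_succ_iff.mp (Finset.mem_range.mp hi)
    have h1 : (C (F.coeff i) * (C a * X + C b) ^ i * (C c * X + C e) ^ (d - i)).coeff d =
        F.coeff i * a ^ i * c ^ (d - i) := by
      have e1 : (C (F.coeff i) * (C a * X + C b) ^ i * (C c * X + C e) ^ (d - i)).coeff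
          (i + (d - i)) = (C (F.coeff i) * (C a * X + C b) ^ i).coeff i *
            ((C c * X + C e) ^ (d - i)).coeff (d - i) :=
        coeff_mul_add_eq_of_natDegree_le ((natDegree_C_mul_le _ _).trans (deg_pow1 a b i))
          (deg_pow1 c e (d - i))
      rw [Nat.add_sub_cancel' hi'] at e1
      rw [e1, coeff_C_mul, coeff_pow1, coeff_pow1]
    have h2 : x ^ d = x ^ i * x ^ (d - i) := by rw [← pow_add, Nat.add_sub_cancel' hi']
    rw [h1, h2]
    simp only [ap, mul_zero, add_zero, mul_pow]
    ring
  · rw [form_affine d _ (sub_natDegree d F a b c e) x y hy, sub_eq, eval_finsetSum,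
      Finset.mul_sum, form]
    refine Finset.sum_congr rfl fun i hi => ?_
    have hi' : i ≤ d := Nat.lt_succ_iff.mp (Finset.mem_range.mp hi)
    have h2 : y ^ d = y ^ i * y ^ (d - i) := by rw [← pow_add, Nat.add_sub_cancel' hi']
    simp only [eval_mul, eval_pow, eval_add, eval_C, eval_X, ap]
    have h3 : a * x + b * y = y * (a * (x / y) + b) := by field_simp
    have h4 : c * x + e * y = y * (c * (x / y) + e) := by field_simp
    rw [h2, h3, h4, mul_pow, mul_pow]
    ring

theorem form_comb {L : Type*} [Field L] (d : ℕ) (P Q : L[X]) (r s : L) (q : L × L) :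
    form d (C r * P + C s * Q) q = r * form d P q + s * form d Q q := by
  simp only [form, coeff_add, coeff_C_mul, Finset.mul_sum, ← Finset.sum_add_distrib]
  exact Finset.sum_congr rfl fun i _ => by ring

theorem ap_adj {L : Type*} [Field L] (a b c e : L) (x : L × L) :
    ap e (-b) (-c) a (ap a b c e x) = (a * e - b * c) • x := by
  ext <;> simp only [ap, Prod.smul_fst, Prod.smul_snd, smul_eq_mul] <;> ring

/-- `cj` is the conjugate `A Φ A'`, `A'` the adjugate of `A`, so `A Φ A' (A x) = det^d A Φ(x)`. -/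
theorem lift_cj {L : Type*} [Field L] (d : ℕ) (F G : L[X]) (a b c e : L) (x : L × L) :
    lift d (cj1 d F G a b c e) (cj2 d F G a b c e) (ap a b c e x) =
      (a * e - b * c) ^ d • ap a b c e (lift d F G x) := by
  have hF := form_sub d F e (-b) (-c) a (ap a b c e x)
  have hG := form_sub d G e (-b) (-c) a (ap a b c e x)
  rw [ap_adj, form_smul] at hF hG
  ext
  · simp only [lift, cj1, form_comb, hF, hG]
    simp only [ap, Prod.smul_fst, smul_eq_mul]
    ring
  · simp only [lift, cj2, form_comb, hF, hG]
    simp only [ap, Prod.smul_snd, smul_eq_mul]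
    ring

theorem wedge_ap {L : Type*} [Field L] (a b c e : L) (x y : L × L) :
    wedge (ap a b c e x) (ap a b c e y) = (a * e - b * c) * wedge x y := by
  simp only [wedge, ap]
  ring

/-- The resultant of a product of linear forms and a form. -/
theorem res_prod {L : Type*} [Field L] (d : ℕ) (P H : L[X]) (hP : P.natDegree ≤ d)
    (hH : H.natDegree ≤ d) (r : Fin d → L × L)
    (hr : ∀ x : L × L, form d P x = ∏ t, wedge x (r t)) (hinf : Infinite L) :
    ∃ ε : L, (ε = 1 ∨ ε = -1) ∧ resultant P H d d = ε * ∏ t, form d H (r t) := by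
  refine ⟨1, Or.inl rfl, ?_⟩
  rcases Nat.eq_zero_or_pos d with h0 | h0
  · subst h0
    simp [resultant]
  · rw [resultant_eq_prod_form d h0 P H hP hH 1 r (fun p => by rw [hr, one_mul]), one_pow]

theorem form_injective {L : Type*} [Field L] (hinf : Infinite L) (d : ℕ) (P Q : L[X])
    (hP : P.natDegree ≤ d) (hQ : Q.natDegree ≤ d) (h : ∀ p, form d P p = form d Q p) : P = Q := by
  have := hinf
  refine Polynomial.funext fun x => ?_
  rw [← form_one d P hP, ← form_one d Q hQ, h]

theorem res_cj {L : Type*} [Field L] [IsAlgClosed L] (abv : AbsoluteValue L ℝ) (d : ℕ)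
    (hd : 1 ≤ d) (F G : L[X])
    (hF : F.natDegree ≤ d) (hG : G.natDegree ≤ d) (a b c e : L) :
    abv (resultant (cj1 d F G a b c e) (cj2 d F G a b c e) d d) =
      abv (a * e - b * c) ^ (d + d ^ 2) * abv (resultant F G d d) := by
  have hinf : Infinite L := IsAlgClosed.instInfinite
  obtain ⟨F', G', hF', hG', h1, h2⟩ := exists_sub d hd F G hF hG !![e, -b; -c, a]
  have hact : ∀ p : L × L, act !![e, -b; -c, a] p = ap e (-b) (-c) a p := by
    intro p
    simp [act, ap]
  have e1 : F' = sub d F e (-b) (-c) a := by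
    refine form_injective hinf d _ _ hF' (sub_natDegree d F _ _ _ _) fun p => ?_
    rw [form_sub, ← hact]
    exact congrArg Prod.fst (h1 p)
  have e2 : G' = sub d G e (-b) (-c) a := by
    refine form_injective hinf d _ _ hG' (sub_natDegree d G _ _ _ _) fun p => ?_
    rw [form_sub, ← hact]
    exact congrArg Prod.snd (h1 p)
  have hdet : (!![e, -b; -c, a] : Matrix (Fin 2) (Fin 2) L).det = a * e - b * c := by
    rw [Matrix.det_fin_two_of]
    ring
  rw [cj1, cj2, ← e1, ← e2, resultant_lin d F' G' hF' hG', h2, hdet, map_mul, map_mul, map_pow,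
    map_pow, ← mul_assoc, ← pow_add]

end Pool.Agent.RI
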