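import Pool.Agent.RI.GDefs
import Pool.Agent.RI.GExw
import Pool.Agent.RI.Hmu
import Pool.Agent.RI.Res
import Pool.Agent.RDF.LocU

set_option autoImplicit false

/-!
# Potentially good reduction costs nothing
-/

namespace Pool.Agent.RI

open Polynomial NumberField IsDedekindDomain Pool.Agent.GPoly
open Pool.Agent.RDF (lift wedge form nrm UU mat Above DefectiveN coeffs)

namespace GHarm

theorem act_eq_ap {L : Type*} [Field L] (g : Matrix (Fin 2) (Fin 2) L) (p : L × L) :
    act g p = ap (g 0 0) (g 0 1) (g 1 0) (g 1 1) p := rfl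

theorem sub_map {L M : Type*} [Field L] [Field M] (ψ : L →+* M) (d : ℕ) (F : L[X])
    (a b c e : L) : (sub d F a b c e).map ψ = sub d (F.map ψ) (ψ a) (ψ b) (ψ c) (ψ e) := by
  rw [sub_eq, sub_eq, Polynomial.map_sum]
  refine Finset.sum_congr rfl fun i _ => ?_
  simp only [Polynomial.map_mul, Polynomial.map_pow, Polynomial.map_add, map_C, map_X, coeff_map]

/-- A relation `g Φ' = t Φ g` over an infinite field holds after an extension of the field. -/
theorem rel_map {L M : Type*} [Field L] [Field M] [Infinite L] (ψ : L →+* M) (d : ℕ)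
    (F G F' G' : L[X]) (hF' : F'.natDegree ≤ d) (hG' : G'.natDegree ≤ d)
    (g : Matrix (Fin 2) (Fin 2) L) (t : L)
    (h : ∀ p, act g (lift d F' G' p) = t • lift d F G (act g p)) (p : M × M) :
    act (g.map ψ) (lift d (F'.map ψ) (G'.map ψ) p) =
      ψ t • lift d (F.map ψ) (G.map ψ) (act (g.map ψ) p) := by
  have hC : ∀ (r : L) (p : L[X]), p.natDegree ≤ d → (C r * p).natDegree ≤ d := fun r p hp =>
    (natDegree_C_mul_le r p).trans hp
  have hadd : ∀ r s : L, (C r * F' + C s * G').natDegree ≤ d := fun r s =>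
    (natDegree_add_le _ _).trans (max_le (hC r _ hF') (hC s _ hG'))
  have key : ∀ (P : L[X]) (r s : L),
      (∀ p, r * form d F' p + s * form d G' p = t * form d P (act g p)) →
      ∀ p : M × M, ψ r * form d (F'.map ψ) p + ψ s * form d (G'.map ψ) p =
        ψ t * form d (P.map ψ) (act (g.map ψ) p) := by
    intro P r s hP p
    have h1 : C r * F' + C s * G' = C t * sub d P (g 0 0) (g 0 1) (g 1 0) (g 1 1) := by
      refine form_injective inferInstance d _ _ (hadd r s) (hC t _ (sub_natDegree _ _ _ _ _ _))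
        fun q => ?_
      rw [form_comb, RDF.form_C_mul, form_sub, hP q]
      rfl
    have h2 := congrArg (fun Q => form d (Q.map ψ) p) h1
    simp only [Polynomial.map_add, Polynomial.map_mul, map_C, sub_map, form_comb,
      RDF.form_C_mul, form_sub] at h2
    rw [h2]
    rfl
  ext
  · exact key F (g 0 0) (g 0 1) (fun q => congrArg Prod.fst (h q)) p
  · exact key G (g 1 0) (g 1 1) (fun q => congrArg Prod.snd (h q)) p

section core

variable {Om : Type} [NormedField Om] [IsAlgClosed Om] [IsUltrametricDist Om]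

omit [IsAlgClosed Om] in
theorem nna : IsNonarchimedean (NormedField.toAbsoluteValue Om) :=
  IsUltrametricDist.isNonarchimedean_norm

omit [IsAlgClosed Om] in
theorem nrm_act_lift (d : ℕ) (hd : 1 ≤ d) (F' G' : Om[X]) (hF' : F'.natDegree ≤ d)
    (hG' : G'.natDegree ≤ d) (hc : ∀ i, ‖F'.coeff i‖ ≤ 1) (hc' : ∀ i, ‖G'.coeff i‖ ≤ 1)
    (hres : ‖resultant F' G' d d‖ = 1) (y : Om × Om) :
    nrm (NormedField.toAbsoluteValue Om) (lift d F' G' y) =
      nrm (NormedField.toAbsoluteValue Om) y ^ d := by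
  refine le_antisymm (RDF.nrm_lift_le _ nna d F' G' hc hc' y) ?_
  have h := RDF.nrm_lift_ge (NormedField.toAbsoluteValue Om) nna d hd F' G' hF' hG' 1 hc hc' y
  rw [one_pow, one_mul] at h
  have h2 : NormedField.toAbsoluteValue Om (resultant F' G' d d) = 1 := hres
  rwa [h2, one_mul] at h

omit [IsAlgClosed Om] in
/-- An exactly preperiodic vector of a lift with good reduction has norm one. -/
theorem nrm_eq_one (d : ℕ) (hd : 2 ≤ d) (F' G' : Om[X]) (hF' : F'.natDegree ≤ d)
    (hG' : G'.natDegree ≤ d) (hc : ∀ i, ‖F'.coeff i‖ ≤ 1) (hc' : ∀ i, ‖G'.coeff i‖ ≤ 1)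
    (hres : ‖resultant F' G' d d‖ = 1) (y : Om × Om) (hy : y ≠ 0) (a b : ℕ) (hab : a < b)
    (h : (lift d F' G')^[a] y = (lift d F' G')^[b] y) :
    nrm (NormedField.toAbsoluteValue Om) y = 1 := by
  have hit : ∀ k, nrm (NormedField.toAbsoluteValue Om) ((lift d F' G')^[k] y) =
      nrm (NormedField.toAbsoluteValue Om) y ^ d ^ k := by
    intro k
    induction k with
    | zero => simp
    | succ k ih =>
      rw [Function.iterate_succ_apply', nrm_act_lift d (by omega) F' G' hF' hG' hc hc' hres, ih,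
        ← pow_mul, pow_succ]
  have h1 := congrArg (nrm (NormedField.toAbsoluteValue Om)) h
  rw [hit, hit] at h1
  have hpos := RDF.nrm_pos (NormedField.toAbsoluteValue Om) hy
  have hlt : d ^ a < d ^ b := Nat.pow_lt_pow_right (by omega) hab
  by_contra hne
  rcases lt_or_gt_of_ne hne with h2 | h2
  · have := pow_lt_pow_right_of_lt_one₀ hpos h2 hlt
    linarith
  · have := pow_lt_pow_right₀ h2 hlt
    linarith

theorem core (d : ℕ) (hd : 2 ≤ d) (F G F' G' : Om[X]) (hF : F.natDegree ≤ d)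
    (hG : G.natDegree ≤ d) (hF' : F'.natDegree ≤ d) (hG' : G'.natDegree ≤ d)
    (hR : resultant F G d d ≠ 0) (g : Matrix (Fin 2) (Fin 2) Om) (hg : g.det ≠ 0) (t : Om)
    (ht : t ≠ 0) (h : ∀ p, act g (lift d F' G' p) = t • lift d F G (act g p))
    (hc : ∀ i, ‖F'.coeff i‖ ≤ 1) (hc' : ∀ i, ‖G'.coeff i‖ ≤ 1)
    (hres : ‖resultant F' G' d d‖ = 1) (z w : Om × Om) (hz : PreV d F G z) (hw : PreV d F G w)
    (hzw : wedge z w ≠ 0) :
    Real.log ‖wedge z w‖ ≤ -Real.log ‖resultant F G d d‖ / (d * (d - 1)) := by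
  have hd1 : (2 : ℝ) ≤ d := by exact_mod_cast hd
  have hC : ∀ (r : Om) (p : Om[X]), p.natDegree ≤ d → (C r * p).natDegree ≤ d := fun r p hp =>
    (natDegree_C_mul_le r p).trans hp
  -- the resultants
  have hlt : ∀ p, lift d (C t * F) (C t * G) (act g p) = act g (lift d F' G' p) := by
    intro p
    rw [h]
    ext <;> simp [lift, RDF.form_C_mul]
  have hres2 := Hmu.res_conj d (by omega) F' G' hF' hG' g hg (C t * F) (C t * G) (hC t F hF)
    (hC t G hG) hlt
  rw [resultant_C_mul_left, resultant_C_mul_right] at hres2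
  have hlog := congrArg (fun x => Real.log ‖x‖) hres2
  have ht0 : ‖t‖ ≠ 0 := norm_ne_zero_iff.2 ht
  have hg0 : ‖g.det‖ ≠ 0 := norm_ne_zero_iff.2 hg
  have hR0 : ‖resultant F G d d‖ ≠ 0 := norm_ne_zero_iff.2 hR
  simp only [norm_mul, norm_pow, hres, mul_one] at hlog
  rw [Real.log_mul (pow_ne_zero _ hg0) (mul_ne_zero (pow_ne_zero _ ht0)
      (mul_ne_zero (pow_ne_zero _ ht0) hR0)), Real.log_mul (pow_ne_zero _ ht0)
      (mul_ne_zero (pow_ne_zero _ ht0) hR0), Real.log_mul (pow_ne_zero _ ht0) hR0,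
    Real.log_pow, Real.log_pow, Real.log_pow] at hlog
  push_cast at hlog
  -- the scaling factor
  obtain ⟨α, hα⟩ := IsAlgClosed.exists_pow_nat_eq (t⁻¹ : Om) (n := d - 1) (by omega)
  have hα0 : α ≠ 0 := by
    rintro rfl
    rw [zero_pow (by omega)] at hα
    exact (inv_ne_zero ht) hα.symm
  have hαn : ‖α‖ ≠ 0 := norm_ne_zero_iff.2 hα0
  have hαlog : ((d : ℝ) - 1) * Real.log ‖α‖ = -Real.log ‖t‖ := by
    have h1 := congrArg (fun x => Real.log ‖x‖) hα
    simp only [norm_pow, norm_inv, Real.log_pow, Real.log_inv] at h1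
    rw [Nat.cast_sub (by omega), Nat.cast_one] at h1
    exact h1
  have hαd : α⁻¹ ^ d = t * α⁻¹ := by
    have h1 : d = (d - 1) + 1 := by omega
    rw [h1, pow_succ, inv_pow, hα, inv_inv]
  -- `Φ (α⁻¹ g y) = α⁻¹ g Ψ(y)`
  have hstep : ∀ y, lift d F G (α⁻¹ • act g y) = α⁻¹ • act g (lift d F' G' y) := by
    intro y
    rw [RDF.lift_smul, h, hαd, smul_smul, mul_comm t]
  have hiter : ∀ k y, (lift d F G)^[k] (α⁻¹ • act g y) =
      α⁻¹ • act g ((lift d F' G')^[k] y) := by
    intro k
    induction k with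
    | zero => intro y; rfl
    | succ k ih =>
      intro y
      rw [Function.iterate_succ_apply, Function.iterate_succ_apply, hstep, ih]
  have hy : ∀ z, PreV d F G z → ∃ y, z = α⁻¹ • act g y ∧
      nrm (NormedField.toAbsoluteValue Om) y = 1 := by
    rintro z ⟨hz0, a, b, hab, he⟩
    have e1 : z = α⁻¹ • act g (α • act g⁻¹ z) := by
      rw [act_smul, act_act_inv g hg, smul_smul, inv_mul_cancel₀ hα0, one_smul]
    refine ⟨α • act g⁻¹ z, e1, ?_⟩
    refine nrm_eq_one d hd F' G' hF' hG' hc hc' hres _ ?_ a b hab ?_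
    · intro h0
      rw [h0, act_zero, smul_zero] at e1
      exact hz0 e1
    · rw [e1, hiter, hiter] at he
      have h2 := congrArg (fun x => α • x) he
      simp only [smul_smul, mul_inv_cancel₀ hα0, one_smul] at h2
      have h3 := congrArg (act g⁻¹) h2
      rwa [act_inv_act g hg, act_inv_act g hg] at h3
  obtain ⟨y, hzy, hny⟩ := hy z hz
  obtain ⟨y', hwy, hny'⟩ := hy w hw
  have hwd : wedge z w = (α⁻¹ * α⁻¹ * g.det) * wedge y y' := by
    rw [hzy, hwy, RDF.wedge_smul_left, RDF.wedge_smul_right, wedge_act]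
    ring
  have hyy : wedge y y' ≠ 0 := by
    intro h0
    rw [hwd, h0, mul_zero] at hzw
    exact hzw rfl
  have hle : ‖wedge y y'‖ ≤ 1 := by
    have k1 : ‖y.1‖ ≤ 1 := (le_max_left _ _).trans hny.le
    have k2 : ‖y.2‖ ≤ 1 := (le_max_right _ _).trans hny.le
    have k3 : ‖y'.1‖ ≤ 1 := (le_max_left _ _).trans hny'.le
    have k4 : ‖y'.2‖ ≤ 1 := (le_max_right _ _).trans hny'.le
    rw [wedge]
    rw [sub_eq_add_neg]
    refine (IsUltrametricDist.norm_add_le_max _ _).trans (max_le ?_ ?_)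
    · rw [norm_mul]
      exact mul_le_one₀ k1 (norm_nonneg _) k4
    · rw [norm_neg, norm_mul]
      exact mul_le_one₀ k3 (norm_nonneg _) k2
  have hlog2 : Real.log ‖wedge z w‖ ≤ -2 * Real.log ‖α‖ + Real.log ‖g.det‖ := by
    rw [hwd, norm_mul, norm_mul, norm_mul, norm_inv, Real.log_mul (mul_ne_zero (mul_ne_zero
      (inv_ne_zero hαn) (inv_ne_zero hαn)) hg0) (norm_ne_zero_iff.2 hyy),
      Real.log_mul (mul_ne_zero (inv_ne_zero hαn) (inv_ne_zero hαn)) hg0,
      Real.log_mul (inv_ne_zero hαn) (inv_ne_zero hαn), Real.log_inv]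
    have := Real.log_nonpos (norm_nonneg _) hle
    linarith
  refine hlog2.trans ?_
  rw [le_div_iff₀ (by nlinarith)]
  have e5 : (-2 * Real.log ‖α‖ + Real.log ‖g.det‖) * (d * (d - 1)) =
      -2 * d * ((d - 1) * Real.log ‖α‖) + (d ^ 2 - d) * Real.log ‖g.det‖ := by ring
  rw [e5, hαlog]
  linarith

end core

end GHarm

/-- Potentially good reduction costs nothing. -/
theorem loc_harm (d : ℕ) (hd : 2 ≤ d) {K : Type} [Field K] [NumberField K] (F G : (𝓞 K)[X])
    (hF : F.natDegree ≤ d) (hG : G.natDegree ≤ d) (hR : resultant F G d d ≠ 0)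
    (v : HeightOneSpectrum (𝓞 K)) (hv : PotGood d F G v) (Om : Type) [NormedField Om]
    [IsAlgClosed Om] [IsUltrametricDist Om]
    [Algebra K Om] (h : ∀ x : K, ‖algebraMap K Om x‖ = av v x) (T : ℕ)
    (z : Fin T → Om × Om)
    (hz : ∀ i, PreV d (F.map (algebraMap (𝓞 K) Om)) (G.map (algebraMap (𝓞 K) Om)) (z i))
    (hw : ∀ i j, i ≠ j → wedge (z i) (z j) ≠ 0) :
    ∑ i, ∑ j ∈ Finset.univ.erase i, Real.log ‖wedge (z i) (z j)‖ ≤
      (T * (T - 1) : ℝ) *
        (-Real.log (av v (algebraMap (𝓞 K) K (resultant F G d d))) / (d * (d - 1))) := by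
  obtain ⟨L, hL1, hL2, hL3, g, t, F', G', hg, ht, hF', hG', hrel, hunit⟩ := hv
  have ψ : L →ₐ[K] Om := IsAlgClosed.lift
  obtain ⟨w, hwv, hw1, hw2, -⟩ := exists_w v Om h ψ
  have hmap : ∀ P : (𝓞 K)[X], (P.map (algebraMap (𝓞 K) L)).map (ψ : L →+* Om) =
      P.map (algebraMap (𝓞 K) Om) := by
    intro P
    rw [Polynomial.map_map]
    congr 1
    ext a
    have e1 : algebraMap (𝓞 K) L a = algebraMap K L (algebraMap (𝓞 K) K a) := rfl
    have e2 : algebraMap (𝓞 K) Om a = algebraMap K Om (algebraMap (𝓞 K) K a) := rfl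
    rw [RingHom.comp_apply, e1, e2]
    exact ψ.commutes _
  set FO : Om[X] := F.map (algebraMap (𝓞 K) Om) with hFO
  set GO : Om[X] := G.map (algebraMap (𝓞 K) Om) with hGO
  set F1 : Om[X] := (F'.map (algebraMap (𝓞 L) L)).map (ψ : L →+* Om) with hF1
  set G1 : Om[X] := (G'.map (algebraMap (𝓞 L) L)).map (ψ : L →+* Om) with hG1
  have hrel2 := GHarm.rel_map (ψ : L →+* Om) d _ _ _ _
    (natDegree_map_le.trans hF') (natDegree_map_le.trans hG') g t hrel
  rw [hmap, hmap] at hrel2
  have hres : resultant FO GO d d = algebraMap K Om (algebraMap (𝓞 K) K (resultant F G d d)) :=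
    resultant_map_map _ _ _ _ _
  have hres0 : resultant FO GO d d ≠ 0 := by
    rw [hres]
    intro h0
    have h1 := (algebraMap K Om).injective (h0.trans (map_zero _).symm)
    exact hR (RingOfIntegers.coe_injective (h1.trans (map_zero _).symm))
  have hresn : Real.log ‖resultant FO GO d d‖ =
      Real.log (av v (algebraMap (𝓞 K) K (resultant F G d d))) := by rw [hres, h]
  have hres1 : ‖resultant F1 G1 d d‖ = 1 := by
    rw [hF1, hG1, resultant_map_map, resultant_map_map]
    exact hw2 _ (hunit w hwv)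
  have hdet : (g.map (ψ : L →+* Om)).det ≠ 0 := by
    rw [← RingHom.mapMatrix_apply, ← RingHom.map_det]
    intro h0
    exact hg ((ψ : L →+* Om).injective (h0.trans (map_zero _).symm))
  have hpair : ∀ i j, i ≠ j → Real.log ‖wedge (z i) (z j)‖ ≤
      -Real.log (av v (algebraMap (𝓞 K) K (resultant F G d d))) / (d * (d - 1)) := by
    intro i j hij
    rw [← hresn]
    refine GHarm.core d hd FO GO F1 G1 (natDegree_map_le.trans hF) (natDegree_map_le.trans hG)
      (natDegree_map_le.trans (natDegree_map_le.trans hF'))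
      (natDegree_map_le.trans (natDegree_map_le.trans hG')) hres0 _ hdet ((ψ : L →+* Om) t) ?_
      hrel2 ?_ ?_ hres1 (z i) (z j) (hz i) (hz j) (hw i j hij)
    · intro h0
      exact ht ((ψ : L →+* Om).injective (h0.trans (map_zero _).symm))
    · intro i
      rw [hF1, coeff_map, coeff_map]
      exact hw1 _
    · intro i
      rw [hG1, coeff_map, coeff_map]
      exact hw1 _
  calc ∑ i, ∑ j ∈ Finset.univ.erase i, Real.log ‖wedge (z i) (z j)‖
      ≤ ∑ i : Fin T, ∑ j ∈ Finset.univ.erase i,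
        (-Real.log (av v (algebraMap (𝓞 K) K (resultant F G d d))) / (d * (d - 1))) :=
        Finset.sum_le_sum fun i _ => Finset.sum_le_sum fun j hj =>
          hpair i j (Finset.ne_of_mem_erase hj).symm
    _ = _ := by
      simp only [Finset.sum_const, Finset.card_erase_of_mem (Finset.mem_univ _),
        Finset.card_univ, Fintype.card_fin, nsmul_eq_mul]
      rcases Nat.eq_zero_or_pos T with h0 | h0
      · subst h0
        simp
      · rw [Nat.cast_sub h0, Nat.cast_one]
        ring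

end Pool.Agent.RI
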