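import Pool.Agent.RI.GSum
import Pool.Agent.PQ.Glob

set_option autoImplicit false

/-!
# Rational functions without a height condition: the sum of the local bounds
-/

namespace Pool.Agent.RI

open Polynomial NumberField IsDedekindDomain Pool.Agent.GPoly

variable {K : Type} [Field K] [NumberField K]

/-- The sum over the places of the local bounds. -/
theorem ineq_RI (r : 𝓞 K) (hr : r ≠ 0) (d k s : ℕ) (Df Pt : HeightOneSpectrum (𝓞 K) → Prop)
    (I M J : Ideal (𝓞 K)) (hIM : I * M = Ideal.span {r})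
    (hs : {v : HeightOneSpectrum (𝓞 K) | v.asIdeal ∣ M ∧ ¬ Df v ∧ ¬ Pt v}.ncard ≤ s)
    (hJ : J ∣ Ideal.span {r}) (hdef : ∀ v : HeightOneSpectrum (𝓞 K), v.asIdeal ∣ J → Df v)
    (hnorm : Ideal.absNorm I ≤ Ideal.absNorm J ^ k)
    (L : Type) [Field L] [Algebra K L] [FiniteDimensional K L] {T : ℕ} (x : Fin T → Fin T → L)
    (hx : ∀ i j, i ≠ j → x i j ≠ 0) (e₁ g C₀ Lam : ℝ) (hC₀ : 0 ≤ C₀) (he₁ : 0 ≤ e₁) (hg : 0 ≤ g)
    (hT : g * k ≤ e₁)
    (h1 : ∀ v : HeightOneSpectrum (𝓞 K), Df v → r ∈ v.asIdeal →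
      ∑ i, ∑ j ∈ Finset.univ.erase i, Real.log (av v (Algebra.norm K (x i j))) ≤
        Module.finrank K L * ((T * (T - 1) : ℝ) * (wt v r / (d * (d - 1))) - e₁ * wt v r))
    (h2 : ∀ v : HeightOneSpectrum (𝓞 K), v.asIdeal ∣ M → ¬ Df v → ¬ Pt v →
      ∑ i, ∑ j ∈ Finset.univ.erase i, Real.log (av v (Algebra.norm K (x i j))) ≤
        Module.finrank K L * ((T * (T - 1) : ℝ) * (wt v r / (d * (d - 1))) + C₀ * (T : ℝ) ^ 2))
    (h3 : ∀ v : HeightOneSpectrum (𝓞 K), Pt v →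
      ∑ i, ∑ j ∈ Finset.univ.erase i, Real.log (av v (Algebra.norm K (x i j))) ≤
        Module.finrank K L * ((T * (T - 1) : ℝ) * (wt v r / (d * (d - 1)))))
    (h4 : ∀ v : HeightOneSpectrum (𝓞 K),
      ∑ i, ∑ j ∈ Finset.univ.erase i, Real.log (av v (Algebra.norm K (x i j))) ≤
        Module.finrank K L * ((T * (T - 1) : ℝ) * (wt v r / (d * (d - 1))) + g * wt v r))
    (h5 : ∀ σ : K →+* ℂ,
      ∑ i, ∑ j ∈ Finset.univ.erase i, Real.log ‖σ (Algebra.norm K (x i j))‖ ≤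
        Module.finrank K L * ((T * (T - 1) : ℝ) *
          (-Real.log ‖σ (algebraMap (𝓞 K) K r)‖ / (d * (d - 1))) - Lam * (T : ℝ) ^ 2)) :
    Module.finrank ℚ K * (Lam * (T : ℝ) ^ 2) ≤ s * (C₀ * (T : ℝ) ^ 2) := by
  classical
  have hspan : Ideal.span {r} ≠ 0 := by
    rw [Ne, Ideal.zero_eq_bot, Ideal.span_singleton_eq_bot]
    exact hr
  have hM0 : M ≠ 0 := by
    rintro rfl
    rw [mul_zero] at hIM
    exact hspan hIM.symm
  have hI0 : I ≠ 0 := by
    rintro rfl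
    rw [zero_mul] at hIM
    exact hspan hIM.symm
  have hMd : M ∣ Ideal.span {r} := ⟨I, by rw [← hIM, mul_comm]⟩
  have hfinM := Ideal.finite_factors hM0
  have hfin : {v : HeightOneSpectrum (𝓞 K) | v.asIdeal ∣ M ∧ ¬ Df v ∧ ¬ Pt v}.Finite :=
    hfinM.subset fun v hv => hv.1
  have hfinP := Ideal.finite_factors hspan
  obtain ⟨P₀, hP₀⟩ : ∃ P₀ : Finset (HeightOneSpectrum (𝓞 K)),
      ∀ v : HeightOneSpectrum (𝓞 K), r ∈ v.asIdeal → v ∈ P₀ := by
    refine ⟨hfinP.toFinset, fun v hv => ?_⟩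
    rw [Set.Finite.mem_toFinset]
    exact Ideal.dvd_span_singleton.2 hv
  have hw0 : ∀ v, 0 ≤ wt v r := fun v => wt_nonneg v _
  -- the local bounds
  set e : HeightOneSpectrum (𝓞 K) → ℝ := fun v =>
    if Df v then -(e₁ * wt v r)
    else if Pt v then 0
    else if v.asIdeal ∣ M then C₀ * (T : ℝ) ^ 2 else g * wt v r with he
  set u : HeightOneSpectrum (𝓞 K) → ℝ := fun v =>
    (T * (T - 1) : ℝ) * (wt v r / (d * (d - 1))) + e v with hu
  have hT0 : (0 : ℝ) ≤ T := Nat.cast_nonneg _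
  have hout : ∀ v : HeightOneSpectrum (𝓞 K), r ∉ v.asIdeal → wt v r = 0 := fun v hv => wt_eq_zero v _ hv
  have hfu : ∀ v, ∑ i, ∑ j ∈ Finset.univ.erase i,
      Real.log (av v (Algebra.norm K (x i j))) ≤ Module.finrank K L * u v := by
    intro v
    simp only [hu, he]
    split_ifs with c1 c2 c3
    · by_cases hrv : r ∈ v.asIdeal
      · have := h1 v c1 hrv
        rwa [sub_eq_add_neg] at this
      · have := h4 v
        rw [hout v hrv] at this ⊢
        simpa using this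
    · simpa using h3 v c2
    · exact h2 v c3 c1 c2
    · exact h4 v
  have hJP : ∀ v : HeightOneSpectrum (𝓞 K), v.asIdeal ∣ Ideal.span {r} → r ∈ v.asIdeal := fun v hv =>
    Ideal.dvd_span_singleton.1 hv
  have hu0 : ∀ v, v ∉ P₀ → u v ≤ 0 := by
    intro v hv
    have h6 : r ∉ v.asIdeal := fun h => hv (hP₀ v h)
    have h8 : ¬ v.asIdeal ∣ M := fun h => h6 (hJP v (h.trans hMd))
    simp only [hu, he, hout v h6]
    rw [if_neg h8]
    split_ifs <;> simp
  have hglob := globD L x hx P₀ u (fun σ => (T * (T - 1) : ℝ) *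
    (-Real.log ‖σ (algebraMap (𝓞 K) K r)‖ / (d * (d - 1))) - Lam * (T : ℝ) ^ 2) hfu hu0 h5
  have hpf := sum_res r hr P₀ hP₀
  rw [Finset.sum_add_distrib, ← Finset.mul_sum, Finset.sum_sub_distrib, ← Finset.mul_sum,
    Finset.sum_const, Finset.card_univ, NumberField.Embeddings.card, nsmul_eq_mul,
    ← Finset.sum_div, ← Finset.sum_div] at hglob
  have hsig : ∑ σ : K →+* ℂ, -Real.log ‖σ (algebraMap (𝓞 K) K r)‖ =
      -∑ v ∈ P₀, wt v r := by
    have : ∑ v ∈ P₀, wt v r = ∑ v ∈ P₀, -Real.log (av v (algebraMap (𝓞 K) K r)) := rfl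
    rw [this]
    linarith
  rw [hsig] at hglob
  -- the error terms
  have hNI : (0 : ℝ) < Ideal.absNorm I := by
    have : 0 < Ideal.absNorm I := Nat.pos_of_ne_zero (by rwa [Ne, Ideal.absNorm_eq_zero_iff])
    exact_mod_cast this
  have hNM : (0 : ℝ) < Ideal.absNorm M := by
    have : 0 < Ideal.absNorm M := Nat.pos_of_ne_zero (by rwa [Ne, Ideal.absNorm_eq_zero_iff])
    exact_mod_cast this
  have k1 : Real.log (Ideal.absNorm J) ≤ ∑ v ∈ P₀ with v.asIdeal ∣ J, wt v r :=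
    log_absNorm_le _ hr J hJ P₀ hP₀
  have k2 : Real.log (Ideal.absNorm M) ≤ ∑ v ∈ P₀ with v.asIdeal ∣ M, wt v r :=
    log_absNorm_le _ hr M hMd P₀ hP₀
  have k3 : ∑ v ∈ P₀, wt v r = Real.log (Ideal.absNorm I) + Real.log (Ideal.absNorm M) := by
    rw [← Real.log_mul hNI.ne' hNM.ne', ← Nat.cast_mul, ← map_mul, hIM]
    exact sum_log_av_int _ hr P₀ hP₀
  have k4 : ∑ v ∈ P₀ with ¬ v.asIdeal ∣ M, wt v r ≤ Real.log (Ideal.absNorm I) := by
    have := Finset.sum_filter_add_sum_filter_not P₀ (fun v => v.asIdeal ∣ M) (fun v => wt v r)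
    linarith
  have k5 : Real.log (Ideal.absNorm I) ≤ k * Real.log (Ideal.absNorm J) := by
    have h7 : (Ideal.absNorm I : ℝ) ≤ (Ideal.absNorm J : ℝ) ^ k := by exact_mod_cast hnorm
    calc Real.log (Ideal.absNorm I) ≤ Real.log ((Ideal.absNorm J : ℝ) ^ k) :=
          Real.log_le_log hNI h7
      _ = k * Real.log (Ideal.absNorm J) := Real.log_pow _ _
  have k6 : ∑ v ∈ P₀, e v ≤ -(e₁ * ∑ v ∈ P₀ with v.asIdeal ∣ J, wt v r) +
      s * (C₀ * (T : ℝ) ^ 2) + g * ∑ v ∈ P₀ with ¬ v.asIdeal ∣ M, wt v r := by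
    have h6 : ∀ v ∈ P₀, e v ≤ (if v.asIdeal ∣ J then -(e₁ * wt v r) else 0) +
        (if v.asIdeal ∣ M ∧ ¬ Df v ∧ ¬ Pt v then C₀ * (T : ℝ) ^ 2 else 0) +
        (if ¬ v.asIdeal ∣ M then g * wt v r else 0) := by
      intro v _
      have e1 : 0 ≤ C₀ * (T : ℝ) ^ 2 := by positivity
      have e2 : 0 ≤ g * wt v r := mul_nonneg hg (hw0 v)
      have e3 : 0 ≤ e₁ * wt v r := mul_nonneg he₁ (hw0 v)
      have e4 := hdef v
      simp only [he]
      by_cases c1 : Df v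
      · rw [if_pos c1, if_neg (show ¬ (v.asIdeal ∣ M ∧ ¬ Df v ∧ ¬ Pt v) from fun h => h.2.1 c1)]
        split_ifs <;> linarith
      · have c2 : ¬ v.asIdeal ∣ J := fun h => c1 (e4 h)
        rw [if_neg c1, if_neg c2]
        by_cases c3 : Pt v
        · rw [if_pos c3, if_neg (show ¬ (v.asIdeal ∣ M ∧ ¬ Df v ∧ ¬ Pt v) from fun h => h.2.2 c3)]
          split_ifs <;> linarith
        · rw [if_neg c3]
          by_cases c4 : v.asIdeal ∣ M
          · rw [if_pos c4, if_pos ⟨c4, c1, c3⟩, if_neg (not_not.2 c4)]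
            linarith
          · rw [if_neg c4, if_neg (show ¬ (v.asIdeal ∣ M ∧ ¬ Df v ∧ ¬ Pt v) from fun h => c4 h.1),
              if_pos c4]
            linarith
    refine (Finset.sum_le_sum h6).trans ?_
    rw [Finset.sum_add_distrib, Finset.sum_add_distrib, ← Finset.sum_filter,
      ← Finset.sum_filter, ← Finset.sum_filter, Finset.sum_neg_distrib, ← Finset.mul_sum,
      Finset.sum_const, nsmul_eq_mul, ← Finset.mul_sum]
    have h7 : ((P₀.filter fun v => v.asIdeal ∣ M ∧ ¬ Df v ∧ ¬ Pt v).card : ℝ) ≤ s := by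
      have h8 : (P₀.filter fun v => v.asIdeal ∣ M ∧ ¬ Df v ∧ ¬ Pt v).card ≤ s := by
        refine le_trans ?_ hs
        rw [Set.ncard_eq_toFinset_card _ hfin]
        refine Finset.card_le_card fun v hv => ?_
        rw [Set.Finite.mem_toFinset]
        exact (Finset.mem_filter.1 hv).2
      exact_mod_cast h8
    have h8 := mul_le_mul_of_nonneg_right h7 (show 0 ≤ C₀ * (T : ℝ) ^ 2 by positivity)
    linarith
  have hk0 : (0 : ℝ) ≤ k := Nat.cast_nonneg _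
  have hlJ : 0 ≤ ∑ v ∈ P₀ with v.asIdeal ∣ J, wt v r := Finset.sum_nonneg fun v _ => hw0 v
  have k7 : g * ∑ v ∈ P₀ with ¬ v.asIdeal ∣ M, wt v r ≤
      g * k * ∑ v ∈ P₀ with v.asIdeal ∣ J, wt v r := by
    have := mul_le_mul_of_nonneg_left k1 hk0
    rw [mul_assoc g]
    exact mul_le_mul_of_nonneg_left (by linarith) hg
  have k8 : g * k * ∑ v ∈ P₀ with v.asIdeal ∣ J, wt v r ≤
      e₁ * ∑ v ∈ P₀ with v.asIdeal ∣ J, wt v r := mul_le_mul_of_nonneg_right hT hlJ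
  have k9 : (T * (T - 1) : ℝ) * ((∑ v ∈ P₀, wt v r) / (d * (d - 1))) +
      (T * (T - 1) : ℝ) * (-(∑ v ∈ P₀, wt v r) / (d * (d - 1))) = 0 := by ring
  linarith

end Pool.Agent.RI
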