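import Pool.Agent.RI.GDefs

set_option autoImplicit false

/-!
# Choosing points no two of which are conjugate
-/

namespace Pool.Agent.RI

open Polynomial NumberField IsDedekindDomain Pool.Agent.GPoly
open Pool.Agent.RDF (lift wedge form nrm UU mat Above DefectiveN coeffs)

namespace GKey

open Classical in
/-- The conjugacy class of the point of `p`. -/
noncomputable def key (K : Type) {L : Type} [Field K] [Field L] [Algebra K L] (p : L × L) :
    Option K[X] :=
  if p.2 = 0 then none else some (minpoly K (p.1 / p.2))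

theorem natDegree_le {K L : Type} [Field K] [Field L] [Algebra K L] [FiniteDimensional K L]
    {N : ℕ} {p : L × L} (h : PDegLe K N p) (hp : p.2 ≠ 0) :
    (minpoly K (p.1 / p.2)).natDegree ≤ N := by
  obtain ⟨c, hc, E, hE, h1, h2⟩ := h
  have hx : p.1 / p.2 ∈ E := by
    have h3 : p.1 / p.2 = (c • p).1 / (c • p).2 := by
      simp only [Prod.smul_fst, Prod.smul_snd, smul_eq_mul]
      field_simp
    rw [h3]
    exact E.div_mem h1 h2
  have h4 : minpoly K (algebraMap E L ⟨_, hx⟩) = minpoly K (⟨_, hx⟩ : E) :=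
    minpoly.algebraMap_eq (algebraMap E L).injective _
  have h5 : minpoly K (p.1 / p.2) = minpoly K (⟨_, hx⟩ : E) := h4
  rw [h5]
  exact (minpoly.natDegree_le _).trans hE

theorem wedge_eq_zero_of_div {L : Type} [Field L] {p q : L × L} (hp : p.2 ≠ 0) (hq : q.2 ≠ 0)
    (h : p.1 / p.2 = q.1 / q.2) : wedge p q = 0 := by
  rw [div_eq_div_iff hp hq] at h
  rw [Pool.Agent.RDF.wedge, h, sub_self]

theorem key_ne {K L : Type} [Field K] [Field L] [Algebra K L] {p q : L × L} (hp : p ≠ 0)
    (hq : q ≠ 0) (hpq : key K p ≠ key K q) (E : Type) [Field E] [Algebra K E]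
    (φ ψ : L →ₐ[K] E) : wedge (Prod.map φ φ p) (Prod.map ψ ψ q) ≠ 0 := by
  intro h
  rw [Pool.Agent.RDF.wedge] at h
  simp only [Prod.map_fst, Prod.map_snd] at h
  by_cases h1 : p.2 = 0
  · have hp1 : p.1 ≠ 0 := fun h0 => hp (Prod.ext h0 h1)
    rw [h1, map_zero, mul_zero, sub_zero] at h
    rcases mul_eq_zero.1 h with h2 | h2
    · exact hp1 ((map_eq_zero φ).1 h2)
    · have h3 : q.2 = 0 := (map_eq_zero ψ).1 h2
      exact hpq (by rw [key, key, if_pos h1, if_pos h3])
  · by_cases h2 : q.2 = 0
    · have hq1 : q.1 ≠ 0 := fun h0 => hq (Prod.ext h0 h2)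
      rw [h2, map_zero, mul_zero, zero_sub, neg_eq_zero] at h
      rcases mul_eq_zero.1 h with h3 | h3
      · exact hq1 ((map_eq_zero ψ).1 h3)
      · exact h1 ((map_eq_zero φ).1 h3)
    · have hφ : φ p.2 ≠ 0 := fun h0 => h1 ((map_eq_zero φ).1 h0)
      have hψ : ψ q.2 ≠ 0 := fun h0 => h2 ((map_eq_zero ψ).1 h0)
      have h3 : φ (p.1 / p.2) = ψ (q.1 / q.2) := by
        rw [map_div₀, map_div₀, div_eq_div_iff hφ hψ]
        exact sub_eq_zero.1 h
      refine hpq ?_
      rw [key, key, if_neg h1, if_neg h2, ← minpoly.algHom_eq φ φ.toRingHom.injective,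
        ← minpoly.algHom_eq ψ ψ.toRingHom.injective, h3]

end GKey

open GKey in
/-- Among `N M` different points of degree at most `N` there are `M` with no two conjugate. -/
theorem nonconj {K : Type} [Field K] [NumberField K] (L : Type) [Field L] [NumberField L]
    [Algebra K L] (N M : ℕ) (hN : 1 ≤ N) (S : Finset (L × L)) (hS : N * M ≤ S.card)
    (h0 : ∀ p ∈ S, p ≠ 0) (hdeg : ∀ p ∈ S, PDegLe K N p)
    (hw : ∀ p ∈ S, ∀ q ∈ S, p ≠ q → wedge p q ≠ 0) :
    ∃ x : Fin M → L × L, (∀ i, x i ∈ S) ∧ ∀ (E : Type) [Field E] [Algebra K E]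
      (φ ψ : L →ₐ[K] E) (i j : Fin M), i ≠ j →
      wedge (Prod.map φ φ (x i)) (Prod.map ψ ψ (x j)) ≠ 0 := by
  classical
  have hfd : FiniteDimensional K L := Module.Finite.of_restrictScalars_finite ℚ K L
  have hfib : ∀ k ∈ S.image (key K), (S.filter fun p => key K p = k).card ≤ N := by
    intro k _
    rcases k with - | μ
    · refine le_trans (Finset.card_le_one.2 fun p hp q hq => ?_) hN
      obtain ⟨hp1, hp2⟩ := Finset.mem_filter.1 hp
      obtain ⟨hq1, hq2⟩ := Finset.mem_filter.1 hq
      by_contra hne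
      have e : ∀ r : L × L, key K r = none → r.2 = 0 := by
        intro r hr
        by_contra hr2
        rw [key, if_neg hr2] at hr
        exact Option.some_ne_none _ hr
      apply hw p hp1 q hq1 hne
      rw [Pool.Agent.RDF.wedge, e p hp2, e q hq2]
      ring
    · have e : ∀ r : L × L, key K r = some μ → r.2 ≠ 0 ∧ minpoly K (r.1 / r.2) = μ := by
        intro r hr
        by_cases hr2 : r.2 = 0
        · rw [key, if_pos hr2] at hr
          exact absurd hr.symm (Option.some_ne_none _)
        · rw [key, if_neg hr2] at hr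
          exact ⟨hr2, Option.some_injective _ hr⟩
      rcases (S.filter fun p => key K p = some μ).eq_empty_or_nonempty with he | ⟨p0, hp0⟩
      · rw [he]
        simp
      · obtain ⟨hp1, hp2⟩ := Finset.mem_filter.1 hp0
        have hμN : μ.natDegree ≤ N := by
          rw [← (e p0 hp2).2]
          exact natDegree_le (hdeg p0 hp1) (e p0 hp2).1
        have hμ0 : μ ≠ 0 := by
          rw [← (e p0 hp2).2]
          exact minpoly.ne_zero (Algebra.IsIntegral.isIntegral _)
        have h1 : (S.filter fun p => key K p = some μ).card ≤ (μ.aroots L).toFinset.card := by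
          refine Finset.card_le_card_of_injOn (fun p => p.1 / p.2) (fun p hp => ?_)
            fun p hp q hq hpq => ?_
          · obtain ⟨h2, h3⟩ := Finset.mem_filter.1 hp
            rw [Finset.mem_coe, Multiset.mem_toFinset, mem_aroots]
            refine ⟨hμ0, ?_⟩
            rw [← (e p h3).2]
            exact minpoly.aeval K _
          · obtain ⟨h2, h3⟩ := Finset.mem_filter.1 hp
            obtain ⟨h4, h5⟩ := Finset.mem_filter.1 hq
            by_contra hne
            exact hw p h2 q h4 hne (wedge_eq_zero_of_div (e p h3).1 (e q h5).1 hpq)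
        refine h1.trans ((Multiset.toFinset_card_le _).trans ?_)
        refine (card_roots' _).trans ?_
        rw [natDegree_map]
        exact hμN
  have hcard := Finset.card_le_mul_card_image S N hfib
  have hM : M ≤ (S.image (key K)).card :=
    Nat.le_of_mul_le_mul_left (hS.trans hcard) (by omega)
  obtain ⟨K0, hK0, hK0c⟩ := Finset.exists_subset_card_eq hM
  have e : Fin M ≃ K0 := (Finset.equivFinOfCardEq hK0c).symm
  have hrep : ∀ i : Fin M, ∃ p ∈ S, key K p = (e i : Option K[X]) := fun i =>
    Finset.mem_image.1 (hK0 (e i).2)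
  choose x hx hxk using hrep
  refine ⟨x, hx, fun E _ _ φ ψ i j hij => ?_⟩
  refine key_ne (h0 _ (hx i)) (h0 _ (hx j)) ?_ E φ ψ
  rw [hxk, hxk]
  exact fun h => hij (e.injective (Subtype.ext h))

end Pool.Agent.RI
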