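import Pool.Agent.RI.GDefs
import Pool.Agent.RDF.ResId
import Pool.Agent.RDF.Ht

set_option autoImplicit false

/-!
# Exact preperiodic lifts in a larger number field
-/

namespace Pool.Agent.RI

open Polynomial NumberField IsDedekindDomain Pool.Agent.GPoly
open Pool.Agent.RDF (lift wedge form nrm UU mat Above DefectiveN coeffs)

namespace GLift

/-- The scaling factor. -/
theorem exists_scale {L : Type} [Field L] (d : ℕ) (hd : 2 ≤ d) (F G : L[X])
    (hF : F.natDegree ≤ d) (hG : G.natDegree ≤ d) (hR : resultant F G d d ≠ 0)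
    (p : L × L) (hp : p ≠ 0) (a b : ℕ)
    (h : wedge ((lift d F G)^[a] p) ((lift d F G)^[b] p) = 0) :
    ∃ g : L, g ≠ 0 ∧ ∀ (E : Type) [Field E] (f : L →+* E) (c : E), c ≠ 0 →
      c ^ (d ^ b) * f g = c ^ (d ^ a) →
      (lift d (F.map f) (G.map f))^[a] (c • Prod.map f f p) =
        (lift d (F.map f) (G.map f))^[b] (c • Prod.map f f p) := by
  have hd1 : 1 ≤ d := by omega
  obtain ⟨g, hg, he⟩ := RDF.Ht.exists_smul (RDF.iter_ne_zero d hd1 F G hF hG hR a hp)
    (RDF.iter_ne_zero d hd1 F G hF hG hR b hp) h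
  refine ⟨g, hg, ?_⟩
  intro E _ f c hc hcc
  rw [RDF.iter_smul, RDF.iter_smul, ← RDF.iter_map, ← RDF.iter_map, he]
  have e : Prod.map f f (g • (lift d F G)^[a] p) = f g • Prod.map f f ((lift d F G)^[a] p) := by
    ext <;> simp
  rw [e, smul_smul, hcc]

theorem exists_root {A : Type} [Field A] [IsAlgClosed A] (d : ℕ) (hd : 2 ≤ d) (a b : ℕ)
    (hab : a < b) (g : A) (hg : g ≠ 0) : ∃ c : A, c ≠ 0 ∧ c ^ (d ^ b) * g = c ^ (d ^ a) := by
  have hlt : d ^ a < d ^ b := Nat.pow_lt_pow_right (by omega) hab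
  obtain ⟨c, hc⟩ := IsAlgClosed.exists_pow_nat_eq g⁻¹ (n := d ^ b - d ^ a) (by omega)
  have hc0 : c ≠ 0 := by
    rintro rfl
    rw [zero_pow (by omega)] at hc
    exact inv_ne_zero hg hc.symm
  refine ⟨c, hc0, ?_⟩
  have e : c ^ (d ^ b) = c ^ (d ^ b - d ^ a) * c ^ (d ^ a) := by
    rw [← pow_add]
    congr 1
    omega
  rw [e, hc]
  field_simp

theorem degLe_map {K L L' : Type} [Field K] [Field L] [Field L'] [Algebra K L] [Algebra K L']
    [Algebra L L'] [IsScalarTower K L L'] (N : ℕ) (p : L × L) (hp : RDF.DegLe K N p) :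
    RDF.DegLe K N (Prod.map (algebraMap L L') (algebraMap L L') p) := by
  obtain ⟨E, hE, h1, h2⟩ := hp
  refine ⟨E.map (IsScalarTower.toAlgHom K L L'), ?_, ⟨p.1, h1, rfl⟩, ⟨p.2, h2, rfl⟩⟩
  have e := (E.equivMap (IsScalarTower.toAlgHom K L L')).toLinearEquiv.finrank_eq
  exact e.symm.le.trans hE

end GLift

/-- Exact preperiodic lifts in a larger number field. -/
theorem exists_lifts {K : Type} [Field K] [NumberField K] (L : Type) [Field L] [NumberField L]
    [Algebra K L] (d N : ℕ) (hd : 2 ≤ d) (F G : (𝓞 K)[X])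
    (hF : F.natDegree ≤ d) (hG : G.natDegree ≤ d) (hR : resultant F G d d ≠ 0)
    (S : Finset (L × L))
    (hS : ∀ p ∈ S, Pool.Agent.RDF.DegLe K N p ∧ p ≠ 0 ∧ ∃ a b : ℕ, a < b ∧
      wedge ((lift d (F.map (algebraMap (𝓞 K) L)) (G.map (algebraMap (𝓞 K) L)))^[a] p)
        ((lift d (F.map (algebraMap (𝓞 K) L)) (G.map (algebraMap (𝓞 K) L)))^[b] p) = 0)
    (hw : ∀ p ∈ S, ∀ q ∈ S, p ≠ q → wedge p q ≠ 0) :
    ∃ (L' : Type) (_ : Field L') (_ : NumberField L') (_ : Algebra K L') (S' : Finset (L' × L')),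
      S'.card = S.card ∧ (∀ p ∈ S', PDegLe K N p ∧
        PreV d (F.map (algebraMap (𝓞 K) L')) (G.map (algebraMap (𝓞 K) L')) p) ∧
      ∀ p ∈ S', ∀ q ∈ S', p ≠ q → wedge p q ≠ 0 := by
  classical
  set F1 : L[X] := F.map (algebraMap (𝓞 K) L) with hF1
  set G1 : L[X] := G.map (algebraMap (𝓞 K) L) with hG1
  have hinj : Function.Injective (algebraMap (𝓞 K) L) := by
    have h1 : (algebraMap (𝓞 K) L : 𝓞 K → L) = fun x => algebraMap K L (algebraMap (𝓞 K) K x) := by
      ext x
      exact IsScalarTower.algebraMap_apply (𝓞 K) K L x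
    rw [h1]
    exact (algebraMap K L).injective.comp RingOfIntegers.coe_injective
  have hRL : resultant F1 G1 d d ≠ 0 := by
    rw [hF1, hG1, Polynomial.resultant_map_map]
    exact (map_ne_zero_iff _ hinj).2 hR
  have hFd : F1.natDegree ≤ d := natDegree_map_le.trans hF
  have hGd : G1.natDegree ≤ d := natDegree_map_le.trans hG
  have key : ∀ p : L × L, ∃ c : AlgebraicClosure L, c ≠ 0 ∧ (p ∈ S → ∃ (a b : ℕ) (g : L), a < b ∧
      c ^ (d ^ b) * algebraMap L (AlgebraicClosure L) g = c ^ (d ^ a) ∧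
      ∀ (E : Type) [Field E] (f : L →+* E) (c : E), c ≠ 0 → c ^ (d ^ b) * f g = c ^ (d ^ a) →
      (lift d (F1.map f) (G1.map f))^[a] (c • Prod.map f f p) =
        (lift d (F1.map f) (G1.map f))^[b] (c • Prod.map f f p)) := by
    intro p
    by_cases hp : p ∈ S
    · obtain ⟨-, hp0, a, b, hab, hw⟩ := hS p hp
      obtain ⟨g, hg, h⟩ := GLift.exists_scale d hd F1 G1 hFd hGd hRL p hp0 a b hw
      obtain ⟨c, hc, hcc⟩ := GLift.exists_root (A := AlgebraicClosure L) d hd a b hab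
        (algebraMap L (AlgebraicClosure L) g) ((_root_.map_ne_zero _).2 hg)
      exact ⟨c, hc, fun _ => ⟨a, b, g, hab, hcc, h⟩⟩
    · exact ⟨1, one_ne_zero, fun h => absurd h hp⟩
  choose c hc0 hc using key
  let L' := IntermediateField.adjoin L (c '' (S : Set (L × L)))
  have : Finite (c '' (S : Set (L × L))) := (S.finite_toSet.image c).to_subtype
  have hfin : FiniteDimensional L L' := IntermediateField.finiteDimensional_adjoin
    (fun x _ => Algebra.IsIntegral.isIntegral x)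
  have hnf : NumberField L' := NumberField.of_module_finite L L'
  let alg : Algebra K L' := ((algebraMap L L').comp (algebraMap K L)).toAlgebra
  have tower : IsScalarTower K L L' := IsScalarTower.of_algebraMap_eq fun _ => rfl
  have hex : ∀ p : L × L, ∃ c' : L', c' ≠ 0 ∧ (p ∈ S → (c' : AlgebraicClosure L) = c p) := by
    intro p
    by_cases hp : p ∈ S
    · refine ⟨⟨c p, IntermediateField.subset_adjoin _ _ ⟨p, hp, rfl⟩⟩, ?_, fun _ => rfl⟩
      intro h
      exact hc0 p (congrArg Subtype.val h)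
    · exact ⟨1, one_ne_zero, fun h => absurd h hp⟩
  choose c' hc'0 hc' using hex
  have hmap : ∀ P : (𝓞 K)[X], P.map (algebraMap (𝓞 K) L') =
      (P.map (algebraMap (𝓞 K) L)).map (algebraMap L L') := by
    intro P
    rw [Polynomial.map_map]
    congr 1
  let q : L × L → L' × L' := fun p => c' p • Prod.map (algebraMap L L') (algebraMap L L') p
  have hwq : ∀ p ∈ S, ∀ p' ∈ S, p ≠ p' → wedge (q p) (q p') ≠ 0 := by
    intro p hp p' hp' hne
    simp only [q]
    rw [RDF.wedge_smul_left, RDF.wedge_smul_right, ← RDF.wedge_map]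
    exact mul_ne_zero (hc'0 p) (mul_ne_zero (hc'0 p') ((_root_.map_ne_zero _).2 (hw p hp p' hp' hne)))
  have hinjq : Set.InjOn q (S : Set (L × L)) := by
    intro p hp p' hp' he
    by_contra hne
    refine hwq p hp p' hp' hne ?_
    rw [he]
    simp [wedge]
  refine ⟨L', inferInstance, hnf, alg, S.image q, Finset.card_image_of_injOn hinjq, ?_, ?_⟩
  · intro x hx
    obtain ⟨p, hp, rfl⟩ := Finset.mem_image.1 hx
    obtain ⟨hdeg, hp0, -⟩ := hS p hp
    obtain ⟨a, b, g, hab, hcc, h⟩ := hc p hp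
    refine ⟨⟨(c' p)⁻¹, inv_ne_zero (hc'0 p), ?_⟩, ?_, a, b, hab, ?_⟩
    · simp only [q]
      rw [inv_smul_smul₀ (hc'0 p)]
      exact GLift.degLe_map N p hdeg
    · simp only [q]
      refine smul_ne_zero (hc'0 p) fun h0 => hp0 ?_
      have h1 := congrArg Prod.fst h0
      have h2 := congrArg Prod.snd h0
      simp only [Prod.map_fst, Prod.map_snd, Prod.fst_zero, Prod.snd_zero, map_eq_zero] at h1 h2
      exact Prod.ext h1 h2
    · rw [hmap F, hmap G]
      refine h L' (algebraMap L L') (c' p) (hc'0 p) ?_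
      apply Subtype.coe_injective
      rw [hc' p hp |>.symm] at hcc
      exact hcc
  · intro x hx y hy hne
    obtain ⟨p, hp, rfl⟩ := Finset.mem_image.1 hx
    obtain ⟨p', hp', rfl⟩ := Finset.mem_image.1 hy
    exact hwq p hp p' hp' fun e => hne (by rw [e])

end Pool.Agent.RI
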