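import Mathlib
import Pool.Agent.RI.GDefs
import Pool.Agent.RI.GExw
import Pool.Agent.RI.GLocW
import Pool.Agent.RDF.NLoc
import Pool.Agent.RDF.Star

set_option autoImplicit false

/-!
# The local estimates over `Ω_v`
-/

namespace Pool.Agent.RI

open Polynomial NumberField IsDedekindDomain Pool.Agent.GPoly
open Pool.Agent.RDF (lift wedge form nrm UU mat Above DefectiveN coeffs)

section GLoc

namespace GLoc

/-- The transfer of an estimate at a place `w` of `L` to `Om`. -/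
theorem transfer (d : ℕ) (hd : 2 ≤ d) {K : Type} [Field K] [NumberField K] (F G : (𝓞 K)[X])
    (hF : F.natDegree ≤ d) (hG : G.natDegree ≤ d) (hR : resultant F G d d ≠ 0)
    (v : HeightOneSpectrum (𝓞 K)) (Om : Type) [NormedField Om]
    [Algebra K Om] (h : ∀ x : K, ‖algebraMap K Om x‖ = av v x)
    (L : Type) [Field L] [NumberField L] [Algebra K L] (φ : L →ₐ[K] Om) (m : ℕ)
    (z : Fin (d ^ m) → L × L)
    (hz : ∀ i, PreV d (F.map (algebraMap (𝓞 K) L)) (G.map (algebraMap (𝓞 K) L)) (z i))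
    (hw : ∀ i j, i ≠ j → wedge (z i) (z j) ≠ 0)
    (w : HeightOneSpectrum (𝓞 L)) (θ : ℝ) (hθ : 0 < θ)
    (hφ : ∀ x : L, Real.log ‖φ x‖ = θ * Real.log (av w x)) (B : ℝ)
    (hB : Real.log (av w (mat d m (F.map (algebraMap (𝓞 K) L)) (G.map (algebraMap (𝓞 K) L)) z).det) ≤
      ∑ i, UU (av w) d m (F.map (algebraMap (𝓞 K) L)) (G.map (algebraMap (𝓞 K) L)) (z i) -
        B * (-Real.log (av w (algebraMap (𝓞 K) L (resultant F G d d))))) :
    ∑ i, ∑ j ∈ Finset.univ.erase i, Real.log ‖φ (wedge (z i) (z j))‖ ≤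
      ((d : ℝ) ^ m * ((d : ℝ) ^ m - 1)) *
        (-Real.log (av v (algebraMap (𝓞 K) K (resultant F G d d))) / (d * (d - 1))) +
      2 * m * (d : ℝ) ^ m *
        (-Real.log (av v (algebraMap (𝓞 K) K (resultant F G d d)))) -
      2 * B * (-Real.log (av v (algebraMap (𝓞 K) K (resultant F G d d)))) := by
  have hinj : Function.Injective (algebraMap (𝓞 K) L) := by
    rw [IsScalarTower.algebraMap_eq (𝓞 K) K L]
    exact (algebraMap K L).injective.comp RingOfIntegers.coe_injective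
  have hRL : resultant (F.map (algebraMap (𝓞 K) L)) (G.map (algebraMap (𝓞 K) L)) d d =
      algebraMap (𝓞 K) L (resultant F G d d) := resultant_map_map _ _ _ _ _
  have hRL0 : resultant (F.map (algebraMap (𝓞 K) L)) (G.map (algebraMap (𝓞 K) L)) d d ≠ 0 := by
    rw [hRL]
    exact (map_ne_zero_iff _ hinj).mpr hR
  have h1 := of_det (av w) (av_nonarch w) hd (F := F.map (algebraMap (𝓞 K) L))
    (G := G.map (algebraMap (𝓞 K) L)) (natDegree_map_le.trans hF) (natDegree_map_le.trans hG)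
    hRL0 (fun i => by rw [coeff_map]; exact RDF.above_le_one w _)
    (fun i => by rw [coeff_map]; exact RDF.above_le_one w _)
    (by rw [hRL]; exact RDF.above_le_one w _) m z hz hw _ hB
  rw [hRL] at h1
  have h2 : θ * Real.log (av w (algebraMap (𝓞 K) L (resultant F G d d))) =
      Real.log (av v (algebraMap (𝓞 K) K (resultant F G d d))) := by
    rw [← hφ, ← h, RDF.algebraMap_int', AlgHom.commutes]
  have h3 := mul_le_mul_of_nonneg_left h1 hθ.le
  have h4 : θ * ∑ i, ∑ j ∈ Finset.univ.erase i, Real.log (av w (wedge (z i) (z j))) =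
      ∑ i, ∑ j ∈ Finset.univ.erase i, Real.log ‖φ (wedge (z i) (z j))‖ := by
    rw [Finset.mul_sum]
    refine Finset.sum_congr rfl fun i _ => ?_
    rw [Finset.mul_sum]
    exact Finset.sum_congr rfl fun j _ => (hφ _).symm
  rw [h4] at h3
  refine h3.trans (le_of_eq ?_)
  rw [← h2]
  ring

end GLoc

/-- The defect at a defective prime. -/
theorem loc_def (d N k : ℕ) (hd : 2 ≤ d) : ∃ κ A : ℝ, 0 < κ ∧ 0 ≤ A ∧
    ∀ (K : Type) [Field K] [NumberField K] (F G : (𝓞 K)[X]), F.natDegree ≤ d → G.natDegree ≤ d →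
    resultant F G d d ≠ 0 → ∀ v : HeightOneSpectrum (𝓞 K), resultant F G d d ∈ v.asIdeal →
    DefectiveN d N k F G v →
    ∀ (Om : Type) [NormedField Om] [IsUltrametricDist Om] [Algebra K Om],
    (∀ x : K, ‖algebraMap K Om x‖ = av v x) →
    ∀ (L : Type) [Field L] [NumberField L] [Algebra K L] (φ : L →ₐ[K] Om) (m : ℕ)
      (z : Fin (d ^ m) → L × L),
    (∀ i, PDegLe K N (z i) ∧
      PreV d (F.map (algebraMap (𝓞 K) L)) (G.map (algebraMap (𝓞 K) L)) (z i)) →
    (∀ i j, i ≠ j → wedge (z i) (z j) ≠ 0) →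
    ∑ i, ∑ j ∈ Finset.univ.erase i, Real.log ‖φ (wedge (z i) (z j))‖ ≤
      ((d : ℝ) ^ m * ((d : ℝ) ^ m - 1)) *
        (-Real.log (av v (algebraMap (𝓞 K) K (resultant F G d d))) / (d * (d - 1))) -
      (κ * ((d : ℝ) ^ m) ^ 2 - A * (m + 1) * (d : ℝ) ^ m) *
        (-Real.log (av v (algebraMap (𝓞 K) K (resultant F G d d)))) := by
  obtain ⟨κ, A, hκ, hA, hloc⟩ := RDF.local_defect_N d N k hd
  refine ⟨2 * κ, 2 * A + 2, by linarith, by linarith, ?_⟩
  intro K _ _ F G hF hG hR v hv hdef Om _ _ _ h L _ _ _ φ m z hz hw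
  have hinj : Function.Injective (algebraMap (𝓞 K) L) := by
    rw [IsScalarTower.algebraMap_eq (𝓞 K) K L]
    exact (algebraMap K L).injective.comp RingOfIntegers.coe_injective
  have hRL : resultant (F.map (algebraMap (𝓞 K) L)) (G.map (algebraMap (𝓞 K) L)) d d =
      algebraMap (𝓞 K) L (resultant F G d d) := resultant_map_map _ _ _ _ _
  have hRL0 : resultant (F.map (algebraMap (𝓞 K) L)) (G.map (algebraMap (𝓞 K) L)) d d ≠ 0 := by
    rw [hRL]
    exact (map_ne_zero_iff _ hinj).mpr hR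
  obtain ⟨w, hvw, -, -, θ, hθ, hφ⟩ := exists_w v Om h φ
  choose c hc hcN using fun i => (hz i).1
  have hw' : ∀ i j, i ≠ j → wedge (c i • z i) (c j • z j) ≠ 0 := by
    intro i j hij
    rw [RDF.wedge_smul_left, RDF.wedge_smul_right]
    exact mul_ne_zero (hc i) (mul_ne_zero (hc j) (hw i j hij))
  have h1 := hloc K L F G hF hG hR v w hvw hv hdef m (fun i => c i • z i)
    (fun i => smul_ne_zero (hc i) (hz i).2.1) hcN hw'
  have h2 := RDF.of_smul (av w) d m (by omega) (F.map (algebraMap (𝓞 K) L))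
    (G.map (algebraMap (𝓞 K) L)) (natDegree_map_le.trans hF) (natDegree_map_le.trans hG) hRL0 _
    z (fun i => (hz i).2.1) hw c hc h1
  have h3 := GLoc.transfer d hd F G hF hG hR v Om h L φ m z (fun i => (hz i).2) hw w θ hθ hφ _ h2
  refine h3.trans ?_
  have hρ : 0 ≤ -Real.log (av v (algebraMap (𝓞 K) K (resultant F G d d))) := by
    have := Real.log_nonpos ((av v).nonneg _) (av_int_le_one v (resultant F G d d))
    linarith
  have hT : (0 : ℝ) ≤ (d : ℝ) ^ m := by positivity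
  nlinarith [mul_nonneg hT hρ]

/-- The generic bound, at any finite prime. -/
theorem loc_gen (d : ℕ) (hd : 2 ≤ d) {K : Type} [Field K] [NumberField K] (F G : (𝓞 K)[X])
    (hF : F.natDegree ≤ d) (hG : G.natDegree ≤ d) (hR : resultant F G d d ≠ 0)
    (v : HeightOneSpectrum (𝓞 K)) (Om : Type) [NormedField Om] [IsUltrametricDist Om]
    [Algebra K Om] (h : ∀ x : K, ‖algebraMap K Om x‖ = av v x)
    (L : Type) [Field L] [NumberField L] [Algebra K L] (φ : L →ₐ[K] Om) (m : ℕ)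
    (z : Fin (d ^ m) → L × L)
    (hz : ∀ i, PreV d (F.map (algebraMap (𝓞 K) L)) (G.map (algebraMap (𝓞 K) L)) (z i))
    (hw : ∀ i j, i ≠ j → wedge (z i) (z j) ≠ 0) :
    ∑ i, ∑ j ∈ Finset.univ.erase i, Real.log ‖φ (wedge (z i) (z j))‖ ≤
      ((d : ℝ) ^ m * ((d : ℝ) ^ m - 1)) *
        (-Real.log (av v (algebraMap (𝓞 K) K (resultant F G d d))) / (d * (d - 1))) +
      2 * m * (d : ℝ) ^ m *
        (-Real.log (av v (algebraMap (𝓞 K) K (resultant F G d d)))) := by
  have hinj : Function.Injective (algebraMap (𝓞 K) L) := by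
    rw [IsScalarTower.algebraMap_eq (𝓞 K) K L]
    exact (algebraMap K L).injective.comp RingOfIntegers.coe_injective
  have hRL : resultant (F.map (algebraMap (𝓞 K) L)) (G.map (algebraMap (𝓞 K) L)) d d =
      algebraMap (𝓞 K) L (resultant F G d d) := resultant_map_map _ _ _ _ _
  have hRL0 : resultant (F.map (algebraMap (𝓞 K) L)) (G.map (algebraMap (𝓞 K) L)) d d ≠ 0 := by
    rw [hRL]
    exact (map_ne_zero_iff _ hinj).mpr hR
  have hFd : (F.map (algebraMap (𝓞 K) L)).natDegree ≤ d := natDegree_map_le.trans hF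
  have hGd : (G.map (algebraMap (𝓞 K) L)).natDegree ≤ d := natDegree_map_le.trans hG
  obtain ⟨w, -, -, -, θ, hθ, hφ⟩ := exists_w v Om h φ
  have h1 := RDF.log_det_le (av w) (av_nonarch w) d m (by omega) _ _ z
    (fun i l => RDF.iter_ne_zero d (by omega) _ _ hFd hGd hRL0 l (hz i).1)
    (RDF.det_mat_ne_zero d m (by omega) _ _ hFd hGd hRL0 z hw)
  have h3 := GLoc.transfer d hd F G hF hG hR v Om h L φ m z hz hw w θ hθ hφ 0
    (by rw [zero_mul, sub_zero]; exact h1)
  linarith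

end GLoc

end Pool.Agent.RI
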