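import Pool.Agent.RI.LocT
import Pool.Agent.RI.GHarm
import Pool.Agent.RI.GPat
import Pool.Agent.RI.GKey
import Pool.Agent.RI.GExtr
import Pool.Agent.RI.GExw
import Pool.Agent.RI.GLoc
import Pool.Agent.RI.GLift
import Pool.Agent.RI.GIneq

set_option autoImplicit false

/-!
# Theorem R-infinity: the proof
-/

namespace Pool.Agent.RI

open Polynomial NumberField IsDedekindDomain Pool.Agent.GPoly
open Pool.Agent.RDF (lift wedge form nrm UU mat Above DefectiveN coeffs)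

/-- The choice of `m`. -/
theorem exists_mm (d k : ℕ) (hd : 2 ≤ d) (κ A : ℝ) (hκ : 0 < κ) (T₁ : ℕ) : ∃ m : ℕ,
    T₁ ≤ d ^ m ∧ 1 ≤ d ^ m ∧ 2 * m * (d : ℝ) ^ m * k ≤
      κ * ((d : ℝ) ^ m) ^ 2 - A * (m + 1) * (d : ℝ) ^ m := by
  have hd1 : (1 : ℝ) < d := by exact_mod_cast (by omega : 1 < d)
  have h1 : Filter.Tendsto (fun m : ℕ => (m : ℝ) / (d : ℝ) ^ m) Filter.atTop (nhds 0) := by
    have := tendsto_pow_const_div_const_pow_of_one_lt 1 hd1
    simpa using this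
  have h2 : Filter.Tendsto (fun m : ℕ => (1 : ℝ) / (d : ℝ) ^ m) Filter.atTop (nhds 0) := by
    have := tendsto_pow_const_div_const_pow_of_one_lt 0 hd1
    simpa using this
  have h3 : Filter.Tendsto (fun m : ℕ => (2 * k + |A|) * ((m : ℝ) / (d : ℝ) ^ m) +
      |A| * ((1 : ℝ) / (d : ℝ) ^ m)) Filter.atTop (nhds 0) := by
    have := (h1.const_mul (2 * (k : ℝ) + |A|)).add (h2.const_mul |A|)
    simpa using this
  have h4 : ∀ᶠ m : ℕ in Filter.atTop, (2 * k + |A|) * ((m : ℝ) / (d : ℝ) ^ m) +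
      |A| * ((1 : ℝ) / (d : ℝ) ^ m) < κ := h3.eventually (gt_mem_nhds hκ)
  have h5 : ∀ᶠ m : ℕ in Filter.atTop, T₁ ≤ m := Filter.eventually_ge_atTop T₁
  obtain ⟨m, h6, h7⟩ := (h4.and h5).exists
  have hdm : (0 : ℝ) < (d : ℝ) ^ m := by positivity
  refine ⟨m, h7.trans (Nat.lt_pow_self (by omega)).le, Nat.one_le_pow _ _ (by omega), ?_⟩
  have h8 : (2 * k + |A|) * m + |A| < κ * (d : ℝ) ^ m := by
    have := mul_lt_mul_of_pos_right h6 hdm
    have e : ((2 * k + |A|) * ((m : ℝ) / (d : ℝ) ^ m) + |A| * ((1 : ℝ) / (d : ℝ) ^ m)) *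
        (d : ℝ) ^ m = (2 * k + |A|) * m + |A| := by
      field_simp
    rwa [e] at this
  have h9 : A * (m + 1) ≤ |A| * (m + 1) :=
    mul_le_mul_of_nonneg_right (le_abs_self A) (by positivity)
  nlinarith [mul_le_mul_of_nonneg_right h8.le hdm.le, mul_le_mul_of_nonneg_right h9 hdm.le]

variable {K : Type} [Field K] [NumberField K]

/-- The tuple of conjugates over one place. -/
def Tup (E : Type) [Field E] [Algebra K E] {N M : ℕ} {L : Type} [Field L] [Algebra K L]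
    (s : Fin M → Fin N → (L →ₐ[K] E)) (x : Fin M → L × L) (i : Fin M) (a : Fin N) : E × E :=
  Prod.map (s i a) (s i a) (x i)

theorem map_algHom (E : Type) [Field E] [Algebra K E] (L : Type) [Field L] [Algebra K L]
    (F : (𝓞 K)[X]) (φ : L →ₐ[K] E) :
    (F.map (algebraMap (𝓞 K) L)).map (φ : L →+* E) = F.map (algebraMap (𝓞 K) E) := by
  rw [Polynomial.map_map]
  congr 1
  ext a
  show φ (algebraMap K L (algebraMap (𝓞 K) K a)) = algebraMap K E (algebraMap (𝓞 K) K a)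
  exact φ.commutes _

theorem wedge_prodMap {R S : Type*} [CommRing R] [CommRing S] (f : R →+* S) (p q : R × R) :
    wedge (Prod.map f f p) (Prod.map f f q) = f (wedge p q) := by
  simp [wedge]

/-- From the patterns to the embeddings, at one place. -/
theorem place_bound (E : Type) [NormedField E] [IsAlgClosed E] [Algebra K E] (N d : ℕ)
    (hN : 1 ≤ N) (hd : 2 ≤ d) (F G : (𝓞 K)[X]) (hF : F.natDegree ≤ d) (hG : G.natDegree ≤ d)
    (hR : resultant F G d d ≠ 0) (L : Type) [Field L] [NumberField L] [Algebra K L] {M : ℕ}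
    (x : Fin M → L × L) (hxN : ∀ i, PDegLe K N (x i))
    (hxP : ∀ i, PreV d (F.map (algebraMap (𝓞 K) L)) (G.map (algebraMap (𝓞 K) L)) (x i))
    (hxc : ∀ (φ ψ : L →ₐ[K] E) (i j : Fin M), i ≠ j →
      wedge (Prod.map φ φ (x i)) (Prod.map ψ ψ (x j)) ≠ 0)
    (f : ℕ → ℕ) (T₀ : ℕ) (B : ℕ → ℝ)
    (hloc : ∀ T : ℕ, ∀ (z : Fin M → Fin N → E × E) (U : Finset (Fin M)), f T ≤ U.card →
      (∀ i ∈ U, ∀ a, PreV d (F.map (algebraMap (𝓞 K) E)) (G.map (algebraMap (𝓞 K) E)) (z i a)) →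
      (∀ i ∈ U, ∀ j ∈ U, i ≠ j → ∀ a b, wedge (z i a) (z j b) ≠ 0) →
      ∃ U' ⊆ U, U'.card = T ∧ ∀ Y ⊆ U', T₀ ≤ Y.card → ∀ a : Fin M → Fin N,
        ∑ i ∈ Y, ∑ j ∈ Y.erase i, Real.log ‖wedge (z i (a i)) (z j (a j))‖ ≤ B Y.card) :
    ∃ P : Finset (Fin M) → Prop, (∀ U' U'' : Finset (Fin M), U'' ⊆ U' → P U' → P U'') ∧
      (∀ T : ℕ, ∀ U : Finset (Fin M), f T ≤ U.card → ∃ U' ⊆ U, U'.card = T ∧ P U') ∧
      ∀ U : Finset (Fin M), P U → T₀ ≤ U.card → ∀ φ : L →ₐ[K] E,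
        ∑ i ∈ U, ∑ j ∈ U.erase i, Real.log ‖φ (wedge (x i) (x j))‖ ≤ B U.card := by
  have hpat := fun i => pattern L E N hN d hd F G hF hG hR (x i) (hxP i) (hxN i)
  choose s hs using hpat
  refine ⟨fun U => ∀ Y ⊆ U, T₀ ≤ Y.card → ∀ a : Fin M → Fin N,
    ∑ i ∈ Y, ∑ j ∈ Y.erase i, Real.log ‖wedge (Tup E s x i (a i)) (Tup E s x j (a j))‖ ≤
      B Y.card, ?_, ?_, ?_⟩
  · intro U' U'' hU h Y hY
    exact h Y (hY.trans hU)
  · intro T U hU
    refine hloc T (Tup E s x) U hU ?_ ?_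
    · intro i _ a
      have h1 := (hxP i).map (s i a : L →+* E)
      rw [map_algHom, map_algHom] at h1
      exact h1
    · intro i _ j _ hij a b
      exact hxc _ _ i j hij
  · intro U hP hU φ
    choose a u hu hau using fun i => hs i φ
    refine le_trans (le_of_eq ?_) (hP U (Finset.Subset.refl U) hU a)
    refine Finset.sum_congr rfl fun i _ => Finset.sum_congr rfl fun j _ => ?_
    congr 1
    have h1 : φ (wedge (x i) (x j)) =
        u i * u j * wedge (Tup E s x i (a i)) (Tup E s x j (a j)) := by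
      have h2 := wedge_prodMap (φ : L →+* E) (x i) (x j)
      have h3 : wedge (Prod.map φ φ (x i)) (Prod.map φ φ (x j)) = φ (wedge (x i) (x j)) := h2
      rw [← h3, hau i, hau j]
      simp only [wedge, Tup, Prod.smul_fst, Prod.smul_snd, smul_eq_mul]
      ring
    rw [h1, norm_mul, norm_mul, hu, hu, one_mul, one_mul]

theorem sum_equiv {α : Type} [DecidableEq α] (U : Finset α) {T : ℕ} (e : Fin T ≃ U)
    (h : α → α → ℝ) :
    ∑ i, ∑ j ∈ Finset.univ.erase i, h (e i) (e j) = ∑ i ∈ U, ∑ j ∈ U.erase i, h i j := by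
  have key : ∀ (H : α → ℝ), ∑ i, H (e i) = ∑ i ∈ U, H i := by
    intro H
    rw [← Finset.sum_coe_sort U H]
    exact Equiv.sum_comp e (fun i : U => H i)
  have h1 : ∀ i : Fin T, ∑ j ∈ Finset.univ.erase i, h (e i) (e j) =
      ∑ j ∈ U.erase (e i : α), h (e i) j := by
    intro i
    have h2 := Finset.add_sum_erase Finset.univ (fun j => h (e i) (e j)) (Finset.mem_univ i)
    have h3 := Finset.add_sum_erase U (fun j => h (e i) j) (e i).2
    have h4 := key (fun j => h (e i) j)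
    linarith
  rw [Finset.sum_congr rfl fun i _ => h1 i]
  exact key (fun i => ∑ j ∈ U.erase i, h i j)

theorem Pow_cast (d m : ℕ) : ((d ^ m : ℕ) : ℝ) = (d : ℝ) ^ m := by push_cast; rfl

/-- THEOREM R-infinity. -/
theorem main_RI (D N d k s : ℕ) (hd : 2 ≤ d) : ∃ C : ℕ,
    ∀ (K : Type) [Field K] [NumberField K], Module.finrank ℚ K ≤ D →
    ∀ F G : (𝓞 K)[X], F.natDegree ≤ d → G.natDegree ≤ d → resultant F G d d ≠ 0 →
    ∀ I M J : Ideal (𝓞 K), I * M = Ideal.span {resultant F G d d} →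
    {v : HeightOneSpectrum (𝓞 K) |
      v.asIdeal ∣ M ∧ ¬ DefectiveN d N k F G v ∧ ¬ PotGood d F G v}.ncard ≤ s →
    J ∣ Ideal.span {resultant F G d d} →
    (∀ v : HeightOneSpectrum (𝓞 K), v.asIdeal ∣ J → DefectiveN d N k F G v) →
    Ideal.absNorm I ≤ Ideal.absNorm J ^ k →
    ∀ (L : Type) [Field L] [NumberField L] [Algebra K L], ∀ S : Finset (L × L),
      (∀ p ∈ S, Pool.Agent.RDF.DegLe K N p ∧ p ≠ 0 ∧ ∃ a b : ℕ, a < b ∧
        wedge ((lift d (F.map (algebraMap (𝓞 K) L)) (G.map (algebraMap (𝓞 K) L)))^[a] p)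
          ((lift d (F.map (algebraMap (𝓞 K) L)) (G.map (algebraMap (𝓞 K) L)))^[b] p) = 0) →
      (∀ p ∈ S, ∀ q ∈ S, p ≠ q → wedge p q ≠ 0) → S.card ≤ C := by
  rcases Nat.eq_zero_or_pos N with rfl | hN
  · refine ⟨0, ?_⟩
    intro K _ _ _ F G _ _ _ I M J _ _ _ _ _ L _ _ _ S hS _
    rw [Nat.le_zero, Finset.card_eq_zero, Finset.eq_empty_iff_forall_notMem]
    intro p hp
    obtain ⟨⟨E, hE, -, -⟩, -⟩ := hS p hp
    haveI : FiniteDimensional K L := FiniteDimensional.right ℚ K L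
    have : 0 < Module.finrank K E := Module.finrank_pos
    omega
  obtain ⟨C₀, T₁, hC₀, hexc⟩ := loc_exc d N hd hN
  choose f₁ hf₁ using hexc
  obtain ⟨T₂, hcx⟩ := loc_cplx d N hd hN (s * C₀ + 1)
  choose f₂ hf₂ using hcx
  obtain ⟨κ, A, hκ, hA, hdefb⟩ := loc_def d N k hd
  obtain ⟨m, hm1, hm2, hm3⟩ := exists_mm d k hd κ A hκ (max T₁ T₂)
  obtain ⟨M₁, hM₁⟩ := extract f₂ D (d ^ m)
  obtain ⟨M₂, hM₂⟩ := extract f₁ s M₁
  refine ⟨N * M₂, ?_⟩
  intro K _ _ hK F G hF hG hR I M J hIM hs hJ hdef hnorm L₀ _ _ _ S₀ hS₀ hw₀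
  classical
  by_contra hcon
  rw [not_le] at hcon
  obtain ⟨L, _, _, _, S, hScard, hS, hw⟩ := exists_lifts L₀ d N hd F G hF hG hR S₀ hS₀ hw₀
  obtain ⟨x, hxS, hxc⟩ := nonconj L N M₂ hN S (by omega) (fun p hp => (hS p hp).2.1)
    (fun p hp => (hS p hp).1) hw
  haveI : FiniteDimensional K L := FiniteDimensional.right ℚ K L
  have hxN : ∀ i, PDegLe K N (x i) := fun i => (hS _ (hxS i)).1
  have hxP : ∀ i, PreV d (F.map (algebraMap (𝓞 K) L)) (G.map (algebraMap (𝓞 K) L)) (x i) :=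
    fun i => (hS _ (hxS i)).2
  set r : 𝓞 K := resultant F G d d with hr
  have hspan : Ideal.span {r} ≠ 0 := by
    rw [Ne, Ideal.zero_eq_bot, Ideal.span_singleton_eq_bot]
    exact hR
  have hM0 : M ≠ 0 := by
    rintro rfl
    rw [mul_zero] at hIM
    exact hspan hIM.symm
  have hfinM := Ideal.finite_factors hM0
  have hfin : {v : HeightOneSpectrum (𝓞 K) |
      v.asIdeal ∣ M ∧ ¬ DefectiveN d N k F G v ∧ ¬ PotGood d F G v}.Finite :=
    hfinM.subset fun v hv => hv.1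
  set E : Finset (HeightOneSpectrum (𝓞 K)) := hfin.toFinset with hEdef
  have hEs : E.card ≤ s := by
    rw [hEdef, ← Set.ncard_eq_toFinset_card _ hfin]
    exact hs
  -- the fields `Om v`
  choose Om i1 i2 i3 i4 hOm using fun v : HeightOneSpectrum (𝓞 K) => PQ.exists_Om v
  have hResE : ∀ (E : Type) [Field E] [Algebra K E],
      resultant (F.map (algebraMap (𝓞 K) E)) (G.map (algebraMap (𝓞 K) E)) d d =
        algebraMap K E (algebraMap (𝓞 K) K r) := by
    intro E _ _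
    rw [resultant_map_map]
    rfl
  have hrK : algebraMap (𝓞 K) K r ≠ 0 :=
    (map_ne_zero_iff _ (RingOfIntegers.coe_injective)).mpr hR
  have hResE0 : ∀ (E : Type) [Field E] [Algebra K E],
      resultant (F.map (algebraMap (𝓞 K) E)) (G.map (algebraMap (𝓞 K) E)) d d ≠ 0 := by
    intro E _ _
    rw [hResE]
    exact (map_ne_zero_iff _ (algebraMap K E).injective).mpr hrK
  -- the exceptional places
  have hP := fun v : HeightOneSpectrum (𝓞 K) => place_bound (Om v) N d hN hd F G hF hG hR L x hxN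
    hxP (fun φ ψ i j hij => hxc (Om v) φ ψ i j hij) f₁ T₁
    (fun T => (T * (T - 1) : ℝ) * (wt v r / (d * (d - 1))) + C₀ * (T : ℝ) ^ 2)
    (by
      intro T z U hU hz hzw
      obtain ⟨U', h1, h2, h3⟩ := hf₁ T (Om v) (PQ.exists_one_lt v (Om v) (hOm v))
        (F.map (algebraMap (𝓞 K) (Om v))) (G.map (algebraMap (𝓞 K) (Om v)))
        (natDegree_map_le.trans hF) (natDegree_map_le.trans hG) (hResE0 _) (Fin M₂) z U hU hz hzw
      refine ⟨U', h1, h2, fun Y hY hYc a => ?_⟩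
      have h4 := h3 Y hY hYc a
      rw [hResE, hOm] at h4
      exact h4)
  choose P hP1 hP2 hP3 using hP
  obtain ⟨U₁, -, hU₁c, hU₁P⟩ := hM₂ E hEs P (Finset.univ : Finset (Fin M₂)) hP1
    (fun v _ T' U' _ h => hP2 v T' U' h) (by rw [Finset.card_univ, Fintype.card_fin])
  -- the infinite places
  have hQ := fun σ : K →+* ℂ => (by
    letI : Algebra K ℂ := σ.toAlgebra
    exact place_bound ℂ N d hN hd F G hF hG hR L x hxN
      hxP (fun φ ψ i j hij => hxc ℂ φ ψ i j hij) f₂ T₂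
      (fun T => (T * (T - 1) : ℝ) * (-Real.log ‖σ (algebraMap (𝓞 K) K r)‖ / (d * (d - 1))) -
        (s * C₀ + 1) * (T : ℝ) ^ 2)
      (by
        intro T z U hU hz hzw
        obtain ⟨U', h1, h2, h3⟩ := hf₂ T
          (F.map (algebraMap (𝓞 K) ℂ)) (G.map (algebraMap (𝓞 K) ℂ))
          (natDegree_map_le.trans hF) (natDegree_map_le.trans hG) (hResE0 _) (Fin M₂) z U hU hz
          hzw
        refine ⟨U', h1, h2, fun Y hY hYc a => ?_⟩
        have h4 := h3 Y hY hYc a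
        rw [hResE] at h4
        exact h4) :
    letI : Algebra K ℂ := σ.toAlgebra
    ∃ P : Finset (Fin M₂) → Prop, (∀ U' U'' : Finset (Fin M₂), U'' ⊆ U' → P U' → P U'') ∧
      (∀ T : ℕ, ∀ U : Finset (Fin M₂), f₂ T ≤ U.card → ∃ U' ⊆ U, U'.card = T ∧ P U') ∧
      ∀ U : Finset (Fin M₂), P U → T₂ ≤ U.card → ∀ φ : L →ₐ[K] ℂ,
        ∑ i ∈ U, ∑ j ∈ U.erase i, Real.log ‖φ (wedge (x i) (x j))‖ ≤
          (U.card * (U.card - 1) : ℝ) *
            (-Real.log ‖σ (algebraMap (𝓞 K) K r)‖ / (d * (d - 1))) -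
            (s * C₀ + 1) * (U.card : ℝ) ^ 2)
  choose Q hQ1 hQ2 hQ3 using hQ
  obtain ⟨U, hU, hUc, hUP⟩ := hM₁ (Finset.univ : Finset (K →+* ℂ))
    (by rw [Finset.card_univ, NumberField.Embeddings.card]; exact hK) Q U₁ hQ1
    (fun v _ T' U' _ h => hQ2 v T' U' h) hU₁c.ge
  have hUE : ∀ v ∈ E, P v U := fun v hv => hP1 v U₁ U hU (hU₁P v hv)
  let e : Fin (d ^ m) ≃ U := (Finset.equivFinOfCardEq hUc).symm
  set z : Fin (d ^ m) → L × L := fun i => x (e i) with hz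
  have hinjx : ∀ i j : Fin (d ^ m), i ≠ j → ((e i : Fin M₂) ≠ e j) := fun i j hij h =>
    hij (e.injective (Subtype.ext h))
  have hzw : ∀ i j, i ≠ j → wedge (z i) (z j) ≠ 0 := by
    intro i j hij h0
    let φ : L →ₐ[K] AlgebraicClosure L := IsScalarTower.toAlgHom K L (AlgebraicClosure L)
    refine hxc (AlgebraicClosure L) φ φ _ _ (hinjx i j hij) ?_
    have h2 := wedge_prodMap (φ : L →+* AlgebraicClosure L) (z i) (z j)
    rw [h0, map_zero] at h2
    exact h2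
  have hzP : ∀ i, PreV d (F.map (algebraMap (𝓞 K) L)) (G.map (algebraMap (𝓞 K) L)) (z i) :=
    fun i => hxP _
  have hzN : ∀ i, PDegLe K N (z i) := fun i => hxN _
  have hT := Pow_cast d m
  have key := ineq_RI r hR d k s (DefectiveN d N k F G) (PotGood d F G) I M J hIM hs hJ hdef
    hnorm L (fun i j => wedge (z i) (z j)) hzw
    (κ * ((d : ℝ) ^ m) ^ 2 - A * (m + 1) * (d : ℝ) ^ m) (2 * m * (d : ℝ) ^ m) C₀ (s * C₀ + 1)
    hC₀ (le_trans (by positivity) hm3) (by positivity) hm3 ?_ ?_ ?_ ?_ ?_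
  · have h1 : (1 : ℝ) ≤ Module.finrank ℚ K := by
      exact_mod_cast (Module.finrank_pos : 0 < Module.finrank ℚ K)
    have h2 : (1 : ℝ) ≤ ((d ^ m : ℕ) : ℝ) := by exact_mod_cast hm2
    have h3 : 0 ≤ s * C₀ := by positivity
    have h4 : (s * C₀ + 1) * ((d ^ m : ℕ) : ℝ) ^ 2 ≤
        Module.finrank ℚ K * ((s * C₀ + 1) * ((d ^ m : ℕ) : ℝ) ^ 2) :=
      le_mul_of_one_le_left (by positivity) h1
    have h5 : 0 < ((d ^ m : ℕ) : ℝ) ^ 2 := by positivity
    nlinarith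
  · intro v hv hrv
    have h1 : ∀ φ : L →ₐ[K] Om v, ∑ i, ∑ j ∈ Finset.univ.erase i,
        Real.log ‖φ (wedge (z i) (z j))‖ ≤
        (((d ^ m : ℕ) : ℝ) * (((d ^ m : ℕ) : ℝ) - 1)) * (wt v r / (d * (d - 1))) -
          (κ * ((d : ℝ) ^ m) ^ 2 - A * (m + 1) * (d : ℝ) ^ m) * wt v r := by
      intro φ
      rw [hT]
      exact hdefb K F G hF hG hR v hrv hv (Om v) (hOm v) L φ m z
        (fun i => ⟨hzN i, hzP i⟩) hzw
    have h2 := local_sumD (Om v) L _ hzw _ h1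
    simpa only [hOm v] using h2
  · intro v hvM hv1 hv2
    have hvE : v ∈ E := by
      rw [hEdef, Set.Finite.mem_toFinset]
      exact ⟨hvM, hv1, hv2⟩
    have h1 : ∀ φ : L →ₐ[K] Om v, ∑ i, ∑ j ∈ Finset.univ.erase i,
        Real.log ‖φ (wedge (z i) (z j))‖ ≤
        (((d ^ m : ℕ) : ℝ) * (((d ^ m : ℕ) : ℝ) - 1)) * (wt v r / (d * (d - 1))) +
          C₀ * ((d ^ m : ℕ) : ℝ) ^ 2 := by
      intro φ
      have h2 := hP3 v U (hUE v hvE) (by rw [hUc]; exact (le_max_left _ _).trans hm1) φ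
      rw [hUc] at h2
      rw [sum_equiv U e (fun i j => Real.log ‖φ (wedge (x i) (x j))‖)]
      exact h2
    have h2 := local_sumD (Om v) L _ hzw _ h1
    simpa only [hOm v] using h2
  · intro v hv
    have h1 : ∀ φ : L →ₐ[K] Om v, ∑ i, ∑ j ∈ Finset.univ.erase i,
        Real.log ‖φ (wedge (z i) (z j))‖ ≤
        (((d ^ m : ℕ) : ℝ) * (((d ^ m : ℕ) : ℝ) - 1)) * (wt v r / (d * (d - 1))) := by
      intro φ
      have h2 : ∀ i j, wedge (Prod.map φ φ (z i)) (Prod.map φ φ (z j)) =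
          φ (wedge (z i) (z j)) := fun i j => wedge_prodMap (φ : L →+* Om v) (z i) (z j)
      have h3 := loc_harm d hd F G hF hG hR v hv (Om v) (hOm v) (d ^ m)
        (fun i => Prod.map φ φ (z i))
        (fun i => by
          have h4 := (hzP i).map (φ : L →+* Om v)
          rw [map_algHom, map_algHom] at h4
          exact h4)
        (fun i j hij => by
          rw [h2]
          exact (map_ne_zero_iff _ φ.toRingHom.injective).mpr (hzw i j hij))
      simp only [h2] at h3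
      exact h3
    have h2 := local_sumD (Om v) L _ hzw _ h1
    simpa only [hOm v] using h2
  · intro v
    have h1 : ∀ φ : L →ₐ[K] Om v, ∑ i, ∑ j ∈ Finset.univ.erase i,
        Real.log ‖φ (wedge (z i) (z j))‖ ≤
        (((d ^ m : ℕ) : ℝ) * (((d ^ m : ℕ) : ℝ) - 1)) * (wt v r / (d * (d - 1))) +
          (2 * m * (d : ℝ) ^ m) * wt v r := by
      intro φ
      rw [hT]
      exact loc_gen d hd F G hF hG hR v (Om v) (hOm v) L φ m z hzP hzw
    have h2 := local_sumD (Om v) L _ hzw _ h1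
    simpa only [hOm v] using h2
  · intro σ
    letI : Algebra K ℂ := σ.toAlgebra
    have h1 : ∀ φ : L →ₐ[K] ℂ, ∑ i, ∑ j ∈ Finset.univ.erase i,
        Real.log ‖φ (wedge (z i) (z j))‖ ≤
        (((d ^ m : ℕ) : ℝ) * (((d ^ m : ℕ) : ℝ) - 1)) *
          (-Real.log ‖σ (algebraMap (𝓞 K) K r)‖ / (d * (d - 1))) -
          (s * C₀ + 1) * ((d ^ m : ℕ) : ℝ) ^ 2 := by
      intro φ
      have h2 := hQ3 σ U (hUP σ (Finset.mem_univ _))
        (by rw [hUc]; exact (le_max_right _ _).trans hm1) φ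
      rw [hUc] at h2
      rw [sum_equiv U e (fun i j => Real.log ‖φ (wedge (x i) (x j))‖)]
      exact h2
    exact local_sumD ℂ L _ hzw _ h1

end Pool.Agent.RI
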