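import Pool.Agent.RI.Defs

set_option autoImplicit false

/-!
# The density form of the tuple theorem: definition
-/

namespace Pool.Agent.RI

open Polynomial Pool.Agent.RDF

/-- The density form of the tuple theorem, with explicit constants `c, lam0, T0`: every finite
family of tuples contains a subfamily of proportional size, all large parts of which have large
energy. -/
def TupDen (d N : ℕ) (c lam0 : ℝ) (T0 : ℕ) : Prop :=
  ∀ q : ℕ, ∃ B : ℕ, ∀ D : Dat d, lam0 ≤ D.lam → ∀ (α : Type) [DecidableEq α]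
    (z : α → Fin N → D.Om × D.Om) (U : Finset α), (∀ i ∈ U, ∀ a, D.pv (z i a)) →
    (∀ i ∈ U, ∀ j ∈ U, i ≠ j → ∀ a b, wedge (z i a) (z j b) ≠ 0) →
    ∃ Z ⊆ U, U.card ≤ B * Z.card ∧ ∀ Y ⊆ Z, Z.card ≤ q * Y.card → T0 ≤ Y.card →
      ∀ a : α → Fin N, c * D.lam * (Y.card : ℝ) ^ 2 ≤
        ∑ i ∈ Y, ∑ j ∈ Y.erase i, D.g (z i (a i)) (z j (a j))

end Pool.Agent.RI
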