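import Mathlib

set_option autoImplicit false

/-!
# Lemma S: a small sub-configuration of small energy without exceptional pairs
-/

namespace Pool.Agent.RI

open Finset

namespace DenS

/-- The number of maps `f : Fin r → Y` with `f u = a`, `f v = b`, times `|Y|²`. -/
theorem card_fiber {ι : Type*} [DecidableEq ι] (Y : Finset ι) (r : ℕ) (u v : Fin r) (huv : u ≠ v)
    (a b : ι) (ha : a ∈ Y) (hb : b ∈ Y) :
    (({f ∈ Fintype.piFinset (fun _ : Fin r => Y) | (f u, f v) = (a, b)} : Finset (Fin r → ι)).card)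
      * Y.card ^ 2 = Y.card ^ r := by
  have h1 : ({f ∈ Fintype.piFinset (fun _ : Fin r => Y) | (f u, f v) = (a, b)} :
      Finset (Fin r → ι)) = Fintype.piFinset
        (fun i : Fin r => if i = u then {a} else if i = v then {b} else Y) := by
    ext f
    simp only [mem_filter, Fintype.mem_piFinset, Prod.mk.injEq]
    constructor
    · rintro ⟨h, h2, h3⟩ i
      by_cases hu : i = u
      · subst hu; simp [h2]
      · by_cases hv : i = v
        · subst hv; simp [hu, h3]
        · simp [hu, hv, h i]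
    · intro h
      refine ⟨fun i => ?_, ?_, ?_⟩
      · have := h i
        by_cases hu : i = u
        · subst hu; simp at this; rw [this]; exact ha
        · by_cases hv : i = v
          · subst hv; simp [hu] at this; rw [this]; exact hb
          · simpa [hu, hv] using this
      · have := h u; simpa using this
      · have := h v; simpa [huv.symm] using this
  rw [h1, Fintype.card_piFinset]
  have h2 : ∀ i : Fin r, ((if i = u then ({a} : Finset ι) else if i = v then {b} else Y).card)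
      * ((if i = u then Y.card else 1) * (if i = v then Y.card else 1)) = Y.card := by
    intro i
    by_cases hu : i = u
    · have : ¬ i = v := fun h => huv (hu.symm.trans h)
      simp [hu, huv]
    · by_cases hv : i = v
      · simp [hv, huv.symm]
      · simp [hu, hv]
  have h3 : ∏ i : Fin r, ((if i = u then ({a} : Finset ι) else if i = v then {b} else Y).card)
      * ((if i = u then Y.card else 1) * (if i = v then Y.card else 1)) = Y.card ^ r := by
    rw [Finset.prod_congr rfl (fun i _ => h2 i)]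
    simp
  rw [Finset.prod_mul_distrib, Finset.prod_mul_distrib, Finset.prod_ite_eq' univ u,
    Finset.prod_ite_eq' univ v] at h3
  simp only [mem_univ, if_true] at h3
  rw [pow_two]
  exact h3

theorem sum_pair {ι : Type*} [DecidableEq ι] (Y : Finset ι) (r : ℕ) (u v : Fin r) (huv : u ≠ v)
    (H : ι → ι → ℝ) :
    (∑ f ∈ Fintype.piFinset (fun _ : Fin r => Y), H (f u) (f v)) * (Y.card : ℝ) ^ 2
      = (Y.card : ℝ) ^ r * ∑ x ∈ Y, ∑ y ∈ Y, H x y := by
  have hm : ∀ f ∈ Fintype.piFinset (fun _ : Fin r => Y), (f u, f v) ∈ Y ×ˢ Y := by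
    intro f hf
    rw [Fintype.mem_piFinset] at hf
    exact mem_product.2 ⟨hf u, hf v⟩
  rw [← Finset.sum_product' (f := H), ← Finset.sum_fiberwise_of_maps_to hm, Finset.sum_mul, Finset.mul_sum]
  refine Finset.sum_congr rfl fun p hp => ?_
  obtain ⟨h1, h2⟩ := mem_product.1 hp
  have h3 : ∑ f ∈ Fintype.piFinset (fun _ : Fin r => Y) with (f u, f v) = p, H (f u) (f v)
      = (({f ∈ Fintype.piFinset (fun _ : Fin r => Y) | (f u, f v) = p} :
        Finset (Fin r → ι)).card : ℝ) * H p.1 p.2 := by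
    rw [← nsmul_eq_mul, ← Finset.sum_const]
    refine Finset.sum_congr rfl fun f hf => ?_
    rw [← (mem_filter.1 hf).2]
  have h4 := card_fiber Y r u v huv p.1 p.2 h1 h2
  have h5 : ((({f ∈ Fintype.piFinset (fun _ : Fin r => Y) | (f u, f v) = p} :
        Finset (Fin r → ι)).card : ℝ)) * (Y.card : ℝ) ^ 2 = (Y.card : ℝ) ^ r := by
    exact_mod_cast h4
  rw [h3, ← h5]
  ring

/-- **Lemma S.** If the energy of `Y` is at most `a |Y|²` and at most `κ |Y|²` pairs (the diagonal
included) are exceptional, there are `r` elements of `Y` of energy at most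
`r² (a + κ (K + K0))`, without exceptional pairs. -/
theorem exists_low {α : Type} [DecidableEq α] (Y : Finset α) (hY : Y.Nonempty) (G : α → α → ℝ)
    (E : Finset (α × α)) (r : ℕ) (a κ K K0 : ℝ) (ha : 0 ≤ a) (hκ : 0 ≤ κ) (hK : 0 ≤ K)
    (hK0 : 0 ≤ K0) (hG : ∀ i ∈ Y, ∀ j ∈ Y, i ≠ j → -K0 ≤ G i j)
    (hE : (E.card : ℝ) + Y.card ≤ κ * (Y.card : ℝ) ^ 2)
    (hlow : ∑ i ∈ Y, ∑ j ∈ Y.erase i, G i j ≤ a * (Y.card : ℝ) ^ 2)
    (hr : (r : ℝ) ^ 2 * (a + κ * (K + K0)) < K - (r : ℝ) ^ 2 * K0) :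
    ∃ f : Fin r ↪ α, (∀ u, f u ∈ Y) ∧ (∀ u v, u ≠ v → (f u, f v) ∉ E) ∧
      ∑ u, ∑ v ∈ Finset.univ.erase u, G (f u) (f v) ≤ (r : ℝ) ^ 2 * (a + κ * (K + K0)) := by
  classical
  set G' : α → α → ℝ := fun x y => if (x = y ∨ (x, y) ∈ E) then K else G x y with hG'
  have hc : (0 : ℝ) < Y.card := by exact_mod_cast hY.card_pos
  -- the sum of `G'`
  have hS : ∑ x ∈ Y, ∑ y ∈ Y, G' x y ≤ (Y.card : ℝ) ^ 2 * (a + κ * (K + K0)) := by
    have h1 : ∀ x ∈ Y, ∀ y ∈ Y, G' x y ≤ (if x = y then 0 else G x y)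
        + (K + K0) * ((if x = y then 1 else 0) + (if (x, y) ∈ E then 1 else 0)) := by
      intro x hx y hy
      simp only [hG']
      by_cases h : x = y
      · by_cases h' : (x, y) ∈ E
        · simp only [h, true_or, if_true]
          have : (y, y) ∈ E := by rw [h] at h'; exact h'
          simp only [this, if_true]; nlinarith
        · simp only [h, true_or, if_true]
          have : (y, y) ∉ E := by rw [h] at h'; exact h'
          simp only [this, if_false]; nlinarith
      · by_cases h' : (x, y) ∈ E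
        · simp only [h, h', or_true, if_true, if_false]
          have := hG x hx y hy h
          linarith
        · simp only [h, h', or_self, if_false]
          linarith
    have h2 : ∑ x ∈ Y, ∑ y ∈ Y, G' x y ≤ ∑ x ∈ Y, ∑ y ∈ Y, ((if x = y then 0 else G x y)
        + (K + K0) * ((if x = y then (1 : ℝ) else 0) + (if (x, y) ∈ E then 1 else 0))) :=
      Finset.sum_le_sum fun x hx => Finset.sum_le_sum fun y hy => h1 x hx y hy
    have h3 : ∑ x ∈ Y, ∑ y ∈ Y, (if x = y then 0 else G x y) = ∑ i ∈ Y, ∑ j ∈ Y.erase i, G i j := by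
      refine Finset.sum_congr rfl fun x hx => ?_
      rw [← Finset.add_sum_erase Y _ hx]
      simp only [if_true, zero_add]
      refine Finset.sum_congr rfl fun y hy => ?_
      rw [if_neg (Finset.ne_of_mem_erase hy).symm]
    have h4 : ∑ x ∈ Y, ∑ y ∈ Y, (if x = y then (1 : ℝ) else 0) = Y.card := by
      rw [Finset.sum_congr rfl (fun x hx => by rw [Finset.sum_ite_eq, if_pos hx])]
      simp
    have h5 : ∑ x ∈ Y, ∑ y ∈ Y, (if (x, y) ∈ E then (1 : ℝ) else 0) ≤ E.card := by
      rw [← Finset.sum_product' (f := fun x y => if (x, y) ∈ E then (1 : ℝ) else 0)]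
      rw [← Finset.sum_filter, Finset.sum_const, nsmul_eq_mul, mul_one]
      have : (({p ∈ Y ×ˢ Y | (p.1, p.2) ∈ E} : Finset (α × α))).card ≤ E.card :=
        Finset.card_le_card fun p hp => (mem_filter.1 hp).2
      exact_mod_cast this
    have h6 : ∑ x ∈ Y, ∑ y ∈ Y, ((if x = y then 0 else G x y)
        + (K + K0) * ((if x = y then (1 : ℝ) else 0) + (if (x, y) ∈ E then 1 else 0)))
        = (∑ x ∈ Y, ∑ y ∈ Y, (if x = y then 0 else G x y)) + (K + K0) *
          ((∑ x ∈ Y, ∑ y ∈ Y, (if x = y then (1 : ℝ) else 0))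
            + ∑ x ∈ Y, ∑ y ∈ Y, (if (x, y) ∈ E then (1 : ℝ) else 0)) := by
      simp only [Finset.sum_add_distrib, Finset.mul_sum, mul_add]
    rw [h6, h3, h4] at h2
    have h7 : (K + K0) * ((Y.card : ℝ) + ∑ x ∈ Y, ∑ y ∈ Y, (if (x, y) ∈ E then (1 : ℝ) else 0))
        ≤ (K + K0) * (κ * (Y.card : ℝ) ^ 2) :=
      mul_le_mul_of_nonneg_left (by linarith) (by linarith)
    nlinarith
  -- averaging
  have hex : ∃ f ∈ Fintype.piFinset (fun _ : Fin r => Y),
      ∑ u : Fin r, ∑ v ∈ univ.erase u, G' (f u) (f v) ≤ (r : ℝ) ^ 2 * (a + κ * (K + K0)) := by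
    by_contra hcon
    push Not at hcon
    have hne : (Fintype.piFinset (fun _ : Fin r => Y)).Nonempty := by
      rw [Fintype.piFinset_nonempty]; exact fun _ => hY
    have h1 : ∑ f ∈ Fintype.piFinset (fun _ : Fin r => Y), ((r : ℝ) ^ 2 * (a + κ * (K + K0)))
        < ∑ f ∈ Fintype.piFinset (fun _ : Fin r => Y),
          ∑ u : Fin r, ∑ v ∈ univ.erase u, G' (f u) (f v) :=
      Finset.sum_lt_sum_of_nonempty hne hcon
    rw [Finset.sum_const, nsmul_eq_mul, Fintype.card_piFinset, Finset.prod_const, Finset.card_univ,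
      Fintype.card_fin] at h1
    rw [Finset.sum_comm] at h1
    have h2 : ∑ u : Fin r, ∑ f ∈ Fintype.piFinset (fun _ : Fin r => Y),
        ∑ v ∈ univ.erase u, G' (f u) (f v)
        = ∑ u : Fin r, ∑ v ∈ univ.erase u, ∑ f ∈ Fintype.piFinset (fun _ : Fin r => Y),
          G' (f u) (f v) := Finset.sum_congr rfl fun u _ => Finset.sum_comm
    rw [h2] at h1
    have h3 : (∑ u : Fin r, ∑ v ∈ univ.erase u, ∑ f ∈ Fintype.piFinset (fun _ : Fin r => Y),
          G' (f u) (f v)) * (Y.card : ℝ) ^ 2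
        = ∑ u : Fin r, ∑ v ∈ univ.erase u, (Y.card : ℝ) ^ r * ∑ x ∈ Y, ∑ y ∈ Y, G' x y := by
      rw [Finset.sum_mul]
      refine Finset.sum_congr rfl fun u _ => ?_
      rw [Finset.sum_mul]
      refine Finset.sum_congr rfl fun v hv => ?_
      exact sum_pair Y r u v (Finset.ne_of_mem_erase hv).symm G'
    have h4 : ∑ u : Fin r, ∑ v ∈ univ.erase u, (Y.card : ℝ) ^ r * ∑ x ∈ Y, ∑ y ∈ Y, G' x y
        ≤ ∑ u : Fin r, ∑ v ∈ univ.erase u,
          (Y.card : ℝ) ^ r * ((Y.card : ℝ) ^ 2 * (a + κ * (K + K0))) :=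
      Finset.sum_le_sum fun u _ => Finset.sum_le_sum fun v _ =>
        mul_le_mul_of_nonneg_left hS (by positivity)
    have h5 : ∑ u : Fin r, ∑ v ∈ univ.erase u,
          (Y.card : ℝ) ^ r * ((Y.card : ℝ) ^ 2 * (a + κ * (K + K0)))
        ≤ ∑ u : Fin r, ∑ v : Fin r,
          (Y.card : ℝ) ^ r * ((Y.card : ℝ) ^ 2 * (a + κ * (K + K0))) := by
      refine Finset.sum_le_sum fun u _ => ?_
      refine Finset.sum_le_sum_of_subset_of_nonneg (Finset.erase_subset _ _) fun _ _ _ => ?_
      have : 0 ≤ κ * (K + K0) := mul_nonneg hκ (by linarith)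
      positivity
    have h6 : ∑ u : Fin r, ∑ v : Fin r,
          (Y.card : ℝ) ^ r * ((Y.card : ℝ) ^ 2 * (a + κ * (K + K0)))
          = (Y.card : ℝ) ^ r * ((r : ℝ) ^ 2 * (a + κ * (K + K0))) * (Y.card : ℝ) ^ 2 := by
      simp only [Finset.sum_const, Finset.card_univ, Fintype.card_fin, nsmul_eq_mul]
      ring
    have h7 := mul_lt_mul_of_pos_right h1 (pow_pos hc 2)
    push_cast at h7
    linarith
  obtain ⟨f, hf, hfs⟩ := hex
  rw [Fintype.mem_piFinset] at hf
  -- no exceptional pair
  have hno : ∀ u v, u ≠ v → ¬ (f u = f v ∨ (f u, f v) ∈ E) := by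
    intro u v huv hcon
    have h1 : ∀ u' : Fin r, ∀ v' ∈ univ.erase u', -K0 ≤ G' (f u') (f v') := by
      intro u' v' hv'
      simp only [hG']
      split_ifs with h
      · linarith
      · rw [not_or] at h
        exact hG _ (hf u') _ (hf v') h.1
    have h2 : K ≤ G' (f u) (f v) := by
      simp only [hG']; rw [if_pos hcon]
    have h3 : ∑ u' : Fin r, ∑ v' ∈ univ.erase u', (if u' = u ∧ v' = v then K + K0 else 0) -
        ∑ u' : Fin r, ∑ v' ∈ univ.erase u', K0
        ≤ ∑ u' : Fin r, ∑ v' ∈ univ.erase u', G' (f u') (f v') := by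
      rw [← Finset.sum_sub_distrib]
      refine Finset.sum_le_sum fun u' _ => ?_
      rw [← Finset.sum_sub_distrib]
      refine Finset.sum_le_sum fun v' hv' => ?_
      by_cases h : u' = u ∧ v' = v
      · rw [if_pos h, h.1, h.2]; linarith
      · rw [if_neg h]; have := h1 u' v' hv'; linarith
    have h4 : K + K0 ≤ ∑ u' : Fin r, ∑ v' ∈ univ.erase u', (if u' = u ∧ v' = v then K + K0 else 0) := by
      have h5 : ∀ u' : Fin r, 0 ≤ ∑ v' ∈ univ.erase u', (if u' = u ∧ v' = v then K + K0 else 0) :=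
        fun u' => Finset.sum_nonneg fun v' _ => by split_ifs <;> linarith
      refine le_trans ?_ (Finset.single_le_sum (fun u' _ => h5 u') (mem_univ u))
      refine le_trans ?_ (Finset.single_le_sum
        (f := fun v' => if u = u ∧ v' = v then K + K0 else 0)
        (fun v' _ => by split_ifs <;> linarith)
        (Finset.mem_erase.2 ⟨huv.symm, mem_univ v⟩))
      simp
    have h6 : ∑ u' : Fin r, ∑ v' ∈ univ.erase u', K0 ≤ (r : ℝ) ^ 2 * K0 := by
      calc ∑ u' : Fin r, ∑ v' ∈ univ.erase u', K0 ≤ ∑ u' : Fin r, ∑ v' : Fin r, K0 :=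
            Finset.sum_le_sum fun u' _ => Finset.sum_le_sum_of_subset_of_nonneg
              (Finset.erase_subset _ _) fun _ _ _ => hK0
        _ = (r : ℝ) ^ 2 * K0 := by
            simp only [Finset.sum_const, Finset.card_univ, Fintype.card_fin, nsmul_eq_mul]
            ring
    linarith
  have hinj : Function.Injective f := by
    intro u v h
    by_contra huv
    exact hno u v huv (Or.inl h)
  refine ⟨⟨f, hinj⟩, hf, fun u v huv h => hno u v huv (Or.inr h), ?_⟩
  · refine le_trans (le_of_eq ?_) hfs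
    refine Finset.sum_congr rfl fun u _ => Finset.sum_congr rfl fun v hv => ?_
    simp only [hG', Function.Embedding.coeFn_mk]
    rw [if_neg (hno u v (Finset.ne_of_mem_erase hv).symm)]

end DenS

end Pool.Agent.RI
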