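import Mathlib

set_option autoImplicit false

/-!
# Almost constant kernels on a positive proportion

For a kernel satisfying the strong triangle inequality up to an error every finite set has a subset
of positive proportion on which the kernel is almost constant for most pairs.
-/

namespace Pool.Agent.RI

open Finset

namespace DenW

/-- All balls of the next level are small after finitely many steps. -/
theorem balls {ι P : Type} [DecidableEq ι] [Fintype P] [DecidableEq P] (J : ι → P → ι → P → ℝ)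
    (U : Finset ι)
    (hU : U.Nonempty) (Lam η ε β : ℝ) (hβ : 0 < β) (hβ1 : β ≤ 1)
    (hlow : ∀ i ∈ U, ∀ j ∈ U, ∀ p, -η ≤ J i p j p) (hup : ∀ i ∈ U, ∀ j ∈ U, ∀ p, J i p j p ≤ Lam)
    (sym : ∀ i j p, J i p j p = J j p i p)
    (tri : ∀ i ∈ U, ∀ j ∈ U, ∀ k ∈ U, ∀ p, min (J i p j p) (J j p k p) - η ≤ J i p k p)
    (m : ℕ) (hm : Lam < m * ε) (hε : 0 < ε) :
    ∃ Z ⊆ U, Z.Nonempty ∧ β ^ (Fintype.card P * m) * (U.card : ℝ) ≤ Z.card ∧ ∃ s : P → ℕ,
      (∀ i ∈ Z, ∀ j ∈ Z, ∀ p, s p * ε - η ≤ J i p j p) ∧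
      ∀ i ∈ Z, ∀ p, ((Z.filter fun j => (s p + 1 : ℝ) * ε ≤ J i p j p).card : ℝ) ≤ β * Z.card := by
  classical
  by_contra hcon
  push Not at hcon
  have key : ∀ n : ℕ, ∃ Z ⊆ U, Z.Nonempty ∧ β ^ n * (U.card : ℝ) ≤ Z.card ∧ ∃ s : P → ℕ,
      ∑ p, s p = n ∧ (∀ p, s p ≤ m) ∧ ∀ i ∈ Z, ∀ j ∈ Z, ∀ p, s p * ε - η ≤ J i p j p := by
    intro n
    induction n with
    | zero =>
      refine ⟨U, subset_rfl, hU, by simp, fun _ => 0, by simp, fun _ => Nat.zero_le _, ?_⟩
      intro i hi j hj p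
      have := hlow i hi j hj p
      simpa using this
    | succ n ih =>
      obtain ⟨Z, hZU, hZ, hZc, s, hs, hsm, hsJ⟩ := ih
      have hn : n ≤ Fintype.card P * m := by
        rw [← hs]
        refine (Finset.sum_le_sum fun p _ => hsm p).trans ?_
        simp
      have h1 : β ^ (Fintype.card P * m) * (U.card : ℝ) ≤ Z.card := by
        refine le_trans (mul_le_mul_of_nonneg_right ?_ (Nat.cast_nonneg _)) hZc
        exact pow_le_pow_of_le_one hβ.le hβ1 hn
      obtain ⟨i, hi, p, hp⟩ := hcon Z hZU hZ h1 s hsJ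
      set Z' := Z.filter fun j => (s p + 1 : ℝ) * ε ≤ J i p j p with hZ'
      have hZ'0 : Z'.Nonempty := by
        rw [← Finset.card_pos]
        have h2 : (0 : ℝ) < Z'.card := lt_of_le_of_lt (by positivity) hp
        exact_mod_cast h2
      have hmem : ∀ j ∈ Z', j ∈ Z ∧ (s p + 1 : ℝ) * ε ≤ J i p j p := fun j hj => by
        rw [hZ', Finset.mem_filter] at hj
        exact hj
      refine ⟨Z', (Finset.filter_subset _ _).trans hZU, hZ'0, ?_,
        Function.update s p (s p + 1), ?_, ?_, ?_⟩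
      · calc β ^ (n + 1) * (U.card : ℝ) = β * (β ^ n * (U.card : ℝ)) := by ring
          _ ≤ β * Z.card := mul_le_mul_of_nonneg_left hZc hβ.le
          _ ≤ Z'.card := hp.le
      · rw [Finset.sum_update_of_mem (Finset.mem_univ p), ← hs,
          ← Finset.add_sum_erase univ s (Finset.mem_univ p), Finset.sdiff_singleton_eq_erase]
        ring
      · intro p'
        rcases eq_or_ne p' p with rfl | h
        · rw [Function.update_self]
          obtain ⟨j, hj⟩ := hZ'0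
          obtain ⟨hjZ, hj2⟩ := hmem j hj
          have h3 := hup i (hZU hi) j (hZU hjZ) p'
          have h4 : (s p' + 1 : ℝ) * ε < m * ε := by linarith
          have h5 : (s p' + 1 : ℝ) < m := lt_of_mul_lt_mul_right h4 hε.le
          have h6 : s p' + 1 < m := by exact_mod_cast h5
          omega
        · rw [Function.update_of_ne h]
          exact hsm p'
      · intro j hj k hk p'
        obtain ⟨hjZ, hj2⟩ := hmem j hj
        obtain ⟨hkZ, hk2⟩ := hmem k hk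
        rcases eq_or_ne p' p with rfl | h
        · rw [Function.update_self]
          have h3 := tri j (hZU hjZ) i (hZU hi) k (hZU hkZ) p'
          rw [sym j i] at h3
          have h4 : (s p' + 1 : ℝ) * ε ≤ min (J i p' j p') (J i p' k p') := le_min hj2 hk2
          push_cast
          linarith
        · rw [Function.update_of_ne h]
          exact hsJ j hjZ k hkZ p'
  obtain ⟨Z, -, -, -, s, hs, hsm, -⟩ := key (Fintype.card P * m + 1)
  have h1 : ∑ p, s p ≤ Fintype.card P * m := by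
    refine (Finset.sum_le_sum fun p _ => hsm p).trans ?_
    simp
  omega

/-- The cross pairs. -/
theorem cross {ι P : Type} [DecidableEq ι] (J : ι → P → ι → P → ℝ) (Z : Finset ι)
    (hZ : Z.Nonempty) (η ε β : ℝ) (hη : 0 ≤ η) (hε : 0 ≤ ε) (p q : P) (σ τ : ℝ) (hστ : σ ≤ τ)
    (hp : ∀ i ∈ Z, ∀ j ∈ Z, σ - η ≤ J i p j p) (hq : ∀ i ∈ Z, ∀ j ∈ Z, τ - η ≤ J i q j q)
    (hb : ∀ i ∈ Z, ((Z.filter fun j => σ + ε ≤ J i p j p).card : ℝ) ≤ β * Z.card)
    (sym : ∀ i j p q, J i p j q = J j q i p)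
    (tri : ∀ i ∈ Z, ∀ j ∈ Z, ∀ k ∈ Z, ∀ p q r, min (J i p j q) (J j q k r) - η ≤ J i p k r) :
    ∃ c : ℝ, (((Z ×ˢ Z).filter fun x => ¬ |J x.1 p x.2 q - c| ≤ ε + 3 * η).card : ℝ) ≤
      β * (Z.card : ℝ) ^ 2 := by
  classical
  obtain ⟨x0, hx0, hmax⟩ := Finset.exists_max_image (Z ×ˢ Z) (fun x => J x.1 p x.2 q)
    (hZ.product hZ)
  obtain ⟨hi0, hj0⟩ := Finset.mem_product.1 hx0
  set t := J x0.1 p x0.2 q with ht
  refine ⟨min σ t, ?_⟩
  have hlow : ∀ i ∈ Z, ∀ j ∈ Z, min σ t - 3 * η ≤ J i p j q := by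
    intro i hi j hj
    have h1 := tri i hi x0.1 hi0 x0.2 hj0 p p q
    have h2 := tri i hi x0.2 hj0 j hj p q q
    have h3 := hp i hi x0.1 hi0
    have h4 := hq x0.2 hj0 j hj
    have h5 : min σ t ≤ σ := min_le_left _ _
    have h6 : min σ t ≤ t := min_le_right _ _
    have h7 : min σ t - η ≤ min (J i p x0.1 p) (J x0.1 p x0.2 q) :=
      le_min (by linarith) (by linarith)
    have h8 : min σ t - 2 * η ≤ min (J i p x0.2 q) (J x0.2 q j q) :=
      le_min (by linarith) (by linarith)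
    linarith
  have hsub : ((Z ×ˢ Z).filter fun x => ¬ |J x.1 p x.2 q - min σ t| ≤ ε + 3 * η) ⊆
      Z.biUnion fun j => (Z.filter fun i => σ + ε + η ≤ J i p j q) ×ˢ {j} := by
    intro x hx
    rw [Finset.mem_filter, Finset.mem_product] at hx
    obtain ⟨⟨h1, h2⟩, h3⟩ := hx
    rw [Finset.mem_biUnion]
    refine ⟨x.2, h2, Finset.mem_product.2 ⟨Finset.mem_filter.2 ⟨h1, ?_⟩, by simp⟩⟩
    by_contra hcon
    rw [not_le] at hcon
    apply h3
    rw [abs_le]
    have h4 := hlow x.1 h1 x.2 h2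
    have h5 : J x.1 p x.2 q ≤ t := hmax x (Finset.mem_product.2 ⟨h1, h2⟩)
    constructor
    · linarith
    · rcases le_total σ t with h | h
      · rw [min_eq_left h]
        linarith
      · rw [min_eq_right h]
        linarith
  have hball : ∀ j ∈ Z, ((Z.filter fun i => σ + ε + η ≤ J i p j q).card : ℝ) ≤ β * Z.card := by
    intro j hj
    rcases (Z.filter fun i => σ + ε + η ≤ J i p j q).eq_empty_or_nonempty with h | ⟨i0, hi0⟩
    · rw [h, Finset.card_empty, Nat.cast_zero]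
      obtain ⟨i, hi⟩ := hZ
      exact (Nat.cast_nonneg _).trans (hb i hi)
    · rw [Finset.mem_filter] at hi0
      refine le_trans ?_ (hb i0 hi0.1)
      have h1 : (Z.filter fun i => σ + ε + η ≤ J i p j q) ⊆
          Z.filter fun i => σ + ε ≤ J i0 p i p := by
        intro i hi
        rw [Finset.mem_filter] at hi ⊢
        refine ⟨hi.1, ?_⟩
        have h2 := tri i0 hi0.1 j hj i hi.1 p q p
        rw [sym j i q p] at h2
        have h3 : σ + ε + η ≤ min (J i0 p j q) (J i p j q) := le_min hi0.2 hi.2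
        linarith
      exact_mod_cast Finset.card_le_card h1
  calc (((Z ×ˢ Z).filter fun x => ¬ |J x.1 p x.2 q - min σ t| ≤ ε + 3 * η).card : ℝ)
      ≤ ((Z.biUnion fun j => (Z.filter fun i => σ + ε + η ≤ J i p j q) ×ˢ {j}).card : ℝ) := by
        exact_mod_cast Finset.card_le_card hsub
    _ ≤ ((∑ j ∈ Z, ((Z.filter fun i => σ + ε + η ≤ J i p j q) ×ˢ {j}).card : ℕ) : ℝ) := by
        exact_mod_cast Finset.card_biUnion_le
    _ = ∑ j ∈ Z, ((Z.filter fun i => σ + ε + η ≤ J i p j q).card : ℝ) := by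
        push_cast
        refine Finset.sum_congr rfl fun j _ => ?_
        rw [Finset.card_product, Finset.card_singleton, mul_one]
    _ ≤ ∑ j ∈ Z, β * (Z.card : ℝ) := Finset.sum_le_sum fun j hj => hball j hj
    _ = β * (Z.card : ℝ) ^ 2 := by
        rw [Finset.sum_const, nsmul_eq_mul]
        ring

/-- Lemma W without `h`. -/
theorem main {ι P : Type} [DecidableEq ι] [Fintype P] (J : ι → P → ι → P → ℝ) (U : Finset ι)
    (hU : U.Nonempty) (Lam η ε β : ℝ) (hβ : 0 < β) (hβ1 : β ≤ 1) (hη : 0 ≤ η)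
    (hlow : ∀ i ∈ U, ∀ j ∈ U, ∀ p, -η ≤ J i p j p) (hup : ∀ i ∈ U, ∀ j ∈ U, ∀ p, J i p j p ≤ Lam)
    (sym : ∀ i j p q, J i p j q = J j q i p)
    (tri : ∀ i ∈ U, ∀ j ∈ U, ∀ k ∈ U, ∀ p q r, min (J i p j q) (J j q k r) - η ≤ J i p k r)
    (m : ℕ) (hm : Lam < m * ε) (hε : 0 < ε) :
    ∃ Z ⊆ U, Z.Nonempty ∧ β ^ (Fintype.card P * m) * (U.card : ℝ) ≤ Z.card ∧ ∃ c : P → P → ℝ,
      ((((Z ×ˢ Z).filter fun x => ∃ p q, ¬ |J x.1 p x.2 q - c p q| ≤ ε + 3 * η).card : ℝ)) ≤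
        (Fintype.card P : ℝ) ^ 2 * β * (Z.card : ℝ) ^ 2 := by
  classical
  obtain ⟨Z, hZU, hZ, hZc, s, hs, hb⟩ := balls J U hU Lam η ε β hβ hβ1 hlow hup
    (fun i j p => sym i j p p) (fun i hi j hj k hk p => tri i hi j hj k hk p p p) m hm hε
  refine ⟨Z, hZU, hZ, hZc, ?_⟩
  have htri : ∀ i ∈ Z, ∀ j ∈ Z, ∀ k ∈ Z, ∀ p q r, min (J i p j q) (J j q k r) - η ≤ J i p k r :=
    fun i hi j hj k hk => tri i (hZU hi) j (hZU hj) k (hZU hk)
  have hb' : ∀ p, ∀ i ∈ Z, ((Z.filter fun j => (s p * ε) + ε ≤ J i p j p).card : ℝ) ≤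
      β * Z.card := by
    intro p i hi
    have h1 := hb i hi p
    have h2 : (s p + 1 : ℝ) * ε = s p * ε + ε := by ring
    rwa [h2] at h1
  have hc : ∀ p q : P, ∃ c : ℝ,
      (((Z ×ˢ Z).filter fun x => ¬ |J x.1 p x.2 q - c| ≤ ε + 3 * η).card : ℝ) ≤
      β * (Z.card : ℝ) ^ 2 := by
    intro p q
    rcases le_total ((s p : ℝ) * ε) (s q * ε) with h | h
    · exact cross J Z hZ η ε β hη hε.le p q _ _ h (fun i hi j hj => hs i hi j hj p)
        (fun i hi j hj => hs i hi j hj q) (hb' p) sym htri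
    · obtain ⟨c, hc⟩ := cross J Z hZ η ε β hη hε.le q p _ _ h (fun i hi j hj => hs i hi j hj q)
        (fun i hi j hj => hs i hi j hj p) (hb' q) sym htri
      refine ⟨c, le_trans ?_ hc⟩
      have h1 : ((Z ×ˢ Z).filter fun x => ¬ |J x.1 p x.2 q - c| ≤ ε + 3 * η).card ≤
          ((Z ×ˢ Z).filter fun x => ¬ |J x.1 q x.2 p - c| ≤ ε + 3 * η).card := by
        refine Finset.card_le_card_of_injOn Prod.swap ?_ Prod.swap_injective.injOn
        intro x hx
        rw [Finset.mem_coe, Finset.mem_filter, Finset.mem_product] at hx ⊢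
        refine ⟨⟨hx.1.2, hx.1.1⟩, ?_⟩
        rw [Prod.fst_swap, Prod.snd_swap, sym x.2 x.1 q p]
        exact hx.2
      exact_mod_cast h1
  choose c hc using hc
  refine ⟨c, ?_⟩
  have hsub : ((Z ×ˢ Z).filter fun x => ∃ p q, ¬ |J x.1 p x.2 q - c p q| ≤ ε + 3 * η) ⊆
      (univ : Finset (P × P)).biUnion fun pq =>
        (Z ×ˢ Z).filter fun x => ¬ |J x.1 pq.1 x.2 pq.2 - c pq.1 pq.2| ≤ ε + 3 * η := by
    intro x hx
    rw [Finset.mem_filter] at hx
    obtain ⟨h1, p, q, h2⟩ := hx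
    rw [Finset.mem_biUnion]
    exact ⟨(p, q), Finset.mem_univ _, Finset.mem_filter.2 ⟨h1, h2⟩⟩
  calc ((((Z ×ˢ Z).filter fun x => ∃ p q, ¬ |J x.1 p x.2 q - c p q| ≤ ε + 3 * η).card : ℝ))
      ≤ ((∑ pq : P × P, ((Z ×ˢ Z).filter fun x =>
          ¬ |J x.1 pq.1 x.2 pq.2 - c pq.1 pq.2| ≤ ε + 3 * η).card : ℕ) : ℝ) := by
        exact_mod_cast (Finset.card_le_card hsub).trans Finset.card_biUnion_le
    _ = ∑ pq : P × P, (((Z ×ˢ Z).filter fun x =>
          ¬ |J x.1 pq.1 x.2 pq.2 - c pq.1 pq.2| ≤ ε + 3 * η).card : ℝ) := by push_cast; rfl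
    _ ≤ ∑ _pq : P × P, β * (Z.card : ℝ) ^ 2 := Finset.sum_le_sum fun pq _ => hc pq.1 pq.2
    _ = _ := by
        rw [Finset.sum_const, nsmul_eq_mul, Finset.card_univ, Fintype.card_prod]
        push_cast
        ring

end DenW

end Pool.Agent.RI
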