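import Mathlib

/-!
# Limits of arrays: tree kernels and copositivity (section 1 of R-infinity, pure part)
-/

set_option autoImplicit false

namespace Pool.Agent.RI

open Filter Topology Finset

/-- (1.1): the limits of symmetric almost ultrametric arrays are tree kernels. -/
theorem lim_tree {P : Type*} (J : ℕ → ℕ × P → ℕ × P → ℝ) (δ : ℕ → ℝ)
    (hδ : Tendsto δ atTop (𝓝 0)) (hsym : ∀ n x y, J n x y = J n y x)
    (hnn : ∀ n x y, x.1 < n → y.1 < n → x.1 ≠ y.1 → -δ n ≤ J n x y)
    (htri : ∀ n x y z, x.1 < n → y.1 < n → z.1 < n → x.1 ≠ y.1 → y.1 ≠ z.1 → x.1 ≠ z.1 →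
      min (J n x y) (J n y z) - δ n ≤ J n x z) (j : P → P → ℝ)
    (happ : ∀ ε : ℝ, 0 < ε → ∀ (r m : ℕ) (P0 : Finset P), ∃ n : ℕ, m ≤ n ∧ ∃ e : Fin r → ℕ,
      StrictMono e ∧ (∀ a, e a < n) ∧
      ∀ a b, a < b → ∀ p ∈ P0, ∀ q ∈ P0, |J n (e a, p) (e b, q) - j p q| ≤ ε) :
    (∀ p q, j p q = j q p) ∧ (∀ p q, 0 ≤ j p q) ∧ ∀ p q r, min (j p q) (j q r) ≤ j p r := by
  classical
  have hδ' : ∀ ε : ℝ, 0 < ε → ∃ m : ℕ, ∀ n, m ≤ n → δ n ≤ ε := by
    intro ε hε
    have h1 := (tendsto_order.1 hδ).2 ε hε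
    rw [eventually_atTop] at h1
    obtain ⟨m, hm⟩ := h1
    exact ⟨m, fun n hn => (hm n hn).le⟩
  have aux : ∀ (a b c a' b' c' ε δ' : ℝ), |a - a'| ≤ ε → |b - b'| ≤ ε → |c - c'| ≤ ε → δ' ≤ ε →
      min a b - δ' ≤ c → min a' b' ≤ c' + 3 * ε := by
    intro a b c a' b' c' ε δ' h1 h2 h3 h4 h5
    rw [abs_le] at h1 h2 h3
    rcases le_total a b with h | h
    · rw [min_eq_left h] at h5
      exact (min_le_left _ _).trans (by linarith [h1.1, h1.2, h3.1, h3.2])
    · rw [min_eq_right h] at h5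
      exact (min_le_right _ _).trans (by linarith [h2.1, h2.2, h3.1, h3.2])
  -- three different indices
  have key : ∀ (p q r : P) (ε : ℝ), 0 < ε → ∃ (n : ℕ) (e : Fin 3 → ℕ), StrictMono e ∧
      (∀ a, e a < n) ∧ δ n ≤ ε ∧ ∀ a b, a < b → ∀ x ∈ ({p, q, r} : Finset P),
        ∀ y ∈ ({p, q, r} : Finset P), |J n (e a, x) (e b, y) - j x y| ≤ ε := by
    intro p q r ε hε
    obtain ⟨m, hm⟩ := hδ' ε hε
    obtain ⟨n, hn, e, he, hen, h1⟩ := happ ε hε 3 m {p, q, r}
    exact ⟨n, e, he, hen, hm n hn, h1⟩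
  have h01 : (0 : Fin 3) < 1 := by decide
  have h12 : (1 : Fin 3) < 2 := by decide
  have h02 : (0 : Fin 3) < 2 := by decide
  have hpm : ∀ p q r : P, p ∈ ({p, q, r} : Finset P) := fun p q r => by simp
  have hqm : ∀ p q r : P, q ∈ ({p, q, r} : Finset P) := fun p q r => by simp
  have hrm : ∀ p q r : P, r ∈ ({p, q, r} : Finset P) := fun p q r => by simp
  have hA : ∀ p q r, min (j p q) (j q r) ≤ j p r := by
    intro p q r
    refine le_of_forall_pos_le_add fun ε hε => ?_
    obtain ⟨n, e, he, hen, hn, h1⟩ := key p q r (ε / 3) (by positivity)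
    have h2 := htri n (e 0, p) (e 1, q) (e 2, r) (hen 0) (hen 1) (hen 2) (he h01).ne (he h12).ne
      (he h02).ne
    have h3 := aux _ _ _ _ _ _ _ _ (h1 0 1 h01 p (hpm p q r) q (hqm p q r))
      (h1 1 2 h12 q (hqm p q r) r (hrm p q r)) (h1 0 2 h02 p (hpm p q r) r (hrm p q r)) hn h2
    linarith
  have hB : ∀ p q r, min (j p q) (j r q) ≤ j p r := by
    intro p q r
    refine le_of_forall_pos_le_add fun ε hε => ?_
    obtain ⟨n, e, he, hen, hn, h1⟩ := key p q r (ε / 3) (by positivity)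
    have h2 := htri n (e 0, p) (e 2, q) (e 1, r) (hen 0) (hen 2) (hen 1) (he h02).ne (he h12).ne'
      (he h01).ne
    rw [hsym n (e 2, q) (e 1, r)] at h2
    have h3 := aux _ _ _ _ _ _ _ _ (h1 0 2 h02 p (hpm p q r) q (hqm p q r))
      (h1 1 2 h12 r (hrm p q r) q (hqm p q r)) (h1 0 1 h01 p (hpm p q r) r (hrm p q r)) hn h2
    linarith
  have hC : ∀ p q r, min (j q p) (j q r) ≤ j p r := by
    intro p q r
    refine le_of_forall_pos_le_add fun ε hε => ?_
    obtain ⟨n, e, he, hen, hn, h1⟩ := key p q r (ε / 3) (by positivity)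
    have h2 := htri n (e 1, p) (e 0, q) (e 2, r) (hen 1) (hen 0) (hen 2) (he h01).ne' (he h02).ne
      (he h12).ne
    rw [hsym n (e 1, p) (e 0, q)] at h2
    have h3 := aux _ _ _ _ _ _ _ _ (h1 0 1 h01 q (hqm p q r) p (hpm p q r))
      (h1 0 2 h02 q (hqm p q r) r (hrm p q r)) (h1 1 2 h12 p (hpm p q r) r (hrm p q r)) hn h2
    linarith
  have hd : ∀ p q, j p q ≤ j p p := fun p q => by
    have := hB p q p
    rwa [min_self] at this
  have hs : ∀ p q, j q p ≤ j p q := fun p q => by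
    have := hC p q q
    rwa [min_eq_left (hd q p)] at this
  refine ⟨fun p q => le_antisymm (hs q p) (hs p q), fun p q => ?_, hA⟩
  refine le_of_forall_pos_le_add fun ε hε => ?_
  obtain ⟨n, e, he, hen, hn, h1⟩ := key p q q (ε / 2) (by positivity)
  have h2 := hnn n (e 0, p) (e 1, q) (hen 0) (hen 1) (he h01).ne
  have h3 := h1 0 1 h01 p (hpm p q q) q (hqm p q q)
  rw [abs_le] at h3
  linarith [h3.1, h3.2]

/-- The energy inequality (0.3) passes to the limit. -/
theorem lim_energy {P : Type*} (d : ℕ) (γ : P → P → ℝ) (hγ : ∀ p q, γ p q = γ q p)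
    (g : ℕ → ℕ × P → ℕ × P → ℝ) (lam : ℕ → ℝ) (hlam : ∀ n : ℕ, (n : ℝ) ≤ lam n) (C : ℝ)
    (hsym : ∀ n x y, g n x y = g n y x)
    (hE : ∀ (n m : ℕ) (x : Fin (d ^ m) → ℕ × P), (∀ u, (x u).1 < n) →
      Function.Injective (fun u => (x u).1) →
      -(2 * m * (d : ℝ) ^ m * (lam n + C)) - 2 * (d : ℝ) ^ m * Real.log ((d : ℝ) ^ m) ≤
        ∑ u, ∑ v ∈ univ.erase u, g n (x u) (x v))
    (P0 : Finset P)
    (happ : ∀ ε : ℝ, 0 < ε → ∀ r m : ℕ, ∃ n : ℕ, m ≤ n ∧ ∃ e : Fin r → ℕ, StrictMono e ∧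
      (∀ a, e a < n) ∧ ∀ a b, a < b → ∀ p ∈ P0, ∀ q ∈ P0,
        |g n (e a, p) (e b, q) / lam n - γ p q| ≤ ε)
    (m : ℕ) (l : Fin (d ^ m) → P) (hl : ∀ u, l u ∈ P0) :
    -(2 * m * (d : ℝ) ^ m) ≤ ∑ u, ∑ v ∈ univ.erase u, γ (l u) (l v) := by
  classical
  refine le_of_forall_pos_le_add fun η hη => ?_
  set N : ℝ := (d : ℝ) ^ m with hN
  have hN0 : 0 ≤ N := by positivity
  set ε : ℝ := η / (2 * (N * N + 1)) with hεd
  have hε : 0 < ε := by positivity
  set D : ℝ := 2 * m * N * |C| + 2 * N * |Real.log N| with hD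
  have hD0 : 0 ≤ D := by positivity
  obtain ⟨M, hM⟩ := exists_nat_gt (2 * D / η)
  obtain ⟨n, hn, e, he, hen, h1⟩ := happ ε hε (d ^ m) (max M 1)
  have hn1 : (1 : ℝ) ≤ n := by exact_mod_cast (le_max_right M 1).trans hn
  have hnM : (M : ℝ) ≤ n := by exact_mod_cast (le_max_left M 1).trans hn
  have hl0 : 0 < lam n := lt_of_lt_of_le (by linarith) (hlam n)
  have h2 := hE n m (fun u => (e u, l u)) hen he.injective
  have h3 : ∀ u v, u ≠ v → g n (e u, l u) (e v, l v) / lam n ≤ γ (l u) (l v) + ε := by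
    intro u v huv
    rcases lt_or_gt_of_ne huv with h | h
    · have h4 := h1 u v h (l u) (hl u) (l v) (hl v)
      rw [abs_le] at h4
      linarith [h4.1, h4.2]
    · have h4 := h1 v u h (l v) (hl v) (l u) (hl u)
      rw [abs_le] at h4
      rw [hsym, hγ]
      linarith [h4.1, h4.2]
  have h4 : (∑ u, ∑ v ∈ univ.erase u, g n (e u, l u) (e v, l v)) / lam n ≤
      (∑ u, ∑ v ∈ univ.erase u, γ (l u) (l v)) + N * N * ε := by
    rw [Finset.sum_div]
    calc ∑ u, (∑ v ∈ univ.erase u, g n (e u, l u) (e v, l v)) / lam n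
        ≤ ∑ u, ((∑ v ∈ univ.erase u, γ (l u) (l v)) + N * ε) := by
          refine Finset.sum_le_sum fun u _ => ?_
          rw [Finset.sum_div]
          calc ∑ v ∈ univ.erase u, g n (e u, l u) (e v, l v) / lam n
              ≤ ∑ v ∈ univ.erase u, (γ (l u) (l v) + ε) :=
                Finset.sum_le_sum fun v hv => h3 u v (Finset.ne_of_mem_erase hv).symm
            _ = (∑ v ∈ univ.erase u, γ (l u) (l v)) + ((univ.erase u).card : ℝ) * ε := by
                rw [Finset.sum_add_distrib, Finset.sum_const, nsmul_eq_mul]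
            _ ≤ _ := by
                refine add_le_add le_rfl (mul_le_mul_of_nonneg_right ?_ hε.le)
                have h5 : (univ.erase u).card ≤ d ^ m := by
                  refine (Finset.card_le_univ _).trans ?_
                  rw [Fintype.card_fin]
                calc (((univ.erase u).card : ℕ) : ℝ) ≤ ((d ^ m : ℕ) : ℝ) := by exact_mod_cast h5
                  _ = N := by rw [hN]; push_cast; rfl
      _ = _ := by
          rw [Finset.sum_add_distrib, Finset.sum_const, nsmul_eq_mul, Finset.card_univ,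
            Fintype.card_fin]
          push_cast
          rw [← hN]
          ring
  have h5 : (-(2 * m * N * (lam n + C)) - 2 * N * Real.log N) / lam n ≤
      (∑ u, ∑ v ∈ univ.erase u, γ (l u) (l v)) + N * N * ε :=
    (div_le_div_of_nonneg_right h2 hl0.le).trans h4
  have h6 : -(2 * m * N) - D / lam n ≤
      (-(2 * m * N * (lam n + C)) - 2 * N * Real.log N) / lam n := by
    rw [le_div_iff₀ hl0, sub_mul, div_mul_cancel₀ _ hl0.ne', hD]
    have h7 : 2 * m * N * C ≤ 2 * m * N * |C| :=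
      mul_le_mul_of_nonneg_left (le_abs_self C) (by positivity)
    have h8 : 2 * N * Real.log N ≤ 2 * N * |Real.log N| :=
      mul_le_mul_of_nonneg_left (le_abs_self _) (by positivity)
    nlinarith [h7, h8]
  have h7 : D / lam n ≤ η / 2 := by
    rw [div_le_iff₀ hl0]
    have h8 : 2 * D / η < lam n := lt_of_lt_of_le hM (hnM.trans (hlam n))
    rw [div_lt_iff₀ hη] at h8
    linarith
  have h8 : N * N * ε ≤ η / 2 := by
    rw [hεd]
    have h9 : N * N * (η / (2 * (N * N + 1))) = η / 2 * (N * N / (N * N + 1)) := by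
      field_simp
    rw [h9]
    have h10 : N * N / (N * N + 1) ≤ 1 := by
      rw [div_le_one (by positivity)]
      linarith
    calc η / 2 * (N * N / (N * N + 1)) ≤ η / 2 * 1 :=
          mul_le_mul_of_nonneg_left h10 (by positivity)
      _ = η / 2 := mul_one _
  linarith

/-- (1.3): copositivity. -/
theorem copositive {P : Type*} [Fintype P] (d : ℕ) (hd : 2 ≤ d) (γ : P → P → ℝ)
    (hen : ∀ (m : ℕ) (l : Fin (d ^ m) → P),
      -(2 * m * (d : ℝ) ^ m) ≤ ∑ u, ∑ v ∈ univ.erase u, γ (l u) (l v))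
    (w : P → ℝ) (hw : ∀ p, 0 ≤ w p) : 0 ≤ ∑ p, ∑ q, w p * w q * γ p q := by
  classical
  have hd1 : (1 : ℝ) < d := by exact_mod_cast hd
  -- weights of sum one
  have main : ∀ w : P → ℝ, (∀ p, 0 ≤ w p) → ∑ p, w p = 1 → 0 ≤ ∑ p, ∑ q, w p * w q * γ p q := by
    intro w hw hw1
    have hne : (univ : Finset P).Nonempty := by
      rw [Finset.univ_nonempty_iff]
      by_contra h
      rw [not_nonempty_iff] at h
      rw [Finset.univ_eq_empty, Finset.sum_empty] at hw1
      exact zero_ne_one hw1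
    obtain ⟨p0, -⟩ := hne
    -- the numbers
    have hc : ∀ m : ℕ, ∃ c : P → ℕ, ∑ p, c p = d ^ m ∧
        ∀ p, |(c p : ℝ) - w p * (d : ℝ) ^ m| ≤ Fintype.card P := by
      intro m
      set N : ℝ := (d : ℝ) ^ m with hN
      have hN0 : 0 ≤ N := by positivity
      let f : P → ℕ := fun p => ⌊w p * N⌋₊
      have hf1 : ∀ p, (f p : ℝ) ≤ w p * N := fun p => Nat.floor_le (mul_nonneg (hw p) hN0)
      have hf2 : ∀ p, w p * N < f p + 1 := fun p => Nat.lt_floor_add_one _
      have hsplit : ∀ h : P → ℝ, ∑ p, h p = h p0 + ∑ p ∈ univ.erase p0, h p := fun h =>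
        (Finset.add_sum_erase univ h (Finset.mem_univ p0)).symm
      have hsumN : ∑ p, w p * N = N := by rw [← Finset.sum_mul, hw1, one_mul]
      have hle : ∑ p ∈ univ.erase p0, f p ≤ d ^ m := by
        have h1 : ((∑ p ∈ univ.erase p0, f p : ℕ) : ℝ) ≤ ((d ^ m : ℕ) : ℝ) := by
          push_cast
          rw [← hN]
          calc ∑ p ∈ univ.erase p0, (f p : ℝ) ≤ ∑ p ∈ univ.erase p0, w p * N :=
                Finset.sum_le_sum fun p _ => hf1 p
            _ ≤ ∑ p, w p * N := by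
                rw [hsplit (fun p => w p * N)]
                linarith [mul_nonneg (hw p0) hN0]
            _ = N := hsumN
        exact_mod_cast h1
      refine ⟨fun p => if p = p0 then d ^ m - ∑ p ∈ univ.erase p0, f p else f p, ?_, ?_⟩
      · rw [← Finset.add_sum_erase univ _ (Finset.mem_univ p0), if_pos rfl,
          Finset.sum_congr rfl (fun p hp => if_neg (Finset.ne_of_mem_erase hp))]
        exact Nat.sub_add_cancel hle
      · intro p
        have hcard : ((univ.erase p0).card : ℝ) ≤ Fintype.card P := by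
          exact_mod_cast Finset.card_le_univ _
        have hcard1 : (1 : ℝ) ≤ Fintype.card P := by
          exact_mod_cast Fintype.card_pos_iff.2 ⟨p0⟩
        simp only
        by_cases hp : p = p0
        · rw [hp, if_pos rfl, Nat.cast_sub hle]
          push_cast
          rw [← hN]
          have h2 : N - ∑ p ∈ univ.erase p0, (f p : ℝ) - w p0 * N =
              ∑ p ∈ univ.erase p0, (w p * N - f p) := by
            rw [Finset.sum_sub_distrib]
            have h3 := hsplit (fun p => w p * N)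
            rw [hsumN] at h3
            linarith
          rw [h2, abs_of_nonneg (Finset.sum_nonneg fun p _ => by linarith [hf1 p])]
          calc ∑ p ∈ univ.erase p0, (w p * N - f p) ≤ ∑ p ∈ univ.erase p0, (1 : ℝ) :=
                Finset.sum_le_sum fun p _ => by linarith [hf2 p]
            _ ≤ Fintype.card P := by
                rw [Finset.sum_const, nsmul_eq_mul, mul_one]
                exact hcard
        · rw [if_neg hp, abs_le]
          constructor <;> linarith [hf1 p, hf2 p]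
    choose c hc1 hc2 using hc
    -- the labels
    have hl : ∀ m : ℕ, ∃ l : Fin (d ^ m) → P, ∀ h : P → ℝ, ∑ u, h (l u) = ∑ p, (c m p : ℝ) * h p := by
      intro m
      have hcard : Fintype.card (Σ p, Fin (c m p)) = d ^ m := by
        rw [Fintype.card_sigma, ← hc1 m]
        exact Finset.sum_congr rfl fun p _ => Fintype.card_fin _
      let e : (Σ p, Fin (c m p)) ≃ Fin (d ^ m) := Fintype.equivFinOfCardEq hcard
      refine ⟨fun u => (e.symm u).1, fun h => ?_⟩
      rw [Equiv.sum_comp e.symm (fun x => h x.1), Fintype.sum_sigma]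
      refine Finset.sum_congr rfl fun p _ => ?_
      change ∑ _y : Fin (c m p), h p = _
      rw [Finset.sum_const, Finset.card_univ, Fintype.card_fin, nsmul_eq_mul]
    choose l hl using hl
    have hpow : ∀ m : ℕ, (0 : ℝ) < (d : ℝ) ^ m := fun m => by positivity
    have hlim0 : Tendsto (fun m : ℕ => (1 : ℝ) / (d : ℝ) ^ m) atTop (𝓝 0) := by
      have h1 := tendsto_pow_atTop_nhds_zero_of_lt_one (r := (1 : ℝ) / d) (by positivity)
        ((div_lt_one (by linarith)).2 hd1)
      refine h1.congr fun m => ?_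
      rw [div_pow, one_pow]
    have hlim1 : Tendsto (fun m : ℕ => (m : ℝ) / (d : ℝ) ^ m) atTop (𝓝 0) := by
      have h1 := tendsto_self_mul_const_pow_of_lt_one (r := (1 : ℝ) / d) (by positivity)
        ((div_lt_one (by linarith)).2 hd1)
      refine h1.congr fun m => ?_
      rw [div_pow, one_pow, mul_one_div]
    have ha : ∀ p, Tendsto (fun m : ℕ => (c m p : ℝ) / (d : ℝ) ^ m) atTop (𝓝 (w p)) := by
      intro p
      rw [tendsto_iff_dist_tendsto_zero]
      refine squeeze_zero (fun _ => dist_nonneg) (g := fun m : ℕ =>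
        (Fintype.card P : ℝ) * (1 / (d : ℝ) ^ m)) (fun m => ?_) ?_
      · rw [Real.dist_eq]
        have h1 : (c m p : ℝ) / (d : ℝ) ^ m - w p = ((c m p : ℝ) - w p * (d : ℝ) ^ m) / (d : ℝ) ^ m := by
          rw [sub_div, mul_div_cancel_right₀ _ (hpow m).ne']
        rw [h1, abs_div, abs_of_pos (hpow m), mul_one_div]
        exact div_le_div_of_nonneg_right (hc2 m p) (hpow m).le
      · have h1 := hlim0.const_mul (Fintype.card P : ℝ)
        rwa [mul_zero] at h1
    have hT : Tendsto (fun m : ℕ => ∑ p, ∑ q, (c m p : ℝ) / (d : ℝ) ^ m * ((c m q : ℝ) / (d : ℝ) ^ m) *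
        γ p q) atTop (𝓝 (∑ p, ∑ q, w p * w q * γ p q)) :=
      tendsto_finsetSum _ fun p _ => tendsto_finsetSum _ fun q _ =>
        ((ha p).mul (ha q)).mul_const _
    set G : ℝ := ∑ p, |γ p p| with hG
    have hL : Tendsto (fun m : ℕ => -(2 * ((m : ℝ) / (d : ℝ) ^ m)) - G * (1 / (d : ℝ) ^ m)) atTop
        (𝓝 0) := by
      have h1 := ((hlim1.const_mul 2).neg).sub (hlim0.const_mul G)
      simpa using h1
    refine le_of_tendsto_of_tendsto' hL hT fun m => ?_
    have hN := hpow m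
    have h1 := hen m (l m)
    have h2 : ∑ u, ∑ v ∈ univ.erase u, γ (l m u) (l m v) =
        (∑ p, ∑ q, (c m p : ℝ) * (c m q : ℝ) * γ p q) - ∑ p, (c m p : ℝ) * γ p p := by
      have h3 : ∀ u, ∑ v ∈ univ.erase u, γ (l m u) (l m v) =
          (∑ q, (c m q : ℝ) * γ (l m u) q) - γ (l m u) (l m u) := by
        intro u
        rw [← hl m (fun q => γ (l m u) q), ← Finset.add_sum_erase univ _ (Finset.mem_univ u)]
        ring
      rw [Finset.sum_congr rfl fun u _ => h3 u, Finset.sum_sub_distrib,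
        hl m (fun p => ∑ q, (c m q : ℝ) * γ p q), hl m (fun p => γ p p)]
      congr 1
      refine Finset.sum_congr rfl fun p _ => ?_
      rw [Finset.mul_sum]
      exact Finset.sum_congr rfl fun q _ => by ring
    have hcN : ∀ p, (c m p : ℝ) ≤ (d : ℝ) ^ m := by
      intro p
      have h3 : c m p ≤ d ^ m := by
        rw [← hc1 m]
        exact Finset.single_le_sum (fun _ _ => Nat.zero_le _) (Finset.mem_univ p)
      exact_mod_cast h3
    have h3 : -((d : ℝ) ^ m * G) ≤ ∑ p, (c m p : ℝ) * γ p p := by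
      rw [hG, Finset.mul_sum, ← Finset.sum_neg_distrib]
      refine Finset.sum_le_sum fun p _ => ?_
      have h4 : (c m p : ℝ) * |γ p p| ≤ (d : ℝ) ^ m * |γ p p| :=
        mul_le_mul_of_nonneg_right (hcN p) (abs_nonneg _)
      have h5 : (c m p : ℝ) * -|γ p p| ≤ (c m p : ℝ) * γ p p :=
        mul_le_mul_of_nonneg_left (neg_abs_le _) (Nat.cast_nonneg _)
      linarith
    have h4 : ∑ p, ∑ q, (c m p : ℝ) / (d : ℝ) ^ m * ((c m q : ℝ) / (d : ℝ) ^ m) * γ p q =
        (∑ p, ∑ q, (c m p : ℝ) * (c m q : ℝ) * γ p q) / ((d : ℝ) ^ m) ^ 2 := by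
      rw [Finset.sum_div]
      refine Finset.sum_congr rfl fun p _ => ?_
      rw [Finset.sum_div]
      refine Finset.sum_congr rfl fun q _ => ?_
      field_simp
    rw [h4, le_div_iff₀ (by positivity)]
    rw [h2] at h1
    have h5 : (-(2 * ((m : ℝ) / (d : ℝ) ^ m)) - G * (1 / (d : ℝ) ^ m)) * ((d : ℝ) ^ m) ^ 2 =
        -(2 * m * (d : ℝ) ^ m) - (d : ℝ) ^ m * G := by
      field_simp
    rw [h5]
    linarith
  -- general weights
  rcases (Finset.sum_nonneg fun p _ => hw p : (0 : ℝ) ≤ ∑ p, w p).eq_or_lt with h0 | h0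
  · have h1 : ∀ p, w p = 0 := by
      intro p
      exact (Finset.sum_eq_zero_iff_of_nonneg fun p _ => hw p).1 h0.symm p (Finset.mem_univ p)
    simp [h1]
  · set s : ℝ := ∑ p, w p with hs
    have h1 := main (fun p => w p / s) (fun p => div_nonneg (hw p) h0.le) (by
      rw [← Finset.sum_div, ← hs, div_self h0.ne'])
    have h2 : ∑ p, ∑ q, w p * w q * γ p q = s ^ 2 * ∑ p, ∑ q, w p / s * (w q / s) * γ p q := by
      rw [Finset.mul_sum]
      refine Finset.sum_congr rfl fun p _ => ?_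
      rw [Finset.mul_sum]
      refine Finset.sum_congr rfl fun q _ => ?_
      field_simp
    rw [h2]
    exact mul_nonneg (sq_nonneg s) h1

end Pool.Agent.RI
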