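import Mathlib
import Pool.Agent.RI.Defs
import Pool.Agent.RI.Pre
import Pool.Agent.RI.LimP

set_option autoImplicit false

/-!
# The limit is a tree kernel
-/

namespace Pool.Agent.RI

open Polynomial Pool.Agent.RDF Filter Topology

theorem LimD.comap {d : ℕ} {P Q : Type} {D : ℕ → Dat d} {t : ℕ → ℕ}
    {x : ∀ n, Fin (t n) → P → (D n).Om × (D n).Om} {Lam : ℝ} {j : P → P → ℝ} {h : P → ℝ}
    (H : LimD D t x Lam j h) (ι : Q → P) :
    LimD D t (fun n i q => x n i (ι q)) Lam (fun a b => j (ι a) (ι b)) (fun a => h (ι a)) := by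
  refine ⟨fun ε hε r => ?_, H.lam, fun n i p => H.pv n i (ι p), H.pos⟩
  obtain ⟨n, hn, e, he, h1, h2⟩ := H.app ε hε r
  exact ⟨n, hn, e, he, fun a b hab p q => h1 a b hab (ι p) (ι q), fun a p => h2 a (ι p)⟩

namespace LimDAux

section

variable {L : Type*} [Field L] (abv : AbsoluteValue L ℝ)

theorem nrm_pos {x : L × L} (hx : x ≠ 0) : 0 < nrm abv x := by
  unfold nrm
  by_contra h
  rw [not_lt] at h
  have h1 : abv x.1 ≤ 0 := (le_max_left _ _).trans h
  have h2 : abv x.2 ≤ 0 := (le_max_right _ _).trans h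
  have h3 : x.1 = 0 := abv.eq_zero.1 (le_antisymm h1 (abv.nonneg _))
  have h4 : x.2 = 0 := abv.eq_zero.1 (le_antisymm h2 (abv.nonneg _))
  exact hx (Prod.ext h3 h4)

theorem nrm_nonneg (x : L × L) : 0 ≤ nrm abv x := (abv.nonneg _).trans (le_max_left _ _)

theorem wedge_comm_abv (x y : L × L) : abv (wedge x y) = abv (wedge y x) := by
  have h : wedge x y = -wedge y x := by unfold wedge; ring
  rw [h, abv.map_neg]

theorem wedge_le (x y : L × L) : abv (wedge x y) ≤ 2 * (nrm abv x * nrm abv y) := by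
  unfold wedge
  have h1 : abv (x.1 * y.2 - y.1 * x.2) ≤ abv x.1 * abv y.2 + abv y.1 * abv x.2 := by
    rw [← abv.map_mul, ← abv.map_mul]
    exact abv.sub_le_add _ _
  have h2 : abv x.1 * abv y.2 ≤ nrm abv x * nrm abv y :=
    mul_le_mul (le_max_left _ _) (le_max_right _ _) (abv.nonneg _) (nrm_nonneg abv x)
  have h3 : abv y.1 * abv x.2 ≤ nrm abv x * nrm abv y := by
    rw [mul_comm]
    exact mul_le_mul (le_max_right _ _) (le_max_left _ _) (abv.nonneg _) (nrm_nonneg abv x)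
  linarith

theorem wedge_tri (x y z : L × L) : abv (wedge x z) * nrm abv y ≤
    abv (wedge x y) * nrm abv z + abv (wedge y z) * nrm abv x := by
  have e1 : wedge x z * y.1 = wedge x y * z.1 + wedge y z * x.1 := by unfold wedge; ring
  have e2 : wedge x z * y.2 = wedge x y * z.2 + wedge y z * x.2 := by unfold wedge; ring
  have h2 : abv (wedge x z) * abv y.1 ≤ abv (wedge x y) * nrm abv z + abv (wedge y z) * nrm abv x := by
    rw [← abv.map_mul, e1]
    refine (abv.add_le _ _).trans ?_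
    rw [abv.map_mul, abv.map_mul]
    exact add_le_add (mul_le_mul_of_nonneg_left (le_max_left _ _) (abv.nonneg _))
      (mul_le_mul_of_nonneg_left (le_max_left _ _) (abv.nonneg _))
  have h3 : abv (wedge x z) * abv y.2 ≤ abv (wedge x y) * nrm abv z + abv (wedge y z) * nrm abv x := by
    rw [← abv.map_mul, e2]
    refine (abv.add_le _ _).trans ?_
    rw [abv.map_mul, abv.map_mul]
    exact add_le_add (mul_le_mul_of_nonneg_left (le_max_right _ _) (abv.nonneg _))
      (mul_le_mul_of_nonneg_left (le_max_right _ _) (abv.nonneg _))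
  have h4 : abv (wedge x z) * nrm abv y =
      max (abv (wedge x z) * abv y.1) (abv (wedge x z) * abv y.2) :=
    mul_max_of_nonneg _ _ (abv.nonneg _)
  rw [h4]
  exact max_le h2 h3

theorem JJ_symm (Λ : ℝ) (x y : L × L) : JJ abv Λ x y = JJ abv Λ y x := by
  unfold JJ
  rw [wedge_comm_abv abv x y, mul_comm (nrm abv x)]

theorem JJ_le (Λ : ℝ) (x y : L × L) : JJ abv Λ x y ≤ Λ := by
  unfold JJ
  have h1 := Real.log_le_log (Real.exp_pos (-Λ)) (le_max_right
    (abv (wedge x y) / (nrm abv x * nrm abv y)) (Real.exp (-Λ)))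
  rw [Real.log_exp] at h1
  linarith

theorem ratio_le (x y : L × L) : abv (wedge x y) / (nrm abv x * nrm abv y) ≤ 2 := by
  have h1 : 0 ≤ nrm abv x * nrm abv y := mul_nonneg (nrm_nonneg abv x) (nrm_nonneg abv y)
  rcases h1.eq_or_lt with h2 | h2
  · rw [← h2, div_zero]
    norm_num
  · rw [div_le_iff₀ h2]
    exact wedge_le abv x y

theorem JJ_ge {Λ : ℝ} (hΛ : 0 ≤ Λ) (x y : L × L) : -Real.log 2 ≤ JJ abv Λ x y := by
  unfold JJ
  have h1 : max (abv (wedge x y) / (nrm abv x * nrm abv y)) (Real.exp (-Λ)) ≤ 2 := by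
    refine max_le (ratio_le abv x y) ?_
    have h2 : Real.exp (-Λ) ≤ 1 := Real.exp_le_one_iff.2 (by linarith)
    linarith
  have h2 := Real.log_le_log (lt_of_lt_of_le (Real.exp_pos (-Λ)) (le_max_right
    (abv (wedge x y) / (nrm abv x * nrm abv y)) (Real.exp (-Λ)))) h1
  linarith

theorem JJ_tri (Λ : ℝ) {x y z : L × L} (hx : x ≠ 0) (hy : y ≠ 0) (hz : z ≠ 0) :
    min (JJ abv Λ x y) (JJ abv Λ y z) - Real.log 2 ≤ JJ abv Λ x z := by
  have hx0 := nrm_pos abv hx
  have hy0 := nrm_pos abv hy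
  have hz0 := nrm_pos abv hz
  set E : ℝ := Real.exp (-Λ) with hE
  have hE0 : 0 < E := Real.exp_pos _
  set r1 : ℝ := abv (wedge x y) / (nrm abv x * nrm abv y) with hr1
  set r2 : ℝ := abv (wedge y z) / (nrm abv y * nrm abv z) with hr2
  set r3 : ℝ := abv (wedge x z) / (nrm abv x * nrm abv z) with hr3
  have h1 : r3 ≤ r1 + r2 := by
    have h2 := wedge_tri abv x y z
    have h3 : r1 + r2 = (abv (wedge x y) * nrm abv z + abv (wedge y z) * nrm abv x) /
        (nrm abv x * nrm abv y * nrm abv z) := by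
      rw [hr1, hr2]
      field_simp
    have h4 : r3 = abv (wedge x z) * nrm abv y / (nrm abv x * nrm abv y * nrm abv z) := by
      rw [hr3]
      field_simp
    rw [h3, h4]
    exact div_le_div_of_nonneg_right h2 (by positivity)
  have h2 : max r3 E ≤ 2 * max (max r1 E) (max r2 E) := by
    have h3 : r1 ≤ max (max r1 E) (max r2 E) := (le_max_left _ _).trans (le_max_left _ _)
    have h4 : r2 ≤ max (max r1 E) (max r2 E) := (le_max_left _ _).trans (le_max_right _ _)
    have h5 : E ≤ max (max r1 E) (max r2 E) := (le_max_right _ _).trans (le_max_right _ _)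
    refine max_le (by linarith) (by linarith)
  have hm : 0 < max (max r1 E) (max r2 E) :=
    lt_of_lt_of_le hE0 ((le_max_right _ _).trans (le_max_right _ _))
  have h3 := Real.log_le_log (lt_of_lt_of_le hE0 (le_max_right r3 E)) h2
  rw [Real.log_mul two_ne_zero hm.ne'] at h3
  have h4 : min (JJ abv Λ x y) (JJ abv Λ y z) ≤ -Real.log (max (max r1 E) (max r2 E)) := by
    rcases le_total (max r1 E) (max r2 E) with h | h
    · rw [max_eq_right h]
      exact min_le_right _ _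
    · rw [max_eq_left h]
      exact min_le_left _ _
  have h5 : JJ abv Λ x z = -Real.log (max r3 E) := rfl
  rw [h5]
  linarith

end

/-- Limits of symmetric almost ultrametric arrays. -/
theorem lim_tree_gen {P : Type*} (I : ℕ → Type) (J : ∀ n, I n → P → I n → P → ℝ) (δ : ℕ → ℝ)
    (hδ : Tendsto δ atTop (𝓝 0)) (hsym : ∀ n i p k q, J n i p k q = J n k q i p)
    (hnn : ∀ n i p k q, -δ n ≤ J n i p k q)
    (htri : ∀ n i p k q l r, min (J n i p k q) (J n k q l r) - δ n ≤ J n i p l r) (j : P → P → ℝ)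
    (happ : ∀ ε : ℝ, 0 < ε → ∀ r m : ℕ, ∃ n : ℕ, m ≤ n ∧ ∃ e : Fin r → I n,
      ∀ a b, a < b → ∀ p q, |J n (e a) p (e b) q - j p q| ≤ ε) :
    (∀ p q, j p q = j q p) ∧ (∀ p q, 0 ≤ j p q) ∧ ∀ p q r, min (j p q) (j q r) ≤ j p r := by
  have hδ' : ∀ ε : ℝ, 0 < ε → ∃ m : ℕ, ∀ n, m ≤ n → δ n ≤ ε := by
    intro ε hε
    have h1 := (tendsto_order.1 hδ).2 ε hε
    rw [eventually_atTop] at h1
    obtain ⟨m, hm⟩ := h1
    exact ⟨m, fun n hn => (hm n hn).le⟩
  have aux : ∀ (a b c a' b' c' ε δ' : ℝ), |a - a'| ≤ ε → |b - b'| ≤ ε → |c - c'| ≤ ε → δ' ≤ ε →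
      min a b - δ' ≤ c → min a' b' ≤ c' + 3 * ε := by
    intro a b c a' b' c' ε δ' h1 h2 h3 h4 h5
    rw [abs_le] at h1 h2 h3
    rcases le_total a b with h | h
    · rw [min_eq_left h] at h5
      exact (min_le_left _ _).trans (by linarith [h1.1, h1.2, h3.1, h3.2])
    · rw [min_eq_right h] at h5
      exact (min_le_right _ _).trans (by linarith [h2.1, h2.2, h3.1, h3.2])
  have key : ∀ ε : ℝ, 0 < ε → ∃ (n : ℕ) (e : Fin 3 → I n), δ n ≤ ε ∧
      ∀ a b, a < b → ∀ x y, |J n (e a) x (e b) y - j x y| ≤ ε := by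
    intro ε hε
    obtain ⟨m, hm⟩ := hδ' ε hε
    obtain ⟨n, hn, e, h1⟩ := happ ε hε 3 m
    exact ⟨n, e, hm n hn, h1⟩
  have h01 : (0 : Fin 3) < 1 := by decide
  have h12 : (1 : Fin 3) < 2 := by decide
  have h02 : (0 : Fin 3) < 2 := by decide
  have hA : ∀ p q r, min (j p q) (j q r) ≤ j p r := by
    intro p q r
    refine le_of_forall_pos_le_add fun ε hε => ?_
    obtain ⟨n, e, hn, h1⟩ := key (ε / 3) (by positivity)
    have h3 := aux _ _ _ _ _ _ _ _ (h1 0 1 h01 p q) (h1 1 2 h12 q r) (h1 0 2 h02 p r) hn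
      (htri n (e 0) p (e 1) q (e 2) r)
    linarith
  have hB : ∀ p q r, min (j p q) (j r q) ≤ j p r := by
    intro p q r
    refine le_of_forall_pos_le_add fun ε hε => ?_
    obtain ⟨n, e, hn, h1⟩ := key (ε / 3) (by positivity)
    have h2 := htri n (e 0) p (e 2) q (e 1) r
    rw [hsym n (e 2) q (e 1) r] at h2
    have h3 := aux _ _ _ _ _ _ _ _ (h1 0 2 h02 p q) (h1 1 2 h12 r q) (h1 0 1 h01 p r) hn h2
    linarith
  have hC : ∀ p q r, min (j q p) (j q r) ≤ j p r := by
    intro p q r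
    refine le_of_forall_pos_le_add fun ε hε => ?_
    obtain ⟨n, e, hn, h1⟩ := key (ε / 3) (by positivity)
    have h2 := htri n (e 1) p (e 0) q (e 2) r
    rw [hsym n (e 1) p (e 0) q] at h2
    have h3 := aux _ _ _ _ _ _ _ _ (h1 0 1 h01 q p) (h1 0 2 h02 q r) (h1 1 2 h12 p r) hn h2
    linarith
  have hd : ∀ p q, j p q ≤ j p p := fun p q => by
    have := hB p q p
    rwa [min_self] at this
  have hs : ∀ p q, j q p ≤ j p q := fun p q => by
    have := hC p q q
    rwa [min_eq_left (hd q p)] at this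
  refine ⟨fun p q => le_antisymm (hs q p) (hs p q), fun p q => ?_, hA⟩
  refine le_of_forall_pos_le_add fun ε hε => ?_
  obtain ⟨n, e, hn, h1⟩ := key (ε / 2) (by positivity)
  have h2 := hnn n (e 0) p (e 1) q
  have h3 := h1 0 1 h01 p q
  rw [abs_le] at h3
  linarith [h3.1, h3.2]

/-- `App` with a bound for `n` which does not depend on `r`. -/
theorem app_ge {d : ℕ} {P : Type} {D : ℕ → Dat d} {t : ℕ → ℕ}
    {x : ∀ n, Fin (t n) → P → (D n).Om × (D n).Om} {Lam : ℝ} {j : P → P → ℝ} {h : P → ℝ}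
    (H : App D t x Lam j h) (ε : ℝ) (hε : 0 < ε) (r m : ℕ) :
    ∃ n, m ≤ n ∧ r ≤ n ∧ ∃ e : Fin r → Fin (t n), StrictMono e ∧
    (∀ a b, a < b → ∀ p q,
      |JJ (D n).abv (Lam * (D n).lam) (x n (e a) p) (x n (e b) q) / (D n).lam - j p q| ≤ ε) ∧
    ∀ a p, |Real.log (nrm (D n).abv (x n (e a) p)) / (D n).lam - h p| ≤ ε := by
  obtain ⟨n, hn, e, he, h1, h2⟩ := H ε hε (max r m)
  refine ⟨n, (le_max_right _ _).trans hn, (le_max_left _ _).trans hn,
    fun a => e (Fin.castLE (le_max_left _ _) a), ?_, ?_, fun a p => h2 _ p⟩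
  · intro a b hab
    exact he (by simpa using hab)
  · intro a b hab p q
    exact h1 _ _ (by simpa using hab) p q

end LimDAux

open LimDAux

theorem LimD.lam_nonneg {d : ℕ} {P : Type} {D : ℕ → Dat d} {t : ℕ → ℕ}
    {x : ∀ n, Fin (t n) → P → (D n).Om × (D n).Om} {Lam : ℝ} {j : P → P → ℝ} {h : P → ℝ}
    (H : LimD D t x Lam j h) (n : ℕ) : 0 ≤ (D n).lam :=
  (Nat.cast_nonneg n).trans (H.lam n)

theorem LimD.tree {d : ℕ} {P : Type} {D : ℕ → Dat d} {t : ℕ → ℕ}
    {x : ∀ n, Fin (t n) → P → (D n).Om × (D n).Om} {Lam : ℝ} {j : P → P → ℝ} {h : P → ℝ}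
    (H : LimD D t x Lam j h) :
    (∀ p q, j p q = j q p) ∧ (∀ p q, 0 ≤ j p q) ∧ ∀ p q r, min (j p q) (j q r) ≤ j p r := by
  have hlog : 0 ≤ Real.log 2 := Real.log_nonneg one_le_two
  refine lim_tree_gen (fun n => Fin (t n)) (fun n i p k q =>
    JJ (D n).abv (Lam * (D n).lam) (x n i p) (x n k q) / (D n).lam)
    (fun n => Real.log 2 / (D n).lam) ?_ ?_ ?_ ?_ j ?_
  · refine squeeze_zero' (g := fun n : ℕ => Real.log 2 / n)
      (Eventually.of_forall fun n => div_nonneg hlog (H.lam_nonneg n)) ?_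
      (tendsto_const_div_atTop_nhds_zero_nat _)
    filter_upwards [eventually_ge_atTop 1] with n hn
    exact div_le_div_of_nonneg_left hlog (by exact_mod_cast hn) (H.lam n)
  · intro n i p k q
    rw [JJ_symm]
  · intro n i p k q
    rw [← neg_div]
    exact div_le_div_of_nonneg_right (JJ_ge _ (mul_nonneg H.pos (H.lam_nonneg n)) _ _)
      (H.lam_nonneg n)
  · intro n i p k q l r
    have h1 := JJ_tri (D n).abv (Lam * (D n).lam) (H.pv n i p).1 (H.pv n k q).1 (H.pv n l r).1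
    have h2 := div_le_div_of_nonneg_right h1 (H.lam_nonneg n)
    rw [sub_div, min_div_div_right (H.lam_nonneg n)] at *
    exact h2
  · intro ε hε r m
    obtain ⟨n, hn, -, e, he, h1, -⟩ := app_ge H.app ε hε r m
    exact ⟨n, hn, e, h1⟩

theorem LimD.treeK {d : ℕ} (hd : 2 ≤ d) {P : Type} {D : ℕ → Dat d} {t : ℕ → ℕ}
    {x : ∀ n, Fin (t n) → P → (D n).Om × (D n).Om} {Lam : ℝ} {j : P → P → ℝ} {h : P → ℝ}
    (H : LimD D t x Lam j h) : TreeK j :=
  ⟨H.tree.1, H.tree.2.1, H.tree.2.2⟩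

theorem LimD.le_Lam {d : ℕ} (hd : 2 ≤ d) {P : Type} {D : ℕ → Dat d} {t : ℕ → ℕ}
    {x : ∀ n, Fin (t n) → P → (D n).Om × (D n).Om} {Lam : ℝ} {j : P → P → ℝ} {h : P → ℝ}
    (H : LimD D t x Lam j h) (p q : P) : j p q ≤ Lam := by
  refine le_of_forall_pos_le_add fun ε hε => ?_
  obtain ⟨n, hn, -, e, he, h1, -⟩ := app_ge H.app ε hε 2 1
  have hl : 0 < (D n).lam := lt_of_lt_of_le (by exact_mod_cast hn) (H.lam n)
  have h2 := h1 0 1 (by decide) p q
  have h3 : JJ (D n).abv (Lam * (D n).lam) (x n (e 0) p) (x n (e 1) q) / (D n).lam ≤ Lam := by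
    rw [div_le_iff₀ hl]
    exact JJ_le _ _ _ _
  rw [abs_le] at h2
  linarith [h2.1, h2.2]

/-- `0 ≤ h ≤ 1 / (d - 1)`. -/
theorem LimD.h_mem {d : ℕ} (hd : 2 ≤ d) {P : Type} {D : ℕ → Dat d} {t : ℕ → ℕ}
    {x : ∀ n, Fin (t n) → P → (D n).Om × (D n).Om} {Lam : ℝ} {j : P → P → ℝ} {h : P → ℝ}
    (H : LimD D t x Lam j h) (p : P) : 0 ≤ h p ∧ h p ≤ 1 / ((d : ℝ) - 1) := by
  obtain ⟨C, hC, hpv⟩ := pv_nrm d hd
  have hd1 : (0 : ℝ) < (d : ℝ) - 1 := by
    have : (2 : ℝ) ≤ d := by exact_mod_cast hd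
    linarith
  have hd2 : (1 : ℝ) ≤ (d : ℝ) - 1 := by
    have : (2 : ℝ) ≤ d := by exact_mod_cast hd
    linarith
  have key : ∀ ε : ℝ, 0 < ε → -ε ≤ h p ∧ h p ≤ 1 / ((d : ℝ) - 1) + ε := by
    intro ε hε
    obtain ⟨m, hm⟩ := exists_nat_gt (2 * C / ε)
    obtain ⟨n, hn, -, e, he, -, h2⟩ := app_ge H.app (ε / 2) (by positivity) 1 (max m 1)
    have hn1 : (1 : ℝ) ≤ n := by exact_mod_cast (le_max_right m 1).trans hn
    have hnm : (m : ℝ) ≤ n := by exact_mod_cast (le_max_left m 1).trans hn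
    have hl : 0 < (D n).lam := lt_of_lt_of_le (by linarith) (H.lam n)
    have h3 := hpv (D n) (x n (e 0) p) (H.pv n (e 0) p)
    rw [max_eq_left hl.le] at h3
    have h4 := h2 0 p
    rw [abs_le] at h4
    have h5 : C / (D n).lam ≤ ε / 2 := by
      rw [div_le_iff₀ hl]
      have h6 : 2 * C / ε < (D n).lam := lt_of_lt_of_le hm (hnm.trans (H.lam n))
      rw [div_lt_iff₀ hε] at h6
      linarith
    have h6 : -(C / (D n).lam) ≤ Real.log (nrm (D n).abv (x n (e 0) p)) / (D n).lam := by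
      rw [← neg_div]
      exact div_le_div_of_nonneg_right h3.1 hl.le
    have h7 : Real.log (nrm (D n).abv (x n (e 0) p)) / (D n).lam ≤
        1 / ((d : ℝ) - 1) + C / (D n).lam := by
      rw [div_le_iff₀ hl]
      refine h3.2.trans ?_
      rw [add_mul, div_mul_cancel₀ _ hl.ne', add_div, one_div, inv_mul_eq_div]
      refine add_le_add le_rfl ?_
      rw [div_le_iff₀ hd1]
      nlinarith
    constructor <;> linarith [h4.1, h4.2]
  constructor
  · refine le_of_forall_pos_le_add fun ε hε => ?_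
    linarith [(key ε hε).1]
  · exact le_of_forall_pos_le_add fun ε hε => (key ε hε).2

theorem LimD.gam_ge {d : ℕ} (hd : 2 ≤ d) {P : Type} {D : ℕ → Dat d} {t : ℕ → ℕ}
    {x : ∀ n, Fin (t n) → P → (D n).Om × (D n).Om} {Lam : ℝ} {j : P → P → ℝ} {h : P → ℝ}
    (H : LimD D t x Lam j h) (p q : P) : -2 ≤ gam d j h p q := by
  have hd2 : (1 : ℝ) ≤ (d : ℝ) - 1 := by
    have : (2 : ℝ) ≤ d := by exact_mod_cast hd
    linarith
  have h1 := H.tree.2.1 p q
  have h2 := (H.h_mem hd p).2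
  have h3 := (H.h_mem hd q).2
  have h4 : 1 / ((d : ℝ) - 1) ≤ 1 := by
    rw [div_le_one (by linarith)]
    exact hd2
  have h5 : 0 ≤ 1 / ((d : ℝ) * (d - 1)) := by positivity
  unfold gam
  linarith

/-- The working form of a limit: all distances in both orders, and the pairing for the free pairs
(`j p q < Lam`). -/
theorem LimD.good {d : ℕ} (hd : 2 ≤ d) {P : Type} {D : ℕ → Dat d} {t : ℕ → ℕ}
    {x : ∀ n, Fin (t n) → P → (D n).Om × (D n).Om} {Lam : ℝ} {j : P → P → ℝ} {h : P → ℝ}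
    [Finite P] (H : LimD D t x Lam j h) (ε : ℝ) (hε : 0 < ε) (r : ℕ) :
    ∃ n, r ≤ n ∧ 1 ≤ n ∧ ∃ e : Fin r → Fin (t n), StrictMono e ∧
      (∀ a b, a ≠ b → ∀ p q,
        |JJ (D n).abv (Lam * (D n).lam) (x n (e a) p) (x n (e b) q) / (D n).lam - j p q| ≤ ε) ∧
      (∀ a b, a ≠ b → ∀ p q, j p q < Lam → wedge (x n (e a) p) (x n (e b) q) ≠ 0 ∧
        |(D n).g (x n (e a) p) (x n (e b) q) / (D n).lam - gam d j h p q| ≤ ε) ∧
      ∀ a p, |Real.log (nrm (D n).abv (x n (e a) p)) / (D n).lam - h p| ≤ ε := by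
  classical
  have _ : Fintype P := Fintype.ofFinite P
  -- a small number
  have hη : ∃ η : ℝ, 0 < η ∧ ∀ p q, j p q < Lam → j p q + η < Lam := by
    have h1 : ∀ s : Finset (P × P), ∃ η : ℝ, 0 < η ∧ ∀ z ∈ s, j z.1 z.2 < Lam →
        j z.1 z.2 + η < Lam := by
      intro s
      induction s using Finset.induction_on with
      | empty => exact ⟨1, one_pos, fun z hz => absurd hz (Finset.notMem_empty z)⟩
      | insert z s _ ih =>
        obtain ⟨η, hη, h2⟩ := ih
        by_cases hz : j z.1 z.2 < Lam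
        · refine ⟨min η ((Lam - j z.1 z.2) / 2), lt_min hη (by linarith), ?_⟩
          intro y hy hy'
          rcases Finset.mem_insert.1 hy with h3 | h3
          · rw [h3]
            have := min_le_right η ((Lam - j z.1 z.2) / 2)
            linarith
          · have := min_le_left η ((Lam - j z.1 z.2) / 2)
            linarith [h2 y h3 hy']
        · refine ⟨η, hη, ?_⟩
          intro y hy hy'
          rcases Finset.mem_insert.1 hy with h3 | h3
          · rw [h3] at hy'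
            exact absurd hy' hz
          · exact h2 y h3 hy'
    obtain ⟨η, hη, h2⟩ := h1 Finset.univ
    exact ⟨η, hη, fun p q hpq => h2 (p, q) (Finset.mem_univ _) hpq⟩
  obtain ⟨η, hη, hη'⟩ := hη
  set δ : ℝ := min (ε / 3) η with hδd
  have hδ : 0 < δ := lt_min (by positivity) hη
  have hδ1 : δ ≤ ε / 3 := min_le_left _ _
  have hδ2 : δ ≤ η := min_le_right _ _
  obtain ⟨n, hn1, hnr, e, he, h1, h2⟩ := app_ge H.app δ hδ r 1
  have hl : 0 < (D n).lam := lt_of_lt_of_le (by exact_mod_cast hn1) (H.lam n)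
  have h3 : ∀ a b, a ≠ b → ∀ p q, |JJ (D n).abv (Lam * (D n).lam) (x n (e a) p) (x n (e b) q) /
      (D n).lam - j p q| ≤ δ := by
    intro a b hab p q
    rcases lt_or_gt_of_ne hab with h4 | h4
    · exact h1 a b h4 p q
    · rw [JJ_symm, H.tree.1 p q]
      exact h1 b a h4 q p
  refine ⟨n, hnr, hn1, e, he, fun a b hab p q => (h3 a b hab p q).trans (by linarith), ?_,
    fun a p => (h2 a p).trans (by linarith)⟩
  intro a b hab p q hpq
  have h4 := h3 a b hab p q
  have h5 := h2 a p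
  have h6 := h2 b q
  have hxa := LimDAux.nrm_pos (D n).abv (H.pv n (e a) p).1
  have hxb := LimDAux.nrm_pos (D n).abv (H.pv n (e b) q).1
  set W : ℝ := (D n).abv (wedge (x n (e a) p) (x n (e b) q)) with hW
  set Na : ℝ := nrm (D n).abv (x n (e a) p) with hNa
  set Nb : ℝ := nrm (D n).abv (x n (e b) q) with hNb
  have h7 : Real.exp (-(Lam * (D n).lam)) < W / (Na * Nb) := by
    by_contra h8
    rw [not_lt] at h8
    have h9 : JJ (D n).abv (Lam * (D n).lam) (x n (e a) p) (x n (e b) q) = Lam * (D n).lam := by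
      unfold JJ
      rw [max_eq_right h8, Real.log_exp, neg_neg]
    rw [h9, mul_div_cancel_right₀ _ hl.ne', abs_le] at h4
    have h10 := hη' p q hpq
    linarith [h4.2]
  have hW0 : W ≠ 0 := by
    intro h8
    rw [h8, zero_div] at h7
    exact absurd (Real.exp_pos (-(Lam * (D n).lam))) (not_lt.2 h7.le)
  refine ⟨fun h8 => hW0 (by rw [hW, h8, map_zero]), ?_⟩
  have h8 : JJ (D n).abv (Lam * (D n).lam) (x n (e a) p) (x n (e b) q) =
      -Real.log W + Real.log Na + Real.log Nb := by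
    unfold JJ
    rw [max_eq_left h7.le, Real.log_div hW0 (mul_pos hxa hxb).ne', Real.log_mul hxa.ne' hxb.ne']
    ring
  have h9 : (D n).g (x n (e a) p) (x n (e b) q) = -Real.log W + (D n).lam / (d * (d - 1)) := by
    unfold Dat.g gg Dat.lam
    rw [neg_div]
    ring
  have h10 : (D n).g (x n (e a) p) (x n (e b) q) / (D n).lam - gam d j h p q =
      (JJ (D n).abv (Lam * (D n).lam) (x n (e a) p) (x n (e b) q) / (D n).lam - j p q) -
      (Real.log Na / (D n).lam - h p) - (Real.log Nb / (D n).lam - h q) := by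
    rw [h8, h9]
    unfold gam
    have h11 : (-Real.log W + (D n).lam / (d * (d - 1))) / (D n).lam =
        -Real.log W / (D n).lam + 1 / (d * (d - 1)) := by
      rw [add_div]
      congr 1
      rw [div_div, mul_comm, ← div_div, div_self hl.ne']
    rw [h11]
    ring
  rw [h10, abs_le]
  rw [abs_le] at h4 h5 h6
  constructor <;> linarith [h4.1, h4.2, h5.1, h5.2, h6.1, h6.2]

end Pool.Agent.RI
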