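import Mathlib

/-!
Theorem R-infinity, section 1: Ramsey's theorem for pairs in the forms which are used
(colours; real values in a bounded interval; limits along a sequence of larger and larger arrays).
-/

namespace Pool.Agent.RI

open Finset Filter Topology

/-- End-homogeneous sequences. -/
theorem end_homog {κ : Type*} [Fintype κ] (L : ℕ) :
    ∃ N : ℕ, ∀ S : Finset ℕ, N ≤ S.card → ∀ col : ℕ → ℕ → κ,
      ∃ f : Fin L → ℕ, StrictMono f ∧ (∀ a, f a ∈ S) ∧
        ∃ c : Fin L → κ, ∀ a b, a < b → col (f a) (f b) = c a := by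
  classical
  induction L with
  | zero =>
    refine ⟨0, fun S _ col => ⟨Fin.elim0, fun a => a.elim0, fun a => a.elim0, Fin.elim0,
      fun a => a.elim0⟩⟩
  | succ L ih =>
    obtain ⟨N, hN⟩ := ih
    refine ⟨Fintype.card κ * N + 2, fun S hS col => ?_⟩
    have hne : S.Nonempty := by
      rw [← Finset.card_pos]; omega
    set m := S.min' hne with hm
    have hmS : m ∈ S := S.min'_mem hne
    set S' := S.erase m with hS'
    have hcard : Fintype.card κ * N < S'.card := by
      rw [hS', Finset.card_erase_of_mem hmS]; omega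
    obtain ⟨c0, _, hc0⟩ := Finset.exists_lt_card_fiber_of_mul_lt_card_of_maps_to
      (s := S') (t := (Finset.univ : Finset κ)) (f := fun s => col m s) (n := N)
      (fun _ _ => Finset.mem_univ _) (by rwa [Finset.card_univ])
    obtain ⟨f, hf, hfS, c, hc⟩ := hN (S'.filter fun s => col m s = c0) hc0.le col
    have hlt : ∀ a, m < f a := by
      intro a
      have h1 := hfS a
      rw [Finset.mem_filter, hS', Finset.mem_erase] at h1
      exact lt_of_le_of_ne (S.min'_le _ h1.1.2) (Ne.symm h1.1.1)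
    refine ⟨Fin.cons m f, ?_, ?_, Fin.cons c0 c, ?_⟩
    · intro a b hab
      revert hab
      refine Fin.cases ?_ (fun a' => ?_) a
      · intro h
        obtain ⟨b', rfl⟩ := Fin.exists_succ_eq.mpr (Fin.pos_iff_ne_zero.mp h)
        simpa using hlt b'
      · intro h
        have hb0 : b ≠ 0 := fun hb => by simp [hb] at h
        obtain ⟨b', rfl⟩ := Fin.exists_succ_eq.mpr hb0
        simpa using hf (Fin.succ_lt_succ_iff.mp h)
    · intro a
      refine Fin.cases ?_ (fun a' => ?_) a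
      · simpa using hmS
      · have h1 := hfS a'
        rw [Finset.mem_filter, hS', Finset.mem_erase] at h1
        simpa using h1.1.2
    · intro a b hab
      revert hab
      refine Fin.cases ?_ (fun a' => ?_) a
      · intro h
        obtain ⟨b', rfl⟩ := Fin.exists_succ_eq.mpr (Fin.pos_iff_ne_zero.mp h)
        have h1 := hfS b'
        rw [Finset.mem_filter] at h1
        simpa using h1.2
      · intro h
        have hb0 : b ≠ 0 := fun hb => by simp [hb] at h
        obtain ⟨b', rfl⟩ := Fin.exists_succ_eq.mpr hb0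
        simpa using hc a' b' (Fin.succ_lt_succ_iff.mp h)

/-- Ramsey's theorem for pairs `i < j` and finitely many colours. -/
theorem ramsey {κ : Type*} [Fintype κ] [Nonempty κ] (r : ℕ) :
    ∃ N : ℕ, ∀ S : Finset ℕ, N ≤ S.card → ∀ col : ℕ → ℕ → κ,
      ∃ f : Fin r → ℕ, StrictMono f ∧ (∀ a, f a ∈ S) ∧
        ∃ c : κ, ∀ a b, a < b → col (f a) (f b) = c := by
  classical
  obtain ⟨N, hN⟩ := end_homog (κ := κ) (Fintype.card κ * r + 1)
  refine ⟨N, fun S hS col => ?_⟩
  obtain ⟨f, hf, hfS, c, hc⟩ := hN S hS col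
  obtain ⟨c0, _, hc0⟩ := Finset.exists_lt_card_fiber_of_mul_lt_card_of_maps_to
    (s := (Finset.univ : Finset (Fin (Fintype.card κ * r + 1))))
    (t := (Finset.univ : Finset κ)) (f := c) (n := r)
    (fun _ _ => Finset.mem_univ _) (by simp)
  set A := Finset.univ.filter fun x => c x = c0 with hA
  let e : Fin r ↪o Fin (Fintype.card κ * r + 1) := Finset.orderEmbOfCardLe A hc0.le
  have he : ∀ x, e x ∈ A := fun x => Finset.orderEmbOfCardLe_mem A hc0.le x
  refine ⟨fun x => f (e x), fun x y h => hf (e.strictMono h), fun x => hfS _, c0, ?_⟩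
  intro x y h
  have h1 := he x
  rw [hA, Finset.mem_filter] at h1
  rw [hc _ _ (e.strictMono h), h1.2]

/-- Ramsey's theorem for finitely many real arrays with values in a bounded interval:
the values are constant up to `δ` on a large set. -/
theorem ramsey_real {ι : Type*} [Finite ι] (lo hi δ : ℝ) (hδ : 0 < δ) (r : ℕ) :
    ∃ N : ℕ, ∀ S : Finset ℕ, N ≤ S.card → ∀ a : ℕ → ℕ → ι → ℝ,
      (∀ i ∈ S, ∀ j ∈ S, i < j → ∀ e, a i j e ∈ Set.Icc lo hi) →
      ∃ f : Fin r → ℕ, StrictMono f ∧ (∀ x, f x ∈ S) ∧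
        ∃ v : ι → ℝ, ∀ x y, x < y → ∀ e, |a (f x) (f y) e - v e| ≤ δ := by
  classical
  have := Fintype.ofFinite ι
  set K : ℕ := ⌊(hi - lo) / δ⌋₊ with hK
  obtain ⟨N, hN⟩ := ramsey (κ := ι → Fin (K + 1)) r
  refine ⟨N, fun S hS a ha => ?_⟩
  let col : ℕ → ℕ → ι → Fin (K + 1) := fun i j e => Fin.ofNat (K + 1) ⌊(a i j e - lo) / δ⌋₊
  obtain ⟨f, hf, hfS, c, hc⟩ := hN S hS col
  refine ⟨f, hf, hfS, fun e => lo + δ * (c e : ℕ) + δ / 2, ?_⟩
  intro x y hxy e
  have h1 := ha _ (hfS x) _ (hfS y) (hf hxy) e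
  have h2 : col (f x) (f y) e = c e := by rw [hc x y hxy]
  have h3 : 0 ≤ (a (f x) (f y) e - lo) / δ := div_nonneg (by linarith [h1.1]) hδ.le
  have h4 : ⌊(a (f x) (f y) e - lo) / δ⌋₊ ≤ K := by
    rw [hK]
    exact Nat.floor_le_floor (div_le_div_of_nonneg_right (by linarith [h1.2]) hδ.le)
  have h5 : ((c e : Fin (K + 1)) : ℕ) = ⌊(a (f x) (f y) e - lo) / δ⌋₊ := by
    rw [← h2]
    simp only [col, Fin.ofNat]
    exact Nat.mod_eq_of_lt (by omega)
  have h6 := Nat.floor_le h3
  have h7 := Nat.lt_floor_add_one ((a (f x) (f y) e - lo) / δ)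
  rw [← h5] at h6 h7
  rw [le_div_iff₀ hδ] at h6
  rw [div_lt_iff₀ hδ] at h7
  rw [abs_le]
  constructor <;> nlinarith

/-- Limits of larger and larger arrays (pair values and single values). -/
theorem exists_limits {ι κ : Type*} [Finite ι] [Finite κ] (lo hi : ℝ)
    (a : ℕ → ℕ → ℕ → ι → ℝ) (b : ℕ → ℕ → κ → ℝ)
    (ha : ∀ n i j, i < j → j < n → ∀ e, a n i j e ∈ Set.Icc lo hi)
    (hb : ∀ n i, i < n → ∀ e, b n i e ∈ Set.Icc lo hi) :
    ∃ (j : ι → ℝ) (h : κ → ℝ), (∀ e, j e ∈ Set.Icc lo hi) ∧ (∀ e, h e ∈ Set.Icc lo hi) ∧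
      ∀ ε > 0, ∀ r : ℕ, ∃ n ≥ r, ∃ f : Fin r → ℕ, StrictMono f ∧ (∀ x, f x < n) ∧
        (∀ x y, x < y → ∀ e, |a n (f x) (f y) e - j e| ≤ ε) ∧
        ∀ x e, |b n (f x) e - h e| ≤ ε := by
  classical
  have := Fintype.ofFinite ι
  have := Fintype.ofFinite κ
  -- for every `k`: an array with a good set of size `k + 2`
  have hstep : ∀ k : ℕ, ∃ n ≥ k, ∃ f : Fin (k + 2) → ℕ, StrictMono f ∧ (∀ x, f x < n) ∧
      ∃ v : ι ⊕ κ → ℝ, (∀ e, v e ∈ Set.Icc lo hi) ∧
        (∀ x y, x < y → ∀ e, |a n (f x) (f y) e - v (Sum.inl e)| ≤ 1 / ((k : ℝ) + 1)) ∧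
        (∀ x y, x < y → ∀ e, |b n (f x) e - v (Sum.inr e)| ≤ 1 / ((k : ℝ) + 1)) := by
    intro k
    have hk : (0 : ℝ) < 1 / ((k : ℝ) + 1) / 2 := by positivity
    obtain ⟨N, hN⟩ := ramsey_real (ι := ι ⊕ κ) lo hi (1 / ((k : ℝ) + 1) / 2) hk (k + 2)
    set n := max N k with hn
    obtain ⟨f, hf, hfS, v, hv⟩ := hN (Finset.range n) (by rw [Finset.card_range]; exact le_max_left _ _)
      (fun i j e => Sum.elim (fun e => a n i j e) (fun e => b n i e) e) (by
        intro i hi' j hj hij e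
        rw [Finset.mem_range] at hi' hj
        rcases e with e | e
        · exact ha n i j hij hj e
        · exact hb n i hi' e)
    have h01 : (0 : Fin (k + 2)) < 1 := by
      rw [Fin.lt_def]; simp
    let g : ι ⊕ κ → ℝ := fun e => Sum.elim (fun e => a n (f 0) (f 1) e) (fun e => b n (f 0) e) e
    have hg : ∀ e, g e ∈ Set.Icc lo hi := by
      intro e
      rcases e with e | e
      · exact ha n _ _ (hf h01) (Finset.mem_range.mp (hfS _)) e
      · exact hb n _ (Finset.mem_range.mp (hfS _)) e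
    refine ⟨n, le_max_right _ _, f, hf, fun x => Finset.mem_range.mp (hfS x), g, hg, ?_, ?_⟩
    · intro x y hxy e
      have h1 := hv x y hxy (Sum.inl e)
      have h2 := hv 0 1 h01 (Sum.inl e)
      simp only [Sum.elim_inl] at h1 h2
      have h3 : a n (f x) (f y) e - g (Sum.inl e) =
        (a n (f x) (f y) e - v (Sum.inl e)) - (a n (f 0) (f 1) e - v (Sum.inl e)) := by
        simp only [g, Sum.elim_inl]; ring
      rw [h3]
      refine (abs_sub _ _).trans ?_
      linarith
    · intro x y hxy e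
      have h1 := hv x y hxy (Sum.inr e)
      have h2 := hv 0 1 h01 (Sum.inr e)
      simp only [Sum.elim_inr] at h1 h2
      have h3 : b n (f x) e - g (Sum.inr e) =
        (b n (f x) e - v (Sum.inr e)) - (b n (f 0) e - v (Sum.inr e)) := by
        simp only [g, Sum.elim_inr]; ring
      rw [h3]
      refine (abs_sub _ _).trans ?_
      linarith
  choose n hn f hf hfn v hv hv1 hv2 using hstep
  have hcomp : IsCompact (Set.univ.pi fun _ : ι ⊕ κ => Set.Icc lo hi) :=
    isCompact_univ_pi fun _ => isCompact_Icc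
  obtain ⟨w, hw, φ, hφ, hlim⟩ := hcomp.tendsto_subseq (x := v) (fun k e _ => hv k e)
  refine ⟨fun e => w (Sum.inl e), fun e => w (Sum.inr e), fun e => hw _ (Set.mem_univ _),
    fun e => hw _ (Set.mem_univ _), ?_⟩
  intro ε hε r
  have hev : ∀ᶠ k in atTop, ∀ e, |v (φ k) e - w e| ≤ ε / 2 := by
    rw [Filter.eventually_all]
    intro e
    have h1 : Tendsto (fun k => v (φ k) e) atTop (𝓝 (w e)) := (tendsto_pi_nhds.mp hlim) e
    have h2 := (Metric.tendsto_nhds.mp h1) (ε / 2) (by linarith)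
    filter_upwards [h2] with k hk
    rw [Real.dist_eq] at hk
    exact hk.le
  obtain ⟨k, hk1, hk2⟩ := (hev.and (eventually_ge_atTop (max r ⌈2 / ε⌉₊))).exists
  have hkφ : k ≤ φ k := hφ.id_le k
  have hrk : r ≤ φ k := (le_max_left _ _).trans (hk2.trans hkφ)
  have hsmall : 1 / ((φ k : ℝ) + 1) ≤ ε / 2 := by
    have h1 : 2 / ε ≤ (φ k : ℝ) :=
      (Nat.le_ceil _).trans (by exact_mod_cast (le_max_right _ _).trans (hk2.trans hkφ))
    rw [div_le_iff₀ (by positivity)]
    rw [div_le_iff₀ hε] at h1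
    nlinarith
  have hemb : r ≤ φ k + 2 := by omega
  refine ⟨n (φ k), hrk.trans (hn _), fun x => f (φ k) (Fin.castLE hemb x), ?_, fun x => hfn _ _,
    ?_, ?_⟩
  · intro x y hxy
    exact hf _ (Fin.strictMono_castLE hemb hxy)
  · intro x y hxy e
    have h1 := hv1 (φ k) (Fin.castLE hemb x) (Fin.castLE hemb y) (Fin.strictMono_castLE hemb hxy) e
    have h2 := hk1 (Sum.inl e)
    have h3 : a (n (φ k)) (f (φ k) (Fin.castLE hemb x)) (f (φ k) (Fin.castLE hemb y)) e
        - w (Sum.inl e) =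
      (a (n (φ k)) (f (φ k) (Fin.castLE hemb x)) (f (φ k) (Fin.castLE hemb y)) e
        - v (φ k) (Sum.inl e)) + (v (φ k) (Sum.inl e) - w (Sum.inl e)) := by ring
    rw [h3]
    refine (abs_add_le _ _).trans ?_
    linarith
  · intro x e
    have hlast : Fin.castLE hemb x < Fin.last (φ k + 1) := by
      rw [Fin.lt_def]
      simp only [Fin.val_castLE, Fin.val_last]
      have := x.isLt
      omega
    have h1 := hv2 (φ k) (Fin.castLE hemb x) (Fin.last (φ k + 1)) hlast e
    have h2 := hk1 (Sum.inr e)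
    have h3 : b (n (φ k)) (f (φ k) (Fin.castLE hemb x)) e - w (Sum.inr e) =
      (b (n (φ k)) (f (φ k) (Fin.castLE hemb x)) e
        - v (φ k) (Sum.inr e)) + (v (φ k) (Sum.inr e) - w (Sum.inr e)) := by ring
    rw [h3]
    refine (abs_add_le _ _).trans ?_
    linarith

end Pool.Agent.RI
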