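import Mathlib
import Pool.Agent.RI.Defs
import Pool.Agent.RI.Pre
import Pool.Agent.RI.Ramsey

set_option autoImplicit false

/-!
# Homogeneous bad families
-/

namespace Pool.Agent.RI

open Polynomial Pool.Agent.RDF

namespace BadAux

/-- Truncation at a smaller threshold. -/
theorem JJ_min {L : Type*} [Field L] (abv : AbsoluteValue L ℝ) {Λ Λ' : ℝ} (h : Λ ≤ Λ')
    (x y : L × L) : JJ abv Λ x y = min (JJ abv Λ' x y) Λ := by
  have h1 : Real.exp (-Λ') ≤ Real.exp (-Λ) := Real.exp_le_exp.2 (by linarith)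
  have h2 : 0 < max (abv (wedge x y) / (nrm abv x * nrm abv y)) (Real.exp (-Λ')) :=
    lt_max_of_lt_right (Real.exp_pos _)
  have h3 : max (abv (wedge x y) / (nrm abv x * nrm abv y)) (Real.exp (-Λ)) =
      max (max (abv (wedge x y) / (nrm abv x * nrm abv y)) (Real.exp (-Λ'))) (Real.exp (-Λ)) := by
    rw [max_assoc, max_eq_right h1]
  have h4 : ∀ u v : ℝ, 0 < u → 0 < v → Real.log (max u v) = max (Real.log u) (Real.log v) := by
    intro u v hu hv
    rcases le_total u v with h | h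
    · rw [max_eq_right h, max_eq_right (Real.log_le_log hu h)]
    · rw [max_eq_left h, max_eq_left (Real.log_le_log hv h)]
  rw [JJ, JJ, h3, h4 _ _ h2 (Real.exp_pos _), Real.log_exp, ← min_neg_neg, neg_neg]

theorem JJ_le {L : Type*} [Field L] (abv : AbsoluteValue L ℝ) (Λ : ℝ) (x y : L × L) :
    JJ abv Λ x y ≤ Λ := by
  rw [JJ_min abv (le_refl Λ)]
  exact min_le_right _ _

theorem JJ_ge {L : Type*} [Field L] (abv : AbsoluteValue L ℝ) {Λ : ℝ} (hΛ : 0 ≤ Λ)
    {x y : L × L} (hx : x ≠ 0) (hy : y ≠ 0) : -Real.log 2 ≤ JJ abv Λ x y := by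
  have h1 : 0 < nrm abv x * nrm abv y := mul_pos (nrm_pos abv hx) (nrm_pos abv hy)
  have h2 : max (abv (wedge x y) / (nrm abv x * nrm abv y)) (Real.exp (-Λ)) ≤ 2 := by
    refine max_le ?_ ?_
    · rw [div_le_iff₀ h1]
      exact abv_wedge_le abv x y
    · have : Real.exp (-Λ) ≤ 1 := Real.exp_le_one_iff.2 (by linarith)
      linarith
  rw [JJ, neg_le_neg_iff]
  exact Real.log_le_log (lt_max_of_lt_right (Real.exp_pos _)) h2

end BadAux

open BadAux

theorem Bad.mono {d N n m : ℕ} (hnm : n ≤ m) {D : Dat d} {t : ℕ} {z : Fin t → Fin N → D.Om × D.Om}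
    {a : Fin t → Fin N} (h : Bad d N m D t z a) : Bad d N n D t z a := by
  have hnm' : (n : ℝ) ≤ m := by exact_mod_cast hnm
  have hn0 : (0 : ℝ) ≤ n := Nat.cast_nonneg n
  have hl0 : 0 ≤ D.lam := (Nat.cast_nonneg m).trans h.lam
  have hle : D.lam / (m + 1) ≤ D.lam / (n + 1) :=
    div_le_div_of_nonneg_left hl0 (by linarith) (by linarith)
  refine ⟨hnm'.trans h.lam, hnm.trans h.le, h.pv, h.indep, ?_, ?_, ?_⟩
  · intro i j i' j' hij hij' b c
    have hL : (n : ℝ) * D.lam ≤ m * D.lam := mul_le_mul_of_nonneg_right hnm' hl0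
    rw [JJ_min D.abv hL (z i b) (z j c), JJ_min D.abv hL (z i' b) (z j' c)]
    refine (abs_min_sub_min_le_max _ _ _ _).trans ?_
    rw [sub_self, abs_zero, max_eq_left (abs_nonneg _)]
    exact (h.homJ i j i' j' hij hij' b c).trans hle
  · intro i i' b
    exact (h.homh i i' b).trans hle
  · refine h.small.trans_le ?_
    exact div_le_div_of_nonneg_left (mul_nonneg hl0 (sq_nonneg _)) (by linarith) (by linarith)

/-- The values used for the colouring. -/
noncomputable def BadAux.colv {d N M : ℕ} (D : Dat d) (Λ : ℝ) (z : Fin M → Fin N → D.Om × D.Om)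
    (i j : ℕ) (e : (Fin N × Fin N) ⊕ Fin N) : ℝ :=
  if h : i < M ∧ j < M then
    Sum.elim (fun bc => JJ D.abv Λ (z ⟨i, h.1⟩ bc.1) (z ⟨j, h.2⟩ bc.2) / D.lam)
      (fun b => Real.log (nrm D.abv (z ⟨i, h.1⟩ b)) / D.lam) e
  else 0

theorem exists_bad (d N n : ℕ) (hd : 2 ≤ d) (hn : 1 ≤ n)
    (h : ¬ TupGood d N (1 / (n + 1)) n n) :
    ∃ (D : Dat d) (t : ℕ) (z : Fin t → Fin N → D.Om × D.Om) (a : Fin t → Fin N),
      Bad d N n D t z a := by
  classical
  rw [TupGood] at h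
  push Not at h
  obtain ⟨T, hT⟩ := h
  obtain ⟨C, hC0, hC⟩ := pv_nrm d hd
  have hn1 : (1 : ℝ) ≤ n := by exact_mod_cast hn
  have hδ : (0 : ℝ) < 1 / (2 * (n + 1)) := by positivity
  obtain ⟨M, hM⟩ := ramsey_real (ι := (Fin N × Fin N) ⊕ Fin N) (-(1 + C)) (n + 1 + C) _ hδ (T + 1)
  obtain ⟨D, hlam, z, hpv, hind, hbad⟩ := hT M
  have hlam1 : 1 ≤ D.lam := hn1.trans hlam
  have hlam0 : 0 < D.lam := by linarith
  have hd1 : (1 : ℝ) ≤ (d : ℝ) - 1 := by
    have : (2 : ℝ) ≤ d := by exact_mod_cast hd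
    linarith
  obtain ⟨f, hf, hfS, v, hv⟩ := hM (Finset.range M) (by rw [Finset.card_range])
    (colv D (n * D.lam) z) (by
      intro i hi j hj _ e
      have hi' := Finset.mem_range.1 hi
      have hj' := Finset.mem_range.1 hj
      rw [colv, dif_pos ⟨hi', hj'⟩]
      rcases e with ⟨b, c⟩ | b
      · rw [Sum.elim_inl, Set.mem_Icc]
        have hL : 0 ≤ (n : ℝ) * D.lam := by positivity
        have h1 := JJ_ge D.abv hL (hpv ⟨i, hi'⟩ b).1 (hpv ⟨j, hj'⟩ c).1
        have h2 := JJ_le D.abv (n * D.lam) (z ⟨i, hi'⟩ b) (z ⟨j, hj'⟩ c)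
        have h3 : Real.log 2 < 1 := by
          have := Real.log_two_lt_d9
          linarith
        constructor
        · rw [le_div_iff₀ hlam0]
          nlinarith
        · rw [div_le_iff₀ hlam0]
          nlinarith
      · rw [Sum.elim_inr, Set.mem_Icc]
        obtain ⟨h1, h2⟩ := hC D _ (hpv ⟨i, hi'⟩ b)
        have h3 : (max D.lam 0 + C) / ((d : ℝ) - 1) ≤ max D.lam 0 + C :=
          div_le_self (by positivity) hd1
        rw [max_eq_left hlam0.le] at h2 h3
        constructor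
        · rw [le_div_iff₀ hlam0]
          nlinarith
        · rw [div_le_iff₀ hlam0]
          nlinarith)
  have hfM : ∀ x, f x < M := fun x => Finset.mem_range.1 (hfS x)
  have heq : ∀ x y : Fin T, x < y → ∀ b c,
      |JJ D.abv (n * D.lam) (z ⟨f x.castSucc, hfM _⟩ b) (z ⟨f y.castSucc, hfM _⟩ c) / D.lam -
        v (Sum.inl (b, c))| ≤ 1 / (2 * (n + 1)) := by
    intro x y hxy b c
    have h1 := hv x.castSucc y.castSucc (by simpa using hxy) (Sum.inl (b, c))
    rwa [colv, dif_pos ⟨hfM _, hfM _⟩, Sum.elim_inl] at h1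
  have heqh : ∀ x : Fin T, ∀ b,
      |Real.log (nrm D.abv (z ⟨f x.castSucc, hfM _⟩ b)) / D.lam - v (Sum.inr b)| ≤
        1 / (2 * (n + 1)) := by
    intro x b
    have h1 := hv x.castSucc (Fin.last T) (Fin.castSucc_lt_last x) (Sum.inr b)
    rwa [colv, dif_pos ⟨hfM _, hfM _⟩, Sum.elim_inr] at h1
  have hclose : ∀ u u' w : ℝ, |u / D.lam - w| ≤ 1 / (2 * (n + 1)) →
      |u' / D.lam - w| ≤ 1 / (2 * (n + 1)) → |u - u'| ≤ D.lam / (n + 1) := by
    intro u u' w h1 h2
    have h3 : |u / D.lam - u' / D.lam| ≤ 1 / (n + 1) := by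
      have e1 : (1 : ℝ) / (n + 1) = 1 / (2 * (n + 1)) + 1 / (2 * (n + 1)) := by
        field_simp
        norm_num
      rw [e1]
      calc |u / D.lam - u' / D.lam| = |(u / D.lam - w) - (u' / D.lam - w)| := by ring_nf
        _ ≤ |u / D.lam - w| + |u' / D.lam - w| := abs_sub _ _
        _ ≤ _ := add_le_add h1 h2
    have h4 : u - u' = D.lam * (u / D.lam - u' / D.lam) := by
      field_simp
    have h5 : D.lam / (n + 1) = D.lam * (1 / (n + 1)) := by ring
    rw [h4, abs_mul, abs_of_pos hlam0, h5]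
    exact mul_le_mul_of_nonneg_left h3 hlam0.le
  have hemono : StrictMono fun x : Fin T => (⟨f x.castSucc, hfM _⟩ : Fin M) := by
    intro x y hxy
    exact hf (by simpa using hxy)
  obtain ⟨Y, hY, a, hsmall⟩ := hbad _ hemono
  set e : Fin Y.card ↪o Fin T := Y.orderEmbOfFin rfl with he
  have hmapY : (Finset.univ : Finset (Fin Y.card)).map e.toEmbedding = Y := by
    rw [he]
    exact Finset.map_orderEmbOfFin_univ Y rfl
  refine ⟨D, Y.card, fun i b => z ⟨f (e i).castSucc, hfM _⟩ b, fun i => a (e i), hlam, hY,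
    fun i b => hpv _ b, ?_, ?_, ?_, ?_⟩
  · intro i j hij b c
    exact hind _ _ (hemono.injective.ne (e.injective.ne hij)) b c
  · intro i j i' j' hij hij' b c
    exact hclose _ _ _ (heq _ _ (e.strictMono hij) b c) (heq _ _ (e.strictMono hij') b c)
  · intro i i' b
    exact hclose _ _ _ (heqh _ b) (heqh _ b)
  · have h1 : ∑ i ∈ Y, ∑ j ∈ Y.erase i,
        D.g (z ⟨f i.castSucc, hfM _⟩ (a i)) (z ⟨f j.castSucc, hfM _⟩ (a j)) =
        ∑ i, ∑ j ∈ Finset.univ.erase i, D.g (z ⟨f (e i).castSucc, hfM _⟩ (a (e i)))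
          (z ⟨f (e j).castSucc, hfM _⟩ (a (e j))) := by
      have h2 : ∀ i : Fin Y.card, (Finset.univ.erase i).map e.toEmbedding = Y.erase (e i) := by
        intro i
        rw [Finset.map_erase, hmapY]
        rfl
      conv_lhs => rw [← hmapY, Finset.sum_map]
      refine Finset.sum_congr rfl fun i _ => ?_
      rw [hmapY]
      change ∑ j ∈ Y.erase (e i), _ = _
      rw [← h2 i, Finset.sum_map]
      rfl
    have h3 : 1 / ((n : ℝ) + 1) * D.lam * (Y.card : ℝ) ^ 2 = D.lam * (Y.card : ℝ) ^ 2 / (n + 1) := by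
      ring
    rw [← h1, ← h3]
    exact hsmall

end Pool.Agent.RI
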