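import Pool.Agent.RI.Tree

/-!
# The finite statement

Kernels `g_s = j_s - h_s - h_s + ρ` on labels `(a, t)`, `a ∈ A`, `t < d`, on the levels
`s = 0, .., k`, copositive on every level, with the one step identities
`g_s((a, z), (b, z)) = ∑_t g_{s+1}((a, u), (b, t))`: the energy of a probability measure on the last
level is positive if `k` is large.
-/

set_option autoImplicit false

namespace Pool.Agent.RI

open Finset

section forms

variable {P : Type*} [Fintype P]

theorem bf_self (g : P → P → ℝ) (x : P → ℝ) : bf g x x = qf g x := rfl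

theorem bf_add_left (g : P → P → ℝ) (x x' y : P → ℝ) :
    bf g (fun p => x p + x' p) y = bf g x y + bf g x' y := by
  unfold bf
  rw [← sum_add_distrib]
  refine sum_congr rfl fun p _ => ?_
  rw [← sum_add_distrib]
  exact sum_congr rfl fun q _ => by ring

theorem bf_add_right (g : P → P → ℝ) (x y y' : P → ℝ) :
    bf g x (fun p => y p + y' p) = bf g x y + bf g x y' := by
  unfold bf
  rw [← sum_add_distrib]
  refine sum_congr rfl fun p _ => ?_
  rw [← sum_add_distrib]
  exact sum_congr rfl fun q _ => by ring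

theorem bf_smul_left (g : P → P → ℝ) (c : ℝ) (x y : P → ℝ) :
    bf g (fun p => c * x p) y = c * bf g x y := by
  unfold bf
  rw [mul_sum]
  refine sum_congr rfl fun p _ => ?_
  rw [mul_sum]
  exact sum_congr rfl fun q _ => by ring

theorem bf_smul_right (g : P → P → ℝ) (c : ℝ) (x y : P → ℝ) :
    bf g x (fun p => c * y p) = c * bf g x y := by
  unfold bf
  rw [mul_sum]
  refine sum_congr rfl fun p _ => ?_
  rw [mul_sum]
  exact sum_congr rfl fun q _ => by ring

theorem bf_comm {g : P → P → ℝ} (hg : ∀ p q, g p q = g q p) (x y : P → ℝ) :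
    bf g x y = bf g y x := by
  unfold bf
  rw [sum_comm]
  refine sum_congr rfl fun p _ => sum_congr rfl fun q _ => ?_
  rw [hg q p]
  ring

/-- `q(x + c y) = q(x) + 2 c b(x, y) + c² q(y)` -/
theorem qf_add_smul {g : P → P → ℝ} (hg : ∀ p q, g p q = g q p) (c : ℝ) (x y : P → ℝ) :
    qf g (fun p => x p + c * y p) = qf g x + 2 * c * bf g x y + c ^ 2 * qf g y := by
  rw [← bf_self, bf_add_left, bf_add_right, bf_add_right, bf_smul_left, bf_smul_left,
    bf_smul_right, bf_smul_right, bf_self, bf_self, bf_comm hg y x]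
  ring

/-- the kernels which occur -/
def Ker (g j : P → P → ℝ) (h : P → ℝ) (ρ : ℝ) : Prop := ∀ p q, g p q = j p q - h p - h q + ρ

variable {g j : P → P → ℝ} {h : P → ℝ} {ρ : ℝ}

theorem Ker.symm (hk : Ker g j h ρ) (hj : TreeK j) (p q : P) : g p q = g q p := by
  rw [hk, hk, hj.symm p q]
  ring

theorem Ker.qf_eq (hk : Ker g j h ρ) {x : P → ℝ} (hx : ∑ p, x p = 0) : qf g x = qf j x := by
  have e : ∀ p q, x p * x q * g p q = x p * x q * j p q - (x p * h p) * x q - x p * (x q * h q) +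
      ρ * (x p * x q) := fun p q => by
    rw [hk p q]
    ring
  unfold qf
  simp only [e, sum_add_distrib, sum_sub_distrib, ← mul_sum, hx, mul_zero, sum_const_zero,
    ← sum_mul, zero_mul, sub_zero, add_zero]

/-- the difference of two unit vectors -/
noncomputable def dl [DecidableEq P] (p q : P) (r : P) : ℝ :=
  (if r = p then 1 else 0) - (if r = q then 1 else 0)

theorem sum_dl [DecidableEq P] (p q : P) : ∑ r, dl p q r = 0 := by
  unfold dl
  rw [sum_sub_distrib]
  simp

theorem sum_mul_dl [DecidableEq P] (f : P → ℝ) (p q : P) : ∑ r, dl p q r * f r = f p - f q := by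
  unfold dl
  simp [sub_mul, sum_sub_distrib]

theorem bf_dl [DecidableEq P] (g : P → P → ℝ) (x : P → ℝ) (p q : P) :
    bf g x (dl p q) = ∑ r, x r * (g r p - g r q) := by
  unfold bf
  refine sum_congr rfl fun r _ => ?_
  have e : ∀ t, x r * dl p q t * g r t = x r * (dl p q t * g r t) := fun t => by ring
  rw [sum_congr rfl fun t _ => e t, ← mul_sum, sum_mul_dl (fun t => g r t)]

theorem qf_dl [DecidableEq P] {g : P → P → ℝ} (hg : ∀ p q, g p q = g q p) (p q : P) :
    qf g (dl p q) = g p p + g q q - 2 * g p q := by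
  rw [← bf_self, bf_dl, sum_mul_dl (fun r => g r p - g r q), hg q p]
  ring

end forms

section step

variable {A : Type*} [Fintype A] {d : ℕ}

/-- the image measure -/
noncomputable def push (x : A × Fin d → ℝ) (a : A) : ℝ := ∑ u, x (a, u)

theorem bf_pull {g : A × Fin d → A × Fin d → ℝ} {γ : A → A → ℝ}
    (hb : ∀ a b u, γ a b = ∑ t, g (a, u) (b, t)) (x : A × Fin d → ℝ) (y : A → ℝ) :
    bf g x (fun p => y p.1) = bf γ (push x) y := by
  unfold bf push
  rw [Fintype.sum_prod_type]
  refine sum_congr rfl fun a _ => ?_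
  have h1 : ∀ u, ∑ q : A × Fin d, x (a, u) * y q.1 * g (a, u) q =
      ∑ b, x (a, u) * y b * γ a b := by
    intro u
    rw [Fintype.sum_prod_type]
    refine sum_congr rfl fun b _ => ?_
    rw [hb a b u, mul_sum]
  rw [sum_congr rfl fun u _ => h1 u, sum_comm]
  refine sum_congr rfl fun b _ => ?_
  rw [sum_mul, sum_mul]

variable {g j : A × Fin d → A × Fin d → ℝ} {h : A × Fin d → ℝ} {ρ : ℝ} {γ : A → A → ℝ}

theorem gam_symm (hd : 0 < d) (hk : Ker g j h ρ) (hj : TreeK j)
    (hb : ∀ a b u, γ a b = ∑ t, g (a, u) (b, t)) (a b : A) : γ a b = γ b a := by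
  have hd' : (d : ℝ) ≠ 0 := by
    have : 0 < (d : ℝ) := by exact_mod_cast hd
    exact this.ne'
  have h1 : ∀ a b, (d : ℝ) * γ a b = ∑ u, ∑ t, g (a, u) (b, t) := by
    intro a b
    rw [← sum_congr rfl fun u _ => hb a b u, sum_const, card_univ, Fintype.card_fin, nsmul_eq_mul]
  apply mul_left_cancel₀ hd'
  rw [h1, h1, sum_comm]
  exact sum_congr rfl fun u _ => sum_congr rfl fun t _ => hk.symm hj _ _

/-- **the universal identity** -/
theorem qf_step (hd : 0 < d) (hk : Ker g j h ρ) (hj : TreeK j)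
    (hb : ∀ a b u, γ a b = ∑ t, g (a, u) (b, t)) (x : A × Fin d → ℝ) :
    qf j (fun p => x p + -(d : ℝ)⁻¹ * push x p.1) = qf g x - (d : ℝ)⁻¹ * qf γ (push x) := by
  have hd' : (d : ℝ) ≠ 0 := by
    have : 0 < (d : ℝ) := by exact_mod_cast hd
    exact this.ne'
  have hmass : ∑ p, (x p + -(d : ℝ)⁻¹ * push x p.1) = 0 := by
    rw [sum_add_distrib, ← mul_sum, Fintype.sum_prod_type, Fintype.sum_prod_type]
    have h1 : ∀ a, ∑ _u : Fin d, push x a = d * ∑ u, x (a, u) := by
      intro a
      rw [sum_const, card_univ, Fintype.card_fin, nsmul_eq_mul]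
      rfl
    rw [sum_congr rfl fun a _ => h1 a, ← mul_sum]
    field_simp
    ring
  rw [← hk.qf_eq hmass, qf_add_smul (hk.symm hj) (-(d : ℝ)⁻¹) x (fun p => push x p.1),
    bf_pull hb, bf_self, ← bf_self g (fun p => push x p.1), bf_pull hb]
  have h2 : push (fun p : A × Fin d => push x p.1) = fun a => (d : ℝ) * push x a := by
    funext a
    show ∑ _u : Fin d, push x a = _
    rw [sum_const, card_univ, Fintype.card_fin, nsmul_eq_mul]
  rw [h2, bf_smul_left, bf_self]
  field_simp
  ring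

/-- `D(a, b) ≤ d D((a, u), (b, v))` -/
theorem D_step (hd : 0 < d) (hk : Ker g j h ρ) (hj : TreeK j)
    (hb : ∀ a b u, γ a b = ∑ t, g (a, u) (b, t)) (a b : A) (u v : Fin d) :
    γ a a + γ b b - 2 * γ a b ≤
      d * (j (a, u) (a, u) + j (b, v) (b, v) - 2 * j (a, u) (b, v)) := by
  classical
  have hd' : 0 < (d : ℝ) := by exact_mod_cast hd
  have h1 := qf_step hd hk hj hb (dl (a, u) (b, v))
  have h2 := hj.psd (fun p => dl (a, u) (b, v) p + -(d : ℝ)⁻¹ * push (dl (a, u) (b, v)) p.1)
  have h3 : push (dl (a, u) (b, v)) = dl a b := by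
    funext c
    unfold push dl
    rw [sum_sub_distrib]
    congr 1
    · by_cases hc : c = a
      · subst hc
        simp
      · simp [hc]
    · by_cases hc : c = b
      · subst hc
        simp
      · simp [hc]
  rw [h1, h3, hk.qf_eq (sum_dl _ _), qf_dl hj.symm, qf_dl (gam_symm hd hk hj hb)] at h2
  have h4 : (d : ℝ)⁻¹ * (γ a a + γ b b - 2 * γ a b) ≤
      j (a, u) (a, u) + j (b, v) (b, v) - 2 * j (a, u) (b, v) := by linarith
  rwa [inv_mul_le_iff₀ hd'] at h4

/-- first variation -/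
theorem first_var {P : Type*} [Fintype P] {g j : P → P → ℝ} {h : P → ℝ} {ρ : ℝ}
    (hk : Ker g j h ρ) (hj : TreeK j)
    (hc : ∀ v : P → ℝ, (∀ p, 0 ≤ v p) → 0 ≤ qf g v) {x : P → ℝ} (hx : ∀ p, 0 ≤ x p)
    (hx1 : ∑ p, x p = 1) (hx0 : qf g x = 0) {p ξ : P} (he : j p ξ = j p p) (he' : j ξ ξ = j p p)
    {τ : ℝ} (hτ : 0 < τ) (hp : τ ≤ x p) : h ξ ≤ h p := by
  classical
  have h1 := hc (fun q => x q + τ * dl ξ p q) (fun q => by
    show 0 ≤ x q + τ * ((if q = ξ then 1 else 0) - if q = p then 1 else 0)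
    by_cases h1 : q = p
    · subst h1
      by_cases h2 : q = ξ
      · rw [if_pos h2, if_pos rfl]
        have := hx q
        linarith
      · rw [if_neg h2, if_pos rfl]
        linarith
    · rw [if_neg h1]
      by_cases h2 : q = ξ
      · rw [if_pos h2]
        have := hx q
        linarith
      · rw [if_neg h2]
        have := hx q
        linarith)
  rw [qf_add_smul (hk.symm hj), hx0, bf_dl, qf_dl (hk.symm hj)] at h1
  have hval : ∀ r, j r ξ = j r p := by
    intro r
    apply le_antisymm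
    · have h3 := hj.tri r ξ p
      rw [hj.symm ξ p, he, ← he', min_eq_left (hj.le_diag' r ξ)] at h3
      exact h3
    · have h3 := hj.tri r p ξ
      rw [he, min_eq_left (hj.le_diag' r p)] at h3
      exact h3
  have h2 : ∀ r, x r * (g r ξ - g r p) = x r * (h p - h ξ) := by
    intro r
    rw [hk r ξ, hk r p, hval r]
    ring
  rw [sum_congr rfl fun r _ => h2 r, ← sum_mul, hx1, one_mul, hk ξ ξ, hk p p, hk ξ p, he',
    hj.symm ξ p, he] at h1
  have h4 : 0 ≤ τ * (h p - h ξ) := by linarith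
  have h5 := nonneg_of_mul_nonneg_right h4 hτ
  linarith

/-- **one step without a new class** -/
theorem step_eq (hd : 0 < d) (hk : Ker g j h ρ) (hj : TreeK j)
    (hb : ∀ a b u, γ a b = ∑ t, g (a, u) (b, t))
    (hc : ∀ v : A × Fin d → ℝ, (∀ p, 0 ≤ v p) → 0 ≤ qf g v) (z : Fin d) {w : A → ℝ}
    (hw : ∀ a, 0 < w a) (hw1 : ∑ a, w a = 1)
    (hI' : ∑ a, ∑ b, w a * w b * g (a, z) (b, z) = 0) (hI : qf γ w = 0) (a : A)
    (hcl : ∀ b, γ a a + γ b b - 2 * γ a b ≤ 0 →
      j (a, z) (a, z) + j (b, z) (b, z) - 2 * j (a, z) (b, z) ≤ 0) :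
    γ a a = d * g (a, z) (a, z) := by
  classical
  have hd' : 0 < (d : ℝ) := by exact_mod_cast hd
  set ν : A × Fin d → ℝ := fun p => if p.2 = z then w p.1 else 0 with hν
  have hν0 : ∀ p, 0 ≤ ν p := by
    intro p
    show 0 ≤ if p.2 = z then w p.1 else 0
    split_ifs
    · exact (hw _).le
    · exact le_rfl
  have hνz : ∀ b, ν (b, z) = w b := fun b => if_pos rfl
  have hνt : ∀ b t, t ≠ z → ν (b, t) = 0 := fun b t ht => if_neg ht
  have hpush : push ν = w := by
    funext b
    show ∑ u, (if u = z then w b else 0) = w b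
    simp
  have hν1 : ∑ p, ν p = 1 := by
    rw [Fintype.sum_prod_type, ← hw1]
    refine sum_congr rfl fun b _ => ?_
    exact congrFun hpush b
  have hqν : qf g ν = 0 := by
    rw [← hI']
    unfold qf
    rw [Fintype.sum_prod_type]
    refine sum_congr rfl fun b _ => ?_
    rw [sum_eq_single z]
    · rw [Fintype.sum_prod_type]
      refine sum_congr rfl fun c _ => ?_
      rw [sum_eq_single z]
      · rw [hνz, hνz]
      · intro t _ ht
        rw [hνt c t ht]
        ring
      · intro h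
        exact absurd (mem_univ _) h
    · intro u _ hu
      refine sum_eq_zero fun q _ => ?_
      rw [hνt b u hu]
      ring
    · intro h
      exact absurd (mem_univ _) h
  set σ : A × Fin d → ℝ := fun p => ν p + -(d : ℝ)⁻¹ * w p.1 with hσ
  have hqσ : qf j σ = 0 := by
    have h1 := qf_step hd hk hj hb ν
    rw [hpush, hqν, hI] at h1
    rw [hσ, h1]
    ring
  have hσ0 : ∑ p, σ p = 0 := by
    rw [hσ, sum_add_distrib, hν1, ← mul_sum, Fintype.sum_prod_type]
    have h1 : ∀ b, ∑ _u : Fin d, w b = d * w b := by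
      intro b
      rw [sum_const, card_univ, Fintype.card_fin, nsmul_eq_mul]
    rw [sum_congr rfl fun b _ => h1 b, ← mul_sum, hw1]
    field_simp
    ring
  have hZ := hj.class_zero hσ0 hqσ (a, z)
  set CL := univ.filter (fun q => j (a, z) q = j (a, z) (a, z) ∧ j q q = j (a, z) (a, z)) with hCL
  have hmemCL : ∀ q, q ∈ CL ↔ j (a, z) q = j (a, z) (a, z) ∧ j q q = j (a, z) (a, z) :=
    fun q => by simp [hCL]
  have hmemD : ∀ q, q ∈ CL ↔ j (a, z) (a, z) + j q q - 2 * j (a, z) q ≤ 0 := by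
    intro q
    rw [hmemCL, ← hj.D_eq_zero_iff]
    exact ⟨fun h => h.le, fun h => le_antisymm h (hj.D_nonneg _ _)⟩
  -- a class contains with `(b, t)` also `(b, z)`
  have hbz : ∀ b t, (b, t) ∈ CL → (b, z) ∈ CL := by
    intro b t hbt
    rw [hmemD] at hbt ⊢
    apply hcl
    have h1 := D_step hd hk hj hb a b z t
    nlinarith [h1, hbt, hd']
  set T := univ.filter (fun q : A × Fin d => (q.1, z) ∈ CL) with hT
  have hCT : CL ⊆ T := by
    intro q hq
    rw [hT, mem_filter]
    exact ⟨mem_univ _, hbz q.1 q.2 hq⟩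
  have hsT : ∑ q ∈ T, σ q = 0 := by
    rw [hT, sum_filter, Fintype.sum_prod_type]
    refine sum_eq_zero fun b _ => ?_
    by_cases hb' : (b, z) ∈ CL
    · have e : ∀ t : Fin d, (if ((b, t).1, z) ∈ CL then σ (b, t) else 0) =
          ν (b, t) + -(d : ℝ)⁻¹ * w b := fun t => if_pos hb'
      rw [sum_congr rfl fun t _ => e t, sum_add_distrib, sum_const, card_univ, Fintype.card_fin,
        nsmul_eq_mul]
      have h1 : ∑ t, ν (b, t) = w b := congrFun hpush b
      rw [h1]
      field_simp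
      ring
    · exact sum_eq_zero fun t _ => if_neg hb'
  have hsd : ∑ q ∈ T \ CL, σ q = 0 := by
    have h1 := sum_sdiff (f := σ) hCT
    rw [hsT, hZ, add_zero] at h1
    exact h1
  have hneg : ∀ q ∈ T \ CL, σ q < 0 := by
    rintro ⟨b, t⟩ hq
    rw [mem_sdiff, hT, mem_filter] at hq
    have ht : t ≠ z := by
      rintro rfl
      exact hq.2 hq.1.2
    show ν (b, t) + -(d : ℝ)⁻¹ * w b < 0
    rw [hνt b t ht, zero_add, neg_mul, neg_lt_zero]
    exact mul_pos (inv_pos.2 hd') (hw b)
  have hempty : T \ CL = ∅ := by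
    by_contra hne
    have h1 := sum_neg hneg (nonempty_iff_ne_empty.2 hne)
    rw [hsd] at h1
    exact lt_irrefl _ h1
  have haa : (a, z) ∈ CL := by
    rw [hmemCL]
    exact ⟨rfl, rfl⟩
  have hall : ∀ t, (a, t) ∈ CL := by
    intro t
    by_contra hn
    have h1 : (a, t) ∈ T \ CL := by
      rw [mem_sdiff, hT, mem_filter]
      exact ⟨⟨mem_univ _, haa⟩, hn⟩
    rw [hempty] at h1
    exact absurd h1 (notMem_empty _)
  -- the function `h`
  have hh : ∀ t, h (a, t) = h (a, z) := by
    intro t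
    obtain ⟨h1, h2⟩ := (hmemCL _).1 (hall t)
    apply le_antisymm
    · refine first_var hk hj hc hν0 hν1 hqν h1 h2 (hw a) ?_
      rw [hνz]
    · -- the measure `ν'`
      refine first_var (x := fun p => (d : ℝ)⁻¹ * w p.1) hk hj hc (fun p =>
        mul_nonneg (inv_nonneg.2 hd'.le) (hw _).le) ?_ ?_ ?_ h2.symm
        (mul_pos (inv_pos.2 hd') (hw a)) le_rfl
      · rw [← mul_sum, Fintype.sum_prod_type]
        have h1 : ∀ b, ∑ _u : Fin d, w b = d * w b := by
          intro b
          rw [sum_const, card_univ, Fintype.card_fin, nsmul_eq_mul]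
        rw [sum_congr rfl fun b _ => h1 b, ← mul_sum, hw1]
        field_simp
      · rw [← bf_self, bf_smul_left, bf_smul_right, bf_pull hb]
        have h3 : push (fun p : A × Fin d => w p.1) = fun a => (d : ℝ) * w a := by
          funext b
          show ∑ _u : Fin d, w b = _
          rw [sum_const, card_univ, Fintype.card_fin, nsmul_eq_mul]
        rw [h3, bf_smul_left, bf_self, hI]
        ring
      · rw [hj.symm, h1, h2]
  rw [hb a a z]
  have h3 : ∀ t, g (a, z) (a, t) = g (a, z) (a, z) := by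
    intro t
    obtain ⟨h1, h2⟩ := (hmemCL _).1 (hall t)
    rw [hk (a, z) (a, t), hk (a, z) (a, z), h1, hh t]
  rw [sum_congr rfl fun t _ => h3 t, sum_const, card_univ, Fintype.card_fin, nsmul_eq_mul]

end step

/-- an antitone sequence of numbers between `1` and `N` is constant on a long interval -/
theorem exists_const {N l : ℕ} {n : ℕ → ℕ} (h1 : ∀ s, s < N * l → n (s + 1) ≤ n s)
    (h0 : n 0 ≤ N) (hpos : 1 ≤ n (N * l)) :
    ∃ s₀, s₀ + l ≤ N * l ∧ ∀ s, s₀ ≤ s → s < s₀ + l → n (s + 1) = n s := by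
  have hanti : ∀ a b, a ≤ b → b ≤ N * l → n b ≤ n a := by
    intro a b hab
    induction b, hab using Nat.le_induction with
    | base => intro _; exact le_rfl
    | succ b hab ih =>
      intro hb
      exact (h1 b (by omega)).trans (ih (by omega))
  by_contra hcon
  push Not at hcon
  have hdrop : ∀ i, i ≤ N → n (i * l) + i ≤ n 0 := by
    intro i
    induction i with
    | zero => intro _; simp
    | succ i ih =>
      intro hi
      have hil : i * l + l ≤ N * l := by
        have := Nat.mul_le_mul_right l hi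
        rw [Nat.succ_mul] at this
        exact this
      obtain ⟨s, hs1, hs2, hs3⟩ := hcon (i * l) hil
      have e1 := ih (by omega)
      have e2 : n (s + 1) < n s := lt_of_le_of_ne (h1 s (by omega)) hs3
      have e3 := hanti (i * l) s hs1 (by omega)
      have e4 := hanti (s + 1) ((i + 1) * l) (by rw [Nat.succ_mul]; omega)
        (by rw [Nat.succ_mul]; exact hil)
      omega
  have := hdrop N le_rfl
  omega

/-- **The finite statement.** -/
theorem fin_false (d N : ℕ) (hd : 2 ≤ d) (z : Fin d) {c : ℝ} (hc : 0 < c) : ∃ k : ℕ, 1 ≤ k ∧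
    ∀ (A : Type) [Fintype A], Fintype.card A ≤ N → ∀ w : A → ℝ, (∀ a, 0 < w a) →
      ∑ a, w a = 1 → ∀ (g j : ℕ → A × Fin d → A × Fin d → ℝ) (h : ℕ → A × Fin d → ℝ) (ρ : ℝ),
      (∀ s ≤ k, Ker (g s) (j s) (h s) ρ) → (∀ s ≤ k, TreeK (j s)) →
      (∀ s ≤ k, ∀ a b, -2 ≤ g s (a, z) (b, z)) →
      (∀ s < k, ∀ a b u, g s (a, z) (b, z) = ∑ t, g (s + 1) (a, u) (b, t)) →
      (∀ s ≤ k, ∀ v : A × Fin d → ℝ, (∀ p, 0 ≤ v p) → 0 ≤ qf (g s) v) →
      (∀ s ≤ k, ∀ a, c ≤ g s (a, z) (a, z)) →
      ∑ a, ∑ b, w a * w b * g k (a, z) (b, z) ≤ 0 → False := by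
  classical
  have hd0 : 0 < d := by omega
  have hd' : 0 < (d : ℝ) := by exact_mod_cast hd0
  obtain ⟨l, hl⟩ : ∃ l : ℕ, 2 * (N : ℝ) ^ 2 / c < (d : ℝ) ^ l :=
    pow_unbounded_of_one_lt _ (by exact_mod_cast (by omega : 1 < d))
  refine ⟨max (N * l) 1, le_max_right _ _, ?_⟩
  set k := max (N * l) 1 with hkdef
  intro A _ hcard w hw hw1 g j h ρ hK hT hg2 hb hcop hd2 hfin
  -- energies
  set γ : ℕ → A → A → ℝ := fun s a b => g s (a, z) (b, z) with hγ
  have hIdef : ∀ s, qf (γ s) w = ∑ a, ∑ b, w a * w b * g s (a, z) (b, z) := fun s => rfl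
  set ν : A × Fin d → ℝ := fun p => if p.2 = z then w p.1 else 0 with hν
  have hν0 : ∀ p, 0 ≤ ν p := by
    intro p
    show 0 ≤ if p.2 = z then w p.1 else 0
    split_ifs
    · exact (hw _).le
    · exact le_rfl
  have hνz : ∀ b, ν (b, z) = w b := fun b => if_pos rfl
  have hνt : ∀ b t, t ≠ z → ν (b, t) = 0 := fun b t ht => if_neg ht
  have hpush : push ν = w := by
    funext b
    show ∑ u, (if u = z then w b else 0) = w b
    simp
  have hqν : ∀ s, qf (g s) ν = qf (γ s) w := by
    intro s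
    rw [hIdef]
    unfold qf
    rw [Fintype.sum_prod_type]
    refine sum_congr rfl fun b _ => ?_
    rw [sum_eq_single z]
    · rw [Fintype.sum_prod_type]
      refine sum_congr rfl fun c _ => ?_
      rw [sum_eq_single z]
      · rw [hνz, hνz]
      · intro t _ ht
        rw [hνt c t ht]
        ring
      · intro h
        exact absurd (mem_univ _) h
    · intro u _ hu
      refine sum_eq_zero fun q _ => ?_
      rw [hνt b u hu]
      ring
    · intro h
      exact absurd (mem_univ _) h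
  have hI0 : ∀ s ≤ k, 0 ≤ qf (γ s) w := by
    intro s hs
    rw [← hqν]
    exact hcop s hs ν hν0
  have hIstep : ∀ s < k, qf (γ s) w ≤ d * qf (γ (s + 1)) w := by
    intro s hs
    have h1 := qf_step hd0 (hK (s + 1) hs) (hT (s + 1) hs) (γ := γ s) (hb s hs) ν
    have h2 := (hT (s + 1) hs).psd (fun p => ν p + -(d : ℝ)⁻¹ * push ν p.1)
    rw [h1, hpush, hqν] at h2
    have h3 : (d : ℝ)⁻¹ * qf (γ s) w ≤ qf (γ (s + 1)) w := by linarith
    rwa [inv_mul_le_iff₀ hd'] at h3
  have hIk : ∀ m, m ≤ k → qf (γ (k - m)) w ≤ 0 := by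
    intro m
    induction m with
    | zero => intro _; exact hfin
    | succ m ih =>
      intro hm
      have h1 := ih (by omega)
      have h2 := hIstep (k - (m + 1)) (by omega)
      have h3 : k - (m + 1) + 1 = k - m := by omega
      rw [h3] at h2
      nlinarith [h1, h2, hd']
  have hI : ∀ s ≤ k, qf (γ s) w = 0 := by
    intro s hs
    refine le_antisymm ?_ (hI0 s hs)
    have := hIk (k - s) (by omega)
    rwa [show k - (k - s) = s by omega] at this
  -- a label with large weight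
  have hne : (univ : Finset A).Nonempty := by
    rw [nonempty_iff_ne_empty]
    intro h0
    rw [h0, sum_empty] at hw1
    exact zero_ne_one hw1
  have hN : 0 < N := by
    have : 0 < Fintype.card A := card_pos.2 hne
    omega
  have hN' : 0 < (N : ℝ) := by exact_mod_cast hN
  obtain ⟨a, ha⟩ : ∃ a, (N : ℝ)⁻¹ ≤ w a := by
    by_contra hcon
    push Not at hcon
    have h1 : ∑ a, w a < ∑ _a : A, (N : ℝ)⁻¹ := sum_lt_sum_of_nonempty hne fun a _ => hcon a
    rw [hw1, sum_const, card_univ, nsmul_eq_mul] at h1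
    have h2 : (Fintype.card A : ℝ) ≤ N := by exact_mod_cast hcard
    have h3 : (Fintype.card A : ℝ) * (N : ℝ)⁻¹ ≤ 1 := by
      rw [mul_inv_le_iff₀ hN', one_mul]
      exact h2
    linarith
  -- the diagonal values are bounded
  have hdiag : ∀ s ≤ k, γ s a a ≤ 2 * (N : ℝ) ^ 2 := by
    intro s hs
    have h1 : ∑ b, ∑ c, w b * w c * (γ s b c + 2) = 2 := by
      have e : ∀ b c, w b * w c * (γ s b c + 2) = w b * w c * γ s b c + 2 * (w b * w c) :=
        fun b c => by ring
      simp only [e, sum_add_distrib]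
      have h2 : ∑ b, ∑ c, w b * w c * γ s b c = 0 := hI s hs
      rw [h2, zero_add]
      simp only [← mul_sum, hw1, mul_one]
    have h2 : w a * w a * (γ s a a + 2) ≤ ∑ b, ∑ c, w b * w c * (γ s b c + 2) := by
      have hnn : ∀ b c, 0 ≤ w b * w c * (γ s b c + 2) := by
        intro b c
        refine mul_nonneg (mul_nonneg (hw b).le (hw c).le) ?_
        have := hg2 s hs b c
        have e : γ s b c = g s (b, z) (c, z) := rfl
        linarith
      exact (single_le_sum (f := fun c => w a * w c * (γ s a c + 2)) (fun c _ => hnn a c)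
        (mem_univ a)).trans (single_le_sum (f := fun b => ∑ c, w b * w c * (γ s b c + 2))
          (fun b _ => sum_nonneg fun c _ => hnn b c) (mem_univ a))
    rw [h1] at h2
    have h3 : 0 < γ s a a := by
      have := hd2 s hs a
      have e : γ s a a = g s (a, z) (a, z) := rfl
      linarith
    have h4 : (N : ℝ)⁻¹ * (N : ℝ)⁻¹ * γ s a a ≤ w a * w a * (γ s a a + 2) := by
      have h5 : (N : ℝ)⁻¹ * (N : ℝ)⁻¹ ≤ w a * w a :=
        mul_le_mul ha ha (inv_nonneg.2 hN'.le) (hw a).le
      nlinarith [h5, h3, mul_pos (hw a) (hw a), mul_pos (inv_pos.2 hN') (inv_pos.2 hN')]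
    have h6 : (N : ℝ)⁻¹ * (N : ℝ)⁻¹ * γ s a a ≤ 2 := h4.trans h2
    have h7 : γ s a a = (N : ℝ) ^ 2 * ((N : ℝ)⁻¹ * (N : ℝ)⁻¹ * γ s a a) := by
      field_simp
    rw [h7]
    nlinarith [h6, sq_nonneg (N : ℝ)]
  -- the classes
  set cl : ℕ → Finset A := fun s => univ.filter (fun b => γ s a a + γ s b b - 2 * γ s a b ≤ 0)
    with hcl
  have hmemcl : ∀ s b, b ∈ cl s ↔ γ s a a + γ s b b - 2 * γ s a b ≤ 0 := fun s b => by
    simp [hcl]
  have hDj : ∀ s ≤ k, ∀ b, γ s a a + γ s b b - 2 * γ s a b =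
      j s (a, z) (a, z) + j s (b, z) (b, z) - 2 * j s (a, z) (b, z) := by
    intro s hs b
    show g s (a, z) (a, z) + g s (b, z) (b, z) - 2 * g s (a, z) (b, z) = _
    rw [hK s hs (a, z) (a, z), hK s hs (b, z) (b, z), hK s hs (a, z) (b, z)]
    ring
  have hclsub : ∀ s < k, cl (s + 1) ⊆ cl s := by
    intro s hs b hb'
    rw [hmemcl] at hb' ⊢
    have h1 := D_step hd0 (hK (s + 1) hs) (hT (s + 1) hs) (γ := γ s) (hb s hs) a b z z
    rw [← hDj (s + 1) hs b] at h1
    nlinarith [h1, hb', hd']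
  have hself : ∀ s, a ∈ cl s := by
    intro s
    rw [hmemcl]
    linarith
  obtain ⟨s₀, hs₀, hconst⟩ := exists_const (N := N) (l := l) (n := fun s => (cl s).card)
    (fun s hs => card_le_card (hclsub s (lt_of_lt_of_le hs (le_max_left _ _))))
    ((card_le_univ _).trans hcard) (card_pos.2 ⟨a, hself _⟩)
  have hle : ∀ s, s ≤ s₀ + l → s ≤ k := fun s hs =>
    (hs.trans hs₀).trans (le_max_left _ _)
  have hgrow : ∀ m ≤ l, γ s₀ a a = (d : ℝ) ^ m * γ (s₀ + m) a a := by
    intro m
    induction m with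
    | zero => intro _; simp
    | succ m ih =>
      intro hm
      rw [ih (by omega)]
      have hs1 : s₀ + m + 1 ≤ k := hle _ (by omega)
      have h1 : cl (s₀ + m + 1) = cl (s₀ + m) :=
        eq_of_subset_of_card_le (hclsub _ hs1) (hconst (s₀ + m) (by omega) (by omega)).ge
      have h2 := step_eq hd0 (hK (s₀ + m + 1) hs1) (hT (s₀ + m + 1) hs1) (γ := γ (s₀ + m))
        (hb (s₀ + m) hs1) (hcop (s₀ + m + 1) hs1) z hw hw1 (hI (s₀ + m + 1) hs1)
        (hI (s₀ + m) (by omega)) a (fun b hb' => by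
          rw [← hDj (s₀ + m + 1) hs1 b, ← hmemcl, h1, hmemcl]
          exact hb')
      rw [h2, pow_succ]
      show (d : ℝ) ^ m * (d * γ (s₀ + m + 1) a a) = (d : ℝ) ^ m * d * γ (s₀ + m + 1) a a
      ring
  have h1 := hgrow l le_rfl
  have h2 := hdiag s₀ (hle _ (by omega))
  have h3 := hd2 (s₀ + l) (hle _ le_rfl) a
  have h4 : c ≤ γ (s₀ + l) a a := h3
  rw [div_lt_iff₀ hc] at hl
  have h5 : (d : ℝ) ^ l * c ≤ (d : ℝ) ^ l * γ (s₀ + l) a a :=
    mul_le_mul_of_nonneg_left h4 (pow_nonneg hd'.le _)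
  linarith

end Pool.Agent.RI
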