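import Mathlib
import Pool.Agent.RI.Pre

set_option autoImplicit false

/-!
# The labels of a vector
-/

namespace Pool.Agent.RI

open Polynomial Pool.Agent.RDF

/-- The forward orbit `X s z0 = Φ^(k - s)(y)` and the preimages `X (s + 1) t` of `X s z0`. -/
theorem exists_labels {d : ℕ} (hd : 2 ≤ d) (z0 : Fin d) (D : Dat d) (k : ℕ) (y : D.Om × D.Om)
    (hy : D.pv y) : ∃ X : ℕ → Fin d → D.Om × D.Om, X k z0 = y ∧
      (∀ s < k, X s z0 = D.Phi (X (s + 1) z0)) ∧ (∀ s < k, PreSys D (X s z0) (X (s + 1))) ∧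
      (∀ t, X 0 t = X 0 z0) ∧ ∀ s ≤ k, ∀ t, D.pv (X s t) := by
  have hd1 : 1 ≤ d := by omega
  have hO : ∀ n, D.pv (D.Phi^[n] y) := by
    intro n
    induction n with
    | zero => exact hy
    | succ n ih =>
      rw [Function.iterate_succ_apply']
      exact pv_Phi hd1 D ih
  have hP : ∀ n, ∃ u : Fin d → D.Om × D.Om,
      PreSys D (D.Phi (D.Phi^[n] y)) u ∧ u z0 = D.Phi^[n] y :=
    fun n => exists_pre' hd1 D _ (pv_Phi hd1 D (hO n)).1 z0
  choose U hU hUz using hP
  refine ⟨fun s => if s = 0 then fun _ => D.Phi^[k] y else U (k - s), ?_, ?_, ?_, ?_, ?_⟩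
  · by_cases hk : k = 0
    · subst hk
      simp
    · simp [hk, hUz]
  · intro s hs
    have e : D.Phi (D.Phi^[k - (s + 1)] y) = D.Phi^[k - s] y := by
      rw [← Function.iterate_succ_apply' D.Phi]
      congr 1
      omega
    by_cases h0 : s = 0
    · subst h0
      simp [hUz, e]
    · simp [h0, e, hUz]
  · intro s hs
    have e : D.Phi (D.Phi^[k - (s + 1)] y) = D.Phi^[k - s] y := by
      rw [← Function.iterate_succ_apply' D.Phi]
      congr 1
      omega
    have h1 := hU (k - (s + 1))
    rw [e] at h1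
    by_cases h0 : s = 0
    · subst h0
      simpa using h1
    · simpa [h0, hUz] using h1
  · intro t
    simp
  · intro s hs t
    by_cases h0 : s = 0
    · subst h0
      simpa using hO k
    · simp only [h0, if_false]
      refine pv_pre hd1 D ?_
      rw [(hU (k - s)).1 t]
      exact pv_Phi hd1 D (hO _)

end Pool.Agent.RI
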