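import Mathlib
import Pool.Agent.RI.LimD

set_option autoImplicit false

/-!
# Bounds for the labels
-/

namespace Pool.Agent.RI

open Polynomial Pool.Agent.RDF

section

variable {L : Type*} [Field L] (abv : AbsoluteValue L ℝ)

/-- the three term relation -/
private theorem bd_three (x y z : L × L) :
    abv (wedge x z) * nrm abv y ≤ abv (wedge x y) * nrm abv z + abv (wedge y z) * nrm abv x := by
  have h1 : wedge x z * y.1 = wedge x y * z.1 + wedge y z * x.1 := by
    simp only [wedge]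
    ring
  have h2 : wedge x z * y.2 = wedge x y * z.2 + wedge y z * x.2 := by
    simp only [wedge]
    ring
  have key : ∀ u v w : L, wedge x z * u = wedge x y * w + wedge y z * v → abv w ≤ nrm abv z →
      abv v ≤ nrm abv x → abv (wedge x z) * abv u ≤
        abv (wedge x y) * nrm abv z + abv (wedge y z) * nrm abv x := by
    intro u v w h hw hv
    rw [← abv.map_mul, h]
    refine (abv.add_le _ _).trans ?_
    rw [abv.map_mul, abv.map_mul]
    exact add_le_add (mul_le_mul_of_nonneg_left hw (abv.nonneg _))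
      (mul_le_mul_of_nonneg_left hv (abv.nonneg _))
  rcases max_cases (abv y.1) (abv y.2) with h | h
  · have e : nrm abv y = abv y.1 := h.1
    rw [e]
    exact key _ _ _ h1 (le_max_left _ _) (le_max_left _ _)
  · have e : nrm abv y = abv y.2 := h.1
    rw [e]
    exact key _ _ _ h2 (le_max_right _ _) (le_max_right _ _)

/-- the trivial bound -/
private theorem bd_wedge_le (x y : L × L) :
    abv (wedge x y) ≤ 2 * (nrm abv x * nrm abv y) := by
  have h : abv (wedge x y) ≤ abv (x.1 * y.2) + abv (y.1 * x.2) := by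
    have h1 := abv.add_le (x.1 * y.2) (-(y.1 * x.2))
    rw [abv.map_neg, ← sub_eq_add_neg] at h1
    exact h1
  refine h.trans ?_
  rw [abv.map_mul, abv.map_mul]
  have h1 : abv x.1 * abv y.2 ≤ nrm abv x * nrm abv y :=
    mul_le_mul (le_max_left _ _) (le_max_right _ _) (abv.nonneg _)
      ((abv.nonneg _).trans (le_max_left _ _))
  have h2 : abv y.1 * abv x.2 ≤ nrm abv x * nrm abv y := by
    rw [mul_comm]
    exact mul_le_mul (le_max_right _ _) (le_max_left _ _) (abv.nonneg _)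
      ((abv.nonneg _).trans (le_max_left _ _))
  linarith

variable {abv}

private theorem bd_of_JJ {Λ c : ℝ} {x y : L × L} (hx : 0 < nrm abv x) (hy : 0 < nrm abv y)
    (h : c ≤ JJ abv Λ x y) :
    abv (wedge x y) ≤ Real.exp (-c) * (nrm abv x * nrm abv y) := by
  have hpos : 0 < max (abv (wedge x y) / (nrm abv x * nrm abv y)) (Real.exp (-Λ)) :=
    lt_of_lt_of_le (Real.exp_pos _) (le_max_right _ _)
  have h1 : Real.log (max (abv (wedge x y) / (nrm abv x * nrm abv y)) (Real.exp (-Λ))) ≤ -c := by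
    have : c ≤ -Real.log (max (abv (wedge x y) / (nrm abv x * nrm abv y)) (Real.exp (-Λ))) := h
    linarith
  have h2 := (Real.log_le_iff_le_exp hpos).1 h1
  have h3 := (le_max_left _ _).trans h2
  rwa [div_le_iff₀ (mul_pos hx hy)] at h3

private theorem bd_JJ_ge {Λ c : ℝ} {x y : L × L} (hx : 0 < nrm abv x) (hy : 0 < nrm abv y)
    (hc : c ≤ Λ) (h : abv (wedge x y) ≤ Real.exp (-c) * (nrm abv x * nrm abv y)) :
    c ≤ JJ abv Λ x y := by
  have hpos : 0 < max (abv (wedge x y) / (nrm abv x * nrm abv y)) (Real.exp (-Λ)) :=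
    lt_of_lt_of_le (Real.exp_pos _) (le_max_right _ _)
  have h1 : max (abv (wedge x y) / (nrm abv x * nrm abv y)) (Real.exp (-Λ)) ≤ Real.exp (-c) := by
    refine max_le ?_ (Real.exp_le_exp.2 (by linarith))
    rwa [div_le_iff₀ (mul_pos hx hy)]
  have h2 := (Real.log_le_iff_le_exp hpos).2 h1
  show c ≤ -Real.log (max (abv (wedge x y) / (nrm abv x * nrm abv y)) (Real.exp (-Λ)))
  linarith

end

/-- `|R| = e^(-λ)` -/
private theorem bd_res {d : ℕ} (D : Dat d) :
    D.abv (resultant D.F D.G d d) = Real.exp (-D.lam) := by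
  rw [Dat.lam, neg_neg, Real.exp_log ((AbsoluteValue.pos_iff _).2 D.hR)]

/-- a vector whose image is close to `q` is close to a preimage of `q` -/
private theorem bd_close {d : ℕ} (hd : 1 ≤ d) (D : Dat d) {q : D.Om × D.Om}
    {y : Fin d → D.Om × D.Om} (hy : PreSys D q y) (p : D.Om × D.Om) (κ : ℝ)
    (h : D.abv (wedge (D.Phi p) q) ≤ Real.exp (-(D.lam / d + d * κ))) :
    ∃ t, D.abv (wedge p (y t)) ≤ Real.exp (-κ) := by
  by_contra hcon
  push Not at hcon
  have hne : (Finset.univ : Finset (Fin d)).Nonempty := ⟨⟨0, by omega⟩, Finset.mem_univ _⟩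
  have h1 : ∏ _t : Fin d, Real.exp (-κ) ^ d < ∏ t, D.abv (wedge p (y t)) ^ d :=
    Finset.prod_lt_prod_of_nonempty (fun _ _ => pow_pos (Real.exp_pos _) _)
      (fun t _ => pow_lt_pow_left₀ (hcon t) (Real.exp_pos _).le (by omega)) hne
  have h2 := hy.2 p
  rw [bd_res] at h2
  have h3 : D.abv (wedge (D.Phi p) q) ^ d ≤ Real.exp (-(D.lam / d + d * κ)) ^ d :=
    pow_le_pow_left₀ (D.abv.nonneg _) h d
  rw [h2] at h3
  have hd0 : (d : ℝ) ≠ 0 := by
    have : (1 : ℝ) ≤ d := by exact_mod_cast hd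
    positivity
  have h4 : Real.exp (-(D.lam / d + d * κ)) ^ d =
      Real.exp (-D.lam) * ∏ _t : Fin d, Real.exp (-κ) ^ d := by
    rw [Finset.prod_const, Finset.card_univ, Fintype.card_fin, ← pow_mul, ← Real.exp_nat_mul,
      ← Real.exp_nat_mul, ← Real.exp_add]
    congr 1
    push_cast
    field_simp
    ring
  rw [h4] at h3
  have h5 := mul_lt_mul_of_pos_left h1 (Real.exp_pos (-D.lam))
  exact absurd h3 (not_le.2 h5)

/-- a vector close to a preimage of `q` has an image close to `q` -/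
private theorem bd_far {d : ℕ} (hd : 2 ≤ d) (D : Dat d) {q : D.Om × D.Om}
    {y : Fin d → D.Om × D.Om} (hy : PreSys D q y) (p : D.Om × D.Om) (β M : ℝ) (s : Fin d)
    (hs : D.abv (wedge p (y s)) ≤ Real.exp (-β)) (hM : ∀ t, D.abv (wedge p (y t)) ≤ Real.exp M) :
    D.abv (wedge (D.Phi p) q) ≤ Real.exp (-(D.lam / d + β - (d - 1) * M)) := by
  classical
  have hd0 : (d : ℝ) ≠ 0 := by
    have : (2 : ℝ) ≤ d := by exact_mod_cast hd
    positivity
  have h1 : ∏ t, D.abv (wedge p (y t)) ^ d ≤ Real.exp (-β) ^ d * (Real.exp M ^ d) ^ (d - 1) := by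
    rw [← Finset.mul_prod_erase Finset.univ _ (Finset.mem_univ s)]
    refine mul_le_mul (pow_le_pow_left₀ (D.abv.nonneg _) hs d) ?_
      (Finset.prod_nonneg fun t _ => pow_nonneg (D.abv.nonneg _) _) (pow_nonneg (Real.exp_pos _).le _)
    have h2 : ∏ t ∈ Finset.univ.erase s, D.abv (wedge p (y t)) ^ d ≤
        ∏ _t ∈ Finset.univ.erase s, Real.exp M ^ d :=
      Finset.prod_le_prod (fun t _ => pow_nonneg (D.abv.nonneg _) _)
        (fun t _ => pow_le_pow_left₀ (D.abv.nonneg _) (hM t) d)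
    rwa [Finset.prod_const, Finset.card_erase_of_mem (Finset.mem_univ s), Finset.card_univ,
      Fintype.card_fin] at h2
  have h2 := hy.2 p
  rw [bd_res] at h2
  have h3 : D.abv (wedge (D.Phi p) q) ^ d ≤ Real.exp (-(D.lam / d + β - (d - 1) * M)) ^ d := by
    rw [h2]
    refine (mul_le_mul_of_nonneg_left h1 (Real.exp_pos _).le).trans (le_of_eq ?_)
    rw [← pow_mul, ← Real.exp_nat_mul, ← Real.exp_nat_mul, ← Real.exp_nat_mul, ← Real.exp_add,
      ← Real.exp_add]
    congr 1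
    push_cast [Nat.cast_sub (by omega : 1 ≤ d)]
    field_simp
    ring
  exact le_of_pow_le_pow_left₀ (by omega) (Real.exp_pos _).le h3

theorem LimD.diag_Phi {d : ℕ} (hd : 2 ≤ d) {P : Type} [Finite P] {D : ℕ → Dat d} {t : ℕ → ℕ}
    {x : ∀ n, Fin (t n) → P → (D n).Om × (D n).Om} {Lam : ℝ} {j : P → P → ℝ} {h : P → ℝ}
    (H : LimD D t x Lam j h) (f p : P) (hf : ∀ n i, x n i f = (D n).Phi (x n i p)) (B : ℝ)
    (hB : j p p ≤ B) (hL : d * B + 4 < Lam) : j f f ≤ d * B + 4 := by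
  obtain ⟨C, hC0, hC⟩ := pv_nrm d hd
  by_contra hcon
  push Not at hcon
  have hd2 : (2 : ℝ) ≤ d := by exact_mod_cast hd
  have hB0 : 0 ≤ B := ((H.treeK hd).nonneg p p).trans hB
  obtain ⟨ε, hεd⟩ : ∃ ε : ℝ, ε = 1 / (8 * d) := ⟨_, rfl⟩
  have hε : 0 < ε := by rw [hεd]; positivity
  have hdε : (d : ℝ) * ε = 1 / 8 := by rw [hεd]; field_simp
  have hε1 : ε ≤ 1 / 16 := by nlinarith
  have hlog : 0 < Real.log 2 := Real.log_pos (by norm_num)
  obtain ⟨K, hK1, hK2⟩ : ∃ K : ℝ, 2 * C + Real.log 2 < ε * K ∧ 2 * C < K := by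
    refine ⟨(2 * C + Real.log 2) / ε + (2 * C + 1), ?_, ?_⟩
    · rw [mul_add, mul_div_cancel₀ _ hε.ne']
      nlinarith
    · have : 0 ≤ (2 * C + Real.log 2) / ε := by positivity
      linarith
  obtain ⟨n, hn, hn1, e, he, hJ, -, -⟩ := H.good hd ε hε (max (d + 2) (⌈K⌉₊ + 1))
  obtain ⟨lm, hlm⟩ : ∃ lm : ℝ, lm = (D n).lam := ⟨_, rfl⟩
  have hlmK : K < lm := by
    have h1 : (⌈K⌉₊ + 1 : ℕ) ≤ n := (le_max_right _ _).trans hn
    have h2 : ((⌈K⌉₊ + 1 : ℕ) : ℝ) ≤ n := by exact_mod_cast h1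
    have h3 := H.lam n
    have h4 := Nat.le_ceil K
    push_cast at h2
    rw [hlm]
    linarith
  have hlm0 : 0 < lm := by linarith
  have hup : ∀ v, (D n).pv v → nrm (D n).abv v ≤ Real.exp (lm + C) := by
    intro v hv
    have h1 := (hC (D n) v hv).2
    rw [← hlm, max_eq_left hlm0.le] at h1
    have h2 : (lm + C) / ((d : ℝ) - 1) ≤ lm + C :=
      div_le_self (by linarith) (by linarith)
    exact (Real.log_le_iff_le_exp (nrm_pos _ hv.1)).1 (h1.trans h2)
  have hlow : ∀ v, (D n).pv v → Real.exp (-C) ≤ nrm (D n).abv v := by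
    intro v hv
    exact (Real.le_log_iff_exp_le (nrm_pos _ hv.1)).1 (hC (D n) v hv).1
  -- the indices
  have hr : d + 2 ≤ max (d + 2) (⌈K⌉₊ + 1) := le_max_left _ _
  set E : Fin (d + 2) → Fin (max (d + 2) (⌈K⌉₊ + 1)) := Fin.castLE hr with hE
  have hEinj : Function.Injective E := Fin.castLE_injective hr
  set q := x n (e (E (Fin.last (d + 1)))) p with hq
  have hqpv : (D n).pv q := H.pv n _ p
  have hΦq : (D n).pv ((D n).Phi q) := pv_Phi (by omega) (D n) hqpv
  obtain ⟨y, hy, -⟩ := exists_pre' (by omega) (D n) q hΦq.1 (⟨0, by omega⟩ : Fin d)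
  have hypv : ∀ s, (D n).pv (y s) := fun s => pv_pre (by omega) (D n) (by rw [hy.1 s]; exact hΦq)
  -- every point is close to a preimage
  have hclose : ∀ i : Fin (d + 1), ∃ s, (D n).abv (wedge (x n (e (E i.castSucc)) p) (y s)) ≤
      Real.exp (-((B + 2 * ε) * lm)) := by
    intro i
    have hne : E i.castSucc ≠ E (Fin.last (d + 1)) := fun h1 =>
      absurd (hEinj h1) (Fin.castSucc_lt_last i).ne
    have h1 := (abs_le.1 (hJ _ _ hne f f)).1
    rw [← hlm, hf, hf] at h1
    have h2 : (j f f - ε) * lm ≤ JJ (D n).abv (Lam * lm)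
        ((D n).Phi (x n (e (E i.castSucc)) p)) ((D n).Phi q) := by
      rw [← le_div_iff₀ hlm0]
      linarith
    have hpv := pv_Phi (by omega) (D n) (H.pv n (e (E i.castSucc)) p)
    have h3 := bd_of_JJ (nrm_pos _ hpv.1) (nrm_pos _ hΦq.1) h2
    refine bd_close (by omega) (D n) hy _ _ ?_
    refine h3.trans ?_
    have h4 : nrm (D n).abv ((D n).Phi (x n (e (E i.castSucc)) p)) *
        nrm (D n).abv ((D n).Phi q) ≤ Real.exp (lm + C) * Real.exp (lm + C) :=
      mul_le_mul (hup _ hpv) (hup _ hΦq) (nrm_nonneg _ _) (Real.exp_pos _).le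
    refine (mul_le_mul_of_nonneg_left h4 (Real.exp_pos _).le).trans ?_
    rw [← Real.exp_add, ← Real.exp_add, Real.exp_le_exp, ← hlm]
    have h5 : lm / d ≤ lm / 2 := div_le_div_of_nonneg_left hlm0.le (by norm_num) hd2
    have h6 : (d : ℝ) * ((B + 2 * ε) * lm) = d * B * lm + lm / 4 := by
      have : (d : ℝ) * ((B + 2 * ε) * lm) = d * B * lm + 2 * (d * ε) * lm := by ring
      rw [this, hdε]
      ring
    rw [h6]
    have h7 : (d * B + 4) * lm ≤ j f f * lm := mul_le_mul_of_nonneg_right hcon.le hlm0.le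
    have h8 : ε * lm ≤ 1 / 16 * lm := mul_le_mul_of_nonneg_right hε1 hlm0.le
    nlinarith
  choose s hs using hclose
  obtain ⟨i, i', hii, hss⟩ := Fintype.exists_ne_map_eq_of_card_lt s (by simp)
  have hi := hs i
  have hi' := hs i'
  rw [← hss] at hi'
  set p1 := x n (e (E i.castSucc)) p with hp1
  set p2 := x n (e (E i'.castSucc)) p with hp2
  have hp1v : (D n).pv p1 := H.pv n _ p
  have hp2v : (D n).pv p2 := H.pv n _ p
  have hn1' := nrm_pos (D n).abv hp1v.1
  have hn2' := nrm_pos (D n).abv hp2v.1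
  have hny := nrm_pos (D n).abv (hypv (s i)).1
  have hthree := bd_three (D n).abv p1 (y (s i)) p2
  have hcomm : (D n).abv (wedge (y (s i)) p2) = (D n).abv (wedge p2 (y (s i))) := by
    rw [wedge_comm, (D n).abv.map_neg]
  rw [hcomm] at hthree
  have hc : (B + 2 * ε) * lm - 2 * C - Real.log 2 ≤ JJ (D n).abv (Lam * lm) p1 p2 := by
    refine bd_JJ_ge hn1' hn2' ?_ ?_
    · have h1 : (B + 2 * ε) * lm ≤ (d * B + 4) * lm := by
        refine mul_le_mul_of_nonneg_right ?_ hlm0.le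
        nlinarith
      have h2 : (d * B + 4) * lm ≤ Lam * lm := mul_le_mul_of_nonneg_right hL.le hlm0.le
      linarith
    · have h1 : Real.exp (-((B + 2 * ε) * lm - 2 * C - Real.log 2)) =
          2 * (Real.exp (-((B + 2 * ε) * lm)) * (Real.exp C * Real.exp C)) := by
        have e1 : -((B + 2 * ε) * lm - 2 * C - Real.log 2) =
            Real.log 2 + (-((B + 2 * ε) * lm) + (C + C)) := by ring
        rw [e1, Real.exp_add, Real.exp_log (by norm_num : (0 : ℝ) < 2), Real.exp_add, Real.exp_add]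
      rw [h1]
      refine le_of_mul_le_mul_right (hthree.trans ?_) hny
      have hX : ∀ v, (D n).pv v → 1 ≤ Real.exp C * nrm (D n).abv v := by
        intro v hv
        have h2 := mul_le_mul_of_nonneg_left (hlow v hv) (Real.exp_pos C).le
        rwa [← Real.exp_add, add_neg_cancel, Real.exp_zero] at h2
      have hE0 := (Real.exp_pos (-((B + 2 * ε) * lm))).le
      have h3 : (D n).abv (wedge p1 (y (s i))) * nrm (D n).abv p2 ≤
          Real.exp (-((B + 2 * ε) * lm)) * (nrm (D n).abv p2 *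
            ((Real.exp C * nrm (D n).abv p1) * (Real.exp C * nrm (D n).abv (y (s i))))) := by
        refine (mul_le_mul_of_nonneg_right hi hn2'.le).trans ?_
        refine mul_le_mul_of_nonneg_left ?_ hE0
        exact le_mul_of_one_le_right hn2'.le
          (one_le_mul_of_one_le_of_one_le (hX _ hp1v) (hX _ (hypv _)))
      have h4 : (D n).abv (wedge p2 (y (s i))) * nrm (D n).abv p1 ≤
          Real.exp (-((B + 2 * ε) * lm)) * (nrm (D n).abv p1 *
            ((Real.exp C * nrm (D n).abv p2) * (Real.exp C * nrm (D n).abv (y (s i))))) := by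
        refine (mul_le_mul_of_nonneg_right hi' hn1'.le).trans ?_
        refine mul_le_mul_of_nonneg_left ?_ hE0
        exact le_mul_of_one_le_right hn1'.le
          (one_le_mul_of_one_le_of_one_le (hX _ hp2v) (hX _ (hypv _)))
      refine (add_le_add h3 h4).trans (le_of_eq ?_)
      ring
  have hne : E i.castSucc ≠ E i'.castSucc := fun h1 =>
    hii (Fin.castSucc_injective _ (hEinj h1))
  have h1 := (abs_le.1 (hJ _ _ hne p p)).2
  rw [← hlm] at h1
  have h2 : JJ (D n).abv (Lam * lm) p1 p2 ≤ (B + ε) * lm := by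
    rw [← div_le_iff₀ hlm0]
    linarith
  have h3 : ε * K < ε * lm := mul_lt_mul_of_pos_left hlmK hε
  nlinarith

theorem LimD.pre_le {d : ℕ} (hd : 2 ≤ d) {P : Type} [Finite P] {D : ℕ → Dat d} {t : ℕ → ℕ}
    {x : ∀ n, Fin (t n) → P → (D n).Om × (D n).Om} {Lam : ℝ} {j : P → P → ℝ} {h : P → ℝ}
    (H : LimD D t x Lam j h) (p q u : P) (c : Fin d → P)
    (hu : ∀ n i, (D n).Phi (x n i u) = x n i p)
    (hc : ∀ n i, PreSys (D n) (x n i q) (fun s => x n i (c s))) (B : ℝ) (hB : j p q ≤ B)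
    (hL : B + 5 < Lam) (s : Fin d) : j u (c s) ≤ B + 5 := by
  obtain ⟨C, hC0, hC⟩ := pv_nrm d hd
  by_contra hcon
  push Not at hcon
  have hd2 : (2 : ℝ) ≤ d := by exact_mod_cast hd
  have hlog : 0 < Real.log 2 := Real.log_pos (by norm_num)
  obtain ⟨n, hn, hn1, e, he, hJ, -, -⟩ := H.good hd (1 / 8) (by norm_num)
    (max 2 (⌈8 * C + 2 * ((d - 1) * Real.log 2)⌉₊ + 1))
  obtain ⟨lm, hlm⟩ : ∃ lm : ℝ, lm = (D n).lam := ⟨_, rfl⟩
  have hlmK : 8 * C + 2 * ((d - 1) * Real.log 2) < lm := by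
    have h1 : (⌈8 * C + 2 * ((d - 1) * Real.log 2)⌉₊ + 1 : ℕ) ≤ n := (le_max_right _ _).trans hn
    have h2 : ((⌈8 * C + 2 * ((d - 1) * Real.log 2)⌉₊ + 1 : ℕ) : ℝ) ≤ n := by exact_mod_cast h1
    have h3 := H.lam n
    have h4 := Nat.le_ceil (8 * C + 2 * ((d - 1) * Real.log 2))
    push_cast at h2
    rw [hlm]
    linarith
  have hdl : 0 ≤ ((d : ℝ) - 1) * Real.log 2 := mul_nonneg (by linarith) hlog.le
  have hlm0 : 0 < lm := by linarith
  have hup : ∀ v, (D n).pv v → nrm (D n).abv v ≤ Real.exp ((lm + C) / (d - 1)) := by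
    intro v hv
    have h1 := (hC (D n) v hv).2
    rw [← hlm, max_eq_left hlm0.le] at h1
    exact (Real.log_le_iff_le_exp (nrm_pos _ hv.1)).1 h1
  have hlow : ∀ v, (D n).pv v → Real.exp (-C) ≤ nrm (D n).abv v := by
    intro v hv
    exact (Real.le_log_iff_exp_le (nrm_pos _ hv.1)).1 (hC (D n) v hv).1
  have hr : 2 ≤ max 2 (⌈8 * C + 2 * ((d - 1) * Real.log 2)⌉₊ + 1) := le_max_left _ _
  obtain ⟨a, b, hab⟩ : ∃ a b : Fin (max 2 (⌈8 * C + 2 * ((d - 1) * Real.log 2)⌉₊ + 1)), a ≠ b :=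
    ⟨⟨0, by omega⟩, ⟨1, by omega⟩, by simp⟩
  have hlc : (lm + C) / ((d : ℝ) - 1) ≤ lm + C := div_le_self (by linarith) (by linarith)
  -- the pair `u, c s`
  have huv := H.pv n (e a) u
  have hcv : ∀ s, (D n).pv (x n (e b) (c s)) := fun s => H.pv n (e b) (c s)
  have h1 := (abs_le.1 (hJ _ _ hab u (c s))).1
  rw [← hlm] at h1
  have h2 : (B + 5 - 1 / 8) * lm ≤ JJ (D n).abv (Lam * lm) (x n (e a) u) (x n (e b) (c s)) := by
    rw [← le_div_iff₀ hlm0]
    linarith
  have h3 := bd_of_JJ (nrm_pos _ huv.1) (nrm_pos _ (hcv s).1) h2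
  have h4 : (D n).abv (wedge (x n (e a) u) (x n (e b) (c s))) ≤
      Real.exp (-((B + 5 - 1 / 8) * lm - 2 * (lm + C))) := by
    refine h3.trans ?_
    have h5 : nrm (D n).abv (x n (e a) u) * nrm (D n).abv (x n (e b) (c s)) ≤
        Real.exp ((lm + C) / (d - 1)) * Real.exp ((lm + C) / (d - 1)) :=
      mul_le_mul (hup _ huv) (hup _ (hcv s)) (nrm_nonneg _ _) (Real.exp_pos _).le
    refine (mul_le_mul_of_nonneg_left h5 (Real.exp_pos _).le).trans ?_
    rw [← Real.exp_add, ← Real.exp_add, Real.exp_le_exp]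
    linarith
  have h5 : ∀ s, (D n).abv (wedge (x n (e a) u) (x n (e b) (c s))) ≤
      Real.exp (Real.log 2 + 2 * ((lm + C) / (d - 1))) := by
    intro s
    refine (bd_wedge_le _ _ _).trans ?_
    rw [Real.exp_add, Real.exp_log (by norm_num : (0 : ℝ) < 2), two_mul ((lm + C) / ((d : ℝ) - 1)),
      Real.exp_add]
    exact mul_le_mul_of_nonneg_left
      (mul_le_mul (hup _ huv) (hup _ (hcv s)) (nrm_nonneg _ _) (Real.exp_pos _).le) (by norm_num)
  have h6 := bd_far hd (D n) (hc n (e b)) (x n (e a) u) _ _ s h4 h5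
  rw [hu, ← hlm] at h6
  have hpv := H.pv n (e a) p
  have hqv := H.pv n (e b) q
  have hd1 : (d : ℝ) - 1 ≠ 0 := by
    intro h
    linarith
  have hx : lm / d + ((B + 5 - 1 / 8) * lm - 2 * (lm + C)) -
      (d - 1) * (Real.log 2 + 2 * ((lm + C) / (d - 1))) =
      lm / d + (B + 1 - 1 / 8) * lm - 4 * C - (d - 1) * Real.log 2 := by
    field_simp
    ring
  rw [hx] at h6
  have h7 : lm / d + (B + 1 - 1 / 8) * lm - 6 * C - (d - 1) * Real.log 2 ≤
      JJ (D n).abv (Lam * lm) (x n (e a) p) (x n (e b) q) := by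
    refine bd_JJ_ge (nrm_pos _ hpv.1) (nrm_pos _ hqv.1) ?_ ?_
    · have h8 : lm / d ≤ lm / 2 := div_le_div_of_nonneg_left hlm0.le (by norm_num) hd2
      have h9 : (B + 5) * lm ≤ Lam * lm := mul_le_mul_of_nonneg_right hL.le hlm0.le
      linarith
    · have h8 : Real.exp (-(lm / d + (B + 1 - 1 / 8) * lm - 6 * C - (d - 1) * Real.log 2)) =
          Real.exp (-(lm / d + (B + 1 - 1 / 8) * lm - 4 * C - (d - 1) * Real.log 2)) *
            (Real.exp C * Real.exp C) := by
        rw [← Real.exp_add, ← Real.exp_add]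
        congr 1
        ring
      rw [h8]
      have hX : ∀ v, (D n).pv v → 1 ≤ Real.exp C * nrm (D n).abv v := by
        intro v hv
        have h2 := mul_le_mul_of_nonneg_left (hlow v hv) (Real.exp_pos C).le
        rwa [← Real.exp_add, add_neg_cancel, Real.exp_zero] at h2
      refine h6.trans ?_
      rw [mul_assoc]
      refine le_mul_of_one_le_right (Real.exp_pos _).le ?_
      have h9 := one_le_mul_of_one_le_of_one_le (hX _ hpv) (hX _ hqv)
      refine h9.trans (le_of_eq ?_)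
      ring
  have h8 := (abs_le.1 (hJ _ _ hab p q)).2
  rw [← hlm] at h8
  have h9 : JJ (D n).abv (Lam * lm) (x n (e a) p) (x n (e b) q) ≤ (B + 1 / 8) * lm := by
    rw [← div_le_iff₀ hlm0]
    linarith
  have h10 : 0 ≤ lm / d := by positivity
  nlinarith

end Pool.Agent.RI
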