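import Pool.Agent.RDF.Star

set_option autoImplicit false

/-!
# The energy of pairwise independent vectors

For `n = d ^ m` pairwise independent vectors whose orbits under the lift `Φ = (F, G)` have
logarithmic norms at most `B`, the sum over the ordered pairs of
`-log |x ∧ y| - log |R| / (d (d - 1))` is at least `(m n / d) (-log |R|) - 2 n log n - 2 n m (d - 1) B`.
-/

namespace Pool.Agent.RI

open Polynomial Pool.Agent.RDF

theorem two_rr (d m : ℕ) (hd : 2 ≤ d) :
    2 * (rr d m : ℝ) = (d : ℝ) ^ m * ((d : ℝ) ^ m - 1) / (d * ((d : ℝ) - 1)) - m * (d : ℝ) ^ m / d := by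
  have h := rr_closed d m (by omega)
  have h1 : (1 : ℕ) ≤ d ^ m := Nat.one_le_pow _ _ (by omega)
  have h2 : (2 * (d : ℝ) * ((d : ℝ) - 1) * rr d m + m * ((d : ℝ) - 1) * (d : ℝ) ^ m) =
      (d : ℝ) ^ m * ((d : ℝ) ^ m - 1) := by
    have h3 : ((2 * d * (d - 1) * rr d m + m * (d - 1) * d ^ m : ℕ) : ℝ) =
        ((d ^ m * (d ^ m - 1) : ℕ) : ℝ) := by rw [h]
    rw [Nat.cast_add, Nat.cast_mul, Nat.cast_mul, Nat.cast_mul, Nat.cast_mul, Nat.cast_mul,
      Nat.cast_mul, Nat.cast_sub (by omega : 1 ≤ d), Nat.cast_sub h1] at h3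
    push_cast at h3
    exact h3
  have hd0 : (d : ℝ) ≠ 0 := by positivity
  have hd1 : (d : ℝ) - 1 ≠ 0 := by
    have : (2 : ℝ) ≤ d := by exact_mod_cast hd
    intro h
    linarith
  field_simp
  linear_combination h2

/-- The energy identity: the sum over the ordered pairs in terms of the determinant. -/
theorem energy_eq {L : Type*} [Field L] (abv : AbsoluteValue L ℝ) (d m : ℕ) (hd : 2 ≤ d)
    (F G : L[X]) (hF : F.natDegree ≤ d) (hG : G.natDegree ≤ d) (hR : resultant F G d d ≠ 0)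
    (z : Fin (d ^ m) → L × L) (hw : ∀ i j, i ≠ j → wedge (z i) (z j) ≠ 0) :
    ∑ i, ∑ j ∈ Finset.univ.erase i, (-Real.log (abv (wedge (z i) (z j))) -
        Real.log (abv (resultant F G d d)) / (d * ((d : ℝ) - 1))) =
      m * (d : ℝ) ^ m / d * (-Real.log (abv (resultant F G d d))) -
        2 * Real.log (abv (mat d m F G z).det) := by
  have h1 := log_det_eq abv d m (by omega) F G hF hG hR z hw
  have h2 := two_rr d m hd
  have hn : (1 : ℕ) ≤ d ^ m := Nat.one_le_pow _ _ (by omega)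
  have h3 : ∀ i : Fin (d ^ m), ∑ j ∈ Finset.univ.erase i, (-Real.log (abv (wedge (z i) (z j))) -
        Real.log (abv (resultant F G d d)) / (d * ((d : ℝ) - 1))) =
      -∑ j ∈ Finset.univ.erase i, Real.log (abv (wedge (z i) (z j))) -
        ((d : ℝ) ^ m - 1) * (Real.log (abv (resultant F G d d)) / (d * ((d : ℝ) - 1))) := by
    intro i
    rw [Finset.sum_sub_distrib, Finset.sum_neg_distrib, Finset.sum_const,
      Finset.card_erase_of_mem (Finset.mem_univ _), Finset.card_univ, Fintype.card_fin,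
      nsmul_eq_mul, Nat.cast_sub hn]
    push_cast
    ring
  rw [Finset.sum_congr rfl fun i _ => h3 i, Finset.sum_sub_distrib, Finset.sum_neg_distrib,
    Finset.sum_const, Finset.card_univ, Fintype.card_fin, nsmul_eq_mul]
  push_cast
  have h4 : 2 * (rr d m * Real.log (abv (resultant F G d d))) =
      ((d : ℝ) ^ m * ((d : ℝ) ^ m - 1) / (d * ((d : ℝ) - 1)) - m * (d : ℝ) ^ m / d) *
        Real.log (abv (resultant F G d d)) := by
    rw [← h2]
    ring
  rw [h4] at h1
  have e : (d : ℝ) ^ m * (((d : ℝ) ^ m - 1) *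
      (Real.log (abv (resultant F G d d)) / (d * ((d : ℝ) - 1)))) =
      (d : ℝ) ^ m * ((d : ℝ) ^ m - 1) / (d * ((d : ℝ) - 1)) *
        Real.log (abv (resultant F G d d)) := by ring
  rw [e]
  linear_combination h1

theorem sum_UU_le {L : Type*} [Field L] (abv : AbsoluteValue L ℝ) (d m : ℕ) (hd : 1 ≤ d)
    (F G : L[X]) {ι : Type*} [Fintype ι] (z : ι → L × L) (B : ℝ)
    (hB : ∀ i k, Real.log (nrm abv ((lift d F G)^[k] (z i))) ≤ B) :
    ∑ i, UU abv d m F G (z i) ≤ Fintype.card ι * (m * (((d : ℝ) - 1) * B)) := by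
  have hd1 : (0 : ℝ) ≤ (d : ℝ) - 1 := by
    have : (1 : ℝ) ≤ d := by exact_mod_cast hd
    linarith
  calc ∑ i, UU abv d m F G (z i) ≤ ∑ _i : ι, m * (((d : ℝ) - 1) * B) := by
        refine Finset.sum_le_sum fun i _ => ?_
        rw [UU]
        have h1 : ∑ k ∈ Finset.range m, Real.log (nrm abv ((lift d F G)^[k] (z i))) ≤ m * B := by
          refine (Finset.sum_le_sum fun k _ => hB i k).trans (le_of_eq ?_)
          rw [Finset.sum_const, Finset.card_range, nsmul_eq_mul]
        refine (mul_le_mul_of_nonneg_left h1 hd1).trans (le_of_eq ?_)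
        ring
    _ = Fintype.card ι * (m * (((d : ℝ) - 1) * B)) := by
        rw [Finset.sum_const, Finset.card_univ, nsmul_eq_mul]

theorem log_fact_le (n : ℕ) : Real.log (n.factorial : ℝ) ≤ n * Real.log n := by
  have h1 : ((n.factorial : ℕ) : ℝ) ≤ (n : ℝ) ^ n := by exact_mod_cast Nat.factorial_le_pow n
  have h2 : (0 : ℝ) < (n.factorial : ℝ) := by exact_mod_cast Nat.factorial_pos n
  refine (Real.log_le_log h2 h1).trans (le_of_eq ?_)
  rw [Real.log_pow]

/-- **(0.3)**: the energy inequality, for families indexed by any finite type. -/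
theorem energy {L : Type*} [Field L] (abv : AbsoluteValue L ℝ) (d m : ℕ) (hd : 2 ≤ d)
    (F G : L[X]) (hF : F.natDegree ≤ d) (hG : G.natDegree ≤ d) (hR : resultant F G d d ≠ 0)
    {ι : Type*} [Fintype ι] [DecidableEq ι] (hι : Fintype.card ι = d ^ m) (z : ι → L × L)
    (hz : ∀ i, z i ≠ 0) (hw : ∀ i j, i ≠ j → wedge (z i) (z j) ≠ 0) (B : ℝ)
    (hB : ∀ i k, Real.log (nrm abv ((lift d F G)^[k] (z i))) ≤ B) :
    m * (d : ℝ) ^ m / d * (-Real.log (abv (resultant F G d d))) -
        2 * (d : ℝ) ^ m * Real.log ((d : ℝ) ^ m) - 2 * (d : ℝ) ^ m * m * (((d : ℝ) - 1) * B) ≤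
      ∑ i, ∑ j ∈ Finset.univ.erase i, (-Real.log (abv (wedge (z i) (z j))) -
        Real.log (abv (resultant F G d d)) / (d * ((d : ℝ) - 1))) := by
  obtain ⟨e⟩ : Nonempty (Fin (d ^ m) ≃ ι) := ⟨(Fintype.equivFinOfCardEq hι).symm⟩
  have hw' : ∀ i j, i ≠ j → wedge (z (e i)) (z (e j)) ≠ 0 := fun i j hij =>
    hw _ _ (e.injective.ne hij)
  have h0 := det_mat_ne_zero d m (by omega) F G hF hG hR (fun i => z (e i)) hw'
  have h1 := energy_eq abv d m hd F G hF hG hR (fun i => z (e i)) hw'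
  have h2 := log_det_le_arch abv d m (by omega) F G (fun i => z (e i))
    (fun i k => iter_ne_zero d (by omega) F G hF hG hR k (hz (e i))) h0
  have h3 := sum_UU_le abv d m (by omega) F G (fun i => z (e i)) B (fun i k => hB (e i) k)
  rw [Fintype.card_fin] at h3
  have h5 := log_fact_le (d ^ m)
  push_cast at h3 h5
  have h4 : ∑ i, ∑ j ∈ Finset.univ.erase i, (-Real.log (abv (wedge (z (e i)) (z (e j)))) -
        Real.log (abv (resultant F G d d)) / (d * ((d : ℝ) - 1))) =
      ∑ i, ∑ j ∈ Finset.univ.erase i, (-Real.log (abv (wedge (z i) (z j))) -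
        Real.log (abv (resultant F G d d)) / (d * ((d : ℝ) - 1))) := by
    rw [← e.sum_comp fun i => ∑ j ∈ Finset.univ.erase i, (-Real.log (abv (wedge (z i) (z j))) -
        Real.log (abv (resultant F G d d)) / (d * ((d : ℝ) - 1)))]
    refine Finset.sum_congr rfl fun i _ => ?_
    have h5 : (Finset.univ.erase i).map e.toEmbedding = Finset.univ.erase (e i) := by
      ext j
      simp only [Finset.mem_map_equiv, Finset.mem_erase, Finset.mem_univ, and_true, ne_eq,
        Equiv.symm_apply_eq]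
    rw [← h5, Finset.sum_map]
    rfl
  rw [← h4, h1]
  nlinarith [h2, h3, h5]

end Pool.Agent.RI
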