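import Mathlib
import Pool.Agent.RI.Defs
import Pool.Agent.RI.Energy
import Pool.Agent.RI.Pre

set_option autoImplicit false

/-!
# The energy of a set of preperiodic vectors
-/

namespace Pool.Agent.RI

open Polynomial Pool.Agent.RDF

theorem pv_iter {d : ℕ} (hd : 1 ≤ d) (D : Dat d) {x : D.Om × D.Om} (h : D.pv x) (k : ℕ) :
    D.pv ((lift d D.F D.G)^[k] x) := by
  induction k with
  | zero => exact h
  | succ k ih =>
    rw [Function.iterate_succ_apply']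
    exact pv_Phi hd D ih

theorem energyD (d : ℕ) (hd : 2 ≤ d) : ∃ C : ℝ, 0 ≤ C ∧ ∀ D : Dat d, 0 ≤ D.lam →
    ∀ (m : ℕ) (x : Fin (d ^ m) → D.Om × D.Om), (∀ i, D.pv (x i)) →
    (∀ i j, i ≠ j → wedge (x i) (x j) ≠ 0) →
    -(2 * (d : ℝ) ^ m * m * (D.lam + C)) - 2 * (d : ℝ) ^ m * Real.log ((d : ℝ) ^ m) ≤
      ∑ i, ∑ j ∈ Finset.univ.erase i, D.g (x i) (x j) := by
  obtain ⟨C, hC0, hC⟩ := pv_nrm d hd
  refine ⟨C, hC0, fun D hlam m x hx hw => ?_⟩
  have hd1 : (0 : ℝ) < (d : ℝ) - 1 := by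
    have : (2 : ℝ) ≤ d := by exact_mod_cast hd
    linarith
  have h1 := energy D.abv d m hd D.F D.G D.hF D.hG D.hR (ι := Fin (d ^ m)) (by simp) x
    (fun i => (hx i).1) hw ((D.lam + C) / ((d : ℝ) - 1)) (fun i k => by
      have h2 := (hC D _ (pv_iter (by omega) D (hx i) k)).2
      rwa [max_eq_left hlam] at h2)
  rw [mul_div_cancel₀ _ hd1.ne'] at h1
  have h3 : 0 ≤ m * (d : ℝ) ^ m / d * (-Real.log (D.abv (resultant D.F D.G d d))) := by
    have : 0 ≤ -Real.log (D.abv (resultant D.F D.G d d)) := hlam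
    positivity
  simp only [Dat.g, gg]
  linarith

end Pool.Agent.RI
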