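import Mathlib
import Pool.Agent.RI.LimD
import Pool.Agent.RI.EnergyD
import Pool.Agent.RI.LimP

set_option autoImplicit false

/-!
# Copositivity
-/

namespace Pool.Agent.RI

open Polynomial Pool.Agent.RDF

theorem LimD.copos {d : ℕ} (hd : 2 ≤ d) {P : Type} [Fintype P] {D : ℕ → Dat d} {t : ℕ → ℕ}
    {x : ∀ n, Fin (t n) → P → (D n).Om × (D n).Om} {Lam : ℝ} {j : P → P → ℝ} {h : P → ℝ}
    (H : LimD D t x Lam j h) (hfree : ∀ p q, j p q < Lam) (v : P → ℝ) (hv : ∀ p, 0 ≤ v p) :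
    0 ≤ ∑ p, ∑ q, v p * v q * gam d j h p q := by
  classical
  refine copositive d hd (gam d j h) ?_ v hv
  intro m l
  obtain ⟨C, hC, hE⟩ := energyD d hd
  refine le_of_forall_pos_le_add fun η hη => ?_
  set N : ℝ := (d : ℝ) ^ m with hN
  have hN1 : 1 ≤ N := one_le_pow₀ (by exact_mod_cast (by omega : 1 ≤ d))
  have hN0 : 0 < N := lt_of_lt_of_le one_pos hN1
  have hlogN : 0 ≤ Real.log N := Real.log_nonneg hN1
  set E : ℝ := 2 * N * m * C + 2 * N * Real.log N with hEd
  have hE0 : 0 ≤ E := by positivity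
  set ε : ℝ := η / (2 * (N * N)) with hεd
  have hε : 0 < ε := by positivity
  obtain ⟨M, hM⟩ := exists_nat_gt (2 * E / η)
  obtain ⟨n, hn, hn1, e, he, -, h2, -⟩ := H.good hd ε hε (max (d ^ m) M)
  have hl : (1 : ℝ) ≤ (D n).lam := le_trans (by exact_mod_cast hn1) (H.lam n)
  have hl0 : 0 < (D n).lam := lt_of_lt_of_le one_pos hl
  have hlM : 2 * E / η < (D n).lam := by
    refine lt_of_lt_of_le hM (le_trans ?_ (H.lam n))
    exact_mod_cast (le_max_right (d ^ m) M).trans hn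
  have hle : d ^ m ≤ max (d ^ m) M := le_max_left _ _
  have hne : ∀ u w : Fin (d ^ m), u ≠ w → Fin.castLE hle u ≠ Fin.castLE hle w :=
    fun u w huw hh => huw (Fin.castLE_injective hle hh)
  have h3 := hE (D n) hl0.le m (fun u => x n (e (Fin.castLE hle u)) (l u)) (fun u => H.pv _ _ _)
    (fun u w huw => (h2 _ _ (hne u w huw) _ _ (hfree _ _)).1)
  have h4 : ∑ u, ∑ w ∈ Finset.univ.erase u, (D n).g (x n (e (Fin.castLE hle u)) (l u))
      (x n (e (Fin.castLE hle w)) (l w)) ≤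
      ∑ u, ∑ w ∈ Finset.univ.erase u, (D n).lam * (gam d j h (l u) (l w) + ε) := by
    refine Finset.sum_le_sum fun u _ => Finset.sum_le_sum fun w hw => ?_
    have h5 := (h2 _ _ (hne u w (Finset.ne_of_mem_erase hw).symm) (l u) (l w) (hfree _ _)).2
    have h6 := (abs_le.1 h5).2
    have h7 : (D n).g (x n (e (Fin.castLE hle u)) (l u)) (x n (e (Fin.castLE hle w)) (l w)) / (D n).lam ≤
        gam d j h (l u) (l w) + ε := by linarith
    rw [div_le_iff₀ hl0] at h7
    linarith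
  have h5 : ∑ u, ∑ w ∈ Finset.univ.erase u, (D n).lam * (gam d j h (l u) (l w) + ε) =
      (D n).lam * (∑ u, ∑ w ∈ Finset.univ.erase u, gam d j h (l u) (l w) +
        ∑ u : Fin (d ^ m), ∑ w ∈ Finset.univ.erase u, ε) := by
    simp only [mul_add, Finset.sum_add_distrib, Finset.mul_sum]
  have h6 : ∑ u : Fin (d ^ m), ∑ w ∈ Finset.univ.erase u, ε ≤ N * N * ε := by
    have h7 : ∑ u : Fin (d ^ m), ∑ w ∈ Finset.univ.erase u, ε ≤ ∑ u : Fin (d ^ m), ∑ w : Fin (d ^ m), ε :=
      Finset.sum_le_sum fun u _ => Finset.sum_le_sum_of_subset_of_nonneg (Finset.erase_subset _ _)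
        fun _ _ _ => hε.le
    refine h7.trans (le_of_eq ?_)
    rw [Finset.sum_const, Finset.sum_const, Finset.card_univ, Fintype.card_fin, nsmul_eq_mul, nsmul_eq_mul, hN]
    push_cast
    ring
  have h7 : N * N * ε = η / 2 := by
    rw [hεd]
    field_simp
  rw [h5] at h4
  have h8 := h3.trans h4
  set S : ℝ := ∑ u, ∑ w ∈ Finset.univ.erase u, gam d j h (l u) (l w) with hS
  set T : ℝ := ∑ u : Fin (d ^ m), ∑ w ∈ Finset.univ.erase u, ε with hT
  have h9 : E < (D n).lam * (η / 2) := by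
    rw [div_lt_iff₀ hη] at hlM
    linarith
  have h10 : (D n).lam * (-(2 * m * N)) ≤ (D n).lam * (S + η) := by
    have h11 : (D n).lam * T ≤ (D n).lam * (η / 2) := mul_le_mul_of_nonneg_left (h6.trans h7.le) hl0.le
    have h12 : -(2 * N * m * ((D n).lam + C)) - 2 * N * Real.log N =
        (D n).lam * (-(2 * m * N)) - E := by
      rw [hEd]
      ring
    rw [h12] at h8
    linarith
  exact le_of_mul_le_mul_left h10 hl0

end Pool.Agent.RI
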