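import Mathlib
import Pool.Agent.RI.LimD

set_option autoImplicit false

/-!
# The identity of the preimages in the limit
-/

namespace Pool.Agent.RI

open Polynomial Pool.Agent.RDF

theorem LimD.iden {d : ℕ} (hd : 2 ≤ d) {P : Type} [Finite P] {D : ℕ → Dat d} {t : ℕ → ℕ}
    {x : ∀ n, Fin (t n) → P → (D n).Om × (D n).Om} {Lam : ℝ} {j : P → P → ℝ} {h : P → ℝ}
    (H : LimD D t x Lam j h) (f p q : P) (c : Fin d → P)
    (hf : ∀ n i, x n i f = (D n).Phi (x n i p))
    (hc : ∀ n i, PreSys (D n) (x n i q) (fun s => x n i (c s)))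
    (h1 : j f q < Lam) (h2 : ∀ s, j p (c s) < Lam) :
    gam d j h f q = ∑ s, gam d j h p (c s) := by
  have key : ∀ ε : ℝ, 0 < ε → |gam d j h f q - ∑ s, gam d j h p (c s)| ≤ ε * (d + 1) := by
    intro ε hε
    obtain ⟨n, -, -, e, he, -, hg, -⟩ := H.good hd ε hε 2
    have h01 : (0 : Fin 2) ≠ 1 := by decide
    obtain ⟨w1, g1⟩ := hg 0 1 h01 f q h1
    have g2 : ∀ s, |(D n).g (x n (e 0) p) (x n (e 1) (c s)) / (D n).lam -
        gam d j h p (c s)| ≤ ε := fun s => (hg 0 1 h01 p (c s) (h2 s)).2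
    rw [hf n (e 0)] at w1 g1
    have hs := ((hc n (e 1)).g_eq hd w1).2
    rw [hs, Finset.sum_div] at g1
    have e1 : gam d j h f q - ∑ s, gam d j h p (c s) =
        -(∑ s, (D n).g (x n (e 0) p) (x n (e 1) (c s)) / (D n).lam - gam d j h f q) +
        ∑ s, ((D n).g (x n (e 0) p) (x n (e 1) (c s)) / (D n).lam - gam d j h p (c s)) := by
      rw [Finset.sum_sub_distrib]
      ring
    rw [e1]
    refine (abs_add_le _ _).trans ?_
    rw [abs_neg]
    have h3 : |∑ s, ((D n).g (x n (e 0) p) (x n (e 1) (c s)) / (D n).lam -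
        gam d j h p (c s))| ≤ d * ε := by
      refine (Finset.abs_sum_le_sum_abs _ _).trans ?_
      refine (Finset.sum_le_sum fun s _ => g2 s).trans ?_
      simp
    nlinarith [g1, h3]
  have h0 : |gam d j h f q - ∑ s, gam d j h p (c s)| ≤ 0 := by
    refine le_of_forall_pos_le_add fun ε hε => ?_
    have hd1 : (0 : ℝ) < d + 1 := by positivity
    have := key (ε / (d + 1)) (by positivity)
    rw [div_mul_cancel₀ _ hd1.ne'] at this
    linarith
  have := abs_eq_zero.1 (le_antisymm h0 (abs_nonneg _))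
  linarith

end Pool.Agent.RI
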