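import Mathlib
import Pool.Agent.RI.Defs
import Pool.Agent.RI.Pre
import Pool.Agent.RI.Ramsey

set_option autoImplicit false

/-!
# Limits of families of vectors
-/

namespace Pool.Agent.RI

open Polynomial Pool.Agent.RDF

theorem lim_wedge_le {L : Type*} [Field L] (abv : AbsoluteValue L ℝ) (x y : L × L) :
    abv (wedge x y) ≤ 2 * (nrm abv x * nrm abv y) := by
  have h1 : abv (wedge x y) ≤ abv (x.1 * y.2) + abv (y.1 * x.2) := by
    rw [wedge]
    exact abv.sub_le_add _ _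
  rw [abv.map_mul, abv.map_mul] at h1
  have a1 : abv x.1 ≤ nrm abv x := le_max_left _ _
  have a2 : abv x.2 ≤ nrm abv x := le_max_right _ _
  have b1 : abv y.1 ≤ nrm abv y := le_max_left _ _
  have b2 : abv y.2 ≤ nrm abv y := le_max_right _ _
  have h2 : abv x.1 * abv y.2 ≤ nrm abv x * nrm abv y :=
    mul_le_mul a1 b2 (abv.nonneg _) (nrm_nonneg _ _)
  have h3 : abv y.1 * abv x.2 ≤ nrm abv y * nrm abv x :=
    mul_le_mul b1 a2 (abv.nonneg _) (nrm_nonneg _ _)
  linarith [mul_comm (nrm abv x) (nrm abv y)]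

theorem lim_JJ_le {L : Type*} [Field L] (abv : AbsoluteValue L ℝ) (Λ : ℝ) (x y : L × L) :
    JJ abv Λ x y ≤ Λ := by
  have h := Real.log_le_log (Real.exp_pos _)
    (le_max_right (abv (wedge x y) / (nrm abv x * nrm abv y)) (Real.exp (-Λ)))
  rw [Real.log_exp] at h
  rw [JJ]
  linarith

theorem lim_JJ_ge {L : Type*} [Field L] (abv : AbsoluteValue L ℝ) (Λ : ℝ) (hΛ : 0 ≤ Λ)
    (x y : L × L) (hx : x ≠ 0) (hy : y ≠ 0) : -1 ≤ JJ abv Λ x y := by
  have hN := mul_pos (nrm_pos abv hx) (nrm_pos abv hy)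
  have h1 : max (abv (wedge x y) / (nrm abv x * nrm abv y)) (Real.exp (-Λ)) ≤ 2 := by
    refine max_le ?_ ?_
    · rw [div_le_iff₀ hN]
      exact lim_wedge_le abv x y
    · have : Real.exp (-Λ) ≤ 1 := by
        rw [Real.exp_le_one_iff]
        linarith
      linarith
  have h3 := Real.log_le_log (lt_of_lt_of_le (Real.exp_pos _) (le_max_right _ _)) h1
  have h4 := Real.log_two_lt_d9
  rw [JJ]
  linarith

theorem exists_lim {d : ℕ} (hd : 2 ≤ d) {P : Type} [Fintype P] (D : ℕ → Dat d) (t : ℕ → ℕ)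
    (ht : ∀ n, n ≤ t n) (hlam : ∀ n : ℕ, (n : ℝ) ≤ (D n).lam)
    (x : ∀ n, Fin (t n) → P → (D n).Om × (D n).Om) (hx : ∀ n i p, (D n).pv (x n i p))
    (Lam : ℝ) (hL : 0 ≤ Lam) :
    ∃ (j : P → P → ℝ) (h : P → ℝ), App D t x Lam j h := by
  classical
  obtain ⟨C, hC, hN⟩ := pv_nrm d hd
  have hd1 : (1 : ℝ) ≤ (d : ℝ) - 1 := by
    have : (2 : ℝ) ≤ d := by exact_mod_cast hd
    linarith
  have hlam1 : ∀ n i : ℕ, i < n → 1 ≤ (D n).lam := fun n i hi => by
    have h1 : (1 : ℝ) ≤ n := by exact_mod_cast (by omega : 1 ≤ n)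
    exact h1.trans (hlam n)
  obtain ⟨j0, h, -, -, happ⟩ := exists_limits (ι := P × P) (κ := P) (-(1 + C)) (Lam + 1 + C)
    (fun n i i' e => if H : i < n ∧ i' < n then
      JJ (D n).abv (Lam * (D n).lam) (x n ⟨i, lt_of_lt_of_le H.1 (ht n)⟩ e.1)
        (x n ⟨i', lt_of_lt_of_le H.2 (ht n)⟩ e.2) / (D n).lam else 0)
    (fun n i p => if H : i < n then
      Real.log (nrm (D n).abv (x n ⟨i, lt_of_lt_of_le H (ht n)⟩ p)) / (D n).lam else 0)
    (by
      intro n i i' hii hn e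
      have hi : i < n := hii.trans hn
      have hl1 := hlam1 n i hi
      have hl0 : 0 < (D n).lam := by linarith
      rw [dif_pos ⟨hi, hn⟩]
      constructor
      · have h1 := lim_JJ_ge (D n).abv (Lam * (D n).lam) (mul_nonneg hL hl0.le) _ _
          (hx n ⟨i, lt_of_lt_of_le hi (ht n)⟩ e.1).1 (hx n ⟨i', lt_of_lt_of_le hn (ht n)⟩ e.2).1
        rw [le_div_iff₀ hl0]
        nlinarith
      · have h1 := lim_JJ_le (D n).abv (Lam * (D n).lam)
          (x n ⟨i, lt_of_lt_of_le hi (ht n)⟩ e.1) (x n ⟨i', lt_of_lt_of_le hn (ht n)⟩ e.2)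
        rw [div_le_iff₀ hl0]
        nlinarith)
    (by
      intro n i hi p
      have hl1 := hlam1 n i hi
      have hl0 : 0 < (D n).lam := by linarith
      rw [dif_pos hi]
      obtain ⟨h1, h2⟩ := hN (D n) _ (hx n ⟨i, lt_of_lt_of_le hi (ht n)⟩ p)
      rw [max_eq_left hl0.le, le_div_iff₀ (by linarith)] at h2
      constructor
      · rw [le_div_iff₀ hl0]
        nlinarith
      · rw [div_le_iff₀ hl0]
        rcases le_total 0 (Real.log (nrm (D n).abv (x n ⟨i, lt_of_lt_of_le hi (ht n)⟩ p)))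
          with h3 | h3
        · nlinarith [mul_nonneg hL hl0.le]
        · have h4 : 0 ≤ (Lam + 1 + C) * (D n).lam := by positivity
          linarith)
  refine ⟨fun p q => j0 (p, q), h, ?_⟩
  intro ε hε r
  obtain ⟨n, hn, f, hf, hfn, h1, h2⟩ := happ ε hε r
  refine ⟨n, hn, fun a => ⟨f a, lt_of_lt_of_le (hfn a) (ht n)⟩, fun a b hab => hf hab, ?_, ?_⟩
  · intro a b hab p q
    have h3 := h1 a b hab (p, q)
    rw [dif_pos ⟨hfn a, hfn b⟩] at h3
    exact h3
  · intro a p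
    have h3 := h2 a p
    rw [dif_pos (hfn a)] at h3
    exact h3

end Pool.Agent.RI
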