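import Mathlib
import Pool.Agent.RI.LimD
import Pool.Agent.RI.Hmu

set_option autoImplicit false

/-!
# The minimality of the resultant in the limit
-/

namespace Pool.Agent.RI

open Polynomial Pool.Agent.RDF

/-- The one-step defect in terms of the pairing. -/
theorem Dat.defect_eq {d : ℕ} (hd : 2 ≤ d) (D : Dat d) (u v fu fv : D.Om × D.Om) :
    -Real.log (D.abv (resultant D.F D.G d d)) / (d : ℝ) ^ 2 +
        (Real.log (D.abv (wedge fu v)) + Real.log (D.abv (wedge fv u))) / d -
        (1 + 1 / d) * Real.log (D.abv (wedge u v)) =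
      (1 + 1 / d) * D.g u v - 1 / d * (D.g fu v + D.g fv u) := by
  have h1 : (2 : ℝ) ≤ d := by exact_mod_cast hd
  have h2 : (d : ℝ) ≠ 0 := by linarith
  have h3 : (d : ℝ) - 1 ≠ 0 := by linarith
  simp only [Dat.g, gg]
  field_simp
  ring

theorem LimD.minim {d : ℕ} (hd : 2 ≤ d) {P : Type} [Finite P] {D : ℕ → Dat d} {t : ℕ → ℕ}
    {x : ∀ n, Fin (t n) → P → (D n).Om × (D n).Om} {Lam : ℝ} {j : P → P → ℝ} {h : P → ℝ}
    (H : LimD D t x Lam j h) (f p : P) (hf : ∀ n i, x n i f = (D n).Phi (x n i p))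
    (h1 : j p p < Lam) (h2 : j f p < Lam) :
    1 / (d : ℝ) ^ 2 ≤ (1 + 1 / d) * gam d j h p p - 2 / d * gam d j h f p := by
  have hd1 : (2 : ℝ) ≤ d := by exact_mod_cast hd
  have hd0 : (0 : ℝ) < d := by linarith
  set K : ℝ := 2 * Real.log ((d + 1) * 2 ^ (d + 2)) with hK
  refine le_of_forall_pos_sub_le fun η hη => ?_
  -- `ε` and `n` with `(52 + 48 ..) ε + (K + 1) / n ≤ η`
  set ε : ℝ := η / 200 with hε
  have hε0 : 0 < ε := by positivity
  obtain ⟨N, hN⟩ := exists_nat_ge ((|K| + 1) * 2 / η)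
  obtain ⟨n, hn, hn1, e, hemono, -, hgood, -⟩ := H.good hd ε hε0 (max (d + 7) N)
  have hdn : d + 7 ≤ max (d + 7) N := le_max_left _ _
  have hlam0 := H.lam n
  have hlamN : (N : ℝ) ≤ (D n).lam := by
    refine le_trans ?_ hlam0
    exact_mod_cast (le_max_right (d + 7) N).trans hn
  have hlam1 : (1 : ℝ) ≤ (D n).lam := le_trans (by exact_mod_cast hn1) hlam0
  set lam := (D n).lam with hlam
  have hlp : 0 < lam := by linarith
  have hKlam : |K| + 1 ≤ η / 2 * lam := by
    have h5 : (|K| + 1) * 2 / η ≤ lam := hN.trans hlamN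
    rw [div_le_iff₀ hη] at h5
    linarith
  set c0 : ℝ := Real.log ((D n).abv (resultant (D n).F (D n).G d d)) / (d * (d - 1)) with hc0
  set γ : ℝ := gam d j h p p * lam + c0 with hγ
  have hpair : ∀ a b, a ≠ b → wedge (x n (e a) p) (x n (e b) p) ≠ 0 ∧
      |(D n).g (x n (e a) p) (x n (e b) p) - gam d j h p p * lam| ≤ ε * lam := by
    intro a b hab
    obtain ⟨w, hw⟩ := hgood a b hab p p h1
    refine ⟨w, ?_⟩
    have h6 : (D n).g (x n (e a) p) (x n (e b) p) - gam d j h p p * lam =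
        ((D n).g (x n (e a) p) (x n (e b) p) / lam - gam d j h p p) * lam := by
      field_simp
    rw [h6, abs_mul, abs_of_pos hlp]
    exact mul_le_mul_of_nonneg_right hw hlp.le
  have hpairf : ∀ a b, a ≠ b →
      |(D n).g (x n (e a) f) (x n (e b) p) - gam d j h f p * lam| ≤ ε * lam := by
    intro a b hab
    obtain ⟨w, hw⟩ := hgood a b hab f p h2
    have h6 : (D n).g (x n (e a) f) (x n (e b) p) - gam d j h f p * lam =
        ((D n).g (x n (e a) f) (x n (e b) p) / lam - gam d j h f p) * lam := by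
      field_simp
    rw [h6, abs_mul, abs_of_pos hlp]
    exact mul_le_mul_of_nonneg_right hw hlp.le
  obtain ⟨a, b, hab, -, -, hv⟩ := vpair (D n).abv d (by omega) (D n).F (D n).G (D n).hF (D n).hG
    (D n).hR lam ((D n).hmu (by omega)) hdn (fun a => x n (e a) p) γ (ε * lam) (by positivity)
    (fun a b hab => (hpair a b hab).1) (fun a b hab => by
      have h7 := (hpair a b hab).2
      have h8 : Real.log ((D n).abv (wedge (x n (e a) p) (x n (e b) p))) + γ =
          -((D n).g (x n (e a) p) (x n (e b) p) - gam d j h p p * lam) := by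
        simp only [Dat.g, gg, hγ, hc0]
        ring
      rw [h8, abs_neg]
      exact h7)
  have hv2 := hv.trans (le_of_eq (Dat.defect_eq hd (D n) (x n (e a) p) (x n (e b) p)
    (lift d (D n).F (D n).G (x n (e a) p)) (lift d (D n).F (D n).G (x n (e b) p))))
  have ha : lift d (D n).F (D n).G (x n (e a) p) = x n (e a) f := (hf n (e a)).symm
  have hb : lift d (D n).F (D n).G (x n (e b) p) = x n (e b) f := (hf n (e b)).symm
  rw [ha, hb, ← hK] at hv2
  have g1 := abs_le.1 (hpair a b hab.ne).2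
  have g2 := abs_le.1 (hpairf a b hab.ne)
  have g3 := abs_le.1 (hpairf b a hab.ne')
  set X := (D n).g (x n (e a) p) (x n (e b) p)
  set Y := (D n).g (x n (e a) f) (x n (e b) p)
  set Z := (D n).g (x n (e b) f) (x n (e a) p)
  set s : ℝ := 1 / d with hs
  have hs0 : 0 < s := by positivity
  have hs1 : s ≤ 1 := by
    rw [hs, div_le_one hd0]
    linarith
  have e1 : (1 : ℝ) / (d : ℝ) ^ 2 = s ^ 2 := by rw [hs]; field_simp
  have e2 : (2 : ℝ) / d = 2 * s := by rw [hs]; ring
  have e3 : (lam - 1) / (d : ℝ) ^ 2 = s ^ 2 * lam - s ^ 2 := by rw [hs]; field_simp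
  rw [e1, e2]
  rw [e3] at hv2
  -- `lam * (..)`
  have hfin : (s ^ 2 - η) * lam ≤ ((1 + s) * gam d j h p p - 2 * s * gam d j h f p) * lam := by
    have k1 : (1 + s) * X ≤ (1 + s) * (gam d j h p p * lam + ε * lam) :=
      mul_le_mul_of_nonneg_left (by linarith [g1.2]) (by linarith)
    have k2 : s * (2 * (gam d j h f p * lam) - 2 * (ε * lam)) ≤ s * (Y + Z) :=
      mul_le_mul_of_nonneg_left (by linarith [g2.1, g3.1]) hs0.le
    have k3 : s * (ε * lam) ≤ 1 * (ε * lam) := mul_le_mul_of_nonneg_right hs1 (by positivity)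
    have k4 : s ^ 2 ≤ 1 := by nlinarith
    have k5 : K ≤ |K| := le_abs_self K
    have k6 : ε * lam = η * lam / 200 := by rw [hε]; ring
    have k7 : 0 < η * lam := by positivity
    nlinarith
  exact le_of_mul_le_mul_right hfin hlp

end Pool.Agent.RI
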