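import Mathlib
import Pool.Agent.RI.Lim
import Pool.Agent.RI.CopD
import Pool.Agent.RI.Iden
import Pool.Agent.RI.Bound
import Pool.Agent.RI.Min

set_option autoImplicit false

/-!
# One family of vectors
-/

namespace Pool.Agent.RI

open Polynomial Pool.Agent.RDF

private theorem tk_le_left {P : Type} {j : P → P → ℝ} (hj : TreeK j) (p q : P) : j p q ≤ j p p := by
  have h1 : min (j p q) (j q p) ≤ j p p := by
    first
      | exact hj.ultra p q p
      | exact hj.tri p q p
  rwa [hj.symm q p, min_self] at h1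

private theorem tk_le_right {P : Type} {j : P → P → ℝ} (hj : TreeK j) (p q : P) :
    j p q ≤ j q q := by
  rw [hj.symm p q]
  exact tk_le_left hj q p

private theorem pos_nrm {L : Type*} [Field L] (abv : AbsoluteValue L ℝ) {x : L × L} (hx : x ≠ 0) :
    0 < nrm abv x := by
  unfold nrm
  rcases x with ⟨a, b⟩
  by_cases ha : a = 0
  · have hb : b ≠ 0 := by
      rintro rfl
      exact hx (by rw [ha]; rfl)
    exact lt_max_of_lt_right (abv.pos hb)
  · exact lt_max_of_lt_left (abv.pos ha)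

/-- The truncated distance is at most the distance. -/
private theorem JJ_le {d : ℕ} (D : Dat d) (Λ : ℝ) {x y : D.Om × D.Om} (hx : x ≠ 0) (hy : y ≠ 0)
    (hxy : wedge x y ≠ 0) :
    JJ D.abv Λ x y ≤ D.g x y - D.lam / (d * (d - 1)) + Real.log (nrm D.abv x)
      + Real.log (nrm D.abv y) := by
  have h1 := pos_nrm D.abv hx
  have h2 := pos_nrm D.abv hy
  have h3 : 0 < D.abv (wedge x y) := D.abv.pos hxy
  have h4 : 0 < D.abv (wedge x y) / (nrm D.abv x * nrm D.abv y) := by positivity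
  have h5 : Real.log (D.abv (wedge x y) / (nrm D.abv x * nrm D.abv y)) ≤
      Real.log (max (D.abv (wedge x y) / (nrm D.abv x * nrm D.abv y)) (Real.exp (-Λ))) :=
    Real.log_le_log h4 (le_max_left _ _)
  rw [Real.log_div h3.ne' (mul_pos h1 h2).ne', Real.log_mul h1.ne' h2.ne'] at h5
  unfold JJ Dat.g gg Dat.lam
  rw [neg_div]
  linarith

/-- An upper bound of the pairing passes to the limit. -/
private theorem gam_le_of {d : ℕ} {P : Type} {D : ℕ → Dat d} {t : ℕ → ℕ}
    {x : ∀ n, Fin (t n) → P → (D n).Om × (D n).Om} {Lam : ℝ} {j : P → P → ℝ} {h : P → ℝ}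
    (H : LimD D t x Lam j h) (p : P) (c : ℝ)
    (hind : ∀ n, ∀ i i', i ≠ i' → wedge (x n i p) (x n i' p) ≠ 0)
    (hg : ∀ n, ∀ i i', i ≠ i' → (D n).g (x n i p) (x n i' p) ≤ c * (D n).lam) :
    gam d j h p p ≤ c := by
  refine le_of_forall_pos_le_add fun ε hε => ?_
  obtain ⟨n, hn, e, he, hJ, hh⟩ := H.app (ε / 3) (by positivity) 2
  have hl : (0 : ℝ) < (D n).lam := by
    have h1 := H.lam n
    have h2 : (2 : ℝ) ≤ n := by exact_mod_cast hn
    linarith
  have h01 : (0 : Fin 2) < 1 := by decide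
  have hne : e 0 ≠ e 1 := (he h01).ne
  have h1 := hJ 0 1 h01 p p
  have h2 := hh 0 p
  have h3 := hh 1 p
  have h4 := JJ_le (D n) (Lam * (D n).lam) (H.pv n (e 0) p).1 (H.pv n (e 1) p).1 (hind n _ _ hne)
  have h5 := hg n _ _ hne
  have h6 : JJ (D n).abv (Lam * (D n).lam) (x n (e 0) p) (x n (e 1) p) / (D n).lam ≤
      c - 1 / (d * (d - 1)) + Real.log (nrm (D n).abv (x n (e 0) p)) / (D n).lam
        + Real.log (nrm (D n).abv (x n (e 1) p)) / (D n).lam := by
    rw [div_le_iff₀ hl]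
    have e1 : (c - 1 / (d * (d - 1)) + Real.log (nrm (D n).abv (x n (e 0) p)) / (D n).lam
        + Real.log (nrm (D n).abv (x n (e 1) p)) / (D n).lam) * (D n).lam
        = c * (D n).lam - (D n).lam / (d * (d - 1)) + Real.log (nrm (D n).abv (x n (e 0) p))
          + Real.log (nrm (D n).abv (x n (e 1) p)) := by
      field_simp
    rw [e1]
    linarith
  rw [abs_le] at h1 h2 h3
  unfold gam
  linarith [h1.1, h1.2, h2.1, h2.2, h3.1, h3.2]

theorem one (d : ℕ) (hd : 2 ≤ d) (c' : ℝ) (hc' : c' < 1 / (2 * d * (d + 1))) :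
    ∃ (m : ℕ) (lam0 : ℝ), ∀ D : Dat d, lam0 ≤ D.lam → ∀ p : Fin m → D.Om × D.Om,
      (∀ i, D.pv (p i)) → (∀ i j, i ≠ j → wedge (p i) (p j) ≠ 0) →
      ∃ i j, i ≠ j ∧ c' * D.lam < D.g (p i) (p j) := by
  by_contra hcon
  push Not at hcon
  choose D hlam p hpv hind hg using fun n : ℕ => hcon n n
  have hd2 : (2 : ℝ) ≤ d := by exact_mod_cast hd
  -- preimages
  have hpre : ∀ n, ∀ i : Fin n, ∃ y : Fin d → (D n).Om × (D n).Om, PreSys (D n) (p n i) y :=
    fun n i => exists_pre (by omega) (D n) _ (hpv n i).1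
  choose y hy using hpre
  let x : ∀ n, Fin n → (Bool ⊕ Fin d) → (D n).Om × (D n).Om := fun n i q =>
    Sum.elim (fun b : Bool => if b then (D n).Phi (p n i) else p n i) (y n i) q
  have hx : ∀ n i q, (D n).pv (x n i q) := by
    intro n i q
    rcases q with b | s
    · cases b with
      | false => exact hpv n i
      | true => exact pv_Phi (by omega) (D n) (hpv n i)
    · refine pv_pre (by omega) (D n) ?_
      change (D n).pv ((D n).Phi (y n i s))
      rw [(hy n i).1 s]
      exact hpv n i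
  obtain ⟨j, h, happ⟩ := exists_lim hd D (fun n => n) (fun n => le_rfl) hlam x hx 10 (by norm_num)
  have H : LimD D (fun n => n) x 10 j h := ⟨happ, hlam, hx, by norm_num⟩
  have hT := H.treeK hd
  -- labels
  set P0 : Bool ⊕ Fin d := Sum.inl false with hP0
  set F0 : Bool ⊕ Fin d := Sum.inl true with hF0
  have hgp : gam d j h P0 P0 ≤ c' := gam_le_of H P0 c' (fun n i i' hii => hind n i i' hii)
    (fun n i i' hii => hg n i i' hii)
  have hcc : c' ≤ 1 := by
    refine hc'.le.trans ?_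
    rw [div_le_one (by positivity)]
    nlinarith
  have hh := H.h_mem hd P0
  have hd1 : 1 / ((d : ℝ) - 1) ≤ 1 := by
    rw [div_le_one (by linarith)]
    linarith
  have hdd : 0 ≤ 1 / ((d : ℝ) * (d - 1)) := by
    apply div_nonneg zero_le_one
    apply mul_nonneg <;> linarith
  have hjp : j P0 P0 ≤ 3 := by
    unfold gam at hgp
    linarith [hh.2]
  have hjf : j F0 P0 ≤ 3 := (tk_le_right hT F0 P0).trans hjp
  have hjs : ∀ s, j P0 (Sum.inr s) ≤ 3 := fun s => (tk_le_left hT P0 _).trans hjp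
  have hjss : ∀ t s, j (Sum.inr t) (Sum.inr s) ≤ 8 := by
    intro t s
    have := H.pre_le hd P0 P0 (Sum.inr t) (fun s => Sum.inr s) (fun n i => (hy n i).1 t)
      (fun n i => hy n i) 3 hjp (by norm_num) s
    linarith
  -- identities
  have hI1 : gam d j h F0 P0 = ∑ s, gam d j h P0 (Sum.inr s) :=
    H.iden hd F0 P0 P0 (fun s => Sum.inr s) (fun n i => rfl) (fun n i => hy n i) (by linarith)
      (fun s => by linarith [hjs s])
  have hI2 : ∀ t, gam d j h P0 P0 = ∑ s, gam d j h (Sum.inr t) (Sum.inr s) := fun t =>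
    H.iden hd P0 (Sum.inr t) P0 (fun s => Sum.inr s) (fun n i => ((hy n i).1 t).symm)
      (fun n i => hy n i) (by linarith) (fun s => by linarith [hjss t s])
  -- copositivity
  let ι : Option (Fin d) → Bool ⊕ Fin d := fun q => q.elim P0 Sum.inr
  have hfree : ∀ a b : Option (Fin d), j (ι a) (ι b) < 10 := by
    intro a b
    rcases a with _ | t
    · rcases b with _ | s
      · change j P0 P0 < 10
        linarith
      · change j P0 (Sum.inr s) < 10
        linarith [hjs s]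
    · rcases b with _ | s
      · change j (Sum.inr t) P0 < 10
        rw [hT.symm]
        linarith [hjs t]
      · change j (Sum.inr t) (Sum.inr s) < 10
        linarith [hjss t s]
  have hcop := (H.comap ι).copos hd hfree (fun q => q.elim 1 fun _ => 1 / (d : ℝ)) (by
    intro q
    rcases q with _ | s
    · exact zero_le_one
    · change 0 ≤ 1 / (d : ℝ)
      positivity)
  have hsymm : ∀ s, gam d j h (Sum.inr s) P0 = gam d j h P0 (Sum.inr s) := by
    intro s
    unfold gam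
    rw [hT.symm (Sum.inr s) P0]
    ring
  have hexp : ∑ a : Option (Fin d), ∑ b : Option (Fin d),
      (a.elim 1 fun _ => 1 / (d : ℝ)) * (b.elim 1 fun _ => 1 / (d : ℝ)) *
        gam d j h (ι a) (ι b) = (1 + 1 / d) * gam d j h P0 P0 + 2 / d * gam d j h F0 P0 := by
    rw [Fintype.sum_option]
    simp_rw [Fintype.sum_option]
    have e1 : ∀ t : Fin d, ∑ s : Fin d, (1 / (d : ℝ)) * (1 / (d : ℝ)) *
        gam d j h (Sum.inr t) (Sum.inr s) = 1 / (d : ℝ) * (1 / (d : ℝ)) * gam d j h P0 P0 := by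
      intro t
      rw [← Finset.mul_sum, ← hI2 t]
    have e2 : ∑ s : Fin d, 1 * (1 / (d : ℝ)) * gam d j h P0 (Sum.inr s) =
        1 / (d : ℝ) * gam d j h F0 P0 := by
      rw [← Finset.mul_sum, ← hI1, one_mul]
    have e3 : ∑ t : Fin d, (1 / (d : ℝ) * 1 * gam d j h (Sum.inr t) P0 +
        1 / (d : ℝ) * (1 / (d : ℝ)) * gam d j h P0 P0) =
        1 / (d : ℝ) * gam d j h F0 P0 + 1 / (d : ℝ) * gam d j h P0 P0 := by
      rw [Finset.sum_add_distrib]
      congr 1
      · simp_rw [hsymm]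
        rw [← Finset.mul_sum, ← hI1, mul_one]
      · rw [Finset.sum_const, Finset.card_univ, Fintype.card_fin, nsmul_eq_mul]
        have : (d : ℝ) ≠ 0 := by positivity
        field_simp
    simp only [Option.elim_none, Option.elim_some, ι]
    simp_rw [e1]
    rw [e2, e3]
    ring
  have hcop' : 0 ≤ (1 + 1 / (d : ℝ)) * gam d j h P0 P0 + 2 / d * gam d j h F0 P0 := by
    rw [← hexp]
    exact hcop
  have hmin := H.minim hd F0 P0 (fun n i => rfl) (by linarith) (by linarith)
  have hsum : 1 / (d : ℝ) ^ 2 ≤ 2 * (1 + 1 / (d : ℝ)) * gam d j h P0 P0 := by linarith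
  have hle : 2 * (1 + 1 / (d : ℝ)) * gam d j h P0 P0 ≤ 2 * (1 + 1 / (d : ℝ)) * c' :=
    mul_le_mul_of_nonneg_left hgp (by positivity)
  have hlt : 2 * (1 + 1 / (d : ℝ)) * c' < 2 * (1 + 1 / (d : ℝ)) * (1 / (2 * d * (d + 1))) :=
    mul_lt_mul_of_pos_left hc' (by positivity)
  have heq : 2 * (1 + 1 / (d : ℝ)) * (1 / (2 * d * (d + 1))) = 1 / (d : ℝ) ^ 2 := by
    have : (d : ℝ) ≠ 0 := by positivity
    field_simp
  linarith

theorem LimD.diag_ge {d : ℕ} (hd : 2 ≤ d) {P : Type} {D : ℕ → Dat d} {t : ℕ → ℕ}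
    {x : ∀ n, Fin (t n) → P → (D n).Om × (D n).Om} {Lam : ℝ} {j : P → P → ℝ} {h : P → ℝ}
    (H : LimD D t x Lam j h) (p : P) (h1 : j p p < Lam) :
    1 / (4 * d * ((d : ℝ) + 1)) ≤ gam d j h p p := by
  have hd2 : (2 : ℝ) ≤ d := by exact_mod_cast hd
  obtain ⟨m, lam0, hone⟩ := one d hd (1 / (4 * d * ((d : ℝ) + 1))) (by
    apply one_div_lt_one_div_of_lt (by positivity)
    nlinarith)
  refine le_of_forall_pos_le_add fun ε hε => ?_
  have H' := H.comap (fun _ : Unit => p)
  obtain ⟨n, hn, hn1, e, he, _, hg, _⟩ := H'.good hd ε hε (max m ⌈lam0⌉₊)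
  have hl0 : lam0 ≤ (D n).lam := by
    have h2 := H.lam n
    have h3 : lam0 ≤ (⌈lam0⌉₊ : ℝ) := Nat.le_ceil _
    have h4 : ((⌈lam0⌉₊ : ℕ) : ℝ) ≤ n := by exact_mod_cast (le_max_right _ _).trans hn
    linarith
  have hlpos : (0 : ℝ) < (D n).lam := by
    have h2 := H.lam n
    have h3 : (1 : ℝ) ≤ n := by exact_mod_cast hn1
    linarith
  let c : Fin m → Fin (max m ⌈lam0⌉₊) := Fin.castLE (le_max_left _ _)
  have hc : ∀ i i', i ≠ i' → c i ≠ c i' := fun i i' hii hc =>
    hii (Fin.castLE_injective _ hc)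
  obtain ⟨i, i', hii, hlt⟩ := hone (D n) hl0 (fun i => x n (e (c i)) p)
    (fun i => H.pv n _ p) (fun i i' hii => (hg (c i) (c i') (hc i i' hii) () () h1).1)
  have h5 := (hg (c i) (c i') (hc i i' hii) () () h1).2
  rw [abs_le] at h5
  have h6 : 1 / (4 * d * ((d : ℝ) + 1)) < (D n).g (x n (e (c i)) p) (x n (e (c i')) p) / (D n).lam := by
    rw [lt_div_iff₀ hlpos]
    exact hlt
  have h7 : gam d (fun _ _ : Unit => j p p) (fun _ => h p) () () = gam d j h p p := rfl
  linarith [h5.2]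

end Pool.Agent.RI
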