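import Pool.Agent.RI.Base
import Pool.Agent.RI.BadE
import Pool.Agent.RI.One
import Pool.Agent.RI.Lab
import Pool.Agent.RI.Fin
import Pool.Agent.RI.LimE

set_option autoImplicit false

/-!
# Tuples of vectors
-/

namespace Pool.Agent.RI

open Polynomial Pool.Agent.RDF

/-- The bounds of the levels. -/
noncomputable def bd (d : ℕ) (B : ℝ) : ℕ → ℝ
  | 0 => B
  | m + 1 => d * bd d B m + 4

theorem bd_mono {d : ℕ} (hd : 1 ≤ d) {B : ℝ} (hB : 0 ≤ B) : Monotone (bd d B) := by
  have h0 : ∀ m, 0 ≤ bd d B m := by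
    intro m
    induction m with
    | zero => exact hB
    | succ m ih =>
      rw [bd]
      positivity
  refine monotone_nat_of_le_succ fun m => ?_
  rw [bd]
  have h1 : (1 : ℝ) ≤ d := by exact_mod_cast hd
  nlinarith [h0 m]

/-- The core: all data are given along a sequence with convergent proportions. -/
theorem no_bad_aux (d N : ℕ) (hd : 2 ≤ d) (D : ℕ → Dat d) (t : ℕ → ℕ)
    (z : ∀ n, Fin (t n) → Fin N → (D n).Om × (D n).Om) (a : ∀ n, Fin (t n) → Fin N)
    (hbad : ∀ n, Bad d N n (D n) (t n) (z n) (a n)) (w : Fin N → ℝ)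
    (hw : ∀ b, Filter.Tendsto (fun n => ((Finset.univ.filter fun i => a n i = b).card : ℝ) / t n)
      Filter.atTop (nhds (w b))) : False := by
  classical
  have hd0 : 0 < d := by omega
  let z0 : Fin d := ⟨0, hd0⟩
  have hd2 : (2 : ℝ) ≤ d := by exact_mod_cast hd
  have ht : ∀ n, n ≤ t n := fun n => (hbad n).le
  have hlam : ∀ n : ℕ, (n : ℝ) ≤ (D n).lam := fun n => (hbad n).lam
  -- the weights
  have hw0 : ∀ b, 0 ≤ w b := fun b => ge_of_tendsto' (hw b) fun n => by positivity
  have hw1 : ∑ b, w b = 1 := by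
    have h1 : Filter.Tendsto (fun n => ∑ b, ((Finset.univ.filter fun i => a n i = b).card : ℝ) /
        t n) Filter.atTop (nhds (∑ b, w b)) := tendsto_finsetSum _ fun b _ => hw b
    refine tendsto_nhds_unique h1 (tendsto_const_nhds.congr' ?_)
    rw [Filter.EventuallyEq, Filter.eventually_atTop]
    refine ⟨1, fun n hn => ?_⟩
    have h2 : (0 : ℝ) < t n := by exact_mod_cast lt_of_lt_of_le hn (ht n)
    rw [← Finset.sum_div, ← Nat.cast_sum, eq_comm]
    have h3 : ∑ b, (Finset.univ.filter fun i => a n i = b).card = t n := by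
      rw [← Finset.card_eq_sum_card_fiberwise (f := a n) (s := Finset.univ)
        (t := Finset.univ) (fun _ _ => Finset.mem_univ _), Finset.card_univ, Fintype.card_fin]
    rw [h3, div_self h2.ne']
  let A := {b : Fin N // 0 < w b}
  have hwA : ∑ b : A, w b = 1 := by
    have h1 : ∑ b ∈ Finset.univ.filter (fun b => 0 < w b), w b = ∑ b : A, w b :=
      Finset.sum_subtype _ (fun b => by simp) w
    rw [← h1, ← hw1]
    refine Finset.sum_filter_of_ne fun b _ hb => ?_
    exact lt_of_le_of_ne (hw0 b) hb.symm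
  have hcA : Fintype.card A ≤ N := by
    have h1 := Fintype.card_subtype_le fun b : Fin N => 0 < w b
    rwa [Fintype.card_fin] at h1
  obtain ⟨k, hk1, hk⟩ := fin_false d N hd z0 (c := 1 / (4 * d * ((d : ℝ) + 1)))
    (by positivity)
  -- the labels
  choose X hXk hXs hXp hX0 hXv using fun (n : ℕ) (i : Fin (t n)) (b : Fin N) =>
    exists_labels hd z0 (D n) k (z n i b) ((hbad n).pv i b)
  let P := Fin (k + 1) × A × Fin d
  let x : ∀ n, Fin (t n) → P → (D n).Om × (D n).Om := fun n i p => X n i p.2.1 p.1 p.2.2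
  have hxv : ∀ n i p, (D n).pv (x n i p) := fun n i p => hXv n i p.2.1 p.1 (by omega) p.2.2
  -- the bound of the last level
  obtain ⟨B, hB0, hB⟩ : ∃ B : ℝ, 0 ≤ B ∧ ∀ b : A, 2 / (w b) ^ 2 + 2 ≤ B := by
    refine ⟨∑ b : A, (2 / (w b) ^ 2 + 2), Finset.sum_nonneg fun b _ => by positivity, fun b => ?_⟩
    exact Finset.single_le_sum (f := fun b : A => 2 / (w b) ^ 2 + 2)
      (fun b _ => by positivity) (Finset.mem_univ b)
  have hbm := bd_mono (d := d) (by omega) hB0
  have hbd0 : 0 ≤ bd d B k := hB0.trans (hbm (Nat.zero_le k))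
  set Lam : ℝ := bd d B k + 6 with hLam
  obtain ⟨j, h, hjh⟩ := exists_lim hd D t ht hlam x hxv Lam (by linarith)
  have H : LimD D t x Lam j h := ⟨hjh, hlam, hxv, by linarith⟩
  have hT := H.treeK hd
  -- the labels of the level `s`
  let lb : ℕ → A × Fin d → P := fun s q =>
    if hs : s ≤ k then (⟨s, by omega⟩, q.1, if s = 0 then z0 else q.2) else (0, q.1, z0)
  have hlb : ∀ s, s ≤ k → ∀ n i (q : A × Fin d), x n i (lb s q) = X n i q.1 s q.2 := by
    intro s hs n i q
    simp only [lb, x, dif_pos hs]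
    by_cases h0 : s = 0
    · subst h0
      rw [if_pos rfl]
      exact (hX0 n i q.1 q.2).symm
    · rw [if_neg h0]
  -- the base
  have hbase : ∑ b : A, ∑ c : A, w b * w c * gam d j h (lb k (b, z0)) (lb k (c, z0)) ≤ 0 := by
    refine base hd D t z a hbad w hw A Subtype.val Subtype.val_injective
      (fun b hb => ⟨⟨b, hb⟩, rfl⟩) x Lam j h H (fun b => lb k (b, z0)) fun n i b => ?_
    rw [hlb k le_rfl]
    exact hXk n i b
  have hge := fun p q => H.gam_ge hd p q
  have htop : ∀ b : A, j (lb k (b, z0)) (lb k (b, z0)) ≤ B := by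
    intro b
    have h1 : ∑ b : A, ∑ c : A, w b * w c *
        (gam d j h (lb k (b, z0)) (lb k (c, z0)) + 2) ≤ 2 := by
      have h2 : ∑ b : A, ∑ c : A, w b * w c * (gam d j h (lb k (b, z0)) (lb k (c, z0)) + 2) =
          ∑ b : A, ∑ c : A, w b * w c * gam d j h (lb k (b, z0)) (lb k (c, z0)) +
            2 * ((∑ b : A, w b) * ∑ c : A, w c) := by
        rw [Finset.sum_mul_sum, Finset.mul_sum, ← Finset.sum_add_distrib]
        refine Finset.sum_congr rfl fun b _ => ?_
        rw [Finset.mul_sum, ← Finset.sum_add_distrib]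
        exact Finset.sum_congr rfl fun c _ => by ring
      rw [h2, hwA]
      linarith
    have h3 : ∀ b c : A, 0 ≤ w b * w c * (gam d j h (lb k (b, z0)) (lb k (c, z0)) + 2) := by
      intro b c
      have h2 := hge (lb k (b, z0)) (lb k (c, z0))
      exact mul_nonneg (mul_nonneg b.2.le c.2.le) (by linarith)
    have h4 : w b * w b * (gam d j h (lb k (b, z0)) (lb k (b, z0)) + 2) ≤ 2 := by
      refine le_trans ?_ h1
      refine le_trans ?_ (Finset.single_le_sum (f := fun b : A => ∑ c : A, w b * w c *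
        (gam d j h (lb k (b, z0)) (lb k (c, z0)) + 2))
        (fun b _ => Finset.sum_nonneg fun c _ => h3 b c) (Finset.mem_univ b))
      exact Finset.single_le_sum (f := fun c : A => w b * w c *
        (gam d j h (lb k (b, z0)) (lb k (c, z0)) + 2)) (fun c _ => h3 b c) (Finset.mem_univ b)
    have hb := b.2
    have h5 : gam d j h (lb k (b, z0)) (lb k (b, z0)) + 2 ≤ 2 / (w b) ^ 2 := by
      rw [le_div_iff₀ (by positivity)]
      nlinarith
    refine le_trans ?_ (hB b)
    have h6 := (H.h_mem hd (lb k (b, z0))).2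
    have h7 : 1 / ((d : ℝ) - 1) ≤ 1 := by
      rw [div_le_one (by linarith)]
      linarith
    have h8 : 0 ≤ 1 / ((d : ℝ) * (d - 1)) := by
      have : 0 < (d : ℝ) - 1 := by linarith
      positivity
    unfold gam at h5
    linarith
  -- the forward labels
  have hfor : ∀ m s, s + m = k → ∀ b : A, j (lb s (b, z0)) (lb s (b, z0)) ≤ bd d B m := by
    intro m
    induction m with
    | zero =>
      intro s hs b
      rw [add_zero] at hs
      subst hs
      exact htop b
    | succ m ih =>
      intro s hs b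
      refine H.diag_Phi hd (lb s (b, z0)) (lb (s + 1) (b, z0)) (fun n i => ?_) _
        (ih (s + 1) (by omega) b) ?_
      · rw [hlb s (by omega), hlb (s + 1) (by omega)]
        exact hXs n i b s (by omega)
      · have h1 := hbm (show m + 1 ≤ k by omega)
        rw [bd] at h1
        linarith
  have hfor' : ∀ s ≤ k, ∀ b c : A, j (lb s (b, z0)) (lb s (c, z0)) ≤ bd d B k := by
    intro s hs b c
    exact ((hT.le_diag _ _).trans (hfor (k - s) s (by omega) b)).trans (hbm (by omega))
  -- all labels of a level are free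
  have hfree : ∀ s ≤ k, ∀ p q : A × Fin d, j (lb s p) (lb s q) < Lam := by
    intro s hs p q
    rcases Nat.eq_zero_or_pos s with rfl | hs0
    · have h1 : ∀ p : A × Fin d, lb 0 p = lb 0 (p.1, z0) := by
        intro p
        simp only [lb, if_pos]
      rw [h1 p, h1 q]
      have h2 := hfor' 0 (Nat.zero_le _) p.1 q.1
      linarith
    · obtain ⟨s, rfl⟩ : ∃ s', s = s' + 1 := ⟨s - 1, by omega⟩
      have h2 := hfor' s (by omega) p.1 q.1
      have h3 := H.pre_le hd (lb s (p.1, z0)) (lb s (q.1, z0)) (lb (s + 1) p)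
        (fun u => lb (s + 1) (q.1, u)) (fun n i => ?_) (fun n i => ?_) _ h2 (by linarith) q.2
      · have h4 : ((q.1, q.2) : A × Fin d) = q := rfl
        rw [h4] at h3
        linarith
      · rw [hlb s (by omega), hlb (s + 1) hs]
        exact (hXp n i p.1 s (by omega)).1 p.2
      · rw [hlb s (by omega)]
        have h4 : (fun u => x n i (lb (s + 1) (q.1, u))) = X n i q.1 (s + 1) := by
          funext u
          rw [hlb (s + 1) hs]
        rw [h4]
        exact hXp n i q.1 s (by omega)
  -- the finite statement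
  refine hk A hcA (fun b => w b) (fun b => b.2) hwA (fun s p q => gam d j h (lb s p) (lb s q))
    (fun s p q => j (lb s p) (lb s q)) (fun s p => h (lb s p)) (1 / ((d : ℝ) * (d - 1)))
    (fun s _ p q => rfl) (fun s _ => (H.comap (lb s)).treeK hd)
    (fun s _ b c => hge (lb s (b, z0)) (lb s (c, z0))) ?_ (fun s hs v hv => ?_)
    (fun s hs b => ?_) hbase
  · intro s hs b c u
    refine H.iden hd (lb s (b, z0)) (lb (s + 1) (b, u)) (lb s (c, z0))
      (fun v => lb (s + 1) (c, v)) (fun n i => ?_) (fun n i => ?_) (hfree s hs.le _ _)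
      (fun v => hfree (s + 1) hs _ _)
    · rw [hlb s hs.le, hlb (s + 1) hs]
      exact ((hXp n i b s hs).1 u).symm
    · rw [hlb s hs.le]
      have h4 : (fun v => x n i (lb (s + 1) (c, v))) = X n i c (s + 1) := by
        funext v
        rw [hlb (s + 1) hs]
      rw [h4]
      exact hXp n i c s hs
  · exact (H.comap (lb s)).copos hd (fun p q => hfree s hs p q) v hv
  · exact H.diag_ge hd (lb s (b, z0)) (hfree s hs _ _)

theorem no_bad (d N : ℕ) (hd : 2 ≤ d) (D : ℕ → Dat d) (t : ℕ → ℕ)
    (z : ∀ n, Fin (t n) → Fin N → (D n).Om × (D n).Om) (a : ∀ n, Fin (t n) → Fin N)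
    (hbad : ∀ n, Bad d N n (D n) (t n) (z n) (a n)) : False := by
  classical
  -- a convergent subsequence of the proportions
  have hcomp : IsCompact (Set.univ.pi fun _ : Fin N => Set.Icc (0 : ℝ) 1) :=
    isCompact_univ_pi fun _ => isCompact_Icc
  obtain ⟨w, -, φ, hφ, hlim⟩ := hcomp.tendsto_subseq (x := fun n b =>
    ((Finset.univ.filter fun i => a n i = b).card : ℝ) / t n) fun n => by
      rw [Set.mem_univ_pi]
      intro b
      refine ⟨by positivity, div_le_one_of_le₀ ?_ (by positivity)⟩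
      have h1 := Finset.card_le_univ (Finset.univ.filter fun i => a n i = b)
      rw [Fintype.card_fin] at h1
      exact_mod_cast h1
  rw [tendsto_pi_nhds] at hlim
  exact no_bad_aux d N hd (fun n => D (φ n)) (fun n => t (φ n)) (fun n => z (φ n))
    (fun n => a (φ n)) (fun n => (hbad (φ n)).mono (hφ.id_le n)) w hlim

theorem tup (d N : ℕ) (hd : 2 ≤ d) : ∃ c : ℝ, 0 < c ∧ ∃ (lam0 : ℝ) (T0 : ℕ),
    TupGood d N c lam0 T0 := by
  by_contra hcon
  push Not at hcon
  choose D t z a hbad using fun n : ℕ => exists_bad d N (n + 1) hd (by omega)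
    (hcon (1 / (((n + 1 : ℕ) : ℝ) + 1)) (by positivity) ((n + 1 : ℕ) : ℝ) (n + 1))
  exact no_bad d N hd D t z a fun n => (hbad n).mono (by omega)

end Pool.Agent.RI
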