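import Mathlib
import Pool.Agent.RI.Defs
import Pool.Agent.RI.DenDef
import Pool.Agent.RI.DenW
import Pool.Agent.RI.DenS
import Pool.Agent.RI.LimD
import Pool.Agent.RI.Tup

set_option autoImplicit false

/-!
# The tuple theorem in density form
-/

namespace Pool.Agent.RI

open Polynomial Pool.Agent.RDF Finset

/-- The black box. -/
theorem exists_n0 (d N : ℕ) (hd : 2 ≤ d) : ∃ n0 : ℕ, 1 ≤ n0 ∧ ∀ (D : Dat d) (t : ℕ)
    (z : Fin t → Fin N → D.Om × D.Om) (a : Fin t → Fin N), ¬ Bad d N n0 D t z a := by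
  by_contra hcon
  push Not at hcon
  choose D t z a hbad using fun n : ℕ => hcon (n + 1) (by omega)
  exact no_bad d N hd D t z a fun n => (hbad n).mono (by omega)

/-- Pigeonhole for a bounded number of real values. -/
theorem pigeon_real {ι P : Type} [DecidableEq ι] [Fintype P] (h : ι → P → ℝ) (U : Finset ι)
    (hU : U.Nonempty) (a ε : ℝ) (hε : 0 < ε) (m : ℕ) (hlow : ∀ i ∈ U, ∀ p, a ≤ h i p)
    (hup : ∀ i ∈ U, ∀ p, h i p < a + m * ε) :
    ∃ Z ⊆ U, Z.Nonempty ∧ U.card ≤ m ^ Fintype.card P * Z.card ∧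
      ∀ i ∈ Z, ∀ j ∈ Z, ∀ p, |h i p - h j p| ≤ ε := by
  classical
  let key : ι → P → ℕ := fun i p => ⌊(h i p - a) / ε⌋₊
  let R : Finset (P → ℕ) := Fintype.piFinset fun _ => Finset.range m
  have hkey : ∀ i ∈ U, key i ∈ R := by
    intro i hi
    rw [Fintype.mem_piFinset]
    intro p
    rw [Finset.mem_range, Nat.floor_lt (div_nonneg (by linarith [hlow i hi p]) hε.le),
      div_lt_iff₀ hε]
    linarith [hup i hi p]
  have hRc : R.card = m ^ Fintype.card P := by
    rw [Fintype.card_piFinset]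
    simp
  have hR : R.Nonempty := by
    obtain ⟨i, hi⟩ := hU
    exact ⟨key i, hkey i hi⟩
  obtain ⟨y, hy, hmax⟩ := Finset.exists_max_image R (fun y => (U.filter fun i => key i = y).card) hR
  have h1 : U.card ≤ m ^ Fintype.card P * (U.filter fun i => key i = y).card := by
    rw [Finset.card_eq_sum_card_fiberwise (f := key) (s := U) (t := R) hkey, ← hRc]
    calc ∑ b ∈ R, (U.filter fun i => key i = b).card
        ≤ ∑ _b ∈ R, (U.filter fun i => key i = y).card := Finset.sum_le_sum fun b hb => hmax b hb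
      _ = _ := by rw [Finset.sum_const, smul_eq_mul]
  refine ⟨U.filter fun i => key i = y, Finset.filter_subset _ _, ?_, h1, ?_⟩
  · rw [← Finset.card_pos]
    by_contra hcon
    have h2 : (U.filter fun i => key i = y).card = 0 := by omega
    rw [h2, mul_zero] at h1
    have h3 := Finset.card_pos.2 hU
    omega
  · intro i hi j hj p
    rw [Finset.mem_filter] at hi hj
    have h2 : key i p = key j p := by rw [hi.2, hj.2]
    have hnn : ∀ k ∈ U, 0 ≤ (h k p - a) / ε := fun k hk =>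
      div_nonneg (by linarith [hlow k hk p]) hε.le
    have h3 := Nat.floor_le (hnn i hi.1)
    have h4 := Nat.lt_floor_add_one ((h i p - a) / ε)
    have h5 := Nat.floor_le (hnn j hj.1)
    have h6 := Nat.lt_floor_add_one ((h j p - a) / ε)
    have h7 : (⌊(h i p - a) / ε⌋₊ : ℝ) = ⌊(h j p - a) / ε⌋₊ := by exact_mod_cast h2
    have h8 : |(h i p - a) / ε - (h j p - a) / ε| ≤ 1 := by
      rw [abs_le]
      constructor <;> linarith
    have h9 : (h i p - a) / ε - (h j p - a) / ε = (h i p - h j p) / ε := by ring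
    rw [h9, abs_div, abs_of_pos hε, div_le_one hε] at h8
    exact h8

/-- The tuple theorem in density form. -/
theorem den (d N : ℕ) (hd : 2 ≤ d) :
    ∃ c : ℝ, 0 < c ∧ ∃ (lam0 : ℝ) (T0 : ℕ), TupDen d N c lam0 T0 := by
  classical
  obtain ⟨n, hn1, hnb⟩ := exists_n0 d N hd
  obtain ⟨C, hC0, hC⟩ := g_ge d hd
  obtain ⟨C', hC0', hC'⟩ := pv_nrm d hd
  have hn1' : (1 : ℝ) ≤ n := by exact_mod_cast hn1
  have hd2 : (2 : ℝ) ≤ d := by exact_mod_cast hd
  set κ : ℝ := 1 / (4 * (n + 1) * (4 * n ^ 2 + 3)) with hκ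
  have hκ0 : 0 < κ := by positivity
  have hκ1 : κ ≤ 1 := by
    rw [hκ, div_le_one (by positivity)]
    nlinarith [sq_nonneg (n : ℝ)]
  refine ⟨1 / (4 * (n + 1)), by positivity, max (24 * (n + 1)) (max C C'),
    8 * (n + 1) * (4 * n ^ 2 + 3), fun q => ?_⟩
  set β : ℝ := κ / (2 * ((N : ℝ) ^ 2 * (q : ℝ) ^ 2 + 1)) with hβ
  have hβ0 : 0 < β := by positivity
  have hβ1 : β ≤ 1 := by
    rw [hβ, div_le_one (by positivity)]
    nlinarith [mul_nonneg (sq_nonneg (N : ℝ)) (sq_nonneg (q : ℝ))]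
  set m : ℕ := 8 * (n + 1) * (n + 1) with hm
  set K1 : ℕ := (4 * (n + 1)) ^ N with hK1
  obtain ⟨B, hB⟩ := exists_nat_ge ((K1 : ℝ) * (1 / β) ^ (N * m))
  refine ⟨B, fun D hlam α _ z U hpv hind => ?_⟩
  have hl24 : 24 * ((n : ℝ) + 1) ≤ D.lam := (le_max_left _ _).trans hlam
  have hlC : C ≤ D.lam := ((le_max_left _ _).trans (le_max_right _ _)).trans hlam
  have hlC' : C' ≤ D.lam := ((le_max_right _ _).trans (le_max_right _ _)).trans hlam
  have hl0 : 0 < D.lam := by linarith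
  rcases U.eq_empty_or_nonempty with rfl | hU
  · refine ⟨∅, subset_rfl, by simp, fun Y hY _ hT a => ?_⟩
    rw [Finset.subset_empty] at hY
    subst hY
    simp
  -- the norms
  have hlog2 : Real.log 2 < 1 := by
    have := Real.log_two_lt_d9
    linarith
  obtain ⟨U1, hU1U, hU1, hU1c, hU1h⟩ := pigeon_real
    (fun i b => Real.log (nrm D.abv (z i b)) / D.lam) U hU (-1) (1 / (n + 1)) (by positivity)
    (4 * (n + 1)) (by
      intro i hi b
      rw [le_div_iff₀ hl0]
      linarith [(hC' D _ (hpv i hi b)).1]) (by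
      intro i hi b
      have h1 := (hC' D _ (hpv i hi b)).2
      rw [max_eq_left hl0.le] at h1
      have h2 : (D.lam + C') / ((d : ℝ) - 1) ≤ D.lam + C' :=
        div_le_self (by linarith) (by linarith)
      have h3 : ((4 * (n + 1) : ℕ) : ℝ) * (1 / (n + 1)) = 4 := by
        push_cast
        field_simp
      rw [h3, div_lt_iff₀ hl0]
      linarith)
  -- the kernel
  set J : α → Fin N → α → Fin N → ℝ := fun i b j c => JJ D.abv (n * D.lam) (z i b) (z j c) / D.lam
    with hJ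
  have hΛ : 0 ≤ (n : ℝ) * D.lam := by positivity
  set η : ℝ := Real.log 2 / D.lam with hη
  have hη0 : 0 ≤ η := div_nonneg (Real.log_nonneg (by norm_num)) hl0.le
  have hη1 : 3 * η ≤ 1 / (8 * (n + 1)) := by
    rw [hη, ← mul_div_assoc, div_le_div_iff₀ hl0 (by positivity)]
    nlinarith
  have hJlow : ∀ i j b c, -η ≤ J i b j c := by
    intro i j b c
    rw [hJ, hη, ← neg_div]
    exact div_le_div_of_nonneg_right (LimDAux.JJ_ge D.abv hΛ _ _) hl0.le
  have hJup : ∀ i j b c, J i b j c ≤ n := by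
    intro i j b c
    rw [hJ]
    simp only
    rw [div_le_iff₀ hl0]
    exact LimDAux.JJ_le D.abv _ _ _
  have hJsym : ∀ i j b c, J i b j c = J j c i b := by
    intro i j b c
    rw [hJ]
    simp only
    rw [LimDAux.JJ_symm]
  have hJtri : ∀ i ∈ U1, ∀ j ∈ U1, ∀ k ∈ U1, ∀ b c e,
      min (J i b j c) (J j c k e) - η ≤ J i b k e := by
    intro i hi j hj k hk b c e
    have h1 := LimDAux.JJ_tri D.abv (n * D.lam) (hpv i (hU1U hi) b).1 (hpv j (hU1U hj) c).1
      (hpv k (hU1U hk) e).1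
    have h2 := div_le_div_of_nonneg_right h1 hl0.le
    rw [sub_div, ← min_div_div_right hl0.le] at h2
    exact h2
  obtain ⟨Z, hZU1, hZ, hZc, cc, hcc⟩ := DenW.main J U1 hU1 n η (1 / (8 * (n + 1))) β hβ0 hβ1 hη0
    (fun i _ j _ b => hJlow i j b b) (fun i _ j _ b => hJup i j b b) hJsym hJtri m (by
      rw [hm]
      push_cast
      have h1 : 8 * ((n : ℝ) + 1) * (n + 1) * (1 / (8 * (n + 1))) = n + 1 := by
        field_simp
      rw [h1]
      linarith) (by positivity)
  rw [Fintype.card_fin] at hZc hcc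
  set E : Finset (α × α) := (Z ×ˢ Z).filter fun x =>
    ∃ b c, ¬ |J x.1 b x.2 c - cc b c| ≤ 1 / (8 * (n + 1)) + 3 * η with hE
  have hcc' : (E.card : ℝ) ≤ (N : ℝ) ^ 2 * β * (Z.card : ℝ) ^ 2 := by
    refine le_trans ?_ hcc
    have h1 := Finset.card_le_card (s := E) (t := (Z ×ˢ Z).filter fun x =>
      ∃ b c, ¬ |J x.1 b x.2 c - cc b c| ≤ 1 / (8 * (n + 1)) + 3 * η) (fun x hx => by
        rw [hE, Finset.mem_filter] at hx
        rw [Finset.mem_filter]
        exact hx)
    exact_mod_cast h1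
  refine ⟨Z, hZU1.trans hU1U, ?_, fun Y hYZ hqY hTY a => ?_⟩
  · have h1 : (U.card : ℝ) ≤ B * Z.card := by
      have h2 : (U.card : ℝ) ≤ K1 * U1.card := by
        rw [Fintype.card_fin] at hU1c
        exact_mod_cast hU1c
      have h3 : (U1.card : ℝ) ≤ (1 / β) ^ (N * m) * Z.card := by
        rw [div_pow, one_pow, div_mul_eq_mul_div, one_mul, le_div_iff₀ (by positivity), mul_comm]
        exact hZc
      calc (U.card : ℝ) ≤ K1 * U1.card := h2
        _ ≤ K1 * ((1 / β) ^ (N * m) * Z.card) := mul_le_mul_of_nonneg_left h3 (by positivity)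
        _ = K1 * (1 / β) ^ (N * m) * Z.card := by ring
        _ ≤ B * Z.card := mul_le_mul_of_nonneg_right hB (Nat.cast_nonneg _)
    exact_mod_cast h1
  by_contra hcon
  rw [not_le] at hcon
  have hYU : ∀ i ∈ Y, i ∈ U := fun i hi => hU1U (hZU1 (hYZ hi))
  have hYT : (8 * (n + 1) * (4 * n ^ 2 + 3) : ℝ) ≤ Y.card := by exact_mod_cast hTY
  have hY0 : (0 : ℝ) < Y.card := lt_of_lt_of_le (by positivity) hYT
  have hYne : Y.Nonempty := by
    rw [← Finset.card_pos]
    exact_mod_cast hY0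
  have hEc : (E.card : ℝ) + Y.card ≤ κ * (Y.card : ℝ) ^ 2 := by
    have h1 : (Z.card : ℝ) ≤ q * Y.card := by exact_mod_cast hqY
    have h2 : (Z.card : ℝ) ^ 2 ≤ (q * Y.card) ^ 2 :=
      pow_le_pow_left₀ (Nat.cast_nonneg _) h1 2
    have h3 : (E.card : ℝ) ≤ κ / 2 * (Y.card : ℝ) ^ 2 := by
      calc (E.card : ℝ) ≤ (N : ℝ) ^ 2 * β * (Z.card : ℝ) ^ 2 := hcc'
        _ ≤ (N : ℝ) ^ 2 * β * (q * Y.card) ^ 2 :=
          mul_le_mul_of_nonneg_left h2 (by positivity)
        _ = ((N : ℝ) ^ 2 * q ^ 2) / ((N : ℝ) ^ 2 * q ^ 2 + 1) * (κ / 2 * (Y.card : ℝ) ^ 2) := by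
          rw [hβ]
          field_simp
        _ ≤ 1 * (κ / 2 * (Y.card : ℝ) ^ 2) := by
          refine mul_le_mul_of_nonneg_right ?_ (by positivity)
          rw [div_le_one (by positivity)]
          linarith
        _ = _ := one_mul _
    have h4 : (Y.card : ℝ) ≤ κ / 2 * (Y.card : ℝ) ^ 2 := by
      have h5 : 1 ≤ κ / 2 * Y.card := by
        calc (1 : ℝ) = κ / 2 * (8 * (n + 1) * (4 * n ^ 2 + 3)) := by
              rw [hκ]
              field_simp
              norm_num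
          _ ≤ κ / 2 * Y.card := mul_le_mul_of_nonneg_left hYT (by positivity)
      nlinarith
    linarith
  obtain ⟨f, hfY, hfE, hfs⟩ := DenS.exists_low Y hYne
    (fun i j => D.g (z i (a i)) (z j (a j))) E n (1 / (4 * (n + 1)) * D.lam) κ
    (4 * n ^ 2 * D.lam) (3 * D.lam) (by positivity) hκ0.le (by positivity) (by positivity)
    (fun i hi j hj _ => by
      have h1 := hC D _ _ (hpv i (hYU i hi) (a i)) (hpv j (hYU j hj) (a j))
      rw [max_eq_left hl0.le] at h1
      linarith) hEc hcon.le (by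
      have h1 : (n : ℝ) ^ 2 * (1 / (4 * (n + 1)) * D.lam + κ * (4 * n ^ 2 * D.lam + 3 * D.lam)) =
          n ^ 2 * D.lam * (1 / (2 * (n + 1))) := by
        rw [hκ]
        field_simp
        ring
      have h2 : 4 * (n : ℝ) ^ 2 * D.lam - n ^ 2 * (3 * D.lam) = n ^ 2 * D.lam * 1 := by ring
      rw [h1, h2]
      refine mul_lt_mul_of_pos_left ?_ (by positivity)
      rw [div_lt_one (by positivity)]
      linarith)
  have hfU : ∀ u, f u ∈ U := fun u => hYU _ (hfY u)
  have hfc : ∀ u v, u ≠ v → ∀ b c, |J (f u) b (f v) c - cc b c| ≤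
      1 / (8 * (n + 1)) + 3 * η := by
    intro u v huv b c
    by_contra h
    refine hfE u v huv ?_
    rw [hE, Finset.mem_filter]
    exact ⟨Finset.mem_product.2 ⟨hYZ (hfY u), hYZ (hfY v)⟩, b, c, h⟩
  refine hnb D n (fun u => z (f u)) (fun u => a (f u)) ⟨by linarith, le_rfl,
    fun i b => hpv _ (hfU i) b, fun i j hij b c => hind _ (hfU i) _ (hfU j)
      (fun h => hij (f.injective h)) b c, ?_, ?_, ?_⟩
  · intro i j i' j' hij hij' b c
    have h1 := hfc i j hij.ne b c
    have h2 := hfc i' j' hij'.ne b c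
    have h3 : |J (f i) b (f j) c - J (f i') b (f j') c| ≤ 1 / (n + 1) := by
      have h4 : (1 : ℝ) / (n + 1) = 8 * (1 / (8 * (n + 1))) := by
        field_simp
      have h5 : (0 : ℝ) < 1 / (8 * (n + 1)) := by positivity
      rw [abs_le] at h1 h2 ⊢
      constructor <;> linarith [h1.1, h1.2, h2.1, h2.2]
    have h4 : J (f i) b (f j) c - J (f i') b (f j') c =
        (JJ D.abv (n * D.lam) (z (f i) b) (z (f j) c) -
          JJ D.abv (n * D.lam) (z (f i') b) (z (f j') c)) / D.lam := by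
      rw [hJ]
      ring
    rw [h4, abs_div, abs_of_pos hl0, div_le_iff₀ hl0] at h3
    calc _ ≤ 1 / (n + 1) * D.lam := h3
      _ = D.lam / (n + 1) := by ring
  · intro i i' b
    have h1 := hU1h _ (hZU1 (hYZ (hfY i))) _ (hZU1 (hYZ (hfY i'))) b
    rw [← sub_div, abs_div, abs_of_pos hl0, div_le_iff₀ hl0] at h1
    calc _ ≤ 1 / (n + 1) * D.lam := h1
      _ = D.lam / (n + 1) := by ring
  · refine lt_of_le_of_lt hfs ?_
    have h1 : (n : ℝ) ^ 2 * (1 / (4 * (n + 1)) * D.lam + κ * (4 * n ^ 2 * D.lam + 3 * D.lam)) =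
        n ^ 2 * D.lam * (1 / (2 * (n + 1))) := by
      rw [hκ]
      field_simp
      ring
    have h2 : D.lam * (n : ℝ) ^ 2 / (n + 1) = n ^ 2 * D.lam * (1 / (n + 1)) := by ring
    rw [h1, h2]
    refine mul_lt_mul_of_pos_left ?_ (by positivity)
    exact one_div_lt_one_div_of_lt (by positivity) (by linarith)

end Pool.Agent.RI
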