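import Mathlib
import Pool.Agent.RI.Defs
import Pool.Agent.RI.Pre

set_option autoImplicit false

/-!
# The grid over `ℂ`: dense subsets
-/

namespace Pool.Agent.RI.DenGrid

open Finset

/-- the number of pairs of equal colour -/
theorem pairs_eq {α : Type} {N : ℕ} (hN : 1 ≤ N) (a : α → Fin N) (Y : Finset α) :
    ((Y.card : ℝ) ^ 2) / N ≤ ∑ i ∈ Y, ∑ j ∈ Y, (if a i = a j then (1 : ℝ) else 0) := by
  classical
  have e : ∑ i ∈ Y, ∑ j ∈ Y, (if a i = a j then (1 : ℝ) else 0) =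
      ∑ c : Fin N, (((Y.filter fun i => a i = c).card : ℝ)) ^ 2 := by
    have h1 : ∀ i ∈ Y, ∑ j ∈ Y, (if a i = a j then (1 : ℝ) else 0) =
        ((Y.filter fun j => a j = a i).card : ℝ) := by
      intro i _
      rw [← Finset.sum_filter, Finset.sum_const, nsmul_eq_mul, mul_one]
      have h0 : (Y.filter fun j => a i = a j) = Y.filter fun j => a j = a i := by
        ext j
        simp only [mem_filter]
        exact and_congr_right fun _ => eq_comm
      rw [h0]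
    rw [Finset.sum_congr rfl h1,
      ← Finset.sum_fiberwise_of_maps_to (g := a) (t := univ) (fun _ _ => mem_univ _)]
    refine Finset.sum_congr rfl fun c _ => ?_
    rw [Finset.sum_congr rfl (g := fun _ => ((Y.filter fun j => a j = c).card : ℝ)) (fun i hi => by
      rw [(mem_filter.1 hi).2]), Finset.sum_const, nsmul_eq_mul, sq]
  rw [e]
  have h2 : (Y.card : ℝ) = ∑ c : Fin N, ((Y.filter fun i => a i = c).card : ℝ) := by
    rw [← Nat.cast_sum]
    exact congrArg _ (Finset.card_eq_sum_card_fiberwise (fun _ _ => mem_univ _))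
  have h3 := sq_sum_le_card_mul_sum_sq (s := (univ : Finset (Fin N)))
    (f := fun c => ((Y.filter fun i => a i = c).card : ℝ))
  rw [← h2, Finset.card_univ, Fintype.card_fin] at h3
  rw [div_le_iff₀ (by exact_mod_cast hN)]
  linarith

/-- the energy of a pattern when pairs of equal colour have large energy -/
theorem pattern_energy {α : Type} [DecidableEq α] {N : ℕ} (hN : 1 ≤ N) (a : α → Fin N)
    (Y : Finset α) (hY : 2 * N ≤ Y.card)
    (F : α → α → ℝ) {C Lam : ℝ} (hC : 0 ≤ C) (hL : 0 ≤ Lam)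
    (h1 : ∀ i ∈ Y, ∀ j ∈ Y, i ≠ j → -C ≤ F i j)
    (h2 : ∀ i ∈ Y, ∀ j ∈ Y, i ≠ j → a i = a j → 2 * N * (C + Lam) ≤ F i j) :
    Lam * (Y.card : ℝ) ^ 2 ≤ ∑ i ∈ Y, ∑ j ∈ Y.erase i, F i j := by
  obtain ⟨G, hG⟩ : ∃ G : ℝ, G = 2 * N * (C + Lam) := ⟨_, rfl⟩
  have hN' : (0 : ℝ) < N := by exact_mod_cast hN
  have hG0 : 0 ≤ G := by rw [hG]; positivity
  have e1 : ∑ i ∈ Y, ∑ j ∈ Y.erase i, ((G + C) * (if a i = a j then (1 : ℝ) else 0) - C) ≤
      ∑ i ∈ Y, ∑ j ∈ Y.erase i, F i j := by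
    refine Finset.sum_le_sum fun i hi => Finset.sum_le_sum fun j hj => ?_
    have hij : i ≠ j := (mem_erase.1 hj).1.symm
    have hjY : j ∈ Y := (mem_erase.1 hj).2
    by_cases h : a i = a j
    · rw [if_pos h]
      have := h2 i hi j hjY hij h
      rw [← hG] at this
      linarith
    · rw [if_neg h]
      have := h1 i hi j hjY hij
      linarith
  have e2 : ∀ i ∈ Y, ∑ j ∈ Y, ((G + C) * (if a i = a j then (1 : ℝ) else 0) - C) - G ≤
      ∑ j ∈ Y.erase i, ((G + C) * (if a i = a j then (1 : ℝ) else 0) - C) := by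
    intro i hi
    rw [← Finset.add_sum_erase Y _ hi, if_pos rfl]
    linarith
  have e3 : ∑ i ∈ Y, (∑ j ∈ Y, ((G + C) * (if a i = a j then (1 : ℝ) else 0) - C) - G) =
      (G + C) * ∑ i ∈ Y, ∑ j ∈ Y, (if a i = a j then (1 : ℝ) else 0) - C * (Y.card : ℝ) ^ 2 -
        G * Y.card := by
    simp only [Finset.sum_sub_distrib, Finset.sum_const, nsmul_eq_mul, ← Finset.mul_sum]
    ring
  have e4 := Finset.sum_le_sum e2
  rw [e3] at e4
  have e5 := pairs_eq hN a Y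
  have hY' : (2 : ℝ) * N ≤ Y.card := by exact_mod_cast hY
  have e6 : (G + C) * ((Y.card : ℝ) ^ 2 / N) ≤
      (G + C) * ∑ i ∈ Y, ∑ j ∈ Y, (if a i = a j then (1 : ℝ) else 0) :=
    mul_le_mul_of_nonneg_left e5 (by linarith)
  have e7 : (C + Lam) * (Y.card : ℝ) ^ 2 + G * Y.card ≤ G * ((Y.card : ℝ) ^ 2 / N) := by
    have e8 : G * ((Y.card : ℝ) ^ 2 / N) = 2 * ((C + Lam) * (Y.card : ℝ) ^ 2) := by
      rw [hG]; field_simp
    have e9 : G * Y.card ≤ (C + Lam) * (Y.card : ℝ) ^ 2 := by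
      rw [hG]
      have : 2 * (N : ℝ) * Y.card ≤ (Y.card : ℝ) * Y.card :=
        mul_le_mul_of_nonneg_right hY' (Nat.cast_nonneg _)
      have := mul_le_mul_of_nonneg_left this (by linarith : 0 ≤ C + Lam)
      nlinarith
    linarith
  have e10 : 0 ≤ C * ((Y.card : ℝ) ^ 2 / N) := by positivity
  nlinarith

/-- a fibre of proportion at least `1 / K` -/
theorem exists_fibre {α β : Type} [DecidableEq α] [DecidableEq β] (U : Finset α) (col : α → β)
    (t : Finset β) (ht : ∀ i ∈ U, col i ∈ t) :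
    ∃ Z ⊆ U, U.card ≤ (t.card + 1) * Z.card ∧ ∀ i ∈ Z, ∀ j ∈ Z, col i = col j := by
  rcases U.eq_empty_or_nonempty with rfl | hU
  · exact ⟨∅, subset_rfl, by simp, by simp⟩
  obtain ⟨i0, hi0⟩ := hU
  have hne : t.Nonempty := ⟨_, ht i0 hi0⟩
  obtain ⟨c, -, hc⟩ := Finset.exists_max_image t (fun c => (U.filter fun i => col i = c).card) hne
  refine ⟨U.filter fun i => col i = c, Finset.filter_subset _ _, ?_, fun i hi j hj => ?_⟩
  · have h1 : U.card = ∑ c ∈ t, (U.filter fun i => col i = c).card :=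
      Finset.card_eq_sum_card_fiberwise ht
    calc U.card = ∑ c ∈ t, (U.filter fun i => col i = c).card := h1
      _ ≤ ∑ _c ∈ t, (U.filter fun i => col i = c).card := Finset.sum_le_sum hc
      _ = t.card * (U.filter fun i => col i = c).card := by rw [Finset.sum_const, smul_eq_mul]
      _ ≤ (t.card + 1) * (U.filter fun i => col i = c).card :=
        Nat.mul_le_mul (Nat.le_succ _) le_rfl
  · rw [(Finset.mem_filter.1 hi).2, (Finset.mem_filter.1 hj).2]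

/-- of many tuples of bounded vectors of `ℂ²` one can choose a positive proportion such that every
pattern on every large subset has large energy -/
theorem grid (N : ℕ) (hN : 1 ≤ N) (B rho0 Lam : ℝ) : ∃ K : ℕ, ∀ (rho : ℝ), rho0 ≤ rho →
    ∀ (α : Type) [DecidableEq α] (z : α → Fin N → ℂ × ℂ) (U : Finset α),
    (∀ i ∈ U, ∀ a, ‖(z i a).1‖ ≤ B ∧ ‖(z i a).2‖ ≤ B) →
    (∀ i ∈ U, ∀ j ∈ U, i ≠ j → ∀ a b, (z i a).1 * (z j b).2 - (z i a).2 * (z j b).1 ≠ 0) →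
    ∃ Z ⊆ U, U.card ≤ K * Z.card ∧ ∀ Y ⊆ Z, 2 * N ≤ Y.card → ∀ a : α → Fin N,
      Lam * (Y.card : ℝ) ^ 2 ≤ ∑ i ∈ Y, ∑ j ∈ Y.erase i,
        (-Real.log ‖(z i (a i)).1 * (z j (a j)).2 - (z i (a i)).2 * (z j (a j)).1‖ + rho) := by
  classical
  obtain ⟨B', hB', hB1⟩ : ∃ B' : ℝ, B ≤ B' ∧ 1 ≤ B' := ⟨max B 1, le_max_left _ _, le_max_right _ _⟩
  obtain ⟨L', hL', hL0⟩ : ∃ L' : ℝ, Lam ≤ L' ∧ 0 ≤ L' :=
    ⟨max Lam 0, le_max_left _ _, le_max_right _ _⟩
  obtain ⟨C, hC, hC0⟩ : ∃ C : ℝ, Real.log (2 * B' ^ 2) - rho0 ≤ C ∧ 0 ≤ C :=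
    ⟨max _ 0, le_max_left _ _, le_max_right _ _⟩
  obtain ⟨G, hG⟩ : ∃ G : ℝ, G = 2 * N * (C + L') := ⟨_, rfl⟩
  obtain ⟨δ, hδ, hδG⟩ : ∃ δ : ℝ, 0 < δ ∧ 2 * B' * δ ≤ Real.exp (rho0 - G) :=
    ⟨Real.exp (rho0 - G) / (2 * B'), by positivity, le_of_eq (by field_simp)⟩
  obtain ⟨t, -, htf, htc⟩ :=
    (isCompact_closedBall (0 : Fin N → ℂ × ℂ) B').finite_cover_balls (half_pos hδ)
  refine ⟨htf.toFinset.card + 1, fun rho hrho α _ z U hz hw => ?_⟩
  have hz' : ∀ i ∈ U, ∀ a, ‖(z i a).1‖ ≤ B' ∧ ‖(z i a).2‖ ≤ B' :=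
    fun i hi a => ⟨(hz i hi a).1.trans hB', (hz i hi a).2.trans hB'⟩
  have hcol : ∀ i, ∃ c : Fin N → ℂ × ℂ, i ∈ U → c ∈ htf.toFinset ∧ dist (z i) c < δ / 2 := by
    intro i
    by_cases hi : i ∈ U
    · have h1 : z i ∈ Metric.closedBall (0 : Fin N → ℂ × ℂ) B' := by
        rw [mem_closedBall_zero_iff, pi_norm_le_iff_of_nonneg (by linarith)]
        intro a
        rw [Prod.norm_def]
        exact max_le (hz' i hi a).1 (hz' i hi a).2
      have h2 := htc h1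
      rw [Set.mem_iUnion₂] at h2
      obtain ⟨c, hc, h3⟩ := h2
      exact ⟨c, fun _ => ⟨htf.mem_toFinset.2 hc, Metric.mem_ball.1 h3⟩⟩
    · exact ⟨0, fun h => absurd h hi⟩
  choose col hcol using hcol
  obtain ⟨Z, hZ, hcard, hey⟩ := exists_fibre U col htf.toFinset fun i hi => (hcol i hi).1
  refine ⟨Z, hZ, hcard, fun Y hY hY2 a => ?_⟩
  refine le_trans (mul_le_mul_of_nonneg_right hL' (by positivity))
    (pattern_energy hN a Y hY2 _ hC0 hL0 (fun i hi j hj hij => ?_) (fun i hi j hj hij hab => ?_))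
  · have hiU := hZ (hY hi)
    have hjU := hZ (hY hj)
    have h1 : 0 < ‖(z i (a i)).1 * (z j (a j)).2 - (z i (a i)).2 * (z j (a j)).1‖ :=
      norm_pos_iff.2 (hw i hiU j hjU hij _ _)
    have h2 : ‖(z i (a i)).1 * (z j (a j)).2 - (z i (a i)).2 * (z j (a j)).1‖ ≤ 2 * B' ^ 2 := by
      refine (norm_sub_le _ _).trans ?_
      rw [norm_mul, norm_mul]
      have a1 := mul_le_mul (hz' i hiU (a i)).1 (hz' j hjU (a j)).2 (norm_nonneg _) (by linarith)
      have a2 := mul_le_mul (hz' i hiU (a i)).2 (hz' j hjU (a j)).1 (norm_nonneg _) (by linarith)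
      nlinarith
    have h3 := Real.log_le_log h1 h2
    linarith
  · have hiU := hZ (hY hi)
    have hjU := hZ (hY hj)
    have h1 : 0 < ‖(z i (a i)).1 * (z j (a j)).2 - (z i (a i)).2 * (z j (a j)).1‖ :=
      norm_pos_iff.2 (hw i hiU j hjU hij _ _)
    have hd : dist (z i) (z j) < δ := by
      have d1 := (hcol i hiU).2
      have d2 := (hcol j hjU).2
      rw [hey i (hY hi) j (hY hj)] at d1
      have := dist_triangle_right (z i) (z j) (col j)
      linarith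
    have hd2 : dist (z i (a i)) (z j (a j)) ≤ δ := by
      rw [← hab]
      exact (dist_le_pi_dist (z i) (z j) (a i)).trans hd.le
    rw [Prod.dist_eq] at hd2
    have hd3 : ‖(z j (a j)).1 - (z i (a i)).1‖ ≤ δ := by
      rw [← dist_eq_norm, dist_comm]
      exact (le_max_left _ _).trans hd2
    have hd4 : ‖(z j (a j)).2 - (z i (a i)).2‖ ≤ δ := by
      rw [← dist_eq_norm, dist_comm]
      exact (le_max_right _ _).trans hd2
    have h2 : ‖(z i (a i)).1 * (z j (a j)).2 - (z i (a i)).2 * (z j (a j)).1‖ ≤ 2 * B' * δ := by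
      have e1 : (z i (a i)).1 * (z j (a j)).2 - (z i (a i)).2 * (z j (a j)).1 =
          (z i (a i)).1 * ((z j (a j)).2 - (z i (a i)).2) -
            (z i (a i)).2 * ((z j (a j)).1 - (z i (a i)).1) := by ring
      rw [e1]
      refine (norm_sub_le _ _).trans ?_
      rw [norm_mul, norm_mul]
      have a1 := mul_le_mul (hz' i hiU (a i)).1 hd4 (norm_nonneg _) (by linarith)
      have a2 := mul_le_mul (hz' i hiU (a i)).2 hd3 (norm_nonneg _) (by linarith)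
      nlinarith
    have h3 := Real.log_le_log h1 (h2.trans hδG)
    rw [Real.log_exp, hG] at h3
    linarith

end Pool.Agent.RI.DenGrid

namespace Pool.Agent.RI

open Polynomial Pool.Agent.RDF

/-- Over `ℂ`, for `λ ≤ lam1`: one cell of a grid. -/
theorem gridDen (d N : ℕ) (hd : 2 ≤ d) (Λ lam1 : ℝ) : ∃ T0 B : ℕ, ∀ (F G : ℂ[X])
    (_hF : F.natDegree ≤ d) (_hG : G.natDegree ≤ d) (_hR : resultant F G d d ≠ 0)
    (_hred : Red (NormedField.toAbsoluteValue ℂ) d F G),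
    -Real.log (NormedField.toAbsoluteValue ℂ (resultant F G d d)) ≤ lam1 →
    ∀ (α : Type) [DecidableEq α] (z : α → Fin N → ℂ × ℂ) (U : Finset α),
    (∀ i ∈ U, ∀ a, PV d F G (z i a)) →
    (∀ i ∈ U, ∀ j ∈ U, i ≠ j → ∀ a b, wedge (z i a) (z j b) ≠ 0) →
    ∃ Z ⊆ U, U.card ≤ B * Z.card ∧ ∀ Y ⊆ Z, T0 ≤ Y.card →
      ∀ a : α → Fin N, Λ * (Y.card : ℝ) ^ 2 ≤ ∑ i ∈ Y, ∑ j ∈ Y.erase i,
        gg (NormedField.toAbsoluteValue ℂ) d F G (z i (a i)) (z j (a j)) := by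
  classical
  rcases Nat.eq_zero_or_pos N with rfl | hN
  · refine ⟨0, 1, fun F G _ _ _ _ _ α _ z U _ _ => ⟨U, subset_rfl, by simp, fun Y _ _ a => ?_⟩⟩
    rcases Y.eq_empty_or_nonempty with rfl | ⟨i, hi⟩
    · simp
    · exact (a i).elim0
  obtain ⟨C, hC, hb⟩ := bounds d hd
  have hd2 : (2 : ℝ) ≤ d := by exact_mod_cast hd
  have hd1 : (0 : ℝ) < (d : ℝ) - 1 := by linarith
  have hdd : (0 : ℝ) < (d : ℝ) * ((d : ℝ) - 1) := mul_pos (by linarith) hd1
  obtain ⟨K, hK⟩ := DenGrid.grid N hN (Real.exp ((max lam1 0 + C) / ((d : ℝ) - 1)))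
    (-C / ((d : ℝ) * ((d : ℝ) - 1))) Λ
  refine ⟨2 * N, K, fun F G hF hG hR hred hl α _ z U hz hw => ?_⟩
  obtain ⟨b1, b2, -⟩ := hb (NormedField.toAbsoluteValue ℂ) F G hF hG hR hred.leF hred.leG
  have hrho : -C / ((d : ℝ) * ((d : ℝ) - 1)) ≤
      -Real.log (NormedField.toAbsoluteValue ℂ (resultant F G d d)) / ((d : ℝ) * ((d : ℝ) - 1)) :=
    div_le_div_of_nonneg_right b1 hdd.le
  have hB : ∀ i ∈ U, ∀ a, ‖(z i a).1‖ ≤ Real.exp ((max lam1 0 + C) / ((d : ℝ) - 1)) ∧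
      ‖(z i a).2‖ ≤ Real.exp ((max lam1 0 + C) / ((d : ℝ) - 1)) := by
    intro i hi a
    have h1 := (b2 (z i a) (hz i hi a)).2
    have h2 : (max (-Real.log (NormedField.toAbsoluteValue ℂ (resultant F G d d))) 0 + C) /
        ((d : ℝ) - 1) ≤ (max lam1 0 + C) / ((d : ℝ) - 1) :=
      div_le_div_of_nonneg_right (add_le_add (max_le_max hl le_rfl) le_rfl) hd1.le
    have h0 : 0 < nrm (NormedField.toAbsoluteValue ℂ) (z i a) := nrm_pos _ (hz i hi a).1
    have h3 : nrm (NormedField.toAbsoluteValue ℂ) (z i a) ≤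
        Real.exp ((max lam1 0 + C) / ((d : ℝ) - 1)) := by
      rw [← Real.log_le_iff_le_exp h0]
      exact h1.trans h2
    exact ⟨(le_max_left _ _).trans h3, (le_max_right _ _).trans h3⟩
  have hwe : ∀ x y : ℂ × ℂ, wedge x y = x.1 * y.2 - x.2 * y.1 := fun x y => by
    rw [wedge]; ring
  obtain ⟨Z, hZ, hc, he⟩ := hK _ hrho α z U hB fun i hi j hj hij a b => by
    rw [← hwe]
    exact hw i hi j hj hij a b
  refine ⟨Z, hZ, hc, fun Y hY hY2 a => ?_⟩
  refine (he Y hY hY2 a).trans (le_of_eq ?_)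
  refine Finset.sum_congr rfl fun i _ => Finset.sum_congr rfl fun j _ => ?_
  have hab : ∀ w : ℂ, NormedField.toAbsoluteValue ℂ w = ‖w‖ := fun w => rfl
  rw [gg, hwe]
  simp only [hab]
  ring

end Pool.Agent.RI
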