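import Pool.Agent.RI.SExc
import Pool.Agent.RI.Den
import Pool.Agent.RI.DenGrid

set_option autoImplicit false

/-!
# The exceptional places, keeping the gain: density form
-/

namespace Pool.Agent.RI

open Polynomial
open Pool.Agent.RDF (lift wedge)

namespace SDenAux

/-- The energies of a reduced conjugate. -/
theorem sum_gg {L : Type} [NormedField L] (d : ℕ) (F G F' G' : L[X]) (f : L × L → L × L)
    (h2 : ∀ x y, wedge x y ≠ 0 → wedge (f x) (f y) ≠ 0 ∧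
      gg (NormedField.toAbsoluteValue L) d F' G' (f x) (f y) =
        gg (NormedField.toAbsoluteValue L) d F G x y) {N : ℕ} {α : Type} [DecidableEq α]
    (z : α → Fin N → L × L) (U : Finset α)
    (hw : ∀ i ∈ U, ∀ j ∈ U, i ≠ j → ∀ a b, wedge (z i a) (z j b) ≠ 0) (Y : Finset α)
    (hY : Y ⊆ U) (a : α → Fin N) :
    ∑ i ∈ Y, ∑ j ∈ Y.erase i,
      gg (NormedField.toAbsoluteValue L) d F' G' (f (z i (a i))) (f (z j (a j))) =
    ∑ i ∈ Y, ∑ j ∈ Y.erase i,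
      gg (NormedField.toAbsoluteValue L) d F G (z i (a i)) (z j (a j)) := by
  refine Finset.sum_congr rfl fun i hi => Finset.sum_congr rfl fun j hj => ?_
  exact (h2 _ _ (hw i (hY hi) j (hY (Finset.mem_of_mem_erase hj))
    (Finset.ne_of_mem_erase hj).symm _ _)).2

/-- The energy in terms of the logarithms of the wedges. -/
theorem sum_log {L : Type} [NormedField L] (d : ℕ) (F G : L[X]) {N : ℕ} {α : Type}
    [DecidableEq α] (z : α → Fin N → L × L) (Y : Finset α) (a : α → Fin N) :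
    ∑ i ∈ Y, ∑ j ∈ Y.erase i,
      gg (NormedField.toAbsoluteValue L) d F G (z i (a i)) (z j (a j)) =
    (Y.card * (Y.card - 1) : ℝ) * (-Real.log ‖resultant F G d d‖ / (d * (d - 1))) -
      ∑ i ∈ Y, ∑ j ∈ Y.erase i, Real.log ‖wedge (z i (a i)) (z j (a j))‖ := by
  rw [← card_pairs, ← Finset.sum_sub_distrib]
  refine Finset.sum_congr rfl fun i _ => ?_
  rw [← Finset.sum_sub_distrib]
  refine Finset.sum_congr rfl fun j _ => ?_
  rw [gg_norm]
  ring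

end SDenAux

open SDenAux

/-- The gain at an exceptional place, density form. -/
theorem den_exc (d N : ℕ) (hd : 2 ≤ d) (_hN : 1 ≤ N) : ∃ (c C₀ : ℝ) (T₀ : ℕ), 0 < c ∧ 0 ≤ C₀ ∧
    ∀ q : ℕ, ∃ B : ℕ, ∀ (Om : Type) [NormedField Om] [IsAlgClosed Om],
    ∀ F G : Om[X], F.natDegree ≤ d → G.natDegree ≤ d → resultant F G d d ≠ 0 →
    ∀ l : ℝ, (∀ r ∈ resSet d F G, l ≤ r) →
    ∀ (α : Type) [DecidableEq α] (z : α → Fin N → Om × Om) (U : Finset α),
    (∀ i ∈ U, ∀ a, PreV d F G (z i a)) →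
    (∀ i ∈ U, ∀ j ∈ U, i ≠ j → ∀ a b, wedge (z i a) (z j b) ≠ 0) →
    ∃ Z ⊆ U, U.card ≤ B * Z.card ∧ ∀ Y ⊆ Z, Z.card ≤ q * Y.card → T₀ ≤ Y.card →
      ∀ a : α → Fin N,
      ∑ i ∈ Y, ∑ j ∈ Y.erase i, Real.log ‖wedge (z i (a i)) (z j (a j))‖ ≤
        (Y.card * (Y.card - 1) : ℝ) * (-Real.log ‖resultant F G d d‖ / (d * (d - 1))) +
          (C₀ - c * l) * (Y.card : ℝ) ^ 2 := by
  obtain ⟨c, hc, lam0, T0, hden⟩ := den d N hd
  obtain ⟨C, hC, hge⟩ := g_ge d hd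
  refine ⟨c, (2 + c) * max lam0 0 + C, T0, hc, by positivity, fun q => ?_⟩
  obtain ⟨B, hB⟩ := hden q
  refine ⟨max B 1, fun Om _ _ F G hF hG hR l hl0 α _ z U hz hw => ?_⟩
  obtain ⟨F', G', hF', hG', hR', hr, f, h0, h1, h2⟩ := exists_datS d hd F G hF hG hR
  set D : Dat d := Dat.mk Om (NormedField.toAbsoluteValue Om) F' G' hF' hG' hR' hr with hD
  have hlD : l ≤ D.lam := hl0 _ h0
  by_cases hl : max lam0 0 ≤ D.lam
  · obtain ⟨Z, hZU, hZc, hZ⟩ := hB D ((le_max_left _ _).trans hl) α (fun i a => f (z i a)) U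
      (fun i hi a => h1 _ (hz i hi a)) (fun i hi j hj hij a b => (h2 _ _ (hw i hi j hj hij a b)).1)
    refine ⟨Z, hZU, hZc.trans (Nat.mul_le_mul_right _ (le_max_left _ _)),
      fun Y hYZ hYq hYT a => ?_⟩
    have h3 : c * D.lam * (Y.card : ℝ) ^ 2 ≤ ∑ i ∈ Y, ∑ j ∈ Y.erase i,
        gg (NormedField.toAbsoluteValue Om) d F' G' (f (z i (a i))) (f (z j (a j))) :=
      hZ Y hYZ hYq hYT a
    rw [sum_gg d F G F' G' f h2 z U hw Y (hYZ.trans hZU) a, sum_log] at h3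
    have h5 : 0 ≤ (2 + c) * max lam0 0 + C := by positivity
    have h6 : c * l ≤ c * D.lam := mul_le_mul_of_nonneg_left hlD hc.le
    have h7 : (c * l - ((2 + c) * max lam0 0 + C)) * (Y.card : ℝ) ^ 2 ≤
        c * D.lam * (Y.card : ℝ) ^ 2 :=
      mul_le_mul_of_nonneg_right (by linarith) (by positivity)
    linarith
  · rw [not_le] at hl
    refine ⟨U, Finset.Subset.refl U, ?_, fun Y hYU _ _ a => ?_⟩
    · calc U.card = 1 * U.card := (one_mul _).symm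
        _ ≤ max B 1 * U.card := Nat.mul_le_mul_right _ (le_max_right _ _)
    have h7 : c * l ≤ c * max lam0 0 := mul_le_mul_of_nonneg_left (hlD.trans hl.le) hc.le
    have h8 : -(2 * max lam0 0 + C) * (Y.card : ℝ) ^ 2 ≤ ∑ i ∈ Y, ∑ j ∈ Y.erase i,
        gg (NormedField.toAbsoluteValue Om) d F' G' (f (z i (a i))) (f (z j (a j))) := by
      refine pair_sum_ge Y _ (by positivity) fun i hi j hj _ => ?_
      have h3 := hge D _ _ (h1 _ (hz i (hYU hi) (a i))) (h1 _ (hz j (hYU hj) (a j)))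
      refine le_trans ?_ h3
      have h4 : max D.lam 0 ≤ max lam0 0 := max_le hl.le (le_max_right _ _)
      linarith
    rw [sum_gg d F G F' G' f h2 z U hw Y hYU a, sum_log] at h8
    have h9 : (c * l - ((2 + c) * max lam0 0 + C)) * (Y.card : ℝ) ^ 2 ≤
        -(2 * max lam0 0 + C) * (Y.card : ℝ) ^ 2 :=
      mul_le_mul_of_nonneg_right (by linarith) (by positivity)
    linarith

/-- The gain over `ℂ`, density form. -/
theorem den_cplx (d N : ℕ) (hd : 2 ≤ d) (_hN : 1 ≤ N) : ∃ c : ℝ, 0 < c ∧ ∀ Lam : ℝ,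
    ∃ T₀ : ℕ, ∀ q : ℕ, ∃ B : ℕ, ∀ F G : ℂ[X], F.natDegree ≤ d → G.natDegree ≤ d →
    resultant F G d d ≠ 0 →
    ∀ (α : Type) [DecidableEq α] (z : α → Fin N → ℂ × ℂ) (U : Finset α),
    (∀ i ∈ U, ∀ a, PreV d F G (z i a)) →
    (∀ i ∈ U, ∀ j ∈ U, i ≠ j → ∀ a b, wedge (z i a) (z j b) ≠ 0) →
    ∃ Z ⊆ U, U.card ≤ B * Z.card ∧ ∀ Y ⊆ Z, Z.card ≤ q * Y.card → T₀ ≤ Y.card →
      ∀ a : α → Fin N,
      ∑ i ∈ Y, ∑ j ∈ Y.erase i, Real.log ‖wedge (z i (a i)) (z j (a j))‖ ≤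
        (Y.card * (Y.card - 1) : ℝ) * (-Real.log ‖resultant F G d d‖ / (d * (d - 1))) -
          (Lam + c * lamC d F G) * (Y.card : ℝ) ^ 2 := by
  obtain ⟨c, hc, lam0, T0, hden⟩ := den d N hd
  refine ⟨c / 2, half_pos hc, fun Λ => ?_⟩
  obtain ⟨l1, hl1⟩ : ∃ l1 : ℝ, l1 = max (max lam0 0) (2 * Λ / c) := ⟨_, rfl⟩
  have hl10 : 0 ≤ l1 := by rw [hl1]; exact (le_max_right _ _).trans (le_max_left _ _)
  have hl1a : lam0 ≤ l1 := by rw [hl1]; exact (le_max_left _ _).trans (le_max_left _ _)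
  have hl1b : 2 * Λ / c ≤ l1 := by rw [hl1]; exact le_max_right _ _
  obtain ⟨T1, B1, hgrid⟩ := gridDen d N hd (c / 2 * l1 + Λ) l1
  refine ⟨max T0 T1, fun q => ?_⟩
  obtain ⟨B, hB⟩ := hden q
  refine ⟨max B B1, fun F G hF hG hR α _ z U hz hw => ?_⟩
  obtain ⟨F', G', hF', hG', hR', hr, f, h0, h1, h2⟩ := exists_datS d hd F G hF hG hR
  set D : Dat d := Dat.mk ℂ (NormedField.toAbsoluteValue ℂ) F' G' hF' hG' hR' hr with hD
  have hlD : lamC d F G ≤ max 0 D.lam := lamC_le d F G h0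
  by_cases hl : l1 ≤ D.lam
  · obtain ⟨Z, hZU, hZc, hZ⟩ := hB D (hl1a.trans hl) α (fun i a => f (z i a)) U
      (fun i hi a => h1 _ (hz i hi a)) (fun i hi j hj hij a b => (h2 _ _ (hw i hi j hj hij a b)).1)
    refine ⟨Z, hZU, hZc.trans (Nat.mul_le_mul_right _ (le_max_left _ _)),
      fun Y hYZ hYq hYT a => ?_⟩
    have h3 : c * D.lam * (Y.card : ℝ) ^ 2 ≤ ∑ i ∈ Y, ∑ j ∈ Y.erase i,
        gg (NormedField.toAbsoluteValue ℂ) d F' G' (f (z i (a i))) (f (z j (a j))) :=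
      hZ Y hYZ hYq ((le_max_left _ _).trans hYT) a
    rw [sum_gg d F G F' G' f h2 z U hw Y (hYZ.trans hZU) a, sum_log] at h3
    have h4 : 2 * Λ ≤ c * D.lam := by
      have h5 := hl1b.trans hl
      rw [div_le_iff₀ hc] at h5
      linarith
    have h6 : c / 2 * lamC d F G ≤ c / 2 * D.lam :=
      mul_le_mul_of_nonneg_left (hlD.trans (max_le (hl10.trans hl) le_rfl)) (half_pos hc).le
    have h7 : (Λ + c / 2 * lamC d F G) * (Y.card : ℝ) ^ 2 ≤ c * D.lam * (Y.card : ℝ) ^ 2 :=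
      mul_le_mul_of_nonneg_right (by linarith) (by positivity)
    linarith
  · rw [not_le] at hl
    obtain ⟨Z, hZU, hZc, hZ⟩ := hgrid F' G' hF' hG' hR' hr hl.le α (fun i a => f (z i a)) U
      (fun i hi a => h1 _ (hz i hi a)) (fun i hi j hj hij a b => (h2 _ _ (hw i hi j hj hij a b)).1)
    refine ⟨Z, hZU, hZc.trans (Nat.mul_le_mul_right _ (le_max_right _ _)),
      fun Y hYZ _ hYT a => ?_⟩
    have h3 : (c / 2 * l1 + Λ) * (Y.card : ℝ) ^ 2 ≤ ∑ i ∈ Y, ∑ j ∈ Y.erase i,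
        gg (NormedField.toAbsoluteValue ℂ) d F' G' (f (z i (a i))) (f (z j (a j))) :=
      hZ Y hYZ ((le_max_right _ _).trans hYT) a
    rw [sum_gg d F G F' G' f h2 z U hw Y (hYZ.trans hZU) a, sum_log] at h3
    have h6 : c / 2 * lamC d F G ≤ c / 2 * l1 :=
      mul_le_mul_of_nonneg_left (hlD.trans (max_le hl10 hl.le)) (half_pos hc).le
    have h7 : (Λ + c / 2 * lamC d F G) * (Y.card : ℝ) ^ 2 ≤
        (c / 2 * l1 + Λ) * (Y.card : ℝ) ^ 2 :=
      mul_le_mul_of_nonneg_right (by linarith) (by positivity)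
    linarith

end Pool.Agent.RI
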