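import Mathlib
import Pool.Agent.RI.SDefs
import Pool.Agent.RI.GIneq

set_option autoImplicit false

/-!
# The sum of the local bounds, with the minimal resultants
-/

namespace Pool.Agent.RI

open Polynomial NumberField IsDedekindDomain Pool.Agent.GPoly

variable {K : Type} [Field K] [NumberField K]

/-- The sum over the places of the local bounds. `lam v`, `mu σ` are the minimal resultants. -/
theorem ineq_RS (r : 𝓞 K) (hr : r ≠ 0) (d k s : ℕ) (J : Ideal (𝓞 K))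
    (hJ : J ∣ Ideal.span {r}) (S : Finset (HeightOneSpectrum (𝓞 K))) (hS : S.card ≤ s)
    (lam : HeightOneSpectrum (𝓞 K) → ℝ) (mu : (K →+* ℂ) → ℝ)
    (hlam : ∀ v, 0 ≤ lam v) (hlam' : ∀ v, lam v ≤ wt v r) (hmu : ∀ σ, 0 ≤ mu σ)
    (hhyp : ∑ᶠ (v : HeightOneSpectrum (𝓞 K)) (_ : v ∉ S ∧ ¬ v.asIdeal ∣ J), lam v ≤
      k * (1 + ∑ v ∈ S, lam v + ∑ σ, mu σ + Real.log (Ideal.absNorm J)))
    (L : Type) [Field L] [Algebra K L] [FiniteDimensional K L] {T : ℕ} (x : Fin T → Fin T → L)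
    (hx : ∀ i j, i ≠ j → x i j ≠ 0) (c g C₀ Lam : ℝ) (hC₀ : 0 ≤ C₀) (hc : 0 ≤ c) (hg : 0 ≤ g)
    (hT : g * k ≤ c * (T : ℝ) ^ 2)
    (h1 : ∀ v : HeightOneSpectrum (𝓞 K), v.asIdeal ∣ J →
      ∑ i, ∑ j ∈ Finset.univ.erase i, Real.log (av v (Algebra.norm K (x i j))) ≤
        Module.finrank K L * ((T * (T - 1) : ℝ) * (wt v r / (d * (d - 1))) -
          2 * c * (T : ℝ) ^ 2 * wt v r))
    (h2 : ∀ v ∈ S, ¬ v.asIdeal ∣ J →
      ∑ i, ∑ j ∈ Finset.univ.erase i, Real.log (av v (Algebra.norm K (x i j))) ≤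
        Module.finrank K L * ((T * (T - 1) : ℝ) * (wt v r / (d * (d - 1))) +
          (C₀ - c * lam v) * (T : ℝ) ^ 2))
    (h3 : ∀ v : HeightOneSpectrum (𝓞 K),
      ∑ i, ∑ j ∈ Finset.univ.erase i, Real.log (av v (Algebra.norm K (x i j))) ≤
        Module.finrank K L * ((T * (T - 1) : ℝ) * (wt v r / (d * (d - 1))) + g * lam v))
    (h4 : ∀ σ : K →+* ℂ,
      ∑ i, ∑ j ∈ Finset.univ.erase i, Real.log ‖σ (Algebra.norm K (x i j))‖ ≤
        Module.finrank K L * ((T * (T - 1) : ℝ) *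
          (-Real.log ‖σ (algebraMap (𝓞 K) K r)‖ / (d * (d - 1))) -
          (Lam + c * mu σ) * (T : ℝ) ^ 2)) :
    Lam * (T : ℝ) ^ 2 ≤ (s * C₀ + c) * (T : ℝ) ^ 2 ∨ Lam ≤ 0 := by
  classical
  have hspan : Ideal.span {r} ≠ 0 := by
    rw [Ne, Ideal.zero_eq_bot, Ideal.span_singleton_eq_bot]
    exact hr
  have hfinP := Ideal.finite_factors hspan
  obtain ⟨P₀, hP₀, hSP⟩ : ∃ P₀ : Finset (HeightOneSpectrum (𝓞 K)),
      (∀ v : HeightOneSpectrum (𝓞 K), r ∈ v.asIdeal → v ∈ P₀) ∧ S ⊆ P₀ := by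
    refine ⟨hfinP.toFinset ∪ S, fun v hv => ?_, Finset.subset_union_right⟩
    rw [Finset.mem_union, Set.Finite.mem_toFinset]
    exact Or.inl (Ideal.dvd_span_singleton.2 hv)
  have hw0 : ∀ v, 0 ≤ wt v r := fun v => wt_nonneg v _
  have hout : ∀ v : HeightOneSpectrum (𝓞 K), r ∉ v.asIdeal → wt v r = 0 :=
    fun v hv => wt_eq_zero v _ hv
  have hlout : ∀ v : HeightOneSpectrum (𝓞 K), r ∉ v.asIdeal → lam v = 0 := fun v hv =>
    le_antisymm (by have := hlam' v; rwa [hout v hv] at this) (hlam v)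
  have hJr : ∀ v : HeightOneSpectrum (𝓞 K), v.asIdeal ∣ J → r ∈ v.asIdeal := fun v hv =>
    Ideal.dvd_span_singleton.1 (hv.trans hJ)
  have hT0 : (0 : ℝ) ≤ T := Nat.cast_nonneg _
  have hT2 : (0 : ℝ) ≤ (T : ℝ) ^ 2 := by positivity
  -- the local bounds
  set e : HeightOneSpectrum (𝓞 K) → ℝ := fun v =>
    if v.asIdeal ∣ J then -(2 * c * (T : ℝ) ^ 2 * wt v r)
    else if v ∈ S then (C₀ - c * lam v) * (T : ℝ) ^ 2 else g * lam v with he
  set u : HeightOneSpectrum (𝓞 K) → ℝ := fun v =>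
    (T * (T - 1) : ℝ) * (wt v r / (d * (d - 1))) + e v with hu
  have hfu : ∀ v, ∑ i, ∑ j ∈ Finset.univ.erase i,
      Real.log (av v (Algebra.norm K (x i j))) ≤ Module.finrank K L * u v := by
    intro v
    simp only [hu, he]
    split_ifs with c1 c2
    · have := h1 v c1
      rwa [sub_eq_add_neg] at this
    · exact h2 v c2 c1
    · exact h3 v
  have hu0 : ∀ v, v ∉ P₀ → u v ≤ 0 := by
    intro v hv
    have h6 : r ∉ v.asIdeal := fun h => hv (hP₀ v h)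
    have h7 : ¬ v.asIdeal ∣ J := fun h => h6 (hJr v h)
    have h8 : v ∉ S := fun h => hv (hSP h)
    simp only [hu, he, hout v h6, hlout v h6]
    rw [if_neg h7, if_neg h8]
    simp
  have hglob := globD L x hx P₀ u (fun σ => (T * (T - 1) : ℝ) *
    (-Real.log ‖σ (algebraMap (𝓞 K) K r)‖ / (d * (d - 1))) - (Lam + c * mu σ) * (T : ℝ) ^ 2)
    hfu hu0 h4
  have hpf := sum_res r hr P₀ hP₀
  have hmusum : ∑ σ : K →+* ℂ, (Lam + c * mu σ) * (T : ℝ) ^ 2 =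
      Module.finrank ℚ K * (Lam * (T : ℝ) ^ 2) + c * (T : ℝ) ^ 2 * ∑ σ, mu σ := by
    rw [← Finset.sum_mul, Finset.sum_add_distrib, Finset.sum_const, Finset.card_univ,
      NumberField.Embeddings.card, nsmul_eq_mul, ← Finset.mul_sum]
    ring
  rw [Finset.sum_add_distrib, ← Finset.mul_sum, Finset.sum_sub_distrib, ← Finset.mul_sum,
    ← Finset.sum_div, ← Finset.sum_div, hmusum] at hglob
  have hsig : ∑ σ : K →+* ℂ, -Real.log ‖σ (algebraMap (𝓞 K) K r)‖ =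
      -∑ v ∈ P₀, wt v r := by
    have : ∑ v ∈ P₀, wt v r = ∑ v ∈ P₀, -Real.log (av v (algebraMap (𝓞 K) K r)) := rfl
    rw [this]
    linarith
  rw [hsig] at hglob
  -- the error terms
  have k1 : Real.log (Ideal.absNorm J) ≤ ∑ v ∈ P₀ with v.asIdeal ∣ J, wt v r :=
    log_absNorm_le _ hr J hJ P₀ hP₀
  have k2 : ∑ᶠ (v : HeightOneSpectrum (𝓞 K)) (_ : v ∉ S ∧ ¬ v.asIdeal ∣ J), lam v =
      ∑ v ∈ P₀ with (v ∉ S ∧ ¬ v.asIdeal ∣ J), lam v := by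
    refine finsum_cond_eq_sum_of_cond_iff _ ?_
    intro v hv
    rw [Finset.mem_filter]
    refine ⟨fun h => ⟨?_, h⟩, fun h => h.2⟩
    by_contra h9
    exact hv (hlout v fun h => h9 (hP₀ v h))
  rw [k2] at hhyp
  have k3 : ∑ v ∈ P₀, e v = -(2 * c * (T : ℝ) ^ 2 * ∑ v ∈ P₀ with v.asIdeal ∣ J, wt v r) +
      ∑ v ∈ P₀ with (v ∈ S ∧ ¬ v.asIdeal ∣ J), (C₀ - c * lam v) * (T : ℝ) ^ 2 +
      g * ∑ v ∈ P₀ with (v ∉ S ∧ ¬ v.asIdeal ∣ J), lam v := by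
    rw [Finset.mul_sum, Finset.mul_sum, Finset.sum_filter, Finset.sum_filter, Finset.sum_filter,
      ← Finset.sum_neg_distrib, ← Finset.sum_add_distrib, ← Finset.sum_add_distrib]
    refine Finset.sum_congr rfl fun v _ => ?_
    simp only [he]
    by_cases c1 : v.asIdeal ∣ J
    · simp [c1]
    · by_cases c2 : v ∈ S
      · simp [c1, c2]
      · simp [c1, c2]
  have k4 : ∑ v ∈ P₀ with (v ∈ S ∧ ¬ v.asIdeal ∣ J), (C₀ - c * lam v) * (T : ℝ) ^ 2 ≤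
      s * (C₀ * (T : ℝ) ^ 2) -
        c * (T : ℝ) ^ 2 * ∑ v ∈ P₀ with (v ∈ S ∧ ¬ v.asIdeal ∣ J), lam v := by
    have h5 : ∑ v ∈ P₀ with (v ∈ S ∧ ¬ v.asIdeal ∣ J), (C₀ - c * lam v) * (T : ℝ) ^ 2 =
        (P₀.filter fun v => v ∈ S ∧ ¬ v.asIdeal ∣ J).card * (C₀ * (T : ℝ) ^ 2) -
          c * (T : ℝ) ^ 2 * ∑ v ∈ P₀ with (v ∈ S ∧ ¬ v.asIdeal ∣ J), lam v := by
      rw [← nsmul_eq_mul, ← Finset.sum_const, Finset.mul_sum, ← Finset.sum_sub_distrib]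
      refine Finset.sum_congr rfl fun v _ => ?_
      ring
    have h6 : ((P₀.filter fun v => v ∈ S ∧ ¬ v.asIdeal ∣ J).card : ℝ) ≤ s := by
      have h7 : (P₀.filter fun v => v ∈ S ∧ ¬ v.asIdeal ∣ J).card ≤ s := by
        refine le_trans (Finset.card_le_card fun v hv => ?_) hS
        exact (Finset.mem_filter.1 hv).2.1
      exact_mod_cast h7
    rw [h5]
    have h8 := mul_le_mul_of_nonneg_right h6 (show 0 ≤ C₀ * (T : ℝ) ^ 2 by positivity)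
    linarith
  -- the minimal resultants of the primes of `S`
  have k5 : ∑ v ∈ S, lam v ≤ ∑ v ∈ P₀ with (v ∈ S ∧ ¬ v.asIdeal ∣ J), lam v +
      ∑ v ∈ P₀ with v.asIdeal ∣ J, wt v r := by
    have h5 : ∑ v ∈ S, lam v = ∑ v ∈ P₀, if v ∈ S then lam v else 0 := by
      rw [← Finset.sum_filter]
      refine Finset.sum_congr ?_ fun _ _ => rfl
      ext v
      rw [Finset.mem_filter]
      exact ⟨fun h => ⟨hSP h, h⟩, fun h => h.2⟩
    rw [h5, Finset.sum_filter, Finset.sum_filter, ← Finset.sum_add_distrib]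
    refine Finset.sum_le_sum fun v _ => ?_
    have h6 := hlam v
    have h7 := hlam' v
    have h8 := hw0 v
    by_cases c1 : v.asIdeal ∣ J
    · by_cases c2 : v ∈ S
      · simp [c1, c2, h7]
      · simp [c1, c2, h8]
    · by_cases c2 : v ∈ S
      · simp [c1, c2]
      · simp [c1, c2]
  have hk0 : (0 : ℝ) ≤ k := Nat.cast_nonneg _
  have hX0 : 0 ≤ 1 + ∑ v ∈ S, lam v + ∑ σ, mu σ + Real.log (Ideal.absNorm J) := by
    have h5 : 0 ≤ ∑ v ∈ S, lam v := Finset.sum_nonneg fun v _ => hlam v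
    have h6 : 0 ≤ ∑ σ, mu σ := Finset.sum_nonneg fun σ _ => hmu σ
    have h7 : 0 ≤ Real.log (Ideal.absNorm J) := Real.log_natCast_nonneg _
    linarith
  have k6 : g * ∑ v ∈ P₀ with (v ∉ S ∧ ¬ v.asIdeal ∣ J), lam v ≤ c * (T : ℝ) ^ 2 *
      (1 + ∑ v ∈ S, lam v + ∑ σ, mu σ + Real.log (Ideal.absNorm J)) := by
    calc g * ∑ v ∈ P₀ with (v ∉ S ∧ ¬ v.asIdeal ∣ J), lam v
        ≤ g * (k * (1 + ∑ v ∈ S, lam v + ∑ σ, mu σ + Real.log (Ideal.absNorm J))) :=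
          mul_le_mul_of_nonneg_left hhyp hg
      _ = (g * k) * (1 + ∑ v ∈ S, lam v + ∑ σ, mu σ + Real.log (Ideal.absNorm J)) := by ring
      _ ≤ _ := mul_le_mul_of_nonneg_right hT hX0
  have hcT : 0 ≤ c * (T : ℝ) ^ 2 := mul_nonneg hc hT2
  have k7 : c * (T : ℝ) ^ 2 * (∑ v ∈ S, lam v + Real.log (Ideal.absNorm J)) ≤
      c * (T : ℝ) ^ 2 * (∑ v ∈ P₀ with (v ∈ S ∧ ¬ v.asIdeal ∣ J), lam v +
        2 * ∑ v ∈ P₀ with v.asIdeal ∣ J, wt v r) :=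
    mul_le_mul_of_nonneg_left (by linarith) hcT
  have k9 : (T * (T - 1) : ℝ) * ((∑ v ∈ P₀, wt v r) / (d * (d - 1))) +
      (T * (T - 1) : ℝ) * (-(∑ v ∈ P₀, wt v r) / (d * (d - 1))) = 0 := by ring
  have hfinal : Module.finrank ℚ K * (Lam * (T : ℝ) ^ 2) ≤ (s * C₀ + c) * (T : ℝ) ^ 2 := by
    rw [k3] at hglob
    nlinarith
  rcases le_or_gt Lam 0 with h0 | h0
  · exact Or.inr h0
  · left
    have hn : (1 : ℝ) ≤ Module.finrank ℚ K := by
      exact_mod_cast (Module.finrank_pos : 0 < Module.finrank ℚ K)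
    have h5 : 0 ≤ Lam * (T : ℝ) ^ 2 := by positivity
    nlinarith

end Pool.Agent.RI
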