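import Mathlib

set_option autoImplicit false

/-!
# The choice of the number of points
-/

namespace Pool.Agent.RI

theorem exists_log_le (ε : ℝ) (hε : 0 < ε) : ∃ x₀ : ℝ, 1 ≤ x₀ ∧ ∀ x : ℝ, x₀ ≤ x →
    Real.log x ≤ ε * x := by
  have h1 := Real.isLittleO_log_id_atTop.bound hε
  obtain ⟨a, ha⟩ := Filter.eventually_atTop.1 h1
  refine ⟨max a 1, le_max_right _ _, fun x hx => ?_⟩
  have h2 := ha x ((le_max_left _ _).trans hx)
  have h3 : 1 ≤ x := (le_max_right _ _).trans hx
  rw [id, Real.norm_of_nonneg (Real.log_nonneg h3), Real.norm_of_nonneg (by linarith)] at h2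
  exact h2

/-- From `C₁ * k * log (k + 1)` points on, everything works. -/
theorem exists_C₁ (d : ℕ) (hd : 2 ≤ d) (c κ A : ℝ) (hc : 0 < c) (hκ : 0 < κ) (T₁ : ℕ) :
    ∃ C₁ : ℝ, 0 < C₁ ∧ ∀ k : ℕ, 1 ≤ k → ∀ m : ℕ,
      C₁ * (k * Real.log (k + 1)) ≤ (d : ℝ) ^ m →
      (T₁ : ℝ) ≤ (d : ℝ) ^ m ∧ 2 * m * (d : ℝ) ^ m * k ≤ c * ((d : ℝ) ^ m) ^ 2 ∧
      κ / 2 * ((d : ℝ) ^ m) ^ 2 ≤ κ * ((d : ℝ) ^ m) ^ 2 - A * (m + 1) * (d : ℝ) ^ m := by
  obtain ⟨x₁, hx₁, h1⟩ := exists_log_le (c / 16) (by positivity)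
  obtain ⟨x₂, hx₂, h2⟩ := exists_log_le (κ / (8 * (|A| + 1))) (by positivity)
  refine ⟨2 * T₁ + x₁ + 16 / c + 2 * x₂ + 8 * |A| / κ, by positivity, fun k hk m hm => ?_⟩
  set T : ℝ := (d : ℝ) ^ m with hT
  have hk1 : (1 : ℝ) ≤ k := by exact_mod_cast hk
  set L : ℝ := Real.log (k + 1) with hL
  have hlog2 : (1 : ℝ) / 2 ≤ Real.log 2 := by
    have := Real.log_two_gt_d9
    linarith
  have hL1 : 1 / 2 ≤ L := hlog2.trans (Real.log_le_log (by norm_num) (by linarith))
  have hkL : 1 / 2 ≤ k * L := by nlinarith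
  have hd2 : (2 : ℝ) ≤ d := by exact_mod_cast hd
  have hT1 : 1 ≤ T := one_le_pow₀ (by linarith)
  have hTpos : 0 < T := by linarith
  have hm2 : (m : ℝ) ≤ 2 * Real.log T := by
    rw [hT, Real.log_pow]
    have h3 : Real.log 2 ≤ Real.log d := Real.log_le_log (by norm_num) hd2
    have h4 : (0 : ℝ) ≤ m := Nat.cast_nonneg m
    nlinarith
  have hq1 : 0 ≤ 16 / c := by positivity
  have hq2 : 0 ≤ 8 * |A| / κ := by positivity
  have hq3 : (0 : ℝ) ≤ T₁ := Nat.cast_nonneg _
  have hsum : ∀ a : ℝ, a ≤ 2 * T₁ + x₁ + 16 / c + 2 * x₂ + 8 * |A| / κ → a * (k * L) ≤ T :=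
    fun a ha => (mul_le_mul_of_nonneg_right ha (by linarith)).trans hm
  have e1 : (T₁ : ℝ) ≤ T := by
    have := hsum (2 * T₁) (by linarith)
    nlinarith
  refine ⟨e1, ?_, ?_⟩
  · set u : ℝ := T / (k * L) with hu
    have hkL0 : 0 < k * L := by linarith
    have hTu : T = u * (k * L) := by rw [hu]; field_simp
    have hu1 : x₁ ≤ u := by
      rw [hu, le_div_iff₀ hkL0]
      exact hsum x₁ (by linarith)
    have hu2 : 16 / c ≤ u := by
      rw [hu, le_div_iff₀ hkL0]
      exact hsum (16 / c) (by linarith)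
    have hu0 : 0 < u := by linarith
    have e2 : Real.log T ≤ c / 16 * u + 2 * L := by
      have e3 : Real.log T = Real.log u + (Real.log k + Real.log L) := by
        rw [hTu, Real.log_mul hu0.ne' hkL0.ne', Real.log_mul (by linarith) (by linarith)]
      have e4 : Real.log k ≤ L := Real.log_le_log (by linarith) (by linarith)
      have e5 : Real.log L ≤ L := (Real.log_le_sub_one_of_pos (by linarith)).trans (by linarith)
      have e6 := h1 u hu1
      linarith
    have e7 : 16 ≤ c * u := by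
      rw [div_le_iff₀ hc] at hu2
      linarith
    have e8 : 2 * m * k ≤ c * T := by
      have f1 : (2 : ℝ) * m * k ≤ 4 * k * Real.log T := by nlinarith
      have f2 : 4 * k * Real.log T ≤ 4 * k * (c / 16 * u + 2 * L) :=
        mul_le_mul_of_nonneg_left e2 (by positivity)
      have f3 : 4 * k * (c / 16 * u + 2 * L) ≤ c * T := by
        rw [hTu]
        have g1 : 4 * (c / 16 * u) ≤ c * u * L / 2 := by
          have : c * u * (1 / 2) ≤ c * u * L := mul_le_mul_of_nonneg_left hL1 (by positivity)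
          linarith
        have g2 : 8 * L ≤ c * u * L / 2 := by
          have : 16 * L ≤ c * u * L := mul_le_mul_of_nonneg_right e7 (by linarith)
          linarith
        have g3 : 4 * (c / 16 * u + 2 * L) ≤ c * u * L := by linarith
        have g4 := mul_le_mul_of_nonneg_left g3 (show (0 : ℝ) ≤ k by linarith)
        calc 4 * k * (c / 16 * u + 2 * L) = k * (4 * (c / 16 * u + 2 * L)) := by ring
          _ ≤ k * (c * u * L) := g4
          _ = c * (u * (k * L)) := by ring
      linarith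
    have := mul_le_mul_of_nonneg_right e8 hTpos.le
    calc 2 * m * T * k = 2 * m * k * T := by ring
      _ ≤ c * T * T := this
      _ = c * T ^ 2 := by ring
  · have e2 : x₂ ≤ T := by
      have := hsum (2 * x₂) (by linarith)
      nlinarith
    have e3 := h2 T e2
    have e4 : 4 * |A| / κ ≤ T := by
      have h := hsum (8 * |A| / κ) (by linarith)
      have : 4 * |A| / κ ≤ 8 * |A| / κ * (k * L) := by
        have h5 : 8 * |A| / κ * (1 / 2) ≤ 8 * |A| / κ * (k * L) :=
          mul_le_mul_of_nonneg_left hkL hq2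
        calc 4 * |A| / κ = 8 * |A| / κ * (1 / 2) := by ring
          _ ≤ _ := h5
      linarith
    have e5 : |A| ≤ κ / 4 * T := by
      rw [div_le_iff₀ hκ] at e4
      linarith
    have e6 : 2 * |A| * Real.log T ≤ κ / 4 * T := by
      have h3 : |A| * Real.log T ≤ |A| * (κ / (8 * (|A| + 1)) * T) :=
        mul_le_mul_of_nonneg_left e3 (abs_nonneg _)
      have h4 : |A| * (κ / (8 * (|A| + 1)) * T) ≤ κ / 8 * T := by
        have h5 : |A| * (κ / (8 * (|A| + 1))) ≤ κ / 8 := by
          have h6 : |A| / (|A| + 1) ≤ 1 := by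
            rw [div_le_one (by positivity)]
            linarith
          calc |A| * (κ / (8 * (|A| + 1))) = κ / 8 * (|A| / (|A| + 1)) := by
                field_simp
            _ ≤ κ / 8 * 1 := mul_le_mul_of_nonneg_left h6 (by positivity)
            _ = κ / 8 := mul_one _
        calc |A| * (κ / (8 * (|A| + 1)) * T) = |A| * (κ / (8 * (|A| + 1))) * T := by ring
          _ ≤ κ / 8 * T := mul_le_mul_of_nonneg_right h5 hTpos.le
      linarith
    have e7 : A * (m + 1) ≤ κ / 2 * T := by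
      have h3 : A * (m + 1) ≤ |A| * (m + 1) :=
        mul_le_mul_of_nonneg_right (le_abs_self A) (by positivity)
      have h4 : |A| * (m : ℝ) ≤ |A| * (2 * Real.log T) :=
        mul_le_mul_of_nonneg_left hm2 (abs_nonneg _)
      linarith
    have := mul_le_mul_of_nonneg_right e7 hTpos.le
    nlinarith

end Pool.Agent.RI
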