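import Mathlib
import Pool.Agent.RI.GLocW
import Pool.Agent.RI.Hmu

set_option autoImplicit false

/-!
# The local bound with the resultant of an integral conjugate
-/

namespace Pool.Agent.RI

open Polynomial Pool.Agent.RDF

namespace SLoc

/-- `log |R'| = log |R| - (d ^ 2 - d) log |det A|` for the conjugate by `A`. -/
theorem log_res_conj {L : Type*} [Field L] [IsAlgClosed L] (abv : AbsoluteValue L ℝ) {d : ℕ}
    (hd : 1 ≤ d) {F G : L[X]} (hF : F.natDegree ≤ d) (hG : G.natDegree ≤ d)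
    (hR : resultant F G d d ≠ 0) (A : Matrix (Fin 2) (Fin 2) L) (hA : A.det ≠ 0) {F' G' : L[X]}
    (hF' : F'.natDegree ≤ d) (hG' : G'.natDegree ≤ d)
    (h : ∀ p, lift d F' G' (act A p) = act A (lift d F G p)) :
    resultant F' G' d d ≠ 0 ∧
    Real.log (abv (resultant F' G' d d)) =
      Real.log (abv (resultant F G d d)) - (d : ℝ) * ((d : ℝ) - 1) * Real.log (abv A.det) := by
  have hres := Hmu.res_conj d hd F G hF hG A hA F' G' hF' hG' h
  have hR' : resultant F' G' d d ≠ 0 := by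
    intro h0
    rw [h0, mul_zero] at hres
    exact (mul_ne_zero (pow_ne_zero d hA) hR) hres.symm
  refine ⟨hR', ?_⟩
  have hD0 : 0 < abv A.det := abv.pos hA
  have h1 := congrArg (fun x => Real.log (abv x)) hres
  simp only [map_mul, map_pow] at h1
  rw [Real.log_mul (pow_ne_zero _ hD0.ne') (abv.pos hR').ne',
    Real.log_mul (pow_ne_zero _ hD0.ne') (abv.pos hR).ne', Real.log_pow, Real.log_pow] at h1
  push_cast at h1
  linear_combination h1

/-- The image of an exact preperiodic vector. -/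
theorem preV_act {L : Type} [Field L] {d : ℕ} {F G F' G' : L[X]}
    (A : Matrix (Fin 2) (Fin 2) L) (hA : A.det ≠ 0)
    (h : ∀ p, lift d F' G' (act A p) = act A (lift d F G p)) {z : L × L} (hz : PreV d F G z) :
    PreV d F' G' (act A z) := by
  obtain ⟨h0, a, b, hab, hz⟩ := hz
  refine ⟨act_ne_zero A hA h0, a, b, hab, ?_⟩
  rw [act_iter A d F G F' G' h, act_iter A d F G F' G' h, hz]

theorem sum_wedge_act {L : Type*} [Field L] (abv : AbsoluteValue L ℝ)
    (A : Matrix (Fin 2) (Fin 2) L) (hA : A.det ≠ 0) {ι : Type*} [Fintype ι] [DecidableEq ι]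
    (z : ι → L × L) (hw : ∀ i j, i ≠ j → wedge (z i) (z j) ≠ 0) :
    ∑ i, ∑ j ∈ Finset.univ.erase i, Real.log (abv (wedge (act A (z i)) (act A (z j)))) =
      (Fintype.card ι * (Fintype.card ι - 1) : ℝ) * Real.log (abv A.det) +
      ∑ i, ∑ j ∈ Finset.univ.erase i, Real.log (abv (wedge (z i) (z j))) := by
  have h1 : ∀ i, ∑ j ∈ Finset.univ.erase i, Real.log (abv (wedge (act A (z i)) (act A (z j)))) =
      ((Fintype.card ι : ℝ) - 1) * Real.log (abv A.det) +
        ∑ j ∈ Finset.univ.erase i, Real.log (abv (wedge (z i) (z j))) := by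
    intro i
    have hc : 1 ≤ Fintype.card ι := Fintype.card_pos_iff.2 ⟨i⟩
    have h2 : ∀ j ∈ Finset.univ.erase i, Real.log (abv (wedge (act A (z i)) (act A (z j)))) =
        Real.log (abv A.det) + Real.log (abv (wedge (z i) (z j))) := by
      intro j hj
      rw [wedge_act, map_mul, Real.log_mul (abv.pos hA).ne'
        (abv.pos (hw i j (Finset.ne_of_mem_erase hj).symm)).ne']
    rw [Finset.sum_congr rfl h2, Finset.sum_add_distrib, Finset.sum_const,
      Finset.card_erase_of_mem (Finset.mem_univ _), Finset.card_univ, nsmul_eq_mul,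
      Nat.cast_sub hc]
    push_cast
    ring
  rw [Finset.sum_congr rfl fun i _ => h1 i, Finset.sum_add_distrib, Finset.sum_const,
    Finset.card_univ, nsmul_eq_mul]
  ring

/-- **(A)**: `∑ log |z_i ∧ z_j| ≤ T (T - 1) (-log |R| / (d (d - 1))) + 2 m T (-log |R'|)`,
`T = d ^ m`, for an integral conjugate with resultant `R'`. -/
theorem gen {E : Type} [Field E] [IsAlgClosed E] (abv : AbsoluteValue E ℝ)
    (hna : IsNonarchimedean abv) {d : ℕ} (hd : 2 ≤ d) {F G : E[X]} (hF : F.natDegree ≤ d)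
    (hG : G.natDegree ≤ d) (hR : resultant F G d d ≠ 0)
    (A : Matrix (Fin 2) (Fin 2) E) (hA : A.det ≠ 0) {F' G' : E[X]}
    (hF' : F'.natDegree ≤ d) (hG' : G'.natDegree ≤ d)
    (h : ∀ p, lift d F' G' (act A p) = act A (lift d F G p))
    (hBF : ∀ i, abv (F'.coeff i) ≤ 1) (hBG : ∀ i, abv (G'.coeff i) ≤ 1)
    (hR1 : abv (resultant F' G' d d) ≤ 1) (m : ℕ) (z : Fin (d ^ m) → E × E)
    (hz : ∀ i, PreV d F G (z i)) (hw : ∀ i j, i ≠ j → wedge (z i) (z j) ≠ 0) :
    ∑ i, ∑ j ∈ Finset.univ.erase i, Real.log (abv (wedge (z i) (z j))) ≤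
      ((d : ℝ) ^ m * ((d : ℝ) ^ m - 1)) *
        (-Real.log (abv (resultant F G d d)) / (d * (d - 1))) +
      2 * m * (d : ℝ) ^ m * (-Real.log (abv (resultant F' G' d d))) := by
  have hd2 : (2 : ℝ) ≤ d := by exact_mod_cast hd
  obtain ⟨hR', hlog⟩ := log_res_conj abv (by omega) hF hG hR A hA hF' hG' h
  have hw' : ∀ i j, i ≠ j → wedge (act A (z i)) (act A (z j)) ≠ 0 := fun i j hij => by
    rw [wedge_act]
    exact mul_ne_zero hA (hw i j hij)
  have hz' : ∀ i, PreV d F' G' (act A (z i)) := fun i => preV_act A hA h (hz i)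
  have h0 := det_mat_ne_zero d m (by omega) F' G' hF' hG' hR' (fun i => act A (z i)) hw'
  have h1 := log_det_le abv hna d m (by omega) F' G' (fun i => act A (z i))
    (fun i k => iter_ne_zero d (by omega) F' G' hF' hG' hR' k (hz' i).1) h0
  have h2 := GLoc.of_det abv hna hd hF' hG' hR' hBF hBG hR1 m (fun i => act A (z i)) hz' hw' 0
    (by linarith)
  rw [sum_wedge_act abv A hA z hw, Fintype.card_fin] at h2
  push_cast at h2
  have h3 : ((d : ℝ) ^ m * ((d : ℝ) ^ m - 1)) *
      (-Real.log (abv (resultant F' G' d d)) / (d * (d - 1))) =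
      ((d : ℝ) ^ m * ((d : ℝ) ^ m - 1)) *
        (-Real.log (abv (resultant F G d d)) / (d * (d - 1))) +
      ((d : ℝ) ^ m * ((d : ℝ) ^ m - 1)) * Real.log (abv A.det) := by
    rw [hlog]
    have hd0 : (d : ℝ) ≠ 0 := by positivity
    have hd1 : (d : ℝ) - 1 ≠ 0 := by
      intro h
      linarith
    field_simp
    ring
  linarith

end SLoc

end Pool.Agent.RI
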