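import Mathlib
import Pool.Agent.RI.SLocA
import Pool.Agent.RI.Pre
import Pool.Agent.RI.Energy

set_option autoImplicit false

/-!
# The resultant of the conjugates of `z ^ d + c`
-/

namespace Pool.Agent.RI

open Polynomial Pool.Agent.RDF

namespace SUni

/-! ### The lift of `z ^ d + c` -/

section ring

variable {R : Type*} [CommRing R]

theorem coeff_uni (d : ℕ) (c : R) (i : ℕ) :
    ((X ^ d + C c : R[X])).coeff i = (if i = d then 1 else 0) + if i = 0 then c else 0 := by
  rw [coeff_add, coeff_X_pow, coeff_C]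

theorem form_uni (d : ℕ) (c : R) (p : R × R) :
    form d (X ^ d + C c) p = p.1 ^ d + c * p.2 ^ d := by
  rw [form]
  simp only [coeff_uni d, add_mul, Finset.sum_add_distrib, ite_mul, one_mul, zero_mul]
  rw [Finset.sum_ite_eq' (Finset.range (d + 1)) d, Finset.sum_ite_eq' (Finset.range (d + 1)) 0]
  simp

theorem form_one (d : ℕ) (p : R × R) : form d (1 : R[X]) p = p.2 ^ d := by
  rw [form]
  simp only [coeff_one, ite_mul, one_mul, zero_mul]
  rw [Finset.sum_ite_eq' (Finset.range (d + 1)) 0]
  simp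

theorem lift_uni (d : ℕ) (c : R) (p : R × R) :
    lift d (X ^ d + C c) 1 p = (p.1 ^ d + c * p.2 ^ d, p.2 ^ d) := by
  rw [lift, form_uni d, form_one]

theorem natDegree_uni (d : ℕ) (c : R) : ((X ^ d + C c : R[X])).natDegree ≤ d :=
  (natDegree_add_le _ _).trans (max_le (natDegree_X_pow_le d) (by simp))

theorem natDegree_one' (d : ℕ) : ((1 : R[X])).natDegree ≤ d := by simp

theorem res_uni (d : ℕ) (hd : 1 ≤ d) (c : R) : resultant (X ^ d + C c : R[X]) 1 d d = 1 := by
  rw [resultant_one_right, coeff_uni d, if_pos rfl, if_neg (by omega), add_zero, one_pow]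

end ring

section field

variable {E : Type} [Field E]

/-- The vectors `(ζ x, 1)`, `x` a fixed point. -/
theorem preV_root (d : ℕ) (hd : 1 ≤ d) (c x z : E) (hx : x ^ d + c = x) (hz : z ^ d = 1) :
    PreV d (X ^ d + C c) 1 ((z * x, 1) : E × E) := by
  have h1 : lift d (X ^ d + C c) 1 ((z * x, 1) : E × E) = (x, 1) := by
    rw [lift_uni d]
    simp [mul_pow, hz, hx]
  have h2 : lift d (X ^ d + C c) 1 ((x, 1) : E × E) = (x, 1) := by
    rw [lift_uni d]
    simp [hx]
  refine ⟨fun h => one_ne_zero (congrArg Prod.snd h), 1, 2, by omega, ?_⟩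
  rw [Function.iterate_succ_apply' _ 1, Function.iterate_one, h1, h2]

theorem exists_fix [IsAlgClosed E] (d : ℕ) (hd : 2 ≤ d) (c : E) : ∃ x : E, x ^ d + c = x := by
  have h1 : (X ^ d + (C c - X) : E[X]).degree = (d : WithBot ℕ) := by
    have h2 : (C c - X : E[X]).degree < ((X ^ d : E[X])).degree := by
      rw [degree_X_pow]
      refine (degree_sub_le _ _).trans_lt (max_lt ?_ ?_)
      · exact degree_C_le.trans_lt (by exact_mod_cast (by omega : 0 < d))
      · rw [degree_X]
        exact_mod_cast (by omega : 1 < d)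
    rw [degree_add_eq_left_of_degree_lt h2, degree_X_pow]
  have h3 : (X ^ d + (C c - X) : E[X]).degree ≠ 0 := by
    rw [h1]
    exact_mod_cast (by omega : d ≠ 0)
  obtain ⟨x, hx⟩ := IsAlgClosed.exists_root _ h3
  refine ⟨x, ?_⟩
  rw [IsRoot, eval_add, eval_pow, eval_X, eval_sub, eval_C, eval_X] at hx
  linear_combination hx

/-- The product of the differences of the roots of unity. -/
theorem prod_sub_root (d : ℕ) (hd : 1 ≤ d) {ζ : E} (hζ : IsPrimitiveRoot ζ d)
    [DecidableEq E] (z : E) (hz : z ∈ nthRootsFinset d (1 : E)) :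
    ∏ w ∈ (nthRootsFinset d (1 : E)).erase z, (z - w) = d * z ^ (d - 1) := by
  have h1 : Lagrange.nodal (nthRootsFinset d (1 : E)) id = X ^ d - 1 := by
    rw [X_pow_sub_one_eq_prod (by omega) hζ, Lagrange.nodal]
    rfl
  have h2 := Lagrange.eval_nodal_derivative_eval_node_eq (v := (id : E → E)) hz
  rw [h1, Lagrange.nodal] at h2
  simp only [id_eq, derivative_sub, derivative_X_pow, derivative_one, sub_zero, eval_mul, eval_C,
    eval_pow, eval_X, eval_prod, eval_sub] at h2
  rw [← h2]

theorem abv_root (abv : AbsoluteValue E ℝ) (d : ℕ) (hd : 1 ≤ d) {z : E} (hz : z ^ d = 1) :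
    abv z = 1 := by
  have h1 : abv z ^ d = 1 := by rw [← map_pow, hz, map_one]
  exact (pow_eq_one_iff_of_nonneg (abv.nonneg z) (by omega)).1 h1

theorem sum_log_root (abv : AbsoluteValue E ℝ) (d : ℕ) (hd : 1 ≤ d) {ζ : E}
    (hζ : IsPrimitiveRoot ζ d) [DecidableEq E] (x : E) (hx : x ≠ 0) :
    ∑ z : nthRootsFinset d (1 : E), ∑ w ∈ Finset.univ.erase z,
      Real.log (abv (wedge ((z.1 * x, 1) : E × E) (w.1 * x, 1))) =
    d * (((d : ℝ) - 1) * Real.log (abv x) + Real.log (abv (d : E))) := by
  have hcard : (nthRootsFinset d (1 : E)).card = d := hζ.card_nthRootsFinset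
  have key : ∀ z : nthRootsFinset d (1 : E), ∑ w ∈ Finset.univ.erase z,
      Real.log (abv (wedge ((z.1 * x, 1) : E × E) (w.1 * x, 1))) =
      ((d : ℝ) - 1) * Real.log (abv x) + Real.log (abv (d : E)) := by
    intro z
    have hzd : z.1 ^ d = 1 := (mem_nthRootsFinset (by omega) _).1 z.2
    have h1 : ∀ w ∈ (Finset.univ : Finset (nthRootsFinset d (1 : E))).erase z,
        Real.log (abv (wedge ((z.1 * x, 1) : E × E) (w.1 * x, 1))) =
        Real.log (abv (z.1 - w.1)) + Real.log (abv x) := by
      intro w hw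
      have hne : z.1 - w.1 ≠ 0 := by
        intro h
        exact Finset.ne_of_mem_erase hw (Subtype.ext (sub_eq_zero.1 h).symm)
      have e : wedge ((z.1 * x, 1) : E × E) (w.1 * x, 1) = (z.1 - w.1) * x := by
        simp only [wedge]; ring
      rw [e, map_mul, Real.log_mul (abv.pos hne).ne' (abv.pos hx).ne']
    rw [Finset.sum_congr rfl h1, Finset.sum_add_distrib, Finset.sum_const,
      Finset.card_erase_of_mem (Finset.mem_univ _), Finset.card_univ, Fintype.card_coe, hcard,
      nsmul_eq_mul, Nat.cast_sub hd]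
    have h2 : ∑ w ∈ (Finset.univ : Finset (nthRootsFinset d (1 : E))).erase z,
        Real.log (abv (z.1 - w.1)) = Real.log (abv (d : E)) := by
      rw [← Real.log_prod]
      · congr 1
        rw [← map_prod]
        have h3 : ∏ w ∈ (Finset.univ : Finset (nthRootsFinset d (1 : E))).erase z, (z.1 - w.1) =
            ∏ w ∈ (nthRootsFinset d (1 : E)).erase z.1, (z.1 - w) := by
          refine Finset.prod_bij (fun w _ => w.1) ?_ ?_ ?_ ?_
          · intro w hw
            exact Finset.mem_erase.2 ⟨fun h => Finset.ne_of_mem_erase hw (Subtype.ext h), w.2⟩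
          · intro a _ b _ h
            exact Subtype.ext h
          · intro w hw
            obtain ⟨h4, h5⟩ := Finset.mem_erase.1 hw
            exact ⟨⟨w, h5⟩, Finset.mem_erase.2 ⟨fun h => h4 (congrArg Subtype.val h),
              Finset.mem_univ _⟩, rfl⟩
          · intro w _
            rfl
        rw [h3, prod_sub_root d hd hζ z.1 z.2, map_mul, map_pow, abv_root abv d hd hzd, one_pow,
          mul_one]
      · intro w hw
        refine (abv.pos ?_).ne'
        intro h
        exact Finset.ne_of_mem_erase hw (Subtype.ext (sub_eq_zero.1 h).symm)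
    rw [h2]
    push_cast
    ring
  rw [Finset.sum_congr rfl fun z _ => key z, Finset.sum_const, Finset.card_univ, Fintype.card_coe,
    hcard, nsmul_eq_mul]

theorem fix_lower (abv : AbsoluteValue E ℝ) (d : ℕ) (hd : 2 ≤ d) (c x : E) (hc : c ≠ 0)
    (hx : x ^ d + c = x) :
    x ≠ 0 ∧ Real.log (abv c) - Real.log 2 ≤ max (d * Real.log (abv x)) 0 := by
  have hx0 : x ≠ 0 := by
    rintro rfl
    rw [zero_pow (by omega), zero_add] at hx
    exact hc hx
  refine ⟨hx0, ?_⟩
  have h1 : abv c ≤ abv x + abv x ^ d := by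
    have e : c = x + -(x ^ d) := by linear_combination hx
    calc abv c = abv (x + -(x ^ d)) := by rw [← e]
      _ ≤ abv x + abv (-(x ^ d)) := abv.add_le _ _
      _ = abv x + abv x ^ d := by rw [abv.map_neg, map_pow]
  have hxp := abv.pos hx0
  have hcp := abv.pos hc
  rcases le_total 1 (abv x) with h | h
  · have h2 : abv x ≤ abv x ^ d := le_self_pow₀ h (by omega)
    have h3 : Real.log (abv c) ≤ Real.log (2 * abv x ^ d) :=
      Real.log_le_log hcp (by linarith)
    rw [Real.log_mul two_ne_zero (pow_ne_zero _ hxp.ne'), Real.log_pow] at h3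
    exact le_trans (by linarith) (le_max_left _ _)
  · have h2 : abv x ^ d ≤ 1 := pow_le_one₀ hxp.le h
    have h3 : Real.log (abv c) ≤ Real.log 2 := Real.log_le_log hcp (by linarith)
    exact le_trans (by linarith) (le_max_right _ _)

end field

/-- **Lower bound**: every conjugate of `z ^ d + c` with coefficients of absolute value at most
`1` has `-log |R| ≥ ((d - 1) / (2 d)) log |c| + (1 / 2) log |d| - κ`. -/
theorem lower (d : ℕ) (hd : 2 ≤ d) : ∃ κ : ℝ, 0 ≤ κ ∧ ∀ (E : Type) [Field E] [IsAlgClosed E]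
    (abv : AbsoluteValue E ℝ) (c : E), (d : E) ≠ 0 →
    ∀ (A : Matrix (Fin 2) (Fin 2) E), A.det ≠ 0 → ∀ F' G' : E[X], F'.natDegree ≤ d →
    G'.natDegree ≤ d → (∀ p, lift d F' G' (act A p) = act A (lift d (X ^ d + C c) 1 p)) →
    (∀ i, abv (F'.coeff i) ≤ 1) → (∀ i, abv (G'.coeff i) ≤ 1) →
    ((d : ℝ) - 1) / (2 * d) * Real.log (abv c) + Real.log (abv (d : E)) / 2 - κ ≤
      -Real.log (abv (resultant F' G' d d)) := by
  obtain ⟨C₀, hC₀, hb⟩ := bounds.{0} d hd
  have hd2 : (2 : ℝ) ≤ d := by exact_mod_cast hd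
  have hld : 0 ≤ Real.log d := Real.log_nonneg (by linarith)
  have hl2 : 0 ≤ Real.log 2 := Real.log_nonneg (by norm_num)
  refine ⟨3 * C₀ + 2 * Real.log d + Real.log 2, by positivity, ?_⟩
  intro E _ _ abv c hdE A hA F' G' hF' hG' h hBF hBG
  classical
  have hR1 : resultant (X ^ d + C c : E[X]) 1 d d = 1 := res_uni d (by omega) c
  have hR0 : resultant (X ^ d + C c : E[X]) 1 d d ≠ 0 := by rw [hR1]; exact one_ne_zero
  obtain ⟨hR', hlog⟩ := SLoc.log_res_conj abv (by omega) (natDegree_uni d c)
    (natDegree_one' d) hR0 A hA hF' hG' h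
  rw [hR1, map_one, Real.log_one] at hlog
  obtain ⟨hb1, hb2, -⟩ := hb abv F' G' hF' hG' hR' hBF hBG
  set lam : ℝ := -Real.log (abv (resultant F' G' d d)) with hlam
  have hdle : Real.log (abv (d : E)) ≤ Real.log d := by
    refine Real.log_le_log (abv.pos hdE) ?_
    have : ∀ n : ℕ, abv (n : E) ≤ n := by
      intro n
      induction n with
      | zero => simp
      | succ n ih =>
        push_cast
        refine (abv.add_le _ _).trans ?_
        rw [map_one]
        linarith
    exact this d
  have hfrac : ((d : ℝ) - 1) / (2 * d) ≤ 1 / 2 := by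
    rw [div_le_div_iff₀ (by positivity) (by norm_num)]
    linarith
  have hfrac0 : 0 ≤ ((d : ℝ) - 1) / (2 * d) := div_nonneg (by linarith) (by positivity)
  rcases eq_or_ne c 0 with rfl | hc
  · rw [map_zero, Real.log_zero, mul_zero]
    linarith
  · obtain ⟨x, hx⟩ := exists_fix d hd c
    obtain ⟨hx0, hx1⟩ := fix_lower abv d hd c x hc hx
    have : NeZero (d : E) := ⟨hdE⟩
    obtain ⟨ζ, hζ⟩ := HasEnoughRootsOfUnity.exists_primitiveRoot E d
    set ι := nthRootsFinset d (1 : E) with hι
    have hcard : Fintype.card ι = d ^ 1 := by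
      rw [Fintype.card_coe, hζ.card_nthRootsFinset, pow_one]
    have hroot : ∀ z : ι, z.1 ^ d = 1 := fun z => (mem_nthRootsFinset (by omega) _).1 z.2
    have hpv : ∀ z : ι, PreV d (X ^ d + C c) 1 ((z.1 * x, 1) : E × E) := fun z =>
      preV_root d (by omega) c x z.1 hx (hroot z)
    have hw : ∀ i j : ι, i ≠ j → wedge ((i.1 * x, 1) : E × E) (j.1 * x, 1) ≠ 0 := by
      intro i j hij h0
      have e : wedge ((i.1 * x, 1) : E × E) (j.1 * x, 1) = (i.1 - j.1) * x := by
        simp only [wedge]; ring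
      rw [e] at h0
      rcases mul_eq_zero.1 h0 with h1 | h1
      · exact hij (Subtype.ext (sub_eq_zero.1 h1))
      · exact hx0 h1
    have hpv' : ∀ z : ι, PreV d F' G' (act A (z.1 * x, 1)) := fun z =>
      SLoc.preV_act A hA h (hpv z)
    have hw' : ∀ i j : ι, i ≠ j → wedge (act A (i.1 * x, 1)) (act A (j.1 * x, 1)) ≠ 0 := by
      intro i j hij
      rw [wedge_act]
      exact mul_ne_zero hA (hw i j hij)
    have hen := energy abv d 1 hd F' G' hF' hG' hR' hcard (fun z : ι => act A (z.1 * x, 1))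
      (fun z => (hpv' z).1) hw' ((max lam 0 + C₀) / (d - 1)) (fun z k =>
        (hb2 _ (GLoc.preV_iter (by omega) hF' hG' hR' (hpv' z) k)).2)
    have hsum := SLoc.sum_wedge_act abv A hA (fun z : ι => ((z.1 * x, 1) : E × E)) hw
    rw [sum_log_root abv d (by omega) hζ x hx0, hcard] at hsum
    have hdd : (d : ℝ) - 1 ≠ 0 := by
      intro h
      linarith
    have hd0 : (d : ℝ) ≠ 0 := by positivity
    have hsplit : ∑ i : ι, ∑ j ∈ Finset.univ.erase i,
        (-Real.log (abv (wedge (act A (i.1 * x, 1)) (act A (j.1 * x, 1)))) -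
          Real.log (abv (resultant F' G' d d)) / (d * ((d : ℝ) - 1))) =
        -(d * (((d : ℝ) - 1) * Real.log (abv x) + Real.log (abv (d : E)))) := by
      have h3 : ∀ i : ι, ∑ j ∈ Finset.univ.erase i,
          (-Real.log (abv (wedge (act A (i.1 * x, 1)) (act A (j.1 * x, 1)))) -
            Real.log (abv (resultant F' G' d d)) / (d * ((d : ℝ) - 1))) =
          -∑ j ∈ Finset.univ.erase i,
            Real.log (abv (wedge (act A (i.1 * x, 1)) (act A (j.1 * x, 1)))) -
          Real.log (abv (resultant F' G' d d)) / d := by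
        intro i
        rw [Finset.sum_sub_distrib, Finset.sum_neg_distrib, Finset.sum_const,
          Finset.card_erase_of_mem (Finset.mem_univ _), Finset.card_univ, hcard, pow_one,
          nsmul_eq_mul, Nat.cast_sub (by omega)]
        push_cast
        field_simp
      rw [Finset.sum_congr rfl fun i _ => h3 i, Finset.sum_sub_distrib, Finset.sum_neg_distrib,
        hsum, Finset.sum_const, Finset.card_univ, hcard, pow_one, nsmul_eq_mul, hlog]
      field_simp
      ring
    rw [hsplit] at hen
    have e1 : (1 : ℕ) * (d : ℝ) ^ 1 / d = 1 := by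
      rw [Nat.cast_one, one_mul, pow_one, div_self hd0]
    rw [e1, pow_one] at hen
    have e2 : 2 * (d : ℝ) * ((1 : ℕ) : ℝ) * (((d : ℝ) - 1) * ((max lam 0 + C₀) / (d - 1))) =
        2 * d * (max lam 0 + C₀) := by
      rw [mul_div_cancel₀ _ hdd]
      push_cast
      ring
    rw [e2] at hen
    have hm : max lam 0 ≤ lam + C₀ := max_le (by linarith) (by linarith)
    have hm0 : 0 ≤ max lam 0 := le_max_right _ _
    have h5 : ((d : ℝ) - 1) / 2 * Real.log (abv x) + Real.log (abv (d : E)) / 2 ≤
        max lam 0 + C₀ + Real.log d + C₀ := by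
      have h6 : (2 * d : ℝ) * (((d : ℝ) - 1) / 2 * Real.log (abv x) + Real.log (abv (d : E)) / 2) ≤
          (2 * d : ℝ) * (max lam 0 + C₀ + Real.log d + C₀) := by
        have h7 : C₀ ≤ (2 * d : ℝ) * C₀ := by nlinarith
        linarith
      exact le_of_mul_le_mul_left h6 (by positivity)
    rcases le_total (d * Real.log (abv x)) 0 with h8 | h8
    · rw [max_eq_right h8] at hx1
      have h9 : ((d : ℝ) - 1) / (2 * d) * Real.log (abv c) ≤ Real.log 2 := by
        rcases le_total (Real.log (abv c)) 0 with h10 | h10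
        · exact (mul_nonpos_of_nonneg_of_nonpos hfrac0 h10).trans hl2
        · nlinarith
      linarith
    · rw [max_eq_left h8] at hx1
      have h9 : ((d : ℝ) - 1) / (2 * d) * (Real.log (abv c) - Real.log 2) ≤
          ((d : ℝ) - 1) / (2 * d) * (d * Real.log (abv x)) :=
        mul_le_mul_of_nonneg_left hx1 hfrac0
      have h10 : ((d : ℝ) - 1) / (2 * d) * (d * Real.log (abv x)) =
          ((d : ℝ) - 1) / 2 * Real.log (abv x) := by
        field_simp
      have h11 : ((d : ℝ) - 1) / (2 * d) * Real.log 2 ≤ Real.log 2 := by nlinarith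
      linarith

/-- **Upper bound**: some conjugate of `z ^ d + c` has coefficients of absolute value at most `1`
and `-log |R| ≤ (d - 1) log⁺ |c|`. -/
theorem upper (d : ℕ) (hd : 1 ≤ d) (E : Type) [Field E] [IsAlgClosed E]
    (abv : AbsoluteValue E ℝ) (c : E) :
    ∃ A : Matrix (Fin 2) (Fin 2) E, A.det ≠ 0 ∧ ∃ F' G' : E[X], F'.natDegree ≤ d ∧
      G'.natDegree ≤ d ∧ resultant F' G' d d ≠ 0 ∧
      (∀ p, lift d F' G' (act A p) = act A (lift d (X ^ d + C c) 1 p)) ∧
      (∀ i, abv (F'.coeff i) ≤ 1) ∧ (∀ i, abv (G'.coeff i) ≤ 1) ∧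
      -Real.log (abv (resultant F' G' d d)) ≤ ((d : ℝ) - 1) * max (Real.log (abv c)) 0 := by
  have hd1 : (1 : ℝ) ≤ d := by exact_mod_cast hd
  have hcoeff : ∀ (a : E) (i : ℕ), abv a ≤ 1 → abv ((X ^ d + C a : E[X]).coeff i) ≤ 1 := by
    intro a i ha
    rw [coeff_uni]
    by_cases h1 : i = d
    · rw [if_pos h1, if_neg (by omega), add_zero, map_one]
    · rw [if_neg h1, zero_add]
      split_ifs
      · exact ha
      · rw [map_zero]
        exact zero_le_one
  rcases le_total (abv c) 1 with hc | hc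
  · refine ⟨1, by rw [Matrix.det_one]; exact one_ne_zero, X ^ d + C c, 1,
      natDegree_uni d c, natDegree_one' d, by rw [res_uni d hd]; exact one_ne_zero, fun p => ?_,
      fun i => hcoeff c i hc, fun i => ?_, ?_⟩
    · rw [act_one, act_one]
    · rw [coeff_one]
      split_ifs
      · rw [map_one]
      · rw [map_zero]
        exact zero_le_one
    · rw [res_uni d hd, map_one, Real.log_one, neg_zero]
      exact mul_nonneg (by linarith) (le_max_right _ _)
  · obtain ⟨t, ht⟩ := IsAlgClosed.exists_pow_nat_eq c (n := d) (by omega)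
    have hc0 : c ≠ 0 := by
      rintro rfl
      rw [map_zero] at hc
      linarith
    have ht0 : t ≠ 0 := by
      rintro rfl
      rw [zero_pow (by omega)] at ht
      exact hc0 ht.symm
    have htabs : 1 ≤ abv t := by
      by_contra hlt
      rw [not_le] at hlt
      have : abv c < 1 := by
        rw [← ht, map_pow]
        exact pow_lt_one₀ (abv.nonneg t) hlt (by omega)
      linarith
    have hti : abv (t⁻¹ ^ (d - 1)) ≤ 1 := by
      rw [map_pow, map_inv₀]
      exact pow_le_one₀ (inv_nonneg.2 (abv.nonneg t)) (inv_le_one_of_one_le₀ htabs)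
    have hres : resultant (X ^ d + C 1 : E[X]) (C (t⁻¹ ^ (d - 1))) d d = (t⁻¹ ^ (d - 1)) ^ d := by
      rw [resultant_C_right, coeff_uni, if_pos rfl, if_neg (by omega), add_zero, one_pow, one_mul]
    refine ⟨!![1, 0; 0, t], by rw [Matrix.det_fin_two_of]; simpa using ht0,
      X ^ d + C 1, C (t⁻¹ ^ (d - 1)), natDegree_uni d 1, by rw [natDegree_C]; omega,
      by rw [hres]; exact pow_ne_zero _ (pow_ne_zero _ (inv_ne_zero ht0)), fun p => ?_,
      fun i => hcoeff 1 i (by rw [map_one]), fun i => ?_, ?_⟩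
    · have h1 : form d (C (t⁻¹ ^ (d - 1))) (act !![1, 0; 0, t] p) = t * p.2 ^ d := by
        have e : (C (t⁻¹ ^ (d - 1)) : E[X]) = C (t⁻¹ ^ (d - 1)) * 1 := by rw [mul_one]
        rw [e, form_C_mul, form_one]
        simp only [act, Matrix.of_apply, Matrix.cons_val', Matrix.cons_val_zero,
          Matrix.cons_val_one, Matrix.cons_val_fin_one, zero_mul, zero_add]
        rw [mul_pow, ← mul_assoc]
        congr 1
        obtain ⟨n, rfl⟩ : ∃ n, d = n + 1 := ⟨d - 1, by omega⟩
        rw [Nat.add_sub_cancel, _root_.pow_succ t n, ← mul_assoc, ← mul_pow, inv_mul_cancel₀ ht0,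
          one_pow, one_mul]
      have h2 : form d (X ^ d + C 1) (act !![1, 0; 0, t] p) = p.1 ^ d + c * p.2 ^ d := by
        rw [form_uni d, ← ht]
        simp only [act, Matrix.of_apply, Matrix.cons_val', Matrix.cons_val_zero,
          Matrix.cons_val_one, Matrix.cons_val_fin_one, zero_mul, one_mul, add_zero, zero_add]
        rw [mul_pow]
      rw [lift, h1, h2, lift_uni d]
      simp [act]
    · rw [coeff_C]
      split_ifs
      · exact hti
      · rw [map_zero]
        exact zero_le_one
    · rw [hres, map_pow, map_pow, map_inv₀, Real.log_pow, Real.log_pow, Real.log_inv, ← ht,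
        map_pow, Real.log_pow, Nat.cast_sub hd]
      have h3 : 0 ≤ Real.log (abv t) := Real.log_nonneg htabs
      rw [max_eq_left (by positivity)]
      push_cast
      apply le_of_eq
      ring

end SUni

end Pool.Agent.RI
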