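import Mathlib
import Pool.Agent.RI.SLam
import Pool.Agent.RI.SUniA

set_option autoImplicit false

/-!
# The minimal resultant of `z ^ d + a / b`
-/

namespace Pool.Agent.RI

open Polynomial
open Pool.Agent.RDF (lift wedge form)

/-- The lift `(b X ^ d + a, b)` of `z ^ d + a / b`. -/
theorem uni_res {E : Type} [Field E] (d : ℕ) (hd : 1 ≤ d) (a b : E) :
    resultant (C b * X ^ d + C a : E[X]) (C b) d d = b ^ (2 * d) ∨
      resultant (C b * X ^ d + C a : E[X]) (C b) d d = -b ^ (2 * d) := by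
  left
  rw [resultant_C_right, coeff_add, coeff_C_mul, coeff_X_pow, if_pos rfl, coeff_C,
    if_neg (by omega), add_zero, mul_one, two_mul, pow_add]

namespace SUni

section

variable {E : Type} [NormedField E]

theorem lift_ab (d : ℕ) (a b : E) (hb : b ≠ 0) (p : E × E) :
    lift d (C b * X ^ d + C a : E[X]) (C b) p = b • lift d (X ^ d + C (a / b)) 1 p := by
  have e1 : (C b * X ^ d + C a : E[X]) = C b * (X ^ d + C (a / b)) := by
    rw [mul_add, ← C_mul, mul_div_cancel₀ a hb]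
  have e2 : (C b : E[X]) = C b * 1 := by rw [mul_one]
  have e3 : lift d (C b * (X ^ d + C (a / b)) : E[X]) (C b * 1) p =
      b • lift d (X ^ d + C (a / b)) 1 p := by
    simp only [lift, RDF.form_C_mul]
    rfl
  rw [e1]
  nth_rewrite 2 [e2]
  exact e3

theorem act_smul_mat (t : E) (A : Matrix (Fin 2) (Fin 2) E) (p : E × E) :
    act (t • A) p = t • act A p := by
  ext
  · simp [act]; ring
  · simp [act]; ring

/-- Conjugation by a scalar: `resSet` of the lift `(b X ^ d + a, b)` is that of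
`(X ^ d + a / b, 1)`. -/
theorem resSet_ab [IsAlgClosed E] (d : ℕ) (hd : 2 ≤ d) (a b : E) (hb : b ≠ 0) :
    resSet d (C b * X ^ d + C a : E[X]) (C b) = resSet d (X ^ d + C (a / b) : E[X]) 1 := by
  obtain ⟨s, hs⟩ := IsAlgClosed.exists_pow_nat_eq b (n := d - 1) (by omega)
  have hs0 : s ≠ 0 := by
    rintro rfl
    rw [zero_pow (by omega)] at hs
    exact hb hs.symm
  obtain ⟨n, rfl⟩ : ∃ n, d = n + 1 := ⟨d - 1, by omega⟩
  rw [Nat.add_sub_cancel] at hs
  ext r
  constructor
  · rintro ⟨F', G', A, hA, hF', hG', h1, h2, h, hr⟩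
    refine ⟨F', G', s⁻¹ • A, ?_, hF', hG', h1, h2, fun p => ?_, hr⟩
    · rw [Matrix.det_smul]
      exact mul_ne_zero (pow_ne_zero _ (inv_ne_zero hs0)) hA
    · rw [act_smul_mat, RDF.lift_smul, h, lift_ab _ _ _ hb, act_smul, act_smul_mat, smul_smul]
      congr 1
      rw [← hs, _root_.pow_succ, mul_assoc, mul_comm s⁻¹, ← mul_assoc, ← mul_pow,
        inv_mul_cancel₀ hs0, one_pow, one_mul]
  · rintro ⟨F', G', A, hA, hF', hG', h1, h2, h, hr⟩
    refine ⟨F', G', s • A, ?_, hF', hG', h1, h2, fun p => ?_, hr⟩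
    · rw [Matrix.det_smul]
      exact mul_ne_zero (pow_ne_zero _ hs0) hA
    · rw [act_smul_mat, RDF.lift_smul, h, lift_ab _ _ _ hb, act_smul, act_smul_mat, smul_smul]
      congr 1
      rw [← hs, _root_.pow_succ]

end

end SUni

/-- Upper bound of the minimal resultant. -/
theorem uni_upper (d : ℕ) (hd : 2 ≤ d) {E : Type} [NormedField E] [IsAlgClosed E] (a b : E)
    (hb : b ≠ 0) : ∃ r ∈ resSet d (C b * X ^ d + C a : E[X]) (C b),
      r ≤ (d - 1) * Real.log (max 1 ‖a / b‖) := by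
  obtain ⟨A, hA, F', G', hF', hG', -, h, h1, h2, hle⟩ :=
    SUni.upper d (by omega) E (NormedField.toAbsoluteValue E) (a / b)
  refine ⟨-Real.log ‖resultant F' G' d d‖, ?_, ?_⟩
  · rw [SUni.resSet_ab d hd a b hb]
    exact ⟨F', G', A, hA, hF', hG', h1, h2, h, rfl⟩
  · refine (show -Real.log ‖resultant F' G' d d‖ ≤ _ from hle).trans (le_of_eq ?_)
    congr 1
    show max (Real.log ‖a / b‖) 0 = Real.log (max 1 ‖a / b‖)
    rcases le_total 1 ‖a / b‖ with h3 | h3
    · rw [max_eq_right h3, max_eq_left (Real.log_nonneg h3)]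
    · rw [max_eq_left h3, Real.log_one, max_eq_right (Real.log_nonpos (norm_nonneg _) h3)]

end Pool.Agent.RI
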