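import Mathlib
import Pool.Agent.RI.SLam
import Pool.Agent.RI.SUniA
import Pool.Agent.RI.SUniU

set_option autoImplicit false

/-!
# The minimal resultant of `z ^ d + a / b`
-/

namespace Pool.Agent.RI

open Polynomial
open Pool.Agent.RDF (lift wedge form)

/-- Lower bound of the minimal resultant. -/
theorem uni_lower (d : ℕ) (hd : 2 ≤ d) : ∃ C₁ : ℝ, 0 ≤ C₁ ∧ ∀ {E : Type} [NormedField E]
    [IsAlgClosed E] [CharZero E] (a b : E), b ≠ 0 → a ≠ 0 →
    ∀ r ∈ resSet d (C b * X ^ d + C a : E[X]) (C b),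
      Real.log ‖a / b‖ ≤ 2 * d * max r 0 + C₁ + d * max 0 (-Real.log ‖(d : E)‖) := by
  obtain ⟨κ, hκ, hlow⟩ := SUni.lower d hd
  have hd2 : (2 : ℝ) ≤ d := by exact_mod_cast hd
  refine ⟨2 * d * κ, by positivity, ?_⟩
  intro E _ _ _ a b hb _ r hr
  rw [SUni.resSet_ab d hd a b hb] at hr
  obtain ⟨F', G', A, hA, hF', hG', h1, h2, h, rfl⟩ := hr
  have hdE : (d : E) ≠ 0 := by exact_mod_cast (by omega : d ≠ 0)
  have h3 := hlow E (NormedField.toAbsoluteValue E) (a / b) hdE A hA F' G' hF' hG' h h1 h2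
  have h4 : ((d : ℝ) - 1) / (2 * d) * Real.log ‖a / b‖ + Real.log ‖(d : E)‖ / 2 - κ ≤
      -Real.log ‖resultant F' G' d d‖ := h3
  set r := -Real.log ‖resultant F' G' d d‖
  set m := max 0 (-Real.log ‖(d : E)‖) with hm
  have hm0 : 0 ≤ m := le_max_left _ _
  have hm1 : -Real.log ‖(d : E)‖ ≤ m := le_max_right _ _
  have hr0 : 0 ≤ max r 0 := le_max_right _ _
  have hr1 : r ≤ max r 0 := le_max_left _ _
  have hdp : (0 : ℝ) < d := by linarith
  rcases le_total (Real.log ‖a / b‖) 0 with h5 | h5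
  · have : 0 ≤ 2 * d * max r 0 + 2 * d * κ + d * m := by positivity
    linarith
  · have h6 : 1 / (2 * d) * Real.log ‖a / b‖ ≤ ((d : ℝ) - 1) / (2 * d) * Real.log ‖a / b‖ := by
      refine mul_le_mul_of_nonneg_right ?_ h5
      exact div_le_div_of_nonneg_right (by linarith) (by positivity)
    have h7 : 1 / (2 * d) * Real.log ‖a / b‖ ≤ max r 0 + κ + m / 2 := by linarith
    have h8 : (2 * d) * (1 / (2 * d) * Real.log ‖a / b‖) ≤ (2 * d) * (max r 0 + κ + m / 2) :=
      mul_le_mul_of_nonneg_left h7 (by positivity)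
    have h9 : (2 * d) * (1 / (2 * d) * Real.log ‖a / b‖) = Real.log ‖a / b‖ := by
      field_simp
    rw [h9] at h8
    linarith

end Pool.Agent.RI
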