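import Mathlib
import Pool.Agent.RI.SMain
import Pool.Agent.RI.SUniU
import Pool.Agent.RI.SUniL
import Pool.Agent.RI.SGenV
import Pool.Agent.GPoly.PlacesB

set_option autoImplicit false

/-!
# Theorem R* for `z ^ d + c`
-/

namespace Pool.Agent.RI

open Polynomial NumberField IsDedekindDomain Pool.Agent.GPoly
open Pool.Agent.RDF (lift wedge form nrm UU mat Above DefectiveN coeffs)

section

variable {K : Type} [Field K] [NumberField K]

theorem SUni.absNorm_natCast (d : ℕ) :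
    Ideal.absNorm (Ideal.span {(d : 𝓞 K)}) = d ^ Module.finrank ℚ K := by
  rw [Ideal.absNorm_span_singleton]
  have h : (d : 𝓞 K) = algebraMap ℤ (𝓞 K) (d : ℤ) := by simp
  rw [h, Algebra.norm_algebraMap, RingOfIntegers.rank, Int.natAbs_pow, Int.natAbs_natCast]

/-- The norm of a natural number at a prime. -/
theorem neg_log_av_nat_le (d : ℕ) (hd : 1 ≤ d) (v : HeightOneSpectrum (𝓞 K)) :
    -Real.log (av v (d : K)) ≤ Module.finrank ℚ K * Real.log d := by
  classical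
  have hd0 : (d : 𝓞 K) ≠ 0 := by exact_mod_cast (by omega : d ≠ 0)
  have hd0' : (d : K) ≠ 0 := by exact_mod_cast (by omega : d ≠ 0)
  have hcast : algebraMap (𝓞 K) K (d : 𝓞 K) = (d : K) := by simp
  have hnn : ∀ w : HeightOneSpectrum (𝓞 K), 0 ≤ -Real.log (av w (algebraMap (𝓞 K) K (d : 𝓞 K))) := by
    intro w
    have h1 := av_int_le_one w (d : 𝓞 K)
    have h2 := Real.log_nonpos ((av w).nonneg _) h1
    linarith
  set P : Finset (HeightOneSpectrum (𝓞 K)) := insert v (av_support_finite (d : K) hd0').toFinset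
    with hP
  have h := sum_log_av_int (d : 𝓞 K) hd0 P (by
    intro w hw
    rw [hP, Finset.mem_insert, Set.Finite.mem_toFinset]
    right
    have h1 := (av_int_lt_one w (d : 𝓞 K)).2 hw
    rw [hcast] at h1
    exact h1.ne)
  rw [SUni.absNorm_natCast, Nat.cast_pow, Real.log_pow] at h
  rw [← h, ← hcast]
  exact Finset.single_le_sum (f := fun w => -Real.log (av w (algebraMap (𝓞 K) K (d : 𝓞 K))))
    (fun w _ => hnn w) (Finset.mem_insert_self _ _)

/-- The finite part of the height. -/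
theorem sum_log_max_le (c : K) (P : Finset (HeightOneSpectrum (𝓞 K))) :
    ∑ v ∈ P, Real.log (max 1 (av v c)) ≤ Real.log (Height.mulHeight₁ c) := by
  classical
  have hnn : ∀ v : HeightOneSpectrum (𝓞 K), 0 ≤ Real.log (max 1 (av v c)) := fun v =>
    Real.log_nonneg (le_max_left _ _)
  have hfin : {v : HeightOneSpectrum (𝓞 K) | max (av v c) 1 ≠ 1}.Finite := by
    by_cases hc : c = 0
    · subst hc
      have : {v : HeightOneSpectrum (𝓞 K) | max (av v (0 : K)) 1 ≠ 1} = ∅ := by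
        ext v
        simp
      rw [this]
      exact Set.finite_empty
    · refine (av_support_finite c hc).subset fun v hv => ?_
      intro h1
      exact hv (by rw [h1, max_self])
  have h1 : ∏ᶠ v : FinitePlace K, max (v c) 1 = ∏ᶠ v : HeightOneSpectrum (𝓞 K), max (av v c) 1 := by
    rw [← finprod_comp_equiv FinitePlace.equivHeightOneSpectrum.symm]
    refine finprod_congr fun v => ?_
    rw [pb_av_eq]
  set Q : Finset (HeightOneSpectrum (𝓞 K)) := P ∪ hfin.toFinset with hQ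
  have h2 : ∏ᶠ v : HeightOneSpectrum (𝓞 K), max (av v c) 1 = ∏ v ∈ Q, max (av v c) 1 := by
    refine finprod_eq_prod_of_mulSupport_subset _ ?_
    intro v hv
    rw [hQ, Finset.coe_union]
    right
    rw [Finset.mem_coe, Set.Finite.mem_toFinset]
    exact hv
  have h3 : (1 : ℝ) ≤ ∏ v : InfinitePlace K, max (v c) 1 ^ v.mult :=
    Finset.prod_induction _ (fun x : ℝ => 1 ≤ x)
      (fun a b ha hb => one_le_mul_of_one_le_of_one_le ha hb) le_rfl
      fun v _ => one_le_pow₀ (le_max_right _ _)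
  have h4 : ∏ v ∈ Q, max (av v c) 1 ≤ Height.mulHeight₁ c := by
    rw [NumberField.mulHeight₁_eq, h1, h2]
    have h5 : (0 : ℝ) ≤ ∏ v ∈ Q, max (av v c) 1 :=
      Finset.prod_nonneg fun v _ => le_trans zero_le_one (le_max_right _ _)
    exact le_mul_of_one_le_left h5 h3
  have h6 : Real.log (∏ v ∈ Q, max (av v c) 1) = ∑ v ∈ Q, Real.log (max 1 (av v c)) := by
    rw [Real.log_prod fun v _ => (lt_of_lt_of_le one_pos (le_max_right _ _)).ne']
    exact Finset.sum_congr rfl fun v _ => by rw [max_comm]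
  have h7 : 0 < ∏ v ∈ Q, max (av v c) 1 :=
    Finset.prod_pos fun v _ => lt_of_lt_of_le one_pos (le_max_right _ _)
  calc ∑ v ∈ P, Real.log (max 1 (av v c)) ≤ ∑ v ∈ Q, Real.log (max 1 (av v c)) :=
        Finset.sum_le_sum_of_subset_of_nonneg Finset.subset_union_left fun v _ _ => hnn v
    _ = Real.log (∏ v ∈ Q, max (av v c) 1) := h6.symm
    _ ≤ Real.log (Height.mulHeight₁ c) := Real.log_le_log h7 h4


theorem SUni.map_F {R S : Type*} [CommRing R] [CommRing S] (f : R →+* S) (d : ℕ) (a b : R) :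
    (C b * X ^ d + C a : R[X]).map f = C (f b) * X ^ d + C (f a) := by
  simp

/-- The upper bound at a prime. -/
theorem SUni.lamV_upper (d : ℕ) (hd : 2 ≤ d) (a b : 𝓞 K) (hb : b ≠ 0)
    (v : HeightOneSpectrum (𝓞 K)) :
    lamV d (C b * X ^ d + C a) (C b) v ≤ ((d : ℝ) - 1) *
      Real.log (max 1 (av v (algebraMap (𝓞 K) K a / algebraMap (𝓞 K) K b))) := by
  obtain ⟨Om, i1, i2, i3, i4, h⟩ := PQ.exists_Om v
  have e : ∀ x : 𝓞 K, algebraMap (𝓞 K) Om x = algebraMap K Om (algebraMap (𝓞 K) K x) := fun x =>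
    IsScalarTower.algebraMap_apply (𝓞 K) K Om x
  have hb' : algebraMap (𝓞 K) Om b ≠ 0 := by
    rw [e]
    exact (_root_.map_ne_zero _).2 (by simpa using hb)
  obtain ⟨r, hr, hr'⟩ := uni_upper d hd (algebraMap (𝓞 K) Om a) (algebraMap (𝓞 K) Om b) hb'
  have h1 : r ∈ resSet d ((C b * X ^ d + C a : (𝓞 K)[X]).map (algebraMap (𝓞 K) Om))
      ((C b : (𝓞 K)[X]).map (algebraMap (𝓞 K) Om)) := by
    rw [SUni.map_F, Polynomial.map_C]
    exact hr
  refine (lamV_le_of_mem d _ _ v Om h r h1).trans (hr'.trans (le_of_eq ?_))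
  rw [← h, e, e, map_div₀]

/-- The lower bound at a prime. -/
theorem SUni.lamV_lower (d : ℕ) (hd : 2 ≤ d) : ∃ C₁ : ℝ, 0 ≤ C₁ ∧
    (∀ (K : Type) [Field K] [NumberField K] (a b : 𝓞 K), b ≠ 0 → a ≠ 0 →
      ∀ v : HeightOneSpectrum (𝓞 K),
      Real.log (av v (algebraMap (𝓞 K) K a / algebraMap (𝓞 K) K b)) ≤
        2 * d * lamV d (C b * X ^ d + C a) (C b) v + C₁ +
          d * (Module.finrank ℚ K * Real.log d)) ∧
    ∀ (K : Type) [Field K] [NumberField K] (a b : 𝓞 K), b ≠ 0 → a ≠ 0 → ∀ σ : K →+* ℂ,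
      Real.log ‖σ (algebraMap (𝓞 K) K a / algebraMap (𝓞 K) K b)‖ ≤
        2 * d * lamC d ((C b * X ^ d + C a : (𝓞 K)[X]).map (σ.comp (algebraMap (𝓞 K) K)))
          ((C b : (𝓞 K)[X]).map (σ.comp (algebraMap (𝓞 K) K))) + C₁ := by
  obtain ⟨C₁, hC₁, hlow⟩ := uni_lower d hd
  have hd0 : (0 : ℝ) < 2 * d := by
    have : (2 : ℝ) ≤ d := by exact_mod_cast hd
    linarith
  have hd1 : (0 : ℝ) ≤ Real.log d := Real.log_natCast_nonneg d
  refine ⟨C₁, hC₁, ?_, ?_⟩
  · intro K _ _ a b hb ha v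
    have h0 : (Real.log (av v (algebraMap (𝓞 K) K a / algebraMap (𝓞 K) K b)) - C₁ -
        d * (Module.finrank ℚ K * Real.log d)) / (2 * d) ≤
        lamV d (C b * X ^ d + C a) (C b) v := by
      refine le_lamV d _ _ ?_ ?_ v _ ?_
      · refine (natDegree_add_le _ _).trans (max_le ?_ ?_)
        · exact natDegree_C_mul_X_pow_le _ _
        · rw [natDegree_C]
          omega
      · rw [natDegree_C]
        omega
      intro E _ _ _ _ h r hr
      have e : ∀ x : 𝓞 K, algebraMap (𝓞 K) E x = algebraMap K E (algebraMap (𝓞 K) K x) := fun x =>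
        IsScalarTower.algebraMap_apply (𝓞 K) K E x
      have hne : ∀ x : 𝓞 K, x ≠ 0 → algebraMap (𝓞 K) E x ≠ 0 := by
        intro x hx
        rw [e]
        exact (_root_.map_ne_zero _).2 (by simpa using hx)
      have : CharZero E := charZero_of_injective_algebraMap (algebraMap K E).injective
      rw [SUni.map_F, Polynomial.map_C] at hr
      have h1 := hlow (algebraMap (𝓞 K) E a) (algebraMap (𝓞 K) E b) (hne b hb) (hne a ha) r hr
      have h2 : ‖algebraMap (𝓞 K) E a / algebraMap (𝓞 K) E b‖ =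
          av v (algebraMap (𝓞 K) K a / algebraMap (𝓞 K) K b) := by
        rw [e, e, ← map_div₀, h]
      have h3 : ‖(d : E)‖ = av v (d : K) := by
        rw [← h, map_natCast]
      have h4 := resSet_nonneg d _ _ r hr
      rw [h2, h3, max_eq_left h4] at h1
      have h5 : max 0 (-Real.log (av v (d : K))) ≤ Module.finrank ℚ K * Real.log d :=
        max_le (mul_nonneg (Nat.cast_nonneg _) hd1) (neg_log_av_nat_le d (by omega) v)
      have h6 : (d : ℝ) * max 0 (-Real.log (av v (d : K))) ≤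
          d * (Module.finrank ℚ K * Real.log d) := mul_le_mul_of_nonneg_left h5 (Nat.cast_nonneg _)
      rw [div_le_iff₀ hd0]
      linarith
    rw [div_le_iff₀ hd0] at h0
    linarith
  · intro K _ _ a b hb ha σ
    have hne : ∀ x : 𝓞 K, x ≠ 0 → σ (algebraMap (𝓞 K) K x) ≠ 0 := by
      intro x hx
      exact (_root_.map_ne_zero _).2 (by simpa using hx)
    have e1 : (C b * X ^ d + C a : (𝓞 K)[X]).map (σ.comp (algebraMap (𝓞 K) K)) =
        C (σ (algebraMap (𝓞 K) K b)) * X ^ d + C (σ (algebraMap (𝓞 K) K a)) := by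
      rw [SUni.map_F]
      rfl
    have e2 : (C b : (𝓞 K)[X]).map (σ.comp (algebraMap (𝓞 K) K)) =
        C (σ (algebraMap (𝓞 K) K b)) := by
      rw [Polynomial.map_C]
      rfl
    rw [e1, e2, map_div₀]
    set A := σ (algebraMap (𝓞 K) K a) with hA
    set B := σ (algebraMap (𝓞 K) K b) with hB
    have hlog : max 0 (-Real.log ‖(d : ℂ)‖) = 0 := by
      rw [Complex.norm_natCast]
      exact max_eq_left (by linarith)
    have h1 : ∀ r ∈ resSet d (C B * X ^ d + C A : ℂ[X]) (C B),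
        Real.log ‖A / B‖ ≤ 2 * d * max r 0 + C₁ := by
      intro r hr
      have h2 := hlow A B (hne b hb) (hne a ha) r hr
      rw [hlog, mul_zero, add_zero] at h2
      exact h2
    by_cases hx : (Real.log ‖A / B‖ - C₁) / (2 * d) ≤ 0
    · have h3 : 0 ≤ lamC d (C B * X ^ d + C A) (C B) := le_max_left _ _
      rw [div_le_iff₀ hd0] at hx
      have h4 := mul_nonneg hd0.le h3
      linarith
    · rw [not_le] at hx
      obtain ⟨r₀, hr₀, -⟩ := uni_upper d hd A B (hne b hb)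
      have h3 : (Real.log ‖A / B‖ - C₁) / (2 * d) ≤
          sInf (resSet d (C B * X ^ d + C A : ℂ[X]) (C B)) := by
        refine le_csInf ⟨r₀, hr₀⟩ fun r hr => ?_
        have h4 := h1 r hr
        have h5 : (Real.log ‖A / B‖ - C₁) / (2 * d) ≤ max r 0 := by
          rw [div_le_iff₀ hd0]
          linarith
        rcases le_max_iff.1 h5 with h6 | h6
        · exact h6
        · exact absurd h6 (not_le.2 hx)
      have h4 : (Real.log ‖A / B‖ - C₁) / (2 * d) ≤ lamC d (C B * X ^ d + C A) (C B) :=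
        h3.trans (le_max_right _ _)
      rw [div_le_iff₀ hd0] at h4
      linarith

/-- The sum of the minimal resultants at the finite places. -/
theorem SUni.sum_lamV (d : ℕ) (hd : 2 ≤ d) (a b : 𝓞 K) (hb : b ≠ 0)
    (S : Finset (HeightOneSpectrum (𝓞 K))) (J : Ideal (𝓞 K)) :
    ∑ᶠ (v : HeightOneSpectrum (𝓞 K)) (_ : v ∉ S ∧ ¬ v.asIdeal ∣ J),
        lamV d (C b * X ^ d + C a) (C b) v ≤
      ((d : ℝ) - 1) *
        Real.log (Height.mulHeight₁ (algebraMap (𝓞 K) K a / algebraMap (𝓞 K) K b)) := by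
  classical
  set c : K := algebraMap (𝓞 K) K a / algebraMap (𝓞 K) K b with hc
  have hd1 : (0 : ℝ) ≤ (d : ℝ) - 1 := by
    have : (2 : ℝ) ≤ d := by exact_mod_cast hd
    linarith
  have hup : ∀ v : HeightOneSpectrum (𝓞 K), lamV d (C b * X ^ d + C a) (C b) v ≤
      ((d : ℝ) - 1) * Real.log (max 1 (av v c)) := fun v => SUni.lamV_upper d hd a b hb v
  have hfin : {v : HeightOneSpectrum (𝓞 K) | 1 < av v c}.Finite := by
    by_cases hc0 : c = 0
    · have : {v : HeightOneSpectrum (𝓞 K) | 1 < av v c} = ∅ := by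
        ext v
        simp [hc0]
      rw [this]
      exact Set.finite_empty
    · exact (av_support_finite c hc0).subset fun v hv => ne_of_gt hv
  have hsub : Function.support (fun v : HeightOneSpectrum (𝓞 K) =>
      ∑ᶠ (_ : v ∉ S ∧ ¬ v.asIdeal ∣ J), lamV d (C b * X ^ d + C a) (C b) v) ⊆
      (hfin.toFinset : Set (HeightOneSpectrum (𝓞 K))) := by
    intro v hv
    rw [Finset.mem_coe, Set.Finite.mem_toFinset]
    show 1 < av v c
    by_contra h
    rw [not_lt] at h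
    apply hv
    have h1 := hup v
    rw [max_eq_left h, Real.log_one, mul_zero] at h1
    have h2 : lamV d (C b * X ^ d + C a) (C b) v = 0 := le_antisymm h1 (lamV_nonneg d _ _ v)
    show ∑ᶠ (_ : v ∉ S ∧ ¬ v.asIdeal ∣ J), lamV d (C b * X ^ d + C a) (C b) v = 0
    rw [h2]
    exact finsum_zero
  rw [finsum_eq_sum_of_support_subset _ hsub]
  calc ∑ v ∈ hfin.toFinset, ∑ᶠ (_ : v ∉ S ∧ ¬ v.asIdeal ∣ J),
        lamV d (C b * X ^ d + C a) (C b) v
      ≤ ∑ v ∈ hfin.toFinset, ((d : ℝ) - 1) * Real.log (max 1 (av v c)) := by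
        refine Finset.sum_le_sum fun v _ => ?_
        by_cases hp : v ∉ S ∧ ¬ v.asIdeal ∣ J
        · rw [finsum_eq_if, if_pos hp]
          exact hup v
        · rw [finsum_eq_if, if_neg hp]
          exact mul_nonneg hd1 (Real.log_nonneg (le_max_left _ _))
    _ = ((d : ℝ) - 1) * ∑ v ∈ hfin.toFinset, Real.log (max 1 (av v c)) := by
        rw [Finset.mul_sum]
    _ ≤ ((d : ℝ) - 1) * Real.log (Height.mulHeight₁ c) :=
        mul_le_mul_of_nonneg_left (sum_log_max_le c _) hd1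

/-- The hypothesis of Theorem R** for `z ^ d + a / b`. -/
theorem SUni.hyp (D d : ℕ) (hd : 2 ≤ d) : ∃ A : ℕ, 1 ≤ A ∧ ∀ (K : Type) [Field K] [NumberField K],
    Module.finrank ℚ K ≤ D → ∀ a b : 𝓞 K, b ≠ 0 → ∀ c : K,
    c = algebraMap (𝓞 K) K a / algebraMap (𝓞 K) K b → ∀ k : ℕ, 1 ≤ k →
    ((∃ v : HeightOneSpectrum (𝓞 K), Height.mulHeight₁ c ≤ av v c ^ k) ∨
      ∃ σ : K →+* ℂ, Height.mulHeight₁ c ≤ ‖σ c‖ ^ k) →
    ∃ S : Finset (HeightOneSpectrum (𝓞 K)), S.card ≤ 1 ∧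
    ∑ᶠ (v : HeightOneSpectrum (𝓞 K)) (_ : v ∉ S ∧ ¬ v.asIdeal ∣ (⊤ : Ideal (𝓞 K))),
        lamV d (C b * X ^ d + C a) (C b) v ≤
      (A * k : ℕ) * (1 + ∑ v ∈ S, lamV d (C b * X ^ d + C a) (C b) v +
        ∑ σ : K →+* ℂ, lamC d ((C b * X ^ d + C a : (𝓞 K)[X]).map (σ.comp (algebraMap (𝓞 K) K)))
          ((C b : (𝓞 K)[X]).map (σ.comp (algebraMap (𝓞 K) K))) +
        Real.log (Ideal.absNorm (⊤ : Ideal (𝓞 K)))) := by
  obtain ⟨C₁, hC₁, hlowV, hlowC⟩ := SUni.lamV_lower d hd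
  have hd2 : (2 : ℝ) ≤ d := by exact_mod_cast hd
  have hlogd : (0 : ℝ) ≤ Real.log d := Real.log_natCast_nonneg d
  set M : ℝ := ((d : ℝ) - 1) * (2 * d + C₁ + d * (D * Real.log d)) with hM
  have hDl : (0 : ℝ) ≤ d * (D * Real.log d) := by positivity
  have hM0 : 0 ≤ M := mul_nonneg (by linarith) (by linarith)
  refine ⟨⌈M⌉₊ + 1, by omega, ?_⟩
  intro K _ _ hD a b hb c hc k hk hyp
  have hMk : M * k ≤ (((⌈M⌉₊ + 1) * k : ℕ) : ℝ) := by
    push_cast
    refine mul_le_mul_of_nonneg_right ?_ (Nat.cast_nonneg _)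
    have := Nat.le_ceil M
    linarith
  have hDK : (d : ℝ) * (Module.finrank ℚ K * Real.log d) ≤ d * (D * Real.log d) := by
    have : (Module.finrank ℚ K : ℝ) ≤ D := by exact_mod_cast hD
    exact mul_le_mul_of_nonneg_left (mul_le_mul_of_nonneg_right this hlogd) (Nat.cast_nonneg _)
  have hone : Real.log (Ideal.absNorm (⊤ : Ideal (𝓞 K))) = 0 := by
    rw [Ideal.absNorm_top, Nat.cast_one, Real.log_one]
  have hlamV : ∀ v : HeightOneSpectrum (𝓞 K), 0 ≤ lamV d (C b * X ^ d + C a) (C b) v := fun v =>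
    lamV_nonneg d _ _ v
  have hlamC : ∀ σ : K →+* ℂ, 0 ≤ lamC d
      ((C b * X ^ d + C a : (𝓞 K)[X]).map (σ.comp (algebraMap (𝓞 K) K)))
      ((C b : (𝓞 K)[X]).map (σ.comp (algebraMap (𝓞 K) K))) := fun σ => le_max_left _ _
  have hH1 : 1 ≤ Height.mulHeight₁ c := Height.one_le_mulHeight₁ c
  have hsum := fun S => SUni.sum_lamV d hd a b hb S (⊤ : Ideal (𝓞 K))
  rw [← hc] at hsum
  -- the arithmetic
  have arith : ∀ (x l G : ℝ), 0 ≤ l → l ≤ G → Real.log (Height.mulHeight₁ c) ≤ k * x →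
      x ≤ 2 * d * l + C₁ + d * (Module.finrank ℚ K * Real.log d) →
      ((d : ℝ) - 1) * Real.log (Height.mulHeight₁ c) ≤ (((⌈M⌉₊ + 1) * k : ℕ) : ℝ) * (1 + G) := by
    intro x l G hl hG hx1 hx2
    have h1 : ((d : ℝ) - 1) * Real.log (Height.mulHeight₁ c) ≤ ((d : ℝ) - 1) * (k * x) :=
      mul_le_mul_of_nonneg_left hx1 (by linarith)
    have h2 : ((d : ℝ) - 1) * (k * x) = ((d : ℝ) - 1) * k * x := by ring
    have h3 : x ≤ (2 * d + C₁ + d * (D * Real.log d)) * (1 + G) := by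
      have h4 : x ≤ 2 * d * G + C₁ + d * (D * Real.log d) := by
        have : 2 * (d : ℝ) * l ≤ 2 * d * G := mul_le_mul_of_nonneg_left hG (by linarith)
        linarith
      have h5 : 0 ≤ G := hl.trans hG
      nlinarith [mul_nonneg hC₁ h5, mul_nonneg hDl h5]
    have h4 : ((d : ℝ) - 1) * k * x ≤
        ((d : ℝ) - 1) * k * ((2 * d + C₁ + d * (D * Real.log d)) * (1 + G)) :=
      mul_le_mul_of_nonneg_left h3 (mul_nonneg (by linarith) (Nat.cast_nonneg _))
    have h5 : ((d : ℝ) - 1) * k * ((2 * d + C₁ + d * (D * Real.log d)) * (1 + G)) =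
        M * k * (1 + G) := by
      rw [hM]
      ring
    have h6 : M * k * (1 + G) ≤ (((⌈M⌉₊ + 1) * k : ℕ) : ℝ) * (1 + G) :=
      mul_le_mul_of_nonneg_right hMk (by linarith [hl.trans hG])
    linarith
  have hzero : a = 0 → ∀ G : ℝ, 0 ≤ G →
      ((d : ℝ) - 1) * Real.log (Height.mulHeight₁ c) ≤ (((⌈M⌉₊ + 1) * k : ℕ) : ℝ) * (1 + G) := by
    intro ha G hG
    have h1 : c = 0 := by rw [hc, ha]; simp
    rw [h1, Height.mulHeight₁_zero, Real.log_one, mul_zero]
    exact mul_nonneg (Nat.cast_nonneg _) (by linarith)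
  rcases hyp with ⟨v, hv⟩ | ⟨σ, hσ⟩
  · refine ⟨{v}, by simp, (hsum {v}).trans ?_⟩
    rw [hone, add_zero, Finset.sum_singleton, add_assoc]
    have hCs : 0 ≤ ∑ σ : K →+* ℂ, lamC d
        ((C b * X ^ d + C a : (𝓞 K)[X]).map (σ.comp (algebraMap (𝓞 K) K)))
        ((C b : (𝓞 K)[X]).map (σ.comp (algebraMap (𝓞 K) K))) :=
      Finset.sum_nonneg fun σ _ => hlamC σ
    by_cases ha : a = 0
    · exact hzero ha _ (add_nonneg (hlamV v) hCs)
    refine arith (Real.log (av v c)) _ _ (hlamV v) (le_add_of_nonneg_right hCs) ?_ ?_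
    · have h1 := Real.log_le_log (by linarith) hv
      rwa [Real.log_pow] at h1
    · rw [hc]
      exact hlowV K a b hb ha v
  · refine ⟨∅, by simp, (hsum ∅).trans ?_⟩
    rw [hone, add_zero, Finset.sum_empty, add_zero]
    by_cases ha : a = 0
    · exact hzero ha _ (Finset.sum_nonneg fun σ _ => hlamC σ)
    refine arith (Real.log ‖σ c‖) _ _ (hlamC σ)
      (Finset.single_le_sum (f := fun σ : K →+* ℂ => lamC d
        ((C b * X ^ d + C a : (𝓞 K)[X]).map (σ.comp (algebraMap (𝓞 K) K)))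
        ((C b : (𝓞 K)[X]).map (σ.comp (algebraMap (𝓞 K) K)))) (fun σ _ => hlamC σ)
        (Finset.mem_univ σ)) ?_ ?_
    · have h1 := Real.log_le_log (by linarith) hσ
      rwa [Real.log_pow] at h1
    · have h1 := hlowC K a b hb ha σ
      rw [← hc] at h1
      have h2 : 0 ≤ (d : ℝ) * (Module.finrank ℚ K * Real.log d) := by positivity
      linarith

/-- The hypothesis of Theorem R* for `z ^ d + a / b`. -/
theorem uni_hyp (D d : ℕ) (hd : 2 ≤ d) : ∃ A : ℕ, ∀ (K : Type) [Field K] [NumberField K],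
    Module.finrank ℚ K ≤ D → ∀ a b : 𝓞 K, b ≠ 0 → ∀ c : K,
    c = algebraMap (𝓞 K) K a / algebraMap (𝓞 K) K b → ∀ k : ℕ, 1 ≤ k →
    ((∃ v : HeightOneSpectrum (𝓞 K), Height.mulHeight₁ c ≤ av v c ^ k) ∨
      ∃ σ : K →+* ℂ, Height.mulHeight₁ c ≤ ‖σ c‖ ^ k) →
    ∃ S : Finset (HeightOneSpectrum (𝓞 K)), S.card ≤ 1 ∧
    ∑ᶠ (v : HeightOneSpectrum (𝓞 K)) (_ : v ∉ S ∧ ¬ v.asIdeal ∣ (⊤ : Ideal (𝓞 K))),
        lamV d (C b * X ^ d + C a) (C b) v ≤
      (A * k : ℕ) * (1 + ∑ v ∈ S, lamV d (C b * X ^ d + C a) (C b) v +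
        ∑ σ : K →+* ℂ, lamC d ((C b * X ^ d + C a : (𝓞 K)[X]).map (σ.comp (algebraMap (𝓞 K) K)))
          ((C b : (𝓞 K)[X]).map (σ.comp (algebraMap (𝓞 K) K))) +
        Real.log (Ideal.absNorm (⊤ : Ideal (𝓞 K)))) := by
  obtain ⟨A, -, hA⟩ := SUni.hyp D d hd
  exact ⟨A, hA⟩

end

/-- The orbit of `(x, 1)` under the lift of `z ^ d + a / b`. -/
theorem SUni.iter_lift {L : Type} [Field L] (d : ℕ) (a b : L) (hb : b ≠ 0) (x : L) (n : ℕ) :
    ∃ s : L, (lift d (C b * X ^ d + C a) (C b))^[n] (x, 1) =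
      s • ((fun z => z ^ d + a / b)^[n] x, (1 : L)) := by
  have hdeg : (C b * X ^ d + C a : L[X]).natDegree ≤ d := by
    refine (natDegree_add_le _ _).trans (max_le (natDegree_C_mul_X_pow_le _ _) ?_)
    rw [natDegree_C]
    omega
  have h1 : ∀ y : L, lift d (C b * X ^ d + C a) (C b) (y, 1) = b • (y ^ d + a / b, (1 : L)) := by
    intro y
    rw [lift, RDF.form_one d _ hdeg, RDF.form_one d _ (by rw [natDegree_C]; omega)]
    ext
    · simp only [eval_add, eval_mul, eval_pow, eval_X, eval_C, Prod.smul_fst, smul_eq_mul]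
      field_simp
    · simp
  induction n with
  | zero => exact ⟨1, by simp⟩
  | succ n ih =>
    obtain ⟨s, hs⟩ := ih
    refine ⟨s ^ d * b, ?_⟩
    rw [Function.iterate_succ_apply', hs, RDF.lift_smul, h1, smul_smul,
      Function.iterate_succ_apply']

/-- THEOREM R** for `z ^ d + c`. -/
theorem main_uni (D N d : ℕ) (hd : 2 ≤ d) : ∃ C : ℝ, 0 ≤ C ∧
    ∀ (K : Type) [Field K] [NumberField K], Module.finrank ℚ K ≤ D → ∀ c : K,
    ∀ k : ℕ, 1 ≤ k →
    ((∃ v : HeightOneSpectrum (𝓞 K), Height.mulHeight₁ c ≤ av v c ^ k) ∨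
      ∃ σ : K →+* ℂ, Height.mulHeight₁ c ≤ ‖σ c‖ ^ k) →
    ∀ (L : Type) [Field L] [NumberField L] [Algebra K L], ∀ X : Finset L,
      (∀ x ∈ X, (∃ E : IntermediateField K L, Module.finrank K E ≤ N ∧ x ∈ E) ∧
        ∃ i j : ℕ, i < j ∧ (fun z => z ^ d + algebraMap K L c)^[i] x =
          (fun z => z ^ d + algebraMap K L c)^[j] x) →
      (X.card : ℝ) ≤ C * (k * Real.log (k + 1)) := by
  classical
  obtain ⟨A, hA1, hA⟩ := SUni.hyp D d hd
  obtain ⟨C₀, hC₀0, hC₀⟩ := main_RSS D N d 0 1 hd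
  have hl2 : 0 < Real.log 2 := Real.log_pos (by norm_num)
  have hA1' : (1 : ℝ) ≤ A := by exact_mod_cast hA1
  have hlA : 0 ≤ Real.log (A + 1) := Real.log_nonneg (by linarith)
  refine ⟨C₀ * (A * (1 + Real.log (A + 1) / Real.log 2)), by positivity, ?_⟩
  intro K _ _ hD c k hk hyp L _ _ _ Y hY
  obtain ⟨a, b, hb, hc⟩ := IsFractionRing.div_surjective (A := 𝓞 K) c
  have hb0 : b ≠ 0 := nonZeroDivisors.ne_zero hb
  obtain ⟨S, hS, hsum⟩ := hA K hD a b hb0 c hc.symm k hk hyp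
  have hbK : algebraMap (𝓞 K) K b ≠ 0 := by simpa using hb0
  have hdegF : (C b * X ^ d + C a : (𝓞 K)[X]).natDegree ≤ d := by
    refine (natDegree_add_le _ _).trans (max_le (natDegree_C_mul_X_pow_le _ _) ?_)
    rw [natDegree_C]
    omega
  have hdegG : (C b : (𝓞 K)[X]).natDegree ≤ d := by
    rw [natDegree_C]
    omega
  have hR : resultant (C b * X ^ d + C a : (𝓞 K)[X]) (C b) d d ≠ 0 := by
    intro h
    have h1 := congrArg (algebraMap (𝓞 K) K) h
    rw [map_zero, ← Polynomial.resultant_map_map, SUni.map_F, Polynomial.map_C] at h1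
    rcases uni_res d (by omega) (algebraMap (𝓞 K) K a) (algebraMap (𝓞 K) K b) with h2 | h2
    · rw [h2] at h1
      exact pow_ne_zero _ hbK h1
    · rw [h2, neg_eq_zero] at h1
      exact pow_ne_zero _ hbK h1
  have hinj : Function.Injective fun x : L => (x, (1 : L)) := fun x y h => congrArg Prod.fst h
  have hcard := hC₀ K hD (C b * X ^ d + C a) (C b) hdegF hdegG hR (A * k)
    (Nat.mul_pos hA1 hk) ⊤
    (by rw [← Ideal.one_eq_top]; exact one_dvd _)
    (fun v hv => absurd (Ideal.dvd_iff_le.1 hv) (by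
      rw [top_le_iff]
      exact v.isPrime.ne_top)) S hS hsum L (Y.image fun x => (x, (1 : L)))
  rw [Finset.card_image_of_injective _ hinj] at hcard
  have hfin : C₀ * (((A * k : ℕ) : ℝ) * Real.log (((A * k : ℕ) : ℝ) + 1)) ≤
      C₀ * (A * (1 + Real.log (A + 1) / Real.log 2)) * (k * Real.log (k + 1)) := by
    have hk1 : (1 : ℝ) ≤ k := by exact_mod_cast hk
    have hlk : Real.log 2 ≤ Real.log (k + 1) := Real.log_le_log (by norm_num) (by linarith)
    have h1 : Real.log (((A * k : ℕ) : ℝ) + 1) ≤ Real.log (A + 1) + Real.log (k + 1) := by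
      rw [← Real.log_mul (by positivity) (by positivity)]
      refine Real.log_le_log (by positivity) ?_
      push_cast
      nlinarith
    have h2 : Real.log (A + 1) ≤ Real.log (A + 1) / Real.log 2 * Real.log (k + 1) := by
      rw [div_mul_eq_mul_div, le_div_iff₀ hl2]
      exact mul_le_mul_of_nonneg_left hlk hlA
    have h3 : Real.log (((A * k : ℕ) : ℝ) + 1) ≤
        (1 + Real.log (A + 1) / Real.log 2) * Real.log (k + 1) := by
      linarith
    have h4 : ((A * k : ℕ) : ℝ) * Real.log (((A * k : ℕ) : ℝ) + 1) ≤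
        ((A * k : ℕ) : ℝ) * ((1 + Real.log (A + 1) / Real.log 2) * Real.log (k + 1)) :=
      mul_le_mul_of_nonneg_left h3 (Nat.cast_nonneg _)
    refine (mul_le_mul_of_nonneg_left h4 hC₀0).trans (le_of_eq ?_)
    push_cast
    ring
  refine (hcard ?_ ?_).trans hfin
  · intro p hp
    obtain ⟨x, hx, rfl⟩ := Finset.mem_image.1 hp
    obtain ⟨⟨E, hE, hxE⟩, i, j, hij, he⟩ := hY x hx
    refine ⟨⟨E, hE, hxE, one_mem E⟩, ?_, i, j, hij, ?_⟩
    · intro h
      exact one_ne_zero (congrArg Prod.snd h)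
    · have hmapF : (C b * X ^ d + C a : (𝓞 K)[X]).map (algebraMap (𝓞 K) L) =
          C (algebraMap (𝓞 K) L b) * X ^ d + C (algebraMap (𝓞 K) L a) := SUni.map_F _ _ _ _
      have hbL : algebraMap (𝓞 K) L b ≠ 0 := by
        rw [IsScalarTower.algebraMap_apply (𝓞 K) K L]
        exact (_root_.map_ne_zero _).2 hbK
      have hcL : algebraMap (𝓞 K) L a / algebraMap (𝓞 K) L b = algebraMap K L c := by
        rw [IsScalarTower.algebraMap_apply (𝓞 K) K L, IsScalarTower.algebraMap_apply (𝓞 K) K L,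
          ← map_div₀, hc]
      rw [hmapF, Polynomial.map_C]
      obtain ⟨s, hs⟩ := SUni.iter_lift d (algebraMap (𝓞 K) L a) (algebraMap (𝓞 K) L b) hbL x i
      obtain ⟨t, ht⟩ := SUni.iter_lift d (algebraMap (𝓞 K) L a) (algebraMap (𝓞 K) L b) hbL x j
      rw [hcL] at hs ht
      rw [hs, ht, RDF.wedge_smul_left, RDF.wedge_smul_right, ← he]
      simp [wedge]
  · intro p hp q hq hne
    obtain ⟨x, hx, rfl⟩ := Finset.mem_image.1 hp
    obtain ⟨y, hy, rfl⟩ := Finset.mem_image.1 hq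
    intro h
    apply hne
    have h1 : x - y = 0 := by simpa [wedge] using h
    rw [sub_eq_zero.1 h1]

end Pool.Agent.RI
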