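import Pool.Agent.RI.SDefs
import Pool.Agent.RI.SGenV
import Pool.Agent.RI.GHarm
import Pool.Agent.RI.GDefs

set_option autoImplicit false

/-!
# Potentially good reduction: the minimal resultant is zero
-/

namespace Pool.Agent.RI

open Polynomial NumberField IsDedekindDomain Pool.Agent.GPoly
open Pool.Agent.RDF (lift wedge form nrm UU mat Above DefectiveN coeffs)

namespace SPot

/-- From a relation `g Φ' = t Φ g` to a conjugate: `A = c g⁻¹`, `c ^ (d - 1) = t⁻¹`. -/
theorem conj_of_rel {Om : Type} [NormedField Om] [IsAlgClosed Om] (d : ℕ) (hd : 2 ≤ d)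
    (F G F' G' : Om[X]) (hF' : F'.natDegree ≤ d) (hG' : G'.natDegree ≤ d)
    (hc : ∀ i, ‖F'.coeff i‖ ≤ 1) (hc' : ∀ i, ‖G'.coeff i‖ ≤ 1)
    (g : Matrix (Fin 2) (Fin 2) Om) (hg : g.det ≠ 0) (t : Om) (ht : t ≠ 0)
    (h : ∀ p, act g (lift d F' G' p) = t • lift d F G (act g p)) :
    -Real.log ‖resultant F' G' d d‖ ∈ resSet d F G := by
  obtain ⟨α, hα⟩ := IsAlgClosed.exists_pow_nat_eq (t⁻¹ : Om) (n := d - 1) (by omega)
  have hα0 : α ≠ 0 := by
    rintro rfl
    rw [zero_pow (by omega)] at hα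
    exact (inv_ne_zero ht) hα.symm
  have hαd : α ^ d = t⁻¹ * α := by
    have h1 : d = (d - 1) + 1 := by omega
    rw [h1, pow_succ, hα]
  have hsm : ∀ p : Om × Om, act (α • g⁻¹) p = α • act g⁻¹ p := by
    intro p
    ext <;> simp only [act, Matrix.smul_apply, Prod.smul_fst, Prod.smul_snd, smul_eq_mul] <;> ring
  refine ⟨F', G', α • g⁻¹, ?_, hF', hG', hc, hc', ?_, rfl⟩
  · rw [Matrix.det_smul]
    refine mul_ne_zero (pow_ne_zero _ hα0) ?_
    intro h0
    have h1 := Matrix.det_nonsing_inv_mul_det g (isUnit_iff_ne_zero.2 hg)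
    rw [h0, zero_mul] at h1
    exact zero_ne_one h1
  · intro p
    rw [hsm, hsm, RDF.lift_smul, hαd]
    have h2 := h (act g⁻¹ p)
    rw [act_act_inv g hg] at h2
    have h3 := congrArg (act g⁻¹) h2
    rw [act_inv_act g hg, act_smul] at h3
    rw [h3, smul_smul, mul_assoc, mul_comm α t, ← mul_assoc, inv_mul_cancel₀ ht, one_mul]

end SPot

/-- Potentially good reduction: the minimal resultant is zero. -/
theorem lamV_of_potGood {K : Type} [Field K] [NumberField K] (d : ℕ) (hd : 2 ≤ d)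
    (F G : (𝓞 K)[X]) (hF : F.natDegree ≤ d) (hG : G.natDegree ≤ d)
    (hR : resultant F G d d ≠ 0) (v : HeightOneSpectrum (𝓞 K)) (hv : PotGood d F G v) :
    lamV d F G v = 0 := by
  refine le_antisymm ?_ (lamV_nonneg d F G v)
  obtain ⟨Om, i1, i2, i3, i4, h⟩ := PQ.exists_Om v
  obtain ⟨L, hL1, hL2, hL3, g, t, F', G', hg, ht, hF', hG', hrel, hunit⟩ := hv
  have ψ : L →ₐ[K] Om := IsAlgClosed.lift
  obtain ⟨w, hwv, hw1, hw2, -⟩ := exists_w v Om h ψ
  have hmap : ∀ P : (𝓞 K)[X], (P.map (algebraMap (𝓞 K) L)).map (ψ : L →+* Om) =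
      P.map (algebraMap (𝓞 K) Om) := by
    intro P
    rw [Polynomial.map_map]
    congr 1
    ext a
    have e1 : algebraMap (𝓞 K) L a = algebraMap K L (algebraMap (𝓞 K) K a) := rfl
    have e2 : algebraMap (𝓞 K) Om a = algebraMap K Om (algebraMap (𝓞 K) K a) := rfl
    rw [RingHom.comp_apply, e1, e2]
    exact ψ.commutes _
  have hrel2 := GHarm.rel_map (ψ : L →+* Om) d _ _ _ _
    (natDegree_map_le.trans hF') (natDegree_map_le.trans hG') g t hrel
  rw [hmap, hmap] at hrel2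
  have hres1 : ‖resultant ((F'.map (algebraMap (𝓞 L) L)).map (ψ : L →+* Om))
      ((G'.map (algebraMap (𝓞 L) L)).map (ψ : L →+* Om)) d d‖ = 1 := by
    rw [resultant_map_map, resultant_map_map]
    exact hw2 _ (hunit w hwv)
  have hdet : (g.map (ψ : L →+* Om)).det ≠ 0 := by
    rw [← RingHom.mapMatrix_apply, ← RingHom.map_det]
    intro h0
    exact hg ((ψ : L →+* Om).injective (h0.trans (map_zero _).symm))
  have hmem := SPot.conj_of_rel d hd (F.map (algebraMap (𝓞 K) Om))
    (G.map (algebraMap (𝓞 K) Om)) _ _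
    (natDegree_map_le.trans (natDegree_map_le.trans hF'))
    (natDegree_map_le.trans (natDegree_map_le.trans hG'))
    (fun i => by rw [coeff_map, coeff_map]; exact hw1 _)
    (fun i => by rw [coeff_map, coeff_map]; exact hw1 _) _ hdet ((ψ : L →+* Om) t)
    (fun h0 => ht ((ψ : L →+* Om).injective (h0.trans (map_zero _).symm))) hrel2
  rw [hres1, Real.log_one, neg_zero] at hmem
  exact lamV_le_of_mem d F G v Om h 0 hmem

end Pool.Agent.RI
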