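import Mathlib
import Pool.Agent.RI.SMain
import Pool.Agent.RI.SGenV
import Pool.Agent.RI.SPot

set_option autoImplicit false

/-!
# Arbitrary sets of primes, and the number of bad primes

`main_all` follows from `main_RSS` for one prime: a set `S` of primes contains a prime with the
largest minimal resultant in `S`.  `main_slogs` is the case where the sum on the left is `0`.
-/

namespace Pool.Agent.RI

open Polynomial NumberField IsDedekindDomain Pool.Agent.GPoly
open Pool.Agent.RDF (lift wedge DefectiveN)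

namespace SAll

variable {K : Type} [Field K] [NumberField K]

/-- A prime which does not divide the resultant. -/
theorem lamV_eq_zero (d : ℕ) (F G : (𝓞 K)[X]) (hF : F.natDegree ≤ d) (hG : G.natDegree ≤ d)
    (v : HeightOneSpectrum (𝓞 K)) (hv : resultant F G d d ∉ v.asIdeal) : lamV d F G v = 0 := by
  refine le_antisymm ?_ (lamV_nonneg d F G v)
  have h1 := lamV_le d F G hF hG v
  rwa [(av_int_eq_one v _).mpr hv, Real.log_one, neg_zero] at h1

theorem lamV_support (d : ℕ) (F G : (𝓞 K)[X]) (hF : F.natDegree ≤ d) (hG : G.natDegree ≤ d)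
    (hR : resultant F G d d ≠ 0) : {v | lamV d F G v ≠ 0}.Finite := by
  have hR' : algebraMap (𝓞 K) K (resultant F G d d) ≠ 0 :=
    (map_ne_zero_iff _ (RingOfIntegers.coe_injective)).mpr hR
  refine (av_support_finite _ hR').subset fun v hv h1 => hv ?_
  exact lamV_eq_zero d F G hF hG v ((av_int_eq_one v _).mp h1)

/-- The sum with a condition. -/
theorem finsum_filter {α : Type*} [DecidableEq α] (f : α → ℝ) (P : Finset α)
    (hP : ∀ v, f v ≠ 0 → v ∈ P) (p : α → Prop) [DecidablePred p] :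
    ∑ᶠ (v : α) (_ : p v), f v = ∑ v ∈ P.filter p, f v := by
  refine finsum_cond_eq_sum_of_cond_iff f fun {v} hv => ?_
  rw [Finset.mem_filter]
  exact ⟨fun h => ⟨hP v hv, h⟩, fun h => h.2⟩

/-- The largest element of `S` in place of `S`. -/
theorem one_prime {α : Type*} [DecidableEq α] (a : α → ℝ) (ha : ∀ v, 0 ≤ a v) (P S : Finset α)
    (q : α → Prop) [DecidablePred q] (k M : ℝ) (hk : 1 ≤ k) (hM : 0 ≤ M)
    (h : ∑ v ∈ P.filter (fun v => v ∉ S ∧ q v), a v ≤ k * (1 + ∑ v ∈ S, a v + M)) (w : α)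
    (hmax : ∀ v ∈ S, a v ≤ a w) :
    ∑ v ∈ P.filter (fun v => v ∉ ({w} : Finset α) ∧ q v), a v ≤
      (2 * (k * (S.card + 1))) * (1 + a w + M) := by
  have h1 : ∑ v ∈ S, a v ≤ S.card * a w := by
    have := Finset.sum_le_card_nsmul S a (a w) hmax
    rwa [nsmul_eq_mul] at this
  have h2 : ∑ v ∈ P.filter (fun v => v ∉ ({w} : Finset α) ∧ q v), a v ≤
      ∑ v ∈ P.filter (fun v => v ∉ S ∧ q v), a v + ∑ v ∈ S, a v := by
    have h3 : P.filter (fun v => v ∉ ({w} : Finset α) ∧ q v) ⊆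
        P.filter (fun v => v ∉ S ∧ q v) ∪ S := by
      intro v hv
      rw [Finset.mem_filter] at hv
      rw [Finset.mem_union, Finset.mem_filter]
      by_cases hvS : v ∈ S
      · exact Or.inr hvS
      · exact Or.inl ⟨hv.1, hvS, hv.2.2⟩
    refine (Finset.sum_le_sum_of_subset_of_nonneg h3 fun v _ _ => ha v).trans ?_
    have h4 := Finset.sum_union_inter (s₁ := P.filter (fun v => v ∉ S ∧ q v)) (s₂ := S) (f := a)
    have h5 : 0 ≤ ∑ v ∈ P.filter (fun v => v ∉ S ∧ q v) ∩ S, a v :=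
      Finset.sum_nonneg fun v _ => ha v
    linarith
  have h6 := ha w
  have h7 : (0 : ℝ) ≤ S.card := Nat.cast_nonneg _
  have h8 : k * (1 + ∑ v ∈ S, a v + M) ≤ k * (1 + S.card * a w + M) :=
    mul_le_mul_of_nonneg_left (by linarith) (by linarith)
  have h9 : (S.card : ℝ) * a w ≤ k * (S.card * a w) :=
    le_mul_of_one_le_left (by positivity) hk
  have h10 : 0 ≤ k * (S.card * 1) := by positivity
  have h11 : 0 ≤ k * (S.card * M) := by positivity
  have h12 : 0 ≤ k * a w := by positivity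
  have h13 : 0 ≤ k * M := by positivity
  nlinarith

theorem log_bound (x : ℝ) (hx : 1 ≤ x) :
    2 * x * Real.log (2 * x + 1) ≤ 4 * (x * Real.log (x + 1)) := by
  have h1 : Real.log (2 * x + 1) ≤ 2 * Real.log (x + 1) := by
    rw [← Real.log_rpow (by linarith) 2]
    refine Real.log_le_log (by linarith) ?_
    have : (x + 1) ^ (2 : ℝ) = (x + 1) ^ 2 := by norm_cast
    rw [this]
    nlinarith
  nlinarith

end SAll

open SAll

/-- THEOREM R**, for every finite set `S` of primes: the constant does not depend on `S`. -/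
theorem main_all (D N d l : ℕ) (hd : 2 ≤ d) : ∃ C : ℝ, 0 ≤ C ∧
    ∀ (K : Type) [Field K] [NumberField K], Module.finrank ℚ K ≤ D →
    ∀ F G : (𝓞 K)[X], F.natDegree ≤ d → G.natDegree ≤ d → resultant F G d d ≠ 0 →
    ∀ k : ℕ, 1 ≤ k → ∀ J : Ideal (𝓞 K), J ∣ Ideal.span {resultant F G d d} →
    (∀ v : HeightOneSpectrum (𝓞 K), v.asIdeal ∣ J → DefectiveN d N l F G v) →
    ∀ S : Finset (HeightOneSpectrum (𝓞 K)),
    ∑ᶠ (v : HeightOneSpectrum (𝓞 K)) (_ : v ∉ S ∧ ¬ v.asIdeal ∣ J), lamV d F G v ≤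
      k * (1 + ∑ v ∈ S, lamV d F G v +
        ∑ σ : K →+* ℂ, lamC d (F.map (σ.comp (algebraMap (𝓞 K) K)))
          (G.map (σ.comp (algebraMap (𝓞 K) K))) +
        Real.log (Ideal.absNorm J)) →
    ∀ (L : Type) [Field L] [NumberField L] [Algebra K L], ∀ X : Finset (L × L),
      (∀ p ∈ X, Pool.Agent.RDF.DegLe K N p ∧ p ≠ 0 ∧ ∃ a b : ℕ, a < b ∧
        wedge ((lift d (F.map (algebraMap (𝓞 K) L)) (G.map (algebraMap (𝓞 K) L)))^[a] p)
          ((lift d (F.map (algebraMap (𝓞 K) L)) (G.map (algebraMap (𝓞 K) L)))^[b] p) = 0) →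
      (∀ p ∈ X, ∀ q ∈ X, p ≠ q → wedge p q ≠ 0) →
      (X.card : ℝ) ≤ C * ((k * (S.card + 1)) * Real.log (k * (S.card + 1) + 1)) := by
  obtain ⟨C, hC, hmain⟩ := main_RSS D N d l 1 hd
  refine ⟨4 * C, by positivity, ?_⟩
  intro K _ _ hK F G hF hG hR k hk J hJ hdef S hsum L _ _ _ X hX hXw
  classical
  have hk1 : (1 : ℝ) ≤ k := by exact_mod_cast hk
  have hSc : (0 : ℝ) ≤ S.card := Nat.cast_nonneg _
  have hlog : ∀ x : ℝ, 0 ≤ x → 0 ≤ x * Real.log (x + 1) := fun x hx =>
    mul_nonneg hx (Real.log_nonneg (by linarith))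
  rcases S.eq_empty_or_nonempty with rfl | hne
  · have h1 := hmain K hK F G hF hG hR k hk J hJ hdef ∅ (by simp) hsum L X hX hXw
    refine h1.trans ?_
    have h2 := hlog k (by linarith)
    simp only [Finset.card_empty, Nat.cast_zero, zero_add, mul_one]
    nlinarith
  obtain ⟨w, -, hmax⟩ := Finset.exists_max_image S (lamV d F G) hne
  have hfin := lamV_support d F G hF hG hR
  have hP : ∀ v, lamV d F G v ≠ 0 → v ∈ hfin.toFinset := fun v hv =>
    (Set.Finite.mem_toFinset hfin).mpr hv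
  have hM1 : 0 ≤ ∑ σ : K →+* ℂ, lamC d (F.map (σ.comp (algebraMap (𝓞 K) K)))
      (G.map (σ.comp (algebraMap (𝓞 K) K))) := Finset.sum_nonneg fun σ _ => le_max_left _ _
  have hM2 : 0 ≤ Real.log (Ideal.absNorm J) := Real.log_natCast_nonneg _
  rw [finsum_filter _ hfin.toFinset hP] at hsum
  have h1 := one_prime (lamV d F G) (lamV_nonneg d F G) hfin.toFinset S
    (fun v => ¬ v.asIdeal ∣ J) k
    (∑ σ : K →+* ℂ, lamC d (F.map (σ.comp (algebraMap (𝓞 K) K)))
      (G.map (σ.comp (algebraMap (𝓞 K) K))) + Real.log (Ideal.absNorm J)) hk1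
    (add_nonneg hM1 hM2) (by rw [← add_assoc]; exact hsum) w hmax
  have h2 := hmain K hK F G hF hG hR (2 * (k * (S.card + 1)))
    (by have : 1 ≤ k * (S.card + 1) := Nat.one_le_iff_ne_zero.mpr (by positivity); omega)
    J hJ hdef {w} (by simp)
    (by
      rw [finsum_filter _ hfin.toFinset hP, Finset.sum_singleton]
      push_cast
      rw [← add_assoc] at h1
      exact h1) L X hX hXw
  refine h2.trans ?_
  have h3 : (1 : ℝ) ≤ k * (S.card + 1) := by nlinarith
  have h4 := log_bound (k * (S.card + 1)) h3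
  push_cast
  calc C * (2 * (k * (S.card + 1)) * Real.log (2 * (k * (S.card + 1)) + 1))
      ≤ C * (4 * ((k * (S.card + 1)) * Real.log (k * (S.card + 1) + 1))) :=
        mul_le_mul_of_nonneg_left h4 hC
    _ = 4 * C * ((k * (S.card + 1)) * Real.log (k * (S.card + 1) + 1)) := by ring

/-- `B` is a set of primes outside of which `F / G` has potentially good reduction or is
defective. -/
theorem main_slogsD (D N d l : ℕ) (hd : 2 ≤ d) : ∃ C : ℝ, 0 ≤ C ∧
    ∀ (K : Type) [Field K] [NumberField K], Module.finrank ℚ K ≤ D →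
    ∀ F G : (𝓞 K)[X], F.natDegree ≤ d → G.natDegree ≤ d → resultant F G d d ≠ 0 →
    ∀ B : Finset (HeightOneSpectrum (𝓞 K)),
    (∀ v, v ∉ B → PotGood d F G v ∨ DefectiveN d N l F G v) →
    ∀ (L : Type) [Field L] [NumberField L] [Algebra K L], ∀ X : Finset (L × L),
      (∀ p ∈ X, Pool.Agent.RDF.DegLe K N p ∧ p ≠ 0 ∧ ∃ a b : ℕ, a < b ∧
        wedge ((lift d (F.map (algebraMap (𝓞 K) L)) (G.map (algebraMap (𝓞 K) L)))^[a] p)
          ((lift d (F.map (algebraMap (𝓞 K) L)) (G.map (algebraMap (𝓞 K) L)))^[b] p) = 0) →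
      (∀ p ∈ X, ∀ q ∈ X, p ≠ q → wedge p q ≠ 0) →
      (X.card : ℝ) ≤ C * ((B.card + 1) * Real.log (B.card + 2)) := by
  obtain ⟨C, hC, hmain⟩ := main_all D N d l hd
  refine ⟨C, hC, ?_⟩
  intro K _ _ hK F G hF hG hR B hB L _ _ _ X hX hXw
  classical
  have hspan : Ideal.span {resultant F G d d} ≠ (0 : Ideal (𝓞 K)) := by
    rw [Ne, Ideal.zero_eq_bot, Ideal.span_singleton_eq_bot]
    exact hR
  have hfin : {v : HeightOneSpectrum (𝓞 K) | v.asIdeal ∣ Ideal.span {resultant F G d d} ∧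
      DefectiveN d N l F G v}.Finite :=
    (Ideal.finite_factors hspan).subset fun v hv => hv.1
  set J : Ideal (𝓞 K) := ∏ v ∈ hfin.toFinset, v.asIdeal with hJ
  have hJR : J ∣ Ideal.span {resultant F G d d} := by
    have hinj : Set.InjOn (fun v : HeightOneSpectrum (𝓞 K) => v.asIdeal)
        (hfin.toFinset : Set (HeightOneSpectrum (𝓞 K))) := fun v _ w _ h =>
      HeightOneSpectrum.ext h
    have h1 := Finset.prod_image (f := fun I : Ideal (𝓞 K) => I) hinj
    rw [hJ]
    rw [← h1]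
    refine Finset.prod_primes_dvd _ ?_ ?_
    · intro I hI
      obtain ⟨v, -, rfl⟩ := Finset.mem_image.1 hI
      exact v.prime
    · intro I hI
      obtain ⟨v, hv, rfl⟩ := Finset.mem_image.1 hI
      exact ((Set.Finite.mem_toFinset hfin).1 hv).1
  have hJdef : ∀ v : HeightOneSpectrum (𝓞 K), v.asIdeal ∣ J → DefectiveN d N l F G v := by
    intro v hv
    obtain ⟨w, hw, hvw⟩ := (v.prime.dvd_finsetProd_iff _).1 hv
    have h1 : v = w := by
      refine HeightOneSpectrum.ext ?_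
      exact associated_iff_eq.1 ((Prime.dvd_prime_iff_associated v.prime w.prime).1 hvw)
    rw [h1]
    exact ((Set.Finite.mem_toFinset hfin).1 hw).2
  have hzero : ∑ᶠ (v : HeightOneSpectrum (𝓞 K)) (_ : v ∉ B ∧ ¬ v.asIdeal ∣ J), lamV d F G v = 0 := by
    refine finsum_mem_eq_zero_of_forall_eq_zero
      (s := {v : HeightOneSpectrum (𝓞 K) | v ∉ B ∧ ¬ v.asIdeal ∣ J}) fun v hv => ?_
    by_cases hvR : resultant F G d d ∈ v.asIdeal
    · rcases hB v hv.1 with h1 | h1
      · exact lamV_of_potGood d hd F G hF hG hR v h1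
      · refine absurd ?_ hv.2
        refine Finset.dvd_prod_of_mem (fun v : HeightOneSpectrum (𝓞 K) => v.asIdeal)
          ((Set.Finite.mem_toFinset hfin).2 ⟨?_, h1⟩)
        rw [Ideal.dvd_span_singleton]
        exact hvR
    · exact lamV_eq_zero d F G hF hG v hvR
  have h1 := hmain K hK F G hF hG hR 1 le_rfl J hJR hJdef B (by
    rw [hzero]
    have hM1 : 0 ≤ ∑ σ : K →+* ℂ, lamC d (F.map (σ.comp (algebraMap (𝓞 K) K)))
        (G.map (σ.comp (algebraMap (𝓞 K) K))) := Finset.sum_nonneg fun σ _ => le_max_left _ _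
    have hM2 : 0 ≤ Real.log (Ideal.absNorm J) := Real.log_natCast_nonneg _
    have hM3 : 0 ≤ ∑ v ∈ B, lamV d F G v := Finset.sum_nonneg fun v _ => lamV_nonneg d F G v
    have : (0 : ℝ) ≤ ((1 : ℕ) : ℝ) := by norm_num
    positivity) L X hX hXw
  refine h1.trans (le_of_eq ?_)
  rw [Nat.cast_one, one_mul]
  congr 3
  ring

end Pool.Agent.RI
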