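import Mathlib
import Pool.Agent.RI.SLam
import Pool.Agent.RI.SGenV
import Pool.Agent.RI.Res
import Pool.Agent.RDF.LocU
import Pool.Agent.GPoly.Places

set_option autoImplicit false

/-!
# Semistable primes: the resultant is minimal
-/

namespace Pool.Agent.RI

open Polynomial NumberField IsDedekindDomain Pool.Agent.GPoly
open Pool.Agent.RDF (lift wedge form nrm form_smul sum_le_of_na)

namespace SMin

section field

variable {L : Type*} [Field L] {abv : AbsoluteValue L ℝ}

/-- The coefficient of `X ^ i` is at most `r ^ i s ^ (n - i)`. -/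
def Bd (abv : AbsoluteValue L ℝ) (r s : ℝ) (n : ℕ) (P : L[X]) : Prop :=
  P.natDegree ≤ n ∧ ∀ i ≤ n, abv (P.coeff i) ≤ r ^ i * s ^ (n - i)

theorem Bd.mul (hna : IsNonarchimedean abv) {r s : ℝ} (hr : 0 ≤ r) (hs : 0 ≤ s) {n m : ℕ}
    {P Q : L[X]} (hP : Bd abv r s n P) (hQ : Bd abv r s m Q) : Bd abv r s (n + m) (P * Q) := by
  refine ⟨natDegree_mul_le.trans (add_le_add hP.1 hQ.1), fun i hi => ?_⟩
  rw [coeff_mul]
  refine sum_le_of_na abv hna _ _ _ (by positivity) fun x hx => ?_
  have hx' := Finset.HasAntidiagonal.mem_antidiagonal.1 hx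
  rw [map_mul]
  by_cases h1 : x.1 ≤ n
  · by_cases h2 : x.2 ≤ m
    · have h3 : n + m - i = (n - x.1) + (m - x.2) := by omega
      calc abv (P.coeff x.1) * abv (Q.coeff x.2)
          ≤ (r ^ x.1 * s ^ (n - x.1)) * (r ^ x.2 * s ^ (m - x.2)) :=
            mul_le_mul (hP.2 _ h1) (hQ.2 _ h2) (abv.nonneg _) (by positivity)
        _ = r ^ i * s ^ (n + m - i) := by
            rw [h3, ← hx', pow_add, pow_add]; ring
    · rw [coeff_eq_zero_of_natDegree_lt (p := Q) (by have := hQ.1; omega), map_zero, mul_zero]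
      positivity
  · rw [coeff_eq_zero_of_natDegree_lt (p := P) (by have := hP.1; omega), map_zero, zero_mul]
    positivity

theorem Bd.lin {r s : ℝ} {a b : L} (ha : abv a ≤ r) (hb : abv b ≤ s) :
    Bd abv r s 1 (C a * X + C b) := by
  refine ⟨natDegree_linear_le, fun i hi => ?_⟩
  interval_cases i
  · simpa using hb
  · simpa [coeff_X, coeff_C] using ha

theorem Bd.one {r s : ℝ} : Bd abv r s 0 (1 : L[X]) := by
  refine ⟨by simp, fun i hi => ?_⟩
  interval_cases i
  simp

theorem Bd.pow (hna : IsNonarchimedean abv) {r s : ℝ} (hr : 0 ≤ r) (hs : 0 ≤ s) {P : L[X]}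
    (hP : Bd abv r s 1 P) (k : ℕ) : Bd abv r s k (P ^ k) := by
  induction k with
  | zero => rw [pow_zero]; exact Bd.one
  | succ k ih => rw [pow_succ]; exact ih.mul hna hr hs hP

theorem Bd.sub (hna : IsNonarchimedean abv) {r s : ℝ} (hr : 0 ≤ r) (hs : 0 ≤ s) (d : ℕ)
    (F : L[X]) (hF : ∀ i, abv (F.coeff i) ≤ 1) {a b c e : L} (ha : abv a ≤ r) (hc : abv c ≤ r)
    (hb : abv b ≤ s) (he : abv e ≤ s) : Bd abv r s d (sub d F a b c e) := by
  refine ⟨sub_natDegree d F a b c e, fun i hi => ?_⟩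
  rw [sub_eq, finsetSum_coeff]
  refine sum_le_of_na abv hna _ _ _ (by positivity) fun j hj => ?_
  have hj' : j ≤ d := Nat.lt_succ_iff.mp (Finset.mem_range.mp hj)
  have h1 : Bd abv r s (j + (d - j)) ((C a * X + C b) ^ j * (C c * X + C e) ^ (d - j)) :=
    ((Bd.lin ha hb).pow hna hr hs j).mul hna hr hs ((Bd.lin hc he).pow hna hr hs (d - j))
  rw [Nat.add_sub_cancel' hj'] at h1
  rw [mul_assoc, coeff_C_mul, map_mul]
  calc abv (F.coeff j) * abv (((C a * X + C b) ^ j * (C c * X + C e) ^ (d - j)).coeff i)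
      ≤ 1 * (r ^ i * s ^ (d - i)) := mul_le_mul (hF j) (h1.2 i hi) (abv.nonneg _) zero_le_one
    _ = _ := one_mul _

/-- The coefficients of `Φ` in the basis `u = (p, q)`, `w = (x, y)` are small: `Φ` has a zero of
multiplicity more than `(d - 1) / 2` at `w` modulo the maximal ideal. -/
theorem small (hinf : Infinite L) (hna : IsNonarchimedean abv) (d : ℕ) (hd : 2 ≤ d)
    {F G F' G' : L[X]} {a b c e : L} (H : Adm abv d F G F' G' a b c e) (r s : ℝ) (hs : 0 < s)
    (hsr : s ≤ r) (hrs : r * s < 1) (hdet : abv (a * e - b * c) = r * s)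
    (ha : abv a ≤ r) (hb : abv b ≤ r) (hc : abv c ≤ r) (he : abv e ≤ r) (p q x y : L)
    (hp : abv p ≤ 1) (hq : abv q ≤ 1) (h1 : abv (a * x + b * y) ≤ s)
    (h2 : abv (c * x + e * y) ≤ s) (i : ℕ) (hi : 2 * i + 1 ≤ d) :
    abv ((sub d F p x q y).coeff i) < 1 ∧ abv ((sub d G p x q y).coeff i) < 1 := by
  have hr : 0 < r := hs.trans_le hsr
  -- the matrix `A (u, w)`
  have hu1 : abv (a * p + b * q) ≤ r := by
    refine (hna _ _).trans (max_le ?_ ?_) <;> rw [map_mul]
    · exact (mul_le_mul ha hp (abv.nonneg _) hr.le).trans (by rw [mul_one])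
    · exact (mul_le_mul hb hq (abv.nonneg _) hr.le).trans (by rw [mul_one])
  have hu2 : abv (c * p + e * q) ≤ r := by
    refine (hna _ _).trans (max_le ?_ ?_) <;> rw [map_mul]
    · exact (mul_le_mul hc hp (abv.nonneg _) hr.le).trans (by rw [mul_one])
    · exact (mul_le_mul he hq (abv.nonneg _) hr.le).trans (by rw [mul_one])
  have hap : ∀ t : L × L, ap a b c e (ap p x q y t) =
      ap (a * p + b * q) (a * x + b * y) (c * p + e * q) (c * x + e * y) t := by
    intro t
    ext <;> simp only [ap] <;> ring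
  have key : ∀ t, lift d F' G' (ap (a * p + b * q) (a * x + b * y) (c * p + e * q)
      (c * x + e * y) t) = ap a b c e (lift d F G (ap p x q y t)) := fun t => by
    rw [← hap]; exact H.conj _
  have hdeg : ∀ (P : L[X]) (r : L), P.natDegree ≤ d → (C r * P).natDegree ≤ d := fun P r hP =>
    (natDegree_C_mul_le _ _).trans hP
  have hpF := sub_natDegree d F p x q y
  have hpG := sub_natDegree d G p x q y
  have e1 : C a * sub d F p x q y + C b * sub d G p x q y =
      sub d F' (a * p + b * q) (a * x + b * y) (c * p + e * q) (c * x + e * y) := by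
    refine form_injective hinf d _ _ ((natDegree_add_le _ _).trans
      (max_le (hdeg _ _ hpF) (hdeg _ _ hpG))) (sub_natDegree _ _ _ _ _ _) fun t => ?_
    rw [form_comb, form_sub, form_sub, form_sub]
    exact (congrArg Prod.fst (key t)).symm
  have e2 : C c * sub d F p x q y + C e * sub d G p x q y =
      sub d G' (a * p + b * q) (a * x + b * y) (c * p + e * q) (c * x + e * y) := by
    refine form_injective hinf d _ _ ((natDegree_add_le _ _).trans
      (max_le (hdeg _ _ hpF) (hdeg _ _ hpG))) (sub_natDegree _ _ _ _ _ _) fun t => ?_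
    rw [form_comb, form_sub, form_sub, form_sub]
    exact (congrArg Prod.snd (key t)).symm
  have b1 := (Bd.sub hna hr.le hs.le d F' H.leF hu1 hu2 h1 h2).2 i (by omega)
  have b2 := (Bd.sub hna hr.le hs.le d G' H.leG hu1 hu2 h1 h2).2 i (by omega)
  rw [← e1] at b1
  rw [← e2] at b2
  rw [coeff_add, coeff_C_mul, coeff_C_mul] at b1 b2
  set f := (sub d F p x q y).coeff i with hf
  set g := (sub d G p x q y).coeff i with hg
  have hB : 0 ≤ r ^ i * s ^ (d - i) := by positivity
  -- the size of `f` and `g`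
  have hlt : r * (r ^ i * s ^ (d - i)) < r * s := by
    have h3 : r ^ i * s ^ (d - i) = s * ((r * s) ^ i * s ^ (d - 1 - 2 * i)) := by
      have h4 : d - i = 1 + i + (d - 1 - 2 * i) := by omega
      rw [h4, pow_add, pow_add, mul_pow, pow_one]; ring
    have hs1 : s < 1 := by nlinarith
    have h5 : (r * s) ^ i * s ^ (d - 1 - 2 * i) < 1 := by
      rcases Nat.eq_zero_or_pos i with h0 | h0
      · subst h0
        rw [pow_zero, one_mul]
        exact pow_lt_one₀ hs.le hs1 (by omega)
      · have h6 : (r * s) ^ i < 1 := pow_lt_one₀ (by positivity) hrs (by omega)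
        have h7 : s ^ (d - 1 - 2 * i) ≤ 1 := pow_le_one₀ hs.le hs1.le
        calc (r * s) ^ i * s ^ (d - 1 - 2 * i) ≤ (r * s) ^ i * 1 :=
              mul_le_mul_of_nonneg_left h7 (by positivity)
          _ < 1 := by rw [mul_one]; exact h6
    rw [h3]
    calc r * (s * ((r * s) ^ i * s ^ (d - 1 - 2 * i)))
        = (r * s) * ((r * s) ^ i * s ^ (d - 1 - 2 * i)) := by ring
      _ < (r * s) * 1 := mul_lt_mul_of_pos_left h5 (by positivity)
      _ = r * s := mul_one _
  have hrs0 : 0 < r * s := by positivity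
  constructor
  · have h3 : (a * e - b * c) * f = e * (a * f + b * g) + (-b) * (c * f + e * g) := by ring
    have h4 : abv ((a * e - b * c) * f) ≤ r * (r ^ i * s ^ (d - i)) := by
      rw [h3]
      refine (hna _ _).trans (max_le ?_ ?_) <;> rw [map_mul]
      · exact mul_le_mul he b1 (abv.nonneg _) hr.le
      · rw [map_neg_eq_map]
        exact mul_le_mul hb b2 (abv.nonneg _) hr.le
    rw [map_mul, hdet] at h4
    have h5 := h4.trans_lt hlt
    by_contra hcon
    rw [not_lt] at hcon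
    nlinarith
  · have h3 : (a * e - b * c) * g = a * (c * f + e * g) + (-c) * (a * f + b * g) := by ring
    have h4 : abv ((a * e - b * c) * g) ≤ r * (r ^ i * s ^ (d - i)) := by
      rw [h3]
      refine (hna _ _).trans (max_le ?_ ?_) <;> rw [map_mul]
      · exact mul_le_mul ha b2 (abv.nonneg _) hr.le
      · rw [map_neg_eq_map]
        exact mul_le_mul hc b1 (abv.nonneg _) hr.le
    rw [map_mul, hdet] at h4
    have h5 := h4.trans_lt hlt
    by_contra hcon
    rw [not_lt] at hcon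
    nlinarith

/-- A conjugate with bounded coefficients and small determinant: a zero of large multiplicity. -/
theorem exists_dir (hinf : Infinite L) (hna : IsNonarchimedean abv) (d : ℕ) (hd : 2 ≤ d)
    {F G F' G' : L[X]} {a b c e : L} (H : Adm abv d F G F' G' a b c e)
    (hlt : abv (a * e - b * c) < 1) :
    (∃ θ : L, abv θ ≤ 1 ∧ ∀ i, 2 * i + 1 ≤ d → abv ((sub d F 1 θ 0 1).coeff i) < 1 ∧
      abv ((sub d G 1 θ 0 1).coeff i) < 1) ∨
    ∃ η : L, abv η < 1 ∧ ∀ i, 2 * i + 1 ≤ d → abv ((sub d F 0 1 1 η).coeff i) < 1 ∧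
      abv ((sub d G 0 1 1 η).coeff i) < 1 := by
  set r : ℝ := max (max (abv a) (abv b)) (max (abv c) (abv e)) with hr
  have ha : abv a ≤ r := (le_max_left _ _).trans (le_max_left _ _)
  have hb : abv b ≤ r := (le_max_right _ _).trans (le_max_left _ _)
  have hc : abv c ≤ r := (le_max_left _ _).trans (le_max_right _ _)
  have he : abv e ≤ r := (le_max_right _ _).trans (le_max_right _ _)
  have hD : 0 < abv (a * e - b * c) := abv.pos H.det
  have hr0 : 0 < r := by
    by_contra hcon
    rw [not_lt] at hcon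
    have h1 : a = 0 := abv.eq_zero.1 (le_antisymm (ha.trans hcon) (abv.nonneg _))
    have h2 : b = 0 := abv.eq_zero.1 (le_antisymm (hb.trans hcon) (abv.nonneg _))
    exact H.det (by rw [h1, h2]; ring)
  have hDr : abv (a * e - b * c) ≤ r * r := by
    rw [sub_eq_add_neg]
    refine (hna _ _).trans (max_le ?_ ?_)
    · rw [map_mul]; exact mul_le_mul ha he (abv.nonneg _) hr0.le
    · rw [map_neg_eq_map, map_mul]; exact mul_le_mul hb hc (abv.nonneg _) hr0.le
  set s : ℝ := abv (a * e - b * c) / r with hs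
  have hs0 : 0 < s := div_pos hD hr0
  have hrs : r * s = abv (a * e - b * c) := by rw [hs]; field_simp
  have hsr : s ≤ r := by rw [hs, div_le_iff₀ hr0]; exact hDr
  have fin := fun (p q x y : L) (hp : abv p ≤ 1) (hq : abv q ≤ 1)
    (h1 : abv (a * x + b * y) ≤ s) (h2 : abv (c * x + e * y) ≤ s) (i : ℕ) (hi : 2 * i + 1 ≤ d) =>
      small hinf hna d hd H r s hs0 hsr (by rw [hrs]; exact hlt) hrs.symm ha hb hc he p q x y hp hq
        h1 h2 i hi
  have hone : abv (1 : L) ≤ 1 := by rw [map_one]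
  have hzero : abv (0 : L) ≤ 1 := by rw [map_zero]; exact zero_le_one
  have hs0' : abv (0 : L) ≤ s := by rw [map_zero]; exact hs0.le
  have hmax : r = max (abv a) (abv b) ∨ r = max (abv c) (abv e) := max_choice _ _
  rcases hmax with hm | hm
  · rcases le_or_gt (abv b) (abv a) with hab | hab
    · -- `a` is the largest entry
      rw [max_eq_left hab] at hm
      have ha0 : a ≠ 0 := by intro h; rw [h, map_zero] at hm; exact hr0.ne' hm
      refine Or.inl ⟨-b / a, ?_, fun i hi => fin 1 0 (-b / a) 1 hone hzero ?_ ?_ i hi⟩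
      · rw [map_div₀, map_neg_eq_map, ← hm]
        exact (div_le_one hr0).2 hb
      · rw [show a * (-b / a) + b * 1 = 0 by field_simp; ring]; exact hs0'
      · rw [show c * (-b / a) + e * 1 = (a * e - b * c) / a by field_simp; ring, map_div₀, ← hm]
    · rw [max_eq_right hab.le] at hm
      have hb0 : b ≠ 0 := by intro h; rw [h, map_zero] at hm; exact hr0.ne' hm
      refine Or.inr ⟨-a / b, ?_, fun i hi => fin 0 1 1 (-a / b) hzero hone ?_ ?_ i hi⟩
      · rw [map_div₀, map_neg_eq_map, ← hm]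
        exact (div_lt_one hr0).2 (hm ▸ hab)
      · rw [show a * 1 + b * (-a / b) = 0 by field_simp; ring]; exact hs0'
      · rw [show c * 1 + e * (-a / b) = -((a * e - b * c) / b) by field_simp; ring,
          map_neg_eq_map, map_div₀, ← hm]
  · rcases le_or_gt (abv e) (abv c) with hab | hab
    · rw [max_eq_left hab] at hm
      have hc0 : c ≠ 0 := by intro h; rw [h, map_zero] at hm; exact hr0.ne' hm
      refine Or.inl ⟨-e / c, ?_, fun i hi => fin 1 0 (-e / c) 1 hone hzero ?_ ?_ i hi⟩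
      · rw [map_div₀, map_neg_eq_map, ← hm]
        exact (div_le_one hr0).2 he
      · rw [show a * (-e / c) + b * 1 = -((a * e - b * c) / c) by field_simp; ring,
          map_neg_eq_map, map_div₀, ← hm]
      · rw [show c * (-e / c) + e * 1 = 0 by field_simp; ring]; exact hs0'
    · rw [max_eq_right hab.le] at hm
      have he0 : e ≠ 0 := by intro h; rw [h, map_zero] at hm; exact hr0.ne' hm
      refine Or.inr ⟨-c / e, ?_, fun i hi => fin 0 1 1 (-c / e) hzero hone ?_ ?_ i hi⟩
      · rw [map_div₀, map_neg_eq_map, ← hm]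
        exact (div_lt_one hr0).2 (hm ▸ hab)
      · rw [show a * 1 + b * (-c / e) = (a * e - b * c) / e by field_simp; ring, map_div₀, ← hm]
      · rw [show c * 1 + e * (-c / e) = 0 by field_simp; ring]; exact hs0'

end field

/-- Over a finite field a common zero `t` of multiplicity `m` gives a common factor `h ^ m`. -/
theorem pow_dvd {k κ : Type*} [Field k] [Field κ] [Algebra k κ] (t : κ) (h : k[X])
    (hsep : h.Separable) (h0 : aeval t h = 0) (hmin : ∀ Q : k[X], aeval t Q = 0 → h ∣ Q) (m : ℕ)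
    (P : k[X]) (hP : ∀ i < m, (taylor t (P.map (algebraMap k κ))).coeff i = 0) : h ^ m ∣ P := by
  induction m with
  | zero => simp
  | succ m ih =>
    obtain ⟨Q, rfl⟩ := ih fun i hi => hP i (by omega)
    have h1 : X ^ (m + 1) ∣ taylor t ((h ^ m * Q).map (algebraMap k κ)) :=
      X_pow_dvd_iff.2 hP
    rw [Polynomial.map_mul, Polynomial.map_pow, taylor_mul, taylor_pow] at h1
    have h2 : X ∣ taylor t (h.map (algebraMap k κ)) := by
      rw [X_dvd_iff, taylor_coeff_zero, eval_map_algebraMap, h0]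
    obtain ⟨u, hu⟩ := h2
    have h3 : u.coeff 0 ≠ 0 := by
      intro h4
      have h5 : (taylor t (h.map (algebraMap k κ))).coeff 1 = 0 := by
        rw [hu, show (1 : ℕ) = 0 + 1 from rfl, coeff_X_mul, h4]
      rw [taylor_coeff_one, derivative_map, eval_map_algebraMap] at h5
      obtain ⟨A, B, hAB⟩ := hsep
      have h6 := congrArg (aeval t) hAB
      rw [map_add, map_mul, map_mul, h0, h5, map_one, mul_zero, mul_zero, add_zero] at h6
      exact zero_ne_one h6
    rw [hu, mul_pow, pow_succ, mul_assoc] at h1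
    have h7 : X ∣ u ^ m * taylor t (Q.map (algebraMap k κ)) :=
      (mul_dvd_mul_iff_left (pow_ne_zero m X_ne_zero)).1 h1
    rw [X_dvd_iff, mul_coeff_zero] at h7
    have h10 : (u ^ m).coeff 0 = u.coeff 0 ^ m := by
      rw [coeff_zero_eq_eval_zero, eval_pow, ← coeff_zero_eq_eval_zero]
    have h8 : (taylor t (Q.map (algebraMap k κ))).coeff 0 = 0 := by
      refine (mul_eq_zero.1 h7).resolve_left ?_
      rw [h10]
      exact pow_ne_zero _ h3
    rw [taylor_coeff_zero, eval_map_algebraMap] at h8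
    rw [pow_succ]
    exact mul_dvd_mul_left _ (hmin Q h8)

theorem exists_irr {k κ : Type*} [Field k] [Finite k] [Field κ] (φ : k →+* κ) (P Q : k[X])
    (t : κ) (m : ℕ) (hP : ∀ i < m, (taylor t (P.map φ)).coeff i = 0)
    (hQ : ∀ i < m, (taylor t (Q.map φ)).coeff i = 0) :
    ∃ h : k[X], Irreducible h ∧ h ^ m ∣ P ∧ h ^ m ∣ Q := by
  let _ := φ.toAlgebra
  have hφ : algebraMap k κ = φ := rfl
  rcases Nat.eq_zero_or_pos m with hm | hm
  · subst hm
    exact ⟨X, irreducible_X, by simp, by simp⟩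
  by_cases hPQ : P = 0 ∧ Q = 0
  · rw [hPQ.1, hPQ.2]
    exact ⟨X, irreducible_X, dvd_zero _, dvd_zero _⟩
  have hint : IsIntegral k t := by
    rw [← isAlgebraic_iff_isIntegral]
    have h1 := hP 0 hm
    have h2 := hQ 0 hm
    rw [taylor_coeff_zero, ← hφ, eval_map_algebraMap] at h1 h2
    by_cases hP0 : P = 0
    · exact ⟨Q, fun h => hPQ ⟨hP0, h⟩, h2⟩
    · exact ⟨P, hP0, h1⟩
  have hirr := minpoly.irreducible hint
  have hsep : (minpoly k t).Separable := PerfectField.separable_of_irreducible hirr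
  refine ⟨minpoly k t, hirr, ?_, ?_⟩
  · exact pow_dvd t _ hsep (minpoly.aeval k t) (fun Q hQ => minpoly.dvd k t hQ) m P hP
  · exact pow_dvd t _ hsep (minpoly.aeval k t) (fun Q hQ => minpoly.dvd k t hQ) m Q hQ

section ring

variable (E : Type*) [NormedField E] [IsUltrametricDist E]

/-- The valuation ring of an ultrametric field. -/
def ri : Subring E where
  carrier := {x | ‖x‖ ≤ 1}
  mul_mem' := fun {a b} ha hb => by
    simp only [Set.mem_ofPred_eq] at *
    rw [norm_mul]
    exact mul_le_one₀ ha (norm_nonneg _) hb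
  one_mem' := by simp
  add_mem' := fun {a b} ha hb => (IsUltrametricDist.norm_add_le_max a b).trans (max_le ha hb)
  zero_mem' := by simp
  neg_mem' := fun {a} ha => by
    simp only [Set.mem_ofPred_eq] at *
    rwa [norm_neg]

/-- Its maximal ideal. -/
def mx : Ideal (ri E) where
  carrier := {x | ‖(x : E)‖ < 1}
  add_mem' := fun {a b} ha hb =>
    (IsUltrametricDist.norm_add_le_max (a : E) (b : E)).trans_lt (max_lt ha hb)
  zero_mem' := by simp
  smul_mem' := fun c x hx => by
    have hx' : ‖(x : E)‖ < 1 := hx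
    have hc : ‖(c : E)‖ ≤ 1 := c.2
    show ‖((c • x : ri E) : E)‖ < 1
    rw [smul_eq_mul, Subring.coe_mul, norm_mul]
    exact mul_lt_one_of_nonneg_of_lt_one_right hc (norm_nonneg _) hx'

theorem mem_mx (x : ri E) : x ∈ mx E ↔ ‖(x : E)‖ < 1 := Iff.rfl

instance mx_max : (mx E).IsMaximal := by
  rw [Ideal.isMaximal_iff]
  refine ⟨fun h => ?_, fun J x hJ hx hxJ => ?_⟩
  · rw [mem_mx] at h
    simp at h
  · rw [mem_mx, not_lt] at hx
    have h1 : ‖(x : E)‖ = 1 := le_antisymm x.2 hx
    have h2 : (x : E) ≠ 0 := by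
      rw [← norm_pos_iff, h1]
      exact one_pos
    have h3 : ‖(x : E)⁻¹‖ ≤ 1 := by rw [norm_inv, h1, inv_one]
    have h4 : (⟨(x : E)⁻¹, h3⟩ : ri E) * x = 1 := by
      ext
      rw [Subring.coe_mul]
      exact inv_mul_cancel₀ h2
    rw [← h4]
    exact J.mul_mem_left _ hxJ

end ring


section E

variable {E : Type} [NormedField E] [IsUltrametricDist E]

theorem sum_lt_one {ι : Type*} (s : Finset ι) (f : ι → E) (h : ∀ i ∈ s, ‖f i‖ < 1) :
    ‖∑ i ∈ s, f i‖ < 1 :=
  Finset.sum_induction f (fun x => ‖x‖ < 1)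
    (fun a b ha hb => (IsUltrametricDist.norm_add_le_max a b).trans_lt (max_lt ha hb))
    (by simp) h

omit [IsUltrametricDist E] in
theorem sub_one (d : ℕ) (P : E[X]) (hP : P.natDegree ≤ d) (t : E) :
    sub d P 1 t 0 1 = taylor t P := by
  rw [sub_eq, taylor_apply, comp, eval₂_eq_sum_range' C (Nat.lt_succ_of_le hP)]
  refine Finset.sum_congr rfl fun i hi => ?_
  simp

theorem coeff_inf_lt (d : ℕ) (P : E[X]) (hP : ∀ i, ‖P.coeff i‖ ≤ 1) (t : E) (ht : ‖t‖ < 1)
    (i : ℕ) (hi : i ≤ d) (h : ‖(sub d P 0 1 1 t).coeff i‖ < 1) : ‖P.coeff (d - i)‖ < 1 := by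
  classical
  have h1 : (sub d P 0 1 1 t).coeff i =
      ∑ j ∈ Finset.range (d + 1), P.coeff j * (t ^ (d - j - i) * ((d - j).choose i : E)) := by
    rw [sub_eq, finsetSum_coeff]
    refine Finset.sum_congr rfl fun j hj => ?_
    rw [C_0, zero_mul, zero_add, C_1, one_pow, mul_one, one_mul, coeff_C_mul,
      coeff_X_add_C_pow]
  have hmem : d - i ∈ Finset.range (d + 1) := Finset.mem_range.2 (by omega)
  rw [← Finset.add_sum_erase _ _ hmem] at h1
  have h2 : ‖∑ j ∈ (Finset.range (d + 1)).erase (d - i),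
      P.coeff j * (t ^ (d - j - i) * ((d - j).choose i : E))‖ < 1 := by
    refine sum_lt_one _ _ fun j hj => ?_
    have hj1 := Finset.ne_of_mem_erase hj
    have hj2 := Finset.mem_range.1 (Finset.mem_of_mem_erase hj)
    rcases lt_or_gt_of_ne hj1 with h3 | h3
    · rw [norm_mul, norm_mul, norm_pow]
      have h4 : ‖t‖ ^ (d - j - i) < 1 := pow_lt_one₀ (norm_nonneg _) ht (by omega)
      have h5 : ‖((d - j).choose i : E)‖ ≤ 1 := IsUltrametricDist.norm_natCast_le_one E _
      have h6 : ‖t‖ ^ (d - j - i) * ‖((d - j).choose i : E)‖ < 1 :=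
        mul_lt_one_of_nonneg_of_lt_one_left (by positivity) h4 h5
      exact mul_lt_one_of_nonneg_of_lt_one_right (hP j) (by positivity) h6
    · rw [Nat.choose_eq_zero_of_lt (by omega)]
      simp
  have h3 : P.coeff (d - i) = (sub d P 0 1 1 t).coeff i -
      ∑ j ∈ (Finset.range (d + 1)).erase (d - i),
      P.coeff j * (t ^ (d - j - i) * ((d - j).choose i : E)) := by
    rw [h1, add_sub_cancel_right, show d - (d - i) - i = 0 by omega, pow_zero, one_mul,
      show d - (d - i) = i by omega, Nat.choose_self, Nat.cast_one, mul_one]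
  rw [h3, sub_eq_add_neg]
  refine (IsUltrametricDist.norm_add_le_max _ _).trans_lt (max_lt h ?_)
  rwa [norm_neg]

end E

end SMin

section Semi

variable {K : Type} [Field K] [NumberField K]

/-- The pair `(F, G)` is semistable at `v`: modulo `v` the two forms have no common zero of
multiplicity at least `(d + 1) / 2` (rounded down), neither at an algebraic point nor at infinity. -/
def Semi (d : ℕ) (F G : (𝓞 K)[X]) (v : HeightOneSpectrum (𝓞 K)) : Prop :=
  (∀ h : (𝓞 K ⧸ v.asIdeal)[X], Irreducible h →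
    ¬(h ^ ((d + 1) / 2) ∣ F.map (Ideal.Quotient.mk v.asIdeal) ∧
      h ^ ((d + 1) / 2) ∣ G.map (Ideal.Quotient.mk v.asIdeal))) ∧
  ∃ i, d < i + (d + 1) / 2 ∧ (F.coeff i ∉ v.asIdeal ∨ G.coeff i ∉ v.asIdeal)

namespace SMin

theorem one_le_det (d : ℕ) (hd : 2 ≤ d) (F G : (𝓞 K)[X]) (hF : F.natDegree ≤ d)
    (hG : G.natDegree ≤ d) (v : HeightOneSpectrum (𝓞 K)) (hs : Semi d F G v) (E : Type)
    [NormedField E] [IsAlgClosed E] [IsUltrametricDist E] [Algebra K E]
    (h : ∀ x : K, ‖algebraMap K E x‖ = av v x) {F' G' : E[X]} {a b c e : E}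
    (H : Adm (NormedField.toAbsoluteValue E) d (F.map (algebraMap (𝓞 K) E))
      (G.map (algebraMap (𝓞 K) E)) F' G' a b c e) : 1 ≤ ‖a * e - b * c‖ := by
  by_contra hlt
  rw [not_le] at hlt
  have hinf : Infinite E := IsAlgClosed.instInfinite
  have hna : IsNonarchimedean (NormedField.toAbsoluteValue E) := fun x y =>
    IsUltrametricDist.norm_add_le_max x y
  have hle : ∀ a : 𝓞 K, ‖algebraMap (𝓞 K) E a‖ ≤ 1 := fun a => by
    rw [SGenV.norm_int E v h]; exact av_int_le_one v a
  rcases exists_dir hinf hna d hd H hlt with ⟨θ, hθ, hc⟩ | ⟨η, hη, hc⟩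
  · have hθ' : ‖θ‖ ≤ 1 := hθ
    have hmax := v.isMaximal
    let _ := Ideal.Quotient.field v.asIdeal
    let _ := Ideal.Quotient.field (mx E)
    have hfin : Finite (𝓞 K ⧸ v.asIdeal) := Ideal.finiteQuotientOfFreeOfNeBot v.asIdeal v.ne_bot
    obtain ⟨ψ, hψ⟩ : ∃ ψ : 𝓞 K →+* ri E, ψ =
        (algebraMap (𝓞 K) E).codRestrict (ri E) hle := ⟨_, rfl⟩
    have hψ' : (ri E).subtype.comp ψ = algebraMap (𝓞 K) E := by
      rw [hψ]; ext x; rfl
    have hker : ∀ a ∈ v.asIdeal, ((Ideal.Quotient.mk (mx E)).comp ψ) a = 0 := by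
      intro a ha
      rw [RingHom.comp_apply, Ideal.Quotient.eq_zero_iff_mem, mem_mx]
      have h1 : ((ψ a : ri E) : E) = algebraMap (𝓞 K) E a := by rw [← hψ']; rfl
      rw [h1, SGenV.norm_int E v h]
      exact (av_int_lt_one v a).2 ha
    obtain ⟨φ, hφ⟩ : ∃ φ : 𝓞 K ⧸ v.asIdeal →+* ri E ⧸ mx E, φ =
        Ideal.Quotient.lift v.asIdeal ((Ideal.Quotient.mk (mx E)).comp ψ) hker := ⟨_, rfl⟩
    have hφ' : φ.comp (Ideal.Quotient.mk v.asIdeal) = (Ideal.Quotient.mk (mx E)).comp ψ := by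
      rw [hφ]; exact Ideal.Quotient.lift_comp_mk _ _ _
    have key : ∀ P : (𝓞 K)[X], P.natDegree ≤ d →
        (∀ i, 2 * i + 1 ≤ d → ‖(sub d (P.map (algebraMap (𝓞 K) E)) 1 θ 0 1).coeff i‖ < 1) →
        ∀ i < (d + 1) / 2, (taylor (Ideal.Quotient.mk (mx E) ⟨θ, hθ'⟩)
          ((P.map (Ideal.Quotient.mk v.asIdeal)).map φ)).coeff i = 0 := by
      intro P hP hP1 i hi
      rw [Polynomial.map_map, hφ', ← Polynomial.map_map, ← map_taylor, coeff_map,
        Ideal.Quotient.eq_zero_iff_mem, mem_mx]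
      have h1 : (((taylor (⟨θ, hθ'⟩ : ri E) (P.map ψ)).coeff i : ri E) : E) =
          ((taylor (⟨θ, hθ'⟩ : ri E) (P.map ψ)).map (ri E).subtype).coeff i := by
        rw [coeff_map]; rfl
      have h2 := hP1 i (by omega)
      rw [sub_one d _ (natDegree_map_le.trans hP)] at h2
      rw [h1, map_taylor, Polynomial.map_map, hψ']
      exact h2
    obtain ⟨hh, h1, h2, h3⟩ := exists_irr φ (F.map (Ideal.Quotient.mk v.asIdeal))
      (G.map (Ideal.Quotient.mk v.asIdeal)) (Ideal.Quotient.mk (mx E) ⟨θ, hθ'⟩) ((d + 1) / 2)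
      (key F hF fun i hi => (hc i hi).1) (key G hG fun i hi => (hc i hi).2)
    exact hs.1 hh h1 ⟨h2, h3⟩
  · have hη' : ‖η‖ < 1 := hη
    obtain ⟨i, hi, hi2⟩ := hs.2
    have key : ∀ P : (𝓞 K)[X], P.natDegree ≤ d →
        (∀ i, 2 * i + 1 ≤ d → ‖(sub d (P.map (algebraMap (𝓞 K) E)) 0 1 1 η).coeff i‖ < 1) →
        P.coeff i ∈ v.asIdeal := by
      intro P hP hP1
      by_cases hid : i ≤ d
      · have h1 := coeff_inf_lt d (P.map (algebraMap (𝓞 K) E)) (fun j => by
          rw [coeff_map]; exact hle _) η hη' (d - i) (by omega) (hP1 (d - i) (by omega))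
        rw [show d - (d - i) = i by omega, coeff_map, SGenV.norm_int E v h] at h1
        exact (av_int_lt_one v _).1 h1
      · rw [coeff_eq_zero_of_natDegree_lt (by omega)]
        exact Submodule.zero_mem _
    rcases hi2 with hi2 | hi2
    · exact hi2 (key F hF fun i hi => (hc i hi).1)
    · exact hi2 (key G hG fun i hi => (hc i hi).2)

end SMin

/-- Every conjugate of a semistable pair has at least the same resultant. -/
theorem le_of_semi (d : ℕ) (hd : 2 ≤ d) (F G : (𝓞 K)[X]) (hF : F.natDegree ≤ d)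
    (hG : G.natDegree ≤ d) (hR : resultant F G d d ≠ 0) (v : HeightOneSpectrum (𝓞 K))
    (hs : Semi d F G v) (E : Type) [NormedField E] [IsAlgClosed E] [IsUltrametricDist E]
    [Algebra K E] (h : ∀ x : K, ‖algebraMap K E x‖ = av v x) (r : ℝ)
    (hr : r ∈ resSet d (F.map (algebraMap (𝓞 K) E)) (G.map (algebraMap (𝓞 K) E))) :
    -Real.log (av v (algebraMap (𝓞 K) K (resultant F G d d))) ≤ r := by
  obtain ⟨F', G', A, hA, h1, h2, h3, h4, h5, rfl⟩ := hr
  have hdet : A 0 0 * A 1 1 - A 0 1 * A 1 0 ≠ 0 := by rwa [Matrix.det_fin_two] at hA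
  have h6 := SMin.one_le_det d hd F G hF hG v hs E h (F' := F') (G' := G') (a := A 0 0)
    (b := A 0 1) (c := A 1 0) (e := A 1 1) ⟨h1, h2, hdet, h3, h4, h5⟩
  rw [← Matrix.det_fin_two] at h6
  have hinj : Function.Injective (algebraMap (𝓞 K) E) := by
    rw [SGenV.hom_comp]
    exact (algebraMap K E).injective.comp RingOfIntegers.coe_injective
  have h7 : resultant (F.map (algebraMap (𝓞 K) E)) (G.map (algebraMap (𝓞 K) E)) d d ≠ 0 := by
    rw [resultant_map_map]
    exact (map_ne_zero_iff _ hinj).mpr hR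
  have h8 := (SGenE.log_res d (by omega) _ _ (natDegree_map_le.trans hF)
    (natDegree_map_le.trans hG) h7 A hA F' G' h1 h2 h5).2
  rw [SGenV.norm_res d F G v E h] at h8
  rw [h8]
  have h9 : 0 ≤ Real.log ‖A.det‖ := Real.log_nonneg h6
  have h10 : (0 : ℝ) ≤ d * (d - 1) := by
    have : (2 : ℝ) ≤ d := by exact_mod_cast hd
    nlinarith
  nlinarith [mul_nonneg h10 h9]

/-- At a prime at which `(F, G)` is semistable, the minimal resultant is the resultant. -/
theorem lamV_of_semi (d : ℕ) (hd : 2 ≤ d) (F G : (𝓞 K)[X]) (hF : F.natDegree ≤ d)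
    (hG : G.natDegree ≤ d) (hR : resultant F G d d ≠ 0) (v : HeightOneSpectrum (𝓞 K))
    (hs : Semi d F G v) :
    lamV d F G v = -Real.log (av v (algebraMap (𝓞 K) K (resultant F G d d))) :=
  le_antisymm (lamV_le d F G hF hG v) (le_lamV d F G hF hG v _ fun E _ _ _ _ h r hr =>
    le_of_semi d hd F G hF hG hR v hs E h r hr)

end Semi

end Pool.Agent.RI
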