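import Mathlib
import Pool.Agent.RI.SMin

set_option autoImplicit false

/-!
# Primes whose square does not divide the resultant are semistable
-/

namespace Pool.Agent.RI

open Polynomial NumberField IsDedekindDomain Pool.Agent.GPoly

namespace SMin

/-- The adjugate of a matrix with a kernel of dimension at least two. -/
theorem adj_zero {k : Type*} [Field k] {n : ℕ} (M : Matrix (Fin n) (Fin n) k)
    (h : ∀ i, ∃ w : Fin n → k, w ≠ 0 ∧ M.mulVec w = 0 ∧ w i = 0) : M.adjugate = 0 := by
  ext i j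
  rw [Matrix.adjugate_apply, Matrix.zero_apply, ← Matrix.exists_mulVec_eq_zero_iff]
  obtain ⟨w, hw, hM, hi⟩ := h i
  refine ⟨w, hw, ?_⟩
  ext l
  by_cases hl : l = j
  · subst hl
    rw [Matrix.mulVec, Matrix.updateRow_self, single_one_dotProduct, hi, Pi.zero_apply]
  · have h1 := congrFun hM l
    rw [Matrix.mulVec] at h1 ⊢
    rw [Matrix.updateRow_ne hl]
    exact h1

/-- Two forms with a common factor of degree at least two. -/
theorem adj_syl {k : Type*} [Field k] (d : ℕ) (P A B : k[X]) (hA : A.natDegree + 2 ≤ d)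
    (hB : B.natDegree + 2 ≤ d) (hF : (P * A).natDegree ≤ d) (hG : (P * B).natDegree ≤ d)
    (h0 : A ≠ 0 ∨ B ≠ 0) : (sylvester (P * A) (P * B) d d).adjugate = 0 := by
  refine adj_zero _ fun i => ?_
  have hmem : ∀ Q : k[X], Q.natDegree + 2 ≤ d → Q ∈ degreeLT k d ∧ X * Q ∈ degreeLT k d := by
    intro Q hQ
    constructor
    · rw [mem_degreeLT]
      exact (degree_le_natDegree).trans_lt (by exact_mod_cast (by omega : Q.natDegree < d))
    · rw [mem_degreeLT]
      refine (degree_le_natDegree).trans_lt ?_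
      have h1 : (X * Q).natDegree ≤ 1 + Q.natDegree :=
        natDegree_mul_le.trans (Nat.add_le_add_right natDegree_X_le _)
      exact_mod_cast (by omega : (X * Q).natDegree < d)
  obtain ⟨b, hb⟩ : ∃ b, b = ((degreeLT.basis k d).prod (degreeLT.basis k d)).reindex
    finSumFinEquiv := ⟨_, rfl⟩
  obtain ⟨x, hx⟩ : ∃ x : degreeLT k d × degreeLT k d, x =
    (⟨A, (hmem A hA).1⟩, -⟨B, (hmem B hB).1⟩) := ⟨_, rfl⟩
  obtain ⟨y, hy⟩ : ∃ y : degreeLT k d × degreeLT k d, y =
    (⟨X * A, (hmem A hA).2⟩, -⟨X * B, (hmem B hB).2⟩) := ⟨_, rfl⟩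
  have hsx : sylvesterMap (P * A) (P * B) hF hG x = 0 := by
    ext1
    rw [hx]
    simp only [sylvesterMap_apply_coe]
    simp
    ring
  have hsy : sylvesterMap (P * A) (P * B) hF hG y = 0 := by
    ext1
    rw [hy]
    simp only [sylvesterMap_apply_coe]
    simp
    ring
  obtain ⟨g, e, hge, hz⟩ : ∃ g e : k, (g ≠ 0 ∨ e ≠ 0) ∧ g * b.repr x i + e * b.repr y i = 0 := by
    by_cases h1 : b.repr x i = 0
    · exact ⟨1, 0, Or.inl one_ne_zero, by rw [h1]; ring⟩
    · exact ⟨-b.repr y i, b.repr x i, Or.inr h1, by ring⟩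
  refine ⟨b.repr (g • x + e • y), ?_, ?_, ?_⟩
  · intro h1
    have h2 : g • x + e • y = 0 := by
      apply b.repr.injective
      rw [map_zero]
      exact DFunLike.coe_injective (by rw [h1]; rfl)
    have hT : C g + C e * X ≠ 0 := by
      intro h3
      have h4 := congrArg (fun p : k[X] => p.coeff 0) h3
      have h5 := congrArg (fun p : k[X] => p.coeff 1) h3
      simp [coeff_C] at h4 h5
      rcases hge with h | h
      · exact h h4
      · exact h h5
    have h3 := congrArg (fun p : degreeLT k d × degreeLT k d => (p.1 : k[X])) h2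
    have h4 := congrArg (fun p : degreeLT k d × degreeLT k d => (p.2 : k[X])) h2
    have h3' : (C g + C e * X) * A = 0 := by
      have h5 : (C g + C e * X) * A = g • A + e • (X * A) := by
        rw [smul_eq_C_mul, smul_eq_C_mul]; ring
      rw [h5]
      rw [hx, hy] at h3
      exact h3
    have h4' : (C g + C e * X) * B = 0 := by
      have h5 : (C g + C e * X) * B = -(g • -B + e • -(X * B)) := by
        rw [smul_eq_C_mul, smul_eq_C_mul]; ring
      rw [h5, neg_eq_zero]
      rw [hx, hy] at h4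
      exact h4
    rcases h0 with h | h
    · exact (mul_ne_zero hT h) h3'
    · exact (mul_ne_zero hT h) h4'
  · have h1 := LinearMap.toMatrix_mulVec_repr b (degreeLT.basis k (d + d))
      (sylvesterMap (P * A) (P * B) hF hG) (g • x + e • y)
    have h2 : sylvesterMap (P * A) (P * B) hF hG (g • x + e • y) = 0 := by
      rw [map_add, map_smul, map_smul, hsx, hsy, smul_zero, smul_zero, add_zero]
    rw [hb, toMatrix_sylvesterMap', ← hb, h2, map_zero] at h1
    exact h1
  · rw [map_add, map_smul, map_smul]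
    exact hz

variable {K : Type} [Field K] [NumberField K]

theorem det_mem {R : Type*} [CommRing R] {n : ℕ} (I : Ideal R) (M : Matrix (Fin n) (Fin n) R)
    (h : ∀ i j, M i j ∈ I) : M.det ∈ I ^ n := by
  rw [Matrix.det_apply]
  refine Ideal.sum_mem _ fun σ _ => ?_
  rw [Units.smul_def]
  refine zsmul_mem ?_ _
  have h1 := Ideal.prod_mem_prod (s := Finset.univ) (I := fun _ : Fin n => I)
    (x := fun i => M (σ i) i) fun i _ => h _ _
  rwa [Finset.prod_const, Finset.card_univ, Fintype.card_fin] at h1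

theorem mem_sq_of_adj (v : HeightOneSpectrum (𝓞 K)) {n : ℕ} (hn : 1 ≤ n)
    (M : Matrix (Fin n) (Fin n) (𝓞 K)) (h : ∀ i j, M.adjugate i j ∈ v.asIdeal) :
    M.det ∈ v.asIdeal ^ 2 := by
  by_cases h0 : M.det = 0
  · rw [h0]; exact Submodule.zero_mem _
  have h1 := det_mem _ _ h
  rw [Matrix.det_adjugate, Fintype.card_fin, av_int_le_pow, map_pow, map_pow] at h1
  rw [av_int_le_pow]
  have hx : algebraMap (𝓞 K) K M.det ≠ 0 := by
    rwa [Ne, FaithfulSMul.algebraMap_eq_zero_iff]
  obtain ⟨t, ht⟩ := av_disc v _ hx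
  have hq := lq_pos v
  rw [ht] at h1 ⊢
  rw [← Real.exp_nat_mul, Real.exp_le_exp] at h1
  rw [Real.exp_le_exp]
  by_contra h2
  rw [not_le] at h2
  have h3 : (t : ℝ) < 2 := by
    push_cast at h2
    nlinarith
  have h4 : t ≤ 1 := by
    have : t < 2 := by exact_mod_cast h3
    omega
  have h5 : (t : ℝ) ≤ 1 := by exact_mod_cast h4
  have h6 : ((n - 1 : ℕ) : ℝ) = n - 1 := by rw [Nat.cast_sub hn, Nat.cast_one]
  rw [h6] at h1
  have h7 : (0 : ℝ) ≤ n - 1 := by
    have : (1 : ℝ) ≤ n := by exact_mod_cast hn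
    linarith
  have h8 : ((n : ℝ) - 1) * (t * lq v) ≤ (n - 1) * (1 * lq v) :=
    mul_le_mul_of_nonneg_left (mul_le_mul_of_nonneg_right h5 hq.le) h7
  nlinarith

end SMin

variable {K : Type} [Field K] [NumberField K]

/-- A prime whose square does not divide the resultant is semistable, if `d ≥ 3`. -/
theorem semi_of_sq (d : ℕ) (hd : 3 ≤ d) (F G : (𝓞 K)[X]) (hF : F.natDegree ≤ d)
    (hG : G.natDegree ≤ d) (v : HeightOneSpectrum (𝓞 K))
    (h : resultant F G d d ∉ v.asIdeal ^ 2) : Semi d F G v := by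
  by_contra hs
  apply h
  have hmax := v.isMaximal
  let _ := Ideal.Quotient.field v.asIdeal
  have hm : 2 ≤ (d + 1) / 2 := by omega
  have key : (sylvester (F.map (Ideal.Quotient.mk v.asIdeal))
      (G.map (Ideal.Quotient.mk v.asIdeal)) d d).adjugate = 0 →
      resultant F G d d ∈ v.asIdeal ^ 2 := by
    intro h1
    refine SMin.mem_sq_of_adj v (by omega) _ fun i j => ?_
    rw [sylvester_map_map, ← RingHom.map_adjugate] at h1
    have h2 := congrFun (congrFun h1 i) j
    rw [RingHom.mapMatrix_apply, Matrix.map_apply, Matrix.zero_apply,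
      Ideal.Quotient.eq_zero_iff_mem] at h2
    exact h2
  have hF' : (F.map (Ideal.Quotient.mk v.asIdeal)).natDegree ≤ d := natDegree_map_le.trans hF
  have hG' : (G.map (Ideal.Quotient.mk v.asIdeal)).natDegree ≤ d := natDegree_map_le.trans hG
  refine key ?_
  by_cases h0 : F.map (Ideal.Quotient.mk v.asIdeal) = 0 ∧ G.map (Ideal.Quotient.mk v.asIdeal) = 0
  · rw [h0.1, h0.2]
    have hnt : Nontrivial (Fin (d + d)) := Fin.nontrivial_iff_two_le.2 (by omega)
    have h1 : sylvester (0 : (𝓞 K ⧸ v.asIdeal)[X]) 0 d d = 0 := by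
      ext i j
      rw [sylvester, Matrix.of_apply]
      induction j using Fin.addCases with
      | left j => rw [Fin.addCases_left]; simp
      | right j => rw [Fin.addCases_right]; simp
    rw [h1, Matrix.adjugate_zero]
  rw [not_and_or] at h0
  rw [Semi, not_and_or] at hs
  rcases hs with hs | hs
  · push Not at hs
    obtain ⟨p, hp, h1, h2⟩ := hs
    obtain ⟨A, hA⟩ := (pow_dvd_pow p hm).trans h1
    obtain ⟨B, hB⟩ := (pow_dvd_pow p hm).trans h2
    have hp1 := hp.natDegree_pos
    have hp2 : (p ^ 2).natDegree = 2 * p.natDegree := natDegree_pow _ _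
    have hp0 : p ^ 2 ≠ 0 := pow_ne_zero _ hp.ne_zero
    rw [hA] at hF' h0
    rw [hB] at hG' h0
    rw [hA, hB]
    refine SMin.adj_syl d _ A B ?_ ?_ hF' hG' ?_
    · by_cases hA0 : A = 0
      · rw [hA0, natDegree_zero]; omega
      · rw [natDegree_mul hp0 hA0] at hF'
        omega
    · by_cases hB0 : B = 0
      · rw [hB0, natDegree_zero]; omega
      · rw [natDegree_mul hp0 hB0] at hG'
        omega
    · rcases h0 with h0 | h0
      · exact Or.inl (right_ne_zero_of_mul h0)
      · exact Or.inr (right_ne_zero_of_mul h0)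
  · push Not at hs
    have hdeg : ∀ P : (𝓞 K)[X], (∀ i, d < i + (d + 1) / 2 → P.coeff i ∈ v.asIdeal) →
        (P.map (Ideal.Quotient.mk v.asIdeal)).natDegree + 2 ≤ d := by
      intro P hP
      have h1 : (P.map (Ideal.Quotient.mk v.asIdeal)).natDegree ≤ d - 2 := by
        rw [natDegree_le_iff_coeff_eq_zero]
        intro N hN
        rw [coeff_map, Ideal.Quotient.eq_zero_iff_mem]
        exact hP N (by omega)
      omega
    have h1 := SMin.adj_syl d 1 (F.map (Ideal.Quotient.mk v.asIdeal))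
      (G.map (Ideal.Quotient.mk v.asIdeal)) (hdeg F fun i hi => (hs i hi).1)
      (hdeg G fun i hi => (hs i hi).2) (by rw [one_mul]; exact hF') (by rw [one_mul]; exact hG') h0
    rwa [one_mul, one_mul] at h1

/-- If `d ≥ 3` and the square of `v` does not divide the resultant, the minimal resultant at `v` is
the resultant. -/
theorem lamV_of_sq (d : ℕ) (hd : 3 ≤ d) (F G : (𝓞 K)[X]) (hF : F.natDegree ≤ d)
    (hG : G.natDegree ≤ d) (v : HeightOneSpectrum (𝓞 K))
    (h : resultant F G d d ∉ v.asIdeal ^ 2) :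
    lamV d F G v = -Real.log (av v (algebraMap (𝓞 K) K (resultant F G d d))) := by
  refine lamV_of_semi d (by omega) F G hF hG ?_ v (semi_of_sq d hd F G hF hG v h)
  intro h0
  rw [h0] at h
  exact h (Submodule.zero_mem _)

end Pool.Agent.RI
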