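import Mathlib
import Pool.Agent.RI.Defs
import Pool.Agent.RDF.Fib
import Pool.Agent.RI.Res

set_option autoImplicit false

/-!
# Reduced conjugates
-/

namespace Pool.Agent.RI

open Polynomial Pool.Agent.RDF

namespace RedAux

variable {L : Type*} [Field L]

theorem natDegree_l (a b : L) : (C a * X + C b).natDegree ≤ 1 := by
  refine (natDegree_add_le _ _).trans (max_le ?_ (by simp))
  exact (natDegree_C_mul_le _ _).trans natDegree_X_le

theorem sub_eq (d : ℕ) (F : L[X]) (a b c e : L) : sub d F a b c e =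
    ∑ i ∈ Finset.range (d + 1), C (F.coeff i) * (C a * X + C b) ^ i * (C c * X + C e) ^ (d - i) := by
  unfold sub form
  simp only [coeff_map]

theorem natDegree_term (d i : ℕ) (hi : i ≤ d) (r a b c e : L) :
    (C r * (C a * X + C b) ^ i * (C c * X + C e) ^ (d - i)).natDegree ≤ d := by
  refine natDegree_mul_le.trans ?_
  have h1 : (C r * (C a * X + C b) ^ i).natDegree ≤ i := by
    refine (natDegree_C_mul_le _ _).trans (natDegree_pow_le.trans ?_)
    calc i * (C a * X + C b).natDegree ≤ i * 1 := Nat.mul_le_mul_left _ (natDegree_l a b)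
      _ = i := mul_one i
  have h2 : ((C c * X + C e) ^ (d - i)).natDegree ≤ d - i := by
    refine natDegree_pow_le.trans ?_
    calc (d - i) * (C c * X + C e).natDegree ≤ (d - i) * 1 := Nat.mul_le_mul_left _ (natDegree_l c e)
      _ = d - i := mul_one _
  omega

theorem sub_natDegree (d : ℕ) (F : L[X]) (a b c e : L) : (sub d F a b c e).natDegree ≤ d := by
  rw [sub_eq]
  refine natDegree_sum_le_of_forall_le _ _ fun i hi => ?_
  exact natDegree_term d i (Nat.lt_succ_iff.1 (Finset.mem_range.1 hi)) _ _ _ _ _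

theorem coeff_l_pow (a b : L) (i : ℕ) : ((C a * X + C b) ^ i).coeff i = a ^ i := by
  have h := coeff_pow_of_natDegree_le (p := C a * X + C b) (n := 1) (m := i) (natDegree_l a b)
  rw [mul_one] at h
  rw [h]
  congr 1
  simp

theorem form_sub (d : ℕ) (F : L[X]) (a b c e : L) (x : L × L) :
    form d (sub d F a b c e) x = form d F (ap a b c e x) := by
  obtain ⟨p, q⟩ := x
  by_cases hq : q = 0
  · subst hq
    rw [form_infty, sub_eq, finsetSum_coeff, Finset.sum_mul, form]
    refine Finset.sum_congr rfl fun i hi => ?_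
    have hi' : i ≤ d := Nat.lt_succ_iff.1 (Finset.mem_range.1 hi)
    have h1 : (C (F.coeff i) * (C a * X + C b) ^ i).natDegree ≤ i := by
      refine (natDegree_C_mul_le _ _).trans (natDegree_pow_le.trans ?_)
      calc i * (C a * X + C b).natDegree ≤ i * 1 := Nat.mul_le_mul_left _ (natDegree_l a b)
        _ = i := mul_one i
    have h2 : ((C c * X + C e) ^ (d - i)).natDegree ≤ d - i := by
      refine natDegree_pow_le.trans ?_
      calc (d - i) * (C c * X + C e).natDegree ≤ (d - i) * 1 := Nat.mul_le_mul_left _ (natDegree_l c e)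
        _ = d - i := mul_one _
    have h3 : (C (F.coeff i) * (C a * X + C b) ^ i * (C c * X + C e) ^ (d - i)).coeff d =
        F.coeff i * a ^ i * c ^ (d - i) := by
      conv_lhs => rw [show d = i + (d - i) by omega]
      rw [show i + (d - i) - i = d - i by omega, coeff_mul_add_eq_of_natDegree_le h1 h2, coeff_C_mul, coeff_l_pow, coeff_l_pow]
    rw [h3]
    simp only [ap, mul_zero, add_zero]
    have h4 : p ^ d = p ^ i * p ^ (d - i) := by rw [← pow_add]; congr 1; omega
    rw [h4, mul_pow, mul_pow]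
    ring
  · rw [form_affine d _ (sub_natDegree d F a b c e) _ _ hq, sub_eq, eval_finsetSum, Finset.mul_sum, form]
    refine Finset.sum_congr rfl fun i hi => ?_
    have hi' : i ≤ d := Nat.lt_succ_iff.1 (Finset.mem_range.1 hi)
    simp only [eval_mul, eval_pow, eval_add, eval_C, eval_X, ap]
    have h4 : q ^ d = q ^ i * q ^ (d - i) := by rw [← pow_add]; congr 1; omega
    have h5 : a * p + b * q = q * (a * (p / q) + b) := by field_simp
    have h6 : c * p + e * q = q * (c * (p / q) + e) := by field_simp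
    rw [h4, h5, h6, mul_pow, mul_pow]
    ring

theorem form_lc (d : ℕ) (F G : L[X]) (r s : L) (x : L × L) :
    form d (C r * F + C s * G) x = r * form d F x + s * form d G x := by
  simp only [form, coeff_add, coeff_C_mul, Finset.mul_sum, ← Finset.sum_add_distrib]
  exact Finset.sum_congr rfl fun i _ => by ring

/-- `cj` is `A Φ A'` -/
theorem lift_cj' (d : ℕ) (F G : L[X]) (a b c e : L) (x : L × L) :
    lift d (cj1 d F G a b c e) (cj2 d F G a b c e) x = ap a b c e (lift d F G (ap e (-b) (-c) a x)) := by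
  unfold lift cj1 cj2
  rw [form_lc, form_lc, form_sub, form_sub]
  rfl

theorem natDegree_lc (d : ℕ) {F G : L[X]} (hF : F.natDegree ≤ d) (hG : G.natDegree ≤ d) (r s : L) :
    (C r * F + C s * G).natDegree ≤ d :=
  (natDegree_add_le _ _).trans (max_le ((natDegree_C_mul_le _ _).trans hF) ((natDegree_C_mul_le _ _).trans hG))

theorem cj1_natDegree (d : ℕ) (F G : L[X]) (a b c e : L) : (cj1 d F G a b c e).natDegree ≤ d :=
  natDegree_lc d (sub_natDegree _ _ _ _ _ _) (sub_natDegree _ _ _ _ _ _) _ _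

theorem cj2_natDegree (d : ℕ) (F G : L[X]) (a b c e : L) : (cj2 d F G a b c e).natDegree ≤ d :=
  natDegree_lc d (sub_natDegree _ _ _ _ _ _) (sub_natDegree _ _ _ _ _ _) _ _

theorem lift_ext [Infinite L] (d : ℕ) {F G F' G' : L[X]} (hF : F.natDegree ≤ d) (hG : G.natDegree ≤ d)
    (hF' : F'.natDegree ≤ d) (hG' : G'.natDegree ≤ d) (h : ∀ x, lift d F G x = lift d F' G' x) : F = F' ∧ G = G' := by
  constructor
  · apply Polynomial.funext
    intro t
    rw [← form_one d F hF, ← form_one d F' hF']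
    exact congrArg Prod.fst (h (t, 1))
  · apply Polynomial.funext
    intro t
    rw [← form_one d G hG, ← form_one d G' hG']
    exact congrArg Prod.snd (h (t, 1))

theorem ap_ap (a b c e a' b' c' e' : L) (x : L × L) : ap a' b' c' e' (ap a b c e x) =
    ap (a' * a + b' * c) (a' * b + b' * e) (c' * a + e' * c) (c' * b + e' * e) x := by
  ext <;> simp only [ap] <;> ring

theorem ap_smul (a b c e s : L) (x : L × L) : ap a b c e (s • x) = s • ap a b c e x := by
  ext <;> simp only [ap, Prod.smul_fst, Prod.smul_snd, smul_eq_mul] <;> ring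

theorem ap_adj (a b c e : L) (x : L × L) : ap e (-b) (-c) a (ap a b c e x) = (a * e - b * c) • x := by
  ext <;> simp only [ap, Prod.smul_fst, Prod.smul_snd, smul_eq_mul] <;> ring

theorem lift_C_mul (d : ℕ) (F G : L[X]) (s : L) (x : L × L) : lift d (C s * F) (C s * G) x = s • lift d F G x := by
  unfold lift
  rw [form_C_mul, form_C_mul]
  rfl

/-- composition of conjugations, with a factor -/
theorem cj_cj [Infinite L] (d : ℕ) (F G : L[X]) (s a b c e a' b' c' e' : L) :
    cj1 d (C s * cj1 d F G a b c e) (C s * cj2 d F G a b c e) a' b' c' e' =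
      C s * cj1 d F G (a' * a + b' * c) (a' * b + b' * e) (c' * a + e' * c) (c' * b + e' * e) ∧
    cj2 d (C s * cj1 d F G a b c e) (C s * cj2 d F G a b c e) a' b' c' e' =
      C s * cj2 d F G (a' * a + b' * c) (a' * b + b' * e) (c' * a + e' * c) (c' * b + e' * e) := by
  refine lift_ext d (cj1_natDegree _ _ _ _ _ _ _) (cj2_natDegree _ _ _ _ _ _ _)
    ((natDegree_C_mul_le _ _).trans (cj1_natDegree _ _ _ _ _ _ _)) ((natDegree_C_mul_le _ _).trans (cj2_natDegree _ _ _ _ _ _ _)) ?_
  intro x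
  rw [lift_cj', lift_C_mul, lift_cj', lift_C_mul, lift_cj', ap_smul, ap_ap, ap_ap]
  congr 3
  ext <;> simp only [ap] <;> ring

variable (abv : AbsoluteValue L ℝ)

/-- the size of the coefficients -/
noncomputable def cn (d : ℕ) (F G : L[X]) : ℝ :=
  (Finset.range (d + 1)).sup' ⟨0, Finset.mem_range.2 (Nat.succ_pos d)⟩ (fun i => max (abv (F.coeff i)) (abv (G.coeff i)))

theorem le_cn {d : ℕ} {F G : L[X]} (hF : F.natDegree ≤ d) (hG : G.natDegree ≤ d) (i : ℕ) :
    abv (F.coeff i) ≤ cn abv d F G ∧ abv (G.coeff i) ≤ cn abv d F G := by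
  by_cases hi : i ≤ d
  · have h := Finset.le_sup' (fun i => max (abv (F.coeff i)) (abv (G.coeff i))) (Finset.mem_range.2 (Nat.lt_succ_of_le hi))
    exact ⟨(le_max_left _ _).trans h, (le_max_right _ _).trans h⟩
  · rw [coeff_eq_zero_of_natDegree_lt (by omega), coeff_eq_zero_of_natDegree_lt (by omega), map_zero]
    have h := Finset.le_sup' (fun i => max (abv (F.coeff i)) (abv (G.coeff i))) (Finset.mem_range.2 (Nat.succ_pos d))
    have h0 : 0 ≤ cn abv d F G := ((abv.nonneg _).trans (le_max_left _ _)).trans h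
    exact ⟨h0, h0⟩

theorem cn_att (d : ℕ) (F G : L[X]) : ∃ t : L, abv t = cn abv d F G := by
  obtain ⟨i, -, hi⟩ := Finset.exists_mem_eq_sup' (s := Finset.range (d + 1)) ⟨0, Finset.mem_range.2 (Nat.succ_pos d)⟩
    (fun i => max (abv (F.coeff i)) (abv (G.coeff i)))
  rcases max_choice (abv (F.coeff i)) (abv (G.coeff i)) with h | h
  · exact ⟨F.coeff i, by unfold cn; rw [hi, h]⟩
  · exact ⟨G.coeff i, by unfold cn; rw [hi, h]⟩

theorem cn_le {d : ℕ} {F G : L[X]} {B : ℝ} (hF : ∀ i, abv (F.coeff i) ≤ B) (hG : ∀ i, abv (G.coeff i) ≤ B) :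
    cn abv d F G ≤ B :=
  Finset.sup'_le _ _ fun i _ => max_le (hF i) (hG i)

theorem abv_res_le {d : ℕ} {F G : L[X]} (hF : F.natDegree ≤ d) (hG : G.natDegree ≤ d) :
    abv (resultant F G d d) ≤ (Nat.factorial (d + d)) * cn abv d F G ^ (d + d) := by
  have h := Matrix.det_le (A := sylvester F G d d) (abv := abv) (x := cn abv d F G) (fun i j => by
    unfold sylvester
    rw [Matrix.of_apply]
    have h0 : 0 ≤ cn abv d F G := (abv.nonneg _).trans (le_cn abv hF hG 0).1
    induction j using Fin.addCases with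
    | left j =>
      rw [Fin.addCases_left]
      split_ifs
      · exact (le_cn abv hF hG _).2
      · rw [map_zero]; exact h0
    | right j =>
      rw [Fin.addCases_right]
      split_ifs
      · exact (le_cn abv hF hG _).1
      · rw [map_zero]; exact h0)
  rw [Fintype.card_fin, nsmul_eq_mul] at h
  exact h

theorem cn_pos {d : ℕ} (hd : 1 ≤ d) {F G : L[X]} (hF : F.natDegree ≤ d) (hG : G.natDegree ≤ d) (hR : resultant F G d d ≠ 0) :
    0 < cn abv d F G := by
  rcases lt_or_ge 0 (cn abv d F G) with h | h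
  · exact h
  · exfalso
    have h0 : cn abv d F G = 0 := le_antisymm h ((abv.nonneg _).trans (le_cn abv hF hG 0).1)
    have h1 := abv_res_le abv hF hG
    rw [h0, zero_pow (by omega), mul_zero] at h1
    exact absurd (abv.pos hR) (not_lt.2 h1)

end RedAux

open RedAux

theorem exists_red_aux (d : ℕ) (hd : 2 ≤ d) {L : Type} [Field L] [IsAlgClosed L]
    (abv : AbsoluteValue L ℝ) (F G : L[X]) (hR : resultant F G d d ≠ 0)
    (hcj : ∀ a b c e : L, abv (resultant (cj1 d F G a b c e) (cj2 d F G a b c e) d d) =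
      abv (a * e - b * c) ^ (d + d ^ 2) * abv (resultant F G d d)) :
    ∃ (F' G' : L[X]) (a b c e : L), F'.natDegree ≤ d ∧ G'.natDegree ≤ d ∧
      resultant F' G' d d ≠ 0 ∧ Red abv d F' G' ∧ a * e - b * c ≠ 0 ∧
      (∀ x, PV d F G x → PV d F' G' (ap a b c e x)) ∧
      ∀ x y, wedge x y ≠ 0 →
        gg abv d F' G' (ap a b c e x) (ap a b c e y) = gg abv d F G x y := by
  classical
  have hRc : ∀ a b c e : L, a * e - b * c ≠ 0 → resultant (cj1 d F G a b c e) (cj2 d F G a b c e) d d ≠ 0 := by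
    intro a b c e h h0
    have h1 := hcj a b c e
    rw [h0, map_zero] at h1
    exact absurd h1.symm (mul_ne_zero (pow_ne_zero _ (abv.ne_zero h)) (abv.ne_zero hR))
  have hcp : ∀ a b c e : L, a * e - b * c ≠ 0 → 0 < cn abv d (cj1 d F G a b c e) (cj2 d F G a b c e) := fun a b c e h =>
    cn_pos abv (by omega) (cj1_natDegree _ _ _ _ _ _ _) (cj2_natDegree _ _ _ _ _ _ _) (hRc a b c e h)
  obtain ⟨f, hf⟩ : ∃ f : L × L × L × L → ℝ, f = fun v => 2 * d * Real.log (cn abv d (cj1 d F G v.1 v.2.1 v.2.2.1 v.2.2.2)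
    (cj2 d F G v.1 v.2.1 v.2.2.1 v.2.2.2)) - (d + d ^ 2) * Real.log (abv (v.1 * v.2.2.2 - v.2.1 * v.2.2.1)) := ⟨_, rfl⟩
  obtain ⟨S, hS⟩ : ∃ S : Set ℝ, S = f '' {v | v.1 * v.2.2.2 - v.2.1 * v.2.2.1 ≠ 0} := ⟨_, rfl⟩
  have hfv : ∀ a b c e, f (a, b, c, e) = 2 * d * Real.log (cn abv d (cj1 d F G a b c e) (cj2 d F G a b c e)) -
      (d + d ^ 2) * Real.log (abv (a * e - b * c)) := fun a b c e => by rw [hf]
  have hSne : S.Nonempty := ⟨f (1, 0, 0, 1), by rw [hS]; exact ⟨_, by simp, rfl⟩⟩
  have hSb : BddBelow S := by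
    refine ⟨Real.log (abv (resultant F G d d)) - Real.log (Nat.factorial (d + d)), ?_⟩
    rintro s hs
    rw [hS] at hs
    obtain ⟨⟨a, b, c, e⟩, h, rfl⟩ := hs
    have h' : a * e - b * c ≠ 0 := h
    rw [hfv]
    have h1 := abv_res_le abv (cj1_natDegree d F G a b c e) (cj2_natDegree d F G a b c e)
    rw [hcj] at h1
    have p1 : 0 < abv (a * e - b * c) := abv.pos h'
    have p2 : 0 < abv (resultant F G d d) := abv.pos hR
    have p3 := hcp a b c e h'
    have p4 : (0 : ℝ) < Nat.factorial (d + d) := by exact_mod_cast Nat.factorial_pos _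
    have h2 := Real.log_le_log (mul_pos (pow_pos p1 _) p2) h1
    rw [Real.log_mul (pow_pos p1 _).ne' p2.ne', Real.log_mul p4.ne' (pow_pos p3 _).ne', Real.log_pow, Real.log_pow] at h2
    push_cast at h2
    linarith
  obtain ⟨s0, hs0, hlt⟩ := exists_lt_of_csInf_lt hSne (show sInf S < sInf S + 1 by linarith)
  rw [hS] at hs0
  obtain ⟨⟨a, b, c, e⟩, hA, rfl⟩ := hs0
  have hA' : a * e - b * c ≠ 0 := hA
  have hc0 := hcp a b c e hA'
  obtain ⟨t0, ht0⟩ := cn_att abv d (cj1 d F G a b c e) (cj2 d F G a b c e)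
  have ht0' : t0 ≠ 0 := by
    rintro rfl
    rw [map_zero] at ht0
    exact hc0.ne ht0
  obtain ⟨s, hs⟩ : ∃ s, s = t0⁻¹ := ⟨_, rfl⟩
  have hsne : s ≠ 0 := by rw [hs]; exact inv_ne_zero ht0'
  have habs : abv s * cn abv d (cj1 d F G a b c e) (cj2 d F G a b c e) = 1 := by
    rw [hs, map_inv₀, ht0, inv_mul_cancel₀ hc0.ne']
  obtain ⟨F', hF'⟩ : ∃ F', F' = C s * cj1 d F G a b c e := ⟨_, rfl⟩
  obtain ⟨G', hG'⟩ : ∃ G', G' = C s * cj2 d F G a b c e := ⟨_, rfl⟩
  have hFd : F'.natDegree ≤ d := by rw [hF']; exact (natDegree_C_mul_le _ _).trans (cj1_natDegree _ _ _ _ _ _ _)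
  have hGd : G'.natDegree ≤ d := by rw [hG']; exact (natDegree_C_mul_le _ _).trans (cj2_natDegree _ _ _ _ _ _ _)
  have hR' : resultant F' G' d d = s ^ d * (s ^ d * resultant (cj1 d F G a b c e) (cj2 d F G a b c e) d d) := by
    rw [hF', hG', resultant_C_mul_left, resultant_C_mul_right]
  have hRabs : abv (resultant F' G' d d) = abv s ^ (2 * d) * (abv (a * e - b * c) ^ (d + d ^ 2) * abv (resultant F G d d)) := by
    rw [hR', map_mul, map_mul, map_pow, hcj]
    ring
  -- the scalar
  obtain ⟨r, hr⟩ := IsAlgClosed.exists_pow_nat_eq (s * (a * e - b * c) ^ d)⁻¹ (show 0 < d - 1 by omega)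
  have hden : s * (a * e - b * c) ^ d ≠ 0 := mul_ne_zero hsne (pow_ne_zero _ hA')
  have hrne : r ≠ 0 := by
    rintro rfl
    rw [zero_pow (by omega)] at hr
    exact inv_ne_zero hden hr.symm
  have hrd : s * r ^ d * (a * e - b * c) ^ d = r := by
    have e1 : r ^ d = r ^ (d - 1) * r := by rw [← pow_succ]; congr 1; omega
    rw [e1, hr]
    field_simp
  have hlift : ∀ x, lift d F' G' (ap (r * a) (r * b) (r * c) (r * e) x) = ap (r * a) (r * b) (r * c) (r * e) (lift d F G x) := by
    intro x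
    have e1 : ∀ y : L × L, ap (r * a) (r * b) (r * c) (r * e) y = r • ap a b c e y := by
      intro y
      ext <;> simp only [ap, Prod.smul_fst, Prod.smul_snd, smul_eq_mul] <;> ring
    rw [hF', hG', lift_C_mul, lift_cj', e1, e1, ap_smul, ap_adj, smul_smul, lift_smul, ap_smul, smul_smul]
    congr 1
    rw [mul_pow]
    calc s * (r ^ d * (a * e - b * c) ^ d) = s * r ^ d * (a * e - b * c) ^ d := by ring
      _ = r := hrd
  have hiter : ∀ k x, (lift d F' G')^[k] (ap (r * a) (r * b) (r * c) (r * e) x) =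
      ap (r * a) (r * b) (r * c) (r * e) ((lift d F G)^[k] x) := by
    intro k
    induction k with
    | zero => intro x; rfl
    | succ k ih => intro x; rw [Function.iterate_succ_apply, hlift, ih, Function.iterate_succ_apply]
  have hdet : (r * a) * (r * e) - (r * b) * (r * c) ≠ 0 := by
    have : (r * a) * (r * e) - (r * b) * (r * c) = r ^ 2 * (a * e - b * c) := by ring
    rw [this]
    exact mul_ne_zero (pow_ne_zero _ hrne) hA'
  refine ⟨F', G', r * a, r * b, r * c, r * e, hFd, hGd, ?_, ⟨?_, ?_, ?_⟩, hdet, ?_, ?_⟩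
  · rw [hR']
    exact mul_ne_zero (pow_ne_zero _ hsne) (mul_ne_zero (pow_ne_zero _ hsne) (hRc a b c e hA'))
  · intro i
    rw [hF', coeff_C_mul, map_mul, ← habs]
    exact mul_le_mul_of_nonneg_left (le_cn abv (cj1_natDegree _ _ _ _ _ _ _) (cj2_natDegree _ _ _ _ _ _ _) i).1 (abv.nonneg _)
  · intro i
    rw [hG', coeff_C_mul, map_mul, ← habs]
    exact mul_le_mul_of_nonneg_left (le_cn abv (cj1_natDegree _ _ _ _ _ _ _) (cj2_natDegree _ _ _ _ _ _ _) i).2 (abv.nonneg _)
  · intro a' b' c' e' hA2 B hB1 hB2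
    obtain ⟨k1, k2⟩ := cj_cj d F G s a b c e a' b' c' e'
    rw [← hF', ← hG'] at k1 k2
    rw [k1] at hB1
    rw [k2] at hB2
    have hdd : (a' * a + b' * c) * (c' * b + e' * e) - (a' * b + b' * e) * (c' * a + e' * c) =
        (a' * e' - b' * c') * (a * e - b * c) := by ring
    have hdd0 : (a' * a + b' * c) * (c' * b + e' * e) - (a' * b + b' * e) * (c' * a + e' * c) ≠ 0 := by
      rw [hdd]; exact mul_ne_zero hA2 hA'
    have hc2 := hcp _ _ _ _ hdd0
    have hmem : f (a' * a + b' * c, a' * b + b' * e, c' * a + e' * c, c' * b + e' * e) ∈ S := by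
      rw [hS]; exact ⟨_, hdd0, rfl⟩
    have h3 := csInf_le hSb hmem
    rw [hfv, hdd, map_mul, Real.log_mul (abv.ne_zero hA2) (abv.ne_zero hA')] at h3
    rw [hfv] at hlt
    have ps : 0 < abv s := abv.pos hsne
    have hcB : abv s * cn abv d (cj1 d F G (a' * a + b' * c) (a' * b + b' * e) (c' * a + e' * c) (c' * b + e' * e))
        (cj2 d F G (a' * a + b' * c) (a' * b + b' * e) (c' * a + e' * c) (c' * b + e' * e)) ≤ B := by
      rw [← le_div_iff₀' ps]
      refine cn_le abv (fun i => ?_) (fun i => ?_)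
      · rw [le_div_iff₀' ps]
        have := hB1 i
        rwa [coeff_C_mul, map_mul] at this
      · rw [le_div_iff₀' ps]
        have := hB2 i
        rwa [coeff_C_mul, map_mul] at this
    have hB0 : 0 < B := lt_of_lt_of_le (mul_pos ps hc2) hcB
    have h4 := Real.log_le_log (mul_pos ps hc2) hcB
    rw [Real.log_mul ps.ne' hc2.ne'] at h4
    have h5 := congrArg Real.log habs
    rw [Real.log_mul ps.ne' hc0.ne', Real.log_one] at h5
    have hd0 : (0 : ℝ) < 2 * d := by
      have : (0 : ℝ) < d := by exact_mod_cast (by omega : 0 < d)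
      linarith
    have h6 : (d + d ^ 2 : ℝ) * Real.log (abv (a' * e' - b' * c')) ≤ 1 + 2 * d * Real.log B := by
      have h7 := mul_le_mul_of_nonneg_left h4 hd0.le
      nlinarith
    have p1 : 0 < abv (a' * e' - b' * c') := abv.pos hA2
    have h8 : Real.log (abv (a' * e' - b' * c') ^ (d + d ^ 2)) ≤ Real.log (Real.exp 1 * B ^ (2 * d)) := by
      rw [Real.log_mul (Real.exp_pos _).ne' (pow_pos hB0 _).ne', Real.log_exp, Real.log_pow, Real.log_pow]
      push_cast
      linarith
    exact (Real.log_le_log_iff (pow_pos p1 _) (mul_pos (Real.exp_pos _) (pow_pos hB0 _))).1 h8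
  · rintro x ⟨hx0, m, n, hmn, hx⟩
    refine ⟨fun h => hx0 ?_, m, n, hmn, ?_⟩
    · have h1 := ap_adj (r * a) (r * b) (r * c) (r * e) x
      rw [h] at h1
      have h2 : ap (r * e) (-(r * b)) (-(r * c)) (r * a) (0 : L × L) = 0 := by
        ext <;> simp [ap]
      rw [h2] at h1
      exact (smul_eq_zero.1 h1.symm).resolve_left hdet
    · rw [hiter, hiter, hx]
  · intro x y hxy
    have hw : wedge (ap (r * a) (r * b) (r * c) (r * e) x) (ap (r * a) (r * b) (r * c) (r * e) y) =
        (r ^ 2 * (a * e - b * c)) * wedge x y := by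
      simp only [wedge, ap]; ring
    unfold gg
    rw [hw, map_mul, map_mul, map_pow, hRabs]
    have p1 := abv.pos hA'
    have p2 := abv.pos hR
    have p3 := abv.pos hrne
    have p4 := abv.pos hsne
    have p5 := abv.pos hxy
    have h9 := congrArg (fun z => Real.log (abv z)) hr
    simp only [map_pow, map_inv₀, map_mul] at h9
    rw [Real.log_pow, Real.log_inv, Real.log_mul p4.ne' (pow_pos p1 _).ne', Real.log_pow, Nat.cast_sub (by omega), Nat.cast_one] at h9
    rw [Real.log_mul (mul_pos (pow_pos p3 _) p1).ne' p5.ne', Real.log_mul (pow_pos p3 _).ne' p1.ne', Real.log_pow,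
      Real.log_mul (pow_pos p4 _).ne' (mul_pos (pow_pos p1 _) p2).ne', Real.log_mul (pow_pos p1 _).ne' p2.ne', Real.log_pow, Real.log_pow]
    have hd1 : (0 : ℝ) < (d : ℝ) - 1 := by
      have : (2 : ℝ) ≤ d := by exact_mod_cast hd
      linarith
    have hd0 : (0 : ℝ) < (d : ℝ) := by linarith
    have hrl : Real.log (abv r) = -(Real.log (abv s) + d * Real.log (abv (a * e - b * c))) / (d - 1) := by
      rw [eq_div_iff hd1.ne', mul_comm]
      exact h9
    rw [hrl]
    push_cast
    field_simp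
    ring

theorem exists_red (d : ℕ) (hd : 2 ≤ d) {L : Type} [Field L] [IsAlgClosed L]
    (abv : AbsoluteValue L ℝ) (F G : L[X]) (hF : F.natDegree ≤ d) (hG : G.natDegree ≤ d)
    (hR : resultant F G d d ≠ 0) :
    ∃ (F' G' : L[X]) (a b c e : L), F'.natDegree ≤ d ∧ G'.natDegree ≤ d ∧
      resultant F' G' d d ≠ 0 ∧ Red abv d F' G' ∧ a * e - b * c ≠ 0 ∧
      (∀ x, PV d F G x → PV d F' G' (ap a b c e x)) ∧
      ∀ x y, wedge x y ≠ 0 →
        gg abv d F' G' (ap a b c e x) (ap a b c e y) = gg abv d F G x y :=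
  exists_red_aux d hd abv F G hR fun a b c e => res_cj abv d (by omega) F G hF hG a b c e

end Pool.Agent.RI
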