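import Pool.Agent.RI.LocT
import Pool.Agent.RI.RedC
import Pool.Agent.RI.SLam

set_option autoImplicit false

/-!
# The exceptional places, keeping the gain
-/

namespace Pool.Agent.RI

open Polynomial
open Pool.Agent.RDF (lift wedge)

/-- The reduced data of a rational function; the resultant is in `resSet`. -/
theorem exists_datS (d : ℕ) (hd : 2 ≤ d) {L : Type} [NormedField L] [IsAlgClosed L]
    (F G : L[X]) (hF : F.natDegree ≤ d) (hG : G.natDegree ≤ d)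
    (hR : resultant F G d d ≠ 0) : ∃ (F' G' : L[X]) (_ : F'.natDegree ≤ d)
      (_ : G'.natDegree ≤ d) (_ : resultant F' G' d d ≠ 0)
      (_ : Red (NormedField.toAbsoluteValue L) d F' G')
      (f : L × L → L × L), -Real.log ‖resultant F' G' d d‖ ∈ resSet d F G ∧
      (∀ x, PV d F G x → PV d F' G' (f x)) ∧
      ∀ x y, wedge x y ≠ 0 → wedge (f x) (f y) ≠ 0 ∧
        gg (NormedField.toAbsoluteValue L) d F' G' (f x) (f y) =
          gg (NormedField.toAbsoluteValue L) d F G x y := by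
  obtain ⟨F', G', a, b, c, e, hF', hG', hR', hr, hdet, h0, h1, h2⟩ :=
    exists_red_conj d hd (NormedField.toAbsoluteValue L) F G hF hG hR
  refine ⟨F', G', hF', hG', hR', hr, ap a b c e, ?_, h1, fun x y hxy =>
    ⟨?_, h2 x y hxy⟩⟩
  · refine ⟨F', G', !![a, b; c, e], ?_, hF', hG', hr.leF, hr.leG, fun p => ?_, rfl⟩
    · rw [Matrix.det_fin_two_of]
      exact hdet
    · have h3 : ∀ q : L × L, act !![a, b; c, e] q = ap a b c e q := fun q => by
        simp [act, ap]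
      rw [h3, h3]
      exact h0 p
  · rw [wedge_ap]
    exact mul_ne_zero hdet hxy

/-- The resultant of a conjugate with coefficients of norm at most `1` is bounded. -/
theorem resSet_bddBelow (d : ℕ) {L : Type} [NormedField L] (F G : L[X]) :
    BddBelow (resSet d F G) := by
  refine ⟨-Real.log (Nat.factorial (d + d)), ?_⟩
  rintro r ⟨F', G', A, -, hF', hG', h1, h2, -, rfl⟩
  have h3 := RedAux.abv_res_le (NormedField.toAbsoluteValue L) hF' hG'
  have h4 : RedAux.cn (NormedField.toAbsoluteValue L) d F' G' ≤ 1 :=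
    RedAux.cn_le (NormedField.toAbsoluteValue L) h1 h2
  have h5 : 0 ≤ RedAux.cn (NormedField.toAbsoluteValue L) d F' G' :=
    ((NormedField.toAbsoluteValue L).nonneg (F'.coeff 0)).trans
      (RedAux.le_cn (NormedField.toAbsoluteValue L) hF' hG' 0).1
  have h6 : ‖resultant F' G' d d‖ ≤ (Nat.factorial (d + d) : ℝ) :=
    h3.trans ((mul_le_mul_of_nonneg_left (pow_le_one₀ h5 h4) (Nat.cast_nonneg _)).trans
      (le_of_eq (mul_one _)))
  have h7 : (1 : ℝ) ≤ (Nat.factorial (d + d) : ℝ) := by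
    exact_mod_cast Nat.factorial_pos _
  rcases (norm_nonneg (resultant F' G' d d)).eq_or_lt with h8 | h8
  · rw [← h8, Real.log_zero, neg_zero, neg_nonpos]
    exact Real.log_nonneg h7
  · exact neg_le_neg (Real.log_le_log h8 h6)

theorem lamC_le (d : ℕ) (F G : ℂ[X]) {r : ℝ} (hr : r ∈ resSet d F G) :
    lamC d F G ≤ max 0 r :=
  max_le (le_max_left _ _) ((csInf_le (resSet_bddBelow d F G) hr).trans (le_max_right _ _))

/-- At the exceptional places a gain proportional to the local height remains. -/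
theorem excS (d N : ℕ) (hd : 2 ≤ d) : ∃ c : ℝ, 0 < c ∧ ∃ (C0 : ℝ) (T0 : ℕ), 0 ≤ C0 ∧
    ∀ T, ∃ M, ∀ (L : Type)
    [NormedField L] [IsAlgClosed L] (F G : L[X]), F.natDegree ≤ d →
    G.natDegree ≤ d → resultant F G d d ≠ 0 → ∀ l : ℝ, (∀ r ∈ resSet d F G, l ≤ r) →
    ∀ z : Fin M → Fin N → L × L,
    (∀ i a, PV d F G (z i a)) → (∀ i j, i ≠ j → ∀ a b, wedge (z i a) (z j b) ≠ 0) →
    ∃ e : Fin T → Fin M, StrictMono e ∧ ∀ Y : Finset (Fin T), T0 ≤ Y.card →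
      ∀ a : Fin T → Fin N, (c * l - C0) * (Y.card : ℝ) ^ 2 ≤ ∑ i ∈ Y, ∑ j ∈ Y.erase i,
        gg (NormedField.toAbsoluteValue L) d F G (z (e i) (a i)) (z (e j) (a j)) := by
  obtain ⟨c, hc, lam0, T0, htup⟩ := tup d N hd
  obtain ⟨C, hC, hge⟩ := g_ge d hd
  refine ⟨c, hc, (2 + c) * max lam0 0 + C, T0, by positivity, fun T => ?_⟩
  obtain ⟨M, hM⟩ := htup T
  refine ⟨max M T, fun L _ _ F G hF hG hR l hl0 z hz hw => ?_⟩
  obtain ⟨F', G', hF', hG', hR', hr, f, h0, h1, h2⟩ := exists_datS d hd F G hF hG hR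
  set D : Dat d := Dat.mk L (NormedField.toAbsoluteValue L) F' G' hF' hG' hR' hr with hD
  have hlD : l ≤ D.lam := hl0 _ h0
  have hgg : ∀ {e : Fin T → Fin (max M T)}, StrictMono e → ∀ (Y : Finset (Fin T))
      (a : Fin T → Fin N), ∑ i ∈ Y, ∑ j ∈ Y.erase i, D.g (f (z (e i) (a i))) (f (z (e j) (a j))) =
      ∑ i ∈ Y, ∑ j ∈ Y.erase i,
        gg (NormedField.toAbsoluteValue L) d F G (z (e i) (a i)) (z (e j) (a j)) := by
    intro e he Y a
    refine Finset.sum_congr rfl fun i _ => Finset.sum_congr rfl fun j hj => ?_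
    exact (h2 _ _ (hw _ _ (fun h => Finset.ne_of_mem_erase hj (he.injective h).symm) _ _)).2
  by_cases hl : max lam0 0 ≤ D.lam
  · obtain ⟨e, he, hY⟩ := hM D ((le_max_left _ _).trans hl)
      (fun i a => f (z (Fin.castLE (le_max_left M T) i) a)) (fun i a => h1 _ (hz _ _))
      (fun i j hij a b => (h2 _ _ (hw _ _ (fun h => hij (Fin.castLE_injective _ h)) _ _)).1)
    have he' : StrictMono fun i => Fin.castLE (le_max_left M T) (e i) :=
      (Fin.strictMono_castLE _).comp he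
    refine ⟨_, he', fun Y hY0 a => ?_⟩
    have h3 := hY Y hY0 a
    rw [← hgg he' Y a]
    refine le_trans (mul_le_mul_of_nonneg_right ?_ (by positivity)) h3
    have h5 : 0 ≤ (2 + c) * max lam0 0 + C := by positivity
    have h6 : c * l ≤ c * D.lam := mul_le_mul_of_nonneg_left hlD hc.le
    linarith
  · rw [not_le] at hl
    refine ⟨_, Fin.strictMono_castLE (le_max_right M T), fun Y _ a => ?_⟩
    rw [← hgg (Fin.strictMono_castLE (le_max_right M T)) Y a]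
    have h7 : c * l ≤ c * max lam0 0 := mul_le_mul_of_nonneg_left (hlD.trans hl.le) hc.le
    have h8 : -(2 * max lam0 0 + C) * (Y.card : ℝ) ^ 2 ≤ ∑ i ∈ Y, ∑ j ∈ Y.erase i,
        D.g (f (z (Fin.castLE (le_max_right M T) i) (a i)))
          (f (z (Fin.castLE (le_max_right M T) j) (a j))) := by
      refine pair_sum_ge Y _ (by positivity) fun i _ j _ _ => ?_
      have h3 := hge D _ _ (h1 _ (hz (Fin.castLE (le_max_right M T) i) (a i)))
        (h1 _ (hz (Fin.castLE (le_max_right M T) j) (a j)))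
      refine le_trans ?_ h3
      have h4 : max D.lam 0 ≤ max lam0 0 := max_le hl.le (le_max_right _ _)
      linarith
    refine le_trans (mul_le_mul_of_nonneg_right ?_ (by positivity)) h8
    linarith

/-- Over `ℂ` there is an additional gain. -/
theorem excS_C (d N : ℕ) (hd : 2 ≤ d) : ∃ c : ℝ, 0 < c ∧ ∀ Λ : ℝ, ∃ T0 : ℕ, ∀ T, ∃ M,
    ∀ F G : ℂ[X],
    F.natDegree ≤ d → G.natDegree ≤ d → resultant F G d d ≠ 0 →
    ∀ z : Fin M → Fin N → ℂ × ℂ,
    (∀ i a, PV d F G (z i a)) → (∀ i j, i ≠ j → ∀ a b, wedge (z i a) (z j b) ≠ 0) →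
    ∃ e : Fin T → Fin M, StrictMono e ∧ ∀ Y : Finset (Fin T), T0 ≤ Y.card →
      ∀ a : Fin T → Fin N, (Λ + c * lamC d F G) * (Y.card : ℝ) ^ 2 ≤ ∑ i ∈ Y, ∑ j ∈ Y.erase i,
        gg (NormedField.toAbsoluteValue ℂ) d F G (z (e i) (a i)) (z (e j) (a j)) := by
  obtain ⟨c, hc, lam0, T0, htup⟩ := tup d N hd
  refine ⟨c / 2, half_pos hc, fun Λ => ?_⟩
  obtain ⟨l1, hl1⟩ : ∃ l1 : ℝ, l1 = max (max lam0 0) (2 * Λ / c) := ⟨_, rfl⟩
  have hl10 : 0 ≤ l1 := by rw [hl1]; exact (le_max_right _ _).trans (le_max_left _ _)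
  have hl1a : lam0 ≤ l1 := by rw [hl1]; exact (le_max_left _ _).trans (le_max_left _ _)
  have hl1b : 2 * Λ / c ≤ l1 := by rw [hl1]; exact le_max_right _ _
  obtain ⟨T1, hgrid⟩ := gridD d N hd (c / 2 * l1 + Λ) l1
  refine ⟨max T0 T1, fun T => ?_⟩
  obtain ⟨M, hM⟩ := htup T
  obtain ⟨M', hM'⟩ := hgrid T
  refine ⟨max M M', fun F G hF hG hR z hz hw => ?_⟩
  obtain ⟨F', G', hF', hG', hR', hr, f, h0, h1, h2⟩ := exists_datS d hd F G hF hG hR
  set D : Dat d := Dat.mk ℂ (NormedField.toAbsoluteValue ℂ) F' G' hF' hG' hR' hr with hD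
  have hlD : lamC d F G ≤ max 0 D.lam := lamC_le d F G h0
  have hlD0 : 0 ≤ lamC d F G := le_max_left _ _
  have hgg : ∀ {e : Fin T → Fin (max M M')}, StrictMono e → ∀ (Y : Finset (Fin T))
      (a : Fin T → Fin N), ∑ i ∈ Y, ∑ j ∈ Y.erase i, gg (NormedField.toAbsoluteValue ℂ) d F' G'
        (f (z (e i) (a i))) (f (z (e j) (a j))) =
      ∑ i ∈ Y, ∑ j ∈ Y.erase i,
        gg (NormedField.toAbsoluteValue ℂ) d F G (z (e i) (a i)) (z (e j) (a j)) := by
    intro e he Y a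
    refine Finset.sum_congr rfl fun i _ => Finset.sum_congr rfl fun j hj => ?_
    exact (h2 _ _ (hw _ _ (fun h => Finset.ne_of_mem_erase hj (he.injective h).symm) _ _)).2
  by_cases hl : l1 ≤ D.lam
  · obtain ⟨e, he, hY⟩ := hM D (hl1a.trans hl)
      (fun i a => f (z (Fin.castLE (le_max_left M M') i) a)) (fun i a => h1 _ (hz _ _))
      (fun i j hij a b => (h2 _ _ (hw _ _ (fun h => hij (Fin.castLE_injective _ h)) _ _)).1)
    have he' : StrictMono fun i => Fin.castLE (le_max_left M M') (e i) :=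
      (Fin.strictMono_castLE _).comp he
    refine ⟨_, he', fun Y hY0 a => ?_⟩
    have h3 := hY Y ((le_max_left _ _).trans hY0) a
    rw [← hgg he' Y a]
    refine le_trans ?_ h3
    have h4 : 2 * Λ ≤ c * D.lam := by
      have h5 := hl1b.trans hl
      rw [div_le_iff₀ hc] at h5
      linarith
    have h6 : c / 2 * lamC d F G ≤ c / 2 * D.lam :=
      mul_le_mul_of_nonneg_left (hlD.trans (max_le (hl10.trans hl) le_rfl)) (half_pos hc).le
    exact mul_le_mul_of_nonneg_right (by linarith) (by positivity)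
  · rw [not_le] at hl
    obtain ⟨e, he, hY⟩ := hM' F' G' hF' hG' hR' hr hl.le
      (fun i a => f (z (Fin.castLE (le_max_right M M') i) a)) (fun i a => h1 _ (hz _ _))
      (fun i j hij a b => (h2 _ _ (hw _ _ (fun h => hij (Fin.castLE_injective _ h)) _ _)).1)
    have he' : StrictMono fun i => Fin.castLE (le_max_right M M') (e i) :=
      (Fin.strictMono_castLE _).comp he
    refine ⟨_, he', fun Y hY0 a => ?_⟩
    rw [← hgg he' Y a]
    refine le_trans (mul_le_mul_of_nonneg_right ?_ (by positivity))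
      (hY Y ((le_max_right _ _).trans hY0) a)
    have h6 : c / 2 * lamC d F G ≤ c / 2 * l1 :=
      mul_le_mul_of_nonneg_left (hlD.trans (max_le hl10 hl.le)) (half_pos hc).le
    linarith

/-- The gain at an exceptional place: `l` is a lower bound of the minimal resultant. -/
theorem loc_excS (d N : ℕ) (hd : 2 ≤ d) (hN : 1 ≤ N) : ∃ (c C₀ : ℝ) (T₀ : ℕ), 0 < c ∧ 0 ≤ C₀ ∧
    ∀ T : ℕ, ∃ M : ℕ, ∀ (Om : Type) [NormedField Om] [IsAlgClosed Om],
    ∀ F G : Om[X], F.natDegree ≤ d → G.natDegree ≤ d → resultant F G d d ≠ 0 →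
    ∀ l : ℝ, (∀ r ∈ resSet d F G, l ≤ r) →
    ∀ (α : Type) [DecidableEq α] (z : α → Fin N → Om × Om) (U : Finset α), M ≤ U.card →
    (∀ i ∈ U, ∀ a, PreV d F G (z i a)) →
    (∀ i ∈ U, ∀ j ∈ U, i ≠ j → ∀ a b, wedge (z i a) (z j b) ≠ 0) →
    ∃ U' ⊆ U, U'.card = T ∧ ∀ Y ⊆ U', T₀ ≤ Y.card → ∀ a : α → Fin N,
      ∑ i ∈ Y, ∑ j ∈ Y.erase i, Real.log ‖wedge (z i (a i)) (z j (a j))‖ ≤
        (Y.card * (Y.card - 1) : ℝ) * (-Real.log ‖resultant F G d d‖ / (d * (d - 1))) +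
          (C₀ - c * l) * (Y.card : ℝ) ^ 2 := by
  obtain ⟨c, hc, C₀, T₀, hC₀, h⟩ := excS d N hd
  refine ⟨c, C₀, T₀, hc, hC₀, fun T => ?_⟩
  obtain ⟨M, hM⟩ := h T
  refine ⟨M, fun Om _ _ F G hF hG hR l hl α _ z U hU hz hw => ?_⟩
  obtain ⟨φ, hφ, hφe⟩ := fam_set (T := T) U hU
  obtain ⟨e, he, hY⟩ := hM Om F G hF hG hR l hl
    (fun i a => z (φ i) a) (fun i a => hz _ (hφ i) a)
    (fun i j hij a b => hw _ (hφ i) _ (hφ j) (fun h => hij (φ.injective h)) a b)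
  obtain ⟨ψ, hψ, hψU, hψT⟩ := hφe e he
  refine ⟨_, hψU, hψT, fun Y hYU hYT a => ?_⟩
  obtain ⟨Y', -, rfl⟩ := Finset.subset_map_iff.1 hYU
  rw [Finset.card_map] at hYT ⊢
  have h1 := hY Y' hYT (fun i => a (ψ i))
  rw [sum_map_erase]
  have h2 : ∑ i ∈ Y', ∑ j ∈ Y'.erase i, gg (NormedField.toAbsoluteValue Om) d F G
      (z (φ (e i)) (a (ψ i))) (z (φ (e j)) (a (ψ j))) =
      (Y'.card * (Y'.card - 1) : ℝ) * (-Real.log ‖resultant F G d d‖ / (d * (d - 1))) -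
        ∑ i ∈ Y', ∑ j ∈ Y'.erase i, Real.log ‖wedge (z (ψ i) (a (ψ i))) (z (ψ j) (a (ψ j)))‖ := by
    rw [← card_pairs, ← Finset.sum_sub_distrib]
    refine Finset.sum_congr rfl fun i _ => ?_
    rw [← Finset.sum_sub_distrib]
    refine Finset.sum_congr rfl fun j _ => ?_
    rw [gg_norm, hψ i, hψ j]
    ring
  rw [h2] at h1
  linarith

/-- The gain over `ℂ`. -/
theorem loc_cplxS (d N : ℕ) (hd : 2 ≤ d) (hN : 1 ≤ N) : ∃ c : ℝ, 0 < c ∧ ∀ Lam : ℝ, ∃ T₀ : ℕ,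
    ∀ T : ℕ, ∃ M : ℕ, ∀ F G : ℂ[X], F.natDegree ≤ d → G.natDegree ≤ d → resultant F G d d ≠ 0 →
    ∀ (α : Type) [DecidableEq α] (z : α → Fin N → ℂ × ℂ) (U : Finset α), M ≤ U.card →
    (∀ i ∈ U, ∀ a, PreV d F G (z i a)) →
    (∀ i ∈ U, ∀ j ∈ U, i ≠ j → ∀ a b, wedge (z i a) (z j b) ≠ 0) →
    ∃ U' ⊆ U, U'.card = T ∧ ∀ Y ⊆ U', T₀ ≤ Y.card → ∀ a : α → Fin N,
      ∑ i ∈ Y, ∑ j ∈ Y.erase i, Real.log ‖wedge (z i (a i)) (z j (a j))‖ ≤
        (Y.card * (Y.card - 1) : ℝ) * (-Real.log ‖resultant F G d d‖ / (d * (d - 1))) -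
          (Lam + c * lamC d F G) * (Y.card : ℝ) ^ 2 := by
  obtain ⟨c, hc, h'⟩ := excS_C d N hd
  refine ⟨c, hc, fun Lam => ?_⟩
  obtain ⟨T₀, h⟩ := h' Lam
  refine ⟨T₀, fun T => ?_⟩
  obtain ⟨M, hM⟩ := h T
  refine ⟨M, fun F G hF hG hR α _ z U hU hz hw => ?_⟩
  obtain ⟨φ, hφ, hφe⟩ := fam_set (T := T) U hU
  obtain ⟨e, he, hY⟩ := hM F G hF hG hR
    (fun i a => z (φ i) a) (fun i a => hz _ (hφ i) a)
    (fun i j hij a b => hw _ (hφ i) _ (hφ j) (fun h => hij (φ.injective h)) a b)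
  obtain ⟨ψ, hψ, hψU, hψT⟩ := hφe e he
  refine ⟨_, hψU, hψT, fun Y hYU hYT a => ?_⟩
  obtain ⟨Y', -, rfl⟩ := Finset.subset_map_iff.1 hYU
  rw [Finset.card_map] at hYT ⊢
  have h1 := hY Y' hYT (fun i => a (ψ i))
  rw [sum_map_erase]
  have h2 : ∑ i ∈ Y', ∑ j ∈ Y'.erase i, gg (NormedField.toAbsoluteValue ℂ) d F G
      (z (φ (e i)) (a (ψ i))) (z (φ (e j)) (a (ψ j))) =
      (Y'.card * (Y'.card - 1) : ℝ) * (-Real.log ‖resultant F G d d‖ / (d * (d - 1))) -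
        ∑ i ∈ Y', ∑ j ∈ Y'.erase i, Real.log ‖wedge (z (ψ i) (a (ψ i))) (z (ψ j) (a (ψ j)))‖ := by
    rw [← card_pairs, ← Finset.sum_sub_distrib]
    refine Finset.sum_congr rfl fun i _ => ?_
    rw [← Finset.sum_sub_distrib]
    refine Finset.sum_congr rfl fun j _ => ?_
    rw [gg_norm, hψ i, hψ j]
    ring
  rw [h2] at h1
  linarith

end Pool.Agent.RI
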