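import Mathlib
import Pool.Agent.RI.SLam
import Pool.Agent.RI.SLocA
import Pool.Agent.RI.Pre
import Pool.Agent.RI.Energy
import Pool.Agent.RI.GLocW
import Pool.Agent.RI.SExc

set_option autoImplicit false

/-!
# The generic bound over the complex numbers
-/

namespace Pool.Agent.RI

open Polynomial
open Pool.Agent.RDF (lift wedge)

namespace TGen

/-- The sum of `-log |x ∧ y| - log |R| / (d (d - 1))` in terms of the sum of `log |x ∧ y|`. -/
theorem sum_split {L : Type*} [Field L] (abv : AbsoluteValue L ℝ) {ι : Type*} [Fintype ι]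
    [DecidableEq ι] (z : ι → L × L) (c : ℝ) :
    ∑ i, ∑ j ∈ Finset.univ.erase i, (-Real.log (abv (wedge (z i) (z j))) - c) =
      -∑ i, ∑ j ∈ Finset.univ.erase i, Real.log (abv (wedge (z i) (z j))) -
        (Fintype.card ι * (Fintype.card ι - 1) : ℝ) * c := by
  have h1 : ∀ i : ι, ∑ j ∈ Finset.univ.erase i, (-Real.log (abv (wedge (z i) (z j))) - c) =
      -∑ j ∈ Finset.univ.erase i, Real.log (abv (wedge (z i) (z j))) -
        ((Fintype.card ι : ℝ) - 1) * c := by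
    intro i
    have hc : 1 ≤ Fintype.card ι := Fintype.card_pos_iff.2 ⟨i⟩
    rw [Finset.sum_sub_distrib, Finset.sum_neg_distrib, Finset.sum_const,
      Finset.card_erase_of_mem (Finset.mem_univ _), Finset.card_univ, nsmul_eq_mul,
      Nat.cast_sub hc]
    push_cast
    ring
  rw [Finset.sum_congr rfl fun i _ => h1 i, Finset.sum_sub_distrib, Finset.sum_neg_distrib,
    Finset.sum_const, Finset.card_univ, nsmul_eq_mul]
  ring

/-- The generic bound for an admissible conjugate, for any absolute value. -/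
theorem gen_any (d : ℕ) (hd : 2 ≤ d) : ∃ Ca : ℝ, 0 ≤ Ca ∧ ∀ {E : Type} [Field E] [IsAlgClosed E]
    (abv : AbsoluteValue E ℝ) (F G : E[X]), F.natDegree ≤ d → G.natDegree ≤ d →
    resultant F G d d ≠ 0 → ∀ (A : Matrix (Fin 2) (Fin 2) E), A.det ≠ 0 →
    ∀ F' G' : E[X], F'.natDegree ≤ d → G'.natDegree ≤ d →
    (∀ p, lift d F' G' (act A p) = act A (lift d F G p)) →
    (∀ i, abv (F'.coeff i) ≤ 1) → (∀ i, abv (G'.coeff i) ≤ 1) →
    ∀ (m : ℕ) (z : Fin (d ^ m) → E × E), (∀ i, PreV d F G (z i)) →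
    (∀ i j, i ≠ j → wedge (z i) (z j) ≠ 0) →
    ∑ i, ∑ j ∈ Finset.univ.erase i, Real.log (abv (wedge (z i) (z j))) ≤
      ((d : ℝ) ^ m * ((d : ℝ) ^ m - 1)) *
        (-Real.log (abv (resultant F G d d)) / (d * (d - 1))) +
      2 * m * (d : ℝ) ^ m * (max (-Real.log (abv (resultant F' G' d d))) 0 + Ca) := by
  obtain ⟨C₀, hC₀, hb⟩ := bounds.{0} d hd
  have hd2 : (2 : ℝ) ≤ d := by exact_mod_cast hd
  have hld : 0 ≤ Real.log d := Real.log_nonneg (by linarith)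
  refine ⟨2 * C₀ + Real.log d, by positivity, ?_⟩
  intro E _ _ abv F G hF hG hR A hA F' G' hF' hG' h hBF hBG m z hz hw
  obtain ⟨hR', hlog⟩ := SLoc.log_res_conj abv (by omega) hF hG hR A hA hF' hG' h
  obtain ⟨hb1, hb2, -⟩ := hb abv F' G' hF' hG' hR' hBF hBG
  have hw' : ∀ i j, i ≠ j → wedge (act A (z i)) (act A (z j)) ≠ 0 := fun i j hij => by
    rw [wedge_act]
    exact mul_ne_zero hA (hw i j hij)
  have hz' : ∀ i, PreV d F' G' (act A (z i)) := fun i => SLoc.preV_act A hA h (hz i)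
  have hen := energy abv d m hd F' G' hF' hG' hR' (Fintype.card_fin _) (fun i => act A (z i))
    (fun i => (hz' i).1) hw' ((max (-Real.log (abv (resultant F' G' d d))) 0 + C₀) / (d - 1))
    (fun i k => (hb2 _ (GLoc.preV_iter (by omega) hF' hG' hR' (hz' i) k)).2)
  rw [sum_split, SLoc.sum_wedge_act abv A hA z hw, Fintype.card_fin] at hen
  set r : ℝ := -Real.log (abv (resultant F' G' d d)) with hr
  push_cast at hen
  have hdd : (d : ℝ) - 1 ≠ 0 := by
    intro h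
    linarith
  have hd0 : (d : ℝ) ≠ 0 := by positivity
  have hdm : (0 : ℝ) < (d : ℝ) ^ m := by positivity
  have e1 : 2 * (d : ℝ) ^ m * m * (((d : ℝ) - 1) * ((max r 0 + C₀) / (d - 1))) =
      2 * m * (d : ℝ) ^ m * (max r 0 + C₀) := by
    rw [mul_div_cancel₀ _ hdd]
    ring
  have e2 : 2 * (d : ℝ) ^ m * Real.log ((d : ℝ) ^ m) = 2 * m * (d : ℝ) ^ m * Real.log d := by
    rw [Real.log_pow]
    ring
  have e3 : -(m * (d : ℝ) ^ m / d * r) ≤ 2 * m * (d : ℝ) ^ m * C₀ := by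
    have h1 : -r ≤ C₀ := by linarith
    have h2 : (0 : ℝ) ≤ m * (d : ℝ) ^ m / d := by positivity
    have h3 : m * (d : ℝ) ^ m / d * (-r) ≤ m * (d : ℝ) ^ m / d * C₀ :=
      mul_le_mul_of_nonneg_left h1 h2
    have h4 : m * (d : ℝ) ^ m / d ≤ 2 * m * (d : ℝ) ^ m := by
      rw [div_le_iff₀ (by positivity)]
      have h5 : (0 : ℝ) ≤ m * (d : ℝ) ^ m := by positivity
      nlinarith
    have h6 : m * (d : ℝ) ^ m / d * C₀ ≤ 2 * m * (d : ℝ) ^ m * C₀ :=
      mul_le_mul_of_nonneg_right h4 hC₀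
    linarith
  have e4 : ((d : ℝ) ^ m * ((d : ℝ) ^ m - 1)) *
      (Real.log (abv (resultant F' G' d d)) / (d * ((d : ℝ) - 1))) =
      ((d : ℝ) ^ m * ((d : ℝ) ^ m - 1)) *
        (Real.log (abv (resultant F G d d)) / (d * ((d : ℝ) - 1))) -
      ((d : ℝ) ^ m * ((d : ℝ) ^ m - 1)) * Real.log (abv A.det) := by
    rw [hlog]
    field_simp
  rw [e1, e2, e4] at hen
  have e5 : ((d : ℝ) ^ m * ((d : ℝ) ^ m - 1)) *
        (-Real.log (abv (resultant F G d d)) / (d * (d - 1))) =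
      -(((d : ℝ) ^ m * ((d : ℝ) ^ m - 1)) *
        (Real.log (abv (resultant F G d d)) / (d * ((d : ℝ) - 1)))) := by
    rw [neg_div, mul_neg]
  rw [e5]
  have e6 : 2 * m * (d : ℝ) ^ m * (max r 0 + (2 * C₀ + Real.log d)) =
      2 * m * (d : ℝ) ^ m * (max r 0 + C₀) + 2 * m * (d : ℝ) ^ m * C₀ +
        2 * m * (d : ℝ) ^ m * Real.log d := by ring
  rw [e6]
  linarith

end TGen

/-- The generic bound over `ℂ`, in terms of the minimal resultant. -/
theorem gen_C (d : ℕ) (hd : 2 ≤ d) : ∃ Ca : ℝ, 0 ≤ Ca ∧ ∀ (F G : ℂ[X]), F.natDegree ≤ d →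
    G.natDegree ≤ d → resultant F G d d ≠ 0 → ∀ (m : ℕ) (z : Fin (d ^ m) → ℂ × ℂ),
    (∀ i, PreV d F G (z i)) → (∀ i j, i ≠ j → wedge (z i) (z j) ≠ 0) →
    ∑ i, ∑ j ∈ Finset.univ.erase i, Real.log ‖wedge (z i) (z j)‖ ≤
      ((d : ℝ) ^ m * ((d : ℝ) ^ m - 1)) * (-Real.log ‖resultant F G d d‖ / (d * (d - 1))) +
      2 * m * (d : ℝ) ^ m * (lamC d F G + Ca) := by
  obtain ⟨Ca, hCa, hgen⟩ := TGen.gen_any d hd
  refine ⟨Ca + 1, by positivity, fun F G hF hG hR m z hz hw => ?_⟩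
  obtain ⟨F₁, G₁, -, -, -, -, -, hmem, -, -⟩ := exists_datS d hd F G hF hG hR
  obtain ⟨r, hr, hlt⟩ := exists_lt_of_csInf_lt ⟨_, hmem⟩ (lt_add_one (sInf (resSet d F G)))
  obtain ⟨F', G', A, hA, hF', hG', h1, h2, h, rfl⟩ := hr
  have h3 := hgen (NormedField.toAbsoluteValue ℂ) F G hF hG hR A hA F' G' hF' hG' h h1 h2 m z hz hw
  have h4 : max (-Real.log ‖resultant F' G' d d‖) 0 ≤ lamC d F G + 1 := by
    have h5 : sInf (resSet d F G) ≤ lamC d F G := le_max_right _ _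
    have h6 : 0 ≤ lamC d F G := le_max_left _ _
    exact max_le (by linarith) (by linarith)
  have h7 : (0 : ℝ) ≤ 2 * m * (d : ℝ) ^ m := by positivity
  have h8 : 2 * m * (d : ℝ) ^ m * (max (-Real.log ‖resultant F' G' d d‖) 0 + Ca) ≤
      2 * m * (d : ℝ) ^ m * (lamC d F G + (Ca + 1)) :=
    mul_le_mul_of_nonneg_left (by linarith) h7
  exact (show ∑ i, ∑ j ∈ Finset.univ.erase i, Real.log ‖wedge (z i) (z j)‖ ≤ _ from h3).trans
    (add_le_add_right h8 _)

end Pool.Agent.RI
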