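import Mathlib
import Pool.Agent.RI.SLam
import Pool.Agent.RI.GIneq

set_option autoImplicit false

/-!
# The sum of the local bounds, with a gain at one place
-/

namespace Pool.Agent.RI

open Polynomial NumberField IsDedekindDomain Pool.Agent.GPoly

variable {K : Type} [Field K] [NumberField K]

/-- The product formula with the main terms removed. -/
theorem sum_boundT (r : 𝓞 K) (hr : r ≠ 0) (d : ℕ)
    (L : Type) [Field L] [Algebra K L] [FiniteDimensional K L] {T : ℕ} (x : Fin T → Fin T → L)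
    (hx : ∀ i j, i ≠ j → x i j ≠ 0) (P : Finset (HeightOneSpectrum (𝓞 K)))
    (hP : ∀ v : HeightOneSpectrum (𝓞 K), r ∈ v.asIdeal → v ∈ P)
    (e : HeightOneSpectrum (𝓞 K) → ℝ) (f : (K →+* ℂ) → ℝ) (he : ∀ v, v ∉ P → e v ≤ 0)
    (h1 : ∀ v : HeightOneSpectrum (𝓞 K),
      ∑ i, ∑ j ∈ Finset.univ.erase i, Real.log (av v (Algebra.norm K (x i j))) ≤
        Module.finrank K L * ((T * (T - 1) : ℝ) * (wt v r / (d * (d - 1))) + e v))
    (h2 : ∀ σ : K →+* ℂ,
      ∑ i, ∑ j ∈ Finset.univ.erase i, Real.log ‖σ (Algebra.norm K (x i j))‖ ≤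
        Module.finrank K L * ((T * (T - 1) : ℝ) *
          (-Real.log ‖σ (algebraMap (𝓞 K) K r)‖ / (d * (d - 1))) + f σ)) :
    0 ≤ ∑ v ∈ P, e v + ∑ σ, f σ := by
  have hout : ∀ v : HeightOneSpectrum (𝓞 K), r ∉ v.asIdeal → wt v r = 0 :=
    fun v hv => wt_eq_zero v _ hv
  have hglob := globD L x hx P
    (fun v => (T * (T - 1) : ℝ) * (wt v r / (d * (d - 1))) + e v) (fun σ => (T * (T - 1) : ℝ) *
    (-Real.log ‖σ (algebraMap (𝓞 K) K r)‖ / (d * (d - 1))) + f σ) h1 (fun v hv => by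
      have h6 : r ∉ v.asIdeal := fun h => hv (hP v h)
      have := he v hv
      simp only [hout v h6]
      simpa using this) h2
  have hpf := sum_res r hr P hP
  rw [Finset.sum_add_distrib, ← Finset.mul_sum, Finset.sum_add_distrib, ← Finset.mul_sum,
    ← Finset.sum_div, ← Finset.sum_div] at hglob
  have hsig : ∑ σ : K →+* ℂ, -Real.log ‖σ (algebraMap (𝓞 K) K r)‖ =
      -∑ v ∈ P, wt v r := by
    have : ∑ v ∈ P, wt v r = ∑ v ∈ P, -Real.log (av v (algebraMap (𝓞 K) K r)) := rfl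
    rw [this]
    linarith
  rw [hsig] at hglob
  have k9 : (T * (T - 1) : ℝ) * ((∑ v ∈ P, wt v r) / (d * (d - 1))) +
      (T * (T - 1) : ℝ) * (-(∑ v ∈ P, wt v r) / (d * (d - 1))) = 0 := by ring
  linarith

open Classical in
/-- The sum of the minimal resultants outside `J`. -/
theorem sum_lamT (r : 𝓞 K) (J : Ideal (𝓞 K)) (lam : HeightOneSpectrum (𝓞 K) → ℝ)
    (hlam : ∀ v, 0 ≤ lam v) (hlam' : ∀ v, lam v ≤ wt v r)
    (P : Finset (HeightOneSpectrum (𝓞 K)))
    (hP : ∀ v : HeightOneSpectrum (𝓞 K), r ∈ v.asIdeal → v ∈ P) :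
    ∑ᶠ (v : HeightOneSpectrum (𝓞 K)) (_ : ¬ v.asIdeal ∣ J), lam v =
      ∑ v ∈ P with ¬ v.asIdeal ∣ J, lam v := by
  have hout : ∀ v : HeightOneSpectrum (𝓞 K), r ∉ v.asIdeal → wt v r = 0 :=
    fun v hv => wt_eq_zero v _ hv
  rw [Finset.sum_filter]
  have e1 : ∀ v : HeightOneSpectrum (𝓞 K),
      (∑ᶠ (_ : ¬ v.asIdeal ∣ J), lam v) = if ¬ v.asIdeal ∣ J then lam v else 0 :=
    fun v => finsum_eq_if
  rw [finsum_congr e1]
  refine finsum_eq_finsetSum_of_support_subset _ ?_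
  intro v hv
  rw [Function.mem_support] at hv
  by_contra hvP
  apply hv
  have h6 : r ∉ v.asIdeal := fun h => hvP (hP v h)
  have h9 : lam v = 0 := le_antisymm ((hlam' v).trans (hout v h6).le) (hlam v)
  rw [h9, ite_self]

/-- The real inequality. -/
theorem realT (g c D Ca G W A y m T2 : ℝ) (hg : 0 ≤ g) (hy : 0 ≤ y)
    (hD : 0 ≤ D) (hCa : 0 ≤ Ca) (hG : 1 ≤ G) (hW : 0 ≤ W)
    (hA : A ≤ y * m) (hm : m ≤ G ∨ m ≤ W)
    (hT : g * (y + D * Ca) < c * T2)
    (h : 0 ≤ -(c * G * T2) - 2 * c * T2 * W + g * (A + D * Ca)) : False := by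
  have h0 : m ≤ G + W := by rcases hm with hm | hm <;> linarith
  have h1 : A + D * Ca ≤ (y + D * Ca) * (G + W) := by
    have e1 : y * m ≤ y * (G + W) := mul_le_mul_of_nonneg_left h0 hy
    have e2 : D * Ca ≤ D * Ca * (G + W) := le_mul_of_one_le_right (by positivity) (by linarith)
    linarith
  have h2 := mul_le_mul_of_nonneg_left h1 hg
  have h3 := mul_lt_mul_of_pos_right hT (show 0 < G by linarith)
  have h4 := mul_le_mul_of_nonneg_right hT.le hW
  have h5 : 0 ≤ c * T2 * W := by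
    have : 0 ≤ g * (y + D * Ca) := by positivity
    exact mul_nonneg (this.trans hT.le) hW
  nlinarith

/-- The sum over the places of the local bounds, with a gain at one place. -/
theorem ineq_RT (r : 𝓞 K) (hr : r ≠ 0) (d : ℕ) (J : Ideal (𝓞 K))
    (hJ : J ∣ Ideal.span {r})
    (lam : HeightOneSpectrum (𝓞 K) → ℝ) (mu : (K →+* ℂ) → ℝ)
    (hlam : ∀ v, 0 ≤ lam v) (hlam' : ∀ v, lam v ≤ wt v r) (hmu : ∀ σ, 0 ≤ mu σ) (y m : ℝ)
    (hy : 0 ≤ y)
    (hhyp : ∑ᶠ (v : HeightOneSpectrum (𝓞 K)) (_ : ¬ v.asIdeal ∣ J), lam v + ∑ σ, mu σ ≤ y * m)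
    (L : Type) [Field L] [Algebra K L] [FiniteDimensional K L] {T : ℕ} (x : Fin T → Fin T → L)
    (hx : ∀ i j, i ≠ j → x i j ≠ 0) (c g Ca G : ℝ) (hc : 0 ≤ c) (hg : 0 ≤ g) (hCa : 0 ≤ Ca)
    (hG : 1 ≤ G)
    (hm : m ≤ G ∨ m ≤ Real.log (Ideal.absNorm J) ∨
      ∃ v : HeightOneSpectrum (𝓞 K), v.asIdeal ∣ J ∧ m ≤ wt v r)
    (hT : g * (y + Module.finrank ℚ K * Ca) < c * (T : ℝ) ^ 2)
    (h1 : ∀ v : HeightOneSpectrum (𝓞 K), v.asIdeal ∣ J →
      ∑ i, ∑ j ∈ Finset.univ.erase i, Real.log (av v (Algebra.norm K (x i j))) ≤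
        Module.finrank K L * ((T * (T - 1) : ℝ) * (wt v r / (d * (d - 1))) -
          2 * c * (T : ℝ) ^ 2 * wt v r))
    (h2 : ∀ v : HeightOneSpectrum (𝓞 K),
      ∑ i, ∑ j ∈ Finset.univ.erase i, Real.log (av v (Algebra.norm K (x i j))) ≤
        Module.finrank K L * ((T * (T - 1) : ℝ) * (wt v r / (d * (d - 1))) + g * lam v))
    (h3 : ∀ σ : K →+* ℂ,
      ∑ i, ∑ j ∈ Finset.univ.erase i, Real.log ‖σ (Algebra.norm K (x i j))‖ ≤
        Module.finrank K L * ((T * (T - 1) : ℝ) *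
          (-Real.log ‖σ (algebraMap (𝓞 K) K r)‖ / (d * (d - 1))) + g * (mu σ + Ca)))
    (h4 : (∃ w : HeightOneSpectrum (𝓞 K), ¬ w.asIdeal ∣ J ∧
      ∑ i, ∑ j ∈ Finset.univ.erase i, Real.log (av w (Algebra.norm K (x i j))) ≤
        Module.finrank K L * ((T * (T - 1) : ℝ) * (wt w r / (d * (d - 1))) -
          c * G * (T : ℝ) ^ 2)) ∨
      ∃ σ : K →+* ℂ,
        ∑ i, ∑ j ∈ Finset.univ.erase i, Real.log ‖σ (Algebra.norm K (x i j))‖ ≤
        Module.finrank K L * ((T * (T - 1) : ℝ) *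
          (-Real.log ‖σ (algebraMap (𝓞 K) K r)‖ / (d * (d - 1))) - c * G * (T : ℝ) ^ 2)) :
    False := by
  classical
  have hspan : Ideal.span {r} ≠ 0 := by
    rw [Ne, Ideal.zero_eq_bot, Ideal.span_singleton_eq_bot]
    exact hr
  have hfinP := Ideal.finite_factors hspan
  have hw0 : ∀ v, 0 ≤ wt v r := fun v => wt_nonneg v _
  have hout : ∀ v : HeightOneSpectrum (𝓞 K), r ∉ v.asIdeal → wt v r = 0 :=
    fun v hv => wt_eq_zero v _ hv
  have hsumσ : ∑ σ : K →+* ℂ, g * (mu σ + Ca) =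
      g * (∑ σ : K →+* ℂ, mu σ + Module.finrank ℚ K * Ca) := by
    rw [← Finset.mul_sum, Finset.sum_add_distrib, Finset.sum_const, Finset.card_univ,
      NumberField.Embeddings.card, nsmul_eq_mul]
  have hcG : 0 ≤ c * G * (T : ℝ) ^ 2 := by positivity
  -- the finite set of places
  have hfinal : ∀ P : Finset (HeightOneSpectrum (𝓞 K)),
      (∀ v : HeightOneSpectrum (𝓞 K), r ∈ v.asIdeal → v ∈ P) →
      0 ≤ -(c * G * (T : ℝ) ^ 2) -
          2 * c * (T : ℝ) ^ 2 * (∑ v ∈ P with v.asIdeal ∣ J, wt v r) +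
          g * ∑ v ∈ P with ¬ v.asIdeal ∣ J, lam v + ∑ σ : K →+* ℂ, g * (mu σ + Ca) →
      False := by
    intro P hP h
    have hA := sum_lamT r J lam hlam hlam' P hP
    have hWJ : Real.log (Ideal.absNorm J) ≤ ∑ v ∈ P with v.asIdeal ∣ J, wt v r :=
      log_absNorm_le _ hr J hJ P hP
    have hm' : m ≤ G ∨ m ≤ ∑ v ∈ P with v.asIdeal ∣ J, wt v r := by
      rcases hm with hm | hm | ⟨v, hvJ, hv⟩
      · exact Or.inl hm
      · exact Or.inr (hm.trans hWJ)
      · right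
        refine hv.trans ?_
        have hvr : r ∈ v.asIdeal := Ideal.dvd_span_singleton.1 (hvJ.trans hJ)
        exact Finset.single_le_sum (f := fun v => wt v r) (fun v _ => hw0 v)
          (Finset.mem_filter.2 ⟨hP v hvr, hvJ⟩)
    rw [hA] at hhyp
    rw [hsumσ] at h
    exact realT g c (Module.finrank ℚ K) Ca G (∑ v ∈ P with v.asIdeal ∣ J, wt v r)
      (∑ v ∈ P with ¬ v.asIdeal ∣ J, lam v + ∑ σ, mu σ) y m ((T : ℝ) ^ 2) hg hy
      (Nat.cast_nonneg _) hCa hG (Finset.sum_nonneg fun v _ => hw0 v) hhyp hm' hT (by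
        linarith)
  rcases h4 with ⟨w, hwJ, hw⟩ | ⟨σ₀, hσ₀⟩
  · obtain ⟨P, hwP, hP⟩ : ∃ P : Finset (HeightOneSpectrum (𝓞 K)), w ∈ P ∧
        ∀ v : HeightOneSpectrum (𝓞 K), r ∈ v.asIdeal → v ∈ P := by
      refine ⟨insert w hfinP.toFinset, Finset.mem_insert_self _ _, fun v hv => ?_⟩
      rw [Finset.mem_insert, Set.Finite.mem_toFinset]
      exact Or.inr (Ideal.dvd_span_singleton.2 hv)
    have key := sum_boundT r hr d L x hx P hP
      (fun v => if v = w then -(c * G * (T : ℝ) ^ 2) else if v.asIdeal ∣ J then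
        -(2 * c * (T : ℝ) ^ 2 * wt v r) else g * lam v) (fun σ => g * (mu σ + Ca))
      (fun v hv => by
        have h6 : r ∉ v.asIdeal := fun h => hv (hP v h)
        have h9 : lam v = 0 := le_antisymm ((hlam' v).trans (hout v h6).le) (hlam v)
        simp only [h9, hout v h6]
        split_ifs <;> simp
        positivity)
      (fun v => by
        by_cases c1 : v = w
        · rw [if_pos c1, c1, ← sub_eq_add_neg]
          exact hw
        · rw [if_neg c1]
          split_ifs with c2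
          · rw [← sub_eq_add_neg]
            exact h1 v c2
          · exact h2 v) h3
    have hE : ∑ v ∈ P, (if v = w then -(c * G * (T : ℝ) ^ 2) else if v.asIdeal ∣ J then
        -(2 * c * (T : ℝ) ^ 2 * wt v r) else g * lam v) ≤ -(c * G * (T : ℝ) ^ 2) -
          2 * c * (T : ℝ) ^ 2 * (∑ v ∈ P with v.asIdeal ∣ J, wt v r) +
          g * ∑ v ∈ P with ¬ v.asIdeal ∣ J, lam v := by
      have h6 : ∀ v ∈ P, (if v = w then -(c * G * (T : ℝ) ^ 2) else if v.asIdeal ∣ J then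
          -(2 * c * (T : ℝ) ^ 2 * wt v r) else g * lam v) ≤
          (if v = w then -(c * G * (T : ℝ) ^ 2) else 0) +
          (if v.asIdeal ∣ J then -(2 * c * (T : ℝ) ^ 2 * wt v r) else 0) +
          (if ¬ v.asIdeal ∣ J then g * lam v else 0) := by
        intro v _
        by_cases c1 : v = w
        · rw [c1, if_pos rfl, if_pos rfl, if_neg hwJ, if_pos hwJ]
          have := mul_nonneg hg (hlam w)
          linarith
        · rw [if_neg c1, if_neg c1]
          by_cases c2 : v.asIdeal ∣ J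
          · rw [if_pos c2, if_pos c2, if_neg (not_not.2 c2)]
            linarith
          · rw [if_neg c2, if_neg c2, if_pos c2]
            linarith
      refine (Finset.sum_le_sum h6).trans (le_of_eq ?_)
      rw [Finset.sum_add_distrib, Finset.sum_add_distrib, Finset.sum_ite_eq' P w, if_pos hwP,
        ← Finset.sum_filter, ← Finset.sum_filter, Finset.sum_neg_distrib, ← Finset.mul_sum,
        ← Finset.mul_sum]
      ring
    exact hfinal P hP (by linarith)
  · obtain ⟨P, hP⟩ : ∃ P : Finset (HeightOneSpectrum (𝓞 K)),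
        ∀ v : HeightOneSpectrum (𝓞 K), r ∈ v.asIdeal → v ∈ P := by
      refine ⟨hfinP.toFinset, fun v hv => ?_⟩
      rw [Set.Finite.mem_toFinset]
      exact Ideal.dvd_span_singleton.2 hv
    have key := sum_boundT r hr d L x hx P hP
      (fun v => if v.asIdeal ∣ J then -(2 * c * (T : ℝ) ^ 2 * wt v r) else g * lam v)
      (fun σ => if σ = σ₀ then -(c * G * (T : ℝ) ^ 2) else g * (mu σ + Ca))
      (fun v hv => by
        have h6 : r ∉ v.asIdeal := fun h => hv (hP v h)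
        have h9 : lam v = 0 := le_antisymm ((hlam' v).trans (hout v h6).le) (hlam v)
        simp only [h9, hout v h6]
        split_ifs <;> simp)
      (fun v => by
        split_ifs with c2
        · rw [← sub_eq_add_neg]
          exact h1 v c2
        · exact h2 v)
      (fun σ => by
        by_cases c1 : σ = σ₀
        · rw [if_pos c1, c1, ← sub_eq_add_neg]
          exact hσ₀
        · rw [if_neg c1]
          exact h3 σ)
    have hE : ∑ v ∈ P, (if v.asIdeal ∣ J then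
        -(2 * c * (T : ℝ) ^ 2 * wt v r) else g * lam v) ≤ -
          (2 * c * (T : ℝ) ^ 2 * (∑ v ∈ P with v.asIdeal ∣ J, wt v r)) +
          g * ∑ v ∈ P with ¬ v.asIdeal ∣ J, lam v := by
      rw [Finset.sum_ite, Finset.sum_neg_distrib, ← Finset.mul_sum, ← Finset.mul_sum]
    have hF : ∑ σ : K →+* ℂ, (if σ = σ₀ then -(c * G * (T : ℝ) ^ 2) else g * (mu σ + Ca)) ≤
        -(c * G * (T : ℝ) ^ 2) + ∑ σ : K →+* ℂ, g * (mu σ + Ca) := by
      have h6 : ∀ σ ∈ (Finset.univ : Finset (K →+* ℂ)),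
          (if σ = σ₀ then -(c * G * (T : ℝ) ^ 2) else g * (mu σ + Ca)) ≤
          (if σ = σ₀ then -(c * G * (T : ℝ) ^ 2) else 0) + g * (mu σ + Ca) := by
        intro σ _
        by_cases c1 : σ = σ₀
        · rw [if_pos c1, if_pos c1]
          have := mul_nonneg hg (add_nonneg (hmu σ) hCa)
          linarith
        · rw [if_neg c1, if_neg c1]
          linarith
      refine (Finset.sum_le_sum h6).trans (le_of_eq ?_)
      rw [Finset.sum_add_distrib, Finset.sum_ite_eq' _ σ₀, if_pos (Finset.mem_univ _)]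
    exact hfinal P hP (by linarith)

end Pool.Agent.RI
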