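import Mathlib
import Pool.Agent.RI.SDen
import Pool.Agent.RI.TMm
import Pool.Agent.RI.TIneq
import Pool.Agent.RI.TGen
import Pool.Agent.RI.SGenV
import Pool.Agent.RI.GMain

set_option autoImplicit false

/-!
# The number of preperiodic points and the height divided by its largest local part

The constant does not depend on the number field, not even on its degree.
-/

namespace Pool.Agent.RI

open Polynomial NumberField IsDedekindDomain Pool.Agent.GPoly
open Pool.Agent.RDF (lift wedge form nrm UU mat Above DefectiveN coeffs)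

variable {K : Type} [Field K] [NumberField K]

/-- From the patterns to the embeddings, at one place. -/
theorem place_boundT (E : Type) [NormedField E] [IsAlgClosed E] [Algebra K E] (N d : ℕ)
    (hN : 1 ≤ N) (hd : 2 ≤ d) (F G : (𝓞 K)[X]) (hF : F.natDegree ≤ d) (hG : G.natDegree ≤ d)
    (hR : resultant F G d d ≠ 0) (L : Type) [Field L] [NumberField L] [Algebra K L] {M : ℕ}
    (x : Fin M → L × L) (hxN : ∀ i, PDegLe K N (x i))
    (hxP : ∀ i, PreV d (F.map (algebraMap (𝓞 K) L)) (G.map (algebraMap (𝓞 K) L)) (x i))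
    (hxc : ∀ (φ ψ : L →ₐ[K] E) (i j : Fin M), i ≠ j →
      wedge (Prod.map φ φ (x i)) (Prod.map ψ ψ (x j)) ≠ 0)
    (b q : ℕ) (T₀ : ℕ) (B : ℕ → ℝ)
    (hloc : ∀ (z : Fin M → Fin N → E × E) (U : Finset (Fin M)),
      (∀ i ∈ U, ∀ a, PreV d (F.map (algebraMap (𝓞 K) E)) (G.map (algebraMap (𝓞 K) E)) (z i a)) →
      (∀ i ∈ U, ∀ j ∈ U, i ≠ j → ∀ a b, wedge (z i a) (z j b) ≠ 0) →
      ∃ Z ⊆ U, U.card ≤ b * Z.card ∧ ∀ Y ⊆ Z, Z.card ≤ q * Y.card → T₀ ≤ Y.card →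
        ∀ a : Fin M → Fin N,
        ∑ i ∈ Y, ∑ j ∈ Y.erase i, Real.log ‖wedge (z i (a i)) (z j (a j))‖ ≤ B Y.card) :
    ∃ Z : Finset (Fin M), M ≤ b * Z.card ∧ ∀ Y ⊆ Z, Z.card ≤ q * Y.card → T₀ ≤ Y.card →
      ∀ φ : L →ₐ[K] E,
        ∑ i ∈ Y, ∑ j ∈ Y.erase i, Real.log ‖φ (wedge (x i) (x j))‖ ≤ B Y.card := by
  have hpat := fun i => pattern L E N hN d hd F G hF hG hR (x i) (hxP i) (hxN i)
  choose s hs using hpat
  obtain ⟨Z, -, hZ1, hZ2⟩ := hloc (Tup E s x) Finset.univ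
    (by
      intro i _ a
      have h1 := (hxP i).map (s i a : L →+* E)
      rw [map_algHom, map_algHom] at h1
      exact h1)
    (by
      intro i _ j _ hij a b
      exact hxc _ _ i j hij)
  rw [Finset.card_univ, Fintype.card_fin] at hZ1
  refine ⟨Z, hZ1, ?_⟩
  intro U hUZ hUq hU φ
  choose a u hu hau using fun i => hs i φ
  refine le_trans (le_of_eq ?_) (hZ2 U hUZ hUq hU a)
  refine Finset.sum_congr rfl fun i _ => Finset.sum_congr rfl fun j _ => ?_
  congr 1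
  have h1 : φ (wedge (x i) (x j)) =
      u i * u j * wedge (Tup E s x i (a i)) (Tup E s x j (a j)) := by
    have h2 := wedge_prodMap (φ : L →+* E) (x i) (x j)
    have h3 : wedge (Prod.map φ φ (x i)) (Prod.map φ φ (x j)) = φ (wedge (x i) (x j)) := h2
    rw [← h3, hau i, hau j]
    simp only [wedge, Tup, Prod.smul_fst, Prod.smul_snd, smul_eq_mul]
    ring
  rw [h1, norm_mul, norm_mul, hu, hu, one_mul, one_mul]

/-- The place with the largest local height. -/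
theorem exists_place (r : 𝓞 K) (hr : r ≠ 0) (J : Ideal (𝓞 K))
    (lam : HeightOneSpectrum (𝓞 K) → ℝ) (mu : (K →+* ℂ) → ℝ)
    (hlam : ∀ v, 0 ≤ lam v) (hlam' : ∀ v, lam v ≤ wt v r) (hmu : ∀ σ, 0 ≤ mu σ) (L₁ : ℝ)
    (hL₁ : 1 ≤ L₁) :
    ∃ G : ℝ, 1 ≤ G ∧ (∀ v : HeightOneSpectrum (𝓞 K), ¬ v.asIdeal ∣ J → lam v ≤ G) ∧
      (∀ σ, mu σ ≤ G) ∧
      ((∃ w : HeightOneSpectrum (𝓞 K), ¬ w.asIdeal ∣ J ∧ L₁ ≤ lam w ∧ G = lam w) ∨
        ∃ σ, G = L₁ + mu σ) := by
  classical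
  have hspan : Ideal.span {r} ≠ 0 := by
    rw [Ne, Ideal.zero_eq_bot, Ideal.span_singleton_eq_bot]
    exact hr
  have hfinP := Ideal.finite_factors hspan
  have hzero : ∀ v, v ∉ hfinP.toFinset → lam v = 0 := by
    intro v hv
    rw [Set.Finite.mem_toFinset] at hv
    have h6 : r ∉ v.asIdeal := fun h => hv (Ideal.dvd_span_singleton.2 h)
    exact le_antisymm ((hlam' v).trans (wt_eq_zero v _ h6).le) (hlam v)
  haveI : Nonempty (K →+* ℂ) := inferInstance
  obtain ⟨σ₀, -, hσ₀⟩ := Finset.exists_max_image (Finset.univ : Finset (K →+* ℂ)) mu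
    Finset.univ_nonempty
  have hσ : ∀ σ, mu σ ≤ mu σ₀ := fun σ => hσ₀ σ (Finset.mem_univ _)
  have h0 := hmu σ₀
  rcases (hfinP.toFinset.filter fun v => ¬ v.asIdeal ∣ J).eq_empty_or_nonempty with he | hne
  · refine ⟨L₁ + mu σ₀, by linarith, ?_, fun σ => by linarith [hσ σ], Or.inr ⟨σ₀, rfl⟩⟩
    intro v hvJ
    have h1 : v ∉ hfinP.toFinset := by
      intro h
      have : v ∈ hfinP.toFinset.filter (fun v => ¬ v.asIdeal ∣ J) :=
        Finset.mem_filter.2 ⟨h, hvJ⟩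
      rw [he] at this
      exact absurd this (Finset.notMem_empty _)
    rw [hzero v h1]
    linarith
  · obtain ⟨w, hw, hwmax⟩ := Finset.exists_max_image _ lam hne
    rw [Finset.mem_filter] at hw
    have hmax : ∀ v : HeightOneSpectrum (𝓞 K), ¬ v.asIdeal ∣ J → lam v ≤ lam w := by
      intro v hvJ
      by_cases hv : v ∈ hfinP.toFinset
      · exact hwmax v (Finset.mem_filter.2 ⟨hv, hvJ⟩)
      · rw [hzero v hv]
        exact hlam w
    by_cases hc : L₁ ≤ lam w ∧ mu σ₀ ≤ lam w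
    · exact ⟨lam w, hL₁.trans hc.1, hmax, fun σ => (hσ σ).trans hc.2,
        Or.inl ⟨w, hw.2, hc.1, rfl⟩⟩
    · refine ⟨L₁ + mu σ₀, by linarith, ?_, fun σ => by linarith [hσ σ], Or.inr ⟨σ₀, rfl⟩⟩
      intro v hvJ
      have h1 := hmax v hvJ
      rw [not_and_or, not_le, not_le] at hc
      rcases hc with hc | hc <;> linarith

/-- THEOREM S. The height is compared with its largest local part. -/
theorem main_T (N d l : ℕ) (hd : 2 ≤ d) : ∃ C : ℝ, 0 ≤ C ∧
    ∀ (K : Type) [Field K] [NumberField K],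
    ∀ F G : (𝓞 K)[X], F.natDegree ≤ d → G.natDegree ≤ d → resultant F G d d ≠ 0 →
    ∀ J : Ideal (𝓞 K), J ∣ Ideal.span {resultant F G d d} →
    (∀ v : HeightOneSpectrum (𝓞 K), v.asIdeal ∣ J → DefectiveN d N l F G v) →
    ∀ m : ℝ, 0 < m →
    (m ≤ 1 ∨ (∃ v : HeightOneSpectrum (𝓞 K), m ≤ lamV d F G v) ∨
      (∃ σ : K →+* ℂ, m ≤ lamC d (F.map (σ.comp (algebraMap (𝓞 K) K)))
        (G.map (σ.comp (algebraMap (𝓞 K) K)))) ∨ m ≤ Real.log (Ideal.absNorm J)) →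
    ∀ x : ℝ,
    (∑ᶠ (v : HeightOneSpectrum (𝓞 K)) (_ : ¬ v.asIdeal ∣ J), lamV d F G v +
      ∑ σ : K →+* ℂ, lamC d (F.map (σ.comp (algebraMap (𝓞 K) K)))
        (G.map (σ.comp (algebraMap (𝓞 K) K)))) / m + Module.finrank ℚ K ≤ x →
    ∀ (L : Type) [Field L] [NumberField L] [Algebra K L], ∀ X : Finset (L × L),
      (∀ p ∈ X, Pool.Agent.RDF.DegLe K N p ∧ p ≠ 0 ∧ ∃ a b : ℕ, a < b ∧
        wedge ((lift d (F.map (algebraMap (𝓞 K) L)) (G.map (algebraMap (𝓞 K) L)))^[a] p)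
          ((lift d (F.map (algebraMap (𝓞 K) L)) (G.map (algebraMap (𝓞 K) L)))^[b] p) = 0) →
      (∀ p ∈ X, ∀ q ∈ X, p ≠ q → wedge p q ≠ 0) →
      (X.card : ℝ) ≤ C * (x * Real.log (x + 1)) := by
  rcases Nat.eq_zero_or_pos N with rfl | hN
  · refine ⟨0, le_refl _, ?_⟩
    intro K _ _ F G _ _ _ J _ _ m _ _ x _ L _ _ _ X hX _
    have hX0 : X = ∅ := by
      rw [Finset.eq_empty_iff_forall_notMem]
      intro p hp
      obtain ⟨⟨E, hE, -, -⟩, -⟩ := hX p hp
      haveI : FiniteDimensional K L := FiniteDimensional.right ℚ K L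
      have : 0 < Module.finrank K E := Module.finrank_pos
      omega
    rw [hX0]
    simp
  obtain ⟨c₁, C₀, T₁, hc₁, hC₀, hexc⟩ := den_exc d N hd hN
  obtain ⟨b₁, hb₁⟩ := hexc d
  obtain ⟨c₂, hc₂, hcx⟩ := den_cplx d N hd hN
  obtain ⟨κ, A, hκ, hA, hdefb⟩ := loc_def d N l hd
  obtain ⟨Ca, hCa, hgenC⟩ := gen_C d hd
  obtain ⟨c, hc, hcc₁, hcc₂, hcκ⟩ : ∃ c : ℝ, 0 < c ∧ c ≤ c₁ / 2 ∧ c ≤ c₂ ∧ c ≤ κ / 4 :=
    ⟨min (min (c₁ / 2) c₂) (κ / 4), lt_min (lt_min (by positivity) hc₂) (by positivity),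
      (min_le_left _ _).trans (min_le_left _ _), (min_le_left _ _).trans (min_le_right _ _),
      min_le_right _ _⟩
  -- the threshold
  obtain ⟨L₁, hL₁1, hL₁⟩ : ∃ L₁ : ℝ, 1 ≤ L₁ ∧ C₀ ≤ c₁ / 2 * L₁ := by
    refine ⟨max 1 (2 * C₀ / c₁), le_max_left _ _, ?_⟩
    have h1 : 2 * C₀ / c₁ ≤ max 1 (2 * C₀ / c₁) := le_max_right _ _
    rw [div_le_iff₀ hc₁] at h1
    linarith
  obtain ⟨T₂, hcx'⟩ := hcx (c * L₁)
  obtain ⟨b₂, hb₂⟩ := hcx' d
  obtain ⟨C₁, hC₁, hm⟩ := exists_C₁R d hd (c / (2 * (1 + Ca))) κ A (by positivity) hκ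
    (max T₁ T₂)
  refine ⟨N * ((b₁ + b₂ : ℕ) * (d * C₁) + 2), by positivity, ?_⟩
  intro K _ _ F G hF hG hR J hJ hdef h hpos hmax x hx L₀ _ _ _ X₀ hX₀ hw₀
  classical
  by_contra hcon
  rw [not_le] at hcon
  obtain ⟨L, _, _, _, X, hXcard, hX, hw⟩ := exists_lifts L₀ d N hd F G hF hG hR X₀ hX₀ hw₀
  obtain ⟨M, hMdef⟩ : ∃ M : ℕ, M = X.card / N := ⟨_, rfl⟩
  have hMX : N * M ≤ X.card := by rw [hMdef]; exact Nat.mul_div_le _ _
  have hXM : X.card < N * (M + 1) := by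
    rw [hMdef]
    exact Nat.lt_mul_div_succ _ hN
  obtain ⟨p, hpX, hpc⟩ := nonconj L N M hN X hMX (fun p hp => (hX p hp).2.1)
    (fun p hp => (hX p hp).1) hw
  haveI : FiniteDimensional K L := FiniteDimensional.right ℚ K L
  have hpN : ∀ i, PDegLe K N (p i) := fun i => (hX _ (hpX i)).1
  have hpP : ∀ i, PreV d (F.map (algebraMap (𝓞 K) L)) (G.map (algebraMap (𝓞 K) L)) (p i) :=
    fun i => (hX _ (hpX i)).2
  set r : 𝓞 K := resultant F G d d with hr
  have hlamV := fun v => lamV_nonneg d F G v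
  have hlamV' : ∀ v, lamV d F G v ≤ wt v r := fun v => lamV_le d F G hF hG v
  have hwt : ∀ v : HeightOneSpectrum (𝓞 K), 0 ≤ wt v r := fun v => wt_nonneg v _
  obtain ⟨mu, hmu⟩ : ∃ mu : (K →+* ℂ) → ℝ,
      mu = fun σ => lamC d (F.map (σ.comp (algebraMap (𝓞 K) K)))
        (G.map (σ.comp (algebraMap (𝓞 K) K))) := ⟨_, rfl⟩
  have hmuσ : ∀ σ : K →+* ℂ, lamC d (F.map (σ.comp (algebraMap (𝓞 K) K)))
      (G.map (σ.comp (algebraMap (𝓞 K) K))) = mu σ := fun σ => by rw [hmu]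
  simp only [hmuσ] at hmax hx
  have hmu0 : ∀ σ, 0 ≤ mu σ := fun σ => by
    rw [← hmuσ]
    exact le_max_left _ _
  -- the place
  obtain ⟨Q, hQ1, hQv, hQσ, hQw⟩ := exists_place r hR J (lamV d F G) mu hlamV hlamV' hmu0 L₁
    hL₁1
  -- the fields `Om v`
  choose Om i1 i2 i3 i4 hOm using fun v : HeightOneSpectrum (𝓞 K) => PQ.exists_Om v
  have hResE : ∀ (E : Type) [Field E] [Algebra K E],
      resultant (F.map (algebraMap (𝓞 K) E)) (G.map (algebraMap (𝓞 K) E)) d d =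
        algebraMap K E (algebraMap (𝓞 K) K r) := by
    intro E _ _
    rw [resultant_map_map]
    rfl
  have hrK : algebraMap (𝓞 K) K r ≠ 0 :=
    (map_ne_zero_iff _ (RingOfIntegers.coe_injective)).mpr hR
  have hResE0 : ∀ (E : Type) [Field E] [Algebra K E],
      resultant (F.map (algebraMap (𝓞 K) E)) (G.map (algebraMap (𝓞 K) E)) d d ≠ 0 := by
    intro E _ _
    rw [hResE]
    exact (map_ne_zero_iff _ (algebraMap K E).injective).mpr hrK
  have hwne : ∀ i j : Fin M, i ≠ j → wedge (p i) (p j) ≠ 0 := by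
    intro i j hij h0
    let φ : L →ₐ[K] AlgebraicClosure L := IsScalarTower.toAlgHom K L (AlgebraicClosure L)
    refine hpc (AlgebraicClosure L) φ φ _ _ hij ?_
    have h2 := wedge_prodMap (φ : L →+* AlgebraicClosure L) (p i) (p j)
    rw [h0, map_zero] at h2
    exact h2
  -- the gain at the place
  have hplace : ∃ Z : Finset (Fin M), M ≤ (b₁ + b₂) * Z.card ∧
      ∀ Y ⊆ Z, Z.card ≤ d * Y.card → max T₁ T₂ ≤ Y.card → ∀ e : Fin Y.card ≃ Y,
      (∃ w : HeightOneSpectrum (𝓞 K), ¬ w.asIdeal ∣ J ∧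
        ∑ i, ∑ j ∈ Finset.univ.erase i,
          Real.log (av w (Algebra.norm K (wedge (p (e i)) (p (e j))))) ≤
        Module.finrank K L * ((Y.card * (Y.card - 1) : ℝ) * (wt w r / (d * (d - 1))) -
          c * Q * (Y.card : ℝ) ^ 2)) ∨
      ∃ σ : K →+* ℂ,
        ∑ i, ∑ j ∈ Finset.univ.erase i,
          Real.log ‖σ (Algebra.norm K (wedge (p (e i)) (p (e j))))‖ ≤
        Module.finrank K L * ((Y.card * (Y.card - 1) : ℝ) *
          (-Real.log ‖σ (algebraMap (𝓞 K) K r)‖ / (d * (d - 1))) -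
            c * Q * (Y.card : ℝ) ^ 2) := by
    rcases hQw with ⟨w, hwJ, hwL, hwQ⟩ | ⟨σ, hσQ⟩
    · obtain ⟨Z, hZ1, hZ2⟩ := place_boundT (Om w) N d hN hd F G hF hG hR L p
        hpN hpP (fun φ ψ i j hij => hpc (Om w) φ ψ i j hij) b₁ d T₁
        (fun T => (T * (T - 1) : ℝ) * (wt w r / (d * (d - 1))) +
          (C₀ - c₁ * lamV d F G w) * (T : ℝ) ^ 2)
        (by
          intro z U hz hzw
          obtain ⟨Z, h1, h2, h3⟩ := hb₁ (Om w)
            (F.map (algebraMap (𝓞 K) (Om w))) (G.map (algebraMap (𝓞 K) (Om w)))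
            (natDegree_map_le.trans hF) (natDegree_map_le.trans hG) (hResE0 _) (lamV d F G w)
            (fun r' hr' => lamV_le_of_mem d F G w (Om w) (hOm w) r' hr') (Fin M) z U hz hzw
          refine ⟨Z, h1, h2, fun Y hY hYq hYc a => ?_⟩
          have h4 := h3 Y hY hYq hYc a
          rw [hResE, hOm] at h4
          exact h4)
      refine ⟨Z, hZ1.trans (Nat.mul_le_mul_right _ (Nat.le_add_right _ _)), ?_⟩
      intro Y hY hYq hYT e
      refine Or.inl ⟨w, hwJ, ?_⟩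
      have h1 : ∀ φ : L →ₐ[K] Om w, ∑ i, ∑ j ∈ Finset.univ.erase i,
          Real.log ‖φ (wedge (p (e i)) (p (e j)))‖ ≤
          (Y.card * (Y.card - 1) : ℝ) * (wt w r / (d * (d - 1))) -
            c * Q * (Y.card : ℝ) ^ 2 := by
        intro φ
        have h2 := hZ2 Y hY hYq ((le_max_left _ _).trans hYT) φ
        rw [sum_equiv Y e (fun i j => Real.log ‖φ (wedge (p i) (p j))‖)]
        refine h2.trans ?_
        have h3 : C₀ - c₁ * lamV d F G w ≤ -(c * Q) := by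
          rw [hwQ]
          have e1 : c₁ / 2 * L₁ ≤ c₁ / 2 * lamV d F G w :=
            mul_le_mul_of_nonneg_left hwL (by positivity)
          have e2 := mul_le_mul_of_nonneg_right hcc₁ (hlamV w)
          linarith
        have h4 := mul_le_mul_of_nonneg_right h3 (show 0 ≤ (Y.card : ℝ) ^ 2 by positivity)
        linarith
      have h2 := local_sumD (Om w) L (fun i j => wedge (p (e i)) (p (e j)))
        (fun i j hij => hwne _ _ (fun h => hij (e.injective (Subtype.ext h)))) _ h1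
      simpa only [hOm w] using h2
    · letI : Algebra K ℂ := σ.toAlgebra
      obtain ⟨Z, hZ1, hZ2⟩ := place_boundT ℂ N d hN hd F G hF hG hR L p
        hpN hpP (fun φ ψ i j hij => hpc ℂ φ ψ i j hij) b₂ d T₂
        (fun T => (T * (T - 1) : ℝ) * (-Real.log ‖σ (algebraMap (𝓞 K) K r)‖ / (d * (d - 1))) -
          (c * L₁ + c₂ * mu σ) * (T : ℝ) ^ 2)
        (by
          intro z U hz hzw
          obtain ⟨Z, h1, h2, h3⟩ := hb₂
            (F.map (algebraMap (𝓞 K) ℂ)) (G.map (algebraMap (𝓞 K) ℂ))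
            (natDegree_map_le.trans hF) (natDegree_map_le.trans hG) (hResE0 _) (Fin M) z U hz
            hzw
          refine ⟨Z, h1, h2, fun Y hY hYq hYc a => ?_⟩
          have h4 := h3 Y hY hYq hYc a
          rw [hResE] at h4
          have h5 := hmuσ σ
          rw [← h5]
          exact h4)
      refine ⟨Z, hZ1.trans (Nat.mul_le_mul_right _ (Nat.le_add_left _ _)), ?_⟩
      intro Y hY hYq hYT e
      refine Or.inr ⟨σ, ?_⟩
      have h1 : ∀ φ : L →ₐ[K] ℂ, ∑ i, ∑ j ∈ Finset.univ.erase i,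
          Real.log ‖φ (wedge (p (e i)) (p (e j)))‖ ≤
          (Y.card * (Y.card - 1) : ℝ) *
            (-Real.log ‖σ (algebraMap (𝓞 K) K r)‖ / (d * (d - 1))) -
            c * Q * (Y.card : ℝ) ^ 2 := by
        intro φ
        have h2 := hZ2 Y hY hYq ((le_max_right _ _).trans hYT) φ
        rw [sum_equiv Y e (fun i j => Real.log ‖φ (wedge (p i) (p j))‖)]
        refine h2.trans ?_
        have h3 : c * Q ≤ c * L₁ + c₂ * mu σ := by
          rw [hσQ, mul_add]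
          have e2 := mul_le_mul_of_nonneg_right hcc₂ (hmu0 σ)
          linarith
        have h4 := mul_le_mul_of_nonneg_right h3 (show 0 ≤ (Y.card : ℝ) ^ 2 by positivity)
        linarith
      exact local_sumD ℂ L (fun i j => wedge (p (e i)) (p (e j)))
        (fun i j hij => hwne _ _ (fun h => hij (e.injective (Subtype.ext h)))) _ h1
  obtain ⟨Z, hZ1, hZ2⟩ := hplace
  -- the number of points of `Z`
  have hfr : (1 : ℝ) ≤ Module.finrank ℚ K := by
    exact_mod_cast (Module.finrank_pos : 0 < Module.finrank ℚ K)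
  have hH0 : 0 ≤ ∑ᶠ (v : HeightOneSpectrum (𝓞 K)) (_ : ¬ v.asIdeal ∣ J), lamV d F G v +
      ∑ σ, mu σ :=
    add_nonneg (finsum_nonneg fun v => finsum_nonneg fun _ => hlamV v)
      (Finset.sum_nonneg fun σ _ => hmu0 σ)
  obtain ⟨y, hy⟩ : ∃ y : ℝ, y = (∑ᶠ (v : HeightOneSpectrum (𝓞 K)) (_ : ¬ v.asIdeal ∣ J),
      lamV d F G v + ∑ σ, mu σ) / h := ⟨_, rfl⟩
  have hy0 : 0 ≤ y := by
    rw [hy]
    exact div_nonneg hH0 hpos.le
  have hyh : ∑ᶠ (v : HeightOneSpectrum (𝓞 K)) (_ : ¬ v.asIdeal ∣ J), lamV d F G v +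
      ∑ σ, mu σ ≤ y * h := by
    rw [hy, div_mul_cancel₀ _ hpos.ne']
  rw [← hy] at hx
  have hx1 : 1 ≤ x := by linarith
  have hP12 := half_le_xlog x hx1
  set Pk : ℝ := x * Real.log (x + 1) with hPk
  have hMZ : (M : ℝ) ≤ (b₁ + b₂ : ℕ) * Z.card := by exact_mod_cast hZ1
  have hZbig : d * C₁ * Pk ≤ Z.card := by
    by_contra hlt
    rw [not_le] at hlt
    have h1 : (X₀.card : ℝ) < N * (M + 1) := by
      rw [← hXcard]
      exact_mod_cast hXM
    have h2 : ((b₁ + b₂ : ℕ) * Z.card : ℝ) ≤ (b₁ + b₂ : ℕ) * (d * C₁ * Pk) :=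
      mul_le_mul_of_nonneg_left hlt.le (by positivity)
    have h3 : (M : ℝ) + 1 ≤ ((b₁ + b₂ : ℕ) * (d * C₁) + 2) * Pk := by
      have : ((b₁ + b₂ : ℕ) : ℝ) * (d * C₁ * Pk) = (b₁ + b₂ : ℕ) * (d * C₁) * Pk := by ring
      linarith
    have h4 := mul_le_mul_of_nonneg_left h3 (show (0 : ℝ) ≤ N from Nat.cast_nonneg _)
    have h5 : (N : ℝ) * (((b₁ + b₂ : ℕ) * (d * C₁) + 2) * Pk) =
      N * ((b₁ + b₂ : ℕ) * (d * C₁) + 2) * Pk := by ring
    linarith
  have hd0 : (0 : ℝ) < d := by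
    have : 0 < d := by omega
    exact_mod_cast this
  have hZ0 : Z.card ≠ 0 := by
    intro h0
    rw [h0, Nat.cast_zero] at hZbig
    have : 0 < d * C₁ * Pk := by
      have : 0 < Pk := by linarith
      positivity
    linarith
  obtain ⟨n, hndef⟩ : ∃ n : ℕ, n = Nat.log d Z.card := ⟨_, rfl⟩
  have hn1 : d ^ n ≤ Z.card := by rw [hndef]; exact Nat.pow_log_le_self d hZ0
  have hn2 : Z.card < d ^ (n + 1) := by
    rw [hndef]
    exact Nat.lt_pow_succ_log_self (by omega) _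
  have hT := Pow_cast d n
  have hn3 : C₁ * Pk ≤ (d : ℝ) ^ n := by
    have h1 : (Z.card : ℝ) < d * (d : ℝ) ^ n := by
      have : (Z.card : ℝ) < ((d ^ (n + 1) : ℕ) : ℝ) := by exact_mod_cast hn2
      rw [Nat.cast_pow, pow_succ] at this
      linarith
    have h2 : d * (C₁ * Pk) < d * (d : ℝ) ^ n := by linarith
    exact (lt_of_mul_lt_mul_left h2 hd0.le).le
  obtain ⟨hmT, hmg, hmκ⟩ := hm x hx1 n hn3
  obtain ⟨Y, hYZ, hYc⟩ := Finset.exists_subset_card_eq hn1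
  have hYq : Z.card ≤ d * Y.card := by
    rw [hYc]
    rw [pow_succ, mul_comm] at hn2
    exact hn2.le
  have hT12 : max T₁ T₂ ≤ d ^ n := by
    rw [← hT] at hmT
    exact_mod_cast hmT
  let e₀ : Fin (d ^ n) ≃ Y := (Finset.equivFinOfCardEq hYc).symm
  have hgain := hZ2 Y hYZ hYq (by rw [hYc]; exact hT12)
  rw [hYc] at hgain
  have hgain₀ := hgain e₀
  set z : Fin (d ^ n) → L × L := fun i => p (e₀ i) with hz
  have hzw : ∀ i j, i ≠ j → wedge (z i) (z j) ≠ 0 := fun i j hij =>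
    hwne _ _ (fun h => hij (e₀.injective (Subtype.ext h)))
  have hzP : ∀ i, PreV d (F.map (algebraMap (𝓞 K) L)) (G.map (algebraMap (𝓞 K) L)) (z i) :=
    fun i => hpP _
  have hzN : ∀ i, PDegLe K N (z i) := fun i => hpN _
  have hTpos : 0 < (d : ℝ) ^ n := by positivity
  refine ineq_RT r hR d J hJ (lamV d F G) mu hlamV hlamV' hmu0 y h hy0 hyh L
    (fun i j => wedge (z i) (z j)) hzw c (2 * n * (d : ℝ) ^ n) Ca Q hc.le (by positivity) hCa
    hQ1 ?_ ?_ ?_ ?_ ?_ hgain₀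
  · rcases hmax with hmax | ⟨v, hv⟩ | ⟨σ, hσ⟩ | hmax
    · exact Or.inl (hmax.trans hQ1)
    · by_cases hvJ : v.asIdeal ∣ J
      · exact Or.inr (Or.inr ⟨v, hvJ, hv.trans (hlamV' v)⟩)
      · exact Or.inl (hv.trans (hQv v hvJ))
    · exact Or.inl (hσ.trans (hQσ σ))
    · exact Or.inr (Or.inl hmax)
  · rw [hT]
    have h1 : y + Module.finrank ℚ K * Ca ≤ (1 + Ca) * x := by
      have e1 : Module.finrank ℚ K * Ca ≤ x * Ca :=
        mul_le_mul_of_nonneg_right (by linarith) hCa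
      linarith
    have h2 : 2 * n * (d : ℝ) ^ n * (y + Module.finrank ℚ K * Ca) ≤
        2 * n * (d : ℝ) ^ n * ((1 + Ca) * x) := mul_le_mul_of_nonneg_left h1 (by positivity)
    have h3 := mul_le_mul_of_nonneg_left hmg (show 0 ≤ 1 + Ca by linarith)
    have h4 : (1 + Ca) * (c / (2 * (1 + Ca)) * ((d : ℝ) ^ n) ^ 2) =
        c / 2 * ((d : ℝ) ^ n) ^ 2 := by
      field_simp
    rw [h4] at h3
    have h5 : 0 < c * ((d : ℝ) ^ n) ^ 2 := by positivity
    linarith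
  · intro v hv
    have hrv : r ∈ v.asIdeal := Ideal.dvd_span_singleton.1 (hv.trans hJ)
    have h1 : ∀ φ : L →ₐ[K] Om v, ∑ i, ∑ j ∈ Finset.univ.erase i,
        Real.log ‖φ (wedge (z i) (z j))‖ ≤
        (((d ^ n : ℕ) : ℝ) * (((d ^ n : ℕ) : ℝ) - 1)) * (wt v r / (d * (d - 1))) -
          2 * c * ((d ^ n : ℕ) : ℝ) ^ 2 * wt v r := by
      intro φ
      rw [hT]
      have h2 := hdefb K F G hF hG hR v hrv (hdef v hv) (Om v) (hOm v) L φ n z
        (fun i => ⟨hzN i, hzP i⟩) hzw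
      refine h2.trans ?_
      have h3 : 2 * c * ((d : ℝ) ^ n) ^ 2 ≤
          κ * ((d : ℝ) ^ n) ^ 2 - A * (n + 1) * (d : ℝ) ^ n := by
        refine le_trans ?_ hmκ
        exact mul_le_mul_of_nonneg_right (by linarith) (by positivity)
      have h4 := mul_le_mul_of_nonneg_right h3 (hwt v)
      have h5 : wt v r = -Real.log (av v (algebraMap (𝓞 K) K r)) := rfl
      rw [h5] at h4 ⊢
      linarith
    have h2 := local_sumD (Om v) L _ hzw _ h1
    simpa only [hOm v] using h2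
  · intro v
    have h1 := gen_sum d hd F G hF hG hR v L n z hzP hzw
    rw [hT]
    exact h1
  · intro σ
    letI : Algebra K ℂ := σ.toAlgebra
    have h1 : ∀ φ : L →ₐ[K] ℂ, ∑ i, ∑ j ∈ Finset.univ.erase i,
        Real.log ‖φ (wedge (z i) (z j))‖ ≤
        (((d ^ n : ℕ) : ℝ) * (((d ^ n : ℕ) : ℝ) - 1)) *
          (-Real.log ‖σ (algebraMap (𝓞 K) K r)‖ / (d * (d - 1))) +
          2 * n * (d : ℝ) ^ n * (mu σ + Ca) := by
      intro φ
      rw [hT]
      have h2 : ∀ i j, wedge (Prod.map φ φ (z i)) (Prod.map φ φ (z j)) =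
          φ (wedge (z i) (z j)) := fun i j => wedge_prodMap (φ : L →+* ℂ) (z i) (z j)
      have h3 := hgenC (F.map (algebraMap (𝓞 K) ℂ)) (G.map (algebraMap (𝓞 K) ℂ))
        (natDegree_map_le.trans hF) (natDegree_map_le.trans hG) (hResE0 _) n
        (fun i => Prod.map φ φ (z i))
        (fun i => by
          have h4 := (hzP i).map (φ : L →+* ℂ)
          rw [map_algHom, map_algHom] at h4
          exact h4)
        (fun i j hij => by
          rw [h2]
          exact (map_ne_zero_iff _ φ.toRingHom.injective).mpr (hzw i j hij))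
      simp only [h2] at h3
      rw [hResE] at h3
      have h5 := hmuσ σ
      rw [← h5]
      exact h3
    exact local_sumD ℂ L _ hzw _ h1

end Pool.Agent.RI
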