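import Mathlib
import Pool.Agent.RI.TMain
import Pool.Agent.RI.SAll
import Pool.Agent.RI.SMin2

set_option autoImplicit false

/-!
# Corollaries of Theorem S

`main_T_all`: a set `S` of primes and a factor `k`; `main_slogsT`: the number of bad primes;
`main_oneT`: one large prime which divides the resultant exactly once.  The constants do not
depend on the degree of the number field.
-/

namespace Pool.Agent.RI

open Polynomial NumberField IsDedekindDomain Pool.Agent.GPoly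
open Pool.Agent.RDF (lift wedge DefectiveN)
open SAll

namespace TCor

theorem log_bound5 (x : ℝ) (hx : 1 ≤ x) :
    5 * x * Real.log (5 * x + 1) ≤ 15 * (x * Real.log (x + 1)) := by
  have h1 : Real.log (5 * x + 1) ≤ 3 * Real.log (x + 1) := by
    rw [← Real.log_rpow (by linarith) 3]
    refine Real.log_le_log (by linarith) ?_
    have : (x + 1) ^ (3 : ℝ) = (x + 1) ^ 3 := by norm_cast
    rw [this]
    nlinarith [sq_nonneg x, mul_nonneg (by linarith : 0 ≤ x) (sq_nonneg x)]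
  nlinarith

/-- The real inequality: `m` dominates all terms. -/
theorem real_bound (a b c e s D k m : ℝ) (hm : 1 ≤ m) (hk : 1 ≤ k) (hs : 0 ≤ s) (hD : 1 ≤ D)
    (ha : a ≤ k * (1 + b + c + e)) (hb : b ≤ s * m) (hc : c ≤ D * m) (he : e ≤ m) :
    (a + b + c) / m + D ≤ 5 * (k * (s + D)) := by
  have hm0 : 0 < m := by linarith
  have h1 : a + b + c ≤ (k * (2 + s + D) + s + D) * m := by
    have h2 : k * (1 + b + c + e) ≤ k * ((2 + s + D) * m) :=
      mul_le_mul_of_nonneg_left (by nlinarith) (by linarith)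
    nlinarith
  have h3 : (a + b + c) / m ≤ k * (2 + s + D) + s + D := by
    rw [div_le_iff₀ hm0]
    exact h1
  have h4 : 0 ≤ (k - 1) * (s + D) := mul_nonneg (by linarith) (by linarith)
  nlinarith

end TCor

open TCor

/-- THEOREM S, for a set `S` of primes. -/
theorem main_T_all (N d l : ℕ) (hd : 2 ≤ d) : ∃ C : ℝ, 0 ≤ C ∧
    ∀ (K : Type) [Field K] [NumberField K],
    ∀ F G : (𝓞 K)[X], F.natDegree ≤ d → G.natDegree ≤ d → resultant F G d d ≠ 0 →
    ∀ k : ℕ, 1 ≤ k → ∀ J : Ideal (𝓞 K), J ∣ Ideal.span {resultant F G d d} →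
    (∀ v : HeightOneSpectrum (𝓞 K), v.asIdeal ∣ J → DefectiveN d N l F G v) →
    ∀ S : Finset (HeightOneSpectrum (𝓞 K)),
    ∑ᶠ (v : HeightOneSpectrum (𝓞 K)) (_ : v ∉ S ∧ ¬ v.asIdeal ∣ J), lamV d F G v ≤
      k * (1 + ∑ v ∈ S, lamV d F G v +
        ∑ σ : K →+* ℂ, lamC d (F.map (σ.comp (algebraMap (𝓞 K) K)))
          (G.map (σ.comp (algebraMap (𝓞 K) K))) +
        Real.log (Ideal.absNorm J)) →
    ∀ (L : Type) [Field L] [NumberField L] [Algebra K L], ∀ X : Finset (L × L),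
      (∀ p ∈ X, Pool.Agent.RDF.DegLe K N p ∧ p ≠ 0 ∧ ∃ a b : ℕ, a < b ∧
        wedge ((lift d (F.map (algebraMap (𝓞 K) L)) (G.map (algebraMap (𝓞 K) L)))^[a] p)
          ((lift d (F.map (algebraMap (𝓞 K) L)) (G.map (algebraMap (𝓞 K) L)))^[b] p) = 0) →
      (∀ p ∈ X, ∀ q ∈ X, p ≠ q → wedge p q ≠ 0) →
      (X.card : ℝ) ≤ C * (k * (S.card + Module.finrank ℚ K) *
        Real.log (k * (S.card + Module.finrank ℚ K) + 1)) := by
  obtain ⟨C, hC, hmain⟩ := main_T N d l hd
  refine ⟨15 * C, by positivity, ?_⟩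
  intro K _ _ F G hF hG hR k hk J hJ hdef S hsum L _ _ _ X hX hXw
  classical
  have hk1 : (1 : ℝ) ≤ k := by exact_mod_cast hk
  have hSc : (0 : ℝ) ≤ S.card := Nat.cast_nonneg _
  have hD1 : (1 : ℝ) ≤ Module.finrank ℚ K := by
    exact_mod_cast (Module.finrank_pos : 0 < Module.finrank ℚ K)
  have hfin := lamV_support d F G hF hG hR
  have hP : ∀ v, lamV d F G v ≠ 0 → v ∈ hfin.toFinset := fun v hv =>
    (Set.Finite.mem_toFinset hfin).mpr hv
  -- the largest term
  set mu : (K →+* ℂ) → ℝ := fun σ => lamC d (F.map (σ.comp (algebraMap (𝓞 K) K)))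
    (G.map (σ.comp (algebraMap (𝓞 K) K))) with hmu
  have hmu0 : ∀ σ, 0 ≤ mu σ := fun σ => le_max_left _ _
  obtain ⟨m, hm1, hm2, hm3, hm4, hm5⟩ : ∃ m : ℝ, 1 ≤ m ∧ (∀ v ∈ S, lamV d F G v ≤ m) ∧
      (∀ σ, mu σ ≤ m) ∧ Real.log (Ideal.absNorm J) ≤ m ∧
      (m ≤ 1 ∨ (∃ v : HeightOneSpectrum (𝓞 K), m ≤ lamV d F G v) ∨ (∃ σ, m ≤ mu σ) ∨
        m ≤ Real.log (Ideal.absNorm J)) := by
    obtain ⟨a, ha1, ha2, ha3⟩ : ∃ a : ℝ, 1 ≤ a ∧ (∀ v ∈ S, lamV d F G v ≤ a) ∧
        (a ≤ 1 ∨ ∃ v : HeightOneSpectrum (𝓞 K), a ≤ lamV d F G v) := by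
      rcases S.eq_empty_or_nonempty with rfl | hne
      · exact ⟨1, le_rfl, by simp, Or.inl le_rfl⟩
      · obtain ⟨w, -, hw⟩ := Finset.exists_max_image S (lamV d F G) hne
        rcases le_total (lamV d F G w) 1 with h | h
        · exact ⟨1, le_rfl, fun v hv => (hw v hv).trans h, Or.inl le_rfl⟩
        · exact ⟨lamV d F G w, h, hw, Or.inr ⟨w, le_rfl⟩⟩
    obtain ⟨τ, -, hτ⟩ := Finset.exists_max_image (Finset.univ : Finset (K →+* ℂ)) mu
      Finset.univ_nonempty
    refine ⟨max a (max (mu τ) (Real.log (Ideal.absNorm J))), le_max_of_le_left ha1,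
      fun v hv => le_max_of_le_left (ha2 v hv),
      fun σ => le_max_of_le_right (le_max_of_le_left (hτ σ (Finset.mem_univ σ))),
      le_max_of_le_right (le_max_right _ _), ?_⟩
    rcases max_choice a (max (mu τ) (Real.log (Ideal.absNorm J))) with h | h
    · rw [h]
      rcases ha3 with h1 | h1
      · exact Or.inl h1
      · exact Or.inr (Or.inl h1)
    · rw [h]
      rcases max_choice (mu τ) (Real.log (Ideal.absNorm J)) with h1 | h1
      · rw [h1]
        exact Or.inr (Or.inr (Or.inl ⟨τ, le_rfl⟩))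
      · rw [h1]
        exact Or.inr (Or.inr (Or.inr le_rfl))
  have h1 : ∑ᶠ (v : HeightOneSpectrum (𝓞 K)) (_ : ¬ v.asIdeal ∣ J), lamV d F G v ≤
      ∑ᶠ (v : HeightOneSpectrum (𝓞 K)) (_ : v ∉ S ∧ ¬ v.asIdeal ∣ J), lamV d F G v +
        ∑ v ∈ S, lamV d F G v := by
    rw [finsum_filter _ hfin.toFinset hP, finsum_filter _ hfin.toFinset hP]
    have h3 : hfin.toFinset.filter (fun v => ¬ v.asIdeal ∣ J) ⊆
        hfin.toFinset.filter (fun v => v ∉ S ∧ ¬ v.asIdeal ∣ J) ∪ S := by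
      intro v hv
      rw [Finset.mem_filter] at hv
      rw [Finset.mem_union, Finset.mem_filter]
      by_cases hvS : v ∈ S
      · exact Or.inr hvS
      · exact Or.inl ⟨hv.1, hvS, hv.2⟩
    refine (Finset.sum_le_sum_of_subset_of_nonneg h3 fun v _ _ => lamV_nonneg d F G v).trans ?_
    have h4 := Finset.sum_union_inter
      (s₁ := hfin.toFinset.filter (fun v => v ∉ S ∧ ¬ v.asIdeal ∣ J)) (s₂ := S)
      (f := lamV d F G)
    have h5 : 0 ≤ ∑ v ∈ hfin.toFinset.filter (fun v => v ∉ S ∧ ¬ v.asIdeal ∣ J) ∩ S,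
        lamV d F G v := Finset.sum_nonneg fun v _ => lamV_nonneg d F G v
    linarith
  have h2 : ∑ v ∈ S, lamV d F G v ≤ S.card * m := by
    have := Finset.sum_le_card_nsmul S (lamV d F G) m hm2
    rwa [nsmul_eq_mul] at this
  have h3 : ∑ σ : K →+* ℂ, mu σ ≤ Module.finrank ℚ K * m := by
    have := Finset.sum_le_card_nsmul Finset.univ mu m (fun σ _ => hm3 σ)
    rwa [nsmul_eq_mul, Finset.card_univ, NumberField.Embeddings.card] at this
  have h4 := real_bound _ _ _ _ _ _ _ _ hm1 hk1 hSc hD1 hsum h2 h3 hm4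
  have h5 : (∑ᶠ (v : HeightOneSpectrum (𝓞 K)) (_ : ¬ v.asIdeal ∣ J), lamV d F G v +
      ∑ σ : K →+* ℂ, mu σ) / m + Module.finrank ℚ K ≤
      5 * (k * (S.card + Module.finrank ℚ K)) := by
    refine le_trans ?_ h4
    gcongr
  have h6 := hmain K F G hF hG hR J hJ hdef m (by linarith) hm5 _ h5 L X hX hXw
  refine h6.trans ?_
  have h7 : (1 : ℝ) ≤ k * (S.card + Module.finrank ℚ K) := by nlinarith
  have h8 := log_bound5 _ h7
  calc C * (5 * (k * (S.card + Module.finrank ℚ K)) *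
        Real.log (5 * (k * (S.card + Module.finrank ℚ K)) + 1))
      ≤ C * (15 * ((k * (S.card + Module.finrank ℚ K)) *
        Real.log (k * (S.card + Module.finrank ℚ K) + 1))) :=
        mul_le_mul_of_nonneg_left h8 hC
    _ = 15 * C * (k * (S.card + Module.finrank ℚ K) *
        Real.log (k * (S.card + Module.finrank ℚ K) + 1)) := by ring

/-- `B` is a set of primes outside of which `F / G` has potentially good reduction or is
defective. -/
theorem main_slogsT (N d l : ℕ) (hd : 2 ≤ d) : ∃ C : ℝ, 0 ≤ C ∧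
    ∀ (K : Type) [Field K] [NumberField K],
    ∀ F G : (𝓞 K)[X], F.natDegree ≤ d → G.natDegree ≤ d → resultant F G d d ≠ 0 →
    ∀ B : Finset (HeightOneSpectrum (𝓞 K)),
    (∀ v, v ∉ B → PotGood d F G v ∨ DefectiveN d N l F G v) →
    ∀ (L : Type) [Field L] [NumberField L] [Algebra K L], ∀ X : Finset (L × L),
      (∀ p ∈ X, Pool.Agent.RDF.DegLe K N p ∧ p ≠ 0 ∧ ∃ a b : ℕ, a < b ∧
        wedge ((lift d (F.map (algebraMap (𝓞 K) L)) (G.map (algebraMap (𝓞 K) L)))^[a] p)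
          ((lift d (F.map (algebraMap (𝓞 K) L)) (G.map (algebraMap (𝓞 K) L)))^[b] p) = 0) →
      (∀ p ∈ X, ∀ q ∈ X, p ≠ q → wedge p q ≠ 0) →
      (X.card : ℝ) ≤ C * ((B.card + Module.finrank ℚ K) *
        Real.log (B.card + Module.finrank ℚ K + 1)) := by
  obtain ⟨C, hC, hmain⟩ := main_T_all N d l hd
  refine ⟨C, hC, ?_⟩
  intro K _ _ F G hF hG hR B hB L _ _ _ X hX hXw
  classical
  have hspan : Ideal.span {resultant F G d d} ≠ (0 : Ideal (𝓞 K)) := by
    rw [Ne, Ideal.zero_eq_bot, Ideal.span_singleton_eq_bot]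
    exact hR
  have hfin : {v : HeightOneSpectrum (𝓞 K) | v.asIdeal ∣ Ideal.span {resultant F G d d} ∧
      DefectiveN d N l F G v}.Finite :=
    (Ideal.finite_factors hspan).subset fun v hv => hv.1
  set J : Ideal (𝓞 K) := ∏ v ∈ hfin.toFinset, v.asIdeal with hJ
  have hJR : J ∣ Ideal.span {resultant F G d d} := by
    have hinj : Set.InjOn (fun v : HeightOneSpectrum (𝓞 K) => v.asIdeal)
        (hfin.toFinset : Set (HeightOneSpectrum (𝓞 K))) := fun v _ w _ h =>
      HeightOneSpectrum.ext h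
    have h1 := Finset.prod_image (f := fun I : Ideal (𝓞 K) => I) hinj
    rw [hJ]
    rw [← h1]
    refine Finset.prod_primes_dvd _ ?_ ?_
    · intro I hI
      obtain ⟨v, -, rfl⟩ := Finset.mem_image.1 hI
      exact v.prime
    · intro I hI
      obtain ⟨v, hv, rfl⟩ := Finset.mem_image.1 hI
      exact ((Set.Finite.mem_toFinset hfin).1 hv).1
  have hJdef : ∀ v : HeightOneSpectrum (𝓞 K), v.asIdeal ∣ J → DefectiveN d N l F G v := by
    intro v hv
    obtain ⟨w, hw, hvw⟩ := (v.prime.dvd_finsetProd_iff _).1 hv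
    have h1 : v = w := by
      refine HeightOneSpectrum.ext ?_
      exact associated_iff_eq.1 ((Prime.dvd_prime_iff_associated v.prime w.prime).1 hvw)
    rw [h1]
    exact ((Set.Finite.mem_toFinset hfin).1 hw).2
  have hzero : ∑ᶠ (v : HeightOneSpectrum (𝓞 K)) (_ : v ∉ B ∧ ¬ v.asIdeal ∣ J), lamV d F G v = 0 := by
    refine finsum_mem_eq_zero_of_forall_eq_zero
      (s := {v : HeightOneSpectrum (𝓞 K) | v ∉ B ∧ ¬ v.asIdeal ∣ J}) fun v hv => ?_
    by_cases hvR : resultant F G d d ∈ v.asIdeal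
    · rcases hB v hv.1 with h1 | h1
      · exact lamV_of_potGood d hd F G hF hG hR v h1
      · refine absurd ?_ hv.2
        refine Finset.dvd_prod_of_mem (fun v : HeightOneSpectrum (𝓞 K) => v.asIdeal)
          ((Set.Finite.mem_toFinset hfin).2 ⟨?_, h1⟩)
        rw [Ideal.dvd_span_singleton]
        exact hvR
    · exact lamV_eq_zero d F G hF hG v hvR
  have h1 := hmain K F G hF hG hR 1 le_rfl J hJR hJdef B (by
    rw [hzero]
    have hM1 : 0 ≤ ∑ σ : K →+* ℂ, lamC d (F.map (σ.comp (algebraMap (𝓞 K) K)))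
        (G.map (σ.comp (algebraMap (𝓞 K) K))) := Finset.sum_nonneg fun σ _ => le_max_left _ _
    have hM2 : 0 ≤ Real.log (Ideal.absNorm J) := Real.log_natCast_nonneg _
    have hM3 : 0 ≤ ∑ v ∈ B, lamV d F G v := Finset.sum_nonneg fun v _ => lamV_nonneg d F G v
    have : (0 : ℝ) ≤ ((1 : ℕ) : ℝ) := by norm_num
    positivity) L X hX hXw
  refine h1.trans (le_of_eq ?_)
  rw [Nat.cast_one, one_mul]

/-- One prime `v` divides the resultant exactly once, and its norm is large.  There is no condition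
on the other primes. -/
theorem main_oneT (N d : ℕ) (hd : 3 ≤ d) : ∃ C : ℝ, 0 ≤ C ∧
    ∀ (K : Type) [Field K] [NumberField K],
    ∀ F G : (𝓞 K)[X], F.natDegree ≤ d → G.natDegree ≤ d → resultant F G d d ≠ 0 →
    ∀ v : HeightOneSpectrum (𝓞 K), resultant F G d d ∈ v.asIdeal →
    resultant F G d d ∉ v.asIdeal ^ 2 → ∀ k : ℕ,
    Ideal.absNorm (Ideal.span {resultant F G d d}) ≤ Ideal.absNorm v.asIdeal ^ k →
    ∀ (L : Type) [Field L] [NumberField L] [Algebra K L], ∀ X : Finset (L × L),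
      (∀ p ∈ X, Pool.Agent.RDF.DegLe K N p ∧ p ≠ 0 ∧ ∃ a b : ℕ, a < b ∧
        wedge ((lift d (F.map (algebraMap (𝓞 K) L)) (G.map (algebraMap (𝓞 K) L)))^[a] p)
          ((lift d (F.map (algebraMap (𝓞 K) L)) (G.map (algebraMap (𝓞 K) L)))^[b] p) = 0) →
      (∀ p ∈ X, ∀ q ∈ X, p ≠ q → wedge p q ≠ 0) →
      (X.card : ℝ) ≤ C * ((k + Module.finrank ℚ K) *
        Real.log (k + Module.finrank ℚ K + 1)) := by
  obtain ⟨C, hC, hmain⟩ := main_T N d 0 (by omega)
  refine ⟨15 * C, by positivity, ?_⟩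
  intro K _ _ F G hF hG hR v hv1 hv2 k hk L _ _ _ X hX hXw
  classical
  have hD1 : (1 : ℝ) ≤ Module.finrank ℚ K := by
    exact_mod_cast (Module.finrank_pos : 0 < Module.finrank ℚ K)
  have hk0 : (0 : ℝ) ≤ k := Nat.cast_nonneg _
  have hRK : algebraMap (𝓞 K) K (resultant F G d d) ≠ 0 :=
    (map_ne_zero_iff _ (RingOfIntegers.coe_injective)).mpr hR
  set P : Finset (HeightOneSpectrum (𝓞 K)) := (av_support_finite _ hRK).toFinset with hPdef
  have hP0 : ∀ v : HeightOneSpectrum (𝓞 K), resultant F G d d ∈ v.asIdeal → v ∈ P := by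
    intro v hv
    rw [hPdef, Set.Finite.mem_toFinset]
    exact ((av_int_lt_one v _).mpr hv).ne
  have hP : ∀ v, lamV d F G v ≠ 0 → v ∈ P := by
    intro v hv
    refine hP0 v ?_
    by_contra h
    exact hv (lamV_eq_zero d F G hF hG v h)
  set mu : (K →+* ℂ) → ℝ := fun σ => lamC d (F.map (σ.comp (algebraMap (𝓞 K) K)))
    (G.map (σ.comp (algebraMap (𝓞 K) K))) with hmu
  obtain ⟨τ, -, hτ⟩ := Finset.exists_max_image (Finset.univ : Finset (K →+* ℂ)) mu
    Finset.univ_nonempty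
  have hlv : lamV d F G v = wt v (resultant F G d d) := lamV_of_sq d hd F G hF hG v hv2
  have hlq : lq v ≤ lamV d F G v := by
    have h1 := (av_int_le_pow v (resultant F G d d) 1).mp (by rwa [pow_one])
    have h2 := Real.log_le_log (av_int_pos v _ hR) h1
    rw [Real.log_exp, Nat.cast_one, one_mul] at h2
    rw [hlv, wt]
    linarith
  have hlq0 : 0 < lq v := by
    rw [lq]
    refine Real.log_pos ?_
    exact_mod_cast NumberField.HeightOneSpectrum.one_lt_absNorm v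
  have htop : ∀ w : HeightOneSpectrum (𝓞 K), ¬ w.asIdeal ∣ (⊤ : Ideal (𝓞 K)) := by
    intro w hw
    rw [← Ideal.one_eq_top] at hw
    exact w.prime.not_unit (isUnit_of_dvd_one hw)
  -- the height
  have h1 : ∑ᶠ (w : HeightOneSpectrum (𝓞 K)) (_ : ¬ w.asIdeal ∣ (⊤ : Ideal (𝓞 K))),
      lamV d F G w ≤ k * lamV d F G v := by
    rw [finsum_filter _ P hP, Finset.filter_true_of_mem fun w _ => htop w]
    have h2 : ∑ w ∈ P, lamV d F G w ≤ ∑ w ∈ P, -Real.log (av w (algebraMap (𝓞 K) K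
        (resultant F G d d))) := Finset.sum_le_sum fun w _ => lamV_le d F G hF hG w
    rw [sum_log_av_int _ hR P hP0] at h2
    have h3 : Real.log (Ideal.absNorm (Ideal.span {resultant F G d d})) ≤ k * lq v := by
      have h4 : (Ideal.absNorm (Ideal.span {resultant F G d d}) : ℝ) ≤
          (Ideal.absNorm v.asIdeal : ℝ) ^ k := by exact_mod_cast hk
      have h5 : (0 : ℝ) < Ideal.absNorm (Ideal.span {resultant F G d d}) := by
        have : 0 < Ideal.absNorm (Ideal.span {resultant F G d d}) := Nat.pos_of_ne_zero (by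
          rw [Ne, Ideal.absNorm_eq_zero_iff, Ideal.span_singleton_eq_bot]
          exact hR)
        exact_mod_cast this
      calc Real.log (Ideal.absNorm (Ideal.span {resultant F G d d})) ≤
            Real.log ((Ideal.absNorm v.asIdeal : ℝ) ^ k) := Real.log_le_log h5 h4
        _ = k * lq v := by rw [Real.log_pow, lq]
    have h6 := mul_le_mul_of_nonneg_left hlq hk0
    linarith
  have h2 : ∑ σ : K →+* ℂ, mu σ ≤ Module.finrank ℚ K * mu τ := by
    have := Finset.sum_le_card_nsmul Finset.univ mu (mu τ) (fun σ _ => hτ σ (Finset.mem_univ σ))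
    rwa [nsmul_eq_mul, Finset.card_univ, NumberField.Embeddings.card] at this
  set m : ℝ := max (lamV d F G v) (mu τ) with hm
  have hm0 : 0 < m := lt_max_of_lt_left (hlq0.trans_le hlq)
  have hm1 : m ≤ 1 ∨ (∃ v : HeightOneSpectrum (𝓞 K), m ≤ lamV d F G v) ∨ (∃ σ, m ≤ mu σ) ∨
      m ≤ Real.log (Ideal.absNorm (⊤ : Ideal (𝓞 K))) := by
    rcases max_choice (lamV d F G v) (mu τ) with h | h
    · exact Or.inr (Or.inl ⟨v, by rw [hm, h]⟩)
    · exact Or.inr (Or.inr (Or.inl ⟨τ, by rw [hm, h]⟩))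
  have h3 : (∑ᶠ (w : HeightOneSpectrum (𝓞 K)) (_ : ¬ w.asIdeal ∣ (⊤ : Ideal (𝓞 K))),
      lamV d F G w + ∑ σ : K →+* ℂ, mu σ) / m + Module.finrank ℚ K ≤
      5 * (k + Module.finrank ℚ K) := by
    have h4 : (∑ᶠ (w : HeightOneSpectrum (𝓞 K)) (_ : ¬ w.asIdeal ∣ (⊤ : Ideal (𝓞 K))),
        lamV d F G w + ∑ σ : K →+* ℂ, mu σ) / m ≤ k + Module.finrank ℚ K := by
      rw [div_le_iff₀ hm0]
      have h5 : k * lamV d F G v ≤ k * m := mul_le_mul_of_nonneg_left (le_max_left _ _) hk0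
      have h6 : (Module.finrank ℚ K : ℝ) * mu τ ≤ Module.finrank ℚ K * m :=
        mul_le_mul_of_nonneg_left (le_max_right _ _) (by linarith)
      linarith
    linarith
  have h4 := hmain K F G hF hG hR ⊤ (by rw [← Ideal.one_eq_top]; exact one_dvd _)
    (fun w hw => absurd hw (htop w)) m hm0 hm1 _ h3 L X hX hXw
  refine h4.trans ?_
  have h7 : (1 : ℝ) ≤ k + Module.finrank ℚ K := by linarith
  have h8 := log_bound5 _ h7
  calc C * (5 * (k + Module.finrank ℚ K) * Real.log (5 * (k + Module.finrank ℚ K) + 1))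
      ≤ C * (15 * ((k + Module.finrank ℚ K) * Real.log (k + Module.finrank ℚ K + 1))) :=
        mul_le_mul_of_nonneg_left h8 hC
    _ = 15 * C * ((k + Module.finrank ℚ K) * Real.log (k + Module.finrank ℚ K + 1)) := by ring

end Pool.Agent.RI
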