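import Mathlib
import Pool.Agent.RI.SAll
import Pool.Agent.PQ.DensB

set_option autoImplicit false

/-!
# Polynomials: the bound in terms of the number of primes
-/

namespace Pool.Agent.RI

open Polynomial NumberField IsDedekindDomain Pool.Agent.GPoly
open Pool.Agent.RDF (lift wedge form)

/-- The orbit of `(x, 1)` under the lift of `F / b`. -/
theorem Avg.iter_lift {L : Type} [Field L] (d : ℕ) (F : L[X]) (hF : F.natDegree ≤ d) (b : L)
    (hb : b ≠ 0) (x : L) (n : ℕ) :
    ∃ s : L, (lift d F (C b))^[n] (x, 1) =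
      s • ((fun z => b⁻¹ * F.eval z)^[n] x, (1 : L)) := by
  have h1 : ∀ y : L, lift d F (C b) (y, 1) = b • (b⁻¹ * F.eval y, (1 : L)) := by
    intro y
    rw [lift, RDF.form_one d _ hF, RDF.form_one d _ (by rw [natDegree_C]; omega)]
    ext
    · simp only [Prod.smul_fst, smul_eq_mul]
      field_simp
    · simp
  induction n with
  | zero => exact ⟨1, by simp⟩
  | succ n ih =>
    obtain ⟨s, hs⟩ := ih
    refine ⟨s ^ d * b, ?_⟩
    rw [Function.iterate_succ_apply', hs, RDF.lift_smul, h1, smul_smul,
      Function.iterate_succ_apply']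

/-- The number of preperiodic points of `F / b` of degree at most `N`. -/
theorem Avg.encard_primes (D N d : ℕ) (hd : 2 ≤ d) : ∃ C : ℝ, 0 ≤ C ∧
    ∀ (K : Type) [Field K] [NumberField K], Module.finrank ℚ K ≤ D →
    ∀ (F : (𝓞 K)[X]) (b : 𝓞 K), F.natDegree = d → b ≠ 0 →
    ∀ B : Finset (HeightOneSpectrum (𝓞 K)),
    (∀ v : HeightOneSpectrum (𝓞 K), F.leadingCoeff * b ∈ v.asIdeal → v ∈ B) →
    ∀ T : Finset (AlgebraicClosure K), (∀ x ∈ T, (minpoly K x).natDegree ≤ N ∧
      PQ.PreE (AlgebraicClosure K) F b x) →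
    (T.card : ℝ) ≤ C * ((B.card + 1) * Real.log (B.card + 2)) := by
  classical
  obtain ⟨C₀, hC₀0, hC₀⟩ := main_slogsD D N d 0 hd
  refine ⟨C₀, hC₀0, ?_⟩
  intro K _ _ hD F b hF hb B hB T hT
  have hlead : F.leadingCoeff ≠ 0 := by
    intro h
    rw [leadingCoeff_eq_zero] at h
    rw [h, natDegree_zero] at hF
    omega
  have hres : resultant F (C b) d d = F.leadingCoeff ^ d * b ^ d := by
    rw [resultant_C_right, leadingCoeff, hF]
  have hR : resultant F (C b) d d ≠ 0 := by
    rw [hres]
    exact mul_ne_zero (pow_ne_zero _ hlead) (pow_ne_zero _ hb)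
  have hgood : ∀ v : HeightOneSpectrum (𝓞 K), v ∉ B → PotGood d F (C b) v ∨ RDF.DefectiveN d N 0 F (C b) v := by
    intro v hv
    left
    have hnot : F.leadingCoeff * b ∉ v.asIdeal := fun h => hv (hB v h)
    refine ⟨K, inferInstance, inferInstance, Algebra.id K, 1, 1, F, C b, ?_, one_ne_zero, hF.le,
      by rw [natDegree_C]; omega, ?_, ?_⟩
    · rw [Matrix.det_one]
      exact one_ne_zero
    · intro p
      rw [act_one, act_one, one_smul]
    · intro w hw h
      have hvw : v = w := by
        refine HeightOneSpectrum.ext ?_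
        refine (v.isMaximal).eq_of_le w.isPrime.ne_top fun a ha => ?_
        exact hw a ha
      rw [hres, ← mul_pow] at h
      rw [← hvw] at h
      exact hnot (v.isPrime.mem_of_pow_mem d h)
  -- the field
  set L : IntermediateField K (AlgebraicClosure K) := IntermediateField.adjoin K (T : Set _)
    with hL
  have : FiniteDimensional K L := by
    refine IntermediateField.finiteDimensional_adjoin fun x _ => ?_
    exact Algebra.IsIntegral.isIntegral x
  have : FiniteDimensional ℚ L := FiniteDimensional.trans ℚ K L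
  have : NumberField L := ⟨⟩
  have hTL : ∀ x ∈ T, x ∈ L := fun x hx => IntermediateField.subset_adjoin K _ hx
  set ι : {x // x ∈ T} → L × L := fun x => (⟨x, hTL x x.2⟩, 1) with hι
  have hinj : Function.Injective ι := by
    intro x y h
    have h1 := congrArg (fun p : L × L => (p.1 : AlgebraicClosure K)) h
    exact Subtype.ext h1
  have hcard := hC₀ K hD F (C b) hF.le (by rw [natDegree_C]; omega) hR B hgood L
    (T.attach.image ι)
  rw [Finset.card_image_of_injective _ hinj, Finset.card_attach] at hcard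
  refine hcard ?_ ?_
  · intro p hp
    obtain ⟨x, -, rfl⟩ := Finset.mem_image.1 hp
    obtain ⟨hxN, hxP⟩ := hT x x.2
    set y : L := ⟨x, hTL x x.2⟩ with hy
    have hιx : ι x = (y, 1) := rfl
    rw [hιx]
    have hyP : PQ.PreE L F b y := PQ.PreE.of_map L.val hxP
    refine ⟨⟨IntermediateField.adjoin K {y}, ?_, IntermediateField.mem_adjoin_simple_self K y,
      one_mem _⟩, ?_, ?_⟩
    · have hint : IsIntegral K y := Algebra.IsIntegral.isIntegral y
      rw [IntermediateField.adjoin.finrank hint]
      have h1 : minpoly K (algebraMap L (AlgebraicClosure K) y) = minpoly K y :=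
        minpoly.algebraMap_eq (algebraMap L (AlgebraicClosure K)).injective y
      rw [← h1]
      exact hxN
    · intro h
      exact one_ne_zero (congrArg Prod.snd h)
    · obtain ⟨i, j, hij, he⟩ := hyP
      refine ⟨i, j, hij, ?_⟩
      have hbL : algebraMap (𝓞 K) L b ≠ 0 := by
        rw [IsScalarTower.algebraMap_apply (𝓞 K) K L]
        exact (_root_.map_ne_zero _).2 (by simpa using hb)
      have hfun : (fun z => (PQ.fE L F b).eval z) = fun z : L =>
          (algebraMap (𝓞 K) L b)⁻¹ * (F.map (algebraMap (𝓞 K) L)).eval z := by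
        funext z
        rw [PQ.fE, fp, Polynomial.map_mul, Polynomial.map_C, eval_mul, eval_C, Polynomial.map_map,
          map_inv₀]
        rfl
      rw [hfun] at he
      rw [Polynomial.map_C]
      have hdeg : (F.map (algebraMap (𝓞 K) L)).natDegree ≤ d := natDegree_map_le.trans hF.le
      obtain ⟨s, hs⟩ := Avg.iter_lift d _ hdeg (algebraMap (𝓞 K) L b) hbL y i
      obtain ⟨t, ht⟩ := Avg.iter_lift d _ hdeg (algebraMap (𝓞 K) L b) hbL y j
      rw [hs, ht, RDF.wedge_smul_left, RDF.wedge_smul_right, ← he]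
      simp [wedge]
  · intro p hp q hq hne
    obtain ⟨x, -, rfl⟩ := Finset.mem_image.1 hp
    obtain ⟨y, -, rfl⟩ := Finset.mem_image.1 hq
    intro h
    apply hne
    have h1 : ι x = ι y := by
      rw [hι] at h ⊢
      simp only [wedge, mul_one, sub_eq_zero] at h
      simp only
      rw [h]
    exact h1

end Pool.Agent.RI
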