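import Pool.Agent.RI.AvgA
import Pool.Agent.RI.AvgB

set_option autoImplicit false

/-!
# Preperiodic points of polynomials over `ℚ` on average
-/

namespace Pool.Agent.RI

open Polynomial NumberField IsDedekindDomain Pool.Agent.GPoly

/-- The preperiodic points of degree at most `N` of `(c_d z ^ d + ... + c_0) / b`. -/
def prePts (N d : ℕ) (c : Fin (d + 1) → ℤ) (b : ℤ) : Set (AlgebraicClosure ℚ) :=
  {x | (minpoly ℚ x).natDegree ≤ N ∧
    Pre (fun z => (∑ i, (c i : AlgebraicClosure ℚ) * z ^ (i : ℕ)) / (b : AlgebraicClosure ℚ)) x}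

/-- The pairs `(c, b)` of height at most `H` with `c_d b ≠ 0`. -/
def pairs (d H : ℕ) : Set ((Fin (d + 1) → ℤ) × ℤ) :=
  {p | (∀ i, |p.1 i| ≤ H) ∧ |p.2| ≤ H ∧ p.1 (Fin.last d) ≠ 0 ∧ p.2 ≠ 0}

theorem Avg.pairs_finite (d H : ℕ) : (pairs d H).Finite := by
  refine Set.Finite.subset (Set.Finite.prod
    (Set.Finite.pi' (fun _ : Fin (d + 1) => Set.finite_Icc (-(H : ℤ)) H))
    (Set.finite_Icc (-(H : ℤ)) H)) ?_
  rintro ⟨c, b⟩ ⟨h1, h2, -⟩
  exact ⟨fun i => abs_le.1 (h1 i), abs_le.1 h2⟩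

theorem Avg.encard_le_of_card (S : Set (AlgebraicClosure ℚ)) (n : ℕ)
    (h : ∀ T : Finset (AlgebraicClosure ℚ), (∀ x ∈ T, x ∈ S) → T.card ≤ n) : S.encard ≤ n := by
  by_contra hcon
  rw [not_le] at hcon
  have h1 : ((n + 1 : ℕ) : ℕ∞) ≤ S.encard := by
    rw [Nat.cast_add, Nat.cast_one]
    exact Order.add_one_le_of_lt hcon
  obtain ⟨t, ht1, ht2⟩ := Set.exists_subset_encard_eq h1
  have ht3 : t.Finite := Set.finite_of_encard_eq_coe ht2
  have h2 := h ht3.toFinset fun x hx => ht1 ((Set.Finite.mem_toFinset ht3).1 hx)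
  rw [ht3.encard_eq_coe_toFinset_card] at ht2
  have : ht3.toFinset.card = n + 1 := by exact_mod_cast ht2
  omega

/-- Every pair: at most `C (1 + log H)` points. -/
theorem Avg.all_bound (N d : ℕ) (hd : 2 ≤ d) : ∃ C : ℝ, 0 ≤ C ∧ ∀ H : ℕ, 1 ≤ H →
    ∀ p ∈ pairs d H, (prePts N d p.1 p.2).encard ≤ (⌊C * (1 + Real.log H)⌋₊ : ℕ) := by
  obtain ⟨C₀, hC₀, h₀⟩ := Avg.encard_primes 1 N d hd
  refine ⟨C₀ * 18, by positivity, ?_⟩
  rintro H hH ⟨c, b⟩ ⟨hc, hb, hc0, hb0⟩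
  simp only at hc hb hc0 hb0 ⊢
  refine Avg.encard_le_of_card _ _ fun T hT => ?_
  have hn : c (Fin.last d) * b ≠ 0 := mul_ne_zero hc0 hb0
  obtain ⟨B, hB1, hB2⟩ := Avg.exists_primes _ hn
  set F := PQ.DensB.poly d c with hF
  have hdeg : F.natDegree = d := PQ.DensB.poly_natDegree d c hc0
  have hlead : F.leadingCoeff = ((c (Fin.last d) : ℤ) : 𝓞 ℚ) :=
    PQ.DensB.poly_leadingCoeff d c hc0
  have hfun : (fun z => (PQ.fE (AlgebraicClosure ℚ) F (b : 𝓞 ℚ)).eval z) =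
      fun z => (∑ i, (c i : AlgebraicClosure ℚ) * z ^ (i : ℕ)) / (b : AlgebraicClosure ℚ) :=
    funext fun z => PQ.DensB.eval_fE d c b z
  have h1 := h₀ ℚ (by rw [Module.finrank_self]) F (b : 𝓞 ℚ) hdeg (by exact_mod_cast hb0) B
    (fun v hv => hB2 v (by
      rw [hlead] at hv
      push_cast
      exact hv)) T (fun x hx => by
      have h2 := hT x hx
      have h3 : Pre (fun z => (PQ.fE (AlgebraicClosure ℚ) F (b : 𝓞 ℚ)).eval z) x := by
        rw [hfun]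
        exact h2.2
      exact ⟨h2.1, h3⟩)
  set n := (c (Fin.last d) * b).natAbs with hndef
  have hn0 : n ≠ 0 := Int.natAbs_ne_zero.2 hn
  have h2 := Avg.omega_bound n hn0
  have hnH : (n : ℝ) ≤ (H : ℝ) ^ 2 := by
    have h3 : (c (Fin.last d)).natAbs ≤ H := by
      have := hc (Fin.last d)
      zify; exact this
    have h4 : b.natAbs ≤ H := by
      zify; exact hb
    have h5 : n ≤ H ^ 2 := by
      rw [hndef, Int.natAbs_mul, pow_two]
      exact Nat.mul_le_mul h3 h4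
    exact_mod_cast h5
  have hH1 : (1 : ℝ) ≤ H := by exact_mod_cast hH
  have hlH : 0 ≤ Real.log H := Real.log_nonneg hH1
  have h3 : Real.log n ≤ 2 * Real.log H := by
    have h4 : (0 : ℝ) < n := by exact_mod_cast Nat.pos_of_ne_zero hn0
    have h5 := Real.log_le_log h4 hnH
    rw [Real.log_pow] at h5
    exact_mod_cast h5
  have h4 : ((B.card : ℝ) + 1) * Real.log (B.card + 2) ≤
      ((n.primeFactors.card : ℝ) + 1) * Real.log (n.primeFactors.card + 2) := by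
    have h5 : (B.card : ℝ) ≤ n.primeFactors.card := by exact_mod_cast hB1
    have h6 : (0 : ℝ) ≤ B.card := Nat.cast_nonneg _
    refine mul_le_mul (by linarith) (Real.log_le_log (by linarith) (by linarith))
      (Real.log_nonneg (by linarith)) (by linarith)
  refine Nat.le_floor ?_
  calc (T.card : ℝ) ≤ C₀ * ((B.card + 1) * Real.log (B.card + 2)) := h1
    _ ≤ C₀ * (9 * (1 + 2 * Real.log H)) := by
        refine mul_le_mul_of_nonneg_left ?_ hC₀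
        refine h4.trans (h2.trans ?_)
        linarith
    _ ≤ C₀ * 18 * (1 + Real.log H) := by nlinarith

/-- The number of preperiodic points of degree at most `N` has exponential tails. -/
theorem main_tail (N d : ℕ) (hd : 3 ≤ d) : ∃ C : ℕ, ∀ H : ℕ, 1 ≤ H → ∀ t : ℕ, 1 ≤ t →
    ({p ∈ pairs d H | ¬ (prePts N d p.1 p.2).encard ≤ (C * t : ℕ)}.ncard : ℝ) ≤
      C * Real.exp (-t) * (H : ℝ) ^ ((d : ℝ) + 2 - 1 / 40) := by
  obtain ⟨C₁, h₁⟩ := PQ.good_bound (max N 1) d (le_max_right _ _) hd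
  obtain ⟨C₂, h₂⟩ := PQ.count_bad d (by omega)
  obtain ⟨C₃, hC₃, h₃⟩ := Avg.all_bound N d (by omega)
  refine ⟨C₁ + 3 * C₂ + ⌈40 * C₃⌉₊, fun H hH t ht => ?_⟩
  set C : ℕ := C₁ + 3 * C₂ + ⌈40 * C₃⌉₊ with hC
  have hC40 : 40 * C₃ ≤ C := by
    have h1 := Nat.le_ceil (40 * C₃)
    rw [hC]
    push_cast
    have h2 : (0 : ℝ) ≤ C₁ := Nat.cast_nonneg _
    have h3 : (0 : ℝ) ≤ C₂ := Nat.cast_nonneg _
    linarith
  have hCC2 : 3 * (C₂ : ℝ) ≤ C := by
    rw [hC]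
    push_cast
    have h2 : (0 : ℝ) ≤ C₁ := Nat.cast_nonneg _
    have h3 : (0 : ℝ) ≤ (⌈40 * C₃⌉₊ : ℝ) := Nat.cast_nonneg _
    linarith
  have hH1 : (1 : ℝ) ≤ H := by exact_mod_cast hH
  have hH0 : (0 : ℝ) < H := by linarith
  have hlH : 0 ≤ Real.log H := Real.log_nonneg hH1
  have ht1 : (1 : ℝ) ≤ t := by exact_mod_cast ht
  by_cases hbig : C₃ * (1 + Real.log H) ≤ C * t
  · have hempty : {p ∈ pairs d H | ¬ (prePts N d p.1 p.2).encard ≤ (C * t : ℕ)} = ∅ := by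
      refine Set.eq_empty_of_forall_notMem ?_
      rintro p ⟨hp, hp2⟩
      apply hp2
      refine (h₃ H hH p hp).trans ?_
      have h4 : ⌊C₃ * (1 + Real.log H)⌋₊ ≤ C * t := by
        refine Nat.floor_le_of_le ?_
        push_cast
        exact hbig
      exact_mod_cast h4
    rw [hempty, Set.ncard_empty, Nat.cast_zero]
    positivity
  rw [not_le] at hbig
  have hfin : {p : (Fin (d + 1) → ℤ) × ℤ | (∀ i, |p.1 i| ≤ H) ∧ |p.2| ≤ H ∧
      p.1 (Fin.last d) ≠ 0 ∧ p.2 ≠ 0 ∧ ¬ PQ.Good d H p.1 p.2}.Finite := by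
    refine (Avg.pairs_finite d H).subset ?_
    rintro p ⟨h4, h5, h6, h7, -⟩
    exact ⟨h4, h5, h6, h7⟩
  have hsub : {p ∈ pairs d H | ¬ (prePts N d p.1 p.2).encard ≤ (C * t : ℕ)} ⊆
      {p : (Fin (d + 1) → ℤ) × ℤ | (∀ i, |p.1 i| ≤ H) ∧ |p.2| ≤ H ∧
      p.1 (Fin.last d) ≠ 0 ∧ p.2 ≠ 0 ∧ ¬ PQ.Good d H p.1 p.2} := by
    rintro ⟨c, b⟩ ⟨⟨h4, h5, h6, h7⟩, h8⟩
    refine ⟨h4, h5, h6, h7, fun hg => h8 ?_⟩
    have hmono : prePts N d c b ⊆ {x : AlgebraicClosure ℚ | (minpoly ℚ x).natDegree ≤ max N 1 ∧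
        Pre (fun z => (∑ i, (c i : AlgebraicClosure ℚ) * z ^ (i : ℕ)) /
          (b : AlgebraicClosure ℚ)) x} := fun x hx => ⟨hx.1.trans (le_max_left _ _), hx.2⟩
    refine (Set.encard_le_encard hmono).trans ((h₁ H c b h4 h5 h6 h7 hg).trans ?_)
    have h9 : C₁ ≤ C * t := by
      calc C₁ ≤ C := by omega
        _ ≤ C * t := Nat.le_mul_of_pos_right _ (by omega)
    exact_mod_cast h9
  have hle := Set.ncard_le_ncard hsub hfin
  have h4 : ({p ∈ pairs d H | ¬ (prePts N d p.1 p.2).encard ≤ (C * t : ℕ)}.ncard : ℝ) ≤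
      C₂ * (H : ℝ) ^ ((d : ℝ) + 2 - 1 / 20) := le_trans (by exact_mod_cast hle) (h₂ H hH)
  have h5 : (t : ℝ) ≤ 1 + 1 / 40 * Real.log H := by
    by_contra h6
    rw [not_le] at h6
    have h7 : C₃ * (1 + Real.log H) ≤ C / 40 * (1 + Real.log H) :=
      mul_le_mul_of_nonneg_right (by linarith) (by linarith)
    have h8 : (C : ℝ) / 40 * (1 + Real.log H) ≤ C * (1 + 1 / 40 * Real.log H) := by
      have : (0 : ℝ) ≤ C := Nat.cast_nonneg _
      nlinarith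
    have h9 : (C : ℝ) * (1 + 1 / 40 * Real.log H) ≤ C * t :=
      mul_le_mul_of_nonneg_left h6.le (Nat.cast_nonneg _)
    linarith
  have h6 : (H : ℝ) ^ ((d : ℝ) + 2 - 1 / 20) ≤
      3 * Real.exp (-t) * (H : ℝ) ^ ((d : ℝ) + 2 - 1 / 40) := by
    have h7 : (d : ℝ) + 2 - 1 / 20 = -(1 / 40) + ((d : ℝ) + 2 - 1 / 40) := by ring
    rw [h7, Real.rpow_add hH0]
    refine mul_le_mul_of_nonneg_right ?_ (by positivity)
    have h8 : (H : ℝ) ^ (-(1 / 40) : ℝ) = Real.exp (-(1 / 40) * Real.log H) := by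
      rw [Real.rpow_def_of_pos hH0, mul_comm]
    rw [h8]
    have h9 : Real.exp (-(1 / 40) * Real.log H) ≤ Real.exp (1 + (-t)) :=
      Real.exp_le_exp.2 (by linarith)
    rw [Real.exp_add] at h9
    refine h9.trans (mul_le_mul_of_nonneg_right ?_ (Real.exp_pos _).le)
    linarith [Real.exp_one_lt_d9]
  calc _ ≤ C₂ * (H : ℝ) ^ ((d : ℝ) + 2 - 1 / 20) := h4
    _ ≤ C₂ * (3 * Real.exp (-t) * (H : ℝ) ^ ((d : ℝ) + 2 - 1 / 40)) :=
        mul_le_mul_of_nonneg_left h6 (Nat.cast_nonneg _)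
    _ = (3 * C₂) * Real.exp (-t) * (H : ℝ) ^ ((d : ℝ) + 2 - 1 / 40) := by ring
    _ ≤ _ := by
        refine mul_le_mul_of_nonneg_right (mul_le_mul_of_nonneg_right hCC2 (Real.exp_pos _).le)
          (by positivity)

end Pool.Agent.RI
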