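import Mathlib
import Pool.Agent.RI.BadE
import Pool.Agent.RI.LimD

set_option autoImplicit false

/-!
# The energy of the pattern in the limit
-/

namespace Pool.Agent.RI

open Polynomial Pool.Agent.RDF BadAux

namespace BaseAux

theorem JJ_symm {L : Type*} [Field L] (abv : AbsoluteValue L ℝ) (Λ : ℝ) (x y : L × L) :
    JJ abv Λ x y = JJ abv Λ y x := by
  rw [JJ, JJ, wedge_comm, abv.map_neg, mul_comm (nrm abv x)]

/-- The pairing is bounded below by the truncated distance. -/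
theorem g_ge_JJ {d : ℕ} (D : Dat d) (Λ : ℝ) {x y : D.Om × D.Om} (hx : x ≠ 0) (hy : y ≠ 0)
    (hw : wedge x y ≠ 0) :
    JJ D.abv Λ x y - Real.log (nrm D.abv x) - Real.log (nrm D.abv y) +
      D.lam / (d * ((d : ℝ) - 1)) ≤ D.g x y := by
  have h1 := nrm_pos D.abv hx
  have h2 := nrm_pos D.abv hy
  have h3 : 0 < D.abv (wedge x y) := D.abv.pos hw
  have h4 : 0 < D.abv (wedge x y) / (nrm D.abv x * nrm D.abv y) := by positivity
  have h5 : Real.log (D.abv (wedge x y) / (nrm D.abv x * nrm D.abv y)) =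
      Real.log (D.abv (wedge x y)) - (Real.log (nrm D.abv x) + Real.log (nrm D.abv y)) := by
    rw [Real.log_div h3.ne' (by positivity), Real.log_mul h1.ne' h2.ne']
  have h6 := Real.log_le_log h4 (le_max_left _ (Real.exp (-Λ)))
  rw [h5] at h6
  rw [JJ, Dat.g, gg, Dat.lam, neg_div]
  linarith

section

variable {d N : ℕ} {A P : Type} (ι : A → Fin N) (κ : A → P) (j : P → P → ℝ) (h : P → ℝ)

open Classical in
/-- The kernel on the patterns. -/
noncomputable def pk (d : ℕ) {N : ℕ} {A P : Type} (ι : A → Fin N) (κ : A → P) (j : P → P → ℝ)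
    (h : P → ℝ) (b c : Fin N) : ℝ :=
  if hh : (∃ b', ι b' = b) ∧ (∃ c', ι c' = c) then
    gam d j h (κ hh.1.choose) (κ hh.2.choose) else -3

theorem pk_eq (hι : Function.Injective ι) (b c : A) :
    pk d ι κ j h (ι b) (ι c) = gam d j h (κ b) (κ c) := by
  have hh : (∃ b', ι b' = ι b) ∧ (∃ c', ι c' = ι c) := ⟨⟨b, rfl⟩, ⟨c, rfl⟩⟩
  rw [pk, dif_pos hh, hι hh.1.choose_spec, hι hh.2.choose_spec]

theorem pk_of_not (b c : Fin N) (hbc : ¬ ((∃ b', ι b' = b) ∧ (∃ c', ι c' = c))) :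
    pk d ι κ j h b c = -3 := by
  rw [pk, dif_neg hbc]

end

end BaseAux

open BaseAux

theorem base_aux {d N : ℕ} (hd : 2 ≤ d) (D : ℕ → Dat d) (t : ℕ → ℕ)
    (z : ∀ n, Fin (t n) → Fin N → (D n).Om × (D n).Om) (a : ∀ n, Fin (t n) → Fin N)
    (hbad : ∀ n, Bad d N n (D n) (t n) (z n) (a n))
    (A : Type) (ι : A → Fin N) (hι : Function.Injective ι) {P : Type} [Finite P]
    (x : ∀ n, Fin (t n) → P → (D n).Om × (D n).Om) (Lam : ℝ) (j : P → P → ℝ) (h : P → ℝ)
    (H : LimD D t x Lam j h) (κ : A → P) (hκ : ∀ n i b, x n i (κ b) = z n i (ι b))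
    (ε : ℝ) (hε : 0 < ε) (R : ℕ) : ∃ n, R ≤ n ∧ 1 ≤ n ∧ ∀ i i', i ≠ i' →
      pk d ι κ j h (a n i) (a n i') - ε ≤
        (D n).g (z n i (a n i)) (z n i' (a n i')) / (D n).lam := by
  obtain ⟨C, hC0, hC⟩ := g_ge d hd
  obtain ⟨n, hn, e, he, hJ, hh⟩ := H.app (ε / 6) (by positivity)
    (R + ⌈Lam⌉₊ + ⌈C⌉₊ + ⌈6 / ε⌉₊ + 2)
  have hnR : R ≤ n := by omega
  have hnL : Lam ≤ n := (Nat.le_ceil _).trans (by exact_mod_cast (by omega : ⌈Lam⌉₊ ≤ n))
  have hnC : C ≤ n := (Nat.le_ceil _).trans (by exact_mod_cast (by omega : ⌈C⌉₊ ≤ n))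
  have hnε : 6 / ε ≤ n := (Nat.le_ceil _).trans (by exact_mod_cast (by omega : ⌈6 / ε⌉₊ ≤ n))
  have hn1 : (1 : ℝ) ≤ n := by exact_mod_cast (by omega : 1 ≤ n)
  have hB := hbad n
  have hlam : 0 < (D n).lam := lt_of_lt_of_le (by linarith) hB.lam
  have hδ : 1 / ((n : ℝ) + 1) ≤ ε / 6 := by
    rw [div_le_iff₀ hε] at hnε
    rw [div_le_div_iff₀ (by positivity) (by positivity)]
    nlinarith
  refine ⟨n, hnR, by omega, fun i i' hii => ?_⟩
  have hw := hB.indep i i' hii (a n i) (a n i')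
  by_cases hr : (∃ b', ι b' = a n i) ∧ (∃ c', ι c' = a n i')
  · obtain ⟨⟨b, hb⟩, ⟨c, hc⟩⟩ := hr
    rw [← hb, ← hc, pk_eq ι κ j h hι b c]
    rw [← hb, ← hc] at hw
    set i0 : Fin (R + ⌈Lam⌉₊ + ⌈C⌉₊ + ⌈6 / ε⌉₊ + 2) := ⟨0, by omega⟩ with hi0
    set i1 : Fin (R + ⌈Lam⌉₊ + ⌈C⌉₊ + ⌈6 / ε⌉₊ + 2) := ⟨1, by omega⟩ with hi1
    have h01 : i0 < i1 := by simp [hi0, hi1]
    have hL : Lam * (D n).lam ≤ n * (D n).lam := mul_le_mul_of_nonneg_right hnL hlam.le
    -- the distances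
    have hpair : ∀ u v : Fin (t n), u < v → ∀ b' c' : A,
        j (κ b') (κ c') - ε / 3 ≤
          JJ (D n).abv (Lam * (D n).lam) (z n u (ι b')) (z n v (ι c')) / (D n).lam := by
      intro u v huv b' c'
      have h1 := hJ i0 i1 h01 (κ b') (κ c')
      rw [hκ, hκ] at h1
      have h2 := hB.homJ u v (e i0) (e i1) huv (he h01) (ι b') (ι c')
      have h3 : |JJ (D n).abv (Lam * (D n).lam) (z n u (ι b')) (z n v (ι c')) -
          JJ (D n).abv (Lam * (D n).lam) (z n (e i0) (ι b')) (z n (e i1) (ι c'))| ≤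
          (D n).lam / (n + 1) := by
        rw [JJ_min (D n).abv hL (z n u (ι b')), JJ_min (D n).abv hL (z n (e i0) (ι b'))]
        refine (abs_min_sub_min_le_max _ _ _ _).trans ?_
        rw [sub_self, abs_zero, max_eq_left (abs_nonneg _)]
        exact h2
      have h4 := (abs_le.1 h1).1
      have h5 := (abs_le.1 h3).1
      have h6 : (D n).lam / (n + 1) ≤ (D n).lam * (ε / 6) := by
        rw [div_eq_mul_one_div]
        exact mul_le_mul_of_nonneg_left hδ hlam.le
      rw [neg_le_sub_iff_le_add, div_add' _ _ _ hlam.ne', le_div_iff₀ hlam] at h4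
      rw [le_div_iff₀ hlam]
      nlinarith
    have hJJ : j (κ b) (κ c) - ε / 3 ≤
        JJ (D n).abv (Lam * (D n).lam) (z n i (ι b)) (z n i' (ι c)) / (D n).lam := by
      rcases lt_or_gt_of_ne hii with hlt | hlt
      · exact hpair i i' hlt b c
      · rw [JJ_symm, (H.treeK hd).symm]
        exact hpair i' i hlt c b
    have hnm : ∀ (u : Fin (t n)) (b' : A),
        Real.log (nrm (D n).abv (z n u (ι b'))) / (D n).lam ≤ h (κ b') + ε / 3 := by
      intro u b'
      have h1 := hh i0 (κ b')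
      rw [hκ] at h1
      have h2 := hB.homh u (e i0) (ι b')
      have h4 := (abs_le.1 h1).2
      have h5 := (abs_le.1 h2).2
      have h6 : (D n).lam / (n + 1) ≤ (D n).lam * (ε / 6) := by
        rw [div_eq_mul_one_div]
        exact mul_le_mul_of_nonneg_left hδ hlam.le
      rw [sub_le_iff_le_add, div_le_iff₀ hlam] at h4
      rw [div_le_iff₀ hlam]
      nlinarith
    have hg := g_ge_JJ (D n) (Lam * (D n).lam) (hB.pv i (ι b)).1 (hB.pv i' (ι c)).1 hw
    have h7 := hnm i b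
    have h8 := hnm i' c
    have h9 : (JJ (D n).abv (Lam * (D n).lam) (z n i (ι b)) (z n i' (ι c)) -
        Real.log (nrm (D n).abv (z n i (ι b))) - Real.log (nrm (D n).abv (z n i' (ι c))) +
        (D n).lam / (d * ((d : ℝ) - 1))) / (D n).lam ≤
        (D n).g (z n i (ι b)) (z n i' (ι c)) / (D n).lam :=
      div_le_div_of_nonneg_right hg hlam.le
    have h10 : (JJ (D n).abv (Lam * (D n).lam) (z n i (ι b)) (z n i' (ι c)) -
        Real.log (nrm (D n).abv (z n i (ι b))) - Real.log (nrm (D n).abv (z n i' (ι c))) +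
        (D n).lam / (d * ((d : ℝ) - 1))) / (D n).lam =
        JJ (D n).abv (Lam * (D n).lam) (z n i (ι b)) (z n i' (ι c)) / (D n).lam -
        Real.log (nrm (D n).abv (z n i (ι b))) / (D n).lam -
        Real.log (nrm (D n).abv (z n i' (ι c))) / (D n).lam + 1 / (d * ((d : ℝ) - 1)) := by
      field_simp
    rw [h10] at h9
    rw [gam]
    linarith
  · rw [pk_of_not ι κ j h _ _ hr, le_div_iff₀ hlam]
    have h1 := hC (D n) _ _ (hB.pv i (a n i)) (hB.pv i' (a n i'))
    rw [max_eq_left hlam.le] at h1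
    have h2 : C ≤ (D n).lam := hnC.trans hB.lam
    nlinarith

/-- `w` is the limit of the proportions of the patterns; `A` contains the `a` with `w a > 0`. -/
theorem base {d N : ℕ} (hd : 2 ≤ d) (D : ℕ → Dat d) (t : ℕ → ℕ)
    (z : ∀ n, Fin (t n) → Fin N → (D n).Om × (D n).Om) (a : ∀ n, Fin (t n) → Fin N)
    (hbad : ∀ n, Bad d N n (D n) (t n) (z n) (a n)) (w : Fin N → ℝ)
    (hw : ∀ b, Filter.Tendsto (fun n => ((Finset.univ.filter fun i => a n i = b).card : ℝ) / t n)
      Filter.atTop (nhds (w b)))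
    (A : Type) [Fintype A] (ι : A → Fin N) (hι : Function.Injective ι)
    (hA : ∀ b, 0 < w b → b ∈ Set.range ι) {P : Type} [Finite P]
    (x : ∀ n, Fin (t n) → P → (D n).Om × (D n).Om) (Lam : ℝ) (j : P → P → ℝ) (h : P → ℝ)
    (H : LimD D t x Lam j h) (κ : A → P) (hκ : ∀ n i b, x n i (κ b) = z n i (ι b)) :
    ∑ b, ∑ c, w (ι b) * w (ι c) * gam d j h (κ b) (κ c) ≤ 0 := by
  classical
  have hw0 : ∀ b, 0 ≤ w b := fun b => ge_of_tendsto' (hw b) fun n => by positivity
  have hwz : ∀ b, b ∉ Set.range ι → w b = 0 := fun b hb =>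
    le_antisymm (not_lt.1 fun h0 => hb (hA b h0)) (hw0 b)
  set Γ := pk d ι κ j h with hΓ
  set p : ℕ → Fin N → ℝ := fun n b => ((Finset.univ.filter fun i => a n i = b).card : ℝ) / t n
    with hp
  -- the limit of the quadratic form
  have hlim : Filter.Tendsto (fun n => ∑ b, ∑ c, p n b * p n c * Γ b c) Filter.atTop
      (nhds (∑ b, ∑ c, w b * w c * Γ b c)) := by
    refine tendsto_finsetSum _ fun b _ => tendsto_finsetSum _ fun c _ => ?_
    exact ((hw b).mul (hw c)).mul_const _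
  have hsum : ∑ b, ∑ c, w b * w c * Γ b c =
      ∑ b, ∑ c, w (ι b) * w (ι c) * gam d j h (κ b) (κ c) := by
    symm
    refine Fintype.sum_of_injective ι hι _ _ (fun b hb => ?_) fun b => ?_
    · refine Finset.sum_eq_zero fun c _ => ?_
      rw [hwz b hb, zero_mul, zero_mul]
    · refine Fintype.sum_of_injective ι hι _ _ (fun c hc => ?_) fun c => ?_
      · rw [hwz c hc, mul_zero, zero_mul]
      · rw [hΓ, pk_eq ι κ j h hι b c]
  rw [← hsum]
  by_contra hpos
  push Not at hpos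
  set F := ∑ b, ∑ c, w b * w c * Γ b c with hF
  obtain ⟨N1, hN1⟩ := Filter.eventually_atTop.1
    (hlim.eventually (lt_mem_nhds (show F / 2 < F by linarith)))
  set K : ℝ := ∑ b, |Γ b b| with hK
  have hK0 : 0 ≤ K := Finset.sum_nonneg fun b _ => abs_nonneg _
  have hKb : ∀ b, Γ b b ≤ K := fun b => (le_abs_self _).trans
    (Finset.single_le_sum (f := fun b => |Γ b b|) (fun c _ => abs_nonneg _) (Finset.mem_univ b))
  obtain ⟨n, hnR, hn1, hn⟩ := base_aux hd D t z a hbad A ι hι x Lam j h H κ hκ (F / 8)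
    (by positivity) (N1 + ⌈8 * (K + 1) / F⌉₊)
  have hnN : N1 ≤ n := by omega
  have hnK : 8 * (K + 1) / F ≤ n :=
    (Nat.le_ceil _).trans (by exact_mod_cast (by omega : ⌈8 * (K + 1) / F⌉₊ ≤ n))
  have hFn := hN1 n hnN
  have hB := hbad n
  have hn1' : (1 : ℝ) ≤ n := by exact_mod_cast hn1
  have hlam : 0 < (D n).lam := lt_of_lt_of_le (by linarith) hB.lam
  have htn : (n : ℝ) ≤ t n := by exact_mod_cast hB.le
  have ht0 : (0 : ℝ) < t n := by linarith
  have key : ∀ f : Fin N → ℝ, ∑ i, f (a n i) =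
      ∑ b, ((Finset.univ.filter fun i => a n i = b).card : ℝ) * f b := by
    intro f
    rw [← Finset.sum_fiberwise (s := Finset.univ) (g := a n) (f := fun i => f (a n i))]
    refine Finset.sum_congr rfl fun b _ => ?_
    rw [Finset.sum_congr rfl (g := fun _ => f b) fun i hi => by rw [(Finset.mem_filter.1 hi).2],
      Finset.sum_const, nsmul_eq_mul]
  have hquad : ∑ b, ∑ c, p n b * p n c * Γ b c =
      (∑ i, ∑ i', Γ (a n i) (a n i')) / (t n : ℝ) ^ 2 := by
    have h1 : ∑ i, ∑ i', Γ (a n i) (a n i') =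
        ∑ b, ((Finset.univ.filter fun i => a n i = b).card : ℝ) *
          ∑ c, ((Finset.univ.filter fun i => a n i = c).card : ℝ) * Γ b c := by
      rw [← key fun b => ∑ c, ((Finset.univ.filter fun i => a n i = c).card : ℝ) * Γ b c]
      exact Finset.sum_congr rfl fun i _ => key fun c => Γ (a n i) c
    rw [h1, Finset.sum_div]
    refine Finset.sum_congr rfl fun b _ => ?_
    rw [Finset.mul_sum, Finset.sum_div]
    refine Finset.sum_congr rfl fun c _ => ?_
    rw [hp]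
    field_simp
  have hdiag : ∑ i, ∑ i', Γ (a n i) (a n i') ≤
      t n * K + ∑ i, ∑ i' ∈ Finset.univ.erase i, Γ (a n i) (a n i') := by
    have h1 : ∀ i : Fin (t n), ∑ i', Γ (a n i) (a n i') ≤
        K + ∑ i' ∈ Finset.univ.erase i, Γ (a n i) (a n i') := by
      intro i
      rw [← Finset.add_sum_erase _ _ (Finset.mem_univ i)]
      exact add_le_add (hKb _) le_rfl
    refine (Finset.sum_le_sum fun i _ => h1 i).trans (le_of_eq ?_)
    rw [Finset.sum_add_distrib, Finset.sum_const, Finset.card_univ, Fintype.card_fin,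
      nsmul_eq_mul]
  have hoff : ∑ i, ∑ i' ∈ Finset.univ.erase i, Γ (a n i) (a n i') ≤
      (t n : ℝ) ^ 2 / (n + 1) + (t n : ℝ) ^ 2 * (F / 8) := by
    have h1 : ∑ i, ∑ i' ∈ Finset.univ.erase i, Γ (a n i) (a n i') ≤
        ∑ i, ∑ i' ∈ Finset.univ.erase i,
          ((D n).g (z n i (a n i)) (z n i' (a n i')) / (D n).lam + F / 8) := by
      refine Finset.sum_le_sum fun i _ => Finset.sum_le_sum fun i' hi' => ?_
      have := hn i i' (Finset.ne_of_mem_erase hi').symm
      linarith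
    have h2 : ∑ i : Fin (t n), ∑ i' ∈ Finset.univ.erase i,
          ((D n).g (z n i (a n i)) (z n i' (a n i')) / (D n).lam + F / 8) =
        (∑ i, ∑ i' ∈ Finset.univ.erase i, (D n).g (z n i (a n i)) (z n i' (a n i'))) /
          (D n).lam + ∑ _i : Fin (t n), ((t n : ℝ) - 1) * (F / 8) := by
      generalize F / 8 = G
      rw [Finset.sum_div, ← Finset.sum_add_distrib]
      refine Finset.sum_congr rfl fun i _ => ?_
      rw [Finset.sum_add_distrib, Finset.sum_div, Finset.sum_const,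
        Finset.card_erase_of_mem (Finset.mem_univ _), Finset.card_univ, Fintype.card_fin,
        nsmul_eq_mul, Nat.cast_sub (by exact_mod_cast hn1'.trans htn), Nat.cast_one]
    have h3 : (∑ i, ∑ i' ∈ Finset.univ.erase i, (D n).g (z n i (a n i)) (z n i' (a n i'))) /
          (D n).lam ≤ (t n : ℝ) ^ 2 / (n + 1) := by
      rw [div_le_iff₀ hlam]
      refine hB.small.le.trans (le_of_eq ?_)
      ring
    have h4 : ∑ _i : Fin (t n), ((t n : ℝ) - 1) * (F / 8) ≤ (t n : ℝ) ^ 2 * (F / 8) := by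
      rw [Finset.sum_const, Finset.card_univ, Fintype.card_fin, nsmul_eq_mul]
      nlinarith
    linarith [h1, h2.le, h2.ge]
  have hfin : (∑ i, ∑ i', Γ (a n i) (a n i')) / (t n : ℝ) ^ 2 ≤ F / 2 := by
    rw [div_le_iff₀ (by positivity)]
    have h1 : K * t n ≤ (t n : ℝ) ^ 2 * (F / 8) - t n := by
      have h2 : 8 * (K + 1) ≤ n * F := by rwa [div_le_iff₀ hpos] at hnK
      have h3 : (n : ℝ) * F ≤ t n * F := mul_le_mul_of_nonneg_right htn hpos.le
      nlinarith
    have h2 : (t n : ℝ) ^ 2 / (n + 1) ≤ (t n : ℝ) ^ 2 * (F / 8) := by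
      rw [div_eq_mul_one_div]
      refine mul_le_mul_of_nonneg_left ?_ (sq_nonneg _)
      rw [div_le_iff₀ (by positivity)]
      have h2 : 8 * (K + 1) ≤ n * F := by rwa [div_le_iff₀ hpos] at hnK
      nlinarith
    nlinarith
  linarith [hquad ▸ hFn]

end Pool.Agent.RI
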