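import Mathlib

/-!
Theorem R-infinity, (1.3): copositivity of the limit kernel from energy bounds for all families,
by averaging over all maps from indices to labels with product weights.
-/

namespace Pool.Agent.RI

open Finset Filter Topology

variable {Q : Type*} [Fintype Q]

theorem sum_prod_weight (r : ℕ) (w : Q → ℝ) (hw : ∑ q, w q = 1) :
    ∑ l : Fin r → Q, ∏ u, w (l u) = 1 := by
  classical
  have h := Finset.prod_univ_sum (fun _ : Fin r => (Finset.univ : Finset Q)) (fun _ s => w s)
  rw [Fintype.piFinset_univ] at h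
  rw [← h]
  simp [hw]

theorem avg_pair (r : ℕ) (w : Q → ℝ) (hw : ∑ q, w q = 1) (gam : Q → Q → ℝ) (a b : Fin r)
    (hab : a ≠ b) :
    ∑ l : Fin r → Q, (∏ u, w (l u)) * gam (l a) (l b) = ∑ p, ∑ q, w p * w q * gam p q := by
  classical
  have key : ∀ p q : Q, ∑ l : Fin r → Q, (∏ u, w (l u)) *
      ((if l a = p then 1 else 0) * (if l b = q then 1 else 0)) = w p * w q := by
    intro p q
    let g : Fin r → Q → ℝ := fun u s =>
      if u = a then (if s = p then 1 else 0) else if u = b then (if s = q then 1 else 0) else 1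
    have h1 : ∀ l : Fin r → Q, ∏ u, g u (l u) =
        (if l a = p then 1 else 0) * (if l b = q then 1 else 0) := by
      intro l
      rw [Finset.prod_eq_mul a b hab (f := fun u => g u (l u))]
      · simp [g, hab.symm]
      · intro c _ hc
        simp [g, hc.1, hc.2]
      · intro h; exact absurd (Finset.mem_univ _) h
      · intro h; exact absurd (Finset.mem_univ _) h
    have h2 : ∀ l : Fin r → Q, (∏ u, w (l u)) *
        ((if l a = p then 1 else 0) * (if l b = q then 1 else 0)) =
        ∏ u, (w (l u) * g u (l u)) := by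
      intro l
      rw [Finset.prod_mul_distrib, h1]
    simp_rw [h2]
    have h := Finset.prod_univ_sum (fun _ : Fin r => (Finset.univ : Finset Q))
      (fun u s => w s * g u s)
    rw [Fintype.piFinset_univ] at h
    rw [← h, Finset.prod_eq_mul a b hab]
    · have h3 : ∑ s, w s * g a s = w p := by simp [g]
      have h4 : ∑ s, w s * g b s = w q := by simp [g, hab.symm]
      rw [h3, h4]
    · intro c _ hc
      simp [g, hc.1, hc.2, hw]
    · intro h; exact absurd (Finset.mem_univ _) h
    · intro h; exact absurd (Finset.mem_univ _) h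
  calc ∑ l : Fin r → Q, (∏ u, w (l u)) * gam (l a) (l b)
      = ∑ l : Fin r → Q, ∑ p, ∑ q, gam p q * ((∏ u, w (l u)) *
          ((if l a = p then 1 else 0) * (if l b = q then 1 else 0))) := by
        refine Finset.sum_congr rfl fun l _ => ?_
        rw [Finset.sum_eq_single (l a), Finset.sum_eq_single (l b)]
        · simp [mul_comm]
        · intro q _ hq
          simp [Ne.symm hq]
        · intro h; exact absurd (Finset.mem_univ _) h
        · intro p _ hp
          refine Finset.sum_eq_zero fun q _ => ?_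
          simp [Ne.symm hp]
        · intro h; exact absurd (Finset.mem_univ _) h
    _ = ∑ p, ∑ q, gam p q * ∑ l : Fin r → Q, ((∏ u, w (l u)) *
          ((if l a = p then 1 else 0) * (if l b = q then 1 else 0))) := by
        rw [Finset.sum_comm]
        refine Finset.sum_congr rfl fun p _ => ?_
        rw [Finset.sum_comm]
        refine Finset.sum_congr rfl fun q _ => ?_
        rw [Finset.mul_sum]
    _ = ∑ p, ∑ q, w p * w q * gam p q := by
        refine Finset.sum_congr rfl fun p _ => Finset.sum_congr rfl fun q _ => ?_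
        rw [key]; ring

/-- The averaged energy bound. -/
theorem quad_ge_of_energy (r : ℕ) (hr : 2 ≤ r) (gam : Q → Q → ℝ) (c : ℝ)
    (h : ∀ l : Fin r → Q, -(c * r) ≤ ∑ a, ∑ b ∈ Finset.univ.erase a, gam (l a) (l b))
    (w : Q → ℝ) (hw0 : ∀ q, 0 ≤ w q) (hw : ∑ q, w q = 1) :
    -(c / ((r : ℝ) - 1)) ≤ ∑ p, ∑ q, w p * w q * gam p q := by
  classical
  set W := ∑ p, ∑ q, w p * w q * gam p q with hW
  have h1 : ∑ l : Fin r → Q, (∏ u, w (l u)) *
      (∑ a, ∑ b ∈ Finset.univ.erase a, gam (l a) (l b)) = r * ((r : ℝ) - 1) * W := by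
    simp_rw [Finset.mul_sum]
    rw [Finset.sum_comm]
    have h2 : ∀ a : Fin r, ∑ l : Fin r → Q, ∑ b ∈ Finset.univ.erase a,
        (∏ u, w (l u)) * gam (l a) (l b) = ((r : ℝ) - 1) * W := by
      intro a
      rw [Finset.sum_comm]
      rw [Finset.sum_congr rfl fun b hb =>
        avg_pair r w hw gam a b (Finset.ne_of_mem_erase hb).symm]
      rw [Finset.sum_const, Finset.card_erase_of_mem (Finset.mem_univ a), Finset.card_univ,
        Fintype.card_fin, nsmul_eq_mul]
      push_cast [Nat.cast_sub (by omega : 1 ≤ r)]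
      ring
    rw [Finset.sum_congr rfl fun a _ => h2 a]
    simp [mul_assoc]
  have h3 : -(c * r) ≤ ∑ l : Fin r → Q, (∏ u, w (l u)) *
      (∑ a, ∑ b ∈ Finset.univ.erase a, gam (l a) (l b)) := by
    have h4 : -(c * r) = ∑ l : Fin r → Q, (∏ u, w (l u)) * (-(c * r)) := by
      rw [← Finset.sum_mul, sum_prod_weight r w hw, one_mul]
    rw [h4]
    exact Finset.sum_le_sum fun l _ =>
      mul_le_mul_of_nonneg_left (h l) (Finset.prod_nonneg fun u _ => hw0 _)
  rw [h1] at h3
  have hr1 : (0 : ℝ) < (r : ℝ) - 1 := by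
    have : (2 : ℝ) ≤ r := by exact_mod_cast hr
    linarith
  have hr0 : (0 : ℝ) < r := by linarith
  rw [neg_le, div_eq_mul_inv, ← sub_nonneg]
  have h5 : -W ≤ c / ((r : ℝ) - 1) := by
    rw [le_div_iff₀ hr1]
    have h6 : r * (-W * ((r : ℝ) - 1)) ≤ r * c := by nlinarith
    exact le_of_mul_le_mul_left h6 hr0
  rw [div_eq_mul_inv] at h5
  linarith

/-- **Copositivity**: if the energies of all families of `r m` labels are at least `- c m * r m`
and `c m / (r m - 1) → 0`, then the form of `gam` is nonnegative on nonnegative weights. -/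
theorem copositive_of_energy (gam : Q → Q → ℝ) (r : ℕ → ℕ) (c : ℕ → ℝ)
    (hr : ∀ m, 2 ≤ r m)
    (hlim : Tendsto (fun m => c m / ((r m : ℝ) - 1)) atTop (𝓝 0))
    (h : ∀ m, ∀ l : Fin (r m) → Q,
      -(c m * r m) ≤ ∑ a, ∑ b ∈ Finset.univ.erase a, gam (l a) (l b))
    (w : Q → ℝ) (hw0 : ∀ q, 0 ≤ w q) :
    0 ≤ ∑ p, ∑ q, w p * w q * gam p q := by
  classical
  set s := ∑ q, w q with hs
  have hs0 : 0 ≤ s := Finset.sum_nonneg fun q _ => hw0 q
  rcases hs0.eq_or_lt with h0 | hpos
  · have hz : ∀ q, w q = 0 := by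
      intro q
      exact (Finset.sum_eq_zero_iff_of_nonneg fun q _ => hw0 q).mp (hs ▸ h0.symm) q
        (Finset.mem_univ q)
    simp [hz]
  · have hw1 : ∑ q, w q / s = 1 := by
      rw [← Finset.sum_div, ← hs, div_self hpos.ne']
    have h1 : 0 ≤ ∑ p, ∑ q, w p / s * (w q / s) * gam p q := by
      have hl : Tendsto (fun m => ∑ p, ∑ q, w p / s * (w q / s) * gam p q
          + c m / ((r m : ℝ) - 1)) atTop (𝓝 (∑ p, ∑ q, w p / s * (w q / s) * gam p q)) := by
        simpa using (tendsto_const_nhds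
          (x := ∑ p, ∑ q, w p / s * (w q / s) * gam p q)).add hlim
      refine ge_of_tendsto hl ?_
      refine Filter.Eventually.of_forall fun m => ?_
      have := quad_ge_of_energy (r m) (hr m) gam (c m) (h m) (fun q => w q / s)
        (fun q => div_nonneg (hw0 q) hs0) hw1
      linarith
    have h2 : ∑ p, ∑ q, w p * w q * gam p q =
        s ^ 2 * ∑ p, ∑ q, w p / s * (w q / s) * gam p q := by
      simp_rw [Finset.mul_sum]
      refine Finset.sum_congr rfl fun p _ => Finset.sum_congr rfl fun q _ => ?_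
      field_simp
    rw [h2]
    positivity

/-- The sequence used: `r = d ^ m`, `c = 2 m + C`. -/
theorem tendsto_energy_error (d : ℕ) (hd : 2 ≤ d) (A B : ℝ) :
    Tendsto (fun m : ℕ => (A * m + B) / (((d ^ (m + 1) : ℕ) : ℝ) - 1)) atTop (𝓝 0) := by
  have hd1 : (1 : ℝ) < d := by exact_mod_cast (by omega : 1 < d)
  have hd0 : (0 : ℝ) < d := by linarith
  have h1 : Tendsto (fun m : ℕ => (m : ℝ) / (d : ℝ) ^ m) atTop (𝓝 0) := by
    have := tendsto_pow_const_div_const_pow_of_one_lt 1 hd1
    simpa using this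
  have h2 : Tendsto (fun m : ℕ => (1 : ℝ) / (d : ℝ) ^ m) atTop (𝓝 0) := by
    have := tendsto_pow_const_div_const_pow_of_one_lt 0 hd1
    simpa using this
  have h3 : Tendsto (fun m : ℕ => |A| * ((m : ℝ) / (d : ℝ) ^ m) + |B| * (1 / (d : ℝ) ^ m))
      atTop (𝓝 0) := by
    simpa using (h1.const_mul |A|).add (h2.const_mul |B|)
  refine squeeze_zero_norm (fun m => ?_) h3
  have hpow : (1 : ℝ) ≤ (d : ℝ) ^ m := one_le_pow₀ hd1.le
  have h4 : (d : ℝ) ^ m ≤ ((d ^ (m + 1) : ℕ) : ℝ) - 1 := by
    push_cast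
    rw [pow_succ]
    have : (2 : ℝ) ≤ d := by exact_mod_cast hd
    nlinarith
  rw [Real.norm_eq_abs, abs_div, abs_of_pos (by linarith : (0 : ℝ) < ((d ^ (m + 1) : ℕ) : ℝ) - 1)]
  have hpos : (0 : ℝ) < (d : ℝ) ^ m := by linarith
  have h5 : |A * m + B| ≤ |A| * m + |B| := by
    refine (abs_add_le _ _).trans ?_
    rw [abs_mul, abs_of_nonneg (Nat.cast_nonneg m : (0 : ℝ) ≤ m)]
  calc |A * m + B| / (((d ^ (m + 1) : ℕ) : ℝ) - 1) ≤ (|A| * m + |B|) / (d : ℝ) ^ m := by
        exact div_le_div₀ (by positivity) h5 hpos h4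
    _ = _ := by ring

end Pool.Agent.RI
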