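import Pool.Agent.RI.DenChain

set_option autoImplicit false

/-!
# The chain lemma
-/

namespace Pool.Agent.RI

theorem chain (b : ℕ → ℕ) (n q : ℕ) : ∃ B : ℕ, ∀ (ι α : Type) [DecidableEq α] (V : Finset ι),
    V.card ≤ n → ∀ (Good : ι → Finset α → Prop) (U0 : Finset α),
    (∀ v ∈ V, ∀ q : ℕ, ∀ U : Finset α, U ⊆ U0 → ∃ Z ⊆ U, U.card ≤ b q * Z.card ∧
      ∀ Y ⊆ Z, Z.card ≤ q * Y.card → Good v Y) →
    ∃ Z ⊆ U0, U0.card ≤ B * Z.card ∧ ∀ Y ⊆ Z, Z.card ≤ q * Y.card → ∀ v ∈ V, Good v Y := by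
  obtain ⟨B, -, hB⟩ := chainDen b n q
  refine ⟨B, fun ι α _ V hV Good U0 h => ?_⟩
  obtain ⟨Z, hZ, hc, hP⟩ := hB V hV Good U0 h
  exact ⟨Z, hZ, hc, fun Y hY hq v hv => hP v hv Y hY hq⟩

end Pool.Agent.RI
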