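import Mathlib

set_option autoImplicit false

/-!
# The choice of the power of `d`
-/

namespace Pool.Agent.RI

namespace DenM

theorem log_le_two_sqrt {x : ℝ} (hx : 0 < x) : Real.log x ≤ 2 * Real.sqrt x := by
  have h1 : Real.log x = 2 * Real.log (Real.sqrt x) := by
    rw [Real.log_sqrt hx.le]
    ring
  have h2 := Real.log_le_sub_one_of_pos (Real.sqrt_pos.2 hx)
  linarith

end DenM

/-- Every `n ≥ C₁ k log (k + 1)` lies between `d ^ m` and `d ^ (m + 1)` for some `m` with
`T0 ≤ d ^ m` and `a (m + 1) k ≤ d ^ m`. -/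
theorem exists_pow (d : ℕ) (hd : 2 ≤ d) (a : ℝ) (ha : 0 ≤ a) (T0 : ℕ) : ∃ C₁ : ℝ, 0 < C₁ ∧
    ∀ k : ℝ, 1 ≤ k → ∀ n : ℕ, C₁ * (k * Real.log (k + 1)) ≤ n →
    ∃ m : ℕ, d ^ m ≤ n ∧ n < d ^ (m + 1) ∧ T0 ≤ d ^ m ∧ a * (m + 1) * k ≤ (d : ℝ) ^ m := by
  have hd2 : (2 : ℝ) ≤ d := by exact_mod_cast hd
  have hl2 : (1 : ℝ) / 2 < Real.log 2 := by
    have := Real.log_two_gt_d9
    linarith
  set S : ℝ := 19 * a * d + 1 with hS
  have hS1 : 1 ≤ S := by
    have : 0 ≤ 19 * a * d := by positivity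
    linarith
  refine ⟨S ^ 2 + 2 * d * T0 + 2, by positivity, fun k hk n hn => ?_⟩
  set C₁ : ℝ := S ^ 2 + 2 * d * T0 + 2 with hC₁
  set l : ℝ := Real.log (k + 1) with hl
  have hl1 : 1 / 2 < l := lt_of_lt_of_le hl2 (Real.log_le_log (by norm_num) (by linarith))
  have hT0 : (0 : ℝ) ≤ 2 * d * T0 := by positivity
  have hC1 : 1 ≤ C₁ := by nlinarith
  have hkl : 0 < k * l := mul_pos (by linarith) (by linarith)
  have hkl2 : 1 / 2 ≤ k * l := by nlinarith
  have hn1 : 1 ≤ (n : ℝ) := by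
    have h2 : 2 * (k * l) ≤ C₁ * (k * l) :=
      mul_le_mul_of_nonneg_right (by nlinarith) hkl.le
    linarith
  have hn0 : n ≠ 0 := by
    rintro rfl
    norm_num at hn1
  set m := Nat.log d n with hm
  have h1 : d ^ m ≤ n := Nat.pow_log_le_self d hn0
  have h2 : n < d ^ (m + 1) := Nat.lt_pow_succ_log_self (by omega) n
  have h2r : (n : ℝ) < d * (d : ℝ) ^ m := by
    have : (n : ℝ) < (d : ℝ) ^ (m + 1) := by exact_mod_cast h2
    rwa [pow_succ'] at this
  refine ⟨m, h1, h2, ?_, ?_⟩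
  · have h3 : (d : ℝ) * T0 < d * (d : ℝ) ^ m := by
      refine lt_of_le_of_lt ?_ h2r
      refine le_trans ?_ hn
      have h4 : (2 * d * T0 : ℝ) * (k * l) ≤ C₁ * (k * l) :=
        mul_le_mul_of_nonneg_right (by nlinarith) hkl.le
      have h5 : (2 * d * T0 : ℝ) * (1 / 2) ≤ (2 * d * T0 : ℝ) * (k * l) :=
        mul_le_mul_of_nonneg_left hkl2 hT0
      linarith
    have h4 : (T0 : ℝ) < (d : ℝ) ^ m := lt_of_mul_lt_mul_left h3 (by linarith)
    exact_mod_cast h4.le
  · -- `m ≤ 2 log n`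
    have h3 : (m : ℝ) ≤ 2 * Real.log n := by
      have h4 : (2 : ℝ) ^ m ≤ n := by
        have h5 : (2 : ℝ) ^ m ≤ (d : ℝ) ^ m := pow_le_pow_left₀ (by norm_num) hd2 m
        have h6 : (d : ℝ) ^ m ≤ n := by exact_mod_cast h1
        linarith
      have h5 := Real.log_le_log (by positivity) h4
      rw [Real.log_pow] at h5
      have h6 : (m : ℝ) * (1 / 2) ≤ m * Real.log 2 :=
        mul_le_mul_of_nonneg_left hl2.le (by positivity)
      linarith
    -- `n = k l u`, `u ≥ C₁`
    set u : ℝ := n / (k * l) with hu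
    have hnu : (n : ℝ) = k * l * u := by
      rw [hu]
      field_simp
    have huC : C₁ ≤ u := by
      rw [hu, le_div_iff₀ hkl]
      exact hn
    have hu0 : 0 < u := by linarith
    have hlogn : Real.log n ≤ 2 * l + 2 * Real.sqrt u := by
      rw [hnu, Real.log_mul hkl.ne' hu0.ne', Real.log_mul (by linarith) (by linarith)]
      have h4 : Real.log k ≤ l := Real.log_le_log (by linarith) (by linarith)
      have h5 : Real.log l ≤ l := by
        have := Real.log_le_sub_one_of_pos (show (0 : ℝ) < l by linarith)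
        linarith
      have h6 := DenM.log_le_two_sqrt hu0
      linarith
    have hsu : S ≤ Real.sqrt u := by
      refine Real.le_sqrt_of_sq_le ?_
      nlinarith
    have hsu1 : 1 ≤ Real.sqrt u := hS1.trans hsu
    have h7 : (m : ℝ) + 1 ≤ 18 * l * Real.sqrt u := by
      have h8 : l ≤ l * Real.sqrt u := by nlinarith
      have h9 : Real.sqrt u ≤ 2 * l * Real.sqrt u := by nlinarith
      have h10 : (1 : ℝ) ≤ 2 * l * Real.sqrt u := by nlinarith
      linarith
    have h8 : a * (m + 1) * k ≤ a * (18 * l * Real.sqrt u) * k :=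
      mul_le_mul_of_nonneg_right (mul_le_mul_of_nonneg_left h7 ha) (by linarith)
    have h9 : (d : ℝ) * (a * (18 * l * Real.sqrt u) * k) ≤ k * l * u := by
      have h10 : (18 * a * d : ℝ) ≤ Real.sqrt u := by
        have : 0 ≤ a * d := by positivity
        nlinarith
      have h11 : u = Real.sqrt u * Real.sqrt u := (Real.mul_self_sqrt hu0.le).symm
      have h12 : (18 * a * d : ℝ) * Real.sqrt u ≤ Real.sqrt u * Real.sqrt u :=
        mul_le_mul_of_nonneg_right h10 (by positivity)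
      have h13 : k * l * ((18 * a * d : ℝ) * Real.sqrt u) ≤ k * l * (Real.sqrt u * Real.sqrt u) :=
        mul_le_mul_of_nonneg_left h12 hkl.le
      rw [← h11] at h13
      linarith
    have h14 : (d : ℝ) * (a * (m + 1) * k) ≤ d * (d : ℝ) ^ m := by
      have h15 : (d : ℝ) * (a * (m + 1) * k) ≤ (d : ℝ) * (a * (18 * l * Real.sqrt u) * k) :=
        mul_le_mul_of_nonneg_left h8 (by linarith)
      rw [← hnu] at h9
      linarith
    exact le_of_mul_le_mul_left h14 (by linarith)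

end Pool.Agent.RI
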