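import Mathlib

/-!
# RI/DenReal: the real inequality at the end of theorem R** (the choice of `T = d^m`)
-/

set_option autoImplicit false

namespace Pool.Agent.RI

/-- for `C₁ k log (k + 1) ≤ d^(m + 1)` the two error terms are small against `d^m` -/
theorem den_real (d : ℕ) (hd : 2 ≤ d) (c κ A : ℝ) (hc : 0 < c) (hκ : 0 < κ) :
    ∃ C₁ : ℝ, 0 < C₁ ∧ ∀ k : ℝ, 1 ≤ k → ∀ m : ℕ, C₁ * (k * Real.log (k + 1)) ≤ (d : ℝ) ^ (m + 1) →
      2 * m * k ≤ c * (d : ℝ) ^ m ∧ A * (m + 1) ≤ κ / 2 * (d : ℝ) ^ m := by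
  have hd2 : (2 : ℝ) ≤ d := by exact_mod_cast hd
  have hd0 : (0 : ℝ) < d := by linarith
  have hl2 : 0 < Real.log 2 := Real.log_pos (by norm_num)
  -- `m₀`
  have ht1 := tendsto_pow_const_div_const_pow_of_one_lt 2 (show (1 : ℝ) < 2 by norm_num)
  have ht2 := tendsto_pow_const_div_const_pow_of_one_lt 1 (show (1 : ℝ) < 2 by norm_num)
  have e1 : ∀ᶠ m : ℕ in Filter.atTop, (m : ℝ) ^ 2 / 2 ^ m < c ^ 2 / 4 := ht1.eventually (gt_mem_nhds (by positivity))
  have e2 : ∀ᶠ m : ℕ in Filter.atTop, (m : ℝ) ^ 1 / 2 ^ m < κ / (4 * (|A| + 1)) := ht2.eventually (gt_mem_nhds (by positivity))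
  obtain ⟨m₀, hm₀⟩ := Filter.eventually_atTop.1 ((e1.and e2).and (Filter.eventually_ge_atTop 1))
  refine ⟨max (4 * d / (c * Real.log 2)) ((d : ℝ) ^ (m₀ + 1) / Real.log 2), lt_max_of_lt_left (by positivity), ?_⟩
  intro k hk m h
  set C := max (4 * d / (c * Real.log 2)) ((d : ℝ) ^ (m₀ + 1) / Real.log 2) with hC
  have hlk : Real.log 2 ≤ Real.log (k + 1) := Real.log_le_log (by norm_num) (by linarith)
  have hkl : Real.log 2 ≤ k * Real.log (k + 1) := by nlinarith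
  have hq0 : (0 : ℝ) < (d : ℝ) ^ m := by positivity
  have hC2 : (d : ℝ) ^ (m₀ + 1) ≤ C * Real.log 2 := by
    have := le_max_right (4 * d / (c * Real.log 2)) ((d : ℝ) ^ (m₀ + 1) / Real.log 2)
    rw [← hC, div_le_iff₀ hl2] at this
    exact this
  have hC0 : 0 < C := lt_max_of_lt_left (by positivity)
  have hC1 : 4 * d ≤ C * (c * Real.log 2) := by
    have := le_max_left (4 * d / (c * Real.log 2)) ((d : ℝ) ^ (m₀ + 1) / Real.log 2)
    rw [← hC, div_le_iff₀ (by positivity)] at this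
    exact this
  have hm : m₀ ≤ m := by
    have h1 : (d : ℝ) ^ (m₀ + 1) ≤ (d : ℝ) ^ (m + 1) := by
      calc (d : ℝ) ^ (m₀ + 1) ≤ C * Real.log 2 := hC2
        _ ≤ C * (k * Real.log (k + 1)) := mul_le_mul_of_nonneg_left hkl hC0.le
        _ ≤ _ := h
    have h2 := (pow_le_pow_iff_right₀ (show (1 : ℝ) < d by linarith)).1 h1
    omega
  obtain ⟨⟨h1, h2⟩, hm1⟩ := hm₀ m hm
  have h2m : (2 : ℝ) ^ m ≤ (d : ℝ) ^ m := pow_le_pow_left₀ (by norm_num) hd2 m
  have h20 : (0 : ℝ) < 2 ^ m := by positivity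
  rw [div_lt_iff₀ h20] at h1 h2
  have hmR : (1 : ℝ) ≤ m := by exact_mod_cast hm1
  constructor
  · by_cases hkq : k ^ 2 ≤ (d : ℝ) ^ m
    · -- `(2 m k)² ≤ 4 m² q ≤ (c q)²`
      have h3 : (2 * m * k) ^ 2 ≤ (c * (d : ℝ) ^ m) ^ 2 := by
        have h4 : 4 * (m : ℝ) ^ 2 ≤ c ^ 2 * (d : ℝ) ^ m := by nlinarith [sq_nonneg c]
        calc (2 * m * k) ^ 2 = 4 * (m : ℝ) ^ 2 * k ^ 2 := by ring
          _ ≤ (c ^ 2 * (d : ℝ) ^ m) * (d : ℝ) ^ m := mul_le_mul h4 hkq (sq_nonneg k) (by positivity)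
          _ = (c * (d : ℝ) ^ m) ^ 2 := by ring
      exact le_of_sq_le_sq h3 (by positivity)
    · push Not at hkq
      have hk0 : 0 < k := by linarith
      have h3 : (m : ℝ) * Real.log 2 ≤ 2 * Real.log (k + 1) := by
        have h4 : Real.log ((d : ℝ) ^ m) ≤ Real.log (k ^ 2) := Real.log_le_log hq0 hkq.le
        rw [Real.log_pow, Real.log_pow] at h4
        have h5 : Real.log 2 ≤ Real.log d := Real.log_le_log (by norm_num) hd2
        have h6 : Real.log k ≤ Real.log (k + 1) := Real.log_le_log hk0 (by linarith)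
        have h7 : (m : ℝ) * Real.log 2 ≤ m * Real.log d := mul_le_mul_of_nonneg_left h5 (by linarith)
        push_cast at h4
        linarith
      -- `2 m k log 2 ≤ 4 k log (k+1) ≤ 4 d q / C ≤ c log 2 q`
      have h4 : C * (2 * m * k * Real.log 2) ≤ C * (c * (d : ℝ) ^ m * Real.log 2) := by
        calc C * (2 * m * k * Real.log 2) = 2 * C * k * (m * Real.log 2) := by ring
          _ ≤ 2 * C * k * (2 * Real.log (k + 1)) := mul_le_mul_of_nonneg_left h3 (by positivity)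
          _ = 4 * (C * (k * Real.log (k + 1))) := by ring
          _ ≤ 4 * (d : ℝ) ^ (m + 1) := by linarith
          _ = 4 * d * (d : ℝ) ^ m := by ring
          _ ≤ C * (c * Real.log 2) * (d : ℝ) ^ m := mul_le_mul_of_nonneg_right hC1 hq0.le
          _ = C * (c * (d : ℝ) ^ m * Real.log 2) := by ring
      have h5 := le_of_mul_le_mul_left h4 hC0
      exact le_of_mul_le_mul_right h5 hl2
  · have h3 : A * (m + 1) ≤ (|A| + 1) * (2 * m) := by
      have h4 : A ≤ |A| + 1 := by linarith [le_abs_self A]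
      have h5 : (0 : ℝ) ≤ m + 1 := by linarith
      have h6 : (0 : ℝ) ≤ |A| + 1 := by linarith [abs_nonneg A]
      calc A * (m + 1) ≤ (|A| + 1) * (m + 1) := mul_le_mul_of_nonneg_right h4 h5
        _ ≤ (|A| + 1) * (2 * m) := mul_le_mul_of_nonneg_left (by linarith) h6
    have h6 : (0 : ℝ) < |A| + 1 := by linarith [abs_nonneg A]
    have h7 : (m : ℝ) * (4 * (|A| + 1)) ≤ κ * 2 ^ m := by
      rw [pow_one, div_mul_eq_mul_div, lt_div_iff₀ (by positivity)] at h2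
      exact h2.le
    have h8 : κ * 2 ^ m ≤ κ * (d : ℝ) ^ m := mul_le_mul_of_nonneg_left h2m hκ.le
    nlinarith

end Pool.Agent.RI
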