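import Mathlib

/-!
# RI/Grid (3.2): tuples of bounded vectors over the complex numbers
-/

set_option autoImplicit false

namespace Pool.Agent.RI

open Finset

/-- the number of pairs of equal colour -/
theorem pairs_eq {T N : ℕ} (hN : 1 ≤ N) (a : Fin T → Fin N) (Y : Finset (Fin T)) :
    ((Y.card : ℝ) ^ 2) / N ≤ ∑ i ∈ Y, ∑ j ∈ Y, (if a i = a j then (1 : ℝ) else 0) := by
  classical
  have e : ∑ i ∈ Y, ∑ j ∈ Y, (if a i = a j then (1 : ℝ) else 0) = ∑ c : Fin N, (((Y.filter fun i => a i = c).card : ℝ)) ^ 2 := by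
    have h1 : ∀ i ∈ Y, ∑ j ∈ Y, (if a i = a j then (1 : ℝ) else 0) = ((Y.filter fun j => a j = a i).card : ℝ) := by
      intro i _
      rw [← Finset.sum_filter, Finset.sum_const, nsmul_eq_mul, mul_one]
      congr 2
      ext j
      simp only [mem_filter]
      exact and_congr_right fun _ => eq_comm
    rw [Finset.sum_congr rfl h1, ← Finset.sum_fiberwise_of_maps_to (g := a) (t := univ) (fun _ _ => mem_univ _)]
    refine Finset.sum_congr rfl fun c _ => ?_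
    rw [Finset.sum_congr rfl (g := fun _ => ((Y.filter fun j => a j = c).card : ℝ)) (fun i hi => by
      rw [(mem_filter.1 hi).2]), Finset.sum_const, nsmul_eq_mul, sq]
  rw [e]
  have h2 : (Y.card : ℝ) = ∑ c : Fin N, ((Y.filter fun i => a i = c).card : ℝ) := by
    rw [← Nat.cast_sum]
    congr 1
    exact Finset.card_eq_sum_card_fiberwise (fun _ _ => mem_univ _)
  have h3 := sq_sum_le_card_mul_sum_sq (s := (univ : Finset (Fin N))) (f := fun c => ((Y.filter fun i => a i = c).card : ℝ))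
  rw [← h2, Finset.card_univ, Fintype.card_fin] at h3
  rw [div_le_iff₀ (by exact_mod_cast hN)]
  linarith

/-- the energy of a pattern when pairs of equal colour have large energy -/
theorem pattern_energy {T N : ℕ} (hN : 1 ≤ N) (a : Fin T → Fin N) (Y : Finset (Fin T)) (hY : 2 * N ≤ Y.card)
    (F : Fin T → Fin T → ℝ) {C Lam : ℝ} (hC : 0 ≤ C) (hL : 0 ≤ Lam)
    (h1 : ∀ i j, i ≠ j → -C ≤ F i j) (h2 : ∀ i j, i ≠ j → a i = a j → 2 * N * (C + Lam) ≤ F i j) :
    Lam * (Y.card : ℝ) ^ 2 ≤ ∑ i ∈ Y, ∑ j ∈ Y.erase i, F i j := by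
  classical
  obtain ⟨G, hG⟩ : ∃ G : ℝ, G = 2 * N * (C + Lam) := ⟨_, rfl⟩
  have hN' : (0 : ℝ) < N := by exact_mod_cast hN
  have hG0 : 0 ≤ G := by rw [hG]; positivity
  have e1 : ∑ i ∈ Y, ∑ j ∈ Y.erase i, ((G + C) * (if a i = a j then (1 : ℝ) else 0) - C) ≤ ∑ i ∈ Y, ∑ j ∈ Y.erase i, F i j := by
    refine Finset.sum_le_sum fun i _ => Finset.sum_le_sum fun j hj => ?_
    have hij : i ≠ j := (mem_erase.1 hj).1.symm
    by_cases h : a i = a j
    · rw [if_pos h]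
      have := h2 i j hij h
      rw [← hG] at this
      linarith
    · rw [if_neg h]
      have := h1 i j hij
      linarith
  have e2 : ∀ i ∈ Y, ∑ j ∈ Y, ((G + C) * (if a i = a j then (1 : ℝ) else 0) - C) - G ≤
      ∑ j ∈ Y.erase i, ((G + C) * (if a i = a j then (1 : ℝ) else 0) - C) := by
    intro i hi
    rw [← Finset.add_sum_erase Y _ hi, if_pos rfl]
    linarith
  have e3 : ∑ i ∈ Y, (∑ j ∈ Y, ((G + C) * (if a i = a j then (1 : ℝ) else 0) - C) - G) =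
      (G + C) * ∑ i ∈ Y, ∑ j ∈ Y, (if a i = a j then (1 : ℝ) else 0) - C * (Y.card : ℝ) ^ 2 - G * Y.card := by
    simp only [Finset.sum_sub_distrib, Finset.sum_const, nsmul_eq_mul, ← Finset.mul_sum]
    ring
  have e4 := Finset.sum_le_sum e2
  rw [e3] at e4
  have e5 := pairs_eq hN a Y
  have hY' : (2 : ℝ) * N ≤ Y.card := by exact_mod_cast hY
  have e6 : (G + C) * ((Y.card : ℝ) ^ 2 / N) ≤ (G + C) * ∑ i ∈ Y, ∑ j ∈ Y, (if a i = a j then (1 : ℝ) else 0) :=
    mul_le_mul_of_nonneg_left e5 (by linarith)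
  have e7 : (C + Lam) * (Y.card : ℝ) ^ 2 + G * Y.card ≤ G * ((Y.card : ℝ) ^ 2 / N) := by
    have e8 : G * ((Y.card : ℝ) ^ 2 / N) = 2 * ((C + Lam) * (Y.card : ℝ) ^ 2) := by
      rw [hG]; field_simp
    have e9 : G * Y.card ≤ (C + Lam) * (Y.card : ℝ) ^ 2 := by
      rw [hG]
      have : 2 * (N : ℝ) * Y.card ≤ (Y.card : ℝ) * Y.card := mul_le_mul_of_nonneg_right hY' (Nat.cast_nonneg _)
      have := mul_le_mul_of_nonneg_left this (by linarith : 0 ≤ C + Lam)
      nlinarith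
    linarith
  have e10 : 0 ≤ C * ((Y.card : ℝ) ^ 2 / N) := by positivity
  nlinarith

/-- **(3.2)**: of many tuples of bounded vectors of `ℂ²` one can choose `T` such that every pattern on every large subset has
large energy -/
theorem grid (N : ℕ) (hN : 1 ≤ N) (B rho0 Lam : ℝ) (T : ℕ) : ∃ M : ℕ, ∀ (rho : ℝ), rho0 ≤ rho →
    ∀ z : Fin M → Fin N → ℂ × ℂ, (∀ i a, ‖(z i a).1‖ ≤ B ∧ ‖(z i a).2‖ ≤ B) →
    (∀ i j, i ≠ j → ∀ a b, (z i a).1 * (z j b).2 - (z i a).2 * (z j b).1 ≠ 0) →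
    ∃ e : Fin T ↪ Fin M, ∀ Y : Finset (Fin T), 2 * N ≤ Y.card → ∀ a : Fin T → Fin N,
      Lam * (Y.card : ℝ) ^ 2 ≤ ∑ i ∈ Y, ∑ j ∈ Y.erase i,
        (-Real.log ‖(z (e i) (a i)).1 * (z (e j) (a j)).2 - (z (e i) (a i)).2 * (z (e j) (a j)).1‖ + rho) := by
  classical
  obtain ⟨B', hB', hB1⟩ : ∃ B' : ℝ, B ≤ B' ∧ 1 ≤ B' := ⟨max B 1, le_max_left _ _, le_max_right _ _⟩
  obtain ⟨L', hL', hL0⟩ : ∃ L' : ℝ, Lam ≤ L' ∧ 0 ≤ L' := ⟨max Lam 0, le_max_left _ _, le_max_right _ _⟩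
  obtain ⟨C, hC, hC0⟩ : ∃ C : ℝ, Real.log (2 * B' ^ 2) - rho0 ≤ C ∧ 0 ≤ C := ⟨max _ 0, le_max_left _ _, le_max_right _ _⟩
  obtain ⟨G, hG⟩ : ∃ G : ℝ, G = 2 * N * (C + L') := ⟨_, rfl⟩
  obtain ⟨δ, hδ, hδG⟩ : ∃ δ : ℝ, 0 < δ ∧ 2 * B' * δ ≤ Real.exp (rho0 - G) :=
    ⟨Real.exp (rho0 - G) / (2 * B'), by positivity, le_of_eq (by field_simp)⟩
  obtain ⟨t, -, htf, htc⟩ := (isCompact_closedBall (0 : Fin N → ℂ × ℂ) B').finite_cover_balls (half_pos hδ)
  have : Fintype t := htf.fintype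
  refine ⟨Fintype.card t * T + 1, fun rho hrho z hz hw => ?_⟩
  have hz' : ∀ i a, ‖(z i a).1‖ ≤ B' ∧ ‖(z i a).2‖ ≤ B' := fun i a => ⟨(hz i a).1.trans hB', (hz i a).2.trans hB'⟩
  have hcol : ∀ i, ∃ c : t, dist (z i) c < δ / 2 := by
    intro i
    have h1 : z i ∈ Metric.closedBall (0 : Fin N → ℂ × ℂ) B' := by
      rw [mem_closedBall_zero_iff, pi_norm_le_iff_of_nonneg (by linarith)]
      intro a
      rw [Prod.norm_def]
      exact max_le (hz' i a).1 (hz' i a).2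
    have h2 := htc h1
    rw [Set.mem_iUnion₂] at h2
    obtain ⟨c, hc, h3⟩ := h2
    exact ⟨⟨c, hc⟩, Metric.mem_ball.1 h3⟩
  choose col hcol using hcol
  obtain ⟨y, hy⟩ := Fintype.exists_lt_card_fiber_of_mul_lt_card (f := col) (n := T) (by
    rw [Fintype.card_fin]; exact Nat.lt_succ_self _)
  obtain ⟨s, hs, hsc⟩ := Finset.exists_subset_card_eq hy.le
  refine ⟨(s.orderEmbOfFin hsc).toEmbedding, fun Y hY a => ?_⟩
  obtain ⟨e, he⟩ : ∃ e : Fin T → Fin (Fintype.card t * T + 1), e = s.orderEmbOfFin hsc := ⟨_, rfl⟩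
  have hee : ∀ i, (s.orderEmbOfFin hsc).toEmbedding i = e i := fun i => by rw [he]; rfl
  have hinj : Function.Injective e := by rw [he]; exact (s.orderEmbOfFin hsc).injective
  have hey : ∀ i, col (e i) = y := by
    intro i
    have h1 : e i ∈ s := by rw [he]; exact Finset.orderEmbOfFin_mem s hsc i
    exact (mem_filter.1 (hs h1)).2
  simp only [hee]
  refine le_trans (mul_le_mul_of_nonneg_right hL' (by positivity)) (pattern_energy hN a Y hY _ hC0 hL0 (fun i j hij => ?_)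
    (fun i j hij hab => ?_))
  · -- all pairs
    have h1 : 0 < ‖(z (e i) (a i)).1 * (z (e j) (a j)).2 - (z (e i) (a i)).2 * (z (e j) (a j)).1‖ :=
      norm_pos_iff.2 (hw _ _ (fun h => hij (hinj h)) _ _)
    have h2 : ‖(z (e i) (a i)).1 * (z (e j) (a j)).2 - (z (e i) (a i)).2 * (z (e j) (a j)).1‖ ≤ 2 * B' ^ 2 := by
      refine (norm_sub_le _ _).trans ?_
      rw [norm_mul, norm_mul]
      have a1 := mul_le_mul (hz' (e i) (a i)).1 (hz' (e j) (a j)).2 (norm_nonneg _) (by linarith)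
      have a2 := mul_le_mul (hz' (e i) (a i)).2 (hz' (e j) (a j)).1 (norm_nonneg _) (by linarith)
      nlinarith
    have h3 := Real.log_le_log h1 h2
    linarith
  · have h1 : 0 < ‖(z (e i) (a i)).1 * (z (e j) (a j)).2 - (z (e i) (a i)).2 * (z (e j) (a j)).1‖ :=
      norm_pos_iff.2 (hw _ _ (fun h => hij (hinj h)) _ _)
    have hd : dist (z (e i)) (z (e j)) < δ := by
      have d1 := hcol (e i)
      have d2 := hcol (e j)
      rw [hey i] at d1
      rw [hey j] at d2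
      have := dist_triangle_right (z (e i)) (z (e j)) (y : Fin N → ℂ × ℂ)
      linarith
    have hd2 : dist (z (e i) (a i)) (z (e j) (a j)) ≤ δ := by
      rw [← hab]
      exact (dist_le_pi_dist (z (e i)) (z (e j)) (a i)).trans hd.le
    rw [Prod.dist_eq] at hd2
    have hd3 : ‖(z (e j) (a j)).1 - (z (e i) (a i)).1‖ ≤ δ := by
      rw [← dist_eq_norm, dist_comm]
      exact (le_max_left _ _).trans hd2
    have hd4 : ‖(z (e j) (a j)).2 - (z (e i) (a i)).2‖ ≤ δ := by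
      rw [← dist_eq_norm, dist_comm]
      exact (le_max_right _ _).trans hd2
    have h2 : ‖(z (e i) (a i)).1 * (z (e j) (a j)).2 - (z (e i) (a i)).2 * (z (e j) (a j)).1‖ ≤ 2 * B' * δ := by
      have e1 : (z (e i) (a i)).1 * (z (e j) (a j)).2 - (z (e i) (a i)).2 * (z (e j) (a j)).1 =
          (z (e i) (a i)).1 * ((z (e j) (a j)).2 - (z (e i) (a i)).2) - (z (e i) (a i)).2 * ((z (e j) (a j)).1 - (z (e i) (a i)).1) := by ring
      rw [e1]
      refine (norm_sub_le _ _).trans ?_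
      rw [norm_mul, norm_mul]
      have a1 := mul_le_mul (hz' (e i) (a i)).1 hd4 (norm_nonneg _) (by linarith)
      have a2 := mul_le_mul (hz' (e i) (a i)).2 hd3 (norm_nonneg _) (by linarith)
      nlinarith
    have h3 := Real.log_le_log h1 (h2.trans hδG)
    rw [Real.log_exp, hG] at h3
    linarith

end Pool.Agent.RI
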