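import Mathlib
import Pool.Agent.RI.Defs
import Pool.Agent.RI.Pre
import Pool.Agent.RI.Grid

set_option autoImplicit false

/-!
# The grid over `ℂ` for reduced maps with bounded resultant
-/

namespace Pool.Agent.RI

open Polynomial Pool.Agent.RDF

/-- an embedding can be ordered -/
theorem mono_of_emb {T M N : ℕ} (e : Fin T ↪ Fin M) : ∃ (e' : Fin T → Fin M) (σ : Fin T ≃ Fin T), StrictMono e' ∧
    ∀ i, e (σ i) = e' i := by
  classical
  have hc : (Finset.univ.map e).card = T := by simp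
  obtain ⟨e', he'⟩ : ∃ e' : Fin T ↪o Fin M, e' = (Finset.univ.map e).orderEmbOfFin hc := ⟨_, rfl⟩
  have h1 : ∀ i, ∃ j, e j = e' i := by
    intro i
    have h := Finset.orderEmbOfFin_mem (Finset.univ.map e) hc i
    rw [← he', Finset.mem_map] at h
    obtain ⟨j, -, hj⟩ := h
    exact ⟨j, hj⟩
  choose g hg using h1
  have hinj : Function.Injective g := by
    intro i j hij
    have : e' i = e' j := by rw [← hg, ← hg, hij]
    exact e'.injective this
  refine ⟨e', Equiv.ofBijective g (Finite.injective_iff_bijective.1 hinj), e'.strictMono, fun i => ?_⟩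
  rw [Equiv.ofBijective_apply]
  exact hg i

/-- Over `ℂ`, for `λ ≤ lam1`: a grid. -/
theorem gridD (d N : ℕ) (hd : 2 ≤ d) (Λ lam1 : ℝ) : ∃ T0 : ℕ, ∀ T, ∃ M, ∀ (F G : ℂ[X])
    (hF : F.natDegree ≤ d) (hG : G.natDegree ≤ d) (hR : resultant F G d d ≠ 0)
    (_hred : Red (NormedField.toAbsoluteValue ℂ) d F G),
    -Real.log (NormedField.toAbsoluteValue ℂ (resultant F G d d)) ≤ lam1 →
    ∀ z : Fin M → Fin N → ℂ × ℂ, (∀ i a, PV d F G (z i a)) →
    (∀ i j, i ≠ j → ∀ a b, wedge (z i a) (z j b) ≠ 0) →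
    ∃ e : Fin T → Fin M, StrictMono e ∧ ∀ Y : Finset (Fin T), T0 ≤ Y.card →
      ∀ a : Fin T → Fin N, Λ * (Y.card : ℝ) ^ 2 ≤ ∑ i ∈ Y, ∑ j ∈ Y.erase i,
        gg (NormedField.toAbsoluteValue ℂ) d F G (z (e i) (a i)) (z (e j) (a j)) := by
  classical
  rcases Nat.eq_zero_or_pos N with rfl | hN
  · refine ⟨0, fun T => ⟨T, fun F G hF hG hR _ hl z hz hw => ⟨id, strictMono_id, fun Y _ a => ?_⟩⟩⟩
    rcases Y.eq_empty_or_nonempty with rfl | ⟨i, hi⟩
    · simp
    · exact (a i).elim0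
  obtain ⟨C, hC, hb⟩ := bounds d hd
  have hd2 : (2 : ℝ) ≤ d := by exact_mod_cast hd
  have hd1 : (0 : ℝ) < (d : ℝ) - 1 := by linarith
  have hdd : (0 : ℝ) < (d : ℝ) * ((d : ℝ) - 1) := mul_pos (by linarith) hd1
  refine ⟨2 * N, fun T => ?_⟩
  obtain ⟨M, hM⟩ := grid N hN (Real.exp ((max lam1 0 + C) / ((d : ℝ) - 1))) (-C / ((d : ℝ) * ((d : ℝ) - 1))) Λ T
  refine ⟨M, fun F G hF hG hR hred hl z hz hw => ?_⟩
  obtain ⟨b1, b2, -⟩ := hb (NormedField.toAbsoluteValue ℂ) F G hF hG hR hred.leF hred.leG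
  have hrho : -C / ((d : ℝ) * ((d : ℝ) - 1)) ≤
      -Real.log (NormedField.toAbsoluteValue ℂ (resultant F G d d)) / ((d : ℝ) * ((d : ℝ) - 1)) :=
    div_le_div_of_nonneg_right b1 hdd.le
  have hB : ∀ i a, ‖(z i a).1‖ ≤ Real.exp ((max lam1 0 + C) / ((d : ℝ) - 1)) ∧
      ‖(z i a).2‖ ≤ Real.exp ((max lam1 0 + C) / ((d : ℝ) - 1)) := by
    intro i a
    have h1 := (b2 (z i a) (hz i a)).2
    have h2 : (max (-Real.log (NormedField.toAbsoluteValue ℂ (resultant F G d d))) 0 + C) / ((d : ℝ) - 1) ≤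
        (max lam1 0 + C) / ((d : ℝ) - 1) :=
      div_le_div_of_nonneg_right (add_le_add (max_le_max hl le_rfl) le_rfl) hd1.le
    have h0 : 0 < nrm (NormedField.toAbsoluteValue ℂ) (z i a) := nrm_pos _ (hz i a).1
    have h3 : nrm (NormedField.toAbsoluteValue ℂ) (z i a) ≤ Real.exp ((max lam1 0 + C) / ((d : ℝ) - 1)) := by
      rw [← Real.log_le_iff_le_exp h0]
      exact h1.trans h2
    exact ⟨(le_max_left _ _).trans h3, (le_max_right _ _).trans h3⟩
  have hwe : ∀ x y : ℂ × ℂ, wedge x y = x.1 * y.2 - x.2 * y.1 := fun x y => by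
    rw [wedge]; ring
  obtain ⟨e, he⟩ := hM _ hrho z hB fun i j hij a b => by
    rw [← hwe]
    exact hw i j hij a b
  obtain ⟨e', σ, hm, hσ⟩ := mono_of_emb (N := N) e
  refine ⟨e', hm, fun Y hY a => ?_⟩
  have h1 := he (Y.map σ.toEmbedding) (by rwa [Finset.card_map]) (fun i => a (σ.symm i))
  rw [Finset.card_map, Finset.sum_map] at h1
  refine h1.trans (le_of_eq ?_)
  refine Finset.sum_congr rfl fun i _ => ?_
  rw [← Finset.map_erase, Finset.sum_map]
  refine Finset.sum_congr rfl fun j _ => ?_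
  simp only [Equiv.coe_toEmbedding, Equiv.symm_apply_apply, hσ]
  have hab : ∀ w : ℂ, NormedField.toAbsoluteValue ℂ w = ‖w‖ := fun w => rfl
  rw [gg, hwe]
  simp only [hab]
  ring

end Pool.Agent.RI
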