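import Pool.Agent.RI.Tup
import Pool.Agent.RI.RedE
import Pool.Agent.RI.GridD

set_option autoImplicit false

/-!
# The exceptional places
-/

namespace Pool.Agent.RI

open Polynomial Pool.Agent.RDF

/-- A sum over the ordered pairs of different elements of `Y`. -/
theorem pair_sum_ge {ι : Type*} [DecidableEq ι] (Y : Finset ι) (f : ι → ι → ℝ) {C : ℝ}
    (hC : 0 ≤ C) (h : ∀ i ∈ Y, ∀ j ∈ Y, i ≠ j → -C ≤ f i j) :
    -C * (Y.card : ℝ) ^ 2 ≤ ∑ i ∈ Y, ∑ j ∈ Y.erase i, f i j := by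
  have h1 : ∀ i ∈ Y, -C * (Y.card : ℝ) ≤ ∑ j ∈ Y.erase i, f i j := by
    intro i hi
    have h2 : ∑ _j ∈ Y.erase i, -C ≤ ∑ j ∈ Y.erase i, f i j :=
      Finset.sum_le_sum fun j hj => h i hi j (Finset.mem_of_mem_erase hj)
        (Finset.ne_of_mem_erase hj).symm
    rw [Finset.sum_const, nsmul_eq_mul] at h2
    have h3 : ((Y.erase i).card : ℝ) ≤ Y.card := by
      exact_mod_cast Finset.card_le_card (Finset.erase_subset _ _)
    nlinarith
  have h4 : ∑ _i ∈ Y, -C * (Y.card : ℝ) ≤ ∑ i ∈ Y, ∑ j ∈ Y.erase i, f i j :=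
    Finset.sum_le_sum h1
  rw [Finset.sum_const, nsmul_eq_mul] at h4
  have h5 : (Y.card : ℝ) * (-C * Y.card) = -C * (Y.card : ℝ) ^ 2 := by ring
  linarith

/-- The reduced data of a rational function. -/
theorem exists_dat (d : ℕ) (hd : 2 ≤ d) {L : Type} [Field L] [IsAlgClosed L]
    (abv : AbsoluteValue L ℝ) (F G : L[X]) (hF : F.natDegree ≤ d) (hG : G.natDegree ≤ d)
    (hR : resultant F G d d ≠ 0) : ∃ (F' G' : L[X]) (_ : F'.natDegree ≤ d)
      (_ : G'.natDegree ≤ d) (_ : resultant F' G' d d ≠ 0) (_ : Red abv d F' G')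
      (f : L × L → L × L), (∀ x, PV d F G x → PV d F' G' (f x)) ∧
      ∀ x y, wedge x y ≠ 0 → wedge (f x) (f y) ≠ 0 ∧
        gg abv d F' G' (f x) (f y) = gg abv d F G x y := by
  obtain ⟨F', G', a, b, c, e, hF', hG', hR', hr, hdet, h1, h2⟩ :=
    exists_red d hd abv F G hF hG hR
  refine ⟨F', G', hF', hG', hR', hr, ap a b c e, h1, fun x y hxy => ⟨?_, h2 x y hxy⟩⟩
  rw [wedge_ap]
  exact mul_ne_zero hdet hxy

theorem exc (d N : ℕ) (hd : 2 ≤ d) : ∃ (C0 : ℝ) (T0 : ℕ), 0 ≤ C0 ∧ ∀ T, ∃ M, ∀ (L : Type)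
    [Field L] [IsAlgClosed L] (abv : AbsoluteValue L ℝ) (F G : L[X]), F.natDegree ≤ d →
    G.natDegree ≤ d → resultant F G d d ≠ 0 → ∀ z : Fin M → Fin N → L × L,
    (∀ i a, PV d F G (z i a)) → (∀ i j, i ≠ j → ∀ a b, wedge (z i a) (z j b) ≠ 0) →
    ∃ e : Fin T → Fin M, StrictMono e ∧ ∀ Y : Finset (Fin T), T0 ≤ Y.card →
      ∀ a : Fin T → Fin N, -C0 * (Y.card : ℝ) ^ 2 ≤ ∑ i ∈ Y, ∑ j ∈ Y.erase i,
        gg abv d F G (z (e i) (a i)) (z (e j) (a j)) := by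
  obtain ⟨c, hc, lam0, T0, htup⟩ := tup d N hd
  obtain ⟨C, hC, hge⟩ := g_ge d hd
  refine ⟨2 * max lam0 0 + C, T0, by positivity, fun T => ?_⟩
  obtain ⟨M, hM⟩ := htup T
  refine ⟨max M T, fun L _ _ abv F G hF hG hR z hz hw => ?_⟩
  obtain ⟨F', G', hF', hG', hR', hr, f, h1, h2⟩ := exists_dat d hd abv F G hF hG hR
  set D : Dat d := Dat.mk L abv F' G' hF' hG' hR' hr with hD
  have hgg : ∀ {e : Fin T → Fin (max M T)}, StrictMono e → ∀ (Y : Finset (Fin T))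
      (a : Fin T → Fin N), ∑ i ∈ Y, ∑ j ∈ Y.erase i, D.g (f (z (e i) (a i))) (f (z (e j) (a j))) =
      ∑ i ∈ Y, ∑ j ∈ Y.erase i, gg abv d F G (z (e i) (a i)) (z (e j) (a j)) := by
    intro e he Y a
    refine Finset.sum_congr rfl fun i _ => Finset.sum_congr rfl fun j hj => ?_
    exact (h2 _ _ (hw _ _ (fun h => Finset.ne_of_mem_erase hj (he.injective h).symm) _ _)).2
  by_cases hl : max lam0 0 ≤ D.lam
  · obtain ⟨e, he, hY⟩ := hM D ((le_max_left _ _).trans hl)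
      (fun i a => f (z (Fin.castLE (le_max_left M T) i) a)) (fun i a => h1 _ (hz _ _))
      (fun i j hij a b => (h2 _ _ (hw _ _ (fun h => hij (Fin.castLE_injective _ h)) _ _)).1)
    have he' : StrictMono fun i => Fin.castLE (le_max_left M T) (e i) :=
      (Fin.strictMono_castLE _).comp he
    refine ⟨_, he', fun Y hY0 a => ?_⟩
    have h3 := hY Y hY0 a
    rw [← hgg he' Y a]
    refine le_trans ?_ h3
    have h4 : 0 ≤ D.lam := (le_max_right _ _).trans hl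
    have h5 : 0 ≤ (2 * max lam0 0 + C) * (Y.card : ℝ) ^ 2 := by positivity
    have h6 : 0 ≤ c * D.lam * (Y.card : ℝ) ^ 2 := by positivity
    linarith
  · rw [not_le] at hl
    refine ⟨_, Fin.strictMono_castLE (le_max_right M T), fun Y _ a => ?_⟩
    rw [← hgg (Fin.strictMono_castLE (le_max_right M T)) Y a]
    refine pair_sum_ge Y _ (by positivity) fun i _ j _ _ => ?_
    have h3 := hge D _ _ (h1 _ (hz (Fin.castLE (le_max_right M T) i) (a i)))
      (h1 _ (hz (Fin.castLE (le_max_right M T) j) (a j)))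
    refine le_trans ?_ h3
    have h4 : max D.lam 0 ≤ max lam0 0 := max_le hl.le (le_max_right _ _)
    linarith

/-- Over `ℂ` there is a gain. -/
theorem exc_C (d N : ℕ) (hd : 2 ≤ d) (Λ : ℝ) : ∃ T0 : ℕ, ∀ T, ∃ M, ∀ F G : ℂ[X],
    F.natDegree ≤ d → G.natDegree ≤ d → resultant F G d d ≠ 0 → ∀ z : Fin M → Fin N → ℂ × ℂ,
    (∀ i a, PV d F G (z i a)) → (∀ i j, i ≠ j → ∀ a b, wedge (z i a) (z j b) ≠ 0) →
    ∃ e : Fin T → Fin M, StrictMono e ∧ ∀ Y : Finset (Fin T), T0 ≤ Y.card →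
      ∀ a : Fin T → Fin N, Λ * (Y.card : ℝ) ^ 2 ≤ ∑ i ∈ Y, ∑ j ∈ Y.erase i,
        gg (NormedField.toAbsoluteValue ℂ) d F G (z (e i) (a i)) (z (e j) (a j)) := by
  obtain ⟨c, hc, lam0, T0, htup⟩ := tup d N hd
  obtain ⟨T1, hgrid⟩ := gridD d N hd Λ (max lam0 (Λ / c))
  refine ⟨max T0 T1, fun T => ?_⟩
  obtain ⟨M, hM⟩ := htup T
  obtain ⟨M', hM'⟩ := hgrid T
  refine ⟨max M M', fun F G hF hG hR z hz hw => ?_⟩
  obtain ⟨F', G', hF', hG', hR', hr, f, h1, h2⟩ :=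
    exists_dat d hd (NormedField.toAbsoluteValue ℂ) F G hF hG hR
  set D : Dat d := Dat.mk ℂ (NormedField.toAbsoluteValue ℂ) F' G' hF' hG' hR' hr with hD
  have hgg : ∀ {e : Fin T → Fin (max M M')}, StrictMono e → ∀ (Y : Finset (Fin T))
      (a : Fin T → Fin N), ∑ i ∈ Y, ∑ j ∈ Y.erase i, gg (NormedField.toAbsoluteValue ℂ) d F' G'
        (f (z (e i) (a i))) (f (z (e j) (a j))) =
      ∑ i ∈ Y, ∑ j ∈ Y.erase i,
        gg (NormedField.toAbsoluteValue ℂ) d F G (z (e i) (a i)) (z (e j) (a j)) := by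
    intro e he Y a
    refine Finset.sum_congr rfl fun i _ => Finset.sum_congr rfl fun j hj => ?_
    exact (h2 _ _ (hw _ _ (fun h => Finset.ne_of_mem_erase hj (he.injective h).symm) _ _)).2
  by_cases hl : max lam0 (Λ / c) ≤ D.lam
  · obtain ⟨e, he, hY⟩ := hM D ((le_max_left _ _).trans hl)
      (fun i a => f (z (Fin.castLE (le_max_left M M') i) a)) (fun i a => h1 _ (hz _ _))
      (fun i j hij a b => (h2 _ _ (hw _ _ (fun h => hij (Fin.castLE_injective _ h)) _ _)).1)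
    have he' : StrictMono fun i => Fin.castLE (le_max_left M M') (e i) :=
      (Fin.strictMono_castLE _).comp he
    refine ⟨_, he', fun Y hY0 a => ?_⟩
    have h3 := hY Y ((le_max_left _ _).trans hY0) a
    rw [← hgg he' Y a]
    refine le_trans ?_ h3
    have h4 : Λ ≤ c * D.lam := by
      have h5 := (le_max_right lam0 (Λ / c)).trans hl
      rw [div_le_iff₀ hc] at h5
      linarith
    exact mul_le_mul_of_nonneg_right h4 (by positivity)
  · rw [not_le] at hl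
    obtain ⟨e, he, hY⟩ := hM' F' G' hF' hG' hR' hr hl.le
      (fun i a => f (z (Fin.castLE (le_max_right M M') i) a)) (fun i a => h1 _ (hz _ _))
      (fun i j hij a b => (h2 _ _ (hw _ _ (fun h => hij (Fin.castLE_injective _ h)) _ _)).1)
    have he' : StrictMono fun i => Fin.castLE (le_max_right M M') (e i) :=
      (Fin.strictMono_castLE _).comp he
    refine ⟨_, he', fun Y hY0 a => ?_⟩
    rw [← hgg he' Y a]
    exact hY Y ((le_max_right _ _).trans hY0) a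

end Pool.Agent.RI
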