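import Pool.Agent.RI.Defs
import Pool.Agent.RI.Fin

set_option autoImplicit false

/-!
# The finite statement, for the kernels `gam`
-/

namespace Pool.Agent.RI

open Polynomial Pool.Agent.RDF

/-- The labels of the level `s` are `A × Fin d`; `(a, z)` is the point `c(a, s)`, the `(a, t)` are
the preimages of `c(a, s - 1)`. -/
theorem fin_contra (d N : ℕ) (hd : 2 ≤ d) (c1 cd : ℝ) (hc1 : 0 ≤ c1) (hcd : 0 < cd) :
    ∃ k : ℕ, 1 ≤ k ∧ ∀ (A : Type) [Fintype A], Fintype.card A ≤ N → ∀ (z : Fin d) (w : A → ℝ),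
      (∀ a, 0 < w a) → ∑ a, w a = 1 →
      ∀ (j : ℕ → A × Fin d → A × Fin d → ℝ) (h : ℕ → A × Fin d → ℝ),
      (∀ s ≤ k, TreeK (j s)) →
      (∀ s ≤ k, ∀ p q, -c1 ≤ gam d (j s) (h s) p q) →
      (∀ s < k, ∀ a b u, gam d (j s) (h s) (a, z) (b, z) =
        ∑ t, gam d (j (s + 1)) (h (s + 1)) (a, u) (b, t)) →
      (∀ s ≤ k, ∀ v : A × Fin d → ℝ, (∀ p, 0 ≤ v p) →
        0 ≤ ∑ p, ∑ q, v p * v q * gam d (j s) (h s) p q) →
      (∀ s ≤ k, ∀ a, cd ≤ gam d (j s) (h s) (a, z) (a, z)) →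
      ∑ a, ∑ b, w a * w b * gam d (j k) (h k) (a, z) (b, z) ≤ 0 → False := by
  obtain ⟨θ, hθ⟩ : ∃ θ : ℝ, θ = 2 / (c1 + 2) := ⟨_, rfl⟩
  have hθ0 : 0 < θ := by rw [hθ]; positivity
  have hθ1 : θ * c1 ≤ 2 := by
    rw [hθ, div_mul_eq_mul_div, div_le_iff₀ (by linarith)]
    linarith
  obtain ⟨k, hk, H⟩ := fin_false d N hd ⟨0, by omega⟩ (c := θ * cd) (mul_pos hθ0 hcd)
  refine ⟨k, hk, ?_⟩
  intro A _ hA z w hw hw1 j h ht hge hid hcop hdg he
  set z0 : Fin d := ⟨0, by omega⟩ with hz0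
  set e : A × Fin d ≃ A × Fin d := Equiv.prodCongr (Equiv.refl A) (Equiv.swap z0 z) with hee
  have ez : ∀ a : A, e (a, z0) = (a, z) := fun a => by
    simp [hee]
  have et : ∀ (a : A) (t : Fin d), e (a, t) = (a, Equiv.swap z0 z t) := fun a t => by
    simp [hee]
  refine H A hA w hw hw1 (fun s p q => θ * gam d (j s) (h s) (e p) (e q))
    (fun s p q => θ * j s (e p) (e q)) (fun s p => θ * h s (e p)) (θ * (1 / (d * (d - 1))))
    ?_ ?_ ?_ ?_ ?_ ?_ ?_
  · intro s _ p q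
    show θ * gam d (j s) (h s) (e p) (e q) = _
    rw [gam]
    ring
  · intro s hs
    refine ⟨fun p q => ?_, fun p q => ?_, fun p q r => ?_⟩
    · show θ * j s (e p) (e q) = θ * j s (e q) (e p)
      rw [(ht s hs).symm]
    · exact mul_nonneg hθ0.le ((ht s hs).nonneg _ _)
    · show min (θ * j s (e p) (e q)) (θ * j s (e q) (e r)) ≤ θ * j s (e p) (e r)
      rw [← mul_min_of_nonneg _ _ hθ0.le]
      exact mul_le_mul_of_nonneg_left ((ht s hs).tri _ _ _) hθ0.le
  · intro s hs a b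
    show -2 ≤ θ * gam d (j s) (h s) (e (a, z0)) (e (b, z0))
    have h1 := mul_le_mul_of_nonneg_left (hge s hs (e (a, z0)) (e (b, z0))) hθ0.le
    linarith
  · intro s hs a b u
    show θ * gam d (j s) (h s) (e (a, z0)) (e (b, z0)) =
      ∑ t, θ * gam d (j (s + 1)) (h (s + 1)) (e (a, u)) (e (b, t))
    rw [ez, ez, hid s hs a b (Equiv.swap z0 z u), ← Finset.mul_sum]
    congr 1
    rw [et]
    refine (Equiv.sum_comp (Equiv.swap z0 z) fun t =>
      gam d (j (s + 1)) (h (s + 1)) (a, Equiv.swap z0 z u) (b, t)).symm.trans ?_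
    exact Finset.sum_congr rfl fun t _ => by rw [et]
  · intro s hs v hv
    have h1 := hcop s hs (fun p => v (e.symm p)) (fun p => hv _)
    have h2 : qf (fun p q => θ * gam d (j s) (h s) (e p) (e q)) v =
        θ * ∑ p, ∑ q, v (e.symm p) * v (e.symm q) * gam d (j s) (h s) p q := by
      rw [qf, Finset.mul_sum]
      refine (Finset.sum_congr rfl fun p _ => ?_).trans (Equiv.sum_comp e fun p =>
        θ * ∑ q, v (e.symm p) * v (e.symm q) * gam d (j s) (h s) p q)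
      rw [Finset.mul_sum]
      refine (Finset.sum_congr rfl fun q _ => ?_).trans (Equiv.sum_comp e fun q =>
        θ * (v (e.symm (e p)) * v (e.symm q) * gam d (j s) (h s) (e p) q))
      rw [Equiv.symm_apply_apply, Equiv.symm_apply_apply]
      ring
    show 0 ≤ qf (fun p q => θ * gam d (j s) (h s) (e p) (e q)) v
    rw [h2]
    exact mul_nonneg hθ0.le h1
  · intro s hs a
    show θ * cd ≤ θ * gam d (j s) (h s) (e (a, z0)) (e (a, z0))
    rw [ez]
    exact mul_le_mul_of_nonneg_left (hdg s hs a) hθ0.le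
  · show ∑ a, ∑ b, w a * w b * (θ * gam d (j k) (h k) (e (a, z0)) (e (b, z0))) ≤ 0
    have h3 : ∑ a, ∑ b, w a * w b * (θ * gam d (j k) (h k) (e (a, z0)) (e (b, z0))) =
        θ * ∑ a, ∑ b, w a * w b * gam d (j k) (h k) (a, z) (b, z) := by
      rw [Finset.mul_sum]
      refine Finset.sum_congr rfl fun a _ => ?_
      rw [Finset.mul_sum]
      refine Finset.sum_congr rfl fun b _ => ?_
      rw [ez, ez]
      ring
    rw [h3]
    exact mul_nonpos_of_nonneg_of_nonpos hθ0.le he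

end Pool.Agent.RI
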