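import Mathlib
import Pool.Agent.RI.Pre

set_option autoImplicit false

/-!
# The truncated distance
-/

namespace Pool.Agent.RI.JL

open Polynomial Pool.Agent.RDF Pool.Agent.RI

section

variable {L : Type*} [Field L] (abv : AbsoluteValue L ℝ)

theorem JJ_le (Λ : ℝ) (x y : L × L) : JJ abv Λ x y ≤ Λ := by
  have h := Real.log_le_log (Real.exp_pos (-Λ))
    (le_max_right (abv (wedge x y) / (nrm abv x * nrm abv y)) (Real.exp (-Λ)))
  rw [Real.log_exp] at h
  rw [JJ]
  linarith

theorem JJ_comm (Λ : ℝ) (x y : L × L) : JJ abv Λ x y = JJ abv Λ y x := by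
  rw [JJ, JJ, wedge_comm, abv.map_neg, mul_comm (nrm abv x)]

theorem ratio_le_two (x y : L × L) : abv (wedge x y) / (nrm abv x * nrm abv y) ≤ 2 := by
  refine div_le_of_le_mul₀ (mul_nonneg (nrm_nonneg _ _) (nrm_nonneg _ _)) (by norm_num) ?_
  exact abv_wedge_le abv x y

theorem JJ_ge {Λ : ℝ} (hΛ : 0 ≤ Λ) (x y : L × L) : -Real.log 2 ≤ JJ abv Λ x y := by
  rw [JJ, neg_le_neg_iff]
  refine Real.log_le_log (lt_max_of_lt_right (Real.exp_pos _)) (max_le (ratio_le_two abv x y) ?_)
  refine (Real.exp_le_one_iff.2 (by linarith)).trans (by norm_num)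

/-- The ratio itself if it is not truncated. -/
theorem JJ_eq {Λ : ℝ} {x y : L × L} (h : JJ abv Λ x y < Λ) : wedge x y ≠ 0 ∧
    JJ abv Λ x y = -Real.log (abv (wedge x y) / (nrm abv x * nrm abv y)) := by
  have h1 : Real.exp (-Λ) < abv (wedge x y) / (nrm abv x * nrm abv y) := by
    by_contra hcon
    rw [not_lt] at hcon
    rw [JJ, max_eq_right hcon, Real.log_exp] at h
    linarith
  refine ⟨?_, by rw [JJ, max_eq_left h1.le]⟩
  intro h0
  rw [h0, map_zero, zero_div] at h1
  exact absurd h1 (not_lt.2 (Real.exp_pos _).le)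

/-- `JJ` in terms of the wedge and the norms if it is not truncated. -/
theorem JJ_eq' {Λ : ℝ} {x y : L × L} (hx : x ≠ 0) (hy : y ≠ 0) (h : JJ abv Λ x y < Λ) :
    wedge x y ≠ 0 ∧
    JJ abv Λ x y = -Real.log (abv (wedge x y)) + Real.log (nrm abv x) + Real.log (nrm abv y) := by
  obtain ⟨h0, h1⟩ := JJ_eq abv h
  refine ⟨h0, ?_⟩
  rw [h1, Real.log_div (abv.pos h0).ne' (mul_pos (nrm_pos abv hx) (nrm_pos abv hy)).ne',
    Real.log_mul (nrm_pos abv hx).ne' (nrm_pos abv hy).ne']
  ring

/-- In all cases `JJ` is at most the untruncated value. -/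
theorem JJ_le_log {Λ : ℝ} {x y : L × L} (hx : x ≠ 0) (hy : y ≠ 0) (h : wedge x y ≠ 0) :
    JJ abv Λ x y ≤ -Real.log (abv (wedge x y)) + Real.log (nrm abv x) + Real.log (nrm abv y) := by
  have hn := mul_pos (nrm_pos abv hx) (nrm_pos abv hy)
  have h1 : Real.log (abv (wedge x y) / (nrm abv x * nrm abv y)) ≤
      Real.log (max (abv (wedge x y) / (nrm abv x * nrm abv y)) (Real.exp (-Λ))) :=
    Real.log_le_log (div_pos (abv.pos h) hn) (le_max_left _ _)
  rw [Real.log_div (abv.pos h).ne' hn.ne', Real.log_mul (nrm_pos abv hx).ne'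
    (nrm_pos abv hy).ne'] at h1
  rw [JJ]
  linarith

/-- The untruncated value, truncated. -/
theorem JJ_eq_min {Λ : ℝ} {x y : L × L} (hx : x ≠ 0) (hy : y ≠ 0) (h : wedge x y ≠ 0) :
    JJ abv Λ x y =
      min (-Real.log (abv (wedge x y)) + Real.log (nrm abv x) + Real.log (nrm abv y)) Λ := by
  rcases lt_or_ge (JJ abv Λ x y) Λ with h1 | h1
  · rw [← (JJ_eq' abv hx hy h1).2, min_eq_left h1.le]
  · have h2 := JJ_le abv Λ x y
    have h3 := JJ_le_log abv (Λ := Λ) hx hy h
    rw [min_eq_right (h1.trans h3)]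
    exact le_antisymm h2 h1

theorem nrm_smul_wedge (x y z : L × L) :
    abv (wedge x z) * nrm abv y ≤ abv (wedge x y) * nrm abv z + abv (wedge y z) * nrm abv x := by
  have key : ∀ (u v w : L), wedge x z * v = wedge x y * w + wedge y z * u →
      abv u ≤ nrm abv x → abv w ≤ nrm abv z →
      abv (wedge x z) * abv v ≤ abv (wedge x y) * nrm abv z + abv (wedge y z) * nrm abv x := by
    intro u v w h hu hw
    rw [← map_mul, h]
    refine (abv.add_le _ _).trans ?_
    rw [map_mul, map_mul]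
    exact add_le_add (mul_le_mul_of_nonneg_left hw (abv.nonneg _))
      (mul_le_mul_of_nonneg_left hu (abv.nonneg _))
  have h1 := key x.1 y.1 z.1 (by simp only [wedge]; ring) (le_max_left _ _) (le_max_left _ _)
  have h2 := key x.2 y.2 z.2 (by simp only [wedge]; ring) (le_max_right _ _) (le_max_right _ _)
  rw [nrm, nrm, nrm] at *
  rcases max_choice (abv y.1) (abv y.2) with h | h
  · rw [h]; exact h1
  · rw [h]; exact h2

theorem ratio_tri {x y z : L × L} (hx : x ≠ 0) (hy : y ≠ 0) (hz : z ≠ 0) :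
    abv (wedge x z) / (nrm abv x * nrm abv z) ≤
      abv (wedge x y) / (nrm abv x * nrm abv y) + abv (wedge y z) / (nrm abv y * nrm abv z) := by
  have h1 := nrm_pos abv hx
  have h2 := nrm_pos abv hy
  have h3 := nrm_pos abv hz
  have h := nrm_smul_wedge abv x y z
  have e : abv (wedge x y) / (nrm abv x * nrm abv y) + abv (wedge y z) / (nrm abv y * nrm abv z) =
      (abv (wedge x y) * nrm abv z + abv (wedge y z) * nrm abv x) /
        (nrm abv x * nrm abv y * nrm abv z) := by
    field_simp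
  rw [e, div_le_div_iff₀ (by positivity) (by positivity)]
  nlinarith [mul_pos h1 h3]

/-- The ultrametric inequality of the truncated distance up to `log 2`. -/
theorem JJ_tri (Λ : ℝ) {x y z : L × L} (hx : x ≠ 0) (hy : y ≠ 0) (hz : z ≠ 0) :
    min (JJ abv Λ x y) (JJ abv Λ y z) - Real.log 2 ≤ JJ abv Λ x z := by
  have h := ratio_tri abv hx hy hz
  set a := abv (wedge x z) / (nrm abv x * nrm abv z) with ha
  set b := abv (wedge x y) / (nrm abv x * nrm abv y) with hb
  set c := abv (wedge y z) / (nrm abv y * nrm abv z) with hc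
  set e := Real.exp (-Λ) with he
  have he0 : 0 < e := Real.exp_pos _
  have hm : 0 < max (max b e) (max c e) := lt_max_of_lt_left (lt_max_of_lt_right he0)
  have h1 : max a e ≤ 2 * max (max b e) (max c e) := by
    have h2 : b ≤ max (max b e) (max c e) := (le_max_left _ _).trans (le_max_left _ _)
    have h3 : c ≤ max (max b e) (max c e) := (le_max_left _ _).trans (le_max_right _ _)
    have h4 : e ≤ max (max b e) (max c e) := (le_max_right _ _).trans (le_max_left _ _)
    refine max_le (by linarith) (by linarith)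
  have h2 := Real.log_le_log (lt_max_of_lt_right he0) h1
  rw [Real.log_mul (by norm_num) hm.ne'] at h2
  rw [JJ, JJ, JJ, ← ha, ← hb, ← hc, ← he]
  rcases max_choice (max b e) (max c e) with h3 | h3
  · rw [h3] at h2
    have := min_le_left (-Real.log (max b e)) (-Real.log (max c e))
    linarith
  · rw [h3] at h2
    have := min_le_right (-Real.log (max b e)) (-Real.log (max c e))
    linarith

/-- The pairing in terms of `JJ` if it is not truncated. -/
theorem gg_eq_JJ (d : ℕ) (F G : L[X]) {Λ : ℝ} {x y : L × L} (hx : x ≠ 0) (hy : y ≠ 0)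
    (h : JJ abv Λ x y < Λ) :
    gg abv d F G x y = JJ abv Λ x y - Real.log (nrm abv x) - Real.log (nrm abv y) -
      Real.log (abv (resultant F G d d)) / (d * (d - 1)) := by
  rw [gg, (JJ_eq' abv hx hy h).2]
  ring

/-- In all cases the pairing is at least the truncated one. -/
theorem JJ_le_gg (d : ℕ) (F G : L[X]) {Λ : ℝ} {x y : L × L} (hx : x ≠ 0) (hy : y ≠ 0)
    (h : wedge x y ≠ 0) :
    JJ abv Λ x y - Real.log (nrm abv x) - Real.log (nrm abv y) -
      Real.log (abv (resultant F G d d)) / (d * (d - 1)) ≤ gg abv d F G x y := by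
  have := JJ_le_log abv (Λ := Λ) hx hy h
  rw [gg]
  linarith

end

/-- The pairing in terms of `JJ`, `λ` and the heights. -/
theorem Dat.g_eq_JJ {d : ℕ} (D : Dat d) {Λ : ℝ} {x y : D.Om × D.Om} (hx : x ≠ 0) (hy : y ≠ 0)
    (h : JJ D.abv Λ x y < Λ) :
    D.g x y = JJ D.abv Λ x y - Real.log (nrm D.abv x) - Real.log (nrm D.abv y) +
      D.lam / (d * (d - 1)) := by
  rw [Dat.g, gg_eq_JJ D.abv d D.F D.G hx hy h, Dat.lam]
  ring

theorem Dat.JJ_le_g {d : ℕ} (D : Dat d) {Λ : ℝ} {x y : D.Om × D.Om} (hx : x ≠ 0) (hy : y ≠ 0)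
    (h : wedge x y ≠ 0) :
    JJ D.abv Λ x y - Real.log (nrm D.abv x) - Real.log (nrm D.abv y) +
      D.lam / (d * (d - 1)) ≤ D.g x y := by
  have := JJ_le_gg D.abv d D.F D.G (Λ := Λ) hx hy h
  rw [Dat.g, Dat.lam, neg_div]
  linarith

end Pool.Agent.RI.JL
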