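import Pool.Agent.RI.Tree
import Pool.Agent.RI.Ramsey
import Pool.Agent.RI.Cop
import Pool.Agent.RI.LimP

/-!
# Theorem R-infinity, section 1: limits of families of vectors

`Arr P d C`: for every `n` the numbers `|x_u ∧ x_v|`, `‖x_u‖` of a family of vectors
`x_u`, `u = (index < n, label)`, of a reduced map with `lam n ≥ n`.
`exists_Lim`: a tree kernel `j`, a function `h` on the labels, approximated on large sets of
indices; `gam p q = j p q - h p - h q + 1 / (d (d - 1))` is the limit of `g / lam` on free pairs and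
copositive on free sets of labels.
-/

set_option autoImplicit false

namespace Pool.Agent.RI.LA

open Finset Filter Topology Pool.Agent.RI

/-- `-log max (W / (N N'), exp (- Lam lam))`, divided by `lam`. -/
noncomputable def Jt (Lam lam W N N' : ℝ) : ℝ :=
  -Real.log (max (W / (N * N')) (Real.exp (-(Lam * lam)))) / lam

section Jt

variable {Lam lam W N N' : ℝ}

theorem Jt_le (hl : 0 < lam) : Jt Lam lam W N N' ≤ Lam := by
  rw [Jt, div_le_iff₀ hl, neg_le]
  have h := Real.log_le_log (Real.exp_pos _) (le_max_right (W / (N * N')) (Real.exp (-(Lam * lam))))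
  rwa [Real.log_exp] at h

theorem Jt_ge (hl : 0 < lam) (hLam : 0 ≤ Lam) (hN : 0 < N) (hN' : 0 < N')
    (hW : W ≤ 2 * (N * N')) : -(1 / lam) ≤ Jt Lam lam W N N' := by
  have h1 : max (W / (N * N')) (Real.exp (-(Lam * lam))) ≤ 2 := by
    refine max_le ?_ ?_
    · rw [div_le_iff₀ (mul_pos hN hN')]
      exact hW
    · have : Real.exp (-(Lam * lam)) ≤ 1 := by
        rw [Real.exp_le_one_iff]
        have := mul_nonneg hLam hl.le
        linarith
      linarith
  have h2 : Real.log (max (W / (N * N')) (Real.exp (-(Lam * lam)))) ≤ 1 := by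
    have h3 := Real.log_le_log (lt_of_lt_of_le (Real.exp_pos _) (le_max_right _ _)) h1
    have h4 := Real.log_two_lt_d9
    linarith
  rw [Jt, neg_div, neg_le_neg_iff]
  exact div_le_div_of_nonneg_right h2 hl.le

theorem Jt_symm : Jt Lam lam W N N' = Jt Lam lam W N' N := by
  rw [Jt, Jt, mul_comm N N']

/-- no truncation below `Lam` -/
theorem Jt_free (hl : 0 < lam) (hN : 0 < N) (hN' : 0 < N') (hW : 0 ≤ W)
    (h : Jt Lam lam W N N' < Lam) :
    0 < W ∧ Jt Lam lam W N N' = (-Real.log W + Real.log N + Real.log N') / lam := by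
  have h1 : Real.exp (-(Lam * lam)) < W / (N * N') := by
    by_contra hc
    rw [not_lt] at hc
    rw [Jt, max_eq_right hc, Real.log_exp, neg_neg, mul_div_assoc, div_self hl.ne', mul_one] at h
    exact lt_irrefl _ h
  have hNN := mul_pos hN hN'
  have h2 : 0 < W := by
    have h3 : 0 < W / (N * N') := lt_trans (Real.exp_pos _) h1
    rcases hW.eq_or_lt with h0 | h0
    · rw [← h0, zero_div] at h3
      exact absurd h3 (lt_irrefl _)
    · exact h0
  refine ⟨h2, ?_⟩
  rw [Jt, max_eq_left h1.le, Real.log_div h2.ne' hNN.ne', Real.log_mul hN.ne' hN'.ne']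
  ring_nf

/-- the truncated value is at most the true one -/
theorem Jt_le_true (hl : 0 < lam) (hN : 0 < N) (hN' : 0 < N') (hW : 0 < W) :
    Jt Lam lam W N N' ≤ (-Real.log W + Real.log N + Real.log N') / lam := by
  have hNN := mul_pos hN hN'
  rw [Jt]
  refine div_le_div_of_nonneg_right ?_ hl.le
  have h1 := Real.log_le_log (div_pos hW hNN) (le_max_left (W / (N * N')) (Real.exp (-(Lam * lam))))
  rw [Real.log_div hW.ne' hNN.ne', Real.log_mul hN.ne' hN'.ne'] at h1
  linarith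

/-- the ultrametric inequality up to `1 / lam` -/
theorem Jt_tri {Nu Nv Nw Wuv Wvw Wuw : ℝ} (hl : 0 < lam) (hu : 0 < Nu) (hv : 0 < Nv) (hw : 0 < Nw)
    (h : Wuw * Nv ≤ Wuv * Nw + Wvw * Nu) :
    min (Jt Lam lam Wuv Nu Nv) (Jt Lam lam Wvw Nv Nw) - 1 / lam ≤ Jt Lam lam Wuw Nu Nw := by
  set E := Real.exp (-(Lam * lam)) with hE
  have hE0 : 0 < E := Real.exp_pos _
  have h1 : Wuw / (Nu * Nw) ≤ Wuv / (Nu * Nv) + Wvw / (Nv * Nw) := by
    rw [div_add_div _ _ (mul_pos hu hv).ne' (mul_pos hv hw).ne', div_le_div_iff₀ (mul_pos hu hw)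
      (mul_pos (mul_pos hu hv) (mul_pos hv hw))]
    have h2 := mul_le_mul_of_nonneg_left h (mul_pos (mul_pos hu hv) hw).le
    nlinarith [h2]
  have h2 : max (Wuw / (Nu * Nw)) E ≤
      2 * max (max (Wuv / (Nu * Nv)) E) (max (Wvw / (Nv * Nw)) E) := by
    set M := max (max (Wuv / (Nu * Nv)) E) (max (Wvw / (Nv * Nw)) E) with hM
    have ha : Wuv / (Nu * Nv) ≤ M := (le_max_left _ _).trans (le_max_left _ _)
    have hb : Wvw / (Nv * Nw) ≤ M := (le_max_left _ _).trans (le_max_right _ _)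
    have hc : E ≤ M := (le_max_right _ _).trans (le_max_left _ _)
    refine max_le ?_ ?_ <;> linarith
  have hlog : Real.log (max (Wuw / (Nu * Nw)) E) ≤ 1 +
      max (Real.log (max (Wuv / (Nu * Nv)) E)) (Real.log (max (Wvw / (Nv * Nw)) E)) := by
    have hA : 0 < max (Wuv / (Nu * Nv)) E := lt_of_lt_of_le hE0 (le_max_right _ _)
    have hB : 0 < max (Wvw / (Nv * Nw)) E := lt_of_lt_of_le hE0 (le_max_right _ _)
    have h3 := Real.log_le_log (lt_of_lt_of_le hE0 (le_max_right _ _)) h2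
    have hM0 : 0 < max (max (Wuv / (Nu * Nv)) E) (max (Wvw / (Nv * Nw)) E) :=
      lt_of_lt_of_le hA (le_max_left _ _)
    rw [Real.log_mul two_ne_zero hM0.ne'] at h3
    have h4 := Real.log_two_lt_d9
    have h5 : Real.log (max (max (Wuv / (Nu * Nv)) E) (max (Wvw / (Nv * Nw)) E)) ≤
        max (Real.log (max (Wuv / (Nu * Nv)) E)) (Real.log (max (Wvw / (Nv * Nw)) E)) := by
      rcases le_total (max (Wuv / (Nu * Nv)) E) (max (Wvw / (Nv * Nw)) E) with h6 | h6
      · rw [max_eq_right h6]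
        exact le_max_right _ _
      · rw [max_eq_left h6]
        exact le_max_left _ _
    linarith
  have h7 : min (Jt Lam lam Wuv Nu Nv) (Jt Lam lam Wvw Nv Nw) =
      -max (Real.log (max (Wuv / (Nu * Nv)) E)) (Real.log (max (Wvw / (Nv * Nw)) E)) / lam := by
    rw [Jt, Jt, ← hE, min_div_div_right hl.le, min_neg_neg]
  rw [h7, Jt, ← hE, ← sub_div]
  exact div_le_div_of_nonneg_right (by linarith) hl.le

end Jt

/-- The numbers `|x_u ∧ x_v|`, `‖x_u‖` of families of `n` vectors for every label, `n = 0, 1, ..`. -/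
structure Arr (P : Type*) (d : ℕ) (C : ℝ) where
  /-- `- log |R|` -/
  lam : ℕ → ℝ
  /-- `|x_u ∧ x_v|` -/
  W : ℕ → ℕ × P → ℕ × P → ℝ
  /-- `‖x_u‖` -/
  N : ℕ → ℕ × P → ℝ
  lam_ge : ∀ n : ℕ, (n : ℝ) ≤ lam n
  W_nonneg : ∀ n u v, 0 ≤ W n u v
  W_symm : ∀ n u v, W n u v = W n v u
  N_pos : ∀ n u, u.1 < n → 0 < N n u
  W_le : ∀ n u v, u.1 < n → v.1 < n → W n u v ≤ 2 * (N n u * N n v)
  W_tri : ∀ n u v w, u.1 < n → v.1 < n → w.1 < n →
    W n u w * N n v ≤ W n u v * N n w + W n v w * N n u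
  N_ge : ∀ n u, u.1 < n → -C ≤ Real.log (N n u)
  N_le : ∀ n u, u.1 < n → Real.log (N n u) ≤ (lam n + C) / ((d : ℝ) - 1)
  energy : ∀ (n m : ℕ) (x : Fin (d ^ m) → ℕ × P), (∀ a, (x a).1 < n) →
    (∀ a b, a ≠ b → W n (x a) (x b) ≠ 0) →
    -(2 * m * (d : ℝ) ^ m * (lam n + C)) - 2 * (d : ℝ) ^ m * Real.log ((d : ℝ) ^ m) ≤
      ∑ a, ∑ b ∈ univ.erase a, (-Real.log (W n (x a) (x b)) + lam n / (d * ((d : ℝ) - 1)))

namespace Arr

variable {P : Type*} {d : ℕ} {C : ℝ}

/-- `g(x_u, x_v)` -/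
noncomputable def g (A : Arr P d C) (n : ℕ) (u v : ℕ × P) : ℝ :=
  -Real.log (A.W n u v) + A.lam n / (d * ((d : ℝ) - 1))

/-- the truncated `J(x_u, x_v) / lam` -/
noncomputable def J (A : Arr P d C) (Lam : ℝ) (n : ℕ) (u v : ℕ × P) : ℝ :=
  Jt Lam (A.lam n) (A.W n u v) (A.N n u) (A.N n v)

theorem J_symm (A : Arr P d C) (Lam : ℝ) (n : ℕ) (u v : ℕ × P) : A.J Lam n u v = A.J Lam n v u := by
  rw [J, J, A.W_symm n u v, Jt_symm]

theorem lam_pos (A : Arr P d C) {n i : ℕ} (h : i < n) : 0 < A.lam n := by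
  have h1 : (1 : ℝ) ≤ n := by exact_mod_cast (by omega : 1 ≤ n)
  have := A.lam_ge n
  linarith

theorem one_le_lam (A : Arr P d C) {n i : ℕ} (h : i < n) : 1 ≤ A.lam n := by
  have h1 : (1 : ℝ) ≤ n := by exact_mod_cast (by omega : 1 ≤ n)
  have := A.lam_ge n
  linarith

theorem g_symm (A : Arr P d C) (n : ℕ) (u v : ℕ × P) : A.g n u v = A.g n v u := by
  rw [g, g, A.W_symm n u v]

end Arr

/-- The limit kernel on pairs. -/
noncomputable def gam {P : Type*} (d : ℕ) (j : P → P → ℝ) (h : P → ℝ) (p q : P) : ℝ :=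
  j p q - h p - h q + 1 / (d * ((d : ℝ) - 1))

/-- The limits of an array. -/
structure Lim {P : Type*} {d : ℕ} {C : ℝ} (A : Arr P d C) (Lam : ℝ) (j : P → P → ℝ)
    (h : P → ℝ) : Prop where
  tree : TreeK j
  j_le : ∀ p q, j p q ≤ Lam
  h_nonneg : ∀ p, 0 ≤ h p
  h_le : ∀ p, h p ≤ 1 / ((d : ℝ) - 1)
  app : ∀ ε : ℝ, 0 < ε → ∀ r m : ℕ, ∃ n : ℕ, m ≤ n ∧ r ≤ n ∧ ∃ f : Fin r → ℕ, StrictMono f ∧
    (∀ x, f x < n) ∧
    (∀ x y, x ≠ y → ∀ p q, |A.J Lam n (f x, p) (f y, q) - j p q| ≤ ε ∧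
      (j p q < Lam → 0 < A.W n (f x, p) (f y, q) ∧
        |A.g n (f x, p) (f y, q) / A.lam n - gam d j h p q| ≤ ε)) ∧
    ∀ x p, |Real.log (A.N n (f x, p)) / A.lam n - h p| ≤ ε

section main

variable {P : Type*} {d : ℕ} {C : ℝ}

theorem exists_gap [Finite P] (Lam : ℝ) (j : P → P → ℝ) :
    ∃ δ : ℝ, 0 < δ ∧ ∀ p q, j p q < Lam → j p q + δ < Lam := by
  have h1 : ∀ᶠ δ in 𝓝[>] (0 : ℝ), ∀ p q, j p q < Lam → j p q + δ < Lam := by
    rw [Filter.eventually_all]
    intro p
    rw [Filter.eventually_all]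
    intro q
    by_cases hpq : j p q < Lam
    · have h2 : ∀ᶠ δ in 𝓝[>] (0 : ℝ), δ < Lam - j p q :=
        (eventually_lt_nhds (by linarith)).filter_mono nhdsWithin_le_nhds
      filter_upwards [h2] with δ hδ _
      linarith
    · exact Filter.Eventually.of_forall fun δ h => absurd h hpq
  obtain ⟨δ, h2, h3⟩ := (h1.and self_mem_nhdsWithin).exists
  exact ⟨δ, h3, h2⟩

/-- **Existence of limits**: (1.1), (1.2) and (APP). -/
theorem exists_Lim [Finite P] (hd : 2 ≤ d) (hC : 0 ≤ C) (A : Arr P d C) (Lam : ℝ)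
    (hLam : 0 ≤ Lam) : ∃ j h, Lim A Lam j h := by
  classical
  have hd1 : (1 : ℝ) ≤ (d : ℝ) - 1 := by
    have : (2 : ℝ) ≤ d := by exact_mod_cast hd
    linarith
  have hJge : ∀ n u v, u.1 < n → v.1 < n → -(1 / A.lam n) ≤ A.J Lam n u v := fun n u v hu hv =>
    Jt_ge (A.lam_pos hu) hLam (A.N_pos n u hu) (A.N_pos n v hv) (A.W_le n u v hu hv)
  have hJle : ∀ n u v, u.1 < n → A.J Lam n u v ≤ Lam := fun n u v hu => Jt_le (A.lam_pos hu)
  have hinv : ∀ n i : ℕ, i < n → 1 / A.lam n ≤ 1 / (n : ℝ) := fun n i hi =>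
    one_div_le_one_div_of_le (by exact_mod_cast (by omega : 0 < n)) (A.lam_ge n)
  have hinv1 : ∀ n i : ℕ, i < n → 1 / A.lam n ≤ 1 := fun n i hi => by
    rw [div_le_one (A.lam_pos hi)]
    exact A.one_le_lam hi
  have hNge : ∀ n u, u.1 < n → -(C * (1 / A.lam n)) ≤ Real.log (A.N n u) / A.lam n := by
    intro n u hu
    rw [mul_one_div, ← neg_div]
    exact div_le_div_of_nonneg_right (A.N_ge n u hu) (A.lam_pos hu).le
  have hNle : ∀ n u, u.1 < n → Real.log (A.N n u) / A.lam n ≤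
      1 / ((d : ℝ) - 1) + C * (1 / A.lam n) := by
    intro n u hu
    have hl := A.lam_pos hu
    rw [div_le_iff₀ hl]
    refine (A.N_le n u hu).trans ?_
    have e : (1 / ((d : ℝ) - 1) + C * (1 / A.lam n)) * A.lam n = A.lam n / ((d : ℝ) - 1) + C := by
      field_simp
    rw [e, add_div]
    have : C / ((d : ℝ) - 1) ≤ C := div_le_self hC hd1
    linarith
  obtain ⟨j0, h, hj0, hh0, happ⟩ := exists_limits (ι := P × P) (κ := P) (-(1 + C)) (Lam + 1 + C)
    (fun n i i' e => A.J Lam n (i, e.1) (i', e.2)) (fun n i p => Real.log (A.N n (i, p)) / A.lam n)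
    (by
      intro n i i' hii hn e
      have hi : i < n := hii.trans hn
      have h1 := hJge n (i, e.1) (i', e.2) hi hn
      have h2 := hJle n (i, e.1) (i', e.2) hi
      have h3 := hinv1 n i hi
      constructor <;> linarith)
    (by
      intro n i hi p
      have h1 := hNge n (i, p) hi
      have h2 := hNle n (i, p) hi
      have h3 := hinv1 n i hi
      have h4 : C * (1 / A.lam n) ≤ C * 1 := mul_le_mul_of_nonneg_left h3 hC
      have h5 : 1 / ((d : ℝ) - 1) ≤ 1 := by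
        rw [div_le_one (by linarith)]
        exact hd1
      constructor <;> linarith)
  set j : P → P → ℝ := fun p q => j0 (p, q) with hj
  -- the form with `m ≤ n`
  have happ' : ∀ ε : ℝ, 0 < ε → ∀ r m : ℕ, ∃ n : ℕ, m ≤ n ∧ r ≤ n ∧ ∃ f : Fin r → ℕ,
      StrictMono f ∧ (∀ x, f x < n) ∧
      (∀ x y, x < y → ∀ p q, |A.J Lam n (f x, p) (f y, q) - j p q| ≤ ε) ∧
      ∀ x p, |Real.log (A.N n (f x, p)) / A.lam n - h p| ≤ ε := by
    intro ε hε r m
    obtain ⟨n, hn, f, hf, hfn, h1, h2⟩ := happ ε hε (max r m)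
    have hemb : r ≤ max r m := le_max_left _ _
    refine ⟨n, (le_max_right _ _).trans hn, hemb.trans hn, fun x => f (Fin.castLE hemb x),
      fun x y hxy => hf (Fin.strictMono_castLE hemb hxy), fun x => hfn _, ?_, fun x p => h2 _ _⟩
    intro x y hxy p q
    exact h1 _ _ (Fin.strictMono_castLE hemb hxy) (p, q)
  have hδ : Tendsto (fun n : ℕ => 1 / (n : ℝ)) atTop (𝓝 0) := tendsto_const_div_atTop_nhds_zero_nat 1
  obtain ⟨t1, t2, t3⟩ := lim_tree (A.J Lam) (fun n => 1 / (n : ℝ)) hδ (A.J_symm Lam)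
    (fun n x y hx hy _ => (neg_le_neg (hinv n x.1 hx)).trans (hJge n x y hx hy))
    (fun n x y z hx hy hz _ _ _ => by
      have h1 := Jt_tri (Lam := Lam) (A.lam_pos hx) (A.N_pos n x hx) (A.N_pos n y hy)
        (A.N_pos n z hz) (A.W_tri n x y z hx hy hz)
      have h2 := hinv n x.1 hx
      simp only [Arr.J]
      linarith) j
    (fun ε hε r m P0 => by
      obtain ⟨n, hn, hr, f, hf, hfn, h1, h2⟩ := happ' ε hε r m
      exact ⟨n, hn, f, hf, hfn, fun a b hab p _ q _ => h1 a b hab p q⟩)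
  have hT : TreeK j := ⟨t1, t2, t3⟩
  have happ'' : ∀ ε : ℝ, 0 < ε → ∀ r m : ℕ, ∃ n : ℕ, m ≤ n ∧ r ≤ n ∧ ∃ f : Fin r → ℕ,
      StrictMono f ∧ (∀ x, f x < n) ∧
      (∀ x y, x ≠ y → ∀ p q, |A.J Lam n (f x, p) (f y, q) - j p q| ≤ ε) ∧
      ∀ x p, |Real.log (A.N n (f x, p)) / A.lam n - h p| ≤ ε := by
    intro ε hε r m
    obtain ⟨n, hn, hr, f, hf, hfn, h1, h2⟩ := happ' ε hε r m
    refine ⟨n, hn, hr, f, hf, hfn, fun x y hxy p q => ?_, h2⟩
    rcases lt_or_gt_of_ne hxy with h3 | h3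
    · exact h1 x y h3 p q
    · rw [A.J_symm, hT.symm]
      exact h1 y x h3 q p
  have hsmall : ∀ ε : ℝ, 0 < ε → ∃ m : ℕ, ∀ n : ℕ, m ≤ n → C * (1 / (n : ℝ)) ≤ ε := by
    intro ε hε
    have h1 : Tendsto (fun n : ℕ => C * (1 / (n : ℝ))) atTop (𝓝 0) := by
      simpa using hδ.const_mul C
    obtain ⟨m, hm⟩ := eventually_atTop.1 ((tendsto_order.1 h1).2 ε hε)
    exact ⟨m, fun n hn => (hm n hn).le⟩
  refine ⟨j, h, hT, ?_, ?_, ?_, ?_⟩
  · intro p q
    refine le_of_forall_pos_le_add fun ε hε => ?_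
    obtain ⟨n, hn, hr, f, hf, hfn, h1, h2⟩ := happ'' ε hε 2 0
    have h3 := h1 0 1 (by decide) p q
    have h4 := hJle n (f 0, p) (f 1, q) (hfn 0)
    rw [abs_le] at h3
    linarith [h3.1]
  · intro p
    refine le_of_forall_pos_le_add fun ε hε => ?_
    obtain ⟨m, hm⟩ := hsmall (ε / 2) (by linarith)
    obtain ⟨n, hn, hr, f, hf, hfn, h1, h2⟩ := happ'' (ε / 2) (by linarith) 1 m
    have h3 := h2 0 p
    have h4 := hNge n (f 0, p) (hfn 0)
    have h5 := mul_le_mul_of_nonneg_left (hinv n _ (hfn 0)) hC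
    have h6 := hm n hn
    rw [abs_le] at h3
    linarith [h3.2]
  · intro p
    refine le_of_forall_pos_le_add fun ε hε => ?_
    obtain ⟨m, hm⟩ := hsmall (ε / 2) (by linarith)
    obtain ⟨n, hn, hr, f, hf, hfn, h1, h2⟩ := happ'' (ε / 2) (by linarith) 1 m
    have h3 := h2 0 p
    have h4 := hNle n (f 0, p) (hfn 0)
    have h5 := mul_le_mul_of_nonneg_left (hinv n _ (hfn 0)) hC
    have h6 := hm n hn
    rw [abs_le] at h3
    linarith [h3.1]
  · intro ε hε r m
    obtain ⟨δ, hδ0, hδ1⟩ := exists_gap Lam j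
    have hε' : 0 < min (ε / 3) (δ / 2) := lt_min (by linarith) (by linarith)
    obtain ⟨n, hn, hr, f, hf, hfn, h1, h2⟩ := happ'' _ hε' r m
    have he1 : min (ε / 3) (δ / 2) ≤ ε / 3 := min_le_left _ _
    have he2 : min (ε / 3) (δ / 2) ≤ δ / 2 := min_le_right _ _
    refine ⟨n, hn, hr, f, hf, hfn, fun x y hxy p q => ⟨?_, fun hpq => ?_⟩, fun x p => ?_⟩
    · exact (h1 x y hxy p q).trans (he1.trans (by linarith))
    · have h3 := h1 x y hxy p q
      have h4 := hδ1 p q hpq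
      have hlt : A.J Lam n (f x, p) (f y, q) < Lam := by
        rw [abs_le] at h3
        linarith [h3.2]
      obtain ⟨h5, h6⟩ := Jt_free (A.lam_pos (hfn x)) (A.N_pos n (f x, p) (hfn x))
        (A.N_pos n (f y, q) (hfn y)) (A.W_nonneg _ _ _) hlt
      refine ⟨h5, ?_⟩
      have hl := A.lam_pos (hfn x)
      have h7 : A.g n (f x, p) (f y, q) / A.lam n - gam d j h p q =
          (A.J Lam n (f x, p) (f y, q) - j p q) - (Real.log (A.N n (f x, p)) / A.lam n - h p) -
            (Real.log (A.N n (f y, q)) / A.lam n - h q) := by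
        have h8 : A.J Lam n (f x, p) (f y, q) = (-Real.log (A.W n (f x, p) (f y, q)) +
          Real.log (A.N n (f x, p)) + Real.log (A.N n (f y, q))) / A.lam n := h6
        rw [h8, Arr.g, gam]
        field_simp
        ring
      rw [h7]
      have h9 := h2 x p
      have h10 := h2 y q
      rw [abs_le] at h3 h9 h10 ⊢
      constructor <;> linarith [h3.1, h3.2, h9.1, h9.2, h10.1, h10.2]
    · exact (h2 x p).trans (he1.trans (by linarith))

variable {A : Arr P d C} {Lam : ℝ} {j : P → P → ℝ} {h : P → ℝ}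

theorem gam_symm (L : Lim A Lam j h) (p q : P) : gam d j h p q = gam d j h q p := by
  rw [gam, gam, L.tree.symm p q]
  ring

/-- `gam ≥ -2` -/
theorem gam_ge (hd : 2 ≤ d) (L : Lim A Lam j h) (p q : P) : -2 ≤ gam d j h p q := by
  have hd1 : (1 : ℝ) ≤ (d : ℝ) - 1 := by
    have : (2 : ℝ) ≤ d := by exact_mod_cast hd
    linarith
  have h1 : 1 / ((d : ℝ) - 1) ≤ 1 := by
    rw [div_le_one (by linarith)]
    exact hd1
  have h2 : 0 ≤ 1 / (d * ((d : ℝ) - 1)) := by positivity
  rw [gam]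
  linarith [L.tree.nonneg p q, L.h_le p, L.h_le q]

/-- An upper bound for the truncated `J` passes to the limit. -/
theorem Lim.j_le_of (L : Lim A Lam j h) (p q : P) (c : ℝ) (η : ℕ → ℝ)
    (hη : Tendsto η atTop (𝓝 0))
    (H : ∀ n i i', i < n → i' < n → i ≠ i' → A.J Lam n (i, p) (i', q) ≤ c + η n) : j p q ≤ c := by
  refine le_of_forall_pos_le_add fun ε hε => ?_
  obtain ⟨m, hm⟩ := eventually_atTop.1 ((tendsto_order.1 hη).2 (ε / 2) (by linarith))
  obtain ⟨n, hn, hr, f, hf, hfn, h1, h2⟩ := L.app (ε / 2) (by linarith) 2 m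
  have h3 := (h1 0 1 (by decide) p q).1
  have h4 := H n (f 0) (f 1) (hfn 0) (hfn 1) (hf.injective.ne (by decide))
  have h5 := hm n hn
  rw [abs_le] at h3
  linarith [h3.1]

/-- Linear inequalities between the `g` pass to the limit on free pairs. -/
theorem Lim.linear (L : Lim A Lam j h) {K : Type*} [Fintype K] (c : K → ℝ) (p q : K → P) (c0 : ℝ)
    (η : ℕ → ℝ) (hη : Tendsto η atTop (𝓝 0)) (hfree : ∀ k, j (p k) (q k) < Lam)
    (H : ∀ n i i', i < n → i' < n → i ≠ i' → (∀ k, 0 < A.W n (i, p k) (i', q k)) →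
      -(η n * A.lam n) ≤ ∑ k, c k * A.g n (i, p k) (i', q k) + c0 * A.lam n) :
    0 ≤ ∑ k, c k * gam d j h (p k) (q k) + c0 := by
  set B : ℝ := ∑ k, |c k| with hB
  have hB0 : 0 ≤ B := Finset.sum_nonneg fun k _ => abs_nonneg _
  refine le_of_forall_pos_le_add fun ε hε => ?_
  obtain ⟨m, hm⟩ := eventually_atTop.1 ((tendsto_order.1 hη).2 (ε / 2) (by linarith))
  have hε' : 0 < ε / (2 * (B + 1)) := by positivity
  obtain ⟨n, hn, hr, f, hf, hfn, h1, h2⟩ := L.app _ hε' 2 m
  have h01 : (0 : Fin 2) ≠ 1 := by decide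
  have h4 := H n (f 0) (f 1) (hfn 0) (hfn 1) (hf.injective.ne h01)
    (fun k => ((h1 0 1 h01 (p k) (q k)).2 (hfree k)).1)
  have h5 := hm n hn
  have hl := A.lam_pos (hfn 0)
  have h6 : -(η n) ≤ ∑ k, c k * (A.g n (f 0, p k) (f 1, q k) / A.lam n) + c0 := by
    have h7 : ∑ k, c k * (A.g n (f 0, p k) (f 1, q k) / A.lam n) + c0 =
        (∑ k, c k * A.g n (f 0, p k) (f 1, q k) + c0 * A.lam n) / A.lam n := by
      rw [add_div, Finset.sum_div, mul_div_assoc c0, div_self hl.ne', mul_one]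
      congr 1
      refine Finset.sum_congr rfl fun k _ => ?_
      ring
    rw [h7, le_div_iff₀ hl]
    linarith
  have h8 : ∑ k, c k * (A.g n (f 0, p k) (f 1, q k) / A.lam n) ≤
      ∑ k, c k * gam d j h (p k) (q k) + B * (ε / (2 * (B + 1))) := by
    rw [hB, Finset.sum_mul, ← Finset.sum_add_distrib]
    refine Finset.sum_le_sum fun k _ => ?_
    have h9 := ((h1 0 1 h01 (p k) (q k)).2 (hfree k)).2
    have h10 : c k * (A.g n (f 0, p k) (f 1, q k) / A.lam n) =
        c k * gam d j h (p k) (q k) +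
          c k * (A.g n (f 0, p k) (f 1, q k) / A.lam n - gam d j h (p k) (q k)) := by ring
    rw [h10]
    refine add_le_add le_rfl ((le_abs_self _).trans ?_)
    rw [abs_mul]
    exact mul_le_mul_of_nonneg_left h9 (abs_nonneg _)
  have h11 : B * (ε / (2 * (B + 1))) ≤ ε / 2 := by
    rw [mul_div_assoc', div_le_div_iff₀ (by positivity) (by positivity)]
    nlinarith
  linarith

/-- The energy inequality in the limit, for free families. -/
theorem Lim.energy (L : Lim A Lam j h) (hC : 0 ≤ C) (m : ℕ) (l : Fin (d ^ m) → P)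
    (hfree : ∀ a b, j (l a) (l b) < Lam) :
    -(2 * m * (d : ℝ) ^ m) ≤ ∑ a, ∑ b ∈ univ.erase a, gam d j h (l a) (l b) := by
  classical
  set N : ℝ := (d : ℝ) ^ m with hN
  have hN0 : 0 ≤ N := by positivity
  set D : ℝ := 2 * m * N * C + 2 * N * |Real.log N| with hD
  have hD0 : 0 ≤ D := by positivity
  refine le_of_forall_pos_le_add fun ε hε => ?_
  have hε' : 0 < ε / (2 * (N * N + 1)) := by positivity
  obtain ⟨M, hM⟩ := exists_nat_gt (2 * D / ε)
  obtain ⟨n, hn, hr, f, hf, hfn, h1, h2⟩ := L.app _ hε' (d ^ m) (max M 1)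
  have hn1 : (1 : ℝ) ≤ n := by exact_mod_cast (le_max_right M 1).trans hn
  have hnM : (M : ℝ) ≤ n := by exact_mod_cast (le_max_left M 1).trans hn
  have hl0 : 0 < A.lam n := lt_of_lt_of_le (by linarith) (A.lam_ge n)
  have h3 := A.energy n m (fun a => (f a, l a)) hfn
    (fun a b hab => ((h1 a b hab (l a) (l b)).2 (hfree a b)).1.ne')
  have h4 : (∑ a, ∑ b ∈ univ.erase a, A.g n (f a, l a) (f b, l b)) / A.lam n ≤
      (∑ a, ∑ b ∈ univ.erase a, gam d j h (l a) (l b)) + N * N * (ε / (2 * (N * N + 1))) := by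
    rw [Finset.sum_div]
    calc ∑ a, (∑ b ∈ univ.erase a, A.g n (f a, l a) (f b, l b)) / A.lam n
        ≤ ∑ a, ((∑ b ∈ univ.erase a, gam d j h (l a) (l b)) + N * (ε / (2 * (N * N + 1)))) := by
          refine Finset.sum_le_sum fun a _ => ?_
          rw [Finset.sum_div]
          calc ∑ b ∈ univ.erase a, A.g n (f a, l a) (f b, l b) / A.lam n
              ≤ ∑ b ∈ univ.erase a, (gam d j h (l a) (l b) + ε / (2 * (N * N + 1))) := by
                refine Finset.sum_le_sum fun b hb => ?_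
                have h5 := ((h1 a b (Finset.ne_of_mem_erase hb).symm (l a) (l b)).2 (hfree a b)).2
                rw [abs_le] at h5
                linarith [h5.2]
            _ = (∑ b ∈ univ.erase a, gam d j h (l a) (l b)) +
                ((univ.erase a).card : ℝ) * (ε / (2 * (N * N + 1))) := by
                rw [Finset.sum_add_distrib, Finset.sum_const, nsmul_eq_mul]
            _ ≤ _ := by
                refine add_le_add le_rfl (mul_le_mul_of_nonneg_right ?_ hε'.le)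
                have h5 : (univ.erase a).card ≤ d ^ m := by
                  refine (Finset.card_le_univ _).trans ?_
                  rw [Fintype.card_fin]
                rw [hN]
                exact_mod_cast h5
      _ = (∑ a, ∑ b ∈ univ.erase a, gam d j h (l a) (l b)) +
          N * N * (ε / (2 * (N * N + 1))) := by
          rw [Finset.sum_add_distrib, Finset.sum_const, Finset.card_univ, Fintype.card_fin,
            nsmul_eq_mul]
          push_cast
          rw [← hN]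
          ring
  have h5 : -(2 * m * N) - ε / 2 ≤
      (∑ a, ∑ b ∈ univ.erase a, A.g n (f a, l a) (f b, l b)) / A.lam n := by
    rw [le_div_iff₀ hl0]
    refine le_trans ?_ h3
    have h6 : D ≤ ε / 2 * A.lam n := by
      have h7 : 2 * D / ε ≤ A.lam n := by
        have := A.lam_ge n
        linarith
      rw [div_le_iff₀ hε] at h7
      linarith
    have h8 : 2 * N * Real.log N ≤ 2 * N * |Real.log N| :=
      mul_le_mul_of_nonneg_left (le_abs_self _) (by positivity)
    have h9 : (-(2 * m * N) - ε / 2) * A.lam n = -(2 * m * N * A.lam n) - ε / 2 * A.lam n := by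
      ring
    rw [h9]
    have h10 : 2 * (m : ℝ) * N * (A.lam n + C) = 2 * m * N * A.lam n + 2 * m * N * C := by ring
    rw [h10]
    linarith
  have h11 : N * N * (ε / (2 * (N * N + 1))) ≤ ε / 2 := by
    rw [mul_div_assoc', div_le_div_iff₀ (by positivity) (by positivity)]
    nlinarith [mul_nonneg hN0 hN0]
  linarith

/-- **(1.3)**: copositivity on weights with free support. -/
theorem Lim.copos [Fintype P] (hd : 2 ≤ d) (hC : 0 ≤ C) (L : Lim A Lam j h) (w : P → ℝ)
    (hw : ∀ p, 0 ≤ w p) (hfree : ∀ p q, w p ≠ 0 → w q ≠ 0 → j p q < Lam) :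
    0 ≤ qf (gam d j h) w := by
  classical
  have h1 := copositive_of_energy (Q := {p : P // w p ≠ 0})
    (fun p q => gam d j h p.1 q.1) (fun m => d ^ (m + 1)) (fun m => 2 * m + 2)
    (fun m => by
      have : 2 ^ 1 ≤ d ^ (m + 1) :=
        (Nat.pow_le_pow_left hd 1).trans (Nat.pow_le_pow_right (by omega) (by omega))
      simpa using this)
    (tendsto_energy_error d hd 2 2)
    (fun m l => by
      have h2 := L.energy hC (m + 1) (fun a => (l a).1) (fun a b => hfree _ _ (l a).2 (l b).2)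
      refine le_trans (le_of_eq ?_) h2
      push_cast
      ring)
    (fun p => w p.1) (fun p => hw p.1)
  have h2 : ∀ F : P → ℝ, (∀ p, w p = 0 → F p = 0) → ∑ p : {p : P // w p ≠ 0}, F p.1 = ∑ p, F p := by
    intro F hF
    rw [← Finset.sum_subtype (univ.filter fun p => w p ≠ 0) (fun p => by simp) F,
      Finset.sum_filter_of_ne]
    intro p _ hp h0
    exact hp (hF p h0)
  rw [qf]
  have h3 : ∑ p : {p : P // w p ≠ 0}, ∑ q : {p : P // w p ≠ 0}, w p.1 * w q.1 * gam d j h p.1 q.1 =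
      ∑ p, ∑ q, w p * w q * gam d j h p q := by
    rw [← h2 (fun p => ∑ q, w p * w q * gam d j h p q) (fun p hp => by simp [hp])]
    refine Finset.sum_congr rfl fun p _ => ?_
    exact h2 (fun q => w p.1 * w q * gam d j h p.1 q) (fun q hq => by simp [hq])
  rw [← h3]
  exact h1

end main

end Pool.Agent.RI.LA
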