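import Pool.Agent.RI.Exc
import Pool.Agent.RI.GDefs

set_option autoImplicit false

/-!
# The exceptional places: the interface of the local part
-/

namespace Pool.Agent.RI

open Polynomial
open Pool.Agent.RDF (lift wedge)

/-- From families on `Fin M` to finite sets. -/
theorem fam_set {α : Type} [DecidableEq α] {M T : ℕ} (U : Finset α) (hM : M ≤ U.card) :
    ∃ φ : Fin M ↪ α, (∀ i, φ i ∈ U) ∧ ∀ (e : Fin T → Fin M), StrictMono e →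
      ∃ ψ : Fin T ↪ α, (∀ i, ψ i = φ (e i)) ∧ Finset.univ.map ψ ⊆ U ∧
        (Finset.univ.map ψ).card = T := by
  have h1 : ∀ i : Fin M, (i : ℕ) < U.card := fun i => lt_of_lt_of_le i.2 hM
  let φ : Fin M ↪ α :=
    ⟨fun i => (U.equivFin.symm ⟨i, h1 i⟩ : α), fun i j h => by
      have h2 := U.equivFin.symm.injective (Subtype.ext h)
      rw [Fin.mk.injEq] at h2
      exact Fin.ext h2⟩
  refine ⟨φ, fun i => (U.equivFin.symm ⟨i, h1 i⟩).2, fun e he => ?_⟩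
  refine ⟨⟨fun i => φ (e i), fun i j h => he.injective (φ.injective h)⟩, fun i => rfl, ?_, ?_⟩
  · intro x hx
    rw [Finset.mem_map] at hx
    obtain ⟨i, -, rfl⟩ := hx
    exact (U.equivFin.symm ⟨e i, h1 (e i)⟩).2
  · rw [Finset.card_map, Finset.card_univ, Fintype.card_fin]

theorem sum_map_erase {α : Type} [DecidableEq α] {T : ℕ} (ψ : Fin T ↪ α) (Y : Finset (Fin T))
    (f : α → α → ℝ) : ∑ i ∈ Y.map ψ, ∑ j ∈ (Y.map ψ).erase i, f i j =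
      ∑ i ∈ Y, ∑ j ∈ Y.erase i, f (ψ i) (ψ j) := by
  rw [Finset.sum_map]
  refine Finset.sum_congr rfl fun i _ => ?_
  rw [← Finset.map_erase, Finset.sum_map]

theorem card_pairs {ι : Type*} [DecidableEq ι] (Y : Finset ι) (c : ℝ) :
    ∑ i ∈ Y, ∑ _j ∈ Y.erase i, c = (Y.card * (Y.card - 1) : ℝ) * c := by
  have h1 : ∀ i ∈ Y, ∑ _j ∈ Y.erase i, c = ((Y.card : ℝ) - 1) * c := by
    intro i hi
    rw [Finset.sum_const, nsmul_eq_mul, Finset.card_erase_of_mem hi,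
      Nat.cast_sub (Finset.card_pos.2 ⟨i, hi⟩), Nat.cast_one]
  rw [Finset.sum_congr rfl h1, Finset.sum_const, nsmul_eq_mul]
  ring

theorem gg_norm {Om : Type*} [NormedField Om] (d : ℕ) (F G : Om[X]) (x y : Om × Om) :
    gg (NormedField.toAbsoluteValue Om) d F G x y =
      -Real.log ‖wedge x y‖ - Real.log ‖resultant F G d d‖ / (d * (d - 1)) := rfl

theorem loc_exc (d N : ℕ) (hd : 2 ≤ d) (hN : 1 ≤ N) : ∃ (C₀ : ℝ) (T₀ : ℕ), 0 ≤ C₀ ∧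
    ∀ T : ℕ, ∃ M : ℕ, ∀ (Om : Type) [NormedField Om] [IsAlgClosed Om], PQ.Spr Om →
    ∀ F G : Om[X], F.natDegree ≤ d → G.natDegree ≤ d → resultant F G d d ≠ 0 →
    ∀ (α : Type) [DecidableEq α] (z : α → Fin N → Om × Om) (U : Finset α), M ≤ U.card →
    (∀ i ∈ U, ∀ a, PreV d F G (z i a)) →
    (∀ i ∈ U, ∀ j ∈ U, i ≠ j → ∀ a b, wedge (z i a) (z j b) ≠ 0) →
    ∃ U' ⊆ U, U'.card = T ∧ ∀ Y ⊆ U', T₀ ≤ Y.card → ∀ a : α → Fin N,
      ∑ i ∈ Y, ∑ j ∈ Y.erase i, Real.log ‖wedge (z i (a i)) (z j (a j))‖ ≤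
        (Y.card * (Y.card - 1) : ℝ) * (-Real.log ‖resultant F G d d‖ / (d * (d - 1))) +
          C₀ * (Y.card : ℝ) ^ 2 := by
  obtain ⟨C₀, T₀, hC₀, h⟩ := exc d N hd
  refine ⟨C₀, T₀, hC₀, fun T => ?_⟩
  obtain ⟨M, hM⟩ := h T
  refine ⟨M, fun Om _ _ _ F G hF hG hR α _ z U hU hz hw => ?_⟩
  obtain ⟨φ, hφ, hφe⟩ := fam_set (T := T) U hU
  obtain ⟨e, he, hY⟩ := hM Om (NormedField.toAbsoluteValue Om) F G hF hG hR
    (fun i a => z (φ i) a) (fun i a => hz _ (hφ i) a)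
    (fun i j hij a b => hw _ (hφ i) _ (hφ j) (fun h => hij (φ.injective h)) a b)
  obtain ⟨ψ, hψ, hψU, hψT⟩ := hφe e he
  refine ⟨_, hψU, hψT, fun Y hYU hYT a => ?_⟩
  obtain ⟨Y', -, rfl⟩ := Finset.subset_map_iff.1 hYU
  rw [Finset.card_map] at hYT ⊢
  have h1 := hY Y' hYT (fun i => a (ψ i))
  rw [sum_map_erase]
  have h2 : ∑ i ∈ Y', ∑ j ∈ Y'.erase i, gg (NormedField.toAbsoluteValue Om) d F G
      (z (φ (e i)) (a (ψ i))) (z (φ (e j)) (a (ψ j))) =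
      (Y'.card * (Y'.card - 1) : ℝ) * (-Real.log ‖resultant F G d d‖ / (d * (d - 1))) -
        ∑ i ∈ Y', ∑ j ∈ Y'.erase i, Real.log ‖wedge (z (ψ i) (a (ψ i))) (z (ψ j) (a (ψ j)))‖ := by
    rw [← card_pairs, ← Finset.sum_sub_distrib]
    refine Finset.sum_congr rfl fun i _ => ?_
    rw [← Finset.sum_sub_distrib]
    refine Finset.sum_congr rfl fun j _ => ?_
    rw [gg_norm, hψ i, hψ j]
    ring
  rw [h2] at h1
  linarith

theorem loc_cplx (d N : ℕ) (hd : 2 ≤ d) (hN : 1 ≤ N) (Lam : ℝ) : ∃ T₀ : ℕ,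
    ∀ T : ℕ, ∃ M : ℕ, ∀ F G : ℂ[X], F.natDegree ≤ d → G.natDegree ≤ d → resultant F G d d ≠ 0 →
    ∀ (α : Type) [DecidableEq α] (z : α → Fin N → ℂ × ℂ) (U : Finset α), M ≤ U.card →
    (∀ i ∈ U, ∀ a, PreV d F G (z i a)) →
    (∀ i ∈ U, ∀ j ∈ U, i ≠ j → ∀ a b, wedge (z i a) (z j b) ≠ 0) →
    ∃ U' ⊆ U, U'.card = T ∧ ∀ Y ⊆ U', T₀ ≤ Y.card → ∀ a : α → Fin N,
      ∑ i ∈ Y, ∑ j ∈ Y.erase i, Real.log ‖wedge (z i (a i)) (z j (a j))‖ ≤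
        (Y.card * (Y.card - 1) : ℝ) * (-Real.log ‖resultant F G d d‖ / (d * (d - 1))) -
          Lam * (Y.card : ℝ) ^ 2 := by
  obtain ⟨T₀, h⟩ := exc_C d N hd Lam
  refine ⟨T₀, fun T => ?_⟩
  obtain ⟨M, hM⟩ := h T
  refine ⟨M, fun F G hF hG hR α _ z U hU hz hw => ?_⟩
  obtain ⟨φ, hφ, hφe⟩ := fam_set (T := T) U hU
  obtain ⟨e, he, hY⟩ := hM F G hF hG hR
    (fun i a => z (φ i) a) (fun i a => hz _ (hφ i) a)
    (fun i j hij a b => hw _ (hφ i) _ (hφ j) (fun h => hij (φ.injective h)) a b)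
  obtain ⟨ψ, hψ, hψU, hψT⟩ := hφe e he
  refine ⟨_, hψU, hψT, fun Y hYU hYT a => ?_⟩
  obtain ⟨Y', -, rfl⟩ := Finset.subset_map_iff.1 hYU
  rw [Finset.card_map] at hYT ⊢
  have h1 := hY Y' hYT (fun i => a (ψ i))
  rw [sum_map_erase]
  have h2 : ∑ i ∈ Y', ∑ j ∈ Y'.erase i, gg (NormedField.toAbsoluteValue ℂ) d F G
      (z (φ (e i)) (a (ψ i))) (z (φ (e j)) (a (ψ j))) =
      (Y'.card * (Y'.card - 1) : ℝ) * (-Real.log ‖resultant F G d d‖ / (d * (d - 1))) -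
        ∑ i ∈ Y', ∑ j ∈ Y'.erase i, Real.log ‖wedge (z (ψ i) (a (ψ i))) (z (ψ j) (a (ψ j)))‖ := by
    rw [← card_pairs, ← Finset.sum_sub_distrib]
    refine Finset.sum_congr rfl fun i _ => ?_
    rw [← Finset.sum_sub_distrib]
    refine Finset.sum_congr rfl fun j _ => ?_
    rw [gg_norm, hψ i, hψ j]
    ring
  rw [h2] at h1
  linarith

end Pool.Agent.RI
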