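import Mathlib

/-!
# Iterated limits of arrays (a substitute for the theorem of Ramsey)

For every `n` an array `v n i j q` (`i < j < n`), `u n i p` (`i < n`), `c n s` of bounded real
numbers is given. Then there are numbers `v' q`, `u' p`, `c' s` such that for suitable large `n` and
as many indices `e 0 < e 1 < ..` as we want all the values `v n (e a) (e b) q`, `a < b`, are near
`v' q`, the `u n (e a) p` near `u' p`, the `c n s` near `c' s`.
-/

set_option autoImplicit false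

namespace Pool.Agent.RI

open Filter Topology

theorem RamseyU.exists_lim (U : Ultrafilter ℕ) (f : ℕ → ℝ) (B : ℝ)
    (h : ∀ᶠ n in (U : Filter ℕ), |f n| ≤ B) :
    ∃ x : ℝ, |x| ≤ B ∧ Tendsto f (U : Filter ℕ) (𝓝 x) := by
  have h1 : IsCompact (Set.Icc (-B) B) := isCompact_Icc
  rw [isCompact_iff_ultrafilter_le_nhds] at h1
  obtain ⟨x, hx, hx'⟩ := h1 (U.map f) (by
    rw [Filter.le_principal_iff]
    exact h.mono fun n hn => abs_le.1 hn)
  exact ⟨x, abs_le.2 hx, hx'⟩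

theorem exists_limit_u {Q P S : Type*} (Bv : Q → ℝ) (Bu : P → ℝ) (Bc : S → ℝ)
    (v : ℕ → ℕ → ℕ → Q → ℝ) (u : ℕ → ℕ → P → ℝ) (c : ℕ → S → ℝ)
    (hv : ∀ n i j q, i < j → j < n → |v n i j q| ≤ Bv q)
    (hu : ∀ n i p, i < n → |u n i p| ≤ Bu p) (hc : ∀ n s, |c n s| ≤ Bc s) :
    ∃ (v' : Q → ℝ) (u' : P → ℝ) (c' : S → ℝ),
      (∀ q, |v' q| ≤ Bv q) ∧ (∀ p, |u' p| ≤ Bu p) ∧ (∀ s, |c' s| ≤ Bc s) ∧
      ∀ ε : ℝ, 0 < ε → ∀ (r m : ℕ) (Q0 : Finset Q) (P0 : Finset P) (S0 : Finset S),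
      ∃ n : ℕ, m ≤ n ∧ ∃ e : Fin r → ℕ, StrictMono e ∧ (∀ a, e a < n) ∧
        (∀ a b, a < b → ∀ q ∈ Q0, |v n (e a) (e b) q - v' q| ≤ ε) ∧
        (∀ a, ∀ p ∈ P0, |u n (e a) p - u' p| ≤ ε) ∧ ∀ s ∈ S0, |c n s - c' s| ≤ ε := by
  classical
  let U : Ultrafilter ℕ := hyperfilter ℕ
  have hU : ∀ m : ℕ, ∀ᶠ n in (U : Filter ℕ), m ≤ n := by
    intro m
    have h1 : (U : Filter ℕ) ≤ atTop := by
      rw [← Nat.cofinite_eq_atTop]
      exact hyperfilter_le_cofinite
    exact h1 (eventually_ge_atTop m)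
  -- the limits for `n → U`
  have h1 : ∀ i j q, ∃ x : ℝ, i < j → |x| ≤ Bv q ∧
      Tendsto (fun n => v n i j q) (U : Filter ℕ) (𝓝 x) := by
    intro i j q
    by_cases hij : i < j
    · obtain ⟨x, hx⟩ := RamseyU.exists_lim U (fun n => v n i j q) (Bv q)
        ((hU (j + 1)).mono fun n hn => hv n i j q hij (by omega))
      exact ⟨x, fun _ => hx⟩
    · exact ⟨0, fun h => absurd h hij⟩
  choose V hV using h1
  have h2 : ∀ i p, ∃ x : ℝ, |x| ≤ Bu p ∧ Tendsto (fun n => u n i p) (U : Filter ℕ) (𝓝 x) :=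
    fun i p => RamseyU.exists_lim U (fun n => u n i p) (Bu p)
      ((hU (i + 1)).mono fun n hn => hu n i p (by omega))
  choose Y hY using h2
  have h3 : ∀ s, ∃ x : ℝ, |x| ≤ Bc s ∧ Tendsto (fun n => c n s) (U : Filter ℕ) (𝓝 x) :=
    fun s => RamseyU.exists_lim U (fun n => c n s) (Bc s) (Eventually.of_forall fun n => hc n s)
  choose c' hc' using h3
  -- the limits for `j → U` and for `i → U`
  have h4 : ∀ i q, ∃ x : ℝ, |x| ≤ Bv q ∧ Tendsto (fun j => V i j q) (U : Filter ℕ) (𝓝 x) :=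
    fun i q => RamseyU.exists_lim U (fun j => V i j q) (Bv q)
      ((hU (i + 1)).mono fun j hj => (hV i j q (by omega)).1)
  choose W hW using h4
  have h5 : ∀ q, ∃ x : ℝ, |x| ≤ Bv q ∧ Tendsto (fun i => W i q) (U : Filter ℕ) (𝓝 x) :=
    fun q => RamseyU.exists_lim U (fun i => W i q) (Bv q) (Eventually.of_forall fun i => (hW i q).1)
  choose v' hv' using h5
  have h6 : ∀ p, ∃ x : ℝ, |x| ≤ Bu p ∧ Tendsto (fun i => Y i p) (U : Filter ℕ) (𝓝 x) :=
    fun p => RamseyU.exists_lim U (fun i => Y i p) (Bu p) (Eventually.of_forall fun i => (hY i p).1)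
  choose u' hu' using h6
  have hev : ∀ (f : ℕ → ℝ) (x δ : ℝ), 0 < δ → Tendsto f (U : Filter ℕ) (𝓝 x) →
      ∀ᶠ n in (U : Filter ℕ), |f n - x| < δ := by
    intro f x δ hδ hf
    have h7 := (Metric.tendsto_nhds.1 hf) δ hδ
    exact h7.mono fun n hn => by rwa [Real.dist_eq] at hn
  refine ⟨v', u', c', fun q => (hv' q).1, fun p => (hu' p).1, fun s => (hc' s).1, ?_⟩
  intro ε hε r m Q0 P0 S0
  have hδ : 0 < ε / 3 := by positivity
  -- the good indices
  let A : ℕ → Prop := fun i => (∀ q ∈ Q0, |W i q - v' q| < ε / 3) ∧ ∀ p ∈ P0, |Y i p - u' p| < ε / 3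
  have hA : ∀ᶠ i in (U : Filter ℕ), A i := by
    refine Eventually.and ?_ ?_
    · exact (eventually_all_finset Q0).2 fun q _ => hev _ _ _ hδ (hv' q).2
    · exact (eventually_all_finset P0).2 fun p _ => hev _ _ _ hδ (hu' p).2
  have hseq : ∀ r : ℕ, ∃ e : ℕ → ℕ, (∀ a < r, A (e a)) ∧ ∀ a b, a < b → b < r →
      e a < e b ∧ ∀ q ∈ Q0, |V (e a) (e b) q - W (e a) q| < ε / 3 := by
    intro r
    induction r with
    | zero => exact ⟨fun _ => 0, fun a ha => absurd ha (by omega), fun a b _ hb => absurd hb (by omega)⟩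
    | succ r ih =>
      obtain ⟨e, he1, he2⟩ := ih
      have h7 : ∀ᶠ k in (U : Filter ℕ), A k ∧ ∀ a ∈ Finset.range r, e a + 1 ≤ k ∧
          ∀ q ∈ Q0, |V (e a) k q - W (e a) q| < ε / 3 := by
        refine hA.and ((eventually_all_finset _).2 fun a _ => (hU (e a + 1)).and ?_)
        exact (eventually_all_finset Q0).2 fun q _ => hev _ _ _ hδ (hW (e a) q).2
      obtain ⟨k, hk1, hk2⟩ := h7.exists
      refine ⟨Function.update e r k, ?_, ?_⟩
      · intro a ha
        rcases Nat.lt_succ_iff_lt_or_eq.1 ha with h8 | h8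
        · rw [Function.update_of_ne (by omega)]
          exact he1 a h8
        · rw [h8, Function.update_self]
          exact hk1
      · intro a b hab hb
        have ha : a ≠ r := by omega
        rw [Function.update_of_ne ha]
        rcases Nat.lt_succ_iff_lt_or_eq.1 hb with h8 | h8
        · rw [Function.update_of_ne (by omega)]
          exact he2 a b hab h8
        · rw [h8, Function.update_self]
          obtain ⟨h9, h10⟩ := hk2 a (Finset.mem_range.2 (by omega))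
          exact ⟨by omega, h10⟩
  obtain ⟨e, he1, he2⟩ := hseq r
  -- the choice of `n`
  have h7 : ∀ᶠ n in (U : Filter ℕ), (m ≤ n ∧ ∀ s ∈ S0, |c n s - c' s| < ε) ∧
      ∀ a ∈ Finset.range r, (e a + 1 ≤ n ∧ ∀ p ∈ P0, |u n (e a) p - Y (e a) p| < ε / 3) ∧
        ∀ b ∈ Finset.range r, a < b → ∀ q ∈ Q0, |v n (e a) (e b) q - V (e a) (e b) q| < ε / 3 := by
    refine ((hU m).and ((eventually_all_finset S0).2 fun s _ => hev _ _ _ hε (hc' s).2)).and ?_
    refine (eventually_all_finset _).2 fun a ha => ((hU (e a + 1)).and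
      ((eventually_all_finset P0).2 fun p _ => hev _ _ _ hδ (hY (e a) p).2)).and ?_
    refine (eventually_all_finset _).2 fun b hb => ?_
    by_cases hab : a < b
    · have h8 : ∀ᶠ n in (U : Filter ℕ), ∀ q ∈ Q0,
          |v n (e a) (e b) q - V (e a) (e b) q| < ε / 3 :=
        (eventually_all_finset Q0).2 fun q _ => hev _ _ _ hδ
          (hV (e a) (e b) q (he2 a b hab (Finset.mem_range.1 hb)).1).2
      exact h8.mono fun n hn _ => hn
    · exact Eventually.of_forall fun n h => absurd h hab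
  obtain ⟨n, ⟨hn1, hn2⟩, hn3⟩ := h7.exists
  refine ⟨n, hn1, fun a => e a, ?_, ?_, ?_, ?_, fun s hs => (hn2 s hs).le⟩
  · intro a b hab
    exact (he2 a b hab b.2).1
  · intro a
    have h8 := (hn3 a (Finset.mem_range.2 a.2)).1.1
    exact Nat.lt_of_succ_le h8
  · intro a b hab q hq
    have h8 := (hn3 a (Finset.mem_range.2 a.2)).2 b (Finset.mem_range.2 b.2) hab q hq
    have h9 := (he2 a b hab b.2).2 q hq
    have h10 := (he1 a a.2).1 q hq
    rw [abs_lt] at h8 h9 h10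
    rw [abs_le]
    constructor <;> linarith [h8.1, h8.2, h9.1, h9.2, h10.1, h10.2]
  · intro a p hp
    have h8 := (hn3 a (Finset.mem_range.2 a.2)).1.2 p hp
    have h10 := (he1 a a.2).2 p hp
    rw [abs_lt] at h8 h10
    rw [abs_le]
    constructor <;> linarith [h8.1, h8.2, h10.1, h10.2]

/-- **Ramsey's theorem up to `ε`** for bounded real valued colourings of pairs and of points. -/
theorem finite_ramsey_u {Q P : Type*} [Finite Q] [Finite P] (B : ℝ) (T : ℕ) (ε : ℝ) (hε : 0 < ε) :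
    ∃ M : ℕ, ∀ (v : ℕ → ℕ → Q → ℝ) (u : ℕ → P → ℝ),
      (∀ i j q, i < j → j < M → |v i j q| ≤ B) → (∀ i p, i < M → |u i p| ≤ B) →
      ∃ (v' : Q → ℝ) (u' : P → ℝ) (e : Fin T → ℕ), (∀ q, |v' q| ≤ B) ∧ (∀ p, |u' p| ≤ B) ∧
        StrictMono e ∧ (∀ a, e a < M) ∧ (∀ a b, a < b → ∀ q, |v (e a) (e b) q - v' q| ≤ ε) ∧
        ∀ a p, |u (e a) p - u' p| ≤ ε := by
  classical
  have _ : Fintype Q := Fintype.ofFinite Q
  have _ : Fintype P := Fintype.ofFinite P
  by_contra hne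
  push Not at hne
  choose v u hv hu h using hne
  obtain ⟨v', u', c', hv', hu', -, hlim⟩ := exists_limit_u (S := Empty) (fun _ => B) (fun _ => B)
    (fun _ => 0) v u (fun _ s => s.elim) (fun n i j q hij hj => hv n i j q hij hj)
    (fun n i p hi => hu n i p hi) (fun _ s => s.elim)
  obtain ⟨n, -, e, he, hen, h1, h2, -⟩ := hlim ε hε T 0 Finset.univ Finset.univ ∅
  obtain ⟨a, p, h3⟩ := h n v' u' e hv' hu' he hen (fun a b hab q => h1 a b hab q (Finset.mem_univ q))
  exact absurd (h2 a p (Finset.mem_univ p)) (not_le.2 h3)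

/-- **Ramsey's theorem** for pairs and finitely many colours. -/
theorem finite_ramsey_colour {κ : Type*} [Finite κ] (T : ℕ) :
    ∃ M : ℕ, ∀ χ : ℕ → ℕ → κ, ∃ e : Fin T → ℕ, StrictMono e ∧ (∀ a, e a < M) ∧
      ∀ a b a' b', a < b → a' < b' → χ (e a) (e b) = χ (e a') (e b') := by
  classical
  obtain ⟨M, hM⟩ := finite_ramsey_u (Q := κ) (P := Empty) 1 T (1 / 4) (by norm_num)
  refine ⟨M, fun χ => ?_⟩
  obtain ⟨v', -, e, -, -, he, heM, h1, -⟩ := hM (fun i j q => if χ i j = q then 1 else 0)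
    (fun _ p => p.elim) (by
      intro i j q _ _
      split_ifs <;> norm_num) (fun _ p => p.elim)
  refine ⟨e, he, heM, fun a b a' b' hab hab' => ?_⟩
  by_contra hne
  have h2 := h1 a b hab (χ (e a) (e b))
  have h3 := h1 a' b' hab' (χ (e a) (e b))
  rw [if_pos rfl] at h2
  rw [if_neg (Ne.symm hne)] at h3
  rw [abs_le] at h2 h3
  linarith [h2.1, h2.2, h3.1, h3.2]

end Pool.Agent.RI
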