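import Mathlib
import Pool.Agent.RI.SMain

set_option autoImplicit false

/-!
# Theorem R* with an abstract local estimate at the primes of `J`
-/

namespace Pool.Agent.RI

open Polynomial NumberField IsDedekindDomain Pool.Agent.GPoly
open Pool.Agent.RDF (lift wedge form nrm UU mat Above DefectiveN coeffs)

/-- The local estimate at a defective prime. -/
def LocDef (d N : ℕ) (κ A : ℝ) {K : Type} [Field K] [NumberField K] (F G : (𝓞 K)[X])
    (v : HeightOneSpectrum (𝓞 K)) : Prop :=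
  ∀ (Om : Type) [NormedField Om] [IsAlgClosed Om] [IsUltrametricDist Om] [Algebra K Om],
    (∀ x : K, ‖algebraMap K Om x‖ = av v x) →
    ∀ (L : Type) [Field L] [NumberField L] [Algebra K L] (φ : L →ₐ[K] Om) (m : ℕ)
      (z : Fin (d ^ m) → L × L),
    (∀ i, PDegLe K N (z i) ∧
      PreV d (F.map (algebraMap (𝓞 K) L)) (G.map (algebraMap (𝓞 K) L)) (z i)) →
    (∀ i j, i ≠ j → wedge (z i) (z j) ≠ 0) →
    ∑ i, ∑ j ∈ Finset.univ.erase i, Real.log ‖φ (wedge (z i) (z j))‖ ≤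
      ((d : ℝ) ^ m * ((d : ℝ) ^ m - 1)) *
        (-Real.log (av v (algebraMap (𝓞 K) K (resultant F G d d))) / (d * (d - 1))) -
      (κ * ((d : ℝ) ^ m) ^ 2 - A * (m + 1) * (d : ℝ) ^ m) *
        (-Real.log (av v (algebraMap (𝓞 K) K (resultant F G d d))))

/-- THEOREM R*, quantitative, with an abstract local estimate. -/
theorem main_RSX (D N d s : ℕ) (hd : 2 ≤ d) (κ A : ℝ) (hκ : 0 < κ) : ∃ C : ℝ, 0 ≤ C ∧
    ∀ (K : Type) [Field K] [NumberField K], Module.finrank ℚ K ≤ D →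
    ∀ F G : (𝓞 K)[X], F.natDegree ≤ d → G.natDegree ≤ d → resultant F G d d ≠ 0 →
    ∀ k : ℕ, 1 ≤ k → ∀ J : Ideal (𝓞 K), J ∣ Ideal.span {resultant F G d d} →
    (∀ v : HeightOneSpectrum (𝓞 K), v.asIdeal ∣ J → LocDef d N κ A F G v) →
    ∀ S : Finset (HeightOneSpectrum (𝓞 K)), S.card ≤ s →
    ∑ᶠ (v : HeightOneSpectrum (𝓞 K)) (_ : v ∉ S ∧ ¬ v.asIdeal ∣ J), lamV d F G v ≤
      k * (1 + ∑ v ∈ S, lamV d F G v +
        ∑ σ : K →+* ℂ, lamC d (F.map (σ.comp (algebraMap (𝓞 K) K)))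
          (G.map (σ.comp (algebraMap (𝓞 K) K))) +
        Real.log (Ideal.absNorm J)) →
    ∀ (L : Type) [Field L] [NumberField L] [Algebra K L], ∀ X : Finset (L × L),
      (∀ p ∈ X, Pool.Agent.RDF.DegLe K N p ∧ p ≠ 0 ∧ ∃ a b : ℕ, a < b ∧
        wedge ((lift d (F.map (algebraMap (𝓞 K) L)) (G.map (algebraMap (𝓞 K) L)))^[a] p)
          ((lift d (F.map (algebraMap (𝓞 K) L)) (G.map (algebraMap (𝓞 K) L)))^[b] p) = 0) →
      (∀ p ∈ X, ∀ q ∈ X, p ≠ q → wedge p q ≠ 0) →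
      (X.card : ℝ) ≤ C * (k * Real.log (k + 1)) := by
  rcases Nat.eq_zero_or_pos N with rfl | hN
  · refine ⟨0, le_refl _, ?_⟩
    intro K _ _ _ F G _ _ _ k _ J _ _ S _ _ L _ _ _ X hX _
    have hX0 : X = ∅ := by
      rw [Finset.eq_empty_iff_forall_notMem]
      intro p hp
      obtain ⟨⟨E, hE, -, -⟩, -⟩ := hX p hp
      haveI : FiniteDimensional K L := FiniteDimensional.right ℚ K L
      have : 0 < Module.finrank K E := Module.finrank_pos
      omega
    rw [hX0]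
    simp
  obtain ⟨c₁, C₀, T₁, hc₁, hC₀, hexc⟩ := den_exc d N hd hN
  choose b₁ hb₁ using hexc
  obtain ⟨c₂, hc₂, hcx⟩ := den_cplx d N hd hN
  obtain ⟨c, hc, hcc₁, hcc₂, hcκ⟩ : ∃ c : ℝ, 0 < c ∧ c ≤ c₁ ∧ c ≤ c₂ ∧ c ≤ κ / 4 :=
    ⟨min (min c₁ c₂) (κ / 4), lt_min (lt_min hc₁ hc₂) (by positivity),
      (min_le_left _ _).trans (min_le_left _ _), (min_le_left _ _).trans (min_le_right _ _),
      min_le_right _ _⟩
  obtain ⟨T₂, hcx'⟩ := hcx (s * C₀ + c + 1)
  choose b₂ hb₂ using hcx'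
  obtain ⟨C₁, hC₁, hm⟩ := exists_C₁ d hd c κ A hc hκ (max T₁ T₂)
  obtain ⟨B₂, hB₂1, hB₂⟩ := chainDen b₂ D d
  obtain ⟨B₁, hB₁1, hB₁⟩ := chainDen b₁ s (d * B₂)
  refine ⟨N * (B₁ * B₂ * (d * C₁) + 2), by positivity, ?_⟩
  intro K _ _ hK F G hF hG hR k hk J hJ hdef S hSs hhyp L₀ _ _ _ X₀ hX₀ hw₀
  classical
  by_contra hcon
  rw [not_le] at hcon
  obtain ⟨L, _, _, _, X, hXcard, hX, hw⟩ := exists_lifts L₀ d N hd F G hF hG hR X₀ hX₀ hw₀
  obtain ⟨M, hMdef⟩ : ∃ M : ℕ, M = X.card / N := ⟨_, rfl⟩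
  have hMX : N * M ≤ X.card := by rw [hMdef]; exact Nat.mul_div_le _ _
  have hXM : X.card < N * (M + 1) := by
    rw [hMdef]
    exact Nat.lt_mul_div_succ _ hN
  obtain ⟨x, hxX, hxc⟩ := nonconj L N M hN X hMX (fun p hp => (hX p hp).2.1)
    (fun p hp => (hX p hp).1) hw
  haveI : FiniteDimensional K L := FiniteDimensional.right ℚ K L
  have hxN : ∀ i, PDegLe K N (x i) := fun i => (hX _ (hxX i)).1
  have hxP : ∀ i, PreV d (F.map (algebraMap (𝓞 K) L)) (G.map (algebraMap (𝓞 K) L)) (x i) :=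
    fun i => (hX _ (hxX i)).2
  set r : 𝓞 K := resultant F G d d with hr
  have hspan : Ideal.span {r} ≠ 0 := by
    rw [Ne, Ideal.zero_eq_bot, Ideal.span_singleton_eq_bot]
    exact hR
  -- the fields `Om v`
  choose Om i1 i2 i3 i4 hOm using fun v : HeightOneSpectrum (𝓞 K) => PQ.exists_Om v
  have hResE : ∀ (E : Type) [Field E] [Algebra K E],
      resultant (F.map (algebraMap (𝓞 K) E)) (G.map (algebraMap (𝓞 K) E)) d d =
        algebraMap K E (algebraMap (𝓞 K) K r) := by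
    intro E _ _
    rw [resultant_map_map]
    rfl
  have hrK : algebraMap (𝓞 K) K r ≠ 0 :=
    (map_ne_zero_iff _ (RingOfIntegers.coe_injective)).mpr hR
  have hResE0 : ∀ (E : Type) [Field E] [Algebra K E],
      resultant (F.map (algebraMap (𝓞 K) E)) (G.map (algebraMap (𝓞 K) E)) d d ≠ 0 := by
    intro E _ _
    rw [hResE]
    exact (map_ne_zero_iff _ (algebraMap K E).injective).mpr hrK
  -- the exceptional places
  have hP := fun v : HeightOneSpectrum (𝓞 K) => place_boundD (Om v) N d hN hd F G hF hG hR L x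
    hxN hxP (fun φ ψ i j hij => hxc (Om v) φ ψ i j hij) b₁ T₁
    (fun T => (T * (T - 1) : ℝ) * (wt v r / (d * (d - 1))) +
      (C₀ - c₁ * lamV d F G v) * (T : ℝ) ^ 2)
    (by
      intro q z U hz hzw
      obtain ⟨Z, h1, h2, h3⟩ := hb₁ q (Om v)
        (F.map (algebraMap (𝓞 K) (Om v))) (G.map (algebraMap (𝓞 K) (Om v)))
        (natDegree_map_le.trans hF) (natDegree_map_le.trans hG) (hResE0 _) (lamV d F G v)
        (fun r' hr' => lamV_le_of_mem d F G v (Om v) (hOm v) r' hr') (Fin M) z U hz hzw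
      refine ⟨Z, h1, h2, fun Y hY hYq hYc a => ?_⟩
      have h4 := h3 Y hY hYq hYc a
      rw [hResE, hOm] at h4
      exact h4)
  choose P hP2 hP3 using hP
  obtain ⟨Z₁, -, hZ₁c, hZ₁P⟩ := hB₁ S hSs P (Finset.univ : Finset (Fin M))
    (fun v _ q' U' _ => hP2 v q' U')
  -- the infinite places
  have hQ := fun σ : K →+* ℂ => (by
    letI : Algebra K ℂ := σ.toAlgebra
    exact place_boundD ℂ N d hN hd F G hF hG hR L x hxN
      hxP (fun φ ψ i j hij => hxc ℂ φ ψ i j hij) b₂ T₂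
      (fun T => (T * (T - 1) : ℝ) * (-Real.log ‖σ (algebraMap (𝓞 K) K r)‖ / (d * (d - 1))) -
        ((s * C₀ + c + 1) + c₂ * lamC d (F.map (σ.comp (algebraMap (𝓞 K) K)))
          (G.map (σ.comp (algebraMap (𝓞 K) K)))) * (T : ℝ) ^ 2)
      (by
        intro q z U hz hzw
        obtain ⟨Z, h1, h2, h3⟩ := hb₂ q
          (F.map (algebraMap (𝓞 K) ℂ)) (G.map (algebraMap (𝓞 K) ℂ))
          (natDegree_map_le.trans hF) (natDegree_map_le.trans hG) (hResE0 _) (Fin M) z U hz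
          hzw
        refine ⟨Z, h1, h2, fun Y hY hYq hYc a => ?_⟩
        have h4 := h3 Y hY hYq hYc a
        rw [hResE] at h4
        exact h4) :
    letI : Algebra K ℂ := σ.toAlgebra
    ∃ P : Finset (Fin M) → Prop,
      (∀ q : ℕ, ∀ U : Finset (Fin M), ∃ Z ⊆ U, U.card ≤ b₂ q * Z.card ∧
        ∀ Y ⊆ Z, Z.card ≤ q * Y.card → P Y) ∧
      ∀ U : Finset (Fin M), P U → T₂ ≤ U.card → ∀ φ : L →ₐ[K] ℂ,
        ∑ i ∈ U, ∑ j ∈ U.erase i, Real.log ‖φ (wedge (x i) (x j))‖ ≤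
          (U.card * (U.card - 1) : ℝ) *
            (-Real.log ‖σ (algebraMap (𝓞 K) K r)‖ / (d * (d - 1))) -
            ((s * C₀ + c + 1) + c₂ * lamC d (F.map (σ.comp (algebraMap (𝓞 K) K)))
              (G.map (σ.comp (algebraMap (𝓞 K) K)))) * (U.card : ℝ) ^ 2)
  choose Q hQ2 hQ3 using hQ
  obtain ⟨Z, hZ, hZc, hZQ⟩ := hB₂ (Finset.univ : Finset (K →+* ℂ))
    (by rw [Finset.card_univ, NumberField.Embeddings.card]; exact hK) Q Z₁
    (fun σ _ q' U' _ => hQ2 σ q' U')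
  -- the number of points of `Z`
  have hP12 := half_le_klog k hk
  set Pk : ℝ := k * Real.log (k + 1) with hPk
  have hMZ : (M : ℝ) ≤ B₁ * B₂ * Z.card := by
    rw [Finset.card_univ, Fintype.card_fin] at hZ₁c
    have h1 : (M : ℝ) ≤ B₁ * Z₁.card := by exact_mod_cast hZ₁c
    have h2 : (Z₁.card : ℝ) ≤ B₂ * Z.card := by exact_mod_cast hZc
    have h3 := mul_le_mul_of_nonneg_left h2 (show (0 : ℝ) ≤ B₁ from Nat.cast_nonneg _)
    linarith
  have hZbig : d * C₁ * Pk ≤ Z.card := by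
    by_contra h
    rw [not_le] at h
    have h1 : (X₀.card : ℝ) < N * (M + 1) := by
      rw [← hXcard]
      exact_mod_cast hXM
    have h2 : (B₁ * B₂ * Z.card : ℝ) ≤ B₁ * B₂ * (d * C₁ * Pk) :=
      mul_le_mul_of_nonneg_left h.le (by positivity)
    have h3 : (M : ℝ) + 1 ≤ (B₁ * B₂ * (d * C₁) + 2) * Pk := by
      have : B₁ * B₂ * (d * C₁ * Pk) = B₁ * B₂ * (d * C₁) * Pk := by ring
      linarith
    have h4 := mul_le_mul_of_nonneg_left h3 (show (0 : ℝ) ≤ N from Nat.cast_nonneg _)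
    have h5 : (N : ℝ) * ((B₁ * B₂ * (d * C₁) + 2) * Pk) =
      N * (B₁ * B₂ * (d * C₁) + 2) * Pk := by ring
    linarith
  have hd0 : (0 : ℝ) < d := by
    have : 0 < d := by omega
    exact_mod_cast this
  have hZ0 : Z.card ≠ 0 := by
    intro h
    rw [h, Nat.cast_zero] at hZbig
    have : 0 < d * C₁ * Pk := by
      have : 0 < Pk := by linarith
      positivity
    linarith
  obtain ⟨m, hmdef⟩ : ∃ m : ℕ, m = Nat.log d Z.card := ⟨_, rfl⟩
  have hm1 : d ^ m ≤ Z.card := by rw [hmdef]; exact Nat.pow_log_le_self d hZ0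
  have hm2 : Z.card < d ^ (m + 1) := by
    rw [hmdef]
    exact Nat.lt_pow_succ_log_self (by omega) _
  have hT := Pow_cast d m
  have hm3 : C₁ * Pk ≤ (d : ℝ) ^ m := by
    have h1 : (Z.card : ℝ) < d * (d : ℝ) ^ m := by
      have : (Z.card : ℝ) < ((d ^ (m + 1) : ℕ) : ℝ) := by exact_mod_cast hm2
      rw [Nat.cast_pow, pow_succ] at this
      linarith
    have h2 : d * (C₁ * Pk) < d * (d : ℝ) ^ m := by linarith
    exact (lt_of_mul_lt_mul_left h2 hd0.le).le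
  obtain ⟨hmT, hmg, hmκ⟩ := hm k hk m hm3
  obtain ⟨Y, hYZ, hYc⟩ := Finset.exists_subset_card_eq hm1
  have hYq : Z.card ≤ d * Y.card := by
    rw [hYc]
    rw [pow_succ, mul_comm] at hm2
    exact hm2.le
  have hYQ : ∀ σ : K →+* ℂ, Q σ Y := fun σ => hZQ σ (Finset.mem_univ _) Y hYZ hYq
  have hYP : ∀ v ∈ S, P v Y := fun v hv => hZ₁P v hv Y (hYZ.trans hZ) (by
    calc Z₁.card ≤ B₂ * Z.card := hZc
      _ ≤ B₂ * (d * Y.card) := Nat.mul_le_mul_left _ hYq
      _ = d * B₂ * Y.card := by ring)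
  have hT12 : max T₁ T₂ ≤ d ^ m := by
    rw [← hT] at hmT
    exact_mod_cast hmT
  let e : Fin (d ^ m) ≃ Y := (Finset.equivFinOfCardEq hYc).symm
  set z : Fin (d ^ m) → L × L := fun i => x (e i) with hz
  have hinjx : ∀ i j : Fin (d ^ m), i ≠ j → ((e i : Fin M) ≠ e j) := fun i j hij h =>
    hij (e.injective (Subtype.ext h))
  have hzw : ∀ i j, i ≠ j → wedge (z i) (z j) ≠ 0 := by
    intro i j hij h0
    let φ : L →ₐ[K] AlgebraicClosure L := IsScalarTower.toAlgHom K L (AlgebraicClosure L)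
    refine hxc (AlgebraicClosure L) φ φ _ _ (hinjx i j hij) ?_
    have h2 := wedge_prodMap (φ : L →+* AlgebraicClosure L) (z i) (z j)
    rw [h0, map_zero] at h2
    exact h2
  have hzP : ∀ i, PreV d (F.map (algebraMap (𝓞 K) L)) (G.map (algebraMap (𝓞 K) L)) (z i) :=
    fun i => hxP _
  have hzN : ∀ i, PDegLe K N (z i) := fun i => hxN _
  have hlamV := fun v => lamV_nonneg d F G v
  have hlamC : ∀ σ : K →+* ℂ, 0 ≤ lamC d (F.map (σ.comp (algebraMap (𝓞 K) K)))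
      (G.map (σ.comp (algebraMap (𝓞 K) K))) := fun σ => le_max_left _ _
  have hwt : ∀ v : HeightOneSpectrum (𝓞 K), 0 ≤ wt v r := fun v => wt_nonneg v _
  have key := ineq_RS r hR d k s J hJ S hSs (lamV d F G)
    (fun σ => lamC d (F.map (σ.comp (algebraMap (𝓞 K) K)))
      (G.map (σ.comp (algebraMap (𝓞 K) K))))
    hlamV (fun v => lamV_le d F G hF hG v) hlamC hhyp L (fun i j => wedge (z i) (z j)) hzw
    c (2 * m * (d : ℝ) ^ m) C₀ (s * C₀ + c + 1) hC₀ hc.le (by positivity)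
    (by rw [hT]; exact hmg) ?_ ?_ ?_ ?_
  · have h2 : (1 : ℝ) ≤ ((d ^ m : ℕ) : ℝ) := by
      have : 1 ≤ d ^ m := Nat.one_le_pow _ _ (by omega)
      exact_mod_cast this
    have h3 : 0 ≤ s * C₀ := by positivity
    have h5 : 0 < ((d ^ m : ℕ) : ℝ) ^ 2 := by positivity
    rcases key with key | key
    · nlinarith
    · linarith
  · intro v hv
    have hrv : r ∈ v.asIdeal := Ideal.dvd_span_singleton.1 (hv.trans hJ)
    have h1 : ∀ φ : L →ₐ[K] Om v, ∑ i, ∑ j ∈ Finset.univ.erase i,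
        Real.log ‖φ (wedge (z i) (z j))‖ ≤
        (((d ^ m : ℕ) : ℝ) * (((d ^ m : ℕ) : ℝ) - 1)) * (wt v r / (d * (d - 1))) -
          2 * c * ((d ^ m : ℕ) : ℝ) ^ 2 * wt v r := by
      intro φ
      rw [hT]
      have h2 := hdef v hv (Om v) (hOm v) L φ m z (fun i => ⟨hzN i, hzP i⟩) hzw
      refine h2.trans ?_
      have h3 : 2 * c * ((d : ℝ) ^ m) ^ 2 ≤
          κ * ((d : ℝ) ^ m) ^ 2 - A * (m + 1) * (d : ℝ) ^ m := by
        refine le_trans ?_ hmκ
        exact mul_le_mul_of_nonneg_right (by linarith) (by positivity)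
      have h4 := mul_le_mul_of_nonneg_right h3 (hwt v)
      have h5 : wt v r = -Real.log (av v (algebraMap (𝓞 K) K r)) := rfl
      rw [h5] at h4 ⊢
      linarith
    have h2 := local_sumD (Om v) L _ hzw _ h1
    simpa only [hOm v] using h2
  · intro v hvS hvJ
    have h1 : ∀ φ : L →ₐ[K] Om v, ∑ i, ∑ j ∈ Finset.univ.erase i,
        Real.log ‖φ (wedge (z i) (z j))‖ ≤
        (((d ^ m : ℕ) : ℝ) * (((d ^ m : ℕ) : ℝ) - 1)) * (wt v r / (d * (d - 1))) +
          (C₀ - c * lamV d F G v) * ((d ^ m : ℕ) : ℝ) ^ 2 := by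
      intro φ
      have h2 := hP3 v Y (hYP v hvS) (by rw [hYc]; exact (le_max_left _ _).trans hT12) φ
      rw [hYc] at h2
      rw [sum_equiv Y e (fun i j => Real.log ‖φ (wedge (x i) (x j))‖)]
      refine h2.trans ?_
      have h3 : (C₀ - c₁ * lamV d F G v) ≤ (C₀ - c * lamV d F G v) := by
        have := mul_le_mul_of_nonneg_right hcc₁ (hlamV v)
        linarith
      have h4 := mul_le_mul_of_nonneg_right h3 (show 0 ≤ ((d ^ m : ℕ) : ℝ) ^ 2 by positivity)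
      linarith
    have h2 := local_sumD (Om v) L _ hzw _ h1
    simpa only [hOm v] using h2
  · intro v
    have h1 := gen_sum d hd F G hF hG hR v L m z hzP hzw
    rw [hT]
    exact h1
  · intro σ
    letI : Algebra K ℂ := σ.toAlgebra
    have h1 : ∀ φ : L →ₐ[K] ℂ, ∑ i, ∑ j ∈ Finset.univ.erase i,
        Real.log ‖φ (wedge (z i) (z j))‖ ≤
        (((d ^ m : ℕ) : ℝ) * (((d ^ m : ℕ) : ℝ) - 1)) *
          (-Real.log ‖σ (algebraMap (𝓞 K) K r)‖ / (d * (d - 1))) -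
          ((s * C₀ + c + 1) + c * lamC d (F.map (σ.comp (algebraMap (𝓞 K) K)))
            (G.map (σ.comp (algebraMap (𝓞 K) K)))) * ((d ^ m : ℕ) : ℝ) ^ 2 := by
      intro φ
      have h2 := hQ3 σ Y (hYQ σ)
        (by rw [hYc]; exact (le_max_right _ _).trans hT12) φ
      rw [hYc] at h2
      rw [sum_equiv Y e (fun i j => Real.log ‖φ (wedge (x i) (x j))‖)]
      refine h2.trans ?_
      have h3 := mul_le_mul_of_nonneg_right hcc₂ (hlamC σ)
      have h4 := mul_le_mul_of_nonneg_right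
        (show (s * C₀ + c + 1) + c * lamC d (F.map (σ.comp (algebraMap (𝓞 K) K)))
            (G.map (σ.comp (algebraMap (𝓞 K) K))) ≤
          (s * C₀ + c + 1) + c₂ * lamC d (F.map (σ.comp (algebraMap (𝓞 K) K)))
            (G.map (σ.comp (algebraMap (𝓞 K) K))) by linarith)
        (show 0 ≤ ((d ^ m : ℕ) : ℝ) ^ 2 by positivity)
      linarith
    exact local_sumD ℂ L _ hzw _ h1

end Pool.Agent.RI
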