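import Mathlib
import Pool.Agent.RI.SGenV
import Pool.Agent.PQ.Defs

set_option autoImplicit false

/-!
# The minimal resultant is zero at the harmless primes of a polynomial
-/

namespace Pool.Agent.RI

open Polynomial NumberField IsDedekindDomain Pool.Agent.GPoly
open Pool.Agent.RDF (lift wedge form)

namespace SXH

theorem form_const {L : Type} [Field L] (d : ℕ) (c : L) (p : L × L) :
    form d (C c) p = c * p.2 ^ d := by
  rw [form, Finset.sum_eq_single 0]
  · simp
  · intro i _ hi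
    rw [coeff_C, if_neg hi, zero_mul, zero_mul]
  · intro h
    exact absurd (Finset.mem_range.2 (Nat.succ_pos d)) h

/-- The conjugate by a diagonal matrix. -/
theorem form_diag {L : Type} [Field L] (d : ℕ) (F : L[X]) (t β : L) (ht : t ≠ 0) (hβ : β ≠ 0)
    (p : L × L) :
    form d (C (β * t * (β ^ d)⁻¹) * F.comp (C t⁻¹ * X)) (β * t * p.1, β * p.2) =
      β * t * form d F p := by
  rw [form, form, Finset.mul_sum]
  refine Finset.sum_congr rfl fun i hi => ?_
  have hi' : i ≤ d := Nat.lt_succ_iff.1 (Finset.mem_range.1 hi)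
  rw [coeff_C_mul, comp_C_mul_X_coeff, mul_pow, mul_pow, mul_pow, inv_pow]
  have e : β ^ d = β ^ i * β ^ (d - i) := by rw [← pow_add, Nat.add_sub_cancel' hi']
  rw [e]
  field_simp

variable {K : Type} [Field K] [NumberField K]

theorem lamV_harmless (d : ℕ) (hd : 2 ≤ d) (F : (𝓞 K)[X]) (b : 𝓞 K) (hF : F.natDegree = d)
    (v : HeightOneSpectrum (𝓞 K)) (hv : PQ.Harmless F b v) : lamV d F (C b) v = 0 := by
  refine le_antisymm ?_ (lamV_nonneg d F (C b) v)
  obtain ⟨hbv, hco⟩ := hv
  obtain ⟨E, i1, i2, i3, i4, h⟩ := PQ.exists_Om v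
  refine lamV_le_of_mem d F (C b) v E h 0 ?_
  have hn : ∀ y : 𝓞 K, ‖algebraMap (𝓞 K) E y‖ = av v (algebraMap (𝓞 K) K y) := by
    intro y
    rw [IsScalarTower.algebraMap_apply (𝓞 K) K E, h]
  have ha0 : F.leadingCoeff ≠ 0 := by
    intro h0
    rw [leadingCoeff_eq_zero] at h0
    rw [h0, natDegree_zero] at hF
    omega
  have hna : 0 < ‖algebraMap (𝓞 K) E F.leadingCoeff‖ := by
    rw [hn]
    exact av_int_pos v _ ha0
  have hnb : ‖algebraMap (𝓞 K) E b‖ = 1 := by
    rw [hn]
    exact (av_int_eq_one v b).2 hbv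
  obtain ⟨t, ht⟩ := IsAlgClosed.exists_pow_nat_eq (algebraMap (𝓞 K) E F.leadingCoeff)
    (n := d - 1) (by omega)
  obtain ⟨β, hβ⟩ := IsAlgClosed.exists_pow_nat_eq (algebraMap (𝓞 K) E b) (n := d - 1) (by omega)
  have ht0 : t ≠ 0 := by
    rintro rfl
    rw [zero_pow (by omega)] at ht
    rw [← ht, norm_zero] at hna
    exact lt_irrefl _ hna
  have hβn : ‖β‖ = 1 := by
    have h1 : ‖β‖ ^ (d - 1) = 1 := by rw [← norm_pow, hβ, hnb]
    exact (pow_eq_one_iff_of_nonneg (norm_nonneg _) (by omega)).1 h1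
  have hβ0 : β ≠ 0 := by
    rintro rfl
    rw [norm_zero] at hβn
    exact zero_ne_one hβn
  have htn : 0 < ‖t‖ := norm_pos_iff.2 ht0
  have htn1 : ‖t‖ ≤ 1 := by
    by_contra h1
    rw [not_le] at h1
    have h2 : 1 < ‖t‖ ^ (d - 1) := one_lt_pow₀ h1 (by omega)
    rw [← norm_pow, ht, hn] at h2
    have h3 := av_int_le_one v F.leadingCoeff
    linarith
  set F' : E[X] := C (β * t * (β ^ d)⁻¹) * (F.map (algebraMap (𝓞 K) E)).comp (C t⁻¹ * X) with hF'
  have hcoef : ∀ i, F'.coeff i = β * t * (β ^ d)⁻¹ *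
      (algebraMap (𝓞 K) E (F.coeff i) * t⁻¹ ^ i) := by
    intro i
    rw [hF', coeff_C_mul, comp_C_mul_X_coeff, coeff_map]
  have hd' : d = (d - 1) + 1 := by omega
  have hlead : F'.coeff d = (algebraMap (𝓞 K) E b)⁻¹ := by
    rw [hcoef d, ← hF, coeff_natDegree, hF, ← ht, ← hβ]
    have e1 : β ^ d = β ^ (d - 1) * β := by rw [← pow_succ, ← hd']
    have e2 : t⁻¹ ^ d = (t ^ (d - 1))⁻¹ * t⁻¹ := by
      rw [inv_pow, ← mul_inv, ← pow_succ, ← hd']
    rw [e1, e2]
    field_simp
  refine ⟨F', C 1, !![β * t, 0; 0, β], ?_, ?_, ?_, ?_, ?_, ?_, ?_⟩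
  · rw [Matrix.det_fin_two_of]
    simpa using ⟨⟨hβ0, ht0⟩, hβ0⟩
  · rw [hF']
    refine (natDegree_C_mul_le _ _).trans ?_
    refine natDegree_comp_le.trans ?_
    have h1 : (C t⁻¹ * X : E[X]).natDegree ≤ 1 := (natDegree_C_mul_le _ _).trans natDegree_X_le
    calc (F.map (algebraMap (𝓞 K) E)).natDegree * (C t⁻¹ * X : E[X]).natDegree
        ≤ d * 1 := Nat.mul_le_mul (natDegree_map_le.trans hF.le) h1
      _ = d := mul_one d
  · rw [natDegree_C]
    omega
  · intro i
    rw [hcoef i, norm_mul, norm_mul, norm_mul, norm_inv, norm_pow, hβn, norm_mul, norm_pow,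
      norm_inv, hn]
    have h1 : av v (algebraMap (𝓞 K) K (F.coeff i)) * ‖t‖ ≤ ‖t‖ ^ i := by
      rcases Nat.lt_or_ge i 2 with hi | hi
      · have h2 := av_int_le_one v (F.coeff i)
        rcases Nat.eq_zero_or_pos i with rfl | hi0
        · rw [pow_zero]
          nlinarith [(av v).nonneg (algebraMap (𝓞 K) K (F.coeff 0))]
        · have hi1 : i = 1 := by omega
          subst hi1
          rw [pow_one]
          nlinarith
      · have h2 := hco i hi
        rw [hF] at h2
        have h3 : av v (algebraMap (𝓞 K) K (F.coeff i)) ^ (d - 1) ≤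
            av v (algebraMap (𝓞 K) K F.leadingCoeff) ^ (i - 1) := by
          rw [← map_pow, ← map_pow, ← map_pow, ← map_pow, av_eq, av_eq, NNReal.coe_le_coe,
            (WithZeroMulInt.toNNReal_strictMono
              (NumberField.HeightOneSpectrum.one_lt_absNorm_nnreal v)).le_iff_le,
            v.valuation_of_algebraMap, v.valuation_of_algebraMap, map_pow, map_pow]
          exact h2
        rw [← hn F.leadingCoeff, ← ht, norm_pow, ← pow_mul, mul_comm (d - 1), pow_mul] at h3
        have h4 : av v (algebraMap (𝓞 K) K (F.coeff i)) ≤ ‖t‖ ^ (i - 1) :=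
          le_of_pow_le_pow_left₀ (by omega) (by positivity) h3
        calc av v (algebraMap (𝓞 K) K (F.coeff i)) * ‖t‖ ≤ ‖t‖ ^ (i - 1) * ‖t‖ :=
              mul_le_mul_of_nonneg_right h4 htn.le
          _ = ‖t‖ ^ i := by
              rw [← pow_succ]
              congr 1
              omega
    have h2 : (1 : ℝ) * ‖t‖ * (1 ^ d)⁻¹ * (av v (algebraMap (𝓞 K) K (F.coeff i)) * ‖t‖⁻¹ ^ i) =
        av v (algebraMap (𝓞 K) K (F.coeff i)) * ‖t‖ / ‖t‖ ^ i := by
      rw [one_pow, inv_one, inv_pow]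
      field_simp
    rw [h2, div_le_one (by positivity)]
    exact h1
  · intro i
    rw [coeff_C]
    split_ifs
    · rw [norm_one]
    · rw [norm_zero]
      exact zero_le_one
  · intro p
    have e1 : act !![β * t, 0; 0, β] p = (β * t * p.1, β * p.2) := by
      simp [act]
    have e2 : act !![β * t, 0; 0, β]
        (lift d (F.map (algebraMap (𝓞 K) E)) ((C b : (𝓞 K)[X]).map (algebraMap (𝓞 K) E)) p) =
        (β * t * form d (F.map (algebraMap (𝓞 K) E)) p,
          β * form d (C (algebraMap (𝓞 K) E b)) p) := by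
      simp [act, lift]
    rw [e1, e2]
    refine Prod.ext ?_ ?_
    · exact form_diag d _ t β ht0 hβ0 p
    · show form d (C 1) (β * t * p.1, β * p.2) = β * form d (C (algebraMap (𝓞 K) E b)) p
      rw [form_const, form_const, ← hβ, mul_pow, one_mul]
      have e3 : β ^ d = β ^ (d - 1) * β := by rw [← pow_succ, ← hd']
      rw [e3]
      ring
  · rw [resultant_C_right, hlead, one_pow, mul_one, norm_pow, norm_inv, hnb, inv_one, one_pow,
      Real.log_one, neg_zero]

end SXH

end Pool.Agent.RI
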