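import Mathlib
import Pool.Agent.RI.SX
import Pool.Agent.PQ.LocA
import Pool.Agent.PQ.LocB
import Pool.Agent.PQ.Gen

set_option autoImplicit false

/-!
# The local estimate at the defective primes of a polynomial
-/

namespace Pool.Agent.RI

open Polynomial NumberField IsDedekindDomain Pool.Agent.GPoly
open Pool.Agent.RDF (lift wedge form nrm UU mat Above DefectiveN coeffs)

namespace SXL

theorem seq_eq (d : ℕ) (hd : 2 ≤ d) (u : ℕ → ℝ) (c : ℝ) (h : ∀ n, u (n + 1) = c + d * u n)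
    (a b : ℕ) (hab : a < b) (he : u a = u b) : u 0 = -c / (d - 1) := by
  have hd2 : (2 : ℝ) ≤ d := by exact_mod_cast hd
  have hd1 : (0 : ℝ) < (d : ℝ) - 1 := by linarith
  have h1 : ∀ n, u n + c / (d - 1) = (d : ℝ) ^ n * (u 0 + c / (d - 1)) := by
    intro n
    induction n with
    | zero => simp
    | succ n ih =>
      have h2 : c + c / ((d : ℝ) - 1) = d * (c / (d - 1)) := by
        field_simp
        ring
      rw [h, pow_succ, mul_comm ((d : ℝ) ^ n), mul_assoc, ← ih]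
      linarith
  have h2 := h1 a
  have h3 := h1 b
  rw [he] at h2
  have h4 : ((d : ℝ) ^ b - (d : ℝ) ^ a) * (u 0 + c / (d - 1)) = 0 := by linarith
  have h5 : (d : ℝ) ^ a < (d : ℝ) ^ b := pow_lt_pow_right₀ (by linarith) hab
  have h6 : u 0 + c / (d - 1) = 0 := by
    rcases mul_eq_zero.1 h4 with h | h
    · linarith
    · exact h
  rw [neg_div]
  linarith

theorem lift_fin {L : Type} [Field L] (d : ℕ) (F : L[X]) (hF : F.natDegree ≤ d) (b : L)
    (p : L × L) (hp : p.2 ≠ 0) :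
    lift d F (C b) p = (p.2 ^ d * F.eval (p.1 / p.2), p.2 ^ d * b) := by
  have h1 := RDF.form_affine d F hF p.1 p.2 hp
  have h2 := RDF.form_affine d (C b) (by simp) p.1 p.2 hp
  rw [eval_C] at h2
  exact Prod.ext h1 h2

theorem lift_inf {L : Type} [Field L] (d : ℕ) (hd : 1 ≤ d) (F : L[X]) (b : L) (p : L × L)
    (hp : p.2 = 0) : lift d F (C b) p = (F.coeff d * p.1 ^ d, 0) := by
  have h1 := RDF.form_infty d F p.1
  have h2 := RDF.form_infty d (C b) p.1
  rw [coeff_C, if_neg (by omega), zero_mul] at h2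
  obtain ⟨p1, p2⟩ := p
  simp only at hp
  subst hp
  exact Prod.ext h1 h2

theorem iter_fin {L : Type} [Field L] (d : ℕ) (F : L[X]) (hF : F.natDegree ≤ d) (b : L)
    (hb : b ≠ 0) (p : L × L) (hp : p.2 ≠ 0) (n : ℕ) :
    ((lift d F (C b))^[n] p).2 ≠ 0 ∧
      ((lift d F (C b))^[n] p).1 / ((lift d F (C b))^[n] p).2 =
        (fun z => b⁻¹ * F.eval z)^[n] (p.1 / p.2) := by
  induction n with
  | zero => exact ⟨hp, rfl⟩
  | succ n ih =>
    rw [Function.iterate_succ_apply', Function.iterate_succ_apply', lift_fin d F hF b _ ih.1]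
    refine ⟨mul_ne_zero (pow_ne_zero _ ih.1) hb, ?_⟩
    simp only
    rw [← ih.2, mul_div_mul_left _ _ (pow_ne_zero _ ih.1), div_eq_inv_mul]

theorem log_snd {E : Type} [NormedField E] (d : ℕ) (hd : 2 ≤ d) (F : E[X])
    (hF : F.natDegree ≤ d) (b : E) (hb : b ≠ 0) (w : E × E) (hw : PreV d F (C b) w)
    (h2 : w.2 ≠ 0) : Real.log ‖w.2‖ = -Real.log ‖b‖ / (d - 1) := by
  obtain ⟨-, m, n, hmn, he⟩ := hw
  refine seq_eq d hd (fun k => Real.log ‖((lift d F (C b))^[k] w).2‖) (Real.log ‖b‖) ?_ m n hmn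
    (by simp only [he])
  intro k
  have h1 := (iter_fin d F hF b hb w h2 k).1
  rw [Function.iterate_succ_apply', lift_fin d F hF b _ h1]
  simp only
  rw [norm_mul, norm_pow, Real.log_mul (pow_ne_zero _ (norm_ne_zero_iff.2 h1))
    (norm_ne_zero_iff.2 hb), Real.log_pow]
  ring

theorem log_fst {E : Type} [NormedField E] (d : ℕ) (hd : 2 ≤ d) (F : E[X])
    (ha : F.coeff d ≠ 0) (b : E) (w : E × E) (hw : PreV d F (C b) w)
    (h2 : w.2 = 0) : Real.log ‖w.1‖ = -Real.log ‖F.coeff d‖ / (d - 1) := by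
  obtain ⟨h0, m, n, hmn, he⟩ := hw
  have h10 : w.1 ≠ 0 := fun h => h0 (Prod.ext h h2)
  have h1 : ∀ k : ℕ, ((lift d F (C b))^[k] w).2 = 0 ∧ ((lift d F (C b))^[k] w).1 ≠ 0 := by
    intro k
    induction k with
    | zero => exact ⟨h2, h10⟩
    | succ k ih =>
      rw [Function.iterate_succ_apply', lift_inf d (by omega) F b _ ih.1]
      exact ⟨rfl, mul_ne_zero ha (pow_ne_zero _ ih.2)⟩
  refine seq_eq d hd (fun k => Real.log ‖((lift d F (C b))^[k] w).1‖) (Real.log ‖F.coeff d‖) ?_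
    m n hmn (by simp only [he])
  intro k
  rw [Function.iterate_succ_apply', lift_inf d (by omega) F b _ (h1 k).1]
  simp only
  rw [norm_mul, norm_pow, Real.log_mul (norm_ne_zero_iff.2 ha)
    (pow_ne_zero _ (norm_ne_zero_iff.2 (h1 k).2)), Real.log_pow]

variable {K : Type} [Field K] [NumberField K]

theorem map_C_int {L : Type} [Field L] [Algebra K L] (b : 𝓞 K) :
    (C b : (𝓞 K)[X]).map (algebraMap (𝓞 K) L) = C (algebraMap (𝓞 K) L b) := map_C _

/-- The quotient of the coordinates is preperiodic. -/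
theorem preE_of {L : Type} [Field L] [Algebra K L] (d : ℕ) (F : (𝓞 K)[X])
    (hF : F.natDegree ≤ d) (b : 𝓞 K) (hb : b ≠ 0) (z : L × L)
    (hz : PreV d (F.map (algebraMap (𝓞 K) L)) ((C b : (𝓞 K)[X]).map (algebraMap (𝓞 K) L)) z)
    (h2 : z.2 ≠ 0) : PQ.PreE L F b (z.1 / z.2) := by
  obtain ⟨-, m, n, hmn, he⟩ := hz
  have hbL : algebraMap (𝓞 K) L b ≠ 0 := by
    rw [IsScalarTower.algebraMap_apply (𝓞 K) K L]
    exact (map_ne_zero_iff _ (algebraMap K L).injective).2
      ((map_ne_zero_iff _ RingOfIntegers.coe_injective).2 hb)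
  rw [map_C_int] at he
  have h1 := fun k => (iter_fin d (F.map (algebraMap (𝓞 K) L)) (natDegree_map_le.trans hF) _ hbL
    z h2 k).2
  refine ⟨m, n, hmn, ?_⟩
  have h3 : (fun y => (PQ.fE L F b).eval y) =
      fun y => (algebraMap (𝓞 K) L b)⁻¹ * (F.map (algebraMap (𝓞 K) L)).eval y := by
    funext y
    rw [PQ.fE, fp, Polynomial.map_mul, map_C, Polynomial.map_map, eval_mul, eval_C, map_inv₀,
      ← IsScalarTower.algebraMap_apply (𝓞 K) K L, ← IsScalarTower.algebraMap_eq (𝓞 K) K L]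
  rw [h3, ← h1 m, ← h1 n, he]

/-- The quotient of the coordinates has degree at most `N`. -/
theorem degLe_of {L : Type} [Field L] [NumberField L] [Algebra K L] (N : ℕ) (z : L × L)
    (hz : PDegLe K N z) : PQ.DegLe K N (z.1 / z.2) := by
  obtain ⟨c, hc, E, hE, h1, h3⟩ := hz
  have : FiniteDimensional K L := FiniteDimensional.right ℚ K L
  have hx : z.1 / z.2 ∈ E := by
    have h4 : z.1 / z.2 = (c • z).1 / (c • z).2 := by
      rw [Prod.smul_fst, Prod.smul_snd, smul_eq_mul, smul_eq_mul, mul_div_mul_left _ _ hc]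
    rw [h4]
    exact div_mem h1 h3
  refine ⟨minpoly K (⟨z.1 / z.2, hx⟩ : E), minpoly.ne_zero (Algebra.IsIntegral.isIntegral _),
    (minpoly.natDegree_le _).trans hE, ?_⟩
  have h4 := minpoly.aeval K (⟨z.1 / z.2, hx⟩ : E)
  have h5 := congrArg (algebraMap E L) h4
  rw [map_zero, ← aeval_algebraMap_apply] at h5
  exact h5

/-- Splitting off the point at infinity. -/
theorem split_inf {T : ℕ} (f : Fin T → Fin T → ℝ) (sym : ∀ i j, f i j = f j i) (Y : Finset (Fin T))
    (c : ℝ) (hc : 0 ≤ c) (hY : ∀ i j, i ∉ Y → j ∉ Y → i = j)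
    (h : ∀ i j, i ∉ Y → j ∈ Y → f i j = c) :
    ∑ i, ∑ j ∈ Finset.univ.erase i, f i j ≤
      ∑ i ∈ Y, ∑ j ∈ Y.erase i, f i j + 2 * T * c ∧ (T : ℝ) - 1 ≤ Y.card := by
  classical
  by_cases hall : ∀ i, i ∈ Y
  · have h1 : Y = Finset.univ := by
      ext i
      simp [hall i]
    rw [h1, Finset.card_univ, Fintype.card_fin]
    constructor
    · have : 0 ≤ 2 * (T : ℝ) * c := by positivity
      linarith
    · linarith
  · push Not at hall
    obtain ⟨i0, hi0⟩ := hall
    have h1 : Y = Finset.univ.erase i0 := by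
      ext i
      rw [Finset.mem_erase]
      constructor
      · intro hi
        refine ⟨?_, Finset.mem_univ _⟩
        rintro rfl
        exact hi0 hi
      · rintro ⟨hi, -⟩
        by_contra h2
        exact hi (hY i i0 h2 hi0)
    have hT : 1 ≤ T := Nat.pos_of_ne_zero (by
      rintro rfl
      exact i0.elim0)
    have hcard : Y.card = T - 1 := by
      rw [h1, Finset.card_erase_of_mem (Finset.mem_univ _), Finset.card_univ, Fintype.card_fin]
    have hcard' : (Y.card : ℝ) = T - 1 := by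
      rw [hcard, Nat.cast_sub hT, Nat.cast_one]
    constructor
    · have h2 : ∑ i, ∑ j ∈ Finset.univ.erase i, f i j =
          ∑ j ∈ Finset.univ.erase i0, f i0 j +
            ∑ i ∈ Finset.univ.erase i0, ∑ j ∈ Finset.univ.erase i, f i j :=
        (Finset.add_sum_erase Finset.univ (fun i => ∑ j ∈ Finset.univ.erase i, f i j)
          (Finset.mem_univ i0)).symm
      have h3 : ∑ j ∈ Finset.univ.erase i0, f i0 j = Y.card * c := by
        rw [← h1, Finset.sum_congr rfl fun j hj => h i0 j hi0 hj, Finset.sum_const, nsmul_eq_mul]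
      have h4 : ∑ i ∈ Finset.univ.erase i0, ∑ j ∈ Finset.univ.erase i, f i j =
          Y.card * c + ∑ i ∈ Y, ∑ j ∈ Y.erase i, f i j := by
        rw [← h1, ← nsmul_eq_mul, ← Finset.sum_const, ← Finset.sum_add_distrib]
        refine Finset.sum_congr rfl fun i hi => ?_
        have h5 : i0 ∈ Finset.univ.erase i := by
          rw [Finset.mem_erase]
          refine ⟨?_, Finset.mem_univ _⟩
          rintro rfl
          exact hi0 hi
        rw [← Finset.add_sum_erase _ _ h5, sym i i0, h i0 i hi0 hi, Finset.erase_right_comm, ← h1]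
      rw [h2, h3, h4, hcard']
      linarith
    · rw [hcard']

/-- The local estimate of `LocDef` from an affine one. -/
theorem locDef_of (d N : ℕ) (hd : 2 ≤ d) (δ C₀ : ℝ) (hδ : 0 < δ) (hC₀ : 0 ≤ C₀) (F : (𝓞 K)[X])
    (b : 𝓞 K) (hb : b ≠ 0) (hF : F.natDegree = d) (v : HeightOneSpectrum (𝓞 K))
    (H : ∀ (Om : Type) [NormedField Om] [IsAlgClosed Om] [IsUltrametricDist Om] [Algebra K Om],
      (∀ x : K, ‖algebraMap K Om x‖ = av v x) →
      ∀ (T : ℕ) (x : Fin T → Om), Function.Injective x → (∀ i, PQ.PreE Om F b (x i)) →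
      (∀ i, PQ.DegLe K N (x i)) →
      ∑ i, ∑ j, Real.log ‖x i - x j‖ ≤
        (T : ℝ) ^ 2 * ((wt v F.leadingCoeff - wt v b) / (d - 1)) -
          (δ * (T : ℝ) ^ 2 - C₀ * T) * (wt v F.leadingCoeff + wt v b)) :
    LocDef d N (δ / d) (2 * δ + C₀ + 3) F (C b) v := by
  classical
  intro Om _ _ _ _ hOm L _ _ _ φ m z hz hw
  have hd2 : (2 : ℝ) ≤ d := by exact_mod_cast hd
  have hd1 : (0 : ℝ) < (d : ℝ) - 1 := by linarith
  have ha0 : F.leadingCoeff ≠ 0 := by
    intro h0
    rw [leadingCoeff_eq_zero] at h0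
    rw [h0, natDegree_zero] at hF
    omega
  set wa : ℝ := wt v F.leadingCoeff with hwa
  set wb : ℝ := wt v b with hwb
  have hwa0 : 0 ≤ wa := wt_nonneg v _
  have hwb0 : 0 ≤ wb := wt_nonneg v _
  have hres : -Real.log (av v (algebraMap (𝓞 K) K (resultant F (C b) d d))) = d * (wa + wb) := by
    have h1 : resultant F (C b) d d = F.leadingCoeff ^ d * b ^ d := by
      rw [resultant_C_right, ← hF, coeff_natDegree]
    have h2 : ∀ y : 𝓞 K, y ≠ 0 → Real.log (av v (algebraMap (𝓞 K) K (y ^ d))) = -(d * wt v y) := by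
      intro y hy
      rw [map_pow, map_pow, Real.log_pow, wt]
      ring
    rw [h1, map_mul, map_mul, Real.log_mul (av_int_pos v _ (pow_ne_zero _ ha0)).ne'
      (av_int_pos v _ (pow_ne_zero _ hb)).ne', h2 _ ha0, h2 _ hb]
    ring
  rw [hres]
  -- the norms of the coefficients
  have hnb : ∀ y : 𝓞 K, Real.log ‖algebraMap (𝓞 K) Om y‖ = -wt v y := by
    intro y
    rw [IsScalarTower.algebraMap_apply (𝓞 K) K Om, hOm, wt, neg_neg]
  have hbO : algebraMap (𝓞 K) Om b ≠ 0 := by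
    rw [IsScalarTower.algebraMap_apply (𝓞 K) K Om]
    exact (map_ne_zero_iff _ (algebraMap K Om).injective).2
      ((map_ne_zero_iff _ RingOfIntegers.coe_injective).2 hb)
  have haO : (F.map (algebraMap (𝓞 K) Om)).coeff d ≠ 0 := by
    rw [coeff_map, ← hF, coeff_natDegree, IsScalarTower.algebraMap_apply (𝓞 K) K Om]
    exact (map_ne_zero_iff _ (algebraMap K Om).injective).2
      ((map_ne_zero_iff _ RingOfIntegers.coe_injective).2 ha0)
  have hP : ∀ i, PreV d (F.map (algebraMap (𝓞 K) Om)) (C (algebraMap (𝓞 K) Om b))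
      (Prod.map φ φ (z i)) := by
    intro i
    have h1 := (hz i).2.map (φ : L →+* Om)
    rw [map_algHom, map_algHom, map_C_int] at h1
    exact h1
  have hFO : (F.map (algebraMap (𝓞 K) Om)).natDegree ≤ d := natDegree_map_le.trans hF.le
  have hφn : ∀ y : L, y ≠ 0 → ‖φ y‖ ≠ 0 := fun y hy =>
    norm_ne_zero_iff.2 ((map_ne_zero_iff φ φ.injective).2 hy)
  have hs : ∀ i, (z i).2 ≠ 0 → Real.log ‖φ (z i).2‖ = wb / (d - 1) := by
    intro i hi
    have h1 := log_snd d hd _ hFO _ hbO _ (hP i)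
      (show (Prod.map φ φ (z i)).2 ≠ 0 from (map_ne_zero_iff _ φ.injective).2 hi)
    rw [hnb, neg_neg] at h1
    exact h1
  have ht : ∀ i, (z i).2 = 0 → Real.log ‖φ (z i).1‖ = wa / (d - 1) := by
    intro i hi
    have h1 := log_fst d hd _ haO _ _ (hP i)
      (show (Prod.map φ φ (z i)).2 = 0 by simp [hi])
    rw [coeff_map, ← hF, coeff_natDegree, hnb, neg_neg, hF] at h1
    exact h1
  have hz1 : ∀ i, (z i).2 = 0 → (z i).1 ≠ 0 := fun i hi h1 => (hz i).2.1 (Prod.ext h1 hi)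
  -- the affine points
  set Y : Finset (Fin (d ^ m)) := Finset.univ.filter fun i => (z i).2 ≠ 0 with hY
  have hYm : ∀ i, i ∈ Y ↔ (z i).2 ≠ 0 := fun i => by simp [hY]
  set W : ℝ := wa + wb with hW
  have hW0 : 0 ≤ W := by positivity
  obtain ⟨h1, h2⟩ := split_inf (fun i j => Real.log ‖φ (wedge (z i) (z j))‖) (fun i j => by
      have : wedge (z i) (z j) = -wedge (z j) (z i) := by
        simp only [wedge]
        ring
      rw [this, map_neg, norm_neg]) Y (W / (d - 1)) (by positivity) (by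
      intro i j hi hj
      rw [hYm, not_not] at hi hj
      by_contra hij
      refine hw i j hij ?_
      simp [wedge, hi, hj]) (by
      intro i j hi hj
      rw [hYm, not_not] at hi
      rw [hYm] at hj
      have h3 : wedge (z i) (z j) = (z i).1 * (z j).2 := by
        simp [wedge, hi]
      rw [h3, map_mul, norm_mul, Real.log_mul (hφn _ (hz1 i hi)) (hφn _ hj), ht i hi, hs j hj, hW]
      ring)
  have hYc : Y.card ≤ d ^ m := by
    have := Finset.card_le_univ Y
    rwa [Fintype.card_fin] at this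
  have hTc : (((d ^ m : ℕ) : ℕ) : ℝ) = (d : ℝ) ^ m := Nat.cast_pow d m
  have hYc' : (Y.card : ℝ) ≤ (d : ℝ) ^ m := by
    rw [← hTc]
    exact_mod_cast hYc
  rw [hTc] at h1 h2
  let e : Fin Y.card ≃ Y := (Finset.equivFinOfCardEq rfl).symm
  have hez : ∀ i, (z (e i)).2 ≠ 0 := fun i => (hYm _).1 (e i).2
  set x : Fin Y.card → Om := fun i => φ ((z (e i)).1 / (z (e i)).2) with hx
  have hxinj : Function.Injective x := by
    intro i j hij
    have h3 := φ.injective hij
    rw [div_eq_div_iff (hez i) (hez j)] at h3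
    by_contra hne
    refine hw (e i) (e j) (fun h => hne (e.injective (Subtype.ext h))) ?_
    simp only [wedge]
    rw [h3]
    ring
  have h3 := H Om hOm Y.card x hxinj
    (fun i => PQ.PreE.map (preE_of d F hF.le b hb _ (hz (e i)).2 (hez i)) φ)
    (fun i => PQ.DegLe.map (degLe_of N _ (hz (e i)).1) φ)
  have h4 : ∑ i ∈ Y, ∑ j ∈ Y.erase i, Real.log ‖φ (wedge (z i) (z j))‖ =
      (Y.card * (Y.card - 1) : ℝ) * (2 * wb / (d - 1)) + ∑ i, ∑ j, Real.log ‖x i - x j‖ := by
    have h40 := card_pairs (Finset.univ : Finset (Fin Y.card)) (2 * wb / ((d : ℝ) - 1))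
    rw [Finset.card_univ, Fintype.card_fin] at h40
    rw [← sum_equiv Y e (fun i j => Real.log ‖φ (wedge (z i) (z j))‖), ← h40,
      ← Finset.sum_add_distrib]
    refine Finset.sum_congr rfl fun i _ => ?_
    have h5 : ∑ j, Real.log ‖x i - x j‖ = ∑ j ∈ Finset.univ.erase i, Real.log ‖x i - x j‖ := by
      rw [← Finset.add_sum_erase _ _ (Finset.mem_univ i), sub_self, norm_zero, Real.log_zero,
        zero_add]
    rw [h5, ← Finset.sum_add_distrib]
    refine Finset.sum_congr rfl fun j hj => ?_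
    have hij : i ≠ j := (Finset.ne_of_mem_erase hj).symm
    have h6 : wedge (z (e i)) (z (e j)) = (z (e i)).2 * (z (e j)).2 *
        ((z (e i)).1 / (z (e i)).2 - (z (e j)).1 / (z (e j)).2) := by
      simp only [wedge]
      field_simp [hez i, hez j]
    have h7 : φ ((z (e i)).1 / (z (e i)).2 - (z (e j)).1 / (z (e j)).2) = x i - x j := by
      rw [map_sub]
    rw [h6, map_mul, map_mul, h7, norm_mul, norm_mul, Real.log_mul, Real.log_mul, hs _ (hez i),
      hs _ (hez j)]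
    · ring
    · exact hφn _ (hez i)
    · exact hφn _ (hez j)
    · exact mul_ne_zero (hφn _ (hez i)) (hφn _ (hez j))
    · exact norm_ne_zero_iff.2 (sub_ne_zero.2 fun h => hij (hxinj h))
  set T : ℝ := (d : ℝ) ^ m with hT
  set t : ℝ := (Y.card : ℝ) with ht'
  have ht0 : 0 ≤ t := Nat.cast_nonneg _
  have hT1 : (1 : ℝ) ≤ T := one_le_pow₀ (by linarith)
  rw [h4] at h1
  -- the comparison
  have e1 : t * (t - 1) * (2 * wb / (d - 1)) + t ^ 2 * ((wa - wb) / (d - 1)) ≤
      T ^ 2 * (W / (d - 1)) := by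
    have h5 : t * (t - 1) * (2 * wb / (d - 1)) + t ^ 2 * ((wa - wb) / (d - 1)) =
        (t ^ 2 * W - 2 * t * wb) / (d - 1) := by
      rw [hW]
      field_simp
      ring
    rw [h5, ← mul_div_assoc]
    refine div_le_div_of_nonneg_right ?_ hd1.le
    have h6 : t ^ 2 * W ≤ T ^ 2 * W :=
      mul_le_mul_of_nonneg_right (pow_le_pow_left₀ ht0 hYc' 2) hW0
    have h7 : 0 ≤ 2 * t * wb := by positivity
    linarith
  have e2 : (δ * T ^ 2 - (2 * δ + C₀) * T) * W ≤ (δ * t ^ 2 - C₀ * t) * W := by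
    refine mul_le_mul_of_nonneg_right ?_ hW0
    have h5 : T ^ 2 - 2 * T ≤ t ^ 2 := by
      have h6 : (T - 1) ^ 2 ≤ t ^ 2 := pow_le_pow_left₀ (by linarith) h2 2
      nlinarith
    have h6 := mul_le_mul_of_nonneg_left h5 hδ.le
    have h7 := mul_le_mul_of_nonneg_left hYc' hC₀
    nlinarith
  have e3 : W / ((d : ℝ) - 1) ≤ W := div_le_self hW0 (by linarith)
  have e4 : T * (W / (d - 1)) ≤ T * W := mul_le_mul_of_nonneg_left e3 (by linarith)
  have e5 : (d : ℝ) * W / (d * (d - 1)) = W / (d - 1) := by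
    field_simp
  have e6 : (δ / d * T ^ 2 - (2 * δ + C₀ + 3) * (m + 1) * T) * (d * W) ≤
      (δ * T ^ 2 - (2 * δ + C₀ + 3) * T) * W := by
    have h5 : (δ / d * T ^ 2 - (2 * δ + C₀ + 3) * (m + 1) * T) * (d * W) =
        (δ * T ^ 2 - (2 * δ + C₀ + 3) * T * ((m + 1) * d)) * W := by
      field_simp
    rw [h5]
    refine mul_le_mul_of_nonneg_right ?_ hW0
    have h6 : (1 : ℝ) ≤ (m + 1) * d := by
      have : (0 : ℝ) ≤ m := Nat.cast_nonneg _
      nlinarith
    have h7 : 0 ≤ (2 * δ + C₀ + 3) * T := by positivity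
    nlinarith
  rw [e5]
  have e7 : T * (T - 1) * (W / (d - 1)) = T ^ 2 * (W / (d - 1)) - T * (W / (d - 1)) := by
    ring
  rw [e7]
  have h3' : ∑ i, ∑ j, Real.log ‖x i - x j‖ ≤
      t ^ 2 * ((wa - wb) / (d - 1)) - (δ * t ^ 2 - C₀ * t) * W := h3
  have h1' : ∑ i, ∑ j ∈ Finset.univ.erase i, Real.log ‖φ (wedge (z i) (z j))‖ ≤
      t * (t - 1) * (2 * wb / (d - 1)) + ∑ i, ∑ j, Real.log ‖x i - x j‖ +
        2 * T * (W / (d - 1)) := h1
  linarith

end SXL

end Pool.Agent.RI
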