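import Mathlib
import Pool.Agent.RI.SAll
import Pool.Agent.RI.SMin2
import Pool.Agent.RI.TMain

set_option autoImplicit false

/-!
# The final forms of Theorem S
-/

namespace Pool.Agent.RI

open Polynomial NumberField IsDedekindDomain Pool.Agent.GPoly
open Pool.Agent.RDF (lift wedge DefectiveN)

namespace TForm

variable {K : Type} [Field K] [NumberField K]

theorem prod_maxPow (x : 𝓞 K) (hx : x ≠ 0) (P : Finset (HeightOneSpectrum (𝓞 K)))
    (hP : ∀ v : HeightOneSpectrum (𝓞 K), x ∈ v.asIdeal → v ∈ P) :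
    ∏ v ∈ P, v.maxPowDividing (Ideal.span {x}) = Ideal.span {x} := by
  have hJ : Ideal.span {x} ≠ (0 : Ideal (𝓞 K)) := by
    rw [Ne, Ideal.zero_eq_bot, Ideal.span_singleton_eq_bot]
    exact hx
  have h1 := Ideal.finprod_heightOneSpectrum_factorization hJ
  rw [finprod_eq_prod_of_mulSupport_subset (s := P)] at h1
  · exact h1
  · intro v hv
    apply hP
    by_contra h
    apply hv
    have h2 : (Associates.mk v.asIdeal).count (Associates.mk (Ideal.span {x})).factors = 0 := by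
      by_contra h3
      exact h (Ideal.dvd_span_singleton.1
        ((Associates.count_ne_zero_iff_dvd hJ v.irreducible).1 h3))
    show v.maxPowDividing (Ideal.span {x}) = 1
    rw [HeightOneSpectrum.maxPowDividing, h2, pow_zero]

theorem dvd_maxPow (x : 𝓞 K) (hx : x ≠ 0) (v : HeightOneSpectrum (𝓞 K)) (hv : x ∈ v.asIdeal) :
    v.asIdeal ∣ v.maxPowDividing (Ideal.span {x}) := by
  have hJ : Ideal.span {x} ≠ (0 : Ideal (𝓞 K)) := by
    rw [Ne, Ideal.zero_eq_bot, Ideal.span_singleton_eq_bot]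
    exact hx
  rw [HeightOneSpectrum.maxPowDividing]
  refine dvd_pow_self _ ?_
  exact (Associates.count_ne_zero_iff_dvd hJ v.irreducible).2 (Ideal.dvd_span_singleton.2 hv)

/-- The part of `(x)` at a set of primes. -/
theorem exists_part (x : 𝓞 K) (hx : x ≠ 0) (p : HeightOneSpectrum (𝓞 K) → Prop) :
    ∃ J : Ideal (𝓞 K), J ∣ Ideal.span {x} ∧
      (∀ v : HeightOneSpectrum (𝓞 K), v.asIdeal ∣ J ↔ x ∈ v.asIdeal ∧ p v) ∧
      Real.log (Ideal.absNorm J) =
        ∑ᶠ (v : HeightOneSpectrum (𝓞 K)) (_ : p v), -Real.log (av v (algebraMap (𝓞 K) K x)) := by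
  classical
  have hspan : Ideal.span {x} ≠ (0 : Ideal (𝓞 K)) := by
    rw [Ne, Ideal.zero_eq_bot, Ideal.span_singleton_eq_bot]
    exact hx
  have hfin := Ideal.finite_factors hspan
  obtain ⟨P, hP⟩ : ∃ P : Finset (HeightOneSpectrum (𝓞 K)), ∀ v, v ∈ P ↔ x ∈ v.asIdeal := by
    refine ⟨hfin.toFinset, fun v => ?_⟩
    rw [Set.Finite.mem_toFinset]
    exact Ideal.dvd_span_singleton
  refine ⟨∏ v ∈ P with p v, v.maxPowDividing (Ideal.span {x}), ?_, ?_, ?_⟩
  · have h1 := prod_maxPow x hx P (fun v hv => (hP v).2 hv)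
    have h2 : ∏ v ∈ P with p v, v.maxPowDividing (Ideal.span {x}) ∣
        ∏ v ∈ P, v.maxPowDividing (Ideal.span {x}) :=
      Finset.prod_dvd_prod_of_subset _ _ _ (Finset.filter_subset _ _)
    exact h2.trans (dvd_of_eq h1)
  · intro v
    constructor
    · intro h
      obtain ⟨w, hw, hvw⟩ := (v.prime.dvd_finsetProd_iff _).1 h
      rw [Finset.mem_filter] at hw
      have h1 : v = w := by
        refine HeightOneSpectrum.ext ?_
        rw [HeightOneSpectrum.maxPowDividing] at hvw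
        exact associated_iff_eq.1 ((Prime.dvd_prime_iff_associated v.prime w.prime).1
          (v.prime.dvd_of_dvd_pow hvw))
      rw [h1]
      exact ⟨(hP w).1 hw.1, hw.2⟩
    · rintro ⟨h1, h2⟩
      exact (dvd_maxPow x hx v h1).trans
        (Finset.dvd_prod_of_mem (fun v : HeightOneSpectrum (𝓞 K) =>
          v.maxPowDividing (Ideal.span {x})) (Finset.mem_filter.2 ⟨(hP v).2 h1, h2⟩))
  · rw [map_prod, Nat.cast_prod, Real.log_prod]
    · rw [finsum_cond_eq_sum_of_cond_iff (t := P.filter p)]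
      · refine Finset.sum_congr rfl fun v _ => ?_
        exact (pb_neg_log v x hx).symm
      · intro v hv
        rw [Finset.mem_filter]
        refine ⟨fun h => ⟨(hP v).2 ?_, h⟩, fun h => h.2⟩
        by_contra h1
        exact hv (wt_eq_zero v x h1)
    · intro v _
      rw [Nat.cast_ne_zero, Ne, Ideal.absNorm_eq_zero_iff, HeightOneSpectrum.maxPowDividing]
      exact pow_ne_zero _ v.ne_bot

theorem mono_log {x y : ℝ} (hx : 0 ≤ x) (hxy : x ≤ y) :
    x * Real.log (x + 1) ≤ y * Real.log (y + 1) := by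
  refine mul_le_mul hxy (Real.log_le_log (by linarith) (by linarith))
    (Real.log_nonneg (by linarith)) (by linarith)

end TForm

open TForm SAll

/-- The sum of the minimal resultants at the primes where `F / G` has neither potentially good
reduction nor is defective, and at the infinite places. -/
noncomputable def hgt {K : Type} [Field K] [NumberField K] (d N l : ℕ) (F G : (𝓞 K)[X]) : ℝ :=
  (∑ᶠ (v : HeightOneSpectrum (𝓞 K)) (_ : ¬ PotGood d F G v ∧ ¬ DefectiveN d N l F G v),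
      lamV d F G v) +
    ∑ σ : K →+* ℂ, lamC d (F.map (σ.comp (algebraMap (𝓞 K) K)))
      (G.map (σ.comp (algebraMap (𝓞 K) K)))

/-- The part of the resultant at the defective primes. -/
noncomputable def dfc {K : Type} [Field K] [NumberField K] (d N l : ℕ) (F G : (𝓞 K)[X]) : ℝ :=
  ∑ᶠ (v : HeightOneSpectrum (𝓞 K)) (_ : DefectiveN d N l F G v),
    -Real.log (av v (algebraMap (𝓞 K) K (resultant F G d d)))

theorem hgt_nonneg {K : Type} [Field K] [NumberField K] (d N l : ℕ) (F G : (𝓞 K)[X])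
    (hF : F.natDegree ≤ d) (hG : G.natDegree ≤ d) (hR : resultant F G d d ≠ 0) :
    0 ≤ hgt d N l F G := by
  classical
  have hfin := lamV_support d F G hF hG hR
  rw [hgt, finsum_filter _ hfin.toFinset (fun v hv => hfin.mem_toFinset.2 hv)]
  exact add_nonneg (Finset.sum_nonneg fun v _ => lamV_nonneg d F G v)
    (Finset.sum_nonneg fun σ _ => le_max_left _ _)

/-- THEOREM S: all defective primes are taken together. -/
theorem main_form (N d l : ℕ) (hd : 2 ≤ d) : ∃ C : ℝ, 0 ≤ C ∧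
    ∀ (K : Type) [Field K] [NumberField K],
    ∀ F G : (𝓞 K)[X], F.natDegree ≤ d → G.natDegree ≤ d → resultant F G d d ≠ 0 →
    ∀ m : ℝ, 0 < m →
    (m ≤ 1 ∨ (∃ v : HeightOneSpectrum (𝓞 K), m ≤ lamV d F G v) ∨
      (∃ σ : K →+* ℂ, m ≤ lamC d (F.map (σ.comp (algebraMap (𝓞 K) K)))
        (G.map (σ.comp (algebraMap (𝓞 K) K)))) ∨ m ≤ dfc d N l F G) →
    ∀ x : ℝ, Module.finrank ℚ K + hgt d N l F G / m ≤ x →
    ∀ (L : Type) [Field L] [NumberField L] [Algebra K L], ∀ X : Finset (L × L),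
      (∀ p ∈ X, Pool.Agent.RDF.DegLe K N p ∧ p ≠ 0 ∧ ∃ a b : ℕ, a < b ∧
        wedge ((lift d (F.map (algebraMap (𝓞 K) L)) (G.map (algebraMap (𝓞 K) L)))^[a] p)
          ((lift d (F.map (algebraMap (𝓞 K) L)) (G.map (algebraMap (𝓞 K) L)))^[b] p) = 0) →
      (∀ p ∈ X, ∀ q ∈ X, p ≠ q → wedge p q ≠ 0) →
      (X.card : ℝ) ≤ C * (x * Real.log (x + 1)) := by
  obtain ⟨C, hC, hmain⟩ := main_T N d l hd
  refine ⟨C, hC, ?_⟩
  intro K _ _ F G hF hG hR m hm0 hm x hx L _ _ _ X hX hXw
  classical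
  obtain ⟨J, hJR, hJ, hJn⟩ := exists_part (resultant F G d d) hR (DefectiveN d N l F G)
  have hfin := lamV_support d F G hF hG hR
  have hP : ∀ v, lamV d F G v ≠ 0 → v ∈ hfin.toFinset := fun v hv =>
    (Set.Finite.mem_toFinset hfin).mpr hv
  have hA' : ∑ᶠ (v : HeightOneSpectrum (𝓞 K)) (_ : ¬ v.asIdeal ∣ J), lamV d F G v =
      ∑ᶠ (v : HeightOneSpectrum (𝓞 K)) (_ : ¬ PotGood d F G v ∧ ¬ DefectiveN d N l F G v),
        lamV d F G v := by
    rw [finsum_filter _ hfin.toFinset hP, finsum_filter _ hfin.toFinset hP,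
      Finset.sum_filter, Finset.sum_filter]
    refine Finset.sum_congr rfl fun v _ => ?_
    by_cases h2 : resultant F G d d ∈ v.asIdeal
    · by_cases h3 : DefectiveN d N l F G v
      · have h4 : v.asIdeal ∣ J := (hJ v).2 ⟨h2, h3⟩
        simp [h3, h4]
      · have h4 : ¬ v.asIdeal ∣ J := fun h => h3 ((hJ v).1 h).2
        by_cases h5 : PotGood d F G v
        · have h6 := lamV_of_potGood d hd F G hF hG hR v h5
          simp [h4, h6]
        · simp [h3, h4, h5]
    · have h6 := lamV_eq_zero d F G hF hG v h2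
      simp [h6]
  refine hmain K F G hF hG hR J hJR (fun v hv => ((hJ v).1 hv).2) m hm0 ?_ x ?_ L X hX hXw
  · rw [hJn]
    exact hm
  · rw [hA', add_comm]
    exact hx

/-- The largest of `1`, the minimal resultants and the defective part. -/
theorem exists_max (d N l : ℕ) {K : Type} [Field K] [NumberField K] (F G : (𝓞 K)[X])
    (hF : F.natDegree ≤ d) (hG : G.natDegree ≤ d) (hR : resultant F G d d ≠ 0) :
    ∃ m : ℝ, 1 ≤ m ∧ (∀ v : HeightOneSpectrum (𝓞 K), lamV d F G v ≤ m) ∧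
      (∀ σ : K →+* ℂ, lamC d (F.map (σ.comp (algebraMap (𝓞 K) K)))
        (G.map (σ.comp (algebraMap (𝓞 K) K))) ≤ m) ∧ dfc d N l F G ≤ m ∧
      (m ≤ 1 ∨ (∃ v : HeightOneSpectrum (𝓞 K), m ≤ lamV d F G v) ∨
      (∃ σ : K →+* ℂ, m ≤ lamC d (F.map (σ.comp (algebraMap (𝓞 K) K)))
        (G.map (σ.comp (algebraMap (𝓞 K) K)))) ∨ m ≤ dfc d N l F G) := by
  classical
  have hfin := lamV_support d F G hF hG hR
  set T : Finset ℝ := insert 1 (insert (dfc d N l F G) (hfin.toFinset.image (lamV d F G) ∪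
    Finset.univ.image (fun σ : K →+* ℂ => lamC d (F.map (σ.comp (algebraMap (𝓞 K) K)))
        (G.map (σ.comp (algebraMap (𝓞 K) K)))))) with hT
  have hne : T.Nonempty := ⟨1, Finset.mem_insert_self _ _⟩
  obtain ⟨m, h1, hmax⟩ : ∃ m ∈ T, ∀ x ∈ T, x ≤ m :=
    ⟨T.max' hne, T.max'_mem hne, fun x hx => T.le_max' x hx⟩
  refine ⟨m, hmax 1 (Finset.mem_insert_self _ _), ?_, ?_, ?_, ?_⟩
  · intro v
    by_cases hv : lamV d F G v = 0
    · rw [hv]
      exact zero_le_one.trans (hmax 1 (Finset.mem_insert_self _ _))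
    · refine hmax _ ?_
      rw [hT, Finset.mem_insert, Finset.mem_insert, Finset.mem_union]
      exact Or.inr (Or.inr (Or.inl (Finset.mem_image_of_mem _ (hfin.mem_toFinset.2 hv))))
  · intro σ
    refine hmax _ ?_
    rw [hT, Finset.mem_insert, Finset.mem_insert, Finset.mem_union]
    exact Or.inr (Or.inr (Or.inr (Finset.mem_image.2 ⟨σ, Finset.mem_univ _, rfl⟩)))
  · refine hmax _ ?_
    rw [hT, Finset.mem_insert, Finset.mem_insert]
    exact Or.inr (Or.inl rfl)
  · rw [hT, Finset.mem_insert, Finset.mem_insert, Finset.mem_union, Finset.mem_image,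
      Finset.mem_image] at h1
    rcases h1 with h1 | h1 | ⟨v, -, h1⟩ | ⟨σ, -, h1⟩
    · exact Or.inl h1.le
    · exact Or.inr (Or.inr (Or.inr h1.le))
    · exact Or.inr (Or.inl ⟨v, h1.ge⟩)
    · exact Or.inr (Or.inr (Or.inl ⟨σ, h1.ge⟩))

/-- The infinite places. -/
theorem sum_lamC_le (d : ℕ) {K : Type} [Field K] [NumberField K] (F G : (𝓞 K)[X]) (m : ℝ)
    (hm : ∀ σ : K →+* ℂ, lamC d (F.map (σ.comp (algebraMap (𝓞 K) K)))
        (G.map (σ.comp (algebraMap (𝓞 K) K))) ≤ m) :
    ∑ σ : K →+* ℂ, lamC d (F.map (σ.comp (algebraMap (𝓞 K) K)))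
        (G.map (σ.comp (algebraMap (𝓞 K) K))) ≤ Module.finrank ℚ K * m := by
  have h1 := Finset.sum_le_card_nsmul Finset.univ
    (fun σ : K →+* ℂ => lamC d (F.map (σ.comp (algebraMap (𝓞 K) K)))
        (G.map (σ.comp (algebraMap (𝓞 K) K)))) m (fun σ _ => hm σ)
  rwa [Finset.card_univ, NumberField.Embeddings.card, nsmul_eq_mul] at h1

/-- THEOREM S for the number of bad primes: `B` is a set of primes outside of which `F / G` has
potentially good reduction or is defective. -/
theorem main_count (N d l : ℕ) (hd : 2 ≤ d) : ∃ C : ℝ, 0 ≤ C ∧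
    ∀ (K : Type) [Field K] [NumberField K],
    ∀ F G : (𝓞 K)[X], F.natDegree ≤ d → G.natDegree ≤ d → resultant F G d d ≠ 0 →
    ∀ B : Finset (HeightOneSpectrum (𝓞 K)),
    (∀ v, v ∉ B → PotGood d F G v ∨ DefectiveN d N l F G v) →
    ∀ (L : Type) [Field L] [NumberField L] [Algebra K L], ∀ X : Finset (L × L),
      (∀ p ∈ X, Pool.Agent.RDF.DegLe K N p ∧ p ≠ 0 ∧ ∃ a b : ℕ, a < b ∧
        wedge ((lift d (F.map (algebraMap (𝓞 K) L)) (G.map (algebraMap (𝓞 K) L)))^[a] p)
          ((lift d (F.map (algebraMap (𝓞 K) L)) (G.map (algebraMap (𝓞 K) L)))^[b] p) = 0) →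
      (∀ p ∈ X, ∀ q ∈ X, p ≠ q → wedge p q ≠ 0) →
      (X.card : ℝ) ≤ C * ((B.card + Module.finrank ℚ K) *
        Real.log (B.card + Module.finrank ℚ K + 1)) := by
  obtain ⟨C, hC, hmain⟩ := main_form N d l hd
  refine ⟨4 * C, by positivity, ?_⟩
  intro K _ _ F G hF hG hR B hB L _ _ _ X hX hXw
  classical
  obtain ⟨m, hm1, hmv, hmσ, hmd, hm⟩ := exists_max d N l F G hF hG hR
  have hfin := lamV_support d F G hF hG hR
  have hP : ∀ v, lamV d F G v ≠ 0 → v ∈ hfin.toFinset := fun v hv =>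
    (Set.Finite.mem_toFinset hfin).mpr hv
  have hn : (1 : ℝ) ≤ Module.finrank ℚ K := by
    exact_mod_cast (Module.finrank_pos : 0 < Module.finrank ℚ K)
  have hBc : (0 : ℝ) ≤ B.card := Nat.cast_nonneg _
  have h1 : hgt d N l F G ≤ (B.card + Module.finrank ℚ K) * m := by
    rw [hgt, add_mul]
    refine add_le_add ?_ (sum_lamC_le d F G m hmσ)
    rw [finsum_filter _ hfin.toFinset hP]
    have h2 : hfin.toFinset.filter (fun v => ¬ PotGood d F G v ∧ ¬ DefectiveN d N l F G v) ⊆ B := by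
      intro v hv
      rw [Finset.mem_filter] at hv
      by_contra h3
      rcases hB v h3 with h4 | h4
      · exact hv.2.1 h4
      · exact hv.2.2 h4
    refine (Finset.sum_le_sum_of_subset_of_nonneg h2 fun v _ _ => lamV_nonneg d F G v).trans ?_
    have h3 := Finset.sum_le_card_nsmul B (lamV d F G) m (fun v _ => hmv v)
    rwa [nsmul_eq_mul] at h3
  have h2 : hgt d N l F G / m ≤ B.card + Module.finrank ℚ K := by
    rw [div_le_iff₀ (by linarith)]
    exact h1
  have h3 := hmain K F G hF hG hR m (by linarith) hm (2 * (B.card + Module.finrank ℚ K))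
    (by linarith) L X hX hXw
  refine h3.trans ?_
  have h4 := log_bound (B.card + Module.finrank ℚ K) (by linarith)
  calc C * (2 * (B.card + Module.finrank ℚ K) * Real.log (2 * (B.card + Module.finrank ℚ K) + 1))
      ≤ C * (4 * ((B.card + Module.finrank ℚ K) * Real.log (B.card + Module.finrank ℚ K + 1))) :=
        mul_le_mul_of_nonneg_left h4 hC
    _ = 4 * C * ((B.card + Module.finrank ℚ K) * Real.log (B.card + Module.finrank ℚ K + 1)) := by
        ring

/-- THEOREM S if one prime with `v ∥ R` is large. -/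
theorem main_big (N d : ℕ) (hd : 3 ≤ d) : ∃ C : ℝ, 0 ≤ C ∧
    ∀ (K : Type) [Field K] [NumberField K],
    ∀ F G : (𝓞 K)[X], F.natDegree ≤ d → G.natDegree ≤ d → resultant F G d d ≠ 0 →
    ∀ (v : HeightOneSpectrum (𝓞 K)) (k : ℕ), resultant F G d d ∈ v.asIdeal →
    resultant F G d d ∉ v.asIdeal ^ 2 →
    Ideal.absNorm (Ideal.span {resultant F G d d}) ≤ Ideal.absNorm v.asIdeal ^ k →
    ∀ (L : Type) [Field L] [NumberField L] [Algebra K L], ∀ X : Finset (L × L),
      (∀ p ∈ X, Pool.Agent.RDF.DegLe K N p ∧ p ≠ 0 ∧ ∃ a b : ℕ, a < b ∧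
        wedge ((lift d (F.map (algebraMap (𝓞 K) L)) (G.map (algebraMap (𝓞 K) L)))^[a] p)
          ((lift d (F.map (algebraMap (𝓞 K) L)) (G.map (algebraMap (𝓞 K) L)))^[b] p) = 0) →
      (∀ p ∈ X, ∀ q ∈ X, p ≠ q → wedge p q ≠ 0) →
      (X.card : ℝ) ≤ C * ((k + Module.finrank ℚ K) * Real.log (k + Module.finrank ℚ K + 1)) := by
  obtain ⟨C, hC, hmain⟩ := main_form N d 0 (by omega)
  refine ⟨4 * C, by positivity, ?_⟩
  intro K _ _ F G hF hG hR v k hv hv2 hN L _ _ _ X hX hXw
  classical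
  obtain ⟨m, hm1, hmv, hmσ, hmd, hm⟩ := exists_max d N 0 F G hF hG hR
  have hfin := lamV_support d F G hF hG hR
  have hP : ∀ v, lamV d F G v ≠ 0 → v ∈ hfin.toFinset := fun v hv =>
    (Set.Finite.mem_toFinset hfin).mpr hv
  have hn : (1 : ℝ) ≤ Module.finrank ℚ K := by
    exact_mod_cast (Module.finrank_pos : 0 < Module.finrank ℚ K)
  have hk : (0 : ℝ) ≤ k := Nat.cast_nonneg _
  -- the size of `v`
  have hlam := lamV_of_sq d hd F G hF hG v hv2
  have hlogv : Real.log (Ideal.absNorm v.asIdeal) ≤ m := by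
    refine le_trans ?_ (hmv v)
    rw [hlam, pb_neg_log v _ hR]
    refine Real.log_le_log ?_ ?_
    · have h1 : Ideal.absNorm v.asIdeal ≠ 0 := by
        rw [Ne, Ideal.absNorm_eq_zero_iff]
        exact v.ne_bot
      exact_mod_cast Nat.pos_of_ne_zero h1
    · have h1 := Ideal.absNorm_dvd_absNorm_of_le
        (Ideal.dvd_iff_le.1 (dvd_maxPow _ hR v hv))
      have h2 : Ideal.absNorm (v.maxPowDividing (Ideal.span {resultant F G d d})) ≠ 0 := by
        rw [Ne, Ideal.absNorm_eq_zero_iff, HeightOneSpectrum.maxPowDividing]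
        exact pow_ne_zero _ v.ne_bot
      exact_mod_cast Nat.le_of_dvd (Nat.pos_of_ne_zero h2) h1
  have h1 : hgt d N 0 F G ≤ (k + Module.finrank ℚ K) * m := by
    rw [hgt, add_mul]
    refine add_le_add ?_ (sum_lamC_le d F G m hmσ)
    rw [finsum_filter _ hfin.toFinset hP]
    have h2 : ∑ w ∈ hfin.toFinset with (¬ PotGood d F G w ∧ ¬ DefectiveN d N 0 F G w),
        lamV d F G w ≤ ∑ w ∈ hfin.toFinset,
          -Real.log (av w (algebraMap (𝓞 K) K (resultant F G d d))) := by
      refine (Finset.sum_le_sum_of_subset_of_nonneg (Finset.filter_subset _ _)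
        fun v _ _ => lamV_nonneg d F G v).trans ?_
      exact Finset.sum_le_sum fun w _ => lamV_le d F G hF hG w
    refine h2.trans ?_
    have hspan : Ideal.span {resultant F G d d} ≠ (0 : Ideal (𝓞 K)) := by
      rw [Ne, Ideal.zero_eq_bot, Ideal.span_singleton_eq_bot]
      exact hR
    have hfin2 := Ideal.finite_factors hspan
    have h3 := sum_log_av_int (resultant F G d d) hR (hfin.toFinset ∪ hfin2.toFinset) (by
      intro w hw
      rw [Finset.mem_union, hfin2.mem_toFinset]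
      exact Or.inr (Ideal.dvd_span_singleton.2 hw))
    have h4 : ∑ w ∈ hfin.toFinset,
          -Real.log (av w (algebraMap (𝓞 K) K (resultant F G d d))) ≤
        ∑ w ∈ hfin.toFinset ∪ hfin2.toFinset,
          -Real.log (av w (algebraMap (𝓞 K) K (resultant F G d d))) :=
      Finset.sum_le_sum_of_subset_of_nonneg Finset.subset_union_left
        fun w _ _ => wt_nonneg w _
    rw [h3] at h4
    refine h4.trans ?_
    have h5 : Real.log (Ideal.absNorm (Ideal.span {resultant F G d d})) ≤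
        Real.log ((Ideal.absNorm v.asIdeal : ℝ) ^ k) := by
      refine Real.log_le_log ?_ (by exact_mod_cast hN)
      have h6 : Ideal.absNorm (Ideal.span {resultant F G d d}) ≠ 0 := by
        rw [Ne, Ideal.absNorm_eq_zero_iff]
        exact hspan
      exact_mod_cast Nat.pos_of_ne_zero h6
    rw [Real.log_pow] at h5
    exact h5.trans (mul_le_mul_of_nonneg_left hlogv hk)
  have h2 : hgt d N 0 F G / m ≤ k + Module.finrank ℚ K := by
    rw [div_le_iff₀ (by linarith)]
    exact h1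
  have h3 := hmain K F G hF hG hR m (by linarith) hm (2 * (k + Module.finrank ℚ K))
    (by linarith) L X hX hXw
  refine h3.trans ?_
  have h4 := log_bound (k + Module.finrank ℚ K) (by linarith)
  calc C * (2 * (k + Module.finrank ℚ K) * Real.log (2 * (k + Module.finrank ℚ K) + 1))
      ≤ C * (4 * ((k + Module.finrank ℚ K) * Real.log (k + Module.finrank ℚ K + 1))) :=
        mul_le_mul_of_nonneg_left h4 hC
    _ = 4 * C * ((k + Module.finrank ℚ K) * Real.log (k + Module.finrank ℚ K + 1)) := by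
        ring

end Pool.Agent.RI
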