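import Mathlib
import Pool.Agent.RI.SDefs
import Pool.Agent.RI.GIneq

set_option autoImplicit false

/-!
# The sum of the local bounds, with a gain at one place only
-/

namespace Pool.Agent.RI

open Polynomial NumberField IsDedekindDomain Pool.Agent.GPoly

variable {K : Type} [Field K] [NumberField K]

/-- The sum over the places of the local bounds: the product formula. -/
theorem ineq_T0 (r : 𝓞 K) (hr : r ≠ 0) (d : ℕ) (P : Finset (HeightOneSpectrum (𝓞 K)))
    (hP : ∀ v : HeightOneSpectrum (𝓞 K), r ∈ v.asIdeal → v ∈ P)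
    (a : HeightOneSpectrum (𝓞 K) → ℝ) (b : (K →+* ℂ) → ℝ) (ha : ∀ v, v ∉ P → a v ≤ 0)
    (L : Type) [Field L] [Algebra K L] [FiniteDimensional K L] {T : ℕ} (x : Fin T → Fin T → L)
    (hx : ∀ i j, i ≠ j → x i j ≠ 0)
    (h1 : ∀ v : HeightOneSpectrum (𝓞 K),
      ∑ i, ∑ j ∈ Finset.univ.erase i, Real.log (av v (Algebra.norm K (x i j))) ≤
        Module.finrank K L * ((T * (T - 1) : ℝ) * (wt v r / (d * (d - 1))) + a v))
    (h2 : ∀ σ : K →+* ℂ,
      ∑ i, ∑ j ∈ Finset.univ.erase i, Real.log ‖σ (Algebra.norm K (x i j))‖ ≤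
        Module.finrank K L * ((T * (T - 1) : ℝ) *
          (-Real.log ‖σ (algebraMap (𝓞 K) K r)‖ / (d * (d - 1))) + b σ)) :
    0 ≤ ∑ v ∈ P, a v + ∑ σ, b σ := by
  have h0 : ∀ v, v ∉ P → (T * (T - 1) : ℝ) * (wt v r / (d * (d - 1))) + a v ≤ 0 := by
    intro v hv
    have h3 : wt v r = 0 := wt_eq_zero v _ fun h => hv (hP v h)
    have h4 := ha v hv
    rw [h3]
    simpa using h4
  have hglob := globD L x hx P (fun v => (T * (T - 1) : ℝ) * (wt v r / (d * (d - 1))) + a v)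
    (fun σ => (T * (T - 1) : ℝ) *
      (-Real.log ‖σ (algebraMap (𝓞 K) K r)‖ / (d * (d - 1))) + b σ) h1 h0 h2
  have hpf := sum_res r hr P hP
  rw [Finset.sum_add_distrib, Finset.sum_add_distrib, ← Finset.mul_sum, ← Finset.mul_sum,
    ← Finset.sum_div, ← Finset.sum_div] at hglob
  have hsig : ∑ σ : K →+* ℂ, -Real.log ‖σ (algebraMap (𝓞 K) K r)‖ = -∑ v ∈ P, wt v r := by
    have : ∑ v ∈ P, wt v r = ∑ v ∈ P, -Real.log (av v (algebraMap (𝓞 K) K r)) := rfl
    rw [this]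
    linarith
  rw [hsig] at hglob
  have k9 : (T * (T - 1) : ℝ) * ((∑ v ∈ P, wt v r) / (d * (d - 1))) +
      (T * (T - 1) : ℝ) * (-(∑ v ∈ P, wt v r) / (d * (d - 1))) = 0 := by ring
  linarith

/-- The sum over the places of the local bounds. `lam v`, `mu σ` are the minimal resultants; there
is a gain `c * G * T ^ 2` at one place which does not divide `J`, and a gain at the primes dividing
`J`; `W` is at most `log N(J)` or at most the weight of one prime dividing `J`. -/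
theorem ineq_TW (r : 𝓞 K) (hr : r ≠ 0) (d : ℕ) (J : Ideal (𝓞 K))
    (hJ : J ∣ Ideal.span {r})
    (lam : HeightOneSpectrum (𝓞 K) → ℝ) (mu : (K →+* ℂ) → ℝ)
    (hlam : ∀ v, 0 ≤ lam v) (hlam' : ∀ v, lam v ≤ wt v r) (hmu : ∀ σ, 0 ≤ mu σ)
    (W : ℝ) (hW : W ≤ Real.log (Ideal.absNorm J) ∨
      ∃ v : HeightOneSpectrum (𝓞 K), v.asIdeal ∣ J ∧ W ≤ wt v r)
    (L : Type) [Field L] [Algebra K L] [FiniteDimensional K L] {T : ℕ} (x : Fin T → Fin T → L)
    (hx : ∀ i j, i ≠ j → x i j ≠ 0) (c g G Ca : ℝ) (hc : 0 ≤ c) (hg : 0 ≤ g) (hG : 0 ≤ G)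
    (hCa : 0 ≤ Ca)
    (h1 : ∀ v : HeightOneSpectrum (𝓞 K), v.asIdeal ∣ J →
      ∑ i, ∑ j ∈ Finset.univ.erase i, Real.log (av v (Algebra.norm K (x i j))) ≤
        Module.finrank K L * ((T * (T - 1) : ℝ) * (wt v r / (d * (d - 1))) -
          2 * c * (T : ℝ) ^ 2 * wt v r))
    (h3 : ∀ v : HeightOneSpectrum (𝓞 K),
      ∑ i, ∑ j ∈ Finset.univ.erase i, Real.log (av v (Algebra.norm K (x i j))) ≤
        Module.finrank K L * ((T * (T - 1) : ℝ) * (wt v r / (d * (d - 1))) + g * lam v))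
    (h4 : ∀ σ : K →+* ℂ,
      ∑ i, ∑ j ∈ Finset.univ.erase i, Real.log ‖σ (Algebra.norm K (x i j))‖ ≤
        Module.finrank K L * ((T * (T - 1) : ℝ) *
          (-Real.log ‖σ (algebraMap (𝓞 K) K r)‖ / (d * (d - 1))) + g * (mu σ + Ca)))
    (h5 : (∃ w : HeightOneSpectrum (𝓞 K), ¬ w.asIdeal ∣ J ∧
      ∑ i, ∑ j ∈ Finset.univ.erase i, Real.log (av w (Algebra.norm K (x i j))) ≤
        Module.finrank K L * ((T * (T - 1) : ℝ) * (wt w r / (d * (d - 1))) -
          c * G * (T : ℝ) ^ 2)) ∨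
      ∃ σ : K →+* ℂ,
      ∑ i, ∑ j ∈ Finset.univ.erase i, Real.log ‖σ (Algebra.norm K (x i j))‖ ≤
        Module.finrank K L * ((T * (T - 1) : ℝ) *
          (-Real.log ‖σ (algebraMap (𝓞 K) K r)‖ / (d * (d - 1))) - c * G * (T : ℝ) ^ 2)) :
    c * (T : ℝ) ^ 2 * (2 * W + G) ≤
      g * (∑ᶠ (v : HeightOneSpectrum (𝓞 K)) (_ : ¬ v.asIdeal ∣ J), lam v + ∑ σ, mu σ +
        Module.finrank ℚ K * Ca) := by
  classical
  have hspan : Ideal.span {r} ≠ 0 := by
    rw [Ne, Ideal.zero_eq_bot, Ideal.span_singleton_eq_bot]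
    exact hr
  have hfinP := Ideal.finite_factors hspan
  have hw0 : ∀ v, 0 ≤ wt v r := fun v => wt_nonneg v _
  have hout : ∀ v : HeightOneSpectrum (𝓞 K), r ∉ v.asIdeal → wt v r = 0 :=
    fun v hv => wt_eq_zero v _ hv
  have hlout : ∀ v : HeightOneSpectrum (𝓞 K), r ∉ v.asIdeal → lam v = 0 := fun v hv =>
    le_antisymm (by have := hlam' v; rwa [hout v hv] at this) (hlam v)
  have hJr : ∀ v : HeightOneSpectrum (𝓞 K), v.asIdeal ∣ J → r ∈ v.asIdeal := fun v hv =>
    Ideal.dvd_span_singleton.1 (hv.trans hJ)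
  have hT2 : (0 : ℝ) ≤ (T : ℝ) ^ 2 := by positivity
  have hcT : 0 ≤ c * (T : ℝ) ^ 2 := mul_nonneg hc hT2
  have hcGT : 0 ≤ c * G * (T : ℝ) ^ 2 := by positivity
  -- the bounds without the gain at one place
  set e : HeightOneSpectrum (𝓞 K) → ℝ := fun v =>
    if v.asIdeal ∣ J then -(2 * c * (T : ℝ) ^ 2 * wt v r) else g * lam v with he
  have hfe : ∀ v, ∑ i, ∑ j ∈ Finset.univ.erase i,
      Real.log (av v (Algebra.norm K (x i j))) ≤ Module.finrank K L *
        ((T * (T - 1) : ℝ) * (wt v r / (d * (d - 1))) + e v) := by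
    intro v
    simp only [he]
    split_ifs with c1
    · have := h1 v c1
      rwa [sub_eq_add_neg] at this
    · exact h3 v
  have heout : ∀ v : HeightOneSpectrum (𝓞 K), r ∉ v.asIdeal → e v = 0 := by
    intro v hv
    simp only [he, hout v hv, hlout v hv]
    simp
  have hn : (0 : ℝ) ≤ Module.finrank K L := Nat.cast_nonneg _
  -- the sum
  have hsum : ∃ P : Finset (HeightOneSpectrum (𝓞 K)),
      (∀ v : HeightOneSpectrum (𝓞 K), r ∈ v.asIdeal → v ∈ P) ∧
      c * G * (T : ℝ) ^ 2 ≤ ∑ v ∈ P, e v + ∑ σ : K →+* ℂ, g * (mu σ + Ca) := by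
    rcases h5 with ⟨w, hwJ, h5⟩ | ⟨σ₀, h5⟩
    · refine ⟨insert w hfinP.toFinset, fun v hv => ?_, ?_⟩
      · rw [Finset.mem_insert, Set.Finite.mem_toFinset]
        exact Or.inr (Ideal.dvd_span_singleton.2 hv)
      · have hP : ∀ v : HeightOneSpectrum (𝓞 K), r ∈ v.asIdeal →
            v ∈ insert w hfinP.toFinset := fun v hv => by
          rw [Finset.mem_insert, Set.Finite.mem_toFinset]
          exact Or.inr (Ideal.dvd_span_singleton.2 hv)
        have h6 := ineq_T0 r hr d (insert w hfinP.toFinset) hP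
          (fun v => e v - if v = w then c * G * (T : ℝ) ^ 2 else 0)
          (fun σ => g * (mu σ + Ca)) (fun v hv => by
            have h7 : r ∉ v.asIdeal := fun h => hv (hP v h)
            have h8 : v ≠ w := fun h => hv (h ▸ Finset.mem_insert_self _ _)
            simp only [heout v h7, if_neg h8]
            simp) L x hx (fun v => by
            by_cases h8 : v = w
            · subst h8
              simp only [if_true]
              refine h5.trans (mul_le_mul_of_nonneg_left ?_ hn)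
              have h9 : 0 ≤ e v := by
                simp only [he]
                rw [if_neg hwJ]
                exact mul_nonneg hg (hlam v)
              linarith
            · simp only [if_neg h8, sub_zero]
              exact hfe v) h4
        rw [Finset.sum_sub_distrib, Finset.sum_ite_eq' _ w,
          if_pos (Finset.mem_insert_self _ _)] at h6
        linarith
    · refine ⟨hfinP.toFinset, fun v hv => ?_, ?_⟩
      · rw [Set.Finite.mem_toFinset]
        exact Ideal.dvd_span_singleton.2 hv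
      · have hP : ∀ v : HeightOneSpectrum (𝓞 K), r ∈ v.asIdeal →
            v ∈ hfinP.toFinset := fun v hv => by
          rw [Set.Finite.mem_toFinset]
          exact Ideal.dvd_span_singleton.2 hv
        have h6 := ineq_T0 r hr d hfinP.toFinset hP e
          (fun σ => g * (mu σ + Ca) - if σ = σ₀ then c * G * (T : ℝ) ^ 2 else 0)
          (fun v hv => (heout v fun h => hv (hP v h)).le) L x hx hfe (fun σ => by
            by_cases h8 : σ = σ₀
            · subst h8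
              simp only [if_true]
              refine h5.trans (mul_le_mul_of_nonneg_left ?_ hn)
              have h9 : 0 ≤ g * (mu σ + Ca) := mul_nonneg hg (add_nonneg (hmu σ) hCa)
              linarith
            · simp only [if_neg h8, sub_zero]
              exact h4 σ)
        rw [Finset.sum_sub_distrib, Finset.sum_ite_eq' _ σ₀, if_pos (Finset.mem_univ _)] at h6
        linarith
  obtain ⟨P₀, hP₀, hmain⟩ := hsum
  have k1 : W ≤ ∑ v ∈ P₀ with v.asIdeal ∣ J, wt v r := by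
    rcases hW with hW | ⟨v, hvJ, hW⟩
    · exact hW.trans (log_absNorm_le _ hr J hJ P₀ hP₀)
    · refine hW.trans (Finset.single_le_sum (f := fun v => wt v r) (fun v _ => hw0 v) ?_)
      rw [Finset.mem_filter]
      exact ⟨hP₀ v (hJr v hvJ), hvJ⟩
  have k2 : ∑ᶠ (v : HeightOneSpectrum (𝓞 K)) (_ : ¬ v.asIdeal ∣ J), lam v =
      ∑ v ∈ P₀ with ¬ v.asIdeal ∣ J, lam v := by
    refine finsum_cond_eq_sum_of_cond_iff _ ?_
    intro v hv
    rw [Finset.mem_filter]
    refine ⟨fun h => ⟨?_, h⟩, fun h => h.2⟩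
    by_contra h9
    exact hv (hlout v fun h => h9 (hP₀ v h))
  have k3 : ∑ v ∈ P₀, e v = -(2 * c * (T : ℝ) ^ 2 * ∑ v ∈ P₀ with v.asIdeal ∣ J, wt v r) +
      g * ∑ v ∈ P₀ with ¬ v.asIdeal ∣ J, lam v := by
    rw [Finset.mul_sum, Finset.mul_sum, Finset.sum_filter, Finset.sum_filter,
      ← Finset.sum_neg_distrib, ← Finset.sum_add_distrib]
    refine Finset.sum_congr rfl fun v _ => ?_
    simp only [he]
    by_cases c1 : v.asIdeal ∣ J
    · simp [c1]
    · simp [c1]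
  have k4 : ∑ σ : K →+* ℂ, g * (mu σ + Ca) = g * (∑ σ, mu σ + Module.finrank ℚ K * Ca) := by
    rw [← Finset.mul_sum, Finset.sum_add_distrib, Finset.sum_const, Finset.card_univ,
      NumberField.Embeddings.card, nsmul_eq_mul]
  have k5 : 2 * c * (T : ℝ) ^ 2 * W ≤
      2 * c * (T : ℝ) ^ 2 * ∑ v ∈ P₀ with v.asIdeal ∣ J, wt v r :=
    mul_le_mul_of_nonneg_left k1 (by positivity)
  rw [k3, k4] at hmain
  rw [k2]
  nlinarith

/-- The case `W = log N(J)`. -/
theorem ineq_T (r : 𝓞 K) (hr : r ≠ 0) (d : ℕ) (J : Ideal (𝓞 K))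
    (hJ : J ∣ Ideal.span {r})
    (lam : HeightOneSpectrum (𝓞 K) → ℝ) (mu : (K →+* ℂ) → ℝ)
    (hlam : ∀ v, 0 ≤ lam v) (hlam' : ∀ v, lam v ≤ wt v r) (hmu : ∀ σ, 0 ≤ mu σ)
    (L : Type) [Field L] [Algebra K L] [FiniteDimensional K L] {T : ℕ} (x : Fin T → Fin T → L)
    (hx : ∀ i j, i ≠ j → x i j ≠ 0) (c g G Ca : ℝ) (hc : 0 ≤ c) (hg : 0 ≤ g) (hG : 0 ≤ G)
    (hCa : 0 ≤ Ca)
    (h1 : ∀ v : HeightOneSpectrum (𝓞 K), v.asIdeal ∣ J →
      ∑ i, ∑ j ∈ Finset.univ.erase i, Real.log (av v (Algebra.norm K (x i j))) ≤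
        Module.finrank K L * ((T * (T - 1) : ℝ) * (wt v r / (d * (d - 1))) -
          2 * c * (T : ℝ) ^ 2 * wt v r))
    (h3 : ∀ v : HeightOneSpectrum (𝓞 K),
      ∑ i, ∑ j ∈ Finset.univ.erase i, Real.log (av v (Algebra.norm K (x i j))) ≤
        Module.finrank K L * ((T * (T - 1) : ℝ) * (wt v r / (d * (d - 1))) + g * lam v))
    (h4 : ∀ σ : K →+* ℂ,
      ∑ i, ∑ j ∈ Finset.univ.erase i, Real.log ‖σ (Algebra.norm K (x i j))‖ ≤
        Module.finrank K L * ((T * (T - 1) : ℝ) *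
          (-Real.log ‖σ (algebraMap (𝓞 K) K r)‖ / (d * (d - 1))) + g * (mu σ + Ca)))
    (h5 : (∃ w : HeightOneSpectrum (𝓞 K), ¬ w.asIdeal ∣ J ∧
      ∑ i, ∑ j ∈ Finset.univ.erase i, Real.log (av w (Algebra.norm K (x i j))) ≤
        Module.finrank K L * ((T * (T - 1) : ℝ) * (wt w r / (d * (d - 1))) -
          c * G * (T : ℝ) ^ 2)) ∨
      ∃ σ : K →+* ℂ,
      ∑ i, ∑ j ∈ Finset.univ.erase i, Real.log ‖σ (Algebra.norm K (x i j))‖ ≤
        Module.finrank K L * ((T * (T - 1) : ℝ) *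
          (-Real.log ‖σ (algebraMap (𝓞 K) K r)‖ / (d * (d - 1))) - c * G * (T : ℝ) ^ 2)) :
    c * (T : ℝ) ^ 2 * (2 * Real.log (Ideal.absNorm J) + G) ≤
      g * (∑ᶠ (v : HeightOneSpectrum (𝓞 K)) (_ : ¬ v.asIdeal ∣ J), lam v + ∑ σ, mu σ +
        Module.finrank ℚ K * Ca) :=
  ineq_TW r hr d J hJ lam mu hlam hlam' hmu _ (Or.inl le_rfl) L x hx c g G Ca hc hg hG hCa
    h1 h3 h4 h5

end Pool.Agent.RI
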