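import Mathlib
import Pool.Agent.RI.TX
import Pool.Agent.RI.TForm
import Pool.Agent.RI.SXLoc
import Pool.Agent.RI.SXHarm
import Pool.Agent.PQ.LocA
import Pool.Agent.PQ.LocB
import Pool.Agent.PQ.Sqf

set_option autoImplicit false

/-!
# Theorem S for polynomials
-/

namespace Pool.Agent.RI

open Polynomial NumberField IsDedekindDomain Pool.Agent.GPoly
open Pool.Agent.RDF (lift wedge)
open TForm SAll

namespace TPoly

theorem locDef_mono {K : Type} [Field K] [NumberField K] (d N : ℕ) (κ κ' A A' : ℝ)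
    (hκ : κ' ≤ κ) (hA : A ≤ A') (F G : (𝓞 K)[X]) (v : HeightOneSpectrum (𝓞 K))
    (h : LocDef d N κ A F G v) : LocDef d N κ' A' F G v := by
  intro Om _ _ _ _ hOm L _ _ _ φ m z hz hw
  refine (h Om hOm L φ m z hz hw).trans ?_
  have hw0 : 0 ≤ -Real.log (av v (algebraMap (𝓞 K) K (resultant F G d d))) := wt_nonneg v _
  have h1 : κ' * ((d : ℝ) ^ m) ^ 2 ≤ κ * ((d : ℝ) ^ m) ^ 2 :=
    mul_le_mul_of_nonneg_right hκ (by positivity)
  have h2 : A * (m + 1) * (d : ℝ) ^ m ≤ A' * (m + 1) * (d : ℝ) ^ m := by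
    rw [mul_assoc, mul_assoc]
    exact mul_le_mul_of_nonneg_right hA (by positivity)
  have h3 := mul_le_mul_of_nonneg_right
    (sub_le_sub h1 h2) hw0
  linarith

/-- The local estimate at the defective primes of a polynomial. -/
theorem locDef_poly (d N l : ℕ) (hd : 2 ≤ d) (hN : 1 ≤ N) : ∃ κ A : ℝ, 0 < κ ∧
    ∀ (K : Type) [Field K] [NumberField K] (F : (𝓞 K)[X]) (b : 𝓞 K), b ≠ 0 →
    F.natDegree = d → ∀ v : HeightOneSpectrum (𝓞 K), PQ.DefA l F b v ∨ PQ.DefB N F b v →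
    LocDef d N κ A F (C b) v := by
  obtain ⟨δ₁, C₁, hδ₁, hC₁, h₁⟩ := PQ.loc_A d N l hd hN
  obtain ⟨δ₂, C₂, hδ₂, hC₂, h₂⟩ := PQ.loc_B d N hd hN
  have hd0 : (0 : ℝ) < d := by
    have : 0 < d := by omega
    exact_mod_cast this
  refine ⟨min (δ₁ / d) (δ₂ / d), max (2 * δ₁ + C₁ + 3) (2 * δ₂ + C₂ + 3),
    lt_min (by positivity) (by positivity), ?_⟩
  intro K _ _ F b hb hF v hv
  rcases hv with hv | hv
  · exact locDef_mono d N _ _ _ _ (min_le_left _ _) (le_max_left _ _) F (C b) v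
      (SXL.locDef_of d N hd δ₁ C₁ hδ₁ hC₁ F b hb hF v (h₁ K F b hb hF v hv))
  · exact locDef_mono d N _ _ _ _ (min_le_right _ _) (le_max_right _ _) F (C b) v
      (SXL.locDef_of d N hd δ₂ C₂ hδ₂ hC₂ F b hb hF v (h₂ K F b hb hF v hv))

theorem isCoprime_of {R : Type*} [CommRing R] [IsDedekindDomain R] (A B : Ideal R) (hA : A ≠ ⊥)
    (h : ∀ v : HeightOneSpectrum R, v.asIdeal ∣ A → ¬ v.asIdeal ∣ B) : IsCoprime A B := by
  rw [Ideal.isCoprime_iff_sup_eq]
  by_contra hne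
  obtain ⟨P, hP, hle⟩ := Ideal.exists_le_maximal _ hne
  have h0 : P ≠ ⊥ := fun h0 => hA (le_bot_iff.1 (h0 ▸ le_sup_left.trans hle))
  exact h ⟨P, hP.isPrime, h0⟩ (Ideal.dvd_iff_le.2 (le_sup_left.trans hle))
    (Ideal.dvd_iff_le.2 (le_sup_right.trans hle))

/-- The largest of `1`, the minimal resultants and a given number. -/
theorem exists_max' (d : ℕ) {K : Type} [Field K] [NumberField K] (F G : (𝓞 K)[X])
    (hF : F.natDegree ≤ d) (hG : G.natDegree ≤ d) (hR : resultant F G d d ≠ 0) (D : ℝ) :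
    ∃ m : ℝ, 1 ≤ m ∧ (∀ v : HeightOneSpectrum (𝓞 K), lamV d F G v ≤ m) ∧
      (∀ σ : K →+* ℂ, lamC d (F.map (σ.comp (algebraMap (𝓞 K) K)))
        (G.map (σ.comp (algebraMap (𝓞 K) K))) ≤ m) ∧ D ≤ m ∧
      (m ≤ 1 ∨ (∃ v : HeightOneSpectrum (𝓞 K), m ≤ lamV d F G v) ∨
      (∃ σ : K →+* ℂ, m ≤ lamC d (F.map (σ.comp (algebraMap (𝓞 K) K)))
        (G.map (σ.comp (algebraMap (𝓞 K) K)))) ∨ m ≤ D) := by
  classical
  have hfin := lamV_support d F G hF hG hR
  set T : Finset ℝ := insert 1 (insert D (hfin.toFinset.image (lamV d F G) ∪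
    Finset.univ.image (fun σ : K →+* ℂ => lamC d (F.map (σ.comp (algebraMap (𝓞 K) K)))
        (G.map (σ.comp (algebraMap (𝓞 K) K)))))) with hT
  have hne : T.Nonempty := ⟨1, Finset.mem_insert_self _ _⟩
  obtain ⟨m, h1, hmax⟩ : ∃ m ∈ T, ∀ x ∈ T, x ≤ m :=
    ⟨T.max' hne, T.max'_mem hne, fun x hx => T.le_max' x hx⟩
  refine ⟨m, hmax 1 (Finset.mem_insert_self _ _), ?_, ?_, ?_, ?_⟩
  · intro v
    by_cases hv : lamV d F G v = 0
    · rw [hv]
      exact zero_le_one.trans (hmax 1 (Finset.mem_insert_self _ _))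
    · refine hmax _ ?_
      rw [hT, Finset.mem_insert, Finset.mem_insert, Finset.mem_union]
      exact Or.inr (Or.inr (Or.inl (Finset.mem_image_of_mem _ (hfin.mem_toFinset.2 hv))))
  · intro σ
    refine hmax _ ?_
    rw [hT, Finset.mem_insert, Finset.mem_insert, Finset.mem_union]
    exact Or.inr (Or.inr (Or.inr (Finset.mem_image.2 ⟨σ, Finset.mem_univ _, rfl⟩)))
  · refine hmax _ ?_
    rw [hT, Finset.mem_insert, Finset.mem_insert]
    exact Or.inr (Or.inl rfl)
  · rw [hT, Finset.mem_insert, Finset.mem_insert, Finset.mem_union, Finset.mem_image,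
      Finset.mem_image] at h1
    rcases h1 with h1 | h1 | ⟨v, -, h1⟩ | ⟨σ, -, h1⟩
    · exact Or.inl h1.le
    · exact Or.inr (Or.inr (Or.inr h1.le))
    · exact Or.inr (Or.inl ⟨v, h1.ge⟩)
    · exact Or.inr (Or.inr (Or.inl ⟨σ, h1.ge⟩))

theorem absNorm_mono {K : Type} [Field K] [NumberField K] (A B : Ideal (𝓞 K)) (hB : B ≠ ⊥)
    (h : A ∣ B) : Ideal.absNorm A ≤ Ideal.absNorm B :=
  Nat.le_of_dvd (Nat.pos_of_ne_zero (by rwa [Ne, Ideal.absNorm_eq_zero_iff]))
    (Ideal.absNorm_dvd_absNorm_of_le (Ideal.dvd_iff_le.1 h))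

theorem log_absNorm_mono {K : Type} [Field K] [NumberField K] (A B : Ideal (𝓞 K)) (hB : B ≠ ⊥)
    (h : A ∣ B) : Real.log (Ideal.absNorm A) ≤ Real.log (Ideal.absNorm B) := by
  have hA : A ≠ ⊥ := by
    rintro rfl
    exact hB (zero_dvd_iff.1 (by rwa [← Ideal.zero_eq_bot] at h))
  have h1 : 0 < Ideal.absNorm A :=
    Nat.pos_of_ne_zero (by rwa [Ne, Ideal.absNorm_eq_zero_iff])
  exact Real.log_le_log (by exact_mod_cast h1) (by exact_mod_cast absNorm_mono A B hB h)

end TPoly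

open TPoly

/-- THEOREM S for polynomials. -/
theorem main_TPoly (N d l : ℕ) (hN : 1 ≤ N) (hd : 2 ≤ d) : ∃ M₀ : ℝ, 0 ≤ M₀ ∧
    ∀ (K : Type) [Field K] [NumberField K] (F : (𝓞 K)[X]) (b : 𝓞 K), F.natDegree = d → b ≠ 0 →
    ∀ (k s : ℕ) (I M J : Ideal (𝓞 K)), I * M = Ideal.span {F.leadingCoeff * b} →
    {v : HeightOneSpectrum (𝓞 K) | v.asIdeal ∣ M ∧ ¬ PQ.Harmless F b v ∧
      ¬ (PQ.DefA l F b v ∨ PQ.DefB N F b v)}.ncard ≤ s →
    J ∣ Ideal.span {F.leadingCoeff * b} →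
    (∀ v : HeightOneSpectrum (𝓞 K), v.asIdeal ∣ J → PQ.DefA l F b v ∨ PQ.DefB N F b v) →
    Ideal.absNorm I ≤ Ideal.absNorm J ^ k →
    ∀ (L : Type) [Field L] [NumberField L] [Algebra K L], ∀ X : Finset (L × L),
      (∀ p ∈ X, Pool.Agent.RDF.DegLe K N p ∧ p ≠ 0 ∧ ∃ m n : ℕ, m < n ∧
        wedge ((lift d (F.map (algebraMap (𝓞 K) L))
            ((C b : (𝓞 K)[X]).map (algebraMap (𝓞 K) L)))^[m] p)
          ((lift d (F.map (algebraMap (𝓞 K) L))
            ((C b : (𝓞 K)[X]).map (algebraMap (𝓞 K) L)))^[n] p) = 0) →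
      (∀ p ∈ X, ∀ q ∈ X, p ≠ q → wedge p q ≠ 0) →
      (X.card : ℝ) ≤ M₀ * ((Module.finrank ℚ K + k + s) *
        Real.log (Module.finrank ℚ K + k + s + 1)) := by
  obtain ⟨κ, A, hκ, hloc⟩ := locDef_poly d N l hd hN
  obtain ⟨C₀, hC₀, hmain⟩ := main_TX N d hd κ A hκ
  refine ⟨4 * C₀, by positivity, ?_⟩
  intro K _ _ F b hF hb k s I M J hIM hs hJ hdef hnorm L _ _ _ X hX hw
  classical
  have ha0 : F.leadingCoeff ≠ 0 := by
    intro h0
    rw [leadingCoeff_eq_zero] at h0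
    rw [h0, natDegree_zero] at hF
    omega
  have hab : F.leadingCoeff * b ≠ 0 := mul_ne_zero ha0 hb
  have hF' : F.natDegree ≤ d := hF.le
  have hG' : (C b : (𝓞 K)[X]).natDegree ≤ d := by simp
  have hres : resultant F (C b) d d = (F.leadingCoeff * b) ^ d := by
    rw [resultant_C_right, ← hF, coeff_natDegree, mul_pow]
  have hR : resultant F (C b) d d ≠ 0 := by
    rw [hres]
    exact pow_ne_zero _ hab
  have hspanR : Ideal.span {resultant F (C b) d d} = Ideal.span {F.leadingCoeff * b} ^ d := by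
    rw [hres, Ideal.span_singleton_pow]
  have hspan0 : Ideal.span {F.leadingCoeff * b} ≠ (⊥ : Ideal (𝓞 K)) := by
    rw [Ne, Ideal.span_singleton_eq_bot]
    exact hab
  have hspanR0 : Ideal.span {resultant F (C b) d d} ≠ (⊥ : Ideal (𝓞 K)) := by
    rw [Ne, Ideal.span_singleton_eq_bot]
    exact hR
  have hI0 : I ≠ ⊥ := by
    rintro rfl
    rw [← Ideal.zero_eq_bot, zero_mul] at hIM
    exact hspan0 hIM.symm
  have hM0 : M ≠ ⊥ := by
    rintro rfl
    rw [← Ideal.zero_eq_bot, mul_zero] at hIM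
    exact hspan0 hIM.symm
  have hJ0 : J ≠ ⊥ := by
    rintro rfl
    exact hspan0 (zero_dvd_iff.1 (by rwa [← Ideal.zero_eq_bot] at hJ))
  -- the defective part of the resultant
  obtain ⟨A₁, B₁, E, hABE, hE, hB, hA⟩ := PQ.Sqf.split_three (Ideal.span {resultant F (C b) d d})
    hspanR0 (fun v => PQ.DefA l F b v ∨ PQ.DefB N F b v) (fun _ => True)
  have hEd : E ∣ Ideal.span {resultant F (C b) d d} := ⟨A₁ * B₁, by rw [← hABE]; ring⟩
  have hE0 : E ≠ ⊥ := by
    rintro rfl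
    exact hspanR0 (zero_dvd_iff.1 (by rwa [← Ideal.zero_eq_bot] at hEd))
  have hnotE : ∀ v : HeightOneSpectrum (𝓞 K), resultant F (C b) d d ∈ v.asIdeal →
      ¬ v.asIdeal ∣ E → ¬ (PQ.DefA l F b v ∨ PQ.DefB N F b v) := by
    intro v hv hvE
    have h1 : v.asIdeal ∣ A₁ * B₁ * E := by
      rw [hABE]
      exact Ideal.dvd_span_singleton.2 hv
    rcases v.prime.dvd_or_dvd h1 with h2 | h2
    · rcases v.prime.dvd_or_dvd h2 with h3 | h3
      · exact (hA v h3).2.1
      · exact (hB v h3).2.1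
    · exact absurd h2 hvE
  have hJE : J ^ d ∣ E := by
    have h1 : J ^ d ∣ A₁ * B₁ * E := by
      rw [hABE, hspanR]
      exact pow_dvd_pow_of_dvd hJ d
    refine IsCoprime.dvd_of_dvd_mul_left (isCoprime_of _ _ (pow_ne_zero _ hJ0) ?_) h1
    intro v hv hv2
    have h2 := hdef v (v.prime.dvd_of_dvd_pow hv)
    rcases v.prime.dvd_or_dvd hv2 with h3 | h3
    · exact (hA v h3).2.1 h2
    · exact (hB v h3).2.1 h2
  -- the largest local term
  obtain ⟨m, hm1, hmv, hmσ, hmD, hmm⟩ := exists_max' d F (C b) hF' hG' hR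
    (Real.log (Ideal.absNorm E))
  have hfin := lamV_support d F (C b) hF' hG' hR
  have hP : ∀ v, lamV d F (C b) v ≠ 0 → v ∈ hfin.toFinset := fun v hv =>
    (Set.Finite.mem_toFinset hfin).mpr hv
  have hn : (1 : ℝ) ≤ Module.finrank ℚ K := by
    exact_mod_cast (Module.finrank_pos : 0 < Module.finrank ℚ K)
  have hk0 : (0 : ℝ) ≤ k := Nat.cast_nonneg _
  have hs0 : (0 : ℝ) ≤ s := Nat.cast_nonneg _
  -- the part which does not divide `M`
  obtain ⟨T, hTd, hT, hTn⟩ := exists_part (F.leadingCoeff * b) hab (fun v => ¬ v.asIdeal ∣ M)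
  have hT0 : T ≠ ⊥ := by
    rintro rfl
    exact hspan0 (zero_dvd_iff.1 (by rwa [← Ideal.zero_eq_bot] at hTd))
  have hTI : T ∣ I := by
    rw [← hIM] at hTd
    exact IsCoprime.dvd_of_dvd_mul_right
      (isCoprime_of _ _ hT0 fun v hv => ((hT v).1 hv).2) hTd
  have hsumT : d * Real.log (Ideal.absNorm T) ≤ k * m := by
    have h1 : Real.log (Ideal.absNorm T) ≤ k * Real.log (Ideal.absNorm J) := by
      refine (log_absNorm_mono T I hI0 hTI).trans ?_
      rw [← Real.log_pow]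
      have h2 : 0 < Ideal.absNorm I :=
        Nat.pos_of_ne_zero (by rwa [Ne, Ideal.absNorm_eq_zero_iff])
      exact Real.log_le_log (by exact_mod_cast h2) (by exact_mod_cast hnorm)
    have h2 : d * Real.log (Ideal.absNorm J) ≤ Real.log (Ideal.absNorm E) := by
      refine le_trans (le_of_eq ?_) (log_absNorm_mono (J ^ d) E hE0 hJE)
      rw [map_pow, Nat.cast_pow, Real.log_pow]
    have h3 : (0 : ℝ) ≤ d := Nat.cast_nonneg _
    calc d * Real.log (Ideal.absNorm T) ≤ d * (k * Real.log (Ideal.absNorm J)) :=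
          mul_le_mul_of_nonneg_left h1 h3
      _ = k * (d * Real.log (Ideal.absNorm J)) := by ring
      _ ≤ k * Real.log (Ideal.absNorm E) := mul_le_mul_of_nonneg_left h2 hk0
      _ ≤ k * m := mul_le_mul_of_nonneg_left hmD hk0
  have hsum : ∑ᶠ (v : HeightOneSpectrum (𝓞 K)) (_ : ¬ v.asIdeal ∣ E), lamV d F (C b) v ≤
      (k + s) * m := by
    rw [finsum_filter _ hfin.toFinset hP,
      ← Finset.sum_filter_add_sum_filter_not _ (fun v : HeightOneSpectrum (𝓞 K) => v.asIdeal ∣ M)]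
    have hmem : ∀ v ∈ (hfin.toFinset.filter fun v : HeightOneSpectrum (𝓞 K) => ¬ v.asIdeal ∣ E),
        resultant F (C b) d d ∈ v.asIdeal ∧ ¬ PQ.Harmless F b v ∧
          ¬ (PQ.DefA l F b v ∨ PQ.DefB N F b v) := by
      intro v hv
      rw [Finset.mem_filter, Set.Finite.mem_toFinset] at hv
      have h1 : resultant F (C b) d d ∈ v.asIdeal := by
        by_contra h2
        exact hv.1 (lamV_eq_zero d F (C b) hF' hG' v h2)
      exact ⟨h1, fun h2 => hv.1 (SXH.lamV_harmless d hd F b hF v h2), hnotE v h1 hv.2⟩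
    have h1 : ∑ v ∈ (hfin.toFinset.filter fun v : HeightOneSpectrum (𝓞 K) => ¬ v.asIdeal ∣ E).filter
        (fun v : HeightOneSpectrum (𝓞 K) => v.asIdeal ∣ M), lamV d F (C b) v ≤ s * m := by
      refine (Finset.sum_le_card_nsmul _ _ m (fun v _ => hmv v)).trans ?_
      rw [nsmul_eq_mul]
      refine mul_le_mul_of_nonneg_right ?_ (by linarith)
      rw [← Set.ncard_coe_finset]
      refine le_trans ?_ (Nat.cast_le.2 hs)
      refine Nat.cast_le.2 (Set.ncard_le_ncard ?_ ?_)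
      · intro v hv
        rw [Finset.mem_coe, Finset.mem_filter] at hv
        exact ⟨hv.2, (hmem v hv.1).2.1, (hmem v hv.1).2.2⟩
      · exact (Ideal.finite_factors (show M ≠ 0 from hM0)).subset fun v hv => hv.1
    have h2 : ∑ v ∈ (hfin.toFinset.filter fun v : HeightOneSpectrum (𝓞 K) => ¬ v.asIdeal ∣ E).filter
        (fun v : HeightOneSpectrum (𝓞 K) => ¬ v.asIdeal ∣ M), lamV d F (C b) v ≤ k * m := by
      refine le_trans ?_ hsumT
      have hfin2 := Ideal.finite_factors (show Ideal.span {F.leadingCoeff * b} ≠ 0 from hspan0)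
      rw [hTn, finsum_filter _ hfin2.toFinset, Finset.mul_sum]
      · refine (Finset.sum_le_sum (f := lamV d F (C b)) (g := fun v =>
          (d : ℝ) * -Real.log (av v (algebraMap (𝓞 K) K (F.leadingCoeff * b)))) ?_).trans ?_
        · intro v _
          have h3 := lamV_le d F (C b) hF' hG' v
          rw [hres, map_pow, map_pow, Real.log_pow] at h3
          linarith
        · refine Finset.sum_le_sum_of_subset_of_nonneg ?_ ?_
          · intro v hv
            rw [Finset.mem_filter] at hv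
            rw [Finset.mem_filter, Set.Finite.mem_toFinset]
            refine ⟨?_, hv.2⟩
            have h3 := (hmem v hv.1).1
            rw [hres] at h3
            exact Ideal.dvd_span_singleton.2 (v.isPrime.mem_of_pow_mem d h3)
          · intro v _ _
            have h3 : 0 ≤ -Real.log (av v (algebraMap (𝓞 K) K (F.leadingCoeff * b))) :=
              wt_nonneg v _
            positivity
      · intro v hv
        rw [Set.Finite.mem_toFinset]
        by_contra h3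
        exact hv (wt_eq_zero v _ fun h4 => h3 (Ideal.dvd_span_singleton.2 h4))
    linarith
  have hσ := sum_lamC_le d F (C b) m hmσ
  have h3 := hmain K F (C b) hF' hG' hR E hEd (fun v hv => hloc K F b hb hF v (hE v hv).2)
    m (by linarith) hmm (2 * (Module.finrank ℚ K + k + s)) (by
      have h4 : (∑ᶠ (v : HeightOneSpectrum (𝓞 K)) (_ : ¬ v.asIdeal ∣ E), lamV d F (C b) v +
          ∑ σ : K →+* ℂ, lamC d (F.map (σ.comp (algebraMap (𝓞 K) K)))
            ((C b : (𝓞 K)[X]).map (σ.comp (algebraMap (𝓞 K) K)))) / m ≤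
          k + s + Module.finrank ℚ K := by
        rw [div_le_iff₀ (by linarith)]
        linarith
      linarith) L X hX hw
  refine h3.trans ?_
  have h4 := log_bound (Module.finrank ℚ K + k + s) (by linarith)
  calc C₀ * (2 * (Module.finrank ℚ K + k + s) * Real.log (2 * (Module.finrank ℚ K + k + s) + 1))
      ≤ C₀ * (4 * ((Module.finrank ℚ K + k + s) * Real.log (Module.finrank ℚ K + k + s + 1))) :=
        mul_le_mul_of_nonneg_left h4 hC₀
    _ = 4 * C₀ * ((Module.finrank ℚ K + k + s) * Real.log (Module.finrank ℚ K + k + s + 1)) := by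
        ring

end Pool.Agent.RI
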