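import Mathlib
import Pool.Agent.RI.TPoly

set_option autoImplicit false

/-!
# The preperiodic points of a polynomial in the algebraic closure
-/

namespace Pool.Agent.RI

open Polynomial NumberField IsDedekindDomain Pool.Agent.GPoly
open Pool.Agent.RDF (lift wedge)

namespace TPoly

theorem fE_eq {K : Type} [Field K] {L : Type} [Field L] [Algebra K L] (F : (𝓞 K)[X]) (b : 𝓞 K) :
    (fun y => (PQ.fE L F b).eval y) =
      fun y => (algebraMap (𝓞 K) L b)⁻¹ * (F.map (algebraMap (𝓞 K) L)).eval y := by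
  funext y
  rw [PQ.fE, fp, Polynomial.map_mul, map_C, Polynomial.map_map, eval_mul, eval_C, map_inv₀,
    ← IsScalarTower.algebraMap_apply (𝓞 K) K L, ← IsScalarTower.algebraMap_eq (𝓞 K) K L]

variable {K : Type} [Field K] [NumberField K]

/-- A preperiodic point gives a vector with two proportional iterates. -/
theorem wedge_of_preE {L : Type} [Field L] [Algebra K L] (d : ℕ) (F : (𝓞 K)[X])
    (hF : F.natDegree ≤ d) (b : 𝓞 K) (hb : b ≠ 0) (x : L) (hx : PQ.PreE L F b x) :
    ∃ m n : ℕ, m < n ∧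
      wedge ((lift d (F.map (algebraMap (𝓞 K) L))
          ((C b : (𝓞 K)[X]).map (algebraMap (𝓞 K) L)))^[m] (x, 1))
        ((lift d (F.map (algebraMap (𝓞 K) L))
          ((C b : (𝓞 K)[X]).map (algebraMap (𝓞 K) L)))^[n] (x, 1)) = 0 := by
  obtain ⟨m, n, hmn, he⟩ := hx
  have hbL : algebraMap (𝓞 K) L b ≠ 0 := by
    rw [IsScalarTower.algebraMap_apply (𝓞 K) K L]
    exact (map_ne_zero_iff _ (algebraMap K L).injective).2
      ((map_ne_zero_iff _ RingOfIntegers.coe_injective).2 hb)
  rw [SXL.map_C_int, fE_eq] at *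
  have h1 := fun k => SXL.iter_fin d (F.map (algebraMap (𝓞 K) L)) (natDegree_map_le.trans hF) _ hbL
    (x, 1) one_ne_zero k
  refine ⟨m, n, hmn, ?_⟩
  have hm := (h1 m).2
  have hn := (h1 n).2
  simp only [div_one] at hm hn
  rw [he, ← hn] at hm
  rw [div_eq_div_iff (h1 m).1 (h1 n).1] at hm
  rw [wedge]
  linear_combination hm

/-- Preperiodicity in a smaller field. -/
theorem preE_sub {L E : Type} [Field L] [Field E] [Algebra K L] [Algebra K E] (φ : L →ₐ[K] E)
    (F : (𝓞 K)[X]) (b : 𝓞 K) (x : L) (hx : PQ.PreE E F b (φ x)) : PQ.PreE L F b x := by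
  obtain ⟨m, n, hmn, he⟩ := hx
  have h1 : ∀ k : ℕ, φ ((fun z => (PQ.fE L F b).eval z)^[k] x) =
      (fun z => (PQ.fE E F b).eval z)^[k] (φ x) := by
    intro k
    induction k with
    | zero => rfl
    | succ k ih =>
      rw [Function.iterate_succ_apply', Function.iterate_succ_apply', ← ih, PQ.fE, PQ.fE,
        eval_map_algebraMap, eval_map_algebraMap, ← aeval_algHom_apply]
  have h2 : φ ((fun z => (PQ.fE L F b).eval z)^[m] x) =
      φ ((fun z => (PQ.fE L F b).eval z)^[n] x) := by rw [h1, h1, he]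
  exact ⟨m, n, hmn, φ.injective h2⟩

/-- From bounds in number fields to a bound in the algebraic closure. -/
theorem points_of (d N : ℕ) (F : (𝓞 K)[X]) (hF : F.natDegree ≤ d) (b : 𝓞 K) (hb : b ≠ 0) (B : ℝ)
    (H : ∀ (L : Type) [Field L] [NumberField L] [Algebra K L], ∀ X : Finset (L × L),
      (∀ p ∈ X, Pool.Agent.RDF.DegLe K N p ∧ p ≠ 0 ∧ ∃ m n : ℕ, m < n ∧
        wedge ((lift d (F.map (algebraMap (𝓞 K) L))
            ((C b : (𝓞 K)[X]).map (algebraMap (𝓞 K) L)))^[m] p)
          ((lift d (F.map (algebraMap (𝓞 K) L))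
            ((C b : (𝓞 K)[X]).map (algebraMap (𝓞 K) L)))^[n] p) = 0) →
      (∀ p ∈ X, ∀ q ∈ X, p ≠ q → wedge p q ≠ 0) → (X.card : ℝ) ≤ B) :
    {x : AlgebraicClosure K | (minpoly K x).natDegree ≤ N ∧
      PQ.PreE (AlgebraicClosure K) F b x}.Finite ∧
    (({x : AlgebraicClosure K | (minpoly K x).natDegree ≤ N ∧
      PQ.PreE (AlgebraicClosure K) F b x}.ncard : ℕ) : ℝ) ≤ B := by
  classical
  set S : Set (AlgebraicClosure K) := {x | (minpoly K x).natDegree ≤ N ∧
      PQ.PreE (AlgebraicClosure K) F b x} with hS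
  have key : ∀ Y : Finset (AlgebraicClosure K), (Y : Set (AlgebraicClosure K)) ⊆ S →
      (Y.card : ℝ) ≤ B := by
    intro Y hY
    set L := IntermediateField.adjoin K (Y : Set (AlgebraicClosure K)) with hL
    have hfd : FiniteDimensional K L := by
      rw [hL]
      exact IntermediateField.finiteDimensional_adjoin fun x _ => Algebra.IsIntegral.isIntegral x
    have hfdQ : FiniteDimensional ℚ L := Module.Finite.trans K L
    have hNF : NumberField L := ⟨⟩
    have hmem : ∀ x ∈ Y, x ∈ L := fun x hx => IntermediateField.subset_adjoin K _ hx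
    have hcard : (Y.attach.image fun x => ((⟨x.1, hmem x.1 x.2⟩ : L), (1 : L))).card = Y.card := by
      rw [Finset.card_image_of_injective _ ?_, Finset.card_attach]
      intro x y hxy
      have h1 := congrArg (fun p : L × L => (p.1 : AlgebraicClosure K)) hxy
      exact Subtype.ext h1
    rw [← hcard]
    refine H L _ ?_ ?_
    · intro p hp
      obtain ⟨x, -, rfl⟩ := Finset.mem_image.1 hp
      have hxS := hY x.2
      refine ⟨⟨IntermediateField.adjoin K {(⟨x.1, hmem x.1 x.2⟩ : L)}, ?_,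
        IntermediateField.mem_adjoin_simple_self K _, one_mem _⟩, ?_, ?_⟩
      · rw [IntermediateField.adjoin.finrank (Algebra.IsIntegral.isIntegral _)]
        have h1 : minpoly K (⟨x.1, hmem x.1 x.2⟩ : L) = minpoly K x.1 :=
          (minpoly.algebraMap_eq (algebraMap L (AlgebraicClosure K)).injective
            (⟨x.1, hmem x.1 x.2⟩ : L)).symm
        rw [h1]
        exact hxS.1
      · intro h
        exact one_ne_zero (congrArg Prod.snd h)
      · refine wedge_of_preE d F hF b hb _ ?_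
        exact preE_sub L.val F b _ hxS.2
    · intro p hp q hq hpq
      obtain ⟨x, -, rfl⟩ := Finset.mem_image.1 hp
      obtain ⟨y, -, rfl⟩ := Finset.mem_image.1 hq
      rw [wedge]
      intro h
      simp only [mul_one] at h
      exact hpq (Prod.ext (sub_eq_zero.1 h) rfl)
  have hfin : S.Finite := by
    by_contra hinf
    obtain ⟨Y, hY, hYc⟩ := Set.Infinite.exists_subset_card_eq hinf (⌊B⌋₊ + 1)
    have h1 := key Y hY
    rw [hYc, Nat.cast_add, Nat.cast_one] at h1
    exact absurd (Nat.lt_floor_add_one B) (not_lt.2 h1)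
  refine ⟨hfin, ?_⟩
  rw [Set.ncard_eq_toFinset_card S hfin]
  exact key _ (by rw [Set.Finite.coe_toFinset])

end TPoly

/-- THEOREM S for polynomials, in the algebraic closure. -/
theorem main_TPolyF (N d l : ℕ) (hd : 2 ≤ d) : ∃ M₀ : ℝ, 0 ≤ M₀ ∧
    ∀ (K : Type) [Field K] [NumberField K] (F : (𝓞 K)[X]) (b : 𝓞 K), F.natDegree = d → b ≠ 0 →
    ∀ (k s : ℕ) (I M J : Ideal (𝓞 K)), I * M = Ideal.span {F.leadingCoeff * b} →
    {v : HeightOneSpectrum (𝓞 K) | v.asIdeal ∣ M ∧ ¬ PQ.Harmless F b v ∧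
      ¬ (PQ.DefA l F b v ∨ PQ.DefB N F b v)}.ncard ≤ s →
    J ∣ Ideal.span {F.leadingCoeff * b} →
    (∀ v : HeightOneSpectrum (𝓞 K), v.asIdeal ∣ J → PQ.DefA l F b v ∨ PQ.DefB N F b v) →
    Ideal.absNorm I ≤ Ideal.absNorm J ^ k →
    {x : AlgebraicClosure K | (minpoly K x).natDegree ≤ N ∧
      PQ.PreE (AlgebraicClosure K) F b x}.Finite ∧
    (({x : AlgebraicClosure K | (minpoly K x).natDegree ≤ N ∧
      PQ.PreE (AlgebraicClosure K) F b x}.ncard : ℕ) : ℝ) ≤
        M₀ * ((Module.finrank ℚ K + k + s) * Real.log (Module.finrank ℚ K + k + s + 1)) := by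
  rcases Nat.eq_zero_or_pos N with rfl | hN
  · refine ⟨0, le_rfl, ?_⟩
    intro K _ _ F b hF hb k s I M J hIM hs hJ hdef hnorm
    have h0 : {x : AlgebraicClosure K | (minpoly K x).natDegree ≤ 0 ∧
      PQ.PreE (AlgebraicClosure K) F b x} = ∅ := by
      refine Set.eq_empty_of_forall_notMem fun x hx => ?_
      have h1 := minpoly.natDegree_pos (A := K) (x := x) (Algebra.IsIntegral.isIntegral x)
      have h2 := hx.1
      omega
    rw [h0]
    simp
  · obtain ⟨M₀, hM₀, h⟩ := main_TPoly N d l hN hd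
    refine ⟨M₀, hM₀, ?_⟩
    intro K _ _ F b hF hb k s I M J hIM hs hJ hdef hnorm
    exact TPoly.points_of d N F hF.le b hb _ (h K F b hF hb k s I M J hIM hs hJ hdef hnorm)

end Pool.Agent.RI
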