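import Mathlib
import Pool.Agent.RI.TPolyF
import Pool.Agent.AVR.Glue
import Pool.Agent.FAM.M

set_option autoImplicit false

/-!
# Theorem S for polynomials, with the multiplier of a fixed point at one place
-/

namespace Pool.Agent.RI

open Polynomial NumberField IsDedekindDomain Pool.Agent.GPoly
open Pool.Agent.RDF (lift wedge)
open TForm SAll TPoly

/-- `μ ≤ 1`, or `μ` is at most the absolute value of the multiplier of a fixed point of `f` at a
place. -/
def MultLe {K : Type} [Field K] [NumberField K] (f : K[X]) (μ : ℝ) : Prop :=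
  μ ≤ 1 ∨
  (∃ v : HeightOneSpectrum (𝓞 K), ∀ (E : Type) [NormedField E] [IsAlgClosed E]
    [IsUltrametricDist E] [Algebra K E], (∀ x : K, ‖algebraMap K E x‖ = av v x) →
    ∃ x : E, (f.map (algebraMap K E)).eval x = x ∧
      μ ≤ ‖(f.map (algebraMap K E)).derivative.eval x‖) ∨
  (∃ (σ : K →+* ℂ) (x : ℂ), (f.map σ).eval x = x ∧ μ ≤ ‖(f.map σ).derivative.eval x‖)

namespace TPolyM

theorem log_bound_c (c t : ℝ) (hc : 1 ≤ c) (ht : 0 ≤ t) :
    c * t * Real.log (c * t + 1) ≤ c ^ 2 * (t * Real.log (t + 1)) := by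
  have h1 : Real.log (c * t + 1) ≤ c * Real.log (t + 1) := by
    rw [← Real.log_rpow (by linarith)]
    refine Real.log_le_log (by nlinarith) ?_
    have h2 := one_add_mul_self_le_rpow_one_add (show -1 ≤ t by linarith) hc
    rw [add_comm 1 (c * t), add_comm 1 t] at h2
    exact h2
  have h3 : 0 ≤ c * t := by positivity
  nlinarith [mul_le_mul_of_nonneg_left h1 h3]

/-- The multiplier of a fixed point of `F / b`. -/
theorem mult_poly (d : ℕ) (hd : 2 ≤ d) : ∃ C₁ : ℝ, 0 ≤ C₁ ∧ ∀ {E : Type} [NormedField E]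
    [IsAlgClosed E], (∃ e : E, e ≠ 0 ∧ ‖e‖ ≠ 1) → ∀ (F : E[X]) (b : E), F.natDegree = d → b ≠ 0 →
    ∀ r ∈ resSet d F (C b), ∀ x : E, F.eval x = x * b →
    ‖F.derivative.eval x‖ ≤ ‖b‖ * Real.exp (2 * r + C₁) := by
  obtain ⟨C₁, hC₁, h⟩ := FAM.mult d (by omega)
  refine ⟨C₁, hC₁, ?_⟩
  intro E _ _ hE F b hF hb r hr x hx
  have ha0 : F.coeff d ≠ 0 := by
    rw [← hF]
    intro h0
    rw [coeff_natDegree, leadingCoeff_eq_zero] at h0
    rw [h0, natDegree_zero] at hF
    omega
  have hR : resultant F (C b) d d ≠ 0 := by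
    rw [resultant_C_right]
    exact mul_ne_zero (pow_ne_zero _ ha0) (pow_ne_zero _ hb)
  have h1 := h hE F (C b) hF.le (by simp) hR r hr x (by rw [eval_C]; exact hx)
  rw [eval_C, derivative_sub, derivative_mul, derivative_X, derivative_C, mul_zero, add_zero,
    one_mul, eval_sub, eval_C, sub_add_cancel] at h1
  exact h1

variable {K : Type} [Field K] [NumberField K]

omit [NumberField K] in
theorem fp_map {L : Type} [Field L] (s : K →+* L) (F : (𝓞 K)[X]) (b : 𝓞 K) :
    (fp F b).map s = C (s (algebraMap (𝓞 K) K b))⁻¹ *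
      F.map (s.comp (algebraMap (𝓞 K) K)) := by
  rw [fp, Polynomial.map_mul, map_C, Polynomial.map_map, map_inv₀]

theorem log_mu (C₁ r μ n y : ℝ) (hμ : 1 ≤ μ) (hy : 0 < y) (h1 : μ ≤ y⁻¹ * n)
    (h2 : n ≤ y * Real.exp (2 * r + C₁)) : Real.log μ ≤ 2 * r + C₁ := by
  have h3 : μ ≤ Real.exp (2 * r + C₁) := by
    refine h1.trans ?_
    rw [inv_mul_le_iff₀ hy]
    exact h2
  rw [← Real.log_exp (2 * r + C₁)]
  exact Real.log_le_log (by linarith) h3

/-- The multiplier at a place is bounded by the largest minimal resultant. -/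
theorem log_mult (d : ℕ) (hd : 2 ≤ d) : ∃ C₁ : ℝ, 0 ≤ C₁ ∧ ∀ (K : Type) [Field K] [NumberField K]
    (F : (𝓞 K)[X]) (b : 𝓞 K), F.natDegree = d → b ≠ 0 → ∀ μ : ℝ, 1 ≤ μ → MultLe (fp F b) μ →
    ∀ m : ℝ, 1 ≤ m → (∀ v, lamV d F (C b) v ≤ m) →
    (∀ σ : K →+* ℂ, lamC d (F.map (σ.comp (algebraMap (𝓞 K) K)))
        ((C b : (𝓞 K)[X]).map (σ.comp (algebraMap (𝓞 K) K))) ≤ m) →
    Real.log μ ≤ (2 + C₁) * m := by
  obtain ⟨C₁, hC₁, h⟩ := mult_poly d hd
  refine ⟨C₁, hC₁, ?_⟩
  intro K _ _ F b hF hb μ hμ hM m hm hV hσ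
  have hF' : F.natDegree ≤ d := hF.le
  have hG' : (C b : (𝓞 K)[X]).natDegree ≤ d := by simp
  have hbK : algebraMap (𝓞 K) K b ≠ 0 := (map_ne_zero_iff _ RingOfIntegers.coe_injective).2 hb
  rcases hM with hM | ⟨v, hM⟩ | ⟨σ, x, hx, hM⟩
  · have h1 : μ = 1 := le_antisymm hM hμ
    rw [h1, Real.log_one]
    nlinarith
  · have h1 : (Real.log μ - C₁) / 2 ≤ lamV d F (C b) v := by
      refine le_lamV d F (C b) hF' hG' v _ ?_
      intro E _ _ _ _ hE r hr
      obtain ⟨x, hx, hμx⟩ := hM E hE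
      have hinj : Function.Injective ((algebraMap K E).comp (algebraMap (𝓞 K) K)) :=
        (algebraMap K E).injective.comp RingOfIntegers.coe_injective
      have hb' : (algebraMap K E) (algebraMap (𝓞 K) K b) ≠ 0 :=
        (map_ne_zero_iff _ (algebraMap K E).injective).2 hbK
      rw [SGenV.hom_comp E] at hr
      rw [map_C] at hr
      rw [fp_map] at hx hμx
      have hnt : ∃ e : E, e ≠ 0 ∧ ‖e‖ ≠ 1 := by
        obtain ⟨y, hy, hy0⟩ := Submodule.exists_mem_ne_zero_of_ne_bot v.ne_bot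
        refine ⟨algebraMap K E (algebraMap (𝓞 K) K y), ?_, ?_⟩
        · exact (map_ne_zero_iff _ (algebraMap K E).injective).2
            ((map_ne_zero_iff _ RingOfIntegers.coe_injective).2 hy0)
        · rw [hE]
          exact ((av_int_lt_one v y).2 hy).ne
      have h2 := h hnt (F.map ((algebraMap K E).comp (algebraMap (𝓞 K) K)))
        ((algebraMap K E) (algebraMap (𝓞 K) K b)) (by rw [natDegree_map_eq_of_injective hinj, hF])
        hb' r hr x (by
          rw [eval_mul, eval_C, inv_mul_eq_iff_eq_mul₀ hb'] at hx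
          rw [hx, mul_comm])
      have h3 := log_mu C₁ r μ _ _ hμ (norm_pos_iff.2 hb') (by
        rw [derivative_C_mul, eval_mul, eval_C, norm_mul, norm_inv] at hμx
        exact hμx) h2
      linarith
    have h2 := hV v
    nlinarith
  · have h1 : (Real.log μ - C₁) / 2 ≤ lamC d (F.map (σ.comp (algebraMap (𝓞 K) K)))
        ((C b : (𝓞 K)[X]).map (σ.comp (algebraMap (𝓞 K) K))) := by
      refine le_trans ?_ (le_max_right _ _)
      have hinj : Function.Injective (σ.comp (algebraMap (𝓞 K) K)) :=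
        σ.injective.comp RingOfIntegers.coe_injective
      have hb' : σ (algebraMap (𝓞 K) K b) ≠ 0 := (map_ne_zero_iff _ σ.injective).2 hbK
      have hFd : (F.map (σ.comp (algebraMap (𝓞 K) K))).natDegree = d := by
        rw [natDegree_map_eq_of_injective hinj, hF]
      refine le_csInf (AVR.Glue.nonempty d hd _ _ hFd.le (natDegree_map_le.trans hG') ?_) ?_
      · intro B
        refine ⟨((|B| : ℝ) : ℂ), ?_⟩
        rw [Complex.norm_real, Real.norm_eq_abs, abs_abs]
        exact le_abs_self B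
      · intro r hr
        rw [map_C] at hr
        rw [fp_map] at hx hM
        have h2 := h ⟨2, two_ne_zero, by norm_num⟩ (F.map (σ.comp (algebraMap (𝓞 K) K)))
          (σ (algebraMap (𝓞 K) K b)) hFd hb' r hr x (by
            rw [eval_mul, eval_C, inv_mul_eq_iff_eq_mul₀ hb'] at hx
            rw [hx, mul_comm])
        have h3 := log_mu C₁ r μ _ _ hμ (norm_pos_iff.2 hb') (by
          rw [derivative_C_mul, eval_mul, eval_C, norm_mul, norm_inv] at hM
          exact hM) h2
        linarith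
    have h2 := hσ σ
    nlinarith

end TPolyM

open TPolyM

/-- THEOREM S for polynomials, with a multiplier. -/
theorem main_TPolyM (N d l : ℕ) (hN : 1 ≤ N) (hd : 2 ≤ d) : ∃ M₀ : ℝ, 0 ≤ M₀ ∧
    ∀ (K : Type) [Field K] [NumberField K] (F : (𝓞 K)[X]) (b : 𝓞 K), F.natDegree = d → b ≠ 0 →
    ∀ (k s : ℕ) (μ : ℝ) (I M J : Ideal (𝓞 K)), I * M = Ideal.span {F.leadingCoeff * b} →
    {v : HeightOneSpectrum (𝓞 K) | v.asIdeal ∣ M ∧ ¬ PQ.Harmless F b v ∧
      ¬ (PQ.DefA l F b v ∨ PQ.DefB N F b v)}.ncard ≤ s →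
    J ∣ Ideal.span {F.leadingCoeff * b} →
    (∀ v : HeightOneSpectrum (𝓞 K), v.asIdeal ∣ J → PQ.DefA l F b v ∨ PQ.DefB N F b v) →
    1 ≤ μ → MultLe (fp F b) μ →
    (Ideal.absNorm I : ℝ) ≤ (Ideal.absNorm J * μ) ^ k →
    ∀ (L : Type) [Field L] [NumberField L] [Algebra K L], ∀ X : Finset (L × L),
      (∀ p ∈ X, Pool.Agent.RDF.DegLe K N p ∧ p ≠ 0 ∧ ∃ m n : ℕ, m < n ∧
        wedge ((lift d (F.map (algebraMap (𝓞 K) L))
            ((C b : (𝓞 K)[X]).map (algebraMap (𝓞 K) L)))^[m] p)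
          ((lift d (F.map (algebraMap (𝓞 K) L))
            ((C b : (𝓞 K)[X]).map (algebraMap (𝓞 K) L)))^[n] p) = 0) →
      (∀ p ∈ X, ∀ q ∈ X, p ≠ q → wedge p q ≠ 0) →
      (X.card : ℝ) ≤ M₀ * ((Module.finrank ℚ K + k + s) *
        Real.log (Module.finrank ℚ K + k + s + 1)) := by
  obtain ⟨κ, A, hκ, hloc⟩ := locDef_poly d N l hd hN
  obtain ⟨C₀, hC₀, hmain⟩ := main_TX N d hd κ A hκ
  obtain ⟨C₁, hC₁, hmult⟩ := log_mult d hd
  set c : ℝ := 2 + d * (2 + C₁) with hc
  have hdr : (2 : ℝ) ≤ d := by exact_mod_cast hd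
  have hc2 : 2 ≤ c := by
    have : 0 ≤ d * (2 + C₁) := by positivity
    linarith
  refine ⟨c ^ 2 * C₀, by positivity, ?_⟩
  intro K _ _ F b hF hb k s μ I M J hIM hs hJ hdef hμ1 hμ hnorm L _ _ _ X hX hw
  classical
  have ha0 : F.leadingCoeff ≠ 0 := by
    intro h0
    rw [leadingCoeff_eq_zero] at h0
    rw [h0, natDegree_zero] at hF
    omega
  have hab : F.leadingCoeff * b ≠ 0 := mul_ne_zero ha0 hb
  have hF' : F.natDegree ≤ d := hF.le
  have hG' : (C b : (𝓞 K)[X]).natDegree ≤ d := by simp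
  have hres : resultant F (C b) d d = (F.leadingCoeff * b) ^ d := by
    rw [resultant_C_right, ← hF, coeff_natDegree, mul_pow]
  have hR : resultant F (C b) d d ≠ 0 := by
    rw [hres]
    exact pow_ne_zero _ hab
  have hspanR : Ideal.span {resultant F (C b) d d} = Ideal.span {F.leadingCoeff * b} ^ d := by
    rw [hres, Ideal.span_singleton_pow]
  have hspan0 : Ideal.span {F.leadingCoeff * b} ≠ (⊥ : Ideal (𝓞 K)) := by
    rw [Ne, Ideal.span_singleton_eq_bot]
    exact hab
  have hspanR0 : Ideal.span {resultant F (C b) d d} ≠ (⊥ : Ideal (𝓞 K)) := by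
    rw [Ne, Ideal.span_singleton_eq_bot]
    exact hR
  have hI0 : I ≠ ⊥ := by
    rintro rfl
    rw [← Ideal.zero_eq_bot, zero_mul] at hIM
    exact hspan0 hIM.symm
  have hM0 : M ≠ ⊥ := by
    rintro rfl
    rw [← Ideal.zero_eq_bot, mul_zero] at hIM
    exact hspan0 hIM.symm
  have hJ0 : J ≠ ⊥ := by
    rintro rfl
    exact hspan0 (zero_dvd_iff.1 (by rwa [← Ideal.zero_eq_bot] at hJ))
  -- the defective part of the resultant
  obtain ⟨A₁, B₁, E, hABE, hE, hB, hA⟩ := PQ.Sqf.split_three (Ideal.span {resultant F (C b) d d})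
    hspanR0 (fun v => PQ.DefA l F b v ∨ PQ.DefB N F b v) (fun _ => True)
  have hEd : E ∣ Ideal.span {resultant F (C b) d d} := ⟨A₁ * B₁, by rw [← hABE]; ring⟩
  have hE0 : E ≠ ⊥ := by
    rintro rfl
    exact hspanR0 (zero_dvd_iff.1 (by rwa [← Ideal.zero_eq_bot] at hEd))
  have hnotE : ∀ v : HeightOneSpectrum (𝓞 K), resultant F (C b) d d ∈ v.asIdeal →
      ¬ v.asIdeal ∣ E → ¬ (PQ.DefA l F b v ∨ PQ.DefB N F b v) := by
    intro v hv hvE
    have h1 : v.asIdeal ∣ A₁ * B₁ * E := by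
      rw [hABE]
      exact Ideal.dvd_span_singleton.2 hv
    rcases v.prime.dvd_or_dvd h1 with h2 | h2
    · rcases v.prime.dvd_or_dvd h2 with h3 | h3
      · exact (hA v h3).2.1
      · exact (hB v h3).2.1
    · exact absurd h2 hvE
  have hJE : J ^ d ∣ E := by
    have h1 : J ^ d ∣ A₁ * B₁ * E := by
      rw [hABE, hspanR]
      exact pow_dvd_pow_of_dvd hJ d
    refine IsCoprime.dvd_of_dvd_mul_left (isCoprime_of _ _ (pow_ne_zero _ hJ0) ?_) h1
    intro v hv hv2
    have h2 := hdef v (v.prime.dvd_of_dvd_pow hv)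
    rcases v.prime.dvd_or_dvd hv2 with h3 | h3
    · exact (hA v h3).2.1 h2
    · exact (hB v h3).2.1 h2
  -- the largest local term
  obtain ⟨m, hm1, hmv, hmσ, hmD, hmm⟩ := exists_max' d F (C b) hF' hG' hR
    (Real.log (Ideal.absNorm E))
  have hlogμ := hmult K F b hF hb μ hμ1 hμ m hm1 hmv hmσ
  have hfin := lamV_support d F (C b) hF' hG' hR
  have hP : ∀ v, lamV d F (C b) v ≠ 0 → v ∈ hfin.toFinset := fun v hv =>
    (Set.Finite.mem_toFinset hfin).mpr hv
  have hn : (1 : ℝ) ≤ Module.finrank ℚ K := by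
    exact_mod_cast (Module.finrank_pos : 0 < Module.finrank ℚ K)
  have hk0 : (0 : ℝ) ≤ k := Nat.cast_nonneg _
  have hs0 : (0 : ℝ) ≤ s := Nat.cast_nonneg _
  -- the part which does not divide `M`
  obtain ⟨T, hTd, hT, hTn⟩ := exists_part (F.leadingCoeff * b) hab (fun v => ¬ v.asIdeal ∣ M)
  have hT0 : T ≠ ⊥ := by
    rintro rfl
    exact hspan0 (zero_dvd_iff.1 (by rwa [← Ideal.zero_eq_bot] at hTd))
  have hTI : T ∣ I := by
    rw [← hIM] at hTd
    exact IsCoprime.dvd_of_dvd_mul_right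
      (isCoprime_of _ _ hT0 fun v hv => ((hT v).1 hv).2) hTd
  have hsumT : d * Real.log (Ideal.absNorm T) ≤ k * ((c - 1) * m) := by
    have hJpos : (0 : ℝ) < Ideal.absNorm J := by
      exact_mod_cast Nat.pos_of_ne_zero (by rwa [Ne, Ideal.absNorm_eq_zero_iff])
    have h1 : Real.log (Ideal.absNorm T) ≤
        k * (Real.log (Ideal.absNorm J) + Real.log μ) := by
      refine (log_absNorm_mono T I hI0 hTI).trans ?_
      rw [← Real.log_mul hJpos.ne' (by linarith), ← Real.log_pow]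
      have h2 : 0 < Ideal.absNorm I :=
        Nat.pos_of_ne_zero (by rwa [Ne, Ideal.absNorm_eq_zero_iff])
      exact Real.log_le_log (by exact_mod_cast h2) hnorm
    have h2 : d * Real.log (Ideal.absNorm J) ≤ m := by
      refine le_trans (le_of_eq ?_) ((log_absNorm_mono (J ^ d) E hE0 hJE).trans hmD)
      rw [map_pow, Nat.cast_pow, Real.log_pow]
    have h3 : (0 : ℝ) ≤ d := Nat.cast_nonneg _
    calc d * Real.log (Ideal.absNorm T)
        ≤ d * (k * (Real.log (Ideal.absNorm J) + Real.log μ)) :=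
          mul_le_mul_of_nonneg_left h1 h3
      _ = k * (d * Real.log (Ideal.absNorm J) + d * Real.log μ) := by ring
      _ ≤ k * (m + d * ((2 + C₁) * m)) := by
          refine mul_le_mul_of_nonneg_left (add_le_add h2 ?_) hk0
          exact mul_le_mul_of_nonneg_left hlogμ h3
      _ = k * ((c - 1) * m) := by rw [hc]; ring
  have hsum : ∑ᶠ (v : HeightOneSpectrum (𝓞 K)) (_ : ¬ v.asIdeal ∣ E), lamV d F (C b) v ≤
      (k * (c - 1) + s) * m := by
    rw [finsum_filter _ hfin.toFinset hP,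
      ← Finset.sum_filter_add_sum_filter_not _ (fun v : HeightOneSpectrum (𝓞 K) => v.asIdeal ∣ M)]
    have hmem : ∀ v ∈ (hfin.toFinset.filter fun v : HeightOneSpectrum (𝓞 K) => ¬ v.asIdeal ∣ E),
        resultant F (C b) d d ∈ v.asIdeal ∧ ¬ PQ.Harmless F b v ∧
          ¬ (PQ.DefA l F b v ∨ PQ.DefB N F b v) := by
      intro v hv
      rw [Finset.mem_filter, Set.Finite.mem_toFinset] at hv
      have h1 : resultant F (C b) d d ∈ v.asIdeal := by
        by_contra h2
        exact hv.1 (lamV_eq_zero d F (C b) hF' hG' v h2)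
      exact ⟨h1, fun h2 => hv.1 (SXH.lamV_harmless d hd F b hF v h2), hnotE v h1 hv.2⟩
    have h1 : ∑ v ∈ (hfin.toFinset.filter fun v : HeightOneSpectrum (𝓞 K) => ¬ v.asIdeal ∣ E).filter
        (fun v : HeightOneSpectrum (𝓞 K) => v.asIdeal ∣ M), lamV d F (C b) v ≤ s * m := by
      refine (Finset.sum_le_card_nsmul _ _ m (fun v _ => hmv v)).trans ?_
      rw [nsmul_eq_mul]
      refine mul_le_mul_of_nonneg_right ?_ (by linarith)
      rw [← Set.ncard_coe_finset]
      refine le_trans ?_ (Nat.cast_le.2 hs)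
      refine Nat.cast_le.2 (Set.ncard_le_ncard ?_ ?_)
      · intro v hv
        rw [Finset.mem_coe, Finset.mem_filter] at hv
        exact ⟨hv.2, (hmem v hv.1).2.1, (hmem v hv.1).2.2⟩
      · exact (Ideal.finite_factors (show M ≠ 0 from hM0)).subset fun v hv => hv.1
    have h2 : ∑ v ∈ (hfin.toFinset.filter fun v : HeightOneSpectrum (𝓞 K) => ¬ v.asIdeal ∣ E).filter
        (fun v : HeightOneSpectrum (𝓞 K) => ¬ v.asIdeal ∣ M), lamV d F (C b) v ≤
        k * ((c - 1) * m) := by
      refine le_trans ?_ hsumT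
      have hfin2 := Ideal.finite_factors (show Ideal.span {F.leadingCoeff * b} ≠ 0 from hspan0)
      rw [hTn, finsum_filter _ hfin2.toFinset, Finset.mul_sum]
      · refine (Finset.sum_le_sum (f := lamV d F (C b)) (g := fun v =>
          (d : ℝ) * -Real.log (av v (algebraMap (𝓞 K) K (F.leadingCoeff * b)))) ?_).trans ?_
        · intro v _
          have h3 := lamV_le d F (C b) hF' hG' v
          rw [hres, map_pow, map_pow, Real.log_pow] at h3
          linarith
        · refine Finset.sum_le_sum_of_subset_of_nonneg ?_ ?_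
          · intro v hv
            rw [Finset.mem_filter] at hv
            rw [Finset.mem_filter, Set.Finite.mem_toFinset]
            refine ⟨?_, hv.2⟩
            have h3 := (hmem v hv.1).1
            rw [hres] at h3
            exact Ideal.dvd_span_singleton.2 (v.isPrime.mem_of_pow_mem d h3)
          · intro v _ _
            have h3 : 0 ≤ -Real.log (av v (algebraMap (𝓞 K) K (F.leadingCoeff * b))) :=
              wt_nonneg v _
            positivity
      · intro v hv
        rw [Set.Finite.mem_toFinset]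
        by_contra h3
        exact hv (wt_eq_zero v _ fun h4 => h3 (Ideal.dvd_span_singleton.2 h4))
    linarith
  have hσ := sum_lamC_le d F (C b) m hmσ
  have h3 := hmain K F (C b) hF' hG' hR E hEd (fun v hv => hloc K F b hb hF v (hE v hv).2)
    m (by linarith) hmm (c * (Module.finrank ℚ K + k + s)) (by
      have h4 : (∑ᶠ (v : HeightOneSpectrum (𝓞 K)) (_ : ¬ v.asIdeal ∣ E), lamV d F (C b) v +
          ∑ σ : K →+* ℂ, lamC d (F.map (σ.comp (algebraMap (𝓞 K) K)))
            ((C b : (𝓞 K)[X]).map (σ.comp (algebraMap (𝓞 K) K)))) / m ≤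
          k * (c - 1) + s + Module.finrank ℚ K := by
        rw [div_le_iff₀ (by linarith)]
        linarith
      have h5 : (2 : ℝ) * Module.finrank ℚ K ≤ c * Module.finrank ℚ K :=
        mul_le_mul_of_nonneg_right hc2 (by linarith)
      have h6 : (1 : ℝ) * s ≤ c * s := mul_le_mul_of_nonneg_right (by linarith) hs0
      linarith) L X hX hw
  refine h3.trans ?_
  have h4 := log_bound_c c (Module.finrank ℚ K + k + s) (by linarith) (by linarith)
  calc C₀ * (c * (Module.finrank ℚ K + k + s) * Real.log (c * (Module.finrank ℚ K + k + s) + 1))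
      ≤ C₀ * (c ^ 2 * ((Module.finrank ℚ K + k + s) *
          Real.log (Module.finrank ℚ K + k + s + 1))) :=
        mul_le_mul_of_nonneg_left h4 hC₀
    _ = c ^ 2 * C₀ * ((Module.finrank ℚ K + k + s) *
          Real.log (Module.finrank ℚ K + k + s + 1)) := by
        ring

end Pool.Agent.RI
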