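import Mathlib
import Pool.Agent.RI.TPolyM

set_option autoImplicit false

/-!
# The preperiodic points of `x ^ d + c` over `ℚ`
-/

namespace Pool.Agent.RI

open Polynomial NumberField IsDedekindDomain Pool.Agent.GPoly
open Pool.Agent.RDF (lift wedge)
open TForm SAll TPoly TPolyM

/-- THEOREM S for polynomials with a multiplier, in the algebraic closure. -/
theorem main_TPolyMF (N d l : ℕ) (hd : 2 ≤ d) : ∃ M₀ : ℝ, 0 ≤ M₀ ∧
    ∀ (K : Type) [Field K] [NumberField K] (F : (𝓞 K)[X]) (b : 𝓞 K), F.natDegree = d → b ≠ 0 →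
    ∀ (k s : ℕ) (μ : ℝ) (I M J : Ideal (𝓞 K)), I * M = Ideal.span {F.leadingCoeff * b} →
    {v : HeightOneSpectrum (𝓞 K) | v.asIdeal ∣ M ∧ ¬ PQ.Harmless F b v ∧
      ¬ (PQ.DefA l F b v ∨ PQ.DefB N F b v)}.ncard ≤ s →
    J ∣ Ideal.span {F.leadingCoeff * b} →
    (∀ v : HeightOneSpectrum (𝓞 K), v.asIdeal ∣ J → PQ.DefA l F b v ∨ PQ.DefB N F b v) →
    1 ≤ μ → MultLe (fp F b) μ →
    (Ideal.absNorm I : ℝ) ≤ (Ideal.absNorm J * μ) ^ k →
    {x : AlgebraicClosure K | (minpoly K x).natDegree ≤ N ∧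
      PQ.PreE (AlgebraicClosure K) F b x}.Finite ∧
    (({x : AlgebraicClosure K | (minpoly K x).natDegree ≤ N ∧
      PQ.PreE (AlgebraicClosure K) F b x}.ncard : ℕ) : ℝ) ≤
        M₀ * ((Module.finrank ℚ K + k + s) * Real.log (Module.finrank ℚ K + k + s + 1)) := by
  rcases Nat.eq_zero_or_pos N with rfl | hN
  · refine ⟨0, le_rfl, ?_⟩
    intro K _ _ F b hF hb k s μ I M J hIM hs hJ hdef hμ1 hμ hnorm
    have h0 : {x : AlgebraicClosure K | (minpoly K x).natDegree ≤ 0 ∧
      PQ.PreE (AlgebraicClosure K) F b x} = ∅ := by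
      refine Set.eq_empty_of_forall_notMem fun x hx => ?_
      have h1 := minpoly.natDegree_pos (A := K) (x := x) (Algebra.IsIntegral.isIntegral x)
      have h2 := hx.1
      omega
    rw [h0]
    simp
  · obtain ⟨M₀, hM₀, h⟩ := main_TPolyM N d l hN hd
    refine ⟨M₀, hM₀, ?_⟩
    intro K _ _ F b hF hb k s μ I M J hIM hs hJ hdef hμ1 hμ hnorm
    exact TPoly.points_of d N F hF.le b hb _
      (h K F b hF hb k s μ I M J hIM hs hJ hdef hμ1 hμ hnorm)

namespace TPolyU

theorem multiset_prod_lt (s : Multiset ℝ) (y : ℝ) (h : ∀ x ∈ s, 0 ≤ x ∧ x < y) :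
    0 ≤ s.prod ∧ s.prod ≤ y ^ s.card ∧ (s ≠ 0 → s.prod < y ^ s.card) := by
  induction s using Multiset.induction_on with
  | empty => simp
  | cons a s ih =>
    obtain ⟨h1, h2, -⟩ := ih fun x hx => h x (Multiset.mem_cons_of_mem hx)
    obtain ⟨ha0, hay⟩ := h a (Multiset.mem_cons_self a s)
    rw [Multiset.prod_cons, Multiset.card_cons, pow_succ']
    have hy : 0 < y := lt_of_le_of_lt ha0 hay
    have h3 : a * s.prod < y * y ^ s.card := by
      have h4 : a * s.prod ≤ a * y ^ s.card := mul_le_mul_of_nonneg_left h2 ha0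
      have h5 : a * y ^ s.card < y * y ^ s.card := mul_lt_mul_of_pos_right hay (pow_pos hy _)
      linarith
    exact ⟨mul_nonneg ha0 h1, h3.le, fun _ => h3⟩

/-- A fixed point of `x ^ d + c` which is not small. -/
theorem exists_fix {E : Type} [NormedField E] [IsAlgClosed E] (d : ℕ) (hd : 2 ≤ d) (c : E) :
    ∃ x : E, x ^ d + c = x ∧ ‖c‖ ≤ ‖x‖ ^ d := by
  classical
  by_contra hcon
  push Not at hcon
  set P : E[X] := X ^ d + (-X + C c) with hP
  have hdeg : (-X + C c : E[X]).degree < d := by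
    refine lt_of_le_of_lt (degree_add_le _ _) (max_lt ?_ ?_)
    · rw [degree_neg, degree_X]
      exact_mod_cast (by omega : 1 < d)
    · exact lt_of_le_of_lt degree_C_le (by exact_mod_cast (by omega : 0 < d))
  have hmon : P.Monic := monic_X_pow_add hdeg
  have hnd : P.natDegree = d := by
    rw [hP, natDegree_add_eq_left_of_degree_lt (by rwa [degree_X_pow]), natDegree_X_pow]
  have h0 := (IsAlgClosed.splits P).eval_eq_prod_roots_of_monic hmon 0
  have hcard : P.roots.card = d := by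
    rw [← hnd]
    exact (splits_iff_card_roots.1 (IsAlgClosed.splits P))
  have he : P.eval 0 = c := by
    rw [hP]
    simp [show d ≠ 0 by omega]
  rw [he] at h0
  have h1 : ‖c‖ ^ d = ((P.roots.map fun x => ‖x‖ ^ d)).prod := by
    have h2 : ‖c‖ = (P.roots.map fun x => ‖x‖).prod := by
      conv_lhs => rw [h0]
      have h3 := map_multiset_prod (normHom : E →*₀ ℝ) (P.roots.map fun x => 0 - x)
      rw [Multiset.map_map] at h3
      have h4 : (normHom : E →*₀ ℝ) ((P.roots.map fun x => 0 - x)).prod =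
        ‖((P.roots.map fun x => 0 - x)).prod‖ := rfl
      rw [← h4, h3]
      congr 1
      refine Multiset.map_congr rfl fun x _ => ?_
      simp
    rw [h2, ← Multiset.prod_map_pow]
  have h2 := (multiset_prod_lt (P.roots.map fun x => ‖x‖ ^ d) ‖c‖ (by
    intro y hy
    obtain ⟨x, hx, rfl⟩ := Multiset.mem_map.1 hy
    refine ⟨by positivity, hcon x ?_⟩
    have h3 := (mem_roots'.1 hx).2
    rw [IsRoot.def, hP] at h3
    simp only [eval_add, eval_pow, eval_X, eval_neg, eval_C] at h3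
    linear_combination h3)).2.2 (by
      intro h3
      have h4 := congrArg Multiset.card h3
      rw [Multiset.card_map, hcard, Multiset.card_zero] at h4
      omega)
  rw [Multiset.card_map, hcard, ← h1] at h2
  exact lt_irrefl _ h2

/-- The multiplier at such a fixed point. -/
theorem mult_ge (d : ℕ) (hd : 2 ≤ d) (x y n : ℝ) (hx0 : 0 ≤ x) (hy : 1 ≤ y) (hx : y ≤ x ^ d)
    (hn : 1 ≤ n) : Real.sqrt y ≤ n * x ^ (d - 1) := by
  have hx1 : 1 ≤ x := by
    by_contra h
    push Not at h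
    have := pow_lt_one₀ hx0 h (by omega : d ≠ 0)
    linarith
  have h1 : y ≤ (x ^ (d - 1)) ^ 2 := by
    refine hx.trans ?_
    rw [← pow_mul]
    exact pow_le_pow_right₀ hx1 (by omega)
  have h2 : Real.sqrt y ≤ x ^ (d - 1) := by
    rw [Real.sqrt_le_left (by positivity)]
    exact h1
  have h3 : 0 ≤ x ^ (d - 1) := by positivity
  nlinarith

theorem fp_uni (d : ℕ) (c : ℚ) :
    fp (C ((c.den : ℕ) : 𝓞 ℚ) * X ^ d + C ((c.num : ℤ) : 𝓞 ℚ)) ((c.den : ℕ) : 𝓞 ℚ) =
      X ^ d + C c := by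
  have hden : (c.den : ℚ) ≠ 0 := by exact_mod_cast c.den_nz
  rw [fp, map_natCast, Polynomial.map_add, Polynomial.map_mul, Polynomial.map_pow, map_X, map_C,
    map_C, map_natCast, map_intCast, mul_add, ← mul_assoc, ← C_mul, ← C_mul,
    inv_mul_cancel₀ hden, C_1, one_mul]
  congr 2
  rw [inv_mul_eq_div]
  exact Rat.num_div_den c

end TPolyU

open TPolyU

/-- The preperiodic points of `x ^ d + c`, `c ∈ ℚ`. -/
theorem unicritical (N d : ℕ) (hd : 2 ≤ d) : ∃ M₀ : ℝ, 0 ≤ M₀ ∧ ∀ (c : ℚ) (k : ℕ), 1 ≤ k →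
    ((∃ q e : ℕ, q.Prime ∧ ¬ q ∣ d ∧ q ^ e ∣ c.den ∧ c.den ≤ (q ^ e) ^ k) ∨
      (c.den : ℝ) ≤ |(c : ℝ)| ^ k) →
    {x : AlgebraicClosure ℚ | (minpoly ℚ x).natDegree ≤ N ∧
      Pre (fun z => z ^ d + algebraMap ℚ (AlgebraicClosure ℚ) c) x}.Finite ∧
    (({x : AlgebraicClosure ℚ | (minpoly ℚ x).natDegree ≤ N ∧
      Pre (fun z => z ^ d + algebraMap ℚ (AlgebraicClosure ℚ) c) x}.ncard : ℕ) : ℝ) ≤
        M₀ * (k * Real.log (k + 1)) := by
  obtain ⟨M₀, hM₀, hmain⟩ := main_TPolyMF N d 0 hd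
  refine ⟨25 * M₀, by positivity, ?_⟩
  intro c k hk hyp
  have hd0 : d ≠ 0 := by omega
  set F : (𝓞 ℚ)[X] := C ((c.den : ℕ) : 𝓞 ℚ) * X ^ d + C ((c.num : ℤ) : 𝓞 ℚ) with hF
  have hdenO : ((c.den : ℕ) : 𝓞 ℚ) ≠ 0 := by exact_mod_cast c.den_nz
  have hlow : (C ((c.num : ℤ) : 𝓞 ℚ)).natDegree < (C ((c.den : ℕ) : 𝓞 ℚ) * X ^ d).natDegree := by
    rw [natDegree_C, natDegree_C_mul_X_pow d _ hdenO]
    omega
  have hFd : F.natDegree = d := by
    rw [hF, natDegree_add_eq_left_of_natDegree_lt hlow, natDegree_C_mul_X_pow d _ hdenO]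
  have hFl : F.leadingCoeff = ((c.den : ℕ) : 𝓞 ℚ) := by
    rw [leadingCoeff, hFd, hF, coeff_add, coeff_C_mul_X_pow, if_pos rfl, coeff_C, if_neg hd0,
      add_zero]
  have hset : {x : AlgebraicClosure ℚ | (minpoly ℚ x).natDegree ≤ N ∧
      Pre (fun z => z ^ d + algebraMap ℚ (AlgebraicClosure ℚ) c) x} =
      {x : AlgebraicClosure ℚ | (minpoly ℚ x).natDegree ≤ N ∧
      PQ.PreE (AlgebraicClosure ℚ) F ((c.den : ℕ) : 𝓞 ℚ) x} := by
    have h1 : (fun z => (PQ.fE (AlgebraicClosure ℚ) F ((c.den : ℕ) : 𝓞 ℚ)).eval z) =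
        fun z => z ^ d + algebraMap ℚ (AlgebraicClosure ℚ) c := by
      funext z
      rw [PQ.fE, hF, fp_uni]
      simp
    ext x
    exact and_congr_right fun _ => by rw [PQ.PreE, h1]
  rw [hset]
  obtain ⟨μ, hμ1, hμ, hnorm⟩ : ∃ μ : ℝ, 1 ≤ μ ∧ MultLe (fp F ((c.den : ℕ) : 𝓞 ℚ)) μ ∧
      (c.den : ℝ) ^ 2 ≤ μ ^ (4 * k) := by
    have hdn : 1 ≤ d := by omega
    have hdr : (1 : ℝ) ≤ d := by exact_mod_cast hdn
    rw [hF, fp_uni]
    rcases hyp with ⟨q, e, hq, hqd, hqe, hle⟩ | hle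
    · refine ⟨Real.sqrt ((q : ℝ) ^ e), ?_, ?_, ?_⟩
      · rw [Real.one_le_sqrt]
        exact one_le_pow₀ (by exact_mod_cast hq.one_le)
      · rcases Nat.eq_zero_or_pos e with he | he
        · left
          rw [he, pow_zero, Real.sqrt_one]
        right
        left
        obtain ⟨v, hv⟩ := AVR.Glue.exists_v q hq
        refine ⟨v, ?_⟩
        intro E _ _ _ _ hE
        have hq1 : ‖((q : ℕ) : E)‖ = (q : ℝ)⁻¹ := by
          have h2 := hE (q : ℚ)
          rw [map_natCast, hv] at h2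
          exact h2
        have hle1 : ∀ n : ℕ, ‖(n : E)‖ ≤ 1 := fun n => IsUltrametricDist.norm_natCast_le_one E n
        have hlei : ∀ n : ℤ, ‖(n : E)‖ ≤ 1 := fun n => IsUltrametricDist.norm_intCast_le_one E n
        have hq0 : (0 : ℝ) < q := by exact_mod_cast hq.pos
        -- integers prime to `q` are units
        have hunit : ∀ n : ℤ, ¬ (q : ℤ) ∣ n → ‖(n : E)‖ = 1 := by
          intro n hn
          have hcop : IsCoprime (q : ℤ) n :=
            (Nat.prime_iff_prime_int.1 hq).coprime_iff_not_dvd.2 hn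
          obtain ⟨u, w, huw⟩ := hcop
          refine le_antisymm (hlei n) ?_
          by_contra hlt
          push Not at hlt
          have h2 : ((u : E) * (q : E)) + (w : E) * (n : E) = 1 := by
            exact_mod_cast congrArg (fun z : ℤ => (z : E)) huw
          have h3 : ‖(u : E) * (q : E)‖ < 1 := by
            rw [norm_mul, hq1]
            have h4 : (q : ℝ)⁻¹ < 1 := inv_lt_one_of_one_lt₀ (by exact_mod_cast hq.one_lt)
            have h5 := hlei u
            have h6 : 0 < (q : ℝ)⁻¹ := inv_pos.2 hq0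
            nlinarith [norm_nonneg (u : E)]
          have h4 : ‖(w : E) * (n : E)‖ < 1 := by
            rw [norm_mul]
            have h5 := hlei w
            nlinarith [norm_nonneg (w : E), norm_nonneg (n : E)]
          have h5 := IsUltrametricDist.norm_add_le_max ((u : E) * (q : E)) ((w : E) * (n : E))
          rw [h2, norm_one] at h5
          exact absurd h5 (not_le.2 (max_lt h3 h4))
        have hnum : ‖((c.num : ℤ) : E)‖ = 1 := by
          refine hunit _ fun h2 => ?_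
          have h3 : q ∣ c.num.natAbs := Int.natCast_dvd.1 h2
          have h4 : q ∣ c.den := (dvd_pow_self q (by omega)).trans hqe
          have h5 := Nat.dvd_gcd h3 h4
          rw [c.reduced] at h5
          exact hq.one_lt.ne' (Nat.dvd_one.1 h5)
        have hdn1 : ‖((d : ℕ) : E)‖ = 1 := by
          have := hunit (d : ℤ) (by exact_mod_cast hqd)
          rwa [Int.cast_natCast] at this
        have hden : ‖((c.den : ℕ) : E)‖ ≤ ((q : ℝ) ^ e)⁻¹ := by
          obtain ⟨t, ht⟩ := hqe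
          rw [ht, Nat.cast_mul, norm_mul, Nat.cast_pow, norm_pow, hq1, inv_pow]
          exact mul_le_of_le_one_right (by positivity) (hle1 t)
        have hden0 : 0 < ‖((c.den : ℕ) : E)‖ := by
          have h2 := hE (c.den : ℚ)
          rw [map_natCast] at h2
          rw [h2]
          exact (av v).pos (by exact_mod_cast c.den_nz)
        have hc : (q : ℝ) ^ e ≤ ‖algebraMap ℚ E c‖ := by
          have h2 : algebraMap ℚ E c * ((c.den : ℕ) : E) = ((c.num : ℤ) : E) := by
            rw [← map_natCast (algebraMap ℚ E), ← map_intCast (algebraMap ℚ E), ← map_mul]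
            congr 1
            exact Rat.mul_den_eq_num c
          have h3 := congrArg norm h2
          rw [norm_mul, hnum] at h3
          have h4 : (0 : ℝ) < (q : ℝ) ^ e := by positivity
          have h5 : ‖algebraMap ℚ E c‖ * ((q : ℝ) ^ e)⁻¹ ≥ 1 := by
            rw [← h3]
            exact mul_le_mul_of_nonneg_left hden (norm_nonneg _)
          rwa [ge_iff_le, ← div_eq_mul_inv, le_div_iff₀ h4, one_mul] at h5
        obtain ⟨x, hx, hxc⟩ := exists_fix d hd (algebraMap ℚ E c)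
        refine ⟨x, by simpa using hx, ?_⟩
        have h2 := mult_ge d hd ‖x‖ ((q : ℝ) ^ e) 1 (norm_nonneg _)
          (one_le_pow₀ (by exact_mod_cast hq.one_le)) (hc.trans hxc) le_rfl
        have h3 : ‖(((X ^ d + C c : ℚ[X]).map (algebraMap ℚ E)).derivative).eval x‖ =
            1 * ‖x‖ ^ (d - 1) := by
          rw [Polynomial.map_add, Polynomial.map_pow, map_X, map_C, derivative_add, derivative_X_pow,
            derivative_C, add_zero, eval_mul, eval_pow, eval_X, eval_C, norm_mul, norm_pow, hdn1]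
        rw [h3]
        exact h2
      · rw [show 4 * k = 2 * (2 * k) by ring, pow_mul, Real.sq_sqrt (by positivity),
          show 2 * k = k * 2 by ring, pow_mul]
        refine pow_le_pow_left₀ (Nat.cast_nonneg _) ?_ 2
        exact_mod_cast hle
    · have hc1 : 1 ≤ |(c : ℝ)| := by
        by_contra h
        push Not at h
        have h2 : |(c : ℝ)| ^ k < 1 := pow_lt_one₀ (abs_nonneg _) h (by omega)
        have h3 : (1 : ℝ) ≤ c.den := by exact_mod_cast c.den_pos
        linarith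
      refine ⟨Real.sqrt |(c : ℝ)|, by rwa [Real.one_le_sqrt], ?_, ?_⟩
      · right
        right
        obtain ⟨x, hx, hxc⟩ := exists_fix d hd ((c : ℚ) : ℂ)
        refine ⟨algebraMap ℚ ℂ, x, by simpa using hx, ?_⟩
        have hcn : ‖((c : ℚ) : ℂ)‖ = |(c : ℝ)| := by
          rw [← Complex.ofReal_ratCast, Complex.norm_real, Real.norm_eq_abs]
        rw [hcn] at hxc
        have h2 := mult_ge d hd ‖x‖ |(c : ℝ)| d (norm_nonneg _) hc1 hxc hdr
        have h3 : ‖(((X ^ d + C c : ℚ[X]).map (algebraMap ℚ ℂ)).derivative).eval x‖ =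
            d * ‖x‖ ^ (d - 1) := by
          rw [Polynomial.map_add, Polynomial.map_pow, map_X, map_C, derivative_add, derivative_X_pow,
            derivative_C, add_zero, eval_mul, eval_pow, eval_X, eval_C, norm_mul, norm_pow,
            Complex.norm_natCast]
        rw [h3]
        exact h2
      · rw [show 4 * k = 2 * (2 * k) by ring, pow_mul, Real.sq_sqrt (by positivity),
          show 2 * k = k * 2 by ring, pow_mul]
        exact pow_le_pow_left₀ (Nat.cast_nonneg _) hle 2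
  have h1 := hmain ℚ F ((c.den : ℕ) : 𝓞 ℚ) hFd hdenO (4 * k) 0 μ
    (Ideal.span {F.leadingCoeff * ((c.den : ℕ) : 𝓞 ℚ)}) ⊤ ⊤ (by rw [Ideal.mul_top]) ?_ ?_ ?_
    hμ1 hμ ?_
  · refine ⟨h1.1, h1.2.trans ?_⟩
    have hk1 : (1 : ℝ) ≤ k := by exact_mod_cast hk
    rw [Module.finrank_self]
    push_cast
    have h2 := mono_log (x := 1 + 4 * (k : ℝ) + 0) (y := 5 * k) (by positivity) (by linarith)
    have h3 := log_bound_c 5 k (by norm_num) (by linarith)
    calc M₀ * ((1 + 4 * (k : ℝ) + 0) * Real.log (1 + 4 * (k : ℝ) + 0 + 1))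
        ≤ M₀ * (5 ^ 2 * (k * Real.log (k + 1))) :=
          mul_le_mul_of_nonneg_left (h2.trans h3) hM₀
      _ = 25 * M₀ * (k * Real.log (k + 1)) := by ring
  · rw [Nat.le_zero, Set.ncard_eq_zero (by
      refine Set.Finite.subset Set.finite_empty fun v hv => ?_
      exact absurd (Ideal.dvd_iff_le.1 hv.1) (by
        rw [top_le_iff]
        exact v.isPrime.ne_top))]
    refine Set.eq_empty_of_forall_notMem fun v hv => ?_
    exact absurd (Ideal.dvd_iff_le.1 hv.1) (by
        rw [top_le_iff]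
        exact v.isPrime.ne_top)
  · rw [← Ideal.one_eq_top]
    exact one_dvd _
  · intro v hv
    exact absurd (Ideal.dvd_iff_le.1 hv) (by
        rw [top_le_iff]
        exact v.isPrime.ne_top)
  · rw [Ideal.absNorm_top, Nat.cast_one, one_mul, hFl, ← Nat.cast_mul, PQ.absNorm_natCast]
    push_cast
    rw [← sq]
    exact hnorm

end Pool.Agent.RI
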