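import Mathlib
import Pool.Agent.RI.TPolyU

set_option autoImplicit false

/-!
# Theorem S for polynomials, with a multiplier or a constant, and `x ^ d + c` without exceptions
-/

namespace Pool.Agent.RI

open Polynomial NumberField IsDedekindDomain Pool.Agent.GPoly
open Pool.Agent.RDF (lift wedge)
open TForm SAll TPoly TPolyM TPolyU

/-- THEOREM S for polynomials, with a number `μ` controlled by the largest local term. -/
theorem main_TPolyW (N d l : ℕ) (hN : 1 ≤ N) (hd : 2 ≤ d) (C₂ : ℝ) (hC₂ : 0 ≤ C₂) :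
    ∃ M₀ : ℝ, 0 ≤ M₀ ∧
    ∀ (K : Type) [Field K] [NumberField K] (F : (𝓞 K)[X]) (b : 𝓞 K), F.natDegree = d → b ≠ 0 →
    ∀ (k s : ℕ) (μ : ℝ) (I M J : Ideal (𝓞 K)), I * M = Ideal.span {F.leadingCoeff * b} →
    {v : HeightOneSpectrum (𝓞 K) | v.asIdeal ∣ M ∧ ¬ PQ.Harmless F b v ∧
      ¬ (PQ.DefA l F b v ∨ PQ.DefB N F b v)}.ncard ≤ s →
    J ∣ Ideal.span {F.leadingCoeff * b} →
    (∀ v : HeightOneSpectrum (𝓞 K), v.asIdeal ∣ J → PQ.DefA l F b v ∨ PQ.DefB N F b v) →
    1 ≤ μ →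
    (∀ m : ℝ, 1 ≤ m → (∀ v, lamV d F (C b) v ≤ m) →
      (∀ σ : K →+* ℂ, lamC d (F.map (σ.comp (algebraMap (𝓞 K) K)))
        ((C b : (𝓞 K)[X]).map (σ.comp (algebraMap (𝓞 K) K))) ≤ m) → Real.log μ ≤ C₂ * m) →
    (Ideal.absNorm I : ℝ) ≤ (Ideal.absNorm J * μ) ^ k →
    ∀ (L : Type) [Field L] [NumberField L] [Algebra K L], ∀ X : Finset (L × L),
      (∀ p ∈ X, Pool.Agent.RDF.DegLe K N p ∧ p ≠ 0 ∧ ∃ m n : ℕ, m < n ∧
        wedge ((lift d (F.map (algebraMap (𝓞 K) L))
            ((C b : (𝓞 K)[X]).map (algebraMap (𝓞 K) L)))^[m] p)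
          ((lift d (F.map (algebraMap (𝓞 K) L))
            ((C b : (𝓞 K)[X]).map (algebraMap (𝓞 K) L)))^[n] p) = 0) →
      (∀ p ∈ X, ∀ q ∈ X, p ≠ q → wedge p q ≠ 0) →
      (X.card : ℝ) ≤ M₀ * ((Module.finrank ℚ K + k + s) *
        Real.log (Module.finrank ℚ K + k + s + 1)) := by
  obtain ⟨κ, A, hκ, hloc⟩ := locDef_poly d N l hd hN
  obtain ⟨C₀, hC₀, hmain⟩ := main_TX N d hd κ A hκ
  set c : ℝ := 2 + d * C₂ with hc
  have hdr : (2 : ℝ) ≤ d := by exact_mod_cast hd
  have hc2 : 2 ≤ c := by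
    have : 0 ≤ d * C₂ := by positivity
    linarith
  refine ⟨c ^ 2 * C₀, by positivity, ?_⟩
  intro K _ _ F b hF hb k s μ I M J hIM hs hJ hdef hμ1 hμ hnorm L _ _ _ X hX hw
  classical
  have ha0 : F.leadingCoeff ≠ 0 := by
    intro h0
    rw [leadingCoeff_eq_zero] at h0
    rw [h0, natDegree_zero] at hF
    omega
  have hab : F.leadingCoeff * b ≠ 0 := mul_ne_zero ha0 hb
  have hF' : F.natDegree ≤ d := hF.le
  have hG' : (C b : (𝓞 K)[X]).natDegree ≤ d := by simp
  have hres : resultant F (C b) d d = (F.leadingCoeff * b) ^ d := by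
    rw [resultant_C_right, ← hF, coeff_natDegree, mul_pow]
  have hR : resultant F (C b) d d ≠ 0 := by
    rw [hres]
    exact pow_ne_zero _ hab
  have hspanR : Ideal.span {resultant F (C b) d d} = Ideal.span {F.leadingCoeff * b} ^ d := by
    rw [hres, Ideal.span_singleton_pow]
  have hspan0 : Ideal.span {F.leadingCoeff * b} ≠ (⊥ : Ideal (𝓞 K)) := by
    rw [Ne, Ideal.span_singleton_eq_bot]
    exact hab
  have hspanR0 : Ideal.span {resultant F (C b) d d} ≠ (⊥ : Ideal (𝓞 K)) := by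
    rw [Ne, Ideal.span_singleton_eq_bot]
    exact hR
  have hI0 : I ≠ ⊥ := by
    rintro rfl
    rw [← Ideal.zero_eq_bot, zero_mul] at hIM
    exact hspan0 hIM.symm
  have hM0 : M ≠ ⊥ := by
    rintro rfl
    rw [← Ideal.zero_eq_bot, mul_zero] at hIM
    exact hspan0 hIM.symm
  have hJ0 : J ≠ ⊥ := by
    rintro rfl
    exact hspan0 (zero_dvd_iff.1 (by rwa [← Ideal.zero_eq_bot] at hJ))
  -- the defective part of the resultant
  obtain ⟨A₁, B₁, E, hABE, hE, hB, hA⟩ := PQ.Sqf.split_three (Ideal.span {resultant F (C b) d d})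
    hspanR0 (fun v => PQ.DefA l F b v ∨ PQ.DefB N F b v) (fun _ => True)
  have hEd : E ∣ Ideal.span {resultant F (C b) d d} := ⟨A₁ * B₁, by rw [← hABE]; ring⟩
  have hE0 : E ≠ ⊥ := by
    rintro rfl
    exact hspanR0 (zero_dvd_iff.1 (by rwa [← Ideal.zero_eq_bot] at hEd))
  have hnotE : ∀ v : HeightOneSpectrum (𝓞 K), resultant F (C b) d d ∈ v.asIdeal →
      ¬ v.asIdeal ∣ E → ¬ (PQ.DefA l F b v ∨ PQ.DefB N F b v) := by
    intro v hv hvE
    have h1 : v.asIdeal ∣ A₁ * B₁ * E := by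
      rw [hABE]
      exact Ideal.dvd_span_singleton.2 hv
    rcases v.prime.dvd_or_dvd h1 with h2 | h2
    · rcases v.prime.dvd_or_dvd h2 with h3 | h3
      · exact (hA v h3).2.1
      · exact (hB v h3).2.1
    · exact absurd h2 hvE
  have hJE : J ^ d ∣ E := by
    have h1 : J ^ d ∣ A₁ * B₁ * E := by
      rw [hABE, hspanR]
      exact pow_dvd_pow_of_dvd hJ d
    refine IsCoprime.dvd_of_dvd_mul_left (isCoprime_of _ _ (pow_ne_zero _ hJ0) ?_) h1
    intro v hv hv2
    have h2 := hdef v (v.prime.dvd_of_dvd_pow hv)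
    rcases v.prime.dvd_or_dvd hv2 with h3 | h3
    · exact (hA v h3).2.1 h2
    · exact (hB v h3).2.1 h2
  -- the largest local term
  obtain ⟨m, hm1, hmv, hmσ, hmD, hmm⟩ := exists_max' d F (C b) hF' hG' hR
    (Real.log (Ideal.absNorm E))
  have hlogμ := hμ m hm1 hmv hmσ
  have hfin := lamV_support d F (C b) hF' hG' hR
  have hP : ∀ v, lamV d F (C b) v ≠ 0 → v ∈ hfin.toFinset := fun v hv =>
    (Set.Finite.mem_toFinset hfin).mpr hv
  have hn : (1 : ℝ) ≤ Module.finrank ℚ K := by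
    exact_mod_cast (Module.finrank_pos : 0 < Module.finrank ℚ K)
  have hk0 : (0 : ℝ) ≤ k := Nat.cast_nonneg _
  have hs0 : (0 : ℝ) ≤ s := Nat.cast_nonneg _
  -- the part which does not divide `M`
  obtain ⟨T, hTd, hT, hTn⟩ := exists_part (F.leadingCoeff * b) hab (fun v => ¬ v.asIdeal ∣ M)
  have hT0 : T ≠ ⊥ := by
    rintro rfl
    exact hspan0 (zero_dvd_iff.1 (by rwa [← Ideal.zero_eq_bot] at hTd))
  have hTI : T ∣ I := by
    rw [← hIM] at hTd
    exact IsCoprime.dvd_of_dvd_mul_right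
      (isCoprime_of _ _ hT0 fun v hv => ((hT v).1 hv).2) hTd
  have hsumT : d * Real.log (Ideal.absNorm T) ≤ k * ((c - 1) * m) := by
    have hJpos : (0 : ℝ) < Ideal.absNorm J := by
      exact_mod_cast Nat.pos_of_ne_zero (by rwa [Ne, Ideal.absNorm_eq_zero_iff])
    have h1 : Real.log (Ideal.absNorm T) ≤
        k * (Real.log (Ideal.absNorm J) + Real.log μ) := by
      refine (log_absNorm_mono T I hI0 hTI).trans ?_
      rw [← Real.log_mul hJpos.ne' (by linarith), ← Real.log_pow]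
      have h2 : 0 < Ideal.absNorm I :=
        Nat.pos_of_ne_zero (by rwa [Ne, Ideal.absNorm_eq_zero_iff])
      exact Real.log_le_log (by exact_mod_cast h2) hnorm
    have h2 : d * Real.log (Ideal.absNorm J) ≤ m := by
      refine le_trans (le_of_eq ?_) ((log_absNorm_mono (J ^ d) E hE0 hJE).trans hmD)
      rw [map_pow, Nat.cast_pow, Real.log_pow]
    have h3 : (0 : ℝ) ≤ d := Nat.cast_nonneg _
    calc d * Real.log (Ideal.absNorm T)
        ≤ d * (k * (Real.log (Ideal.absNorm J) + Real.log μ)) :=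
          mul_le_mul_of_nonneg_left h1 h3
      _ = k * (d * Real.log (Ideal.absNorm J) + d * Real.log μ) := by ring
      _ ≤ k * (m + d * (C₂ * m)) := by
          refine mul_le_mul_of_nonneg_left (add_le_add h2 ?_) hk0
          exact mul_le_mul_of_nonneg_left hlogμ h3
      _ = k * ((c - 1) * m) := by rw [hc]; ring
  have hsum : ∑ᶠ (v : HeightOneSpectrum (𝓞 K)) (_ : ¬ v.asIdeal ∣ E), lamV d F (C b) v ≤
      (k * (c - 1) + s) * m := by
    rw [finsum_filter _ hfin.toFinset hP,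
      ← Finset.sum_filter_add_sum_filter_not _ (fun v : HeightOneSpectrum (𝓞 K) => v.asIdeal ∣ M)]
    have hmem : ∀ v ∈ (hfin.toFinset.filter fun v : HeightOneSpectrum (𝓞 K) => ¬ v.asIdeal ∣ E),
        resultant F (C b) d d ∈ v.asIdeal ∧ ¬ PQ.Harmless F b v ∧
          ¬ (PQ.DefA l F b v ∨ PQ.DefB N F b v) := by
      intro v hv
      rw [Finset.mem_filter, Set.Finite.mem_toFinset] at hv
      have h1 : resultant F (C b) d d ∈ v.asIdeal := by
        by_contra h2
        exact hv.1 (lamV_eq_zero d F (C b) hF' hG' v h2)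
      exact ⟨h1, fun h2 => hv.1 (SXH.lamV_harmless d hd F b hF v h2), hnotE v h1 hv.2⟩
    have h1 : ∑ v ∈ (hfin.toFinset.filter fun v : HeightOneSpectrum (𝓞 K) => ¬ v.asIdeal ∣ E).filter
        (fun v : HeightOneSpectrum (𝓞 K) => v.asIdeal ∣ M), lamV d F (C b) v ≤ s * m := by
      refine (Finset.sum_le_card_nsmul _ _ m (fun v _ => hmv v)).trans ?_
      rw [nsmul_eq_mul]
      refine mul_le_mul_of_nonneg_right ?_ (by linarith)
      rw [← Set.ncard_coe_finset]
      refine le_trans ?_ (Nat.cast_le.2 hs)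
      refine Nat.cast_le.2 (Set.ncard_le_ncard ?_ ?_)
      · intro v hv
        rw [Finset.mem_coe, Finset.mem_filter] at hv
        exact ⟨hv.2, (hmem v hv.1).2.1, (hmem v hv.1).2.2⟩
      · exact (Ideal.finite_factors (show M ≠ 0 from hM0)).subset fun v hv => hv.1
    have h2 : ∑ v ∈ (hfin.toFinset.filter fun v : HeightOneSpectrum (𝓞 K) => ¬ v.asIdeal ∣ E).filter
        (fun v : HeightOneSpectrum (𝓞 K) => ¬ v.asIdeal ∣ M), lamV d F (C b) v ≤
        k * ((c - 1) * m) := by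
      refine le_trans ?_ hsumT
      have hfin2 := Ideal.finite_factors (show Ideal.span {F.leadingCoeff * b} ≠ 0 from hspan0)
      rw [hTn, finsum_filter _ hfin2.toFinset, Finset.mul_sum]
      · refine (Finset.sum_le_sum (f := lamV d F (C b)) (g := fun v =>
          (d : ℝ) * -Real.log (av v (algebraMap (𝓞 K) K (F.leadingCoeff * b)))) ?_).trans ?_
        · intro v _
          have h3 := lamV_le d F (C b) hF' hG' v
          rw [hres, map_pow, map_pow, Real.log_pow] at h3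
          linarith
        · refine Finset.sum_le_sum_of_subset_of_nonneg ?_ ?_
          · intro v hv
            rw [Finset.mem_filter] at hv
            rw [Finset.mem_filter, Set.Finite.mem_toFinset]
            refine ⟨?_, hv.2⟩
            have h3 := (hmem v hv.1).1
            rw [hres] at h3
            exact Ideal.dvd_span_singleton.2 (v.isPrime.mem_of_pow_mem d h3)
          · intro v _ _
            have h3 : 0 ≤ -Real.log (av v (algebraMap (𝓞 K) K (F.leadingCoeff * b))) :=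
              wt_nonneg v _
            positivity
      · intro v hv
        rw [Set.Finite.mem_toFinset]
        by_contra h3
        exact hv (wt_eq_zero v _ fun h4 => h3 (Ideal.dvd_span_singleton.2 h4))
    linarith
  have hσ := sum_lamC_le d F (C b) m hmσ
  have h3 := hmain K F (C b) hF' hG' hR E hEd (fun v hv => hloc K F b hb hF v (hE v hv).2)
    m (by linarith) hmm (c * (Module.finrank ℚ K + k + s)) (by
      have h4 : (∑ᶠ (v : HeightOneSpectrum (𝓞 K)) (_ : ¬ v.asIdeal ∣ E), lamV d F (C b) v +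
          ∑ σ : K →+* ℂ, lamC d (F.map (σ.comp (algebraMap (𝓞 K) K)))
            ((C b : (𝓞 K)[X]).map (σ.comp (algebraMap (𝓞 K) K)))) / m ≤
          k * (c - 1) + s + Module.finrank ℚ K := by
        rw [div_le_iff₀ (by linarith)]
        linarith
      have h5 : (2 : ℝ) * Module.finrank ℚ K ≤ c * Module.finrank ℚ K :=
        mul_le_mul_of_nonneg_right hc2 (by linarith)
      have h6 : (1 : ℝ) * s ≤ c * s := mul_le_mul_of_nonneg_right (by linarith) hs0
      linarith) L X hX hw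
  refine h3.trans ?_
  have h4 := log_bound_c c (Module.finrank ℚ K + k + s) (by linarith) (by linarith)
  calc C₀ * (c * (Module.finrank ℚ K + k + s) * Real.log (c * (Module.finrank ℚ K + k + s) + 1))
      ≤ C₀ * (c ^ 2 * ((Module.finrank ℚ K + k + s) *
          Real.log (Module.finrank ℚ K + k + s + 1))) :=
        mul_le_mul_of_nonneg_left h4 hC₀
    _ = c ^ 2 * C₀ * ((Module.finrank ℚ K + k + s) *
          Real.log (Module.finrank ℚ K + k + s + 1)) := by
        ring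

/-- `μ ≤ 2`, or `μ` is at most the absolute value of the multiplier of a fixed point of `f` at a
place. -/
def MultLe2 {K : Type} [Field K] [NumberField K] (f : K[X]) (μ : ℝ) : Prop :=
  μ ≤ 2 ∨
  (∃ v : HeightOneSpectrum (𝓞 K), ∀ (E : Type) [NormedField E] [IsAlgClosed E]
    [IsUltrametricDist E] [Algebra K E], (∀ x : K, ‖algebraMap K E x‖ = av v x) →
    ∃ x : E, (f.map (algebraMap K E)).eval x = x ∧
      μ ≤ ‖(f.map (algebraMap K E)).derivative.eval x‖) ∨
  (∃ (σ : K →+* ℂ) (x : ℂ), (f.map σ).eval x = x ∧ μ ≤ ‖(f.map σ).derivative.eval x‖)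

theorem main_TPolyM2 (N d l : ℕ) (hd : 2 ≤ d) : ∃ M₀ : ℝ, 0 ≤ M₀ ∧
    ∀ (K : Type) [Field K] [NumberField K] (F : (𝓞 K)[X]) (b : 𝓞 K), F.natDegree = d → b ≠ 0 →
    ∀ (k s : ℕ) (μ : ℝ) (I M J : Ideal (𝓞 K)), I * M = Ideal.span {F.leadingCoeff * b} →
    {v : HeightOneSpectrum (𝓞 K) | v.asIdeal ∣ M ∧ ¬ PQ.Harmless F b v ∧
      ¬ (PQ.DefA l F b v ∨ PQ.DefB N F b v)}.ncard ≤ s →
    J ∣ Ideal.span {F.leadingCoeff * b} →
    (∀ v : HeightOneSpectrum (𝓞 K), v.asIdeal ∣ J → PQ.DefA l F b v ∨ PQ.DefB N F b v) →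
    1 ≤ μ → MultLe2 (fp F b) μ →
    (Ideal.absNorm I : ℝ) ≤ (Ideal.absNorm J * μ) ^ k →
    {x : AlgebraicClosure K | (minpoly K x).natDegree ≤ N ∧
      PQ.PreE (AlgebraicClosure K) F b x}.Finite ∧
    (({x : AlgebraicClosure K | (minpoly K x).natDegree ≤ N ∧
      PQ.PreE (AlgebraicClosure K) F b x}.ncard : ℕ) : ℝ) ≤
        M₀ * ((Module.finrank ℚ K + k + s) * Real.log (Module.finrank ℚ K + k + s + 1)) := by
  rcases Nat.eq_zero_or_pos N with rfl | hN
  · refine ⟨0, le_rfl, ?_⟩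
    intro K _ _ F b hF hb k s μ I M J hIM hs hJ hdef hμ1 hμ hnorm
    have h0 : {x : AlgebraicClosure K | (minpoly K x).natDegree ≤ 0 ∧
      PQ.PreE (AlgebraicClosure K) F b x} = ∅ := by
      refine Set.eq_empty_of_forall_notMem fun x hx => ?_
      have h1 := minpoly.natDegree_pos (A := K) (x := x) (Algebra.IsIntegral.isIntegral x)
      have h2 := hx.1
      omega
    rw [h0]
    simp
  · obtain ⟨C₁, hC₁, hmult⟩ := log_mult d hd
    obtain ⟨M₀, hM₀, h⟩ := main_TPolyW N d l hN hd (2 + C₁) (by positivity)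
    refine ⟨M₀, hM₀, ?_⟩
    intro K _ _ F b hF hb k s μ I M J hIM hs hJ hdef hμ1 hμ hnorm
    refine TPoly.points_of d N F hF.le b hb _
      (h K F b hF hb k s μ I M J hIM hs hJ hdef hμ1 ?_ hnorm)
    intro m hm hv hσ
    rcases hμ with hμ | hμ
    · have h1 : Real.log μ ≤ 1 := by
        have h2 := Real.log_le_sub_one_of_pos (show 0 < μ by linarith)
        linarith
      nlinarith
    · exact hmult K F b hF hb μ hμ1 (Or.inr hμ) m hm hv hσ

/-- The norm of a positive integer at a prime. -/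
theorem norm_nat_ge {E : Type} [NormedField E] [IsUltrametricDist E] (q : ℕ) (hq : q.Prime)
    (hq1 : ‖((q : ℕ) : E)‖ = (q : ℝ)⁻¹) (hunit : ∀ n : ℤ, ¬ (q : ℤ) ∣ n → ‖(n : E)‖ = 1)
    (d : ℕ) (hd : 1 ≤ d) : (d : ℝ)⁻¹ ≤ ‖((d : ℕ) : E)‖ := by
  obtain ⟨a, t, ht, hdt⟩ := Nat.exists_eq_pow_mul_and_not_dvd (show d ≠ 0 by omega) q hq.ne_one
  have ht1 : ‖((t : ℕ) : E)‖ = 1 := by
    have := hunit (t : ℤ) (by exact_mod_cast ht)
    rwa [Int.cast_natCast] at this
  have h1 : ‖((d : ℕ) : E)‖ = ((q : ℝ) ^ a)⁻¹ := by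
    rw [hdt, Nat.cast_mul, Nat.cast_pow, norm_mul, norm_pow, hq1, ht1, mul_one, inv_pow]
  rw [h1]
  have h2 : q ^ a ≤ d := by
    rw [hdt]
    refine Nat.le_mul_of_pos_right _ (Nat.pos_of_ne_zero ?_)
    rintro rfl
    exact ht (dvd_zero _)
  have h3 : (0 : ℝ) < (q : ℝ) ^ a := by
    have : (0 : ℝ) < q := by exact_mod_cast hq.pos
    positivity
  exact inv_anti₀ h3 (by exact_mod_cast h2)

/-- The preperiodic points of `x ^ d + c`, `c ∈ ℚ`. -/
theorem unicritical2 (N d : ℕ) (hd : 2 ≤ d) : ∃ M₀ : ℝ, 0 ≤ M₀ ∧ ∀ (c : ℚ) (k : ℕ), 1 ≤ k →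
    ((∃ q e : ℕ, q.Prime ∧ q ^ e ∣ c.den ∧ c.den ≤ (q ^ e) ^ k) ∨
      (c.den : ℝ) ≤ |(c : ℝ)| ^ k) →
    {x : AlgebraicClosure ℚ | (minpoly ℚ x).natDegree ≤ N ∧
      Pre (fun z => z ^ d + algebraMap ℚ (AlgebraicClosure ℚ) c) x}.Finite ∧
    (({x : AlgebraicClosure ℚ | (minpoly ℚ x).natDegree ≤ N ∧
      Pre (fun z => z ^ d + algebraMap ℚ (AlgebraicClosure ℚ) c) x}.ncard : ℕ) : ℝ) ≤
        M₀ * (k * Real.log (k + 1)) := by
  obtain ⟨M₀, hM₀, hmain⟩ := main_TPolyM2 N d 0 hd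
  refine ⟨(8 * d + 1) ^ 2 * M₀, by positivity, ?_⟩
  intro c k hk hyp
  have hd0 : d ≠ 0 := by omega
  set F : (𝓞 ℚ)[X] := C ((c.den : ℕ) : 𝓞 ℚ) * X ^ d + C ((c.num : ℤ) : 𝓞 ℚ) with hF
  have hdenO : ((c.den : ℕ) : 𝓞 ℚ) ≠ 0 := by exact_mod_cast c.den_nz
  have hlow : (C ((c.num : ℤ) : 𝓞 ℚ)).natDegree < (C ((c.den : ℕ) : 𝓞 ℚ) * X ^ d).natDegree := by
    rw [natDegree_C, natDegree_C_mul_X_pow d _ hdenO]
    omega
  have hFd : F.natDegree = d := by
    rw [hF, natDegree_add_eq_left_of_natDegree_lt hlow, natDegree_C_mul_X_pow d _ hdenO]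
  have hFl : F.leadingCoeff = ((c.den : ℕ) : 𝓞 ℚ) := by
    rw [leadingCoeff, hFd, hF, coeff_add, coeff_C_mul_X_pow, if_pos rfl, coeff_C, if_neg hd0,
      add_zero]
  have hset : {x : AlgebraicClosure ℚ | (minpoly ℚ x).natDegree ≤ N ∧
      Pre (fun z => z ^ d + algebraMap ℚ (AlgebraicClosure ℚ) c) x} =
      {x : AlgebraicClosure ℚ | (minpoly ℚ x).natDegree ≤ N ∧
      PQ.PreE (AlgebraicClosure ℚ) F ((c.den : ℕ) : 𝓞 ℚ) x} := by
    have h1 : (fun z => (PQ.fE (AlgebraicClosure ℚ) F ((c.den : ℕ) : 𝓞 ℚ)).eval z) =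
        fun z => z ^ d + algebraMap ℚ (AlgebraicClosure ℚ) c := by
      funext z
      rw [PQ.fE, hF, fp_uni]
      simp
    ext x
    exact and_congr_right fun _ => by rw [PQ.PreE, h1]
  rw [hset]
  obtain ⟨μ, hμ1, hμ, hnorm⟩ : ∃ μ : ℝ, 1 ≤ μ ∧ MultLe2 (fp F ((c.den : ℕ) : 𝓞 ℚ)) μ ∧
      (c.den : ℝ) ^ 2 ≤ μ ^ (8 * d * k) := by
    have hdn : 1 ≤ d := by omega
    have hdr : (1 : ℝ) ≤ d := by exact_mod_cast hdn
    rw [hF, fp_uni]
    rcases hyp with ⟨q, e, hq, hqe, hle⟩ | hle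
    · have hy1 : (1 : ℝ) ≤ (q : ℝ) ^ e := one_le_pow₀ (by exact_mod_cast hq.one_le)
      by_cases hbig : (d : ℝ) ^ 4 ≤ (q : ℝ) ^ e
      swap
      · push Not at hbig
        refine ⟨2, by norm_num, Or.inl le_rfl, ?_⟩
        have h1 : (c.den : ℝ) ≤ ((q : ℝ) ^ e) ^ k := by exact_mod_cast hle
        have h2 : (d : ℝ) ≤ 2 ^ d := by exact_mod_cast (Nat.lt_two_pow_self (n := d)).le
        have h3 : ((q : ℝ) ^ e) ^ k ≤ ((2 : ℝ) ^ (4 * d)) ^ k := by
          refine pow_le_pow_left₀ (by positivity) (hbig.le.trans ?_) k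
          rw [mul_comm 4 d, pow_mul]
          exact pow_le_pow_left₀ (by positivity) h2 4
        calc (c.den : ℝ) ^ 2 ≤ (((2 : ℝ) ^ (4 * d)) ^ k) ^ 2 :=
              pow_le_pow_left₀ (Nat.cast_nonneg _) (h1.trans h3) 2
          _ = 2 ^ (8 * d * k) := by
              rw [← pow_mul, ← pow_mul]
              congr 1
              ring
      refine ⟨Real.sqrt (Real.sqrt ((q : ℝ) ^ e)), ?_, ?_, ?_⟩
      · rw [Real.one_le_sqrt, Real.one_le_sqrt]
        exact hy1
      · rcases Nat.eq_zero_or_pos e with he | he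
        · left
          rw [he, pow_zero, Real.sqrt_one, Real.sqrt_one]
          norm_num
        right
        left
        obtain ⟨v, hv⟩ := AVR.Glue.exists_v q hq
        refine ⟨v, ?_⟩
        intro E _ _ _ _ hE
        have hq1 : ‖((q : ℕ) : E)‖ = (q : ℝ)⁻¹ := by
          have h2 := hE (q : ℚ)
          rw [map_natCast, hv] at h2
          exact h2
        have hle1 : ∀ n : ℕ, ‖(n : E)‖ ≤ 1 := fun n => IsUltrametricDist.norm_natCast_le_one E n
        have hlei : ∀ n : ℤ, ‖(n : E)‖ ≤ 1 := fun n => IsUltrametricDist.norm_intCast_le_one E n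
        have hq0 : (0 : ℝ) < q := by exact_mod_cast hq.pos
        -- integers prime to `q` are units
        have hunit : ∀ n : ℤ, ¬ (q : ℤ) ∣ n → ‖(n : E)‖ = 1 := by
          intro n hn
          have hcop : IsCoprime (q : ℤ) n :=
            (Nat.prime_iff_prime_int.1 hq).coprime_iff_not_dvd.2 hn
          obtain ⟨u, w, huw⟩ := hcop
          refine le_antisymm (hlei n) ?_
          by_contra hlt
          push Not at hlt
          have h2 : ((u : E) * (q : E)) + (w : E) * (n : E) = 1 := by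
            exact_mod_cast congrArg (fun z : ℤ => (z : E)) huw
          have h3 : ‖(u : E) * (q : E)‖ < 1 := by
            rw [norm_mul, hq1]
            have h4 : (q : ℝ)⁻¹ < 1 := inv_lt_one_of_one_lt₀ (by exact_mod_cast hq.one_lt)
            have h5 := hlei u
            have h6 : 0 < (q : ℝ)⁻¹ := inv_pos.2 hq0
            nlinarith [norm_nonneg (u : E)]
          have h4 : ‖(w : E) * (n : E)‖ < 1 := by
            rw [norm_mul]
            have h5 := hlei w
            nlinarith [norm_nonneg (w : E), norm_nonneg (n : E)]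
          have h5 := IsUltrametricDist.norm_add_le_max ((u : E) * (q : E)) ((w : E) * (n : E))
          rw [h2, norm_one] at h5
          exact absurd h5 (not_le.2 (max_lt h3 h4))
        have hnum : ‖((c.num : ℤ) : E)‖ = 1 := by
          refine hunit _ fun h2 => ?_
          have h3 : q ∣ c.num.natAbs := Int.natCast_dvd.1 h2
          have h4 : q ∣ c.den := (dvd_pow_self q (by omega)).trans hqe
          have h5 := Nat.dvd_gcd h3 h4
          rw [c.reduced] at h5
          exact hq.one_lt.ne' (Nat.dvd_one.1 h5)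
        have hdn1 : (d : ℝ)⁻¹ ≤ ‖((d : ℕ) : E)‖ := norm_nat_ge q hq hq1 hunit d hdn
        have hden : ‖((c.den : ℕ) : E)‖ ≤ ((q : ℝ) ^ e)⁻¹ := by
          obtain ⟨t, ht⟩ := hqe
          rw [ht, Nat.cast_mul, norm_mul, Nat.cast_pow, norm_pow, hq1, inv_pow]
          exact mul_le_of_le_one_right (by positivity) (hle1 t)
        have hden0 : 0 < ‖((c.den : ℕ) : E)‖ := by
          have h2 := hE (c.den : ℚ)
          rw [map_natCast] at h2
          rw [h2]
          exact (av v).pos (by exact_mod_cast c.den_nz)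
        have hc : (q : ℝ) ^ e ≤ ‖algebraMap ℚ E c‖ := by
          have h2 : algebraMap ℚ E c * ((c.den : ℕ) : E) = ((c.num : ℤ) : E) := by
            rw [← map_natCast (algebraMap ℚ E), ← map_intCast (algebraMap ℚ E), ← map_mul]
            congr 1
            exact Rat.mul_den_eq_num c
          have h3 := congrArg norm h2
          rw [norm_mul, hnum] at h3
          have h4 : (0 : ℝ) < (q : ℝ) ^ e := by positivity
          have h5 : ‖algebraMap ℚ E c‖ * ((q : ℝ) ^ e)⁻¹ ≥ 1 := by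
            rw [← h3]
            exact mul_le_mul_of_nonneg_left hden (norm_nonneg _)
          rwa [ge_iff_le, ← div_eq_mul_inv, le_div_iff₀ h4, one_mul] at h5
        obtain ⟨x, hx, hxc⟩ := exists_fix d hd (algebraMap ℚ E c)
        refine ⟨x, by simpa using hx, ?_⟩
        have h2 := mult_ge d hd ‖x‖ ((q : ℝ) ^ e) 1 (norm_nonneg _)
          (one_le_pow₀ (by exact_mod_cast hq.one_le)) (hc.trans hxc) le_rfl
        have h3 : ‖(((X ^ d + C c : ℚ[X]).map (algebraMap ℚ E)).derivative).eval x‖ =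
            ‖((d : ℕ) : E)‖ * ‖x‖ ^ (d - 1) := by
          rw [Polynomial.map_add, Polynomial.map_pow, map_X, map_C, derivative_add, derivative_X_pow,
            derivative_C, add_zero, eval_mul, eval_pow, eval_X, eval_C, norm_mul, norm_pow]
        rw [h3]
        set z := Real.sqrt ((q : ℝ) ^ e) with hz
        set u := Real.sqrt z with hu
        have hz0 : 0 ≤ z := Real.sqrt_nonneg _
        have hu0 : 0 ≤ u := Real.sqrt_nonneg _
        have hd0' : (0 : ℝ) < d := by linarith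
        have hzd : (d : ℝ) ^ 2 ≤ z := by
          rw [hz]
          refine Real.le_sqrt_of_sq_le ?_
          rw [← pow_mul]
          exact hbig
        have hud : (d : ℝ) ≤ u := by
          rw [hu]
          exact Real.le_sqrt_of_sq_le hzd
        have huz : u * u = z := Real.mul_self_sqrt hz0
        rw [one_mul] at h2
        calc u = (u * d) * (d : ℝ)⁻¹ := by field_simp
          _ ≤ (u * u) * (d : ℝ)⁻¹ := by
              refine mul_le_mul_of_nonneg_right ?_ (by positivity)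
              exact mul_le_mul_of_nonneg_left hud hu0
          _ = (d : ℝ)⁻¹ * z := by rw [huz]; ring
          _ ≤ ‖((d : ℕ) : E)‖ * ‖x‖ ^ (d - 1) :=
              mul_le_mul hdn1 h2 hz0 (norm_nonneg _)
      · have h1 : (c.den : ℝ) ≤ ((q : ℝ) ^ e) ^ k := by exact_mod_cast hle
        have h2 : Real.sqrt (Real.sqrt ((q : ℝ) ^ e)) ^ 4 = (q : ℝ) ^ e := by
          rw [show 4 = 2 * 2 by norm_num, pow_mul, Real.sq_sqrt (Real.sqrt_nonneg _),
            Real.sq_sqrt (by positivity)]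
        have h3 : 1 ≤ Real.sqrt (Real.sqrt ((q : ℝ) ^ e)) := by
          rw [Real.one_le_sqrt, Real.one_le_sqrt]
          exact hy1
        calc (c.den : ℝ) ^ 2 ≤ (((q : ℝ) ^ e) ^ k) ^ 2 :=
              pow_le_pow_left₀ (Nat.cast_nonneg _) h1 2
          _ = Real.sqrt (Real.sqrt ((q : ℝ) ^ e)) ^ (4 * k * 2) := by
              conv_lhs => rw [← h2]
              rw [← pow_mul, ← pow_mul, mul_assoc]
          _ ≤ Real.sqrt (Real.sqrt ((q : ℝ) ^ e)) ^ (8 * d * k) := by
              refine pow_le_pow_right₀ h3 ?_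
              calc 4 * k * 2 = 8 * 1 * k := by ring
                _ ≤ 8 * d * k := Nat.mul_le_mul_right _ (Nat.mul_le_mul_left _ hdn)
    · have hc1 : 1 ≤ |(c : ℝ)| := by
        by_contra h
        push Not at h
        have h2 : |(c : ℝ)| ^ k < 1 := pow_lt_one₀ (abs_nonneg _) h (by omega)
        have h3 : (1 : ℝ) ≤ c.den := by exact_mod_cast c.den_pos
        linarith
      refine ⟨Real.sqrt |(c : ℝ)|, by rwa [Real.one_le_sqrt], ?_, ?_⟩
      · right
        right
        obtain ⟨x, hx, hxc⟩ := exists_fix d hd ((c : ℚ) : ℂ)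
        refine ⟨algebraMap ℚ ℂ, x, by simpa using hx, ?_⟩
        have hcn : ‖((c : ℚ) : ℂ)‖ = |(c : ℝ)| := by
          rw [← Complex.ofReal_ratCast, Complex.norm_real, Real.norm_eq_abs]
        rw [hcn] at hxc
        have h2 := mult_ge d hd ‖x‖ |(c : ℝ)| d (norm_nonneg _) hc1 hxc hdr
        have h3 : ‖(((X ^ d + C c : ℚ[X]).map (algebraMap ℚ ℂ)).derivative).eval x‖ =
            d * ‖x‖ ^ (d - 1) := by
          rw [Polynomial.map_add, Polynomial.map_pow, map_X, map_C, derivative_add, derivative_X_pow,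
            derivative_C, add_zero, eval_mul, eval_pow, eval_X, eval_C, norm_mul, norm_pow,
            Complex.norm_natCast]
        rw [h3]
        exact h2
      · have h3 : 1 ≤ Real.sqrt |(c : ℝ)| := by rwa [Real.one_le_sqrt]
        calc (c.den : ℝ) ^ 2 ≤ (|(c : ℝ)| ^ k) ^ 2 := pow_le_pow_left₀ (Nat.cast_nonneg _) hle 2
          _ = Real.sqrt |(c : ℝ)| ^ (4 * k) := by
              rw [show 4 * k = 2 * (2 * k) by ring, pow_mul, Real.sq_sqrt (by positivity),
                show 2 * k = k * 2 by ring, pow_mul]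
          _ ≤ Real.sqrt |(c : ℝ)| ^ (8 * d * k) := by
              refine pow_le_pow_right₀ h3 ?_
              calc 4 * k ≤ 8 * 1 * k := by omega
                _ ≤ 8 * d * k := Nat.mul_le_mul_right _ (Nat.mul_le_mul_left _ hdn)
  have h1 := hmain ℚ F ((c.den : ℕ) : 𝓞 ℚ) hFd hdenO (8 * d * k) 0 μ
    (Ideal.span {F.leadingCoeff * ((c.den : ℕ) : 𝓞 ℚ)}) ⊤ ⊤ (by rw [Ideal.mul_top]) ?_ ?_ ?_
    hμ1 hμ ?_
  · refine ⟨h1.1, h1.2.trans ?_⟩
    have hk1 : (1 : ℝ) ≤ k := by exact_mod_cast hk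
    rw [Module.finrank_self]
    push_cast
    have hd8 : (0 : ℝ) ≤ 8 * d := by positivity
    have h2 := mono_log (x := 1 + 8 * (d : ℝ) * k + 0) (y := (8 * d + 1) * k) (by positivity)
      (by linarith)
    have h3 := log_bound_c (8 * d + 1) k (by linarith) (by linarith)
    calc M₀ * ((1 + 8 * (d : ℝ) * k + 0) * Real.log (1 + 8 * (d : ℝ) * k + 0 + 1))
        ≤ M₀ * ((8 * d + 1) ^ 2 * (k * Real.log (k + 1))) :=
          mul_le_mul_of_nonneg_left (h2.trans h3) hM₀
      _ = (8 * d + 1) ^ 2 * M₀ * (k * Real.log (k + 1)) := by ring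
  · rw [Nat.le_zero, Set.ncard_eq_zero (by
      refine Set.Finite.subset Set.finite_empty fun v hv => ?_
      exact absurd (Ideal.dvd_iff_le.1 hv.1) (by
        rw [top_le_iff]
        exact v.isPrime.ne_top))]
    refine Set.eq_empty_of_forall_notMem fun v hv => ?_
    exact absurd (Ideal.dvd_iff_le.1 hv.1) (by
        rw [top_le_iff]
        exact v.isPrime.ne_top)
  · rw [← Ideal.one_eq_top]
    exact one_dvd _
  · intro v hv
    exact absurd (Ideal.dvd_iff_le.1 hv) (by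
        rw [top_le_iff]
        exact v.isPrime.ne_top)
  · rw [Ideal.absNorm_top, Nat.cast_one, one_mul, hFl, ← Nat.cast_mul, PQ.absNorm_natCast]
    push_cast
    rw [← sq]
    exact hnorm

end Pool.Agent.RI
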