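import Mathlib
import Pool.Agent.RI.TPolyV

set_option autoImplicit false

/-!
# The coefficients of a centered polynomial and the resultant of a conjugate
-/

namespace Pool.Agent.RI

open Polynomial NumberField IsDedekindDomain Pool.Agent.GPoly
open Pool.Agent.RDF (lift wedge nrm)

namespace TPolyH

/-- The distance of two fixed points of `F / b`. -/
theorem dist_fix (d : ℕ) (hd : 2 ≤ d) : ∃ C₁ : ℝ, 0 ≤ C₁ ∧ ∀ {E : Type} [NormedField E]
    [IsAlgClosed E] (F : E[X]) (b : E), F.natDegree = d → b ≠ 0 → ∀ r ∈ resSet d F (C b),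
    ∀ x y : E, F.eval x = x * b → F.eval y = y * b →
    ‖F.leadingCoeff‖ / ‖b‖ * ‖x - y‖ ^ (d - 1) ≤ Real.exp (2 * max r 0 + C₁) := by
  obtain ⟨c, hc1, hc⟩ := RDF.nrm_lift_ge_arch d (by omega)
  have hdr : (2 : ℝ) ≤ d := by exact_mod_cast hd
  have hlc : 0 ≤ Real.log c := Real.log_nonneg hc1
  have hl2 : 0 ≤ Real.log 2 := Real.log_nonneg (by norm_num)
  refine ⟨(d - 1) * Real.log 2 + 2 * Real.log c, by
    have : 0 ≤ ((d : ℝ) - 1) * Real.log 2 := mul_nonneg (by linarith) hl2
    linarith, ?_⟩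
  intro E _ _ F b hF hb r hr x y hx hy
  rcases eq_or_ne x y with rfl | hxy
  · rw [sub_self, norm_zero, zero_pow (by omega), mul_zero]
    exact (Real.exp_pos _).le
  have ha0 : F.leadingCoeff ≠ 0 := by
    intro h0
    rw [leadingCoeff_eq_zero] at h0
    rw [h0, natDegree_zero] at hF
    omega
  have hres : resultant F (C b) d d = (F.leadingCoeff * b) ^ d := by
    rw [resultant_C_right, ← hF, coeff_natDegree, mul_pow]
  have hR : resultant F (C b) d d ≠ 0 := by
    rw [hres]
    exact pow_ne_zero _ (mul_ne_zero ha0 hb)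
  obtain ⟨F', G', A, hA, hF', hG', h1, h2, hconj, rfl⟩ := hr
  have hab : ∀ z : E, NormedField.toAbsoluteValue E z = ‖z‖ := fun z => rfl
  obtain ⟨hR', hlog⟩ := SGenE.log_res (E := E) d (by omega) F (C b) hF.le (by simp) hR A hA F' G'
    hF' hG' hconj
  have hRp : 0 < ‖resultant F' G' d d‖ := norm_pos_iff.2 hR'
  have hap : 0 < ‖F.leadingCoeff‖ := norm_pos_iff.2 ha0
  have hbp : 0 < ‖b‖ := norm_pos_iff.2 hb
  have hDp : 0 < ‖A.det‖ := norm_pos_iff.2 hA
  have hxyp : 0 < ‖x - y‖ := norm_pos_iff.2 (sub_ne_zero.2 hxy)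
  -- the norms of the lifts
  have key : ∀ z : E, F.eval z = z * b →
      0 < nrm (NormedField.toAbsoluteValue E) (act A (z, 1)) ∧
      Real.log ‖resultant F' G' d d‖ + (d - 1) *
        Real.log (nrm (NormedField.toAbsoluteValue E) (act A (z, 1))) ≤
        Real.log c + Real.log ‖b‖ := by
    intro z hz
    have hp0 : ((z, 1) : E × E) ≠ 0 := fun h => one_ne_zero (congrArg Prod.snd h)
    have hAp0 : act A (z, 1) ≠ 0 := act_ne_zero A hA hp0
    have hpos := RDF.nrm_pos (NormedField.toAbsoluteValue E) hAp0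
    refine ⟨hpos, ?_⟩
    set n0 := nrm (NormedField.toAbsoluteValue E) (act A (z, 1)) with hn0
    have h3 := hc (NormedField.toAbsoluteValue E) F' G' hF' hG' 1 h1 h2 (act A (z, 1))
    have h4 : lift d F (C b) (z, 1) = b • ((z, 1) : E × E) := by
      have h5 : lift d F (C b) (z, 1) = (F.eval z, (C b : E[X]).eval z) := by
        unfold lift
        rw [RDF.form_one d F hF.le z, RDF.form_one d (C b) (by simp) z]
      rw [h5, hz, eval_C]
      ext
      · simp [mul_comm]
      · simp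
    rw [hconj, h4, act_smul, RDF.nrm_smul, one_pow, mul_one, hab, hab, ← hn0] at h3
    have h5 : n0 ^ d = n0 ^ (d - 1) * n0 := by
      rw [← pow_succ]
      congr 1
      omega
    rw [h5] at h3
    have h6 : ‖resultant F' G' d d‖ * n0 ^ (d - 1) ≤ c * ‖b‖ := by
      refine le_of_mul_le_mul_right ?_ hpos
      linarith
    have h7 := Real.log_le_log (mul_pos hRp (pow_pos hpos _)) h6
    rw [Real.log_mul hRp.ne' (pow_pos hpos _).ne', Real.log_pow, Real.log_mul (by linarith) hbp.ne',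
      Nat.cast_sub (by omega), Nat.cast_one] at h7
    exact h7
  obtain ⟨hnx, hx2⟩ := key x hx
  obtain ⟨hny, hy2⟩ := key y hy
  set nx := nrm (NormedField.toAbsoluteValue E) (act A (x, 1)) with hnx'
  set ny := nrm (NormedField.toAbsoluteValue E) (act A (y, 1)) with hny'
  have hw : ‖A.det‖ * ‖x - y‖ ≤ 2 * (nx * ny) := by
    have h3 : A.det * (x - y) = wedge (act A (x, 1)) (act A (y, 1)) := by
      rw [wedge_act]
      congr 1
      simp [wedge]
    rw [← norm_mul, h3, wedge]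
    refine (norm_sub_le _ _).trans ?_
    rw [norm_mul, norm_mul]
    have e1 : ‖(act A (x, 1)).1‖ ≤ nx := le_max_left _ _
    have e2 : ‖(act A (x, 1)).2‖ ≤ nx := le_max_right _ _
    have e3 : ‖(act A (y, 1)).1‖ ≤ ny := le_max_left _ _
    have e4 : ‖(act A (y, 1)).2‖ ≤ ny := le_max_right _ _
    have h4 := mul_le_mul e1 e4 (norm_nonneg _) hnx.le
    have h5 := mul_le_mul e3 e2 (norm_nonneg _) hny.le
    linarith
  have hw2 := Real.log_le_log (mul_pos hDp hxyp) hw
  rw [Real.log_mul hDp.ne' hxyp.ne', Real.log_mul (by norm_num) (mul_pos hnx hny).ne',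
    Real.log_mul hnx.ne' hny.ne'] at hw2
  rw [hres, norm_pow, norm_mul, Real.log_pow, Real.log_mul hap.ne' hbp.ne'] at hlog
  have hgoal : Real.log (‖F.leadingCoeff‖ / ‖b‖ * ‖x - y‖ ^ (d - 1)) ≤
      2 * max (-Real.log ‖resultant F' G' d d‖) 0 + ((d - 1) * Real.log 2 + 2 * Real.log c) := by
    rw [Real.log_mul (div_pos hap hbp).ne' (pow_pos hxyp _).ne', Real.log_div hap.ne' hbp.ne',
      Real.log_pow, Nat.cast_sub (by omega), Nat.cast_one]
    set ρ := -Real.log ‖resultant F' G' d d‖ with hρ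
    have hρ' : Real.log ‖resultant F' G' d d‖ = -ρ := by rw [hρ]; ring
    rw [hρ'] at hlog hx2 hy2
    have h3 : (0 : ℝ) < d := by linarith
    -- `(d - 1) log |det A|`
    have h4 : (d - 1) * Real.log ‖A.det‖ =
        Real.log ‖F.leadingCoeff‖ + Real.log ‖b‖ + ρ / d := by
      field_simp
      linarith
    have h5 := mul_le_mul_of_nonneg_left hw2 (by linarith : (0 : ℝ) ≤ d - 1)
    have h6 : (2 - 1 / d) * ρ ≤ 2 * max ρ 0 := by
      have h7 : 1 / (d : ℝ) ≤ 1 := by
        rw [div_le_one h3]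
        linarith
      have h8 : 0 ≤ 1 / (d : ℝ) := by positivity
      have h9 : (2 - 1 / d) * ρ ≤ (2 - 1 / d) * max ρ 0 :=
        mul_le_mul_of_nonneg_left (le_max_left _ _) (by linarith)
      have h10 : 0 ≤ max ρ 0 := le_max_right _ _
      nlinarith
    have h7 : (2 - 1 / (d : ℝ)) * ρ = 2 * ρ - ρ / d := by ring
    rw [h7] at h6
    nlinarith
  have hpos : 0 < ‖F.leadingCoeff‖ / ‖b‖ * ‖x - y‖ ^ (d - 1) := by positivity
  rw [← Real.log_le_iff_le_exp hpos]
  exact hgoal

end TPolyH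

end Pool.Agent.RI
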