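import Mathlib
import Pool.Agent.RI.TPolyHA

set_option autoImplicit false

/-!
# The coefficients of a centered polynomial and the resultant of a conjugate, II
-/

namespace Pool.Agent.RI

open Polynomial NumberField IsDedekindDomain Pool.Agent.GPoly
open Pool.Agent.RDF (lift wedge nrm)

namespace TPolyH

theorem sum_sub_aux {E : Type} [NormedField E] (S : Multiset E) (z0 : E) (T : ℝ)
    (h : ∀ z ∈ S, ‖z0 - z‖ ≤ T) : ‖(S.card : E) * z0 - S.sum‖ ≤ S.card * T := by
  induction S using Multiset.induction_on with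
  | empty => simp
  | cons a S ih =>
    have h1 := ih fun z hz => h z (Multiset.mem_cons_of_mem hz)
    have h2 := h a (Multiset.mem_cons_self a S)
    rw [Multiset.card_cons, Multiset.sum_cons]
    push_cast
    have e : ((S.card : E) + 1) * z0 - (a + S.sum) = ((S.card : E) * z0 - S.sum) + (z0 - a) := by
      ring
    rw [e]
    refine (norm_add_le _ _).trans ?_
    linarith

/-- The coefficients of a centered polynomial. -/
theorem coef_fix (d : ℕ) (hd : 2 ≤ d) : ∃ C₂ : ℝ, 0 ≤ C₂ ∧ ∀ {E : Type} [NormedField E]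
    [IsAlgClosed E] (F : E[X]) (b : E), F.natDegree = d → b ≠ 0 → F.coeff (d - 1) = 0 →
    ∀ r ∈ resSet d F (C b), ∀ j ≤ d,
    (‖F.coeff j‖ / ‖b‖) ^ (d - 1) * (‖F.leadingCoeff‖ / ‖b‖) / (‖F.leadingCoeff‖ / ‖b‖) ^ j *
      ‖(d : E)‖ ^ (d * (d - 1)) ≤ Real.exp ((2 * d * (d - 1)) * max r 0 + C₂) := by
  obtain ⟨C₁, hC₁, h₁⟩ := dist_fix d hd
  have hdr : (2 : ℝ) ≤ d := by exact_mod_cast hd
  have hbase : (1 : ℝ) ≤ 2 ^ (d + 1) * (2 * d + 1) ^ d := by
    have h1 : (1 : ℝ) ≤ 2 ^ (d + 1) := one_le_pow₀ (by norm_num)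
    have h2 : (1 : ℝ) ≤ (2 * d + 1) ^ d := one_le_pow₀ (by linarith)
    nlinarith
  refine ⟨(d - 1) * Real.log (2 ^ (d + 1) * (2 * d + 1) ^ d) + d * (d - 1) * C₁, by
    have h1 := Real.log_nonneg hbase
    have h2 : (0 : ℝ) ≤ d - 1 := by linarith
    positivity, ?_⟩
  intro E _ _ F b hF hb hcen r hr j hj
  classical
  have ha0 : F.leadingCoeff ≠ 0 := by
    intro h0
    rw [leadingCoeff_eq_zero] at h0
    rw [h0, natDegree_zero] at hF
    omega
  have hap : 0 < ‖F.leadingCoeff‖ := norm_pos_iff.2 ha0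
  have hbp : 0 < ‖b‖ := norm_pos_iff.2 hb
  set α : ℝ := ‖F.leadingCoeff‖ / ‖b‖ with hα
  have hαp : 0 < α := div_pos hap hbp
  set T : ℝ := Real.exp (2 * max r 0 + C₁) with hT
  have hT1 : 1 ≤ T := by
    rw [hT]
    refine Real.one_le_exp ?_
    have := le_max_right r 0
    linarith
  -- the root of `α`
  obtain ⟨s, hs0, hs⟩ : ∃ s : ℝ, 0 < s ∧ s ^ (d - 1) = α := by
    refine ⟨α ^ (((d - 1 : ℕ) : ℝ)⁻¹), Real.rpow_pos_of_pos hαp _, ?_⟩
    exact Real.rpow_inv_natCast_pow hαp.le (by omega)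
  -- the monic polynomial of the fixed points
  set P : E[X] := C F.leadingCoeff⁻¹ * (F - C b * X) with hP
  have hlow : (C b * X : E[X]).natDegree < F.natDegree := by
    refine lt_of_le_of_lt (natDegree_C_mul_le _ _) ?_
    rw [natDegree_X, hF]
    omega
  have hnd : (F - C b * X).natDegree = d := by
    rw [natDegree_sub_eq_left_of_natDegree_lt hlow, hF]
  have hlc : (F - C b * X).leadingCoeff = F.leadingCoeff := by
    rw [leadingCoeff, hnd, coeff_sub, leadingCoeff, hF]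
    have : (C b * X : E[X]).coeff d = 0 := coeff_eq_zero_of_natDegree_lt (by rw [← hF]; exact hlow)
    rw [this, sub_zero]
  have hPm : P.Monic := by
    rw [Monic, hP, leadingCoeff_mul, leadingCoeff_C, hlc, inv_mul_cancel₀ ha0]
  have hPd : P.natDegree = d := by
    rw [hP, natDegree_C_mul (inv_ne_zero ha0), hnd]
  have hPc : ∀ i, P.coeff i = F.leadingCoeff⁻¹ * (F.coeff i - b * (X : E[X]).coeff i) := by
    intro i
    rw [hP, coeff_C_mul, coeff_sub, coeff_C_mul]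
  have hspl := IsAlgClosed.splits P
  have hcard : P.roots.card = d := by
    rw [← hPd]
    exact (splits_iff_card_roots.1 hspl)
  have hroot : ∀ z ∈ P.roots, F.eval z = z * b := by
    intro z hz
    have h3 := (mem_roots'.1 hz).2
    rw [IsRoot.def, hP, eval_mul, eval_C, eval_sub, eval_mul, eval_C, eval_X, mul_eq_zero] at h3
    rcases h3 with h3 | h3
    · exact absurd h3 (inv_ne_zero ha0)
    · rw [sub_eq_zero] at h3
      rw [h3, mul_comm]
  obtain ⟨z0, hz0, hmax⟩ := Finset.exists_max_image P.roots.toFinset (fun z => ‖z‖) (by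
    rw [Multiset.toFinset_nonempty]
    intro h
    rw [h, Multiset.card_zero] at hcard
    omega)
  rw [Multiset.mem_toFinset] at hz0
  have hmax' : ∀ z ∈ P.roots, ‖z‖ ≤ ‖z0‖ := fun z hz => hmax z (Multiset.mem_toFinset.2 hz)
  have hdist : ∀ z ∈ P.roots, ‖z0 - z‖ ≤ T / s := by
    intro z hz
    have h2 := h₁ F b hF hb r hr z0 z (hroot z0 hz0) (hroot z hz)
    rw [← hα, ← hs, ← mul_pow] at h2
    have h3 : (s * ‖z0 - z‖) ^ (d - 1) ≤ T ^ (d - 1) :=
      h2.trans (le_self_pow₀ hT1 (by omega))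
    have h4 := le_of_pow_le_pow_left₀ (by omega) (by positivity) h3
    rw [le_div_iff₀ hs0, mul_comm]
    exact h4
  have hsum : ‖P.roots.sum‖ ≤ 1 / s := by
    have h2 := hspl.nextCoeff_eq_neg_sum_roots_of_monic hPm
    rw [nextCoeff_of_natDegree_pos (by omega), hPd] at h2
    have h3 : P.roots.sum = -P.coeff (d - 1) := by rw [h2, neg_neg]
    rw [h3, norm_neg, hPc, hcen, zero_sub, norm_mul, norm_neg, norm_mul, norm_inv]
    rcases Nat.lt_or_ge 2 d with h4 | h4
    · rw [coeff_X, if_neg (by omega), norm_zero, mul_zero, mul_zero]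
      positivity
    · have h5 : d = 2 := by omega
      have h6 : s = α := by
        rw [← hs, h5]
        norm_num
      rw [coeff_X, if_pos (by omega), norm_one, mul_one, h6, hα, one_div, inv_div, div_eq_inv_mul]
  have hB : ‖(d : E)‖ * (s * ‖z0‖) ≤ d * T + 1 := by
    have h2 := sum_sub_aux P.roots z0 (T / s) hdist
    rw [hcard] at h2
    have h3 : ‖(d : E) * z0‖ ≤ d * (T / s) + 1 / s := by
      have e : (d : E) * z0 = ((d : E) * z0 - P.roots.sum) + P.roots.sum := by ring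
      rw [e]
      refine (norm_add_le _ _).trans (add_le_add h2 hsum)
    rw [norm_mul] at h3
    have h4 := mul_le_mul_of_nonneg_left h3 hs0.le
    have h5 : s * (d * (T / s) + 1 / s) = d * T + 1 := by field_simp
    rw [h5] at h4
    linarith
  have hdn : ‖(d : E)‖ ≤ d := by
    have := Nat.norm_cast_le (α := E) d
    rwa [norm_one, mul_one] at this
  set Q : ℝ := 1 + s * ‖z0‖ with hQ
  have hsz : 0 ≤ s * ‖z0‖ := mul_nonneg hs0.le (norm_nonneg _)
  have hQ1 : 1 ≤ Q := by linarith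
  have hQd : Q * ‖(d : E)‖ ≤ (2 * d + 1) * T := by
    have h2 : Q * ‖(d : E)‖ = ‖(d : E)‖ + ‖(d : E)‖ * (s * ‖z0‖) := by rw [hQ]; ring
    rw [h2]
    nlinarith
  -- the coefficients
  have hcoef : (‖F.coeff j‖ / ‖b‖) * s / s ^ j ≤ 2 ^ (d + 1) * Q ^ d := by
    have h2 := Polynomial.coeff_le_of_roots_le (p := P) (f := RingHom.id E) (B := ‖z0‖) j hPm
      (by rwa [Polynomial.map_id]) (by rwa [Polynomial.map_id])
    rw [Polynomial.map_id, hPd] at h2
    have h3 : ‖F.coeff j‖ / ‖b‖ ≤ α * ‖P.coeff j‖ + ‖(X : E[X]).coeff j‖ := by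
      have e : F.coeff j = F.leadingCoeff * P.coeff j + b * (X : E[X]).coeff j := by
        rw [hPc, ← mul_assoc, mul_inv_cancel₀ ha0, one_mul]
        ring
      rw [div_le_iff₀ hbp]
      calc ‖F.coeff j‖ = ‖F.leadingCoeff * P.coeff j + b * (X : E[X]).coeff j‖ := by rw [← e]
        _ ≤ ‖F.leadingCoeff‖ * ‖P.coeff j‖ + ‖b‖ * ‖(X : E[X]).coeff j‖ := by
            refine (norm_add_le _ _).trans ?_
            rw [norm_mul, norm_mul]
        _ = (α * ‖P.coeff j‖ + ‖(X : E[X]).coeff j‖) * ‖b‖ := by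
            rw [hα]
            field_simp
    have h4 : ‖(X : E[X]).coeff j‖ * s / s ^ j ≤ 1 := by
      rw [coeff_X]
      split_ifs with h5
      · rw [← h5, pow_one, norm_one, one_mul, div_self hs0.ne']
      · rw [norm_zero, zero_mul, zero_div]
        exact zero_le_one
    have h5 : α * ‖P.coeff j‖ * s / s ^ j ≤ 2 ^ d * Q ^ d := by
      have h6 : ((d.choose j : ℕ) : ℝ) ≤ 2 ^ d := by
        exact_mod_cast Nat.choose_le_two_pow d j
      have h7 : ‖P.coeff j‖ ≤ ‖z0‖ ^ (d - j) * 2 ^ d :=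
        h2.trans (mul_le_mul_of_nonneg_left h6 (by positivity))
      have h8 : α * s / s ^ j = s ^ (d - j) := by
        rw [← hs, ← pow_succ, div_eq_iff (pow_pos hs0 _).ne', ← pow_add]
        congr 1
        omega
      calc α * ‖P.coeff j‖ * s / s ^ j = (α * s / s ^ j) * ‖P.coeff j‖ := by ring
        _ = s ^ (d - j) * ‖P.coeff j‖ := by rw [h8]
        _ ≤ s ^ (d - j) * (‖z0‖ ^ (d - j) * 2 ^ d) :=
            mul_le_mul_of_nonneg_left h7 (by positivity)
        _ = 2 ^ d * (s * ‖z0‖) ^ (d - j) := by rw [mul_pow]; ring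
        _ ≤ 2 ^ d * Q ^ d := by
            refine mul_le_mul_of_nonneg_left ?_ (by positivity)
            calc (s * ‖z0‖) ^ (d - j) ≤ Q ^ (d - j) := pow_le_pow_left₀ hsz (by linarith) _
              _ ≤ Q ^ d := pow_le_pow_right₀ hQ1 (by omega)
    have h6 : (‖F.coeff j‖ / ‖b‖) * s / s ^ j ≤
        (α * ‖P.coeff j‖ + ‖(X : E[X]).coeff j‖) * s / s ^ j := by
      refine div_le_div_of_nonneg_right ?_ (by positivity)
      exact mul_le_mul_of_nonneg_right h3 hs0.le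
    have h7 : (α * ‖P.coeff j‖ + ‖(X : E[X]).coeff j‖) * s / s ^ j =
        α * ‖P.coeff j‖ * s / s ^ j + ‖(X : E[X]).coeff j‖ * s / s ^ j := by ring
    rw [h7] at h6
    have h8 : (1 : ℝ) ≤ 2 ^ d * Q ^ d := by
      have h9 : (1 : ℝ) ≤ 2 ^ d := one_le_pow₀ (by norm_num)
      have h10 : (1 : ℝ) ≤ Q ^ d := one_le_pow₀ hQ1
      nlinarith
    calc _ ≤ 2 ^ d * Q ^ d + 1 := h6.trans (add_le_add h5 h4)
      _ ≤ 2 ^ d * Q ^ d + 2 ^ d * Q ^ d := by linarith
      _ = 2 ^ (d + 1) * Q ^ d := by rw [pow_succ]; ring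
  have hmain : (‖F.coeff j‖ / ‖b‖) ^ (d - 1) * α / α ^ j * ‖(d : E)‖ ^ (d * (d - 1)) =
      ((‖F.coeff j‖ / ‖b‖) * s / s ^ j * ‖(d : E)‖ ^ d) ^ (d - 1) := by
    rw [← hs]
    generalize ‖F.coeff j‖ / ‖b‖ = w
    rw [mul_pow (w * s / s ^ j), div_pow, mul_pow, ← pow_mul, ← pow_mul, ← pow_mul,
      mul_comm j (d - 1)]
  rw [hmain]
  have h9 : (‖F.coeff j‖ / ‖b‖) * s / s ^ j * ‖(d : E)‖ ^ d ≤
      2 ^ (d + 1) * (2 * d + 1) ^ d * T ^ d := by
    calc (‖F.coeff j‖ / ‖b‖) * s / s ^ j * ‖(d : E)‖ ^ d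
        ≤ 2 ^ (d + 1) * Q ^ d * ‖(d : E)‖ ^ d :=
          mul_le_mul_of_nonneg_right hcoef (by positivity)
      _ = 2 ^ (d + 1) * (Q * ‖(d : E)‖) ^ d := by rw [mul_pow]; ring
      _ ≤ 2 ^ (d + 1) * ((2 * d + 1) * T) ^ d := by
          refine mul_le_mul_of_nonneg_left ?_ (by positivity)
          exact pow_le_pow_left₀ (by positivity) hQd d
      _ = 2 ^ (d + 1) * (2 * d + 1) ^ d * T ^ d := by rw [mul_pow]; ring
  refine (pow_le_pow_left₀ (by positivity) h9 (d - 1)).trans (le_of_eq ?_)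
  have h10 : (2 : ℝ) ^ (d + 1) * (2 * d + 1) ^ d =
      Real.exp (Real.log (2 ^ (d + 1) * (2 * d + 1) ^ d)) := (Real.exp_log (by linarith)).symm
  have h11 : (((d - 1 : ℕ) : ℕ) : ℝ) = d - 1 := by
    rw [Nat.cast_sub (by omega), Nat.cast_one]
  rw [mul_pow, hT, ← Real.exp_nat_mul, ← Real.exp_nat_mul, h11]
  conv_lhs => rw [h10, ← Real.exp_nat_mul, ← Real.exp_add, h11]
  congr 1
  ring

end TPolyH

end Pool.Agent.RI
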