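import Mathlib
import Pool.Agent.RI.TPolyHB
import Pool.Agent.RI.SXHarm

set_option autoImplicit false

/-!
# The local heights of a polynomial and the minimal resultant
-/

namespace Pool.Agent.RI

open Polynomial NumberField IsDedekindDomain Pool.Agent.GPoly
open Pool.Agent.RDF (lift wedge nrm form)
open TForm SAll TPoly TPolyM TPolyU

/-- `H_w(f) = max_j |c_j|_w ^ (d - 1) / |c_d|_w ^ (j - 1)`, `f = ∑ c_j X ^ j`, `d = deg f`. -/
noncomputable def locH {K : Type} [Field K] (w : AbsoluteValue K ℝ) (f : K[X]) : ℝ :=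
  ⨆ j : Fin (f.natDegree + 1),
    w (f.coeff j) ^ (f.natDegree - 1) * w f.leadingCoeff / w f.leadingCoeff ^ (j : ℕ)

namespace TPolyH

theorem le_locH {K : Type} [Field K] (w : AbsoluteValue K ℝ) (f : K[X]) (j : ℕ)
    (hj : j ≤ f.natDegree) :
    w (f.coeff j) ^ (f.natDegree - 1) * w f.leadingCoeff / w f.leadingCoeff ^ j ≤ locH w f :=
  le_ciSup (f := fun j : Fin (f.natDegree + 1) =>
    w (f.coeff j) ^ (f.natDegree - 1) * w f.leadingCoeff / w f.leadingCoeff ^ (j : ℕ))
    (Set.finite_range _).bddAbove ⟨j, Nat.lt_succ_of_le hj⟩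

theorem locH_le {K : Type} [Field K] (w : AbsoluteValue K ℝ) (f : K[X]) (B : ℝ)
    (h : ∀ j ≤ f.natDegree,
      w (f.coeff j) ^ (f.natDegree - 1) * w f.leadingCoeff / w f.leadingCoeff ^ j ≤ B) :
    locH w f ≤ B := by
  have : Nonempty (Fin (f.natDegree + 1)) := ⟨0⟩
  exact ciSup_le fun j => h j (Nat.lt_succ_iff.1 j.2)

theorem one_le_locH {K : Type} [Field K] (w : AbsoluteValue K ℝ) (f : K[X])
    (hf : 1 ≤ f.natDegree) : 1 ≤ locH w f := by
  have h0 : f.leadingCoeff ≠ 0 := by
    intro h0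
    rw [leadingCoeff_eq_zero] at h0
    rw [h0, natDegree_zero] at hf
    omega
  have hp : 0 < w f.leadingCoeff := w.pos h0
  have h1 := le_locH w f f.natDegree le_rfl
  rw [coeff_natDegree, ← pow_succ, Nat.sub_add_cancel hf, div_self (pow_pos hp _).ne'] at h1
  exact h1

variable {K : Type} [Field K] [NumberField K]

omit [NumberField K] in
theorem fp_coeff (F : (𝓞 K)[X]) (b : 𝓞 K) (j : ℕ) :
    (fp F b).coeff j = (algebraMap (𝓞 K) K b)⁻¹ * algebraMap (𝓞 K) K (F.coeff j) := by
  rw [fp, coeff_C_mul, coeff_map]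

omit [NumberField K] in
theorem fp_deg (F : (𝓞 K)[X]) (b : 𝓞 K) (hb : b ≠ 0) : (fp F b).natDegree = F.natDegree := by
  have hbK : algebraMap (𝓞 K) K b ≠ 0 := (map_ne_zero_iff _ RingOfIntegers.coe_injective).2 hb
  rw [fp, natDegree_C_mul (inv_ne_zero hbK),
    natDegree_map_eq_of_injective RingOfIntegers.coe_injective]

omit [NumberField K] in
theorem fp_lead (F : (𝓞 K)[X]) (b : 𝓞 K) (hb : b ≠ 0) : (fp F b).leadingCoeff =
    (algebraMap (𝓞 K) K b)⁻¹ * algebraMap (𝓞 K) K F.leadingCoeff := by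
  rw [leadingCoeff, fp_deg F b hb, fp_coeff, leadingCoeff]

/-- The local height is bounded by the resultants of the conjugates. -/
theorem locH_hom (d : ℕ) (hd : 2 ≤ d) : ∃ C₂ : ℝ, 0 ≤ C₂ ∧ ∀ {K : Type} [Field K] [NumberField K]
    {E : Type} [NormedField E] [IsAlgClosed E] (s : K →+* E) (w : AbsoluteValue K ℝ),
    (∀ x, w x = ‖s x‖) → ∀ (F : (𝓞 K)[X]) (b : 𝓞 K), F.natDegree = d → b ≠ 0 →
    F.coeff (d - 1) = 0 → ∀ r ∈ resSet d (F.map (s.comp (algebraMap (𝓞 K) K)))
      ((C b : (𝓞 K)[X]).map (s.comp (algebraMap (𝓞 K) K))),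
    w (d : K) ^ (d * (d - 1)) * locH w (fp F b) ≤
      Real.exp ((2 * d * (d - 1)) * max r 0 + C₂) := by
  obtain ⟨C₂, hC₂, h⟩ := coef_fix d hd
  refine ⟨C₂, hC₂, ?_⟩
  intro K _ _ E _ _ s w hw F b hF hb hcen r hr
  have hinj : Function.Injective (s.comp (algebraMap (𝓞 K) K)) :=
    s.injective.comp RingOfIntegers.coe_injective
  have hbK : algebraMap (𝓞 K) K b ≠ 0 := (map_ne_zero_iff _ RingOfIntegers.coe_injective).2 hb
  have hbE : s (algebraMap (𝓞 K) K b) ≠ 0 := (map_ne_zero_iff _ s.injective).2 hbK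
  rw [map_C] at hr
  have hFd : (F.map (s.comp (algebraMap (𝓞 K) K))).natDegree = d := by
    rw [natDegree_map_eq_of_injective hinj, hF]
  have h1 := h (F.map (s.comp (algebraMap (𝓞 K) K))) (s (algebraMap (𝓞 K) K b)) hFd hbE
    (by rw [coeff_map, hcen, map_zero]) r hr
  have hd0 : (d : K) ≠ 0 := by
    have : d ≠ 0 := by omega
    exact_mod_cast this
  have hwd : 0 < w (d : K) ^ (d * (d - 1)) := pow_pos (w.pos hd0) _
  rw [mul_comm, ← le_div_iff₀ hwd]
  refine locH_le w _ _ ?_
  intro j hj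
  rw [fp_deg F b hb, hF] at hj ⊢
  rw [le_div_iff₀ hwd]
  refine le_trans (le_of_eq ?_) (h1 j hj)
  have e1 : ∀ x : 𝓞 K, w ((algebraMap (𝓞 K) K b)⁻¹ * algebraMap (𝓞 K) K x) =
      ‖(s.comp (algebraMap (𝓞 K) K)) x‖ / ‖s (algebraMap (𝓞 K) K b)‖ := by
    intro x
    rw [map_mul, map_inv₀, hw, hw, RingHom.comp_apply]
    field_simp
  rw [fp_lead F b hb, fp_coeff, e1, e1, leadingCoeff_map_of_injective hinj, coeff_map, hw,
    map_natCast]

/-- The local heights are bounded by the largest minimal resultant. -/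
theorem log_locH (d : ℕ) (hd : 2 ≤ d) : ∃ C₂ : ℝ, 0 ≤ C₂ ∧ ∀ (K : Type) [Field K] [NumberField K]
    (F : (𝓞 K)[X]) (b : 𝓞 K), F.natDegree = d → b ≠ 0 → F.coeff (d - 1) = 0 → ∀ μ : ℝ, 1 ≤ μ →
    ((∃ v : HeightOneSpectrum (𝓞 K), μ ≤ av v (d : K) ^ (d * (d - 1)) * locH (av v) (fp F b)) ∨
      (∃ σ : K →+* ℂ, μ ≤ locH (NumberField.place σ) (fp F b))) →
    ∀ m : ℝ, 1 ≤ m → (∀ v, lamV d F (C b) v ≤ m) →
    (∀ σ : K →+* ℂ, lamC d (F.map (σ.comp (algebraMap (𝓞 K) K)))
        ((C b : (𝓞 K)[X]).map (σ.comp (algebraMap (𝓞 K) K))) ≤ m) →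
    Real.log μ ≤ C₂ * m := by
  obtain ⟨C₁, hC₁, h⟩ := locH_hom d hd
  have hdr : (2 : ℝ) ≤ d := by exact_mod_cast hd
  set e : ℝ := 2 * d * (d - 1) with he
  have he1 : 1 ≤ e := by
    rw [he]
    nlinarith
  refine ⟨e + C₁, by linarith, ?_⟩
  intro K _ _ F b hF hb hcen μ hμ hM m hm hV hσ
  have hF' : F.natDegree ≤ d := hF.le
  have hG' : (C b : (𝓞 K)[X]).natDegree ≤ d := by simp
  have hlog : ∀ r : ℝ, μ ≤ Real.exp (e * max r 0 + C₁) → (Real.log μ - C₁) / e ≤ max r 0 := by
    intro r hr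
    have h2 := Real.log_le_log (by linarith) hr
    rw [Real.log_exp] at h2
    rw [div_le_iff₀ (by linarith)]
    linarith
  rcases hM with ⟨v, hM⟩ | ⟨σ, hM⟩
  · have h1 : (Real.log μ - C₁) / e ≤ lamV d F (C b) v := by
      by_cases hneg : (Real.log μ - C₁) / e ≤ 0
      · exact hneg.trans (lamV_nonneg d F (C b) v)
      push Not at hneg
      refine le_lamV d F (C b) hF' hG' v _ ?_
      intro E _ _ _ _ hE r hr
      rw [SGenV.hom_comp E] at hr
      have h2 := h (algebraMap K E) (av v) (fun x => (hE x).symm) F b hF hb hcen r hr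
      have h3 := hlog r (hM.trans h2)
      rcases le_total r 0 with h4 | h4
      · rw [max_eq_right h4] at h3
        linarith
      · rwa [max_eq_left h4] at h3
    have h2 := hV v
    have h3 := h1.trans h2
    rw [div_le_iff₀ (by linarith)] at h3
    nlinarith
  · have h1 : (Real.log μ - C₁) / e ≤ lamC d (F.map (σ.comp (algebraMap (𝓞 K) K)))
        ((C b : (𝓞 K)[X]).map (σ.comp (algebraMap (𝓞 K) K))) := by
      by_cases hneg : (Real.log μ - C₁) / e ≤ 0
      · exact hneg.trans (le_max_left _ _)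
      push Not at hneg
      refine le_trans ?_ (le_max_right _ _)
      have hinj : Function.Injective (σ.comp (algebraMap (𝓞 K) K)) :=
        σ.injective.comp RingOfIntegers.coe_injective
      have hFd : (F.map (σ.comp (algebraMap (𝓞 K) K))).natDegree = d := by
        rw [natDegree_map_eq_of_injective hinj, hF]
      refine le_csInf (AVR.Glue.nonempty d hd _ _ hFd.le (natDegree_map_le.trans hG') ?_) ?_
      · intro B
        refine ⟨((|B| : ℝ) : ℂ), ?_⟩
        rw [Complex.norm_real, Real.norm_eq_abs, abs_abs]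
        exact le_abs_self B
      · intro r hr
        have h2 := h σ (NumberField.place σ) (fun x => rfl) F b hF hb hcen r hr
        have h5 : μ ≤ (NumberField.place σ) (d : K) ^ (d * (d - 1)) *
            locH (NumberField.place σ) (fp F b) := by
          refine hM.trans ?_
          have h6 : 1 ≤ (NumberField.place σ) (d : K) ^ (d * (d - 1)) := by
            refine one_le_pow₀ ?_
            rw [NumberField.place_apply, map_natCast, Complex.norm_natCast]
            linarith
          have h7 : 0 ≤ locH (NumberField.place σ) (fp F b) := by linarith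
          nlinarith
        have h3 := hlog r (h5.trans h2)
        rcases le_total r 0 with h4 | h4
        · rw [max_eq_right h4] at h3
          linarith
        · rwa [max_eq_left h4] at h3
    have h2 := hσ σ
    have h3 := h1.trans h2
    rw [div_le_iff₀ (by linarith)] at h3
    nlinarith

/-- The minimal resultant is bounded by the local height. -/
theorem lamV_le_locH (d : ℕ) (hd : 2 ≤ d) (F : (𝓞 K)[X]) (b : 𝓞 K) (hF : F.natDegree = d)
    (hb : b ≠ 0) (v : HeightOneSpectrum (𝓞 K)) :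
    lamV d F (C b) v ≤ 2 * d * Real.log (locH (av v) (fp F b)) := by
  obtain ⟨E, i1, i2, i3, i4, h⟩ := PQ.exists_Om v
  have hn : ∀ y : 𝓞 K, ‖algebraMap (𝓞 K) E y‖ = av v (algebraMap (𝓞 K) K y) := by
    intro y
    rw [IsScalarTower.algebraMap_apply (𝓞 K) K E, h]
  have ha0 : F.leadingCoeff ≠ 0 := by
    intro h0
    rw [leadingCoeff_eq_zero] at h0
    rw [h0, natDegree_zero] at hF
    omega
  have hna : 0 < ‖algebraMap (𝓞 K) E F.leadingCoeff‖ := by
    rw [hn]
    exact av_int_pos v _ ha0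
  have hnb : 0 < ‖algebraMap (𝓞 K) E b‖ := by
    rw [hn]
    exact av_int_pos v _ hb
  set a : E := algebraMap (𝓞 K) E F.leadingCoeff with ha
  set β : E := algebraMap (𝓞 K) E b with hβ
  have haE : a ≠ 0 := norm_pos_iff.1 hna
  have hβE : β ≠ 0 := norm_pos_iff.1 hnb
  obtain ⟨u, hu⟩ := IsAlgClosed.exists_pow_nat_eq (β / a) (n := d - 1) (by omega)
  have hu0 : u ≠ 0 := by
    rintro rfl
    rw [zero_pow (by omega)] at hu
    exact (div_ne_zero hβE haE) hu.symm
  have hup : 0 < ‖u‖ := norm_pos_iff.2 hu0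
  have hd' : d = (d - 1) + 1 := by omega
  set g : ℕ → E := fun j => algebraMap (𝓞 K) E (F.coeff j) / β * u ^ j / u with hg
  have hgd : g d = 1 := by
    have e1 : algebraMap (𝓞 K) E (F.coeff d) = a := by rw [ha, leadingCoeff, hF]
    have e2 : u ^ d = β / a * u := by
      conv_lhs => rw [hd']
      rw [pow_succ, hu]
    simp only [hg]
    rw [e1, e2]
    field_simp
  obtain ⟨j0, hj0, hmax⟩ := Finset.exists_max_image (Finset.range (d + 1)) (fun j => ‖g j‖)
    ⟨0, Finset.mem_range.2 (Nat.succ_pos d)⟩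
  have hj0' : j0 ≤ d := Nat.lt_succ_iff.1 (Finset.mem_range.1 hj0)
  have hmax' : ∀ j ≤ d, ‖g j‖ ≤ ‖g j0‖ := fun j hj =>
    hmax j (Finset.mem_range.2 (Nat.lt_succ_of_le hj))
  have hG1 : 1 ≤ ‖g j0‖ := by
    have := hmax' d le_rfl
    rwa [hgd, norm_one] at this
  have hg0 : g j0 ≠ 0 := norm_pos_iff.1 (by linarith)
  set T : E := (g j0)⁻¹ with hT
  have hT0 : T ≠ 0 := inv_ne_zero hg0
  have hTn : ‖T‖ = ‖g j0‖⁻¹ := by rw [hT, norm_inv]
  set F' : E[X] := C (T * (β * u)⁻¹) * (F.map (algebraMap (𝓞 K) E)).comp (C u * X) with hF'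
  have hcoef : ∀ i, F'.coeff i = T * g i := by
    intro i
    rw [hF', coeff_C_mul, comp_C_mul_X_coeff, coeff_map]
    simp only [hg]
    field_simp
  have hdeg' : F'.natDegree ≤ d := by
    rw [hF']
    refine (natDegree_C_mul_le _ _).trans ?_
    refine natDegree_comp_le.trans ?_
    have h1 : (C u * X : E[X]).natDegree ≤ 1 := (natDegree_C_mul_le _ _).trans natDegree_X_le
    calc (F.map (algebraMap (𝓞 K) E)).natDegree * (C u * X : E[X]).natDegree
        ≤ d * 1 := Nat.mul_le_mul (natDegree_map_le.trans hF.le) h1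
      _ = d := mul_one d
  have hmem : -Real.log ‖resultant F' (C T) d d‖ ∈ resSet d (F.map (algebraMap (𝓞 K) E))
      ((C b : (𝓞 K)[X]).map (algebraMap (𝓞 K) E)) := by
    refine SPot.conj_of_rel d hd _ _ F' (C T) hdeg' (by simp) ?_ ?_ !![u, 0; 0, 1] ?_ (T / β)
      (div_ne_zero hT0 hβE) ?_
    · intro i
      rw [hcoef i, norm_mul, hTn]
      rcases Nat.lt_or_ge d i with hi | hi
      · have e1 : g i = 0 := by
          simp only [hg]
          rw [coeff_eq_zero_of_natDegree_lt (by omega), map_zero]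
          simp
        rw [e1, norm_zero, mul_zero]
        exact zero_le_one
      · rw [inv_mul_le_iff₀ (by linarith), mul_one]
        exact hmax' i hi
    · intro i
      rw [coeff_C]
      split_ifs
      · rw [hTn]
        exact inv_le_one_of_one_le₀ hG1
      · rw [norm_zero]
        exact zero_le_one
    · rw [Matrix.det_fin_two_of]
      simpa using hu0
    · intro p
      rw [map_C]
      have e1 : act !![u, 0; 0, 1] p = (u * p.1, p.2) := by
        simp [act]
      have e2 : act !![u, 0; 0, 1] (lift d F' (C T) p) =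
          (u * form d F' p, form d (C T) p) := by
        simp [act, lift]
      rw [e1, e2]
      refine Prod.ext ?_ ?_
      · show u * form d F' p = T / β * form d (F.map (algebraMap (𝓞 K) E)) (u * p.1, p.2)
        rw [form, form, Finset.mul_sum, Finset.mul_sum]
        refine Finset.sum_congr rfl fun i _ => ?_
        rw [hcoef i, coeff_map]
        simp only [hg]
        rw [mul_pow]
        field_simp
      · show form d (C T) p = T / β * form d (C (algebraMap (𝓞 K) E b)) (u * p.1, p.2)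
        rw [SXH.form_const, SXH.form_const, ← hβ]
        field_simp
  have h1 := lamV_le_of_mem d F (C b) v E h _ hmem
  rw [resultant_C_right, hcoef d, hgd, mul_one, norm_mul, norm_pow, hTn, ← pow_add, Real.log_pow,
    Real.log_inv] at h1
  push_cast at h1
  -- the largest term
  have h2 : ‖g j0‖ ^ (d - 1) ≤ locH (av v) (fp F b) := by
    refine le_trans (le_of_eq ?_) (le_locH (av v) (fp F b) j0 (by rw [fp_deg F b hb, hF]; exact hj0'))
    have e1 : ∀ x : 𝓞 K, av v ((algebraMap (𝓞 K) K b)⁻¹ * algebraMap (𝓞 K) K x) =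
        ‖algebraMap (𝓞 K) E x‖ / ‖β‖ := by
      intro x
      rw [map_mul, map_inv₀, ← hn, ← hn, ← hβ, inv_mul_eq_div]
    rw [fp_deg F b hb, hF, fp_lead F b hb, fp_coeff, e1, e1, ← ha]
    have e2 : ‖u‖ ^ (d - 1) = ‖β‖ / ‖a‖ := by rw [← norm_pow, hu, norm_div]
    simp only [hg]
    rw [norm_div, norm_mul, norm_div, norm_pow, div_pow, mul_pow, ← pow_mul, mul_comm j0 (d - 1),
      pow_mul, e2]
    generalize (‖algebraMap (𝓞 K) E (F.coeff j0)‖ / ‖β‖) ^ (d - 1) = y
    rw [div_pow, div_pow]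
    field_simp
  have h3 : ‖g j0‖ ≤ ‖g j0‖ ^ (d - 1) := le_self_pow₀ hG1 (by omega)
  have h4 := Real.log_le_log (by linarith) (h3.trans h2)
  have h5 : (0 : ℝ) ≤ d := Nat.cast_nonneg _
  nlinarith

/-- At a prime which does not divide the denominator, `v` is harmless if and only if the local
height is one. -/
theorem harmless_iff (d : ℕ) (hd : 2 ≤ d) (F : (𝓞 K)[X]) (b : 𝓞 K) (hF : F.natDegree = d)
    (v : HeightOneSpectrum (𝓞 K)) (hbv : b ∉ v.asIdeal) :
    PQ.Harmless F b v ↔ locH (av v) (fp F b) ≤ 1 := by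
  have hb : b ≠ 0 := by
    rintro rfl
    exact hbv (zero_mem _)
  have ha0 : F.leadingCoeff ≠ 0 := by
    intro h0
    rw [leadingCoeff_eq_zero] at h0
    rw [h0, natDegree_zero] at hF
    omega
  have hnb : av v (algebraMap (𝓞 K) K b) = 1 := (av_int_eq_one v b).2 hbv
  have e1 : ∀ x : 𝓞 K, av v ((algebraMap (𝓞 K) K b)⁻¹ * algebraMap (𝓞 K) K x) =
      av v (algebraMap (𝓞 K) K x) := by
    intro x
    rw [map_mul, map_inv₀, hnb, inv_one, one_mul]
  have hap : 0 < av v (algebraMap (𝓞 K) K F.leadingCoeff) := av_int_pos v _ ha0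
  have hval : ∀ j, 2 ≤ j →
      (v.intValuation (F.coeff j) ^ (F.natDegree - 1) ≤ v.intValuation F.leadingCoeff ^ (j - 1) ↔
      av v (algebraMap (𝓞 K) K (F.coeff j)) ^ (d - 1) ≤
            av v (algebraMap (𝓞 K) K F.leadingCoeff) ^ (j - 1)) := by
    intro j _
    have hxy : ∀ x y : 𝓞 K, v.intValuation x ≤ v.intValuation y ↔
        av v (algebraMap (𝓞 K) K x) ≤ av v (algebraMap (𝓞 K) K y) := by
      intro x y
      rw [av_eq, av_eq, NNReal.coe_le_coe, (WithZeroMulInt.toNNReal_strictMono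
        (NumberField.HeightOneSpectrum.one_lt_absNorm_nnreal v)).le_iff_le,
        v.valuation_of_algebraMap, v.valuation_of_algebraMap]
    have h1 := hxy (F.coeff j ^ (d - 1)) (F.leadingCoeff ^ (j - 1))
    rw [map_pow, map_pow, map_pow, map_pow, map_pow, map_pow] at h1
    rw [hF]
    exact h1
  constructor
  · rintro ⟨-, hco⟩
    refine locH_le _ _ _ ?_
    intro j hj
    rw [fp_deg F b hb, hF] at hj ⊢
    rw [fp_lead F b hb, fp_coeff, e1, e1, div_le_one (pow_pos hap _)]
    rcases Nat.lt_or_ge j 2 with hj2 | hj2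
    · have h1 := pow_le_one₀ (n := d - 1) ((av v).nonneg (algebraMap (𝓞 K) K (F.coeff j)))
        (av_int_le_one v (F.coeff j))
      have h2 := av_int_le_one v F.leadingCoeff
      have h3 : 0 ≤ av v (algebraMap (𝓞 K) K (F.coeff j)) ^ (d - 1) :=
        pow_nonneg ((av v).nonneg _) _
      have h4 : j = 0 ∨ j = 1 := by omega
      rcases h4 with rfl | rfl
      · rw [pow_zero]
        nlinarith
      · rw [pow_one]
        nlinarith
    · have h1 := (hval j hj2).1 (hco j hj2)
      calc _ ≤ av v (algebraMap (𝓞 K) K F.leadingCoeff) ^ (j - 1) *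
            av v (algebraMap (𝓞 K) K F.leadingCoeff) := mul_le_mul_of_nonneg_right h1 hap.le
        _ = _ := by
            rw [← pow_succ]
            congr 1
            omega
  · intro hle
    refine ⟨hbv, fun j hj2 => ?_⟩
    rw [hval j hj2]
    rcases Nat.lt_or_ge d j with hj | hj
    · rw [coeff_eq_zero_of_natDegree_lt (by omega), map_zero, map_zero, zero_pow (by omega)]
      positivity
    · have h1 := (le_locH (av v) (fp F b) j (by rw [fp_deg F b hb, hF]; exact hj)).trans hle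
      rw [fp_deg F b hb, hF, fp_lead F b hb, fp_coeff, e1, e1, div_le_one (pow_pos hap _)] at h1
      have h2 : av v (algebraMap (𝓞 K) K F.leadingCoeff) ^ j =
          av v (algebraMap (𝓞 K) K F.leadingCoeff) ^ (j - 1) *
            av v (algebraMap (𝓞 K) K F.leadingCoeff) := by
        rw [← pow_succ]
        congr 1
        omega
      rw [h2] at h1
      exact le_of_mul_le_mul_right h1 hap

end TPolyH

end Pool.Agent.RI
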