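import Mathlib
import Pool.Agent.RI.TPolyH

set_option autoImplicit false

/-!
# Theorem S for polynomials, in terms of the local heights
-/

namespace Pool.Agent.RI

open Polynomial NumberField IsDedekindDomain Pool.Agent.GPoly
open Pool.Agent.RDF (lift wedge)
open TForm SAll TPoly TPolyM TPolyU

/-- `μ ≤ 2`, or `F / b` is centered and `μ` is at most its local height at a place. -/
def HLe {K : Type} [Field K] [NumberField K] (d : ℕ) (F : (𝓞 K)[X]) (b : 𝓞 K) (μ : ℝ) : Prop :=
  μ ≤ 2 ∨ F.coeff (d - 1) = 0 ∧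
    ((∃ v : HeightOneSpectrum (𝓞 K), μ ≤ av v (d : K) ^ (d * (d - 1)) * locH (av v) (fp F b)) ∨
      (∃ σ : K →+* ℂ, μ ≤ locH (NumberField.place σ) (fp F b)))

/-- THEOREM S for polynomials, with the local heights. -/
theorem main_TPolyHX (N d l : ℕ) (hN : 1 ≤ N) (hd : 2 ≤ d) : ∃ M₀ : ℝ, 0 ≤ M₀ ∧
    ∀ (K : Type) [Field K] [NumberField K] (F : (𝓞 K)[X]) (b : 𝓞 K), F.natDegree = d → b ≠ 0 →
    ∀ (S : Finset (HeightOneSpectrum (𝓞 K))) (k : ℕ) (μ : ℝ), 1 ≤ μ → HLe d F b μ →
    ∑ᶠ (v : HeightOneSpectrum (𝓞 K)) (_ : v ∉ S ∧ ¬ (PQ.DefA l F b v ∨ PQ.DefB N F b v)),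
        Real.log (locH (av v) (fp F b)) ≤
      k * (Real.log μ + ∑ᶠ (v : HeightOneSpectrum (𝓞 K)) (_ : PQ.DefA l F b v ∨ PQ.DefB N F b v),
        -Real.log (av v (algebraMap (𝓞 K) K (F.leadingCoeff * b)))) →
    ∀ (L : Type) [Field L] [NumberField L] [Algebra K L], ∀ X : Finset (L × L),
      (∀ p ∈ X, Pool.Agent.RDF.DegLe K N p ∧ p ≠ 0 ∧ ∃ m n : ℕ, m < n ∧
        wedge ((lift d (F.map (algebraMap (𝓞 K) L))
            ((C b : (𝓞 K)[X]).map (algebraMap (𝓞 K) L)))^[m] p)
          ((lift d (F.map (algebraMap (𝓞 K) L))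
            ((C b : (𝓞 K)[X]).map (algebraMap (𝓞 K) L)))^[n] p) = 0) →
      (∀ p ∈ X, ∀ q ∈ X, p ≠ q → wedge p q ≠ 0) →
      (X.card : ℝ) ≤ M₀ * ((Module.finrank ℚ K + k + S.card) *
        Real.log (Module.finrank ℚ K + k + S.card + 1)) := by
  obtain ⟨κ, A, hκ, hloc⟩ := locDef_poly d N l hd hN
  obtain ⟨C₀, hC₀, hmain⟩ := main_TX N d hd κ A hκ
  obtain ⟨C₂, hC₂, hlocH⟩ := TPolyH.log_locH d hd
  set c : ℝ := 2 + 2 * d * (C₂ + 2) with hc
  have hdr : (2 : ℝ) ≤ d := by exact_mod_cast hd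
  have hc2 : 2 ≤ c := by
    have : 0 ≤ 2 * d * (C₂ + 2) := by positivity
    linarith
  refine ⟨c ^ 2 * C₀, by positivity, ?_⟩
  intro K _ _ F b hF hb S k μ hμ1 hμ hnorm L _ _ _ X hX hw
  classical
  have ha0 : F.leadingCoeff ≠ 0 := by
    intro h0
    rw [leadingCoeff_eq_zero] at h0
    rw [h0, natDegree_zero] at hF
    omega
  have hab : F.leadingCoeff * b ≠ 0 := mul_ne_zero ha0 hb
  have hF' : F.natDegree ≤ d := hF.le
  have hG' : (C b : (𝓞 K)[X]).natDegree ≤ d := by simp
  have hres : resultant F (C b) d d = (F.leadingCoeff * b) ^ d := by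
    rw [resultant_C_right, ← hF, coeff_natDegree, mul_pow]
  have hR : resultant F (C b) d d ≠ 0 := by
    rw [hres]
    exact pow_ne_zero _ hab
  have hspanR : Ideal.span {resultant F (C b) d d} = Ideal.span {F.leadingCoeff * b} ^ d := by
    rw [hres, Ideal.span_singleton_pow]
  -- the defective part
  obtain ⟨T, hTd, hT, hTn⟩ := exists_part (F.leadingCoeff * b) hab
    (fun v => PQ.DefA l F b v ∨ PQ.DefB N F b v)
  set E : Ideal (𝓞 K) := T ^ d with hEdef
  have hEd : E ∣ Ideal.span {resultant F (C b) d d} := by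
    rw [hspanR, hEdef]
    exact pow_dvd_pow_of_dvd hTd d
  have hEdiv : ∀ v : HeightOneSpectrum (𝓞 K), v.asIdeal ∣ E ↔
      (PQ.DefA l F b v ∨ PQ.DefB N F b v) := by
    intro v
    rw [hEdef]
    constructor
    · intro hv
      exact ((hT v).1 (v.prime.dvd_of_dvd_pow hv)).2
    · intro hv
      refine dvd_pow ((hT v).2 ⟨?_, hv⟩) (by omega)
      rcases hv with hv | hv
      · exact v.asIdeal.mul_mem_right _ hv.2.1
      · exact v.asIdeal.mul_mem_left _ hv.2.1
  have hEn : Real.log (Ideal.absNorm E) = d *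
      ∑ᶠ (v : HeightOneSpectrum (𝓞 K)) (_ : PQ.DefA l F b v ∨ PQ.DefB N F b v),
        -Real.log (av v (algebraMap (𝓞 K) K (F.leadingCoeff * b))) := by
    rw [hEdef, map_pow, Nat.cast_pow, Real.log_pow, hTn]
  -- the largest local term
  obtain ⟨m, hm1, hmv, hmσ, hmD, hmm⟩ := exists_max' d F (C b) hF' hG' hR
    (Real.log (Ideal.absNorm E))
  have hlogμ : Real.log μ ≤ (C₂ + 1) * m := by
    rcases hμ with hμ | ⟨hcen, hμ⟩
    · have h1 : Real.log μ ≤ 1 := by
        have h2 := Real.log_le_sub_one_of_pos (show 0 < μ by linarith)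
        linarith
      nlinarith
    · have h1 := hlocH K F b hF hb hcen μ hμ1 hμ m hm1 hmv hmσ
      linarith
  have hfin := lamV_support d F (C b) hF' hG' hR
  have hP : ∀ v, lamV d F (C b) v ≠ 0 → v ∈ hfin.toFinset := fun v hv =>
    (Set.Finite.mem_toFinset hfin).mpr hv
  have hn : (1 : ℝ) ≤ Module.finrank ℚ K := by
    exact_mod_cast (Module.finrank_pos : 0 < Module.finrank ℚ K)
  have hk0 : (0 : ℝ) ≤ k := Nat.cast_nonneg _
  have hs0 : (0 : ℝ) ≤ (S.card : ℝ) := Nat.cast_nonneg _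
  have hlH : ∀ v : HeightOneSpectrum (𝓞 K), 0 ≤ Real.log (locH (av v) (fp F b)) := fun v =>
    Real.log_nonneg (TPolyH.one_le_locH _ _ (by rw [TPolyH.fp_deg F b hb, hF]; omega))
  -- finite support of the local heights
  have hHfin : ∃ P : Finset (HeightOneSpectrum (𝓞 K)), ∀ v,
      Real.log (locH (av v) (fp F b)) ≠ 0 → v ∈ P := by
    obtain ⟨P, hP⟩ : ∃ P : Finset (HeightOneSpectrum (𝓞 K)), ∀ v,
        F.leadingCoeff * b ∈ v.asIdeal → v ∈ P := by
      have hspan0 : Ideal.span {F.leadingCoeff * b} ≠ (0 : Ideal (𝓞 K)) := by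
        rw [Ne, Ideal.zero_eq_bot, Ideal.span_singleton_eq_bot]
        exact hab
      refine ⟨(Ideal.finite_factors hspan0).toFinset, fun v hv => ?_⟩
      rw [Set.Finite.mem_toFinset]
      exact Ideal.dvd_span_singleton.2 hv
    refine ⟨P, fun v hv => hP v ?_⟩
    by_contra hnot
    apply hv
    have hbv : b ∉ v.asIdeal := fun h => hnot (v.asIdeal.mul_mem_left _ h)
    have hav : F.leadingCoeff ∉ v.asIdeal := fun h => hnot (v.asIdeal.mul_mem_right _ h)
    have hharm : PQ.Harmless F b v := by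
      refine ⟨hbv, fun j _ => ?_⟩
      have h1 : v.intValuation F.leadingCoeff = 1 := by
        refine le_antisymm (v.intValuation_le_one _) ?_
        by_contra h2
        push Not at h2
        exact hav ((v.intValuation_lt_one_iff_mem _).1 h2)
      rw [h1, one_pow]
      exact pow_le_one₀ zero_le (v.intValuation_le_one _)
    have h2 := (TPolyH.harmless_iff d hd F b hF v hbv).1 hharm
    have h3 : locH (av v) (fp F b) = 1 := le_antisymm h2
      (TPolyH.one_le_locH _ _ (by rw [TPolyH.fp_deg F b hb, hF]; omega))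
    rw [h3, Real.log_one]
  obtain ⟨P₂, hP₂⟩ := hHfin
  have hsum : ∑ᶠ (v : HeightOneSpectrum (𝓞 K)) (_ : ¬ v.asIdeal ∣ E), lamV d F (C b) v ≤
      (k * (c - 2) + S.card) * m := by
    rw [finsum_filter _ hfin.toFinset hP,
      ← Finset.sum_filter_add_sum_filter_not _ (fun v : HeightOneSpectrum (𝓞 K) => v ∈ S)]
    have h1 : ∑ v ∈ (hfin.toFinset.filter fun v : HeightOneSpectrum (𝓞 K) => ¬ v.asIdeal ∣ E).filter
        (fun v : HeightOneSpectrum (𝓞 K) => v ∈ S), lamV d F (C b) v ≤ S.card * m := by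
      refine (Finset.sum_le_card_nsmul _ _ m (fun v _ => hmv v)).trans ?_
      rw [nsmul_eq_mul]
      refine mul_le_mul_of_nonneg_right ?_ (by linarith)
      refine Nat.cast_le.2 (Finset.card_le_card ?_)
      intro v hv
      exact (Finset.mem_filter.1 hv).2
    have h2 : ∑ v ∈ (hfin.toFinset.filter fun v : HeightOneSpectrum (𝓞 K) => ¬ v.asIdeal ∣ E).filter
        (fun v : HeightOneSpectrum (𝓞 K) => ¬ v ∈ S), lamV d F (C b) v ≤ k * (c - 2) * m := by
      have h3 : ∑ᶠ (v : HeightOneSpectrum (𝓞 K))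
          (_ : v ∉ S ∧ ¬ (PQ.DefA l F b v ∨ PQ.DefB N F b v)),
          Real.log (locH (av v) (fp F b)) ≤ k * ((C₂ + 2) * m) := by
        refine hnorm.trans (mul_le_mul_of_nonneg_left ?_ hk0)
        have h4 : d * ∑ᶠ (v : HeightOneSpectrum (𝓞 K))
            (_ : PQ.DefA l F b v ∨ PQ.DefB N F b v),
            -Real.log (av v (algebraMap (𝓞 K) K (F.leadingCoeff * b))) ≤ m := by
          rw [← hEn]
          exact hmD
        have h5 : (0 : ℝ) ≤ ∑ᶠ (v : HeightOneSpectrum (𝓞 K))
            (_ : PQ.DefA l F b v ∨ PQ.DefB N F b v),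
            -Real.log (av v (algebraMap (𝓞 K) K (F.leadingCoeff * b))) := by
          refine finsum_nonneg fun v => finsum_nonneg fun _ => wt_nonneg v _
        have h6 : ∑ᶠ (v : HeightOneSpectrum (𝓞 K))
            (_ : PQ.DefA l F b v ∨ PQ.DefB N F b v),
            -Real.log (av v (algebraMap (𝓞 K) K (F.leadingCoeff * b))) ≤ m := by
          nlinarith
        linarith
      rw [finsum_filter _ P₂ hP₂] at h3
      calc _ ≤ ∑ v ∈ (hfin.toFinset.filter fun v : HeightOneSpectrum (𝓞 K) =>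
              ¬ v.asIdeal ∣ E).filter (fun v : HeightOneSpectrum (𝓞 K) => ¬ v ∈ S),
              2 * d * Real.log (locH (av v) (fp F b)) :=
            Finset.sum_le_sum fun v _ => TPolyH.lamV_le_locH d hd F b hF hb v
        _ ≤ ∑ v ∈ P₂ with v ∉ S ∧ ¬ (PQ.DefA l F b v ∨ PQ.DefB N F b v),
              2 * d * Real.log (locH (av v) (fp F b)) := by
            rw [← Finset.sum_filter_ne_zero]
            refine Finset.sum_le_sum_of_subset_of_nonneg ?_ fun v _ _ =>
              mul_nonneg (by positivity) (hlH v)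
            intro v hv
            rw [Finset.mem_filter, Finset.mem_filter, Finset.mem_filter] at hv
            rw [Finset.mem_filter]
            refine ⟨hP₂ v fun h0 => hv.2 (by rw [h0, mul_zero]), hv.1.2, ?_⟩
            rw [← hEdiv]
            exact hv.1.1.2
        _ = 2 * d * ∑ v ∈ P₂ with v ∉ S ∧ ¬ (PQ.DefA l F b v ∨ PQ.DefB N F b v),
              Real.log (locH (av v) (fp F b)) := by rw [Finset.mul_sum]
        _ ≤ 2 * d * (k * ((C₂ + 2) * m)) :=
            mul_le_mul_of_nonneg_left h3 (by positivity)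
        _ = k * (c - 2) * m := by
            rw [hc]
            ring
    linarith
  have hσ := sum_lamC_le d F (C b) m hmσ
  have h3 := hmain K F (C b) hF' hG' hR E hEd (fun v hv => hloc K F b hb hF v ((hEdiv v).1 hv))
    m (by linarith) hmm (c * (Module.finrank ℚ K + k + S.card)) (by
      have h4 : (∑ᶠ (v : HeightOneSpectrum (𝓞 K)) (_ : ¬ v.asIdeal ∣ E), lamV d F (C b) v +
          ∑ σ : K →+* ℂ, lamC d (F.map (σ.comp (algebraMap (𝓞 K) K)))
            ((C b : (𝓞 K)[X]).map (σ.comp (algebraMap (𝓞 K) K)))) / m ≤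
          k * (c - 2) + S.card + Module.finrank ℚ K := by
        rw [div_le_iff₀ (by linarith)]
        linarith
      have h5 : (2 : ℝ) * Module.finrank ℚ K ≤ c * Module.finrank ℚ K :=
        mul_le_mul_of_nonneg_right hc2 (by linarith)
      have h6 : (1 : ℝ) * S.card ≤ c * S.card := mul_le_mul_of_nonneg_right (by linarith) hs0
      linarith) L X hX hw
  refine h3.trans ?_
  have h4 := log_bound_c c (Module.finrank ℚ K + k + S.card) (by linarith) (by linarith)
  calc C₀ * (c * (Module.finrank ℚ K + k + S.card) *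
        Real.log (c * (Module.finrank ℚ K + k + S.card) + 1))
      ≤ C₀ * (c ^ 2 * ((Module.finrank ℚ K + k + S.card) *
          Real.log (Module.finrank ℚ K + k + S.card + 1))) :=
        mul_le_mul_of_nonneg_left h4 hC₀
    _ = c ^ 2 * C₀ * ((Module.finrank ℚ K + k + S.card) *
          Real.log (Module.finrank ℚ K + k + S.card + 1)) := by
        ring

/-- THEOREM S for polynomials, with the local heights, in the algebraic closure. -/
theorem main_TPolyH (N d l : ℕ) (hd : 2 ≤ d) : ∃ M₀ : ℝ, 0 ≤ M₀ ∧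
    ∀ (K : Type) [Field K] [NumberField K] (F : (𝓞 K)[X]) (b : 𝓞 K), F.natDegree = d → b ≠ 0 →
    ∀ (S : Finset (HeightOneSpectrum (𝓞 K))) (k : ℕ) (μ : ℝ), 1 ≤ μ → HLe d F b μ →
    ∑ᶠ (v : HeightOneSpectrum (𝓞 K)) (_ : v ∉ S ∧ ¬ (PQ.DefA l F b v ∨ PQ.DefB N F b v)),
        Real.log (locH (av v) (fp F b)) ≤
      k * (Real.log μ + ∑ᶠ (v : HeightOneSpectrum (𝓞 K)) (_ : PQ.DefA l F b v ∨ PQ.DefB N F b v),
        -Real.log (av v (algebraMap (𝓞 K) K (F.leadingCoeff * b)))) →
    {x : AlgebraicClosure K | (minpoly K x).natDegree ≤ N ∧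
      PQ.PreE (AlgebraicClosure K) F b x}.Finite ∧
    (({x : AlgebraicClosure K | (minpoly K x).natDegree ≤ N ∧
      PQ.PreE (AlgebraicClosure K) F b x}.ncard : ℕ) : ℝ) ≤
        M₀ * ((Module.finrank ℚ K + k + S.card) *
          Real.log (Module.finrank ℚ K + k + S.card + 1)) := by
  rcases Nat.eq_zero_or_pos N with rfl | hN
  · refine ⟨0, le_rfl, ?_⟩
    intro K _ _ F b hF hb S k μ hμ1 hμ hnorm
    have h0 : {x : AlgebraicClosure K | (minpoly K x).natDegree ≤ 0 ∧
      PQ.PreE (AlgebraicClosure K) F b x} = ∅ := by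
      refine Set.eq_empty_of_forall_notMem fun x hx => ?_
      have h1 := minpoly.natDegree_pos (A := K) (x := x) (Algebra.IsIntegral.isIntegral x)
      have h2 := hx.1
      omega
    rw [h0]
    simp
  · obtain ⟨M₀, hM₀, h⟩ := main_TPolyHX N d l hN hd
    refine ⟨M₀, hM₀, ?_⟩
    intro K _ _ F b hF hb S k μ hμ1 hμ hnorm
    exact TPoly.points_of d N F hF.le b hb _ (h K F b hF hb S k μ hμ1 hμ hnorm)

namespace TPolyH

/-- The logarithm of a finite product. -/
theorem log_finprod {α : Type*} (p : α → Prop) (f : α → ℝ) (P : Finset α)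
    (hP : ∀ v, p v → f v ≠ 1 → v ∈ P) (hf : ∀ v, 0 < f v) :
    0 < ∏ᶠ (v : α) (_ : p v), f v ∧
    Real.log (∏ᶠ (v : α) (_ : p v), f v) = ∑ᶠ (v : α) (_ : p v), Real.log (f v) := by
  classical
  have h1 : ∀ v, (∏ᶠ (_ : p v), f v) = if p v then f v else 1 := fun v => finprod_eq_if
  have h2 : ∀ v, (∑ᶠ (_ : p v), Real.log (f v)) = if p v then Real.log (f v) else 0 :=
    fun v => finsum_eq_if
  simp only [h1, h2]
  rw [finprod_eq_prod_of_mulSupport_subset (s := P), finsum_eq_sum_of_support_subset (s := P)]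
  · constructor
    · refine Finset.prod_pos fun v _ => ?_
      split_ifs
      · exact hf v
      · exact one_pos
    · rw [Real.log_prod]
      · refine Finset.sum_congr rfl fun v _ => ?_
        split_ifs
        · rfl
        · exact Real.log_one
      · intro v _
        split_ifs
        · exact (hf v).ne'
        · exact one_ne_zero
  · intro v hv
    rw [Function.mem_support] at hv
    split_ifs at hv with h
    · refine hP v h ?_
      intro h3
      rw [h3, Real.log_one] at hv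
      exact hv rfl
    · exact absurd rfl hv
  · intro v hv
    rw [Function.mem_mulSupport] at hv
    split_ifs at hv with h
    · exact hP v h hv
    · exact absurd rfl hv

/-- The local heights are `1` at almost all primes. -/
theorem locH_support (d : ℕ) (hd : 2 ≤ d) {K : Type} [Field K] [NumberField K] (F : (𝓞 K)[X])
    (b : 𝓞 K) (hF : F.natDegree = d) (hb : b ≠ 0) :
    ∃ P : Finset (HeightOneSpectrum (𝓞 K)), (∀ v, F.leadingCoeff * b ∈ v.asIdeal → v ∈ P) ∧
      ∀ v, locH (av v) (fp F b) ≠ 1 → v ∈ P := by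
  classical
  have ha0 : F.leadingCoeff ≠ 0 := by
    intro h0
    rw [leadingCoeff_eq_zero] at h0
    rw [h0, natDegree_zero] at hF
    omega
  have hspan0 : Ideal.span {F.leadingCoeff * b} ≠ (0 : Ideal (𝓞 K)) := by
    rw [Ne, Ideal.zero_eq_bot, Ideal.span_singleton_eq_bot]
    exact mul_ne_zero ha0 hb
  have hP : ∀ v : HeightOneSpectrum (𝓞 K), F.leadingCoeff * b ∈ v.asIdeal →
      v ∈ (Ideal.finite_factors hspan0).toFinset := fun v hv => by
    rw [Set.Finite.mem_toFinset]
    exact Ideal.dvd_span_singleton.2 hv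
  refine ⟨_, hP, fun v hv => hP v ?_⟩
  by_contra hnot
  apply hv
  have hbv : b ∉ v.asIdeal := fun h => hnot (v.asIdeal.mul_mem_left _ h)
  have hav : F.leadingCoeff ∉ v.asIdeal := fun h => hnot (v.asIdeal.mul_mem_right _ h)
  have hharm : PQ.Harmless F b v := by
    refine ⟨hbv, fun j _ => ?_⟩
    have h1 : v.intValuation F.leadingCoeff = 1 := by
      refine le_antisymm (v.intValuation_le_one _) ?_
      by_contra h2
      push Not at h2
      exact hav ((v.intValuation_lt_one_iff_mem _).1 h2)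
    rw [h1, one_pow]
    exact pow_le_one₀ zero_le (v.intValuation_le_one _)
  exact le_antisymm ((harmless_iff d hd F b hF v hbv).1 hharm)
    (one_le_locH _ _ (by rw [fp_deg F b hb, hF]; omega))

end TPolyH

end Pool.Agent.RI
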