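import Mathlib

set_option autoImplicit false

/-!
# Tree kernels

A tree kernel on a finite set is a symmetric function `j ≥ 0` with
`min (j p q) (j q r) ≤ j p r` for all `p, q, r`.
-/

namespace Pool.Agent.RI

open Finset
open scoped BigOperators

/-- Tree kernels. -/
structure IsTree {P : Type*} (j : P → P → ℝ) : Prop where
  nonneg : ∀ p q, 0 ≤ j p q
  symm : ∀ p q, j p q = j q p
  tri : ∀ p q r, min (j p q) (j q r) ≤ j p r

namespace IsTree

variable {P : Type*} {j : P → P → ℝ}

theorem le_diag (h : IsTree j) (p q : P) : j p q ≤ j p p := by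
  have := h.tri p q p
  rwa [h.symm q p, min_self] at this

theorem le_diag' (h : IsTree j) (p q : P) : j p q ≤ j q q := by
  rw [h.symm p q]; exact h.le_diag q p

theorem comp (h : IsTree j) (φ : ℝ → ℝ) (hφ : Monotone φ) (h0 : ∀ x, 0 ≤ x → 0 ≤ φ x) :
    IsTree fun p q => φ (j p q) where
  nonneg p q := h0 _ (h.nonneg p q)
  symm p q := by rw [h.symm p q]
  tri p q r := by rw [← hφ.map_min]; exact hφ (h.tri p q r)

/-- The points with `s ≤ j p p` fall into classes. -/
def rel (h : IsTree j) (s : ℝ) : Setoid P where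
  r p q := p = q ∨ s ≤ j p q
  iseqv :=
    { refl := fun p => Or.inl rfl
      symm := by
        rintro p q (rfl | hs)
        · exact Or.inl rfl
        · exact Or.inr (by rwa [h.symm q p])
      trans := by
        rintro p q r (rfl | h1) (rfl | h2)
        · exact Or.inl rfl
        · exact Or.inr h2
        · exact Or.inr h1
        · exact Or.inr ((le_min h1 h2).trans (h.tri p q r)) }

variable [Fintype P]

open Classical in
theorem psd_ind (h : IsTree j) (s : ℝ) (σ : P → ℝ) :
    0 ≤ ∑ p, ∑ q, σ p * σ q * (if s ≤ j p q then 1 else 0) := by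
  set R := h.rel s with hR
  set D : Finset P := univ.filter fun p => s ≤ j p p with hD
  have h1 : ∑ p, ∑ q, σ p * σ q * (if s ≤ j p q then (1 : ℝ) else 0) =
      ∑ p ∈ D, σ p * ∑ q ∈ D with (Quotient.mk R q) = Quotient.mk R p, σ q := by
    rw [← sum_filter_add_sum_filter_not univ (fun p => s ≤ j p p)]
    have h2 : ∑ p with ¬ s ≤ j p p, ∑ q, σ p * σ q * (if s ≤ j p q then (1 : ℝ) else 0) = 0 := by
      refine sum_eq_zero fun p hp => sum_eq_zero fun q _ => ?_
      rw [mem_filter] at hp
      rw [if_neg fun hs => hp.2 (hs.trans (h.le_diag p q)), mul_zero]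
    rw [h2, add_zero]
    refine sum_congr rfl fun p hp => ?_
    rw [mem_filter] at hp
    rw [mul_sum, sum_filter, hD, sum_filter]
    refine sum_congr rfl fun q _ => ?_
    by_cases hs : s ≤ j p q
    · rw [if_pos hs, if_pos (hs.trans (h.le_diag' p q)), if_pos, mul_one]
      exact Quotient.sound (Or.inr (by rwa [h.symm q p]))
    · rw [if_neg hs, mul_zero]
      by_cases hq : s ≤ j q q
      · rw [if_pos hq, if_neg]
        intro he
        rcases Quotient.exact he with rfl | h3
        · exact hs hq
        · exact hs (by rwa [h.symm p q])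
      · rw [if_neg hq]
  rw [h1, sum_partition R]
  refine sum_nonneg fun c _ => ?_
  have h3 : ∑ y ∈ D with (Quotient.mk R y) = c,
      σ y * ∑ q ∈ D with (Quotient.mk R q) = Quotient.mk R y, σ q =
      (∑ q ∈ D with (Quotient.mk R q) = c, σ q) * ∑ q ∈ D with (Quotient.mk R q) = c, σ q := by
    rw [sum_mul]
    refine sum_congr rfl fun y hy => ?_
    rw [mem_filter] at hy
    rw [hy.2]
  exact h3 ▸ mul_self_nonneg _

/-- Tree kernels are positive semidefinite. -/
theorem psd (h : IsTree j) (σ : P → ℝ) : 0 ≤ ∑ p, ∑ q, σ p * σ q * j p q := by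
  classical
  -- induction on the number of positive values
  have key : ∀ (n : ℕ) (j : P → P → ℝ), IsTree j →
      ((univ.image fun x : P × P => j x.1 x.2).filter fun t => 0 < t).card ≤ n →
      0 ≤ ∑ p, ∑ q, σ p * σ q * j p q := by
    intro n
    induction n with
    | zero =>
      intro j h hn
      rw [Nat.le_zero, card_eq_zero, filter_eq_empty_iff] at hn
      have h0 : ∀ p q, j p q = 0 := fun p q => le_antisymm
        (not_lt.1 (hn (mem_image.2 ⟨(p, q), mem_univ _, rfl⟩))) (h.nonneg p q)
      simp [h0]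
    | succ n ih =>
      intro j h hn
      set V := (univ.image fun x : P × P => j x.1 x.2).filter fun t => 0 < t with hV
      by_cases hVe : V = ∅
      · exact ih j h (by rw [← hV, hVe]; simp)
      · have hne : V.Nonempty := nonempty_iff_ne_empty.2 hVe
        set t := V.max' hne with ht
        have htV : t ∈ V := max'_mem V hne
        have ht0 : 0 < t := (mem_filter.1 htV).2
        set W := insert 0 (V.erase t) with hW
        have hWne : W.Nonempty := ⟨0, mem_insert_self _ _⟩
        set t' := W.max' hWne with ht'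
        have ht'0 : 0 ≤ t' := le_max' W 0 (mem_insert_self _ _)
        have ht't : t' < t := by
          rw [ht', max'_lt_iff]
          intro y hy
          rcases mem_insert.1 hy with rfl | hy
          · exact ht0
          · exact lt_of_le_of_ne (le_max' V y (mem_of_mem_erase hy)) (ne_of_mem_erase hy)
        have hval : ∀ p q, j p q = t ∨ j p q ≤ t' := by
          intro p q
          by_cases hp : 0 < j p q
          · have hm : j p q ∈ V := mem_filter.2 ⟨mem_image.2 ⟨(p, q), mem_univ _, rfl⟩, hp⟩
            by_cases he : j p q = t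
            · exact Or.inl he
            · exact Or.inr (le_max' W _ (mem_insert_of_mem (mem_erase.2 ⟨he, hm⟩)))
          · exact Or.inr ((not_lt.1 hp).trans ht'0)
        have hle : ∀ p q, j p q ≤ t := fun p q => (hval p q).elim le_of_eq
          fun h' => h'.trans ht't.le
        have h1 : IsTree fun p q => min (j p q) t' :=
          h.comp (fun x => min x t') (fun a b hab => min_le_min_right _ hab)
            fun x hx => le_min hx ht'0
        have h2 := ih _ h1 ?_
        · have h3 := h.psd_ind t σ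
          have h4 : ∑ p, ∑ q, σ p * σ q * j p q =
              ∑ p, ∑ q, σ p * σ q * min (j p q) t' +
                (t - t') * ∑ p, ∑ q, σ p * σ q * (if t ≤ j p q then 1 else 0) := by
            rw [mul_sum, ← sum_add_distrib]
            refine sum_congr rfl fun p _ => ?_
            rw [mul_sum, ← sum_add_distrib]
            refine sum_congr rfl fun q _ => ?_
            rcases hval p q with h5 | h5
            · rw [if_pos h5.ge, h5, min_eq_right ht't.le]; ring
            · rw [if_neg (not_le.2 (h5.trans_lt ht't)), min_eq_left h5]; ring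
          rw [h4]
          exact add_nonneg h2 (mul_nonneg (sub_nonneg.2 ht't.le) h3)
        · have hsub : ((univ.image fun x : P × P => min (j x.1 x.2) t').filter fun t => 0 < t) ⊆
              V.erase t := by
            intro y hy
            rw [mem_filter, mem_image] at hy
            obtain ⟨⟨x, -, rfl⟩, hy0⟩ := hy
            rw [mem_erase]
            refine ⟨((min_le_right _ _).trans_lt ht't).ne, ?_⟩
            rcases hval x.1 x.2 with h5 | h5
            · rw [h5, min_eq_right ht't.le] at hy0 ⊢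
              have h6 : t' ∈ W := max'_mem W hWne
              rcases mem_insert.1 h6 with h7 | h7
              · exact absurd h7 hy0.ne'
              · exact mem_of_mem_erase h7
            · rw [min_eq_left h5] at hy0 ⊢
              exact mem_filter.2 ⟨mem_image.2 ⟨x, mem_univ _, rfl⟩, hy0⟩
          have h6 := card_le_card hsub
          rw [card_erase_of_mem htV] at h6
          omega
  exact key _ j h le_rfl

end IsTree

/-- Cauchy's inequality for a positive semidefinite kernel, degenerate case. -/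
theorem bilin_eq_zero {P : Type*} [Fintype P] {K : P → P → ℝ} (hs : ∀ p q, K p q = K q p)
    (hK : ∀ σ : P → ℝ, 0 ≤ ∑ p, ∑ q, σ p * σ q * K p q) (σ τ : P → ℝ)
    (h0 : ∑ p, ∑ q, σ p * σ q * K p q ≤ 0) : ∑ p, ∑ q, σ p * τ q * K p q = 0 := by
  have h1 : ∀ x : ℝ, 0 ≤ 2 * x * (∑ p, ∑ q, σ p * τ q * K p q) +
      x ^ 2 * ∑ p, ∑ q, τ p * τ q * K p q := by
    intro x
    have h2 := hK fun p => σ p + x * τ p
    have h3 : ∑ p, ∑ q, τ p * σ q * K p q = ∑ p, ∑ q, σ p * τ q * K p q := by
      rw [sum_comm]
      refine sum_congr rfl fun p _ => sum_congr rfl fun q _ => ?_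
      rw [hs]; ring
    have h4 : ∑ p, ∑ q, (σ p + x * τ p) * (σ q + x * τ q) * K p q =
        ∑ p, ∑ q, σ p * σ q * K p q + x * (∑ p, ∑ q, σ p * τ q * K p q) +
          x * (∑ p, ∑ q, τ p * σ q * K p q) + x ^ 2 * ∑ p, ∑ q, τ p * τ q * K p q := by
      simp only [mul_sum, ← sum_add_distrib]
      refine sum_congr rfl fun p _ => sum_congr rfl fun q _ => ?_
      ring
    rw [h4, h3] at h2
    linarith
  set b := ∑ p, ∑ q, σ p * τ q * K p q with hb
  set c := ∑ p, ∑ q, τ p * τ q * K p q with hc
  have hc0 : 0 ≤ c := hK τ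
  by_contra hne
  have h5 := h1 (-b / (c + 1))
  have h6 : 2 * (-b / (c + 1)) * b + (-b / (c + 1)) ^ 2 * c =
      -(b ^ 2) * (c + 2) / (c + 1) ^ 2 := by
    field_simp
    ring
  rw [h6] at h5
  have h7 : 0 < b ^ 2 := by positivity
  have h8 : -(b ^ 2) * (c + 2) / (c + 1) ^ 2 < 0 := by
    apply div_neg_of_neg_of_pos
    · nlinarith
    · positivity
  linarith

namespace IsTree

variable {P : Type*} {j : P → P → ℝ} [Fintype P]

open Classical in
/-- The mass of a class at a positive threshold. -/
theorem class_zero (h : IsTree j) (σ : P → ℝ) (h0 : ∑ p, ∑ q, σ p * σ q * j p q ≤ 0)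
    {s : ℝ} (hs : 0 < s) (p : P) : ∑ q with s ≤ j p q, σ q = 0 := by
  -- a gap below `s`
  obtain ⟨δ, hδ0, hδs, hδ⟩ : ∃ δ : ℝ, 0 < δ ∧ δ ≤ s ∧ ∀ p q, j p q < s → j p q ≤ s - δ := by
    by_cases hne : ((univ : Finset (P × P)).filter fun x => j x.1 x.2 < s).Nonempty
    · obtain ⟨x, hx, hx'⟩ := exists_max_image _ (fun x : P × P => j x.1 x.2) hne
      refine ⟨s - j x.1 x.2, sub_pos.2 (mem_filter.1 hx).2, ?_, fun p q hpq => ?_⟩
      · have := h.nonneg x.1 x.2; linarith
      · have := hx' (p, q) (mem_filter.2 ⟨mem_univ _, hpq⟩)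
        simp only at this
        linarith
    · refine ⟨s, hs, le_rfl, fun p q hpq => ?_⟩
      exact absurd ⟨(p, q), mem_filter.2 ⟨mem_univ _, hpq⟩⟩ hne
  set φ : ℝ → ℝ := fun x => if s ≤ x then x - δ else min x (s - δ) with hφ
  have hmono : Monotone φ := by
    intro a b hab
    simp only [hφ]
    split_ifs with h1 h2 h2
    · linarith
    · exact absurd (h1.trans hab) h2
    · exact (min_le_right _ _).trans (by linarith)
    · exact min_le_min_right _ hab
  have hφ0 : ∀ x, 0 ≤ x → 0 ≤ φ x := by
    intro x hx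
    simp only [hφ]
    split_ifs with h1
    · linarith
    · exact le_min hx (by linarith)
  have h1 := (h.comp φ hmono hφ0).psd σ
  have h2 : ∑ p, ∑ q, σ p * σ q * φ (j p q) = ∑ p, ∑ q, σ p * σ q * j p q -
      δ * ∑ p, ∑ q, σ p * σ q * (if s ≤ j p q then 1 else 0) := by
    rw [mul_sum, ← sum_sub_distrib]
    refine sum_congr rfl fun p _ => ?_
    rw [mul_sum, ← sum_sub_distrib]
    refine sum_congr rfl fun q _ => ?_
    simp only [hφ]
    by_cases h3 : s ≤ j p q
    · rw [if_pos h3, if_pos h3]; ring
    · rw [if_neg h3, if_neg h3, min_eq_left (hδ p q (not_le.1 h3))]; ring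
  have h3 : ∑ p, ∑ q, σ p * σ q * (if s ≤ j p q then (1 : ℝ) else 0) ≤ 0 := by
    have h4 : δ * ∑ p, ∑ q, σ p * σ q * (if s ≤ j p q then (1 : ℝ) else 0) ≤ 0 := by linarith
    exact nonpos_of_mul_nonpos_right h4 hδ0
  have h4 := bilin_eq_zero (K := fun p q => if s ≤ j p q then (1 : ℝ) else 0)
    (fun p q => by rw [h.symm p q]) (fun τ => h.psd_ind s τ) σ (fun q => if q = p then 1 else 0) h3
  rw [sum_comm] at h4
  rw [sum_eq_single p] at h4
  · rw [sum_filter]
    refine Eq.trans (sum_congr rfl fun q _ => ?_) h4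
    rw [h.symm p q, if_pos rfl]
    by_cases h5 : s ≤ j q p
    · rw [if_pos h5, if_pos h5]; ring
    · rw [if_neg h5, if_neg h5]; ring
  · intro q _ hq
    refine sum_eq_zero fun r _ => ?_
    rw [if_neg hq]; ring
  · intro h5; exact absurd (mem_univ p) h5

open Classical in
/-- Lemma Z: a measure of mass zero and energy zero gives mass zero to the classes of the
relation `j p q = j p p = j q q`. -/
theorem lemma_Z (h : IsTree j) (σ : P → ℝ) (hm : ∑ p, σ p = 0)
    (h0 : ∑ p, ∑ q, σ p * σ q * j p q ≤ 0) (p : P) :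
    ∑ q with j p q = j p p ∧ j q q = j p p, σ q = 0 := by
  set v := j p p with hv
  have hv0 : 0 ≤ v := h.nonneg p p
  -- the class at the threshold `v`
  have h1 : ∑ q with v ≤ j p q, σ q = 0 := by
    rcases hv0.eq_or_lt with h2 | h2
    · rw [← hm]
      refine sum_congr ?_ fun _ _ => rfl
      refine filter_true_of_mem fun q _ => ?_
      rw [← h2]; exact h.nonneg p q
    · exact h.class_zero σ h0 h2 p
  -- a gap above `v`
  obtain ⟨s, hs, hs'⟩ : ∃ s : ℝ, v < s ∧ ∀ a b, v < j a b → s ≤ j a b := by
    by_cases hne : ((univ : Finset (P × P)).filter fun x => v < j x.1 x.2).Nonempty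
    · obtain ⟨x, hx, hx'⟩ := exists_min_image _ (fun x : P × P => j x.1 x.2) hne
      exact ⟨j x.1 x.2, (mem_filter.1 hx).2, fun a b hab =>
        hx' (a, b) (mem_filter.2 ⟨mem_univ _, hab⟩)⟩
    · refine ⟨v + 1, by linarith, fun a b hab => ?_⟩
      exact absurd ⟨(a, b), mem_filter.2 ⟨mem_univ _, hab⟩⟩ hne
  set U : Finset P := univ.filter fun q => v ≤ j p q ∧ v < j q q with hU
  have h2 : ∑ q ∈ U, σ q = 0 := by
    rw [sum_partition (h.rel s)]
    refine sum_eq_zero fun c hc => ?_
    obtain ⟨x, hx, rfl⟩ := mem_image.1 hc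
    rw [hU, mem_filter] at hx
    rw [← h.class_zero σ h0 (hv0.trans_lt hs) x]
    refine sum_congr ?_ fun _ _ => rfl
    ext q
    simp only [hU, mem_filter, mem_univ, true_and]
    constructor
    · rintro ⟨⟨h3, h4⟩, h5⟩
      rcases Quotient.exact h5 with h6 | h6
      · rw [h6]; exact hs' _ _ hx.2.2
      · rwa [h.symm x q]
    · intro h3
      refine ⟨⟨?_, ?_⟩, Quotient.sound (Or.inr (by rwa [h.symm q x]))⟩
      · exact (le_min hx.2.1 (hs.le.trans h3)).trans (h.tri p x q)
      · exact hs.trans_le (h3.trans (h.le_diag' x q))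
  have h3 : (univ.filter fun q => v ≤ j p q) =
      (univ.filter fun q => j p q = v ∧ j q q = v) ∪ U := by
    ext q
    rw [mem_union, mem_filter, mem_filter, hU, mem_filter]
    constructor
    · rintro ⟨-, h4⟩
      have h5 : j p q = v := le_antisymm (h.le_diag p q) h4
      rcases (h4.trans (h.le_diag' p q)).eq_or_lt with h6 | h6
      · exact Or.inl ⟨mem_univ _, h5, h6.symm⟩
      · exact Or.inr ⟨mem_univ _, h4, h6⟩
    · rintro (⟨-, h4, -⟩ | ⟨-, h4, -⟩)
      · exact ⟨mem_univ _, h4.ge⟩
      · exact ⟨mem_univ _, h4⟩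
  have h4 : Disjoint (univ.filter fun q => j p q = v ∧ j q q = v) U := by
    rw [Finset.disjoint_left]
    intro q hq hq'
    rw [mem_filter] at hq
    rw [hU, mem_filter] at hq'
    exact absurd hq.2.2 hq'.2.2.ne'
  rw [h3, sum_union h4, h2, add_zero] at h1
  exact h1

end IsTree

end Pool.Agent.RI
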